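import Pool.Agent.Lib.H46K.ABDefs

/-!
# H46K, Part A: definitions (no proofs)
-/

open scoped BigOperators

namespace H46K

/-- The sides of an open polygonal arc. -/
def osides (l : List P3) : List (P3 × P3) := l.zip l.tail

open Classical in
/-- The number modulo 2 of the pairs (side in `l`, side in `l'`) such that the first passes over
the second one. -/
noncomputable def ov (d : P3) (l l' : List (P3 × P3)) : ZMod 2 :=
  (l.map fun s => (l'.map fun t => if Over d s t then (1 : ZMod 2) else 0).sum).sum

/-- The form on pairs of edges: the parity of the number of pairs (side of the arc of `e`, side of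
the arc of `e'`) such that the first passes over the second one. -/
noncomputable def EE {V : Type*} {G : SimpleGraph V} (f : SpatialGraph G) (d : P3)
    (e e' : Sym2 V) : ZMod 2 :=
  ov d (osides (f.arc (Quot.out e).1 (Quot.out e).2)) (osides (f.arc (Quot.out e').1 (Quot.out e').2))

/-- `(x, y)` is an odd pair of chains, and every odd pair of disjoint cycles of `G`
contains it (in one of the two orders). -/
structure UniqueOdd {V : Type*} [Fintype V] [DecidableEq V] (G : SimpleGraph V)
    (E : Sym2 V → Sym2 V → ZMod 2) (x y : Sym2 V → ZMod 2) : Prop where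
  one : bil E x y = 1
  uniq : ∀ (a : V) (c₁ : G.Walk a a) (b : V) (c₂ : G.Walk b b), c₁.IsCycle → c₂.IsCycle →
    List.Disjoint c₁.support c₂.support → bil E (chi c₁) (chi c₂) = 1 →
    (CLe x (chi c₁) ∧ CLe y (chi c₂)) ∨ (CLe y (chi c₁) ∧ CLe x (chi c₂))

/-- `(x, y)` is an odd pair of chains, and every odd pair of disjoint elements of the cycle space
of `G` contains it (in one of the two orders). -/
structure OddSys {V : Type*} [Fintype V] [DecidableEq V] (G : SimpleGraph V)
    (E : Sym2 V → Sym2 V → ZMod 2) (x y : Sym2 V → ZMod 2) : Prop where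
  one : bil E x y = 1
  odd : ∀ z z', IsCyc G z → IsCyc G z' → VDisj z z' → bil E z z' = 1 →
    (CLe x z ∧ CLe y z') ∨ (CLe y z ∧ CLe x z')

end H46K
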