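import Pool.Agent.Lib.H46K.A0

/-!
# H46K, Part A, chunk A1: the sides of the polygon of a closed walk; the form `EE`
-/

open scoped BigOperators

namespace H46K

variable {V : Type*} {G : SimpleGraph V}

theorem A1_osides_cons (a b : P3) (l : List P3) : osides (a :: b :: l) = (a, b) :: osides (b :: l) :=
  rfl

theorem A1_osides_single (a : P3) : osides [a] = [] := rfl

/-- `osides` of two consecutive arcs with a common point.
Proof: induction on `l`. -/
theorem osides_append (l : List P3) (p : P3) (m : List P3) :
    osides (l ++ p :: m) = osides (l ++ [p]) ++ osides (p :: m) := by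
  induction l with
  | nil => rfl
  | cons a l ih =>
    cases l with
    | nil => rfl
    | cons b l =>
      simp only [List.cons_append] at ih ⊢
      rw [A1_osides_cons, A1_osides_cons, ih, List.cons_append]

/-- The sides of a closed polygon `p :: l` are the sides of the arc `p :: l ++ [p]`.
Proof: `(p :: l).rotate 1 = l ++ [p]`, and `zip` cuts off the last entry. -/
theorem sides_cons (p : P3) (l : List P3) : sides (p :: l) = osides (p :: l ++ [p]) := by
  have h1 : (p :: l).rotate 1 = l ++ [p] := by simp
  unfold sides osides
  rw [h1]
  have h2 : (p :: l ++ [p]).tail = (l ++ [p]) ++ [] := by simp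
  rw [h2, List.zip_append (by simp)]
  simp

theorem A1_poly_head (f : SpatialGraph G) {u v : V} (w : G.Walk u v) :
    ∃ m, f.poly w ++ [f.pt v] = f.pt u :: m := by
  cases w with
  | nil => exact ⟨[], rfl⟩
  | cons h q => exact ⟨_, rfl⟩

/-- The polygon of a walk, together with its end point.
Proof: induction on the walk. For `w = cons h q` (`h : G.Adj a b`, `q : G.Walk b v`):
`poly w ++ [pt v] = pt a :: (mid a b ++ (poly q ++ [pt v]))`, and `poly q ++ [pt v]` is a list
with first entry `pt b` (cases on `q`); use `osides_append` with `l = pt a :: mid a b`, `p = pt b`.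
For `nil`: `osides [p] = []`. -/
theorem osides_poly (f : SpatialGraph G) {u v : V} (w : G.Walk u v) :
    osides (f.poly w ++ [f.pt v]) = (w.darts.map fun δ => osides (f.arc δ.fst δ.snd)).flatten := by
  induction w with
  | nil => rfl
  | @cons a b c h q ih =>
    obtain ⟨m, hm⟩ := A1_poly_head f q
    have h1 : f.poly (SimpleGraph.Walk.cons h q) ++ [f.pt c] =
        (f.pt a :: f.mid a b) ++ f.pt b :: m := by
      rw [← hm]
      simp [SpatialGraph.poly]
    rw [h1, osides_append, ← hm, ih]
    simp [SpatialGraph.arc]

/-- The sides of the polygon of a closed walk.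
Proof: for `nil` both sides are `[]`. For `c = cons h q`, `f.poly c = f.pt a :: _`, so by
`sides_cons` the claim is `osides_poly f c`. -/
theorem sides_poly (f : SpatialGraph G) {a : V} (c : G.Walk a a) :
    sides (f.poly c) = (c.darts.map fun δ => osides (f.arc δ.fst δ.snd)).flatten := by
  rw [← osides_poly f c]
  cases c with
  | nil => rfl
  | cons h q =>
    simp only [SpatialGraph.poly]
    exact sides_cons _ _

/-- The sides of the reversed arc are the swapped sides, in the reversed order.
Proof: induction on `l` with `osides_append` (or compare the entries). -/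
theorem osides_reverse (l : List P3) :
    osides l.reverse = ((osides l).map Prod.swap).reverse := by
  induction l with
  | nil => rfl
  | cons a l ih =>
    cases l with
    | nil => rfl
    | cons b l =>
      have h1 : (a :: b :: l).reverse = l.reverse ++ b :: [a] := by simp
      rw [h1, osides_append, A1_osides_cons, A1_osides_cons, List.map_cons, List.reverse_cons,
        ← ih, List.reverse_cons, A1_osides_single]
      rfl

/-- `Over` does not see the orientation of the sides (`segment_symm`). -/
theorem over_swap_left (d : P3) (s t : P3 × P3) : Over d s.swap t ↔ Over d s t := by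
  unfold Over
  rw [Prod.fst_swap, Prod.snd_swap, segment_symm]

/-- `Over` does not see the orientation of the sides (`segment_symm`). -/
theorem over_swap_right (d : P3) (s t : P3 × P3) : Over d s t.swap ↔ Over d s t := by
  unfold Over
  rw [Prod.fst_swap, Prod.snd_swap, segment_symm ℝ t.2 t.1]

/-- `ov` does not see the orientation of the first arc.
Proof: `osides_reverse`, sum of a reversed list (`List.sum_reverse`), `over_swap_left`. -/
theorem ov_reverse_left (d : P3) (l : List P3) (m : List (P3 × P3)) :
    ov d (osides l.reverse) m = ov d (osides l) m := by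
  unfold ov
  rw [osides_reverse, List.map_reverse, List.sum_reverse, List.map_map]
  congr 1
  refine List.map_congr_left fun s _ ↦ ?_
  simp only [Function.comp_apply]
  congr 1
  refine List.map_congr_left fun t _ ↦ ?_
  classical exact if_congr (over_swap_left d s t) rfl rfl

/-- `ov` does not see the orientation of the second arc. -/
theorem ov_reverse_right (d : P3) (l : List (P3 × P3)) (m : List P3) :
    ov d l (osides m.reverse) = ov d l (osides m) := by
  unfold ov
  congr 1
  refine List.map_congr_left fun s _ ↦ ?_
  rw [osides_reverse, List.map_reverse, List.sum_reverse, List.map_map]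
  congr 1
  refine List.map_congr_left fun t _ ↦ ?_
  classical exact if_congr (over_swap_right d s t) rfl rfl

/-- `f.arc v u` is the reversed `f.arc u v`. -/
theorem arc_symm (f : SpatialGraph G) {u v : V} (h : G.Adj u v) :
    f.arc v u = (f.arc u v).reverse := by
  unfold SpatialGraph.arc
  rw [f.mid_symm u v h]
  simp

theorem A1_out (u v : V) :
    (Quot.out s(u, v) = (u, v)) ∨ (Quot.out s(u, v) = (v, u)) := by
  have h : s((Quot.out s(u, v)).1, (Quot.out s(u, v)).2) = s(u, v) := Quot.out_eq s(u, v)
  rcases Sym2.eq_iff.1 h with ⟨h1, h2⟩ | ⟨h1, h2⟩
  · exact Or.inl (Prod.ext h1 h2)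
  · exact Or.inr (Prod.ext h1 h2)

/-- The form `EE` does not depend on the choice of the representatives.
Proof: `Quot.out s(u,v)` is `(u,v)` or `(v,u)` (`Quot.out_eq`, `Sym2.eq_iff`); in the second case
use `arc_symm` and `ov_reverse_left`; the same for the second argument. -/
theorem EE_mk (f : SpatialGraph G) (d : P3) {u v u' v' : V} (h : G.Adj u v) (h' : G.Adj u' v') :
    EE f d s(u, v) s(u', v') = ov d (osides (f.arc u v)) (osides (f.arc u' v')) := by
  unfold EE
  rcases A1_out u v with h1 | h1 <;> rcases A1_out u' v' with h2 | h2 <;> rw [h1, h2]
  · rw [arc_symm f h', ov_reverse_right]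
  · rw [arc_symm f h, ov_reverse_left]
  · rw [arc_symm f h, arc_symm f h', ov_reverse_left, ov_reverse_right]

end H46K
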