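import Pool.Agent.Lib.H46K.A1

/-!
# H46K, Part A, chunk A2: `lk2` is the bilinear form of `EE`
-/

open scoped BigOperators

namespace H46K

theorem A2_count {V : Type*} [Fintype V] [DecidableEq V] (l : List (Sym2 V))
    (F : Sym2 V → ZMod 2) : ∑ e, (l.count e : ZMod 2) * F e = (l.map F).sum := by
  induction l with
  | nil => simp
  | cons a l ih =>
    rw [List.map_cons, List.sum_cons, ← ih]
    have h1 : ∀ e : Sym2 V, ((a :: l).count e : ZMod 2) * F e =
        (if a = e then F e else 0) + (l.count e : ZMod 2) * F e := by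
      intro e
      rw [List.count_cons]
      by_cases h : a = e
      · simp [h]
        ring
      · simp [h]
    rw [Finset.sum_congr rfl fun e _ ↦ h1 e, Finset.sum_add_distrib]
    simp

/-- The bilinear form of the chains of two walks is the double sum over the lists of edges.
Proof: `∑ e, (l.count e : ZMod 2) * F e = (l.map F).sum` for every list `l` of edges (induction on
`l`: `List.count_cons`, `Finset.sum_ite_eq`), twice. -/
theorem bil_chi {V : Type*} [Fintype V] [DecidableEq V] {G : SimpleGraph V}
    (E : Sym2 V → Sym2 V → ZMod 2) {u v u' v' : V} (w : G.Walk u v) (w' : G.Walk u' v') :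
    bil E (chi w) (chi w') = (w.edges.map fun e => (w'.edges.map fun e' => E e e').sum).sum := by
  unfold bil chi
  rw [← A2_count]
  refine Finset.sum_congr rfl fun e _ ↦ ?_
  rw [← A2_count, Finset.mul_sum]
  refine Finset.sum_congr rfl fun e' _ ↦ ?_
  ring

theorem A2_ov_flatten_left (d : P3) (L : List (List (P3 × P3))) (m : List (P3 × P3)) :
    ov d L.flatten m = (L.map fun l ↦ ov d l m).sum := by
  induction L with
  | nil => rfl
  | cons l L ih =>
    rw [List.flatten_cons, List.map_cons, List.sum_cons, ← ih]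
    unfold ov
    rw [List.map_append, List.sum_append]

theorem A2_ov_append_right (d : P3) (l m m' : List (P3 × P3)) :
    ov d l (m ++ m') = ov d l m + ov d l m' := by
  induction l with
  | nil => simp [ov]
  | cons s l ih =>
    simp only [ov, List.map_cons, List.sum_cons] at ih ⊢
    rw [ih, List.map_append, List.sum_append]
    ring

theorem A2_ov_flatten_right (d : P3) (l : List (P3 × P3)) (M : List (List (P3 × P3))) :
    ov d l M.flatten = (M.map fun m ↦ ov d l m).sum := by
  induction M with
  | nil => simp [ov]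
  | cons m M ih =>
    rw [List.flatten_cons, List.map_cons, List.sum_cons, ← ih, A2_ov_append_right]

/-- `lk2` of two closed walks is the bilinear form of their chains with respect to `EE f d`.
Proof: by `sides_poly` both lists of sides are flattened lists over the darts, so
`lk2 = Σ_{δ} Σ_{δ'} ov d (osides (arc δ)) (osides (arc δ'))` (`List.map_flatten`, `List.sum_flatten`,
or induction on the lists of darts); by `EE_mk` each term is `EE f d δ.edge δ'.edge`, and
`w.edges = w.darts.map Dart.edge`; conclude with `bil_chi`. -/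
theorem lk2_eq_bil {V : Type*} [Fintype V] [DecidableEq V] {G : SimpleGraph V}
    (f : SpatialGraph G) (d : P3) {a b : V} (c₁ : G.Walk a a) (c₂ : G.Walk b b) :
    lk2 d (f.poly c₁) (f.poly c₂) = bil (EE f d) (chi c₁) (chi c₂) := by
  have h0 : lk2 d (f.poly c₁) (f.poly c₂) = ov d (sides (f.poly c₁)) (sides (f.poly c₂)) := rfl
  rw [h0, bil_chi, sides_poly, sides_poly, A2_ov_flatten_left, List.map_map]
  unfold SimpleGraph.Walk.edges
  rw [List.map_map]
  congr 1
  refine List.map_congr_left fun δ _ ↦ ?_
  simp only [Function.comp_apply]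
  rw [A2_ov_flatten_right, List.map_map, List.map_map]
  congr 1
  refine List.map_congr_left fun δ' _ ↦ ?_
  exact (EE_mk f d δ.adj δ'.adj).symm

theorem A2_chi_ne {V : Type*} [DecidableEq V] {G : SimpleGraph V} {a : V} {c : G.Walk a a}
    (hc : c.IsCycle) (e : Sym2 V) : chi c e ≠ 0 ↔ e ∈ c.edges := by
  unfold chi
  constructor
  · intro h
    by_contra hcon
    rw [List.count_eq_zero_of_not_mem hcon] at h
    exact h rfl
  · intro h
    rw [List.count_eq_one_of_mem hc.edges_nodup h]
    decide

theorem A2_CLe {V : Type*} [DecidableEq V] {G : SimpleGraph V} {a b : V} {c : G.Walk a a}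
    {c' : G.Walk b b} (hc : c.IsCycle) (hc' : c'.IsCycle) (h : c'.toSubgraph = c.toSubgraph) :
    CLe (chi c) (chi c') := by
  intro e he
  rw [A2_chi_ne hc] at he
  rw [A2_chi_ne hc', ← SimpleGraph.Walk.mem_edges_toSubgraph, h,
    SimpleGraph.Walk.mem_edges_toSubgraph]
  exact he

/-- From the geometric to the combinatorial statement.
Proof: take the cycles of `ExactlyOneOddLink`; `lk2_eq_bil`; `c₁'.toSubgraph = c₁.toSubgraph`
implies that the two walks have the same edges (`Walk.mem_edges_toSubgraph`), and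
`chi c e ≠ 0 → e ∈ c.edges`, and `e ∈ c.edges → chi c e ≠ 0` for a cycle `c` (`edges_nodup`, so
the count is 1). -/
theorem uniqueOdd_of_exactlyOne {V : Type*} [Fintype V] [DecidableEq V] {G : SimpleGraph V}
    (f : SpatialGraph G) (d : P3) (h : ExactlyOneOddLink f d) :
    ∃ (a : V) (c₁ : G.Walk a a) (b : V) (c₂ : G.Walk b b), c₁.IsCycle ∧ c₂.IsCycle ∧
      List.Disjoint c₁.support c₂.support ∧ UniqueOdd G (EE f d) (chi c₁) (chi c₂) := by
  obtain ⟨a, c₁, b, c₂, h1, h2, hd, h3, h4⟩ := h
  refine ⟨a, c₁, b, c₂, h1, h2, hd, ?_, ?_⟩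
  · rw [← lk2_eq_bil]
    exact h3
  · intro a' c₁' b' c₂' h1' h2' hd' h3'
    rw [← lk2_eq_bil] at h3'
    rcases h4 a' c₁' b' c₂' h1' h2' hd' h3' with ⟨g1, g2⟩ | ⟨g1, g2⟩
    · exact Or.inl ⟨A2_CLe h1 h1' g1, A2_CLe h2 h2' g2⟩
    · exact Or.inr ⟨A2_CLe h2 h1' g1, A2_CLe h1 h2' g2⟩

end H46K
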