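import Pool.Agent.Lib.H46K.A0

/-!
# H46K, Part A, chunk A3: elementary facts on chains
-/

open scoped BigOperators

namespace H46K

variable {V : Type*} {G : SimpleGraph V}

/-- `chi` of a cycle is the indicator of its edges (they are not repeated). -/
theorem chi_of_isCycle [DecidableEq V] {a : V} {c : G.Walk a a} (hc : c.IsCycle) (e : Sym2 V) :
    chi c e = if e ∈ c.edges then 1 else 0 := by
  unfold chi
  split_ifs with h
  · rw [List.count_eq_one_of_mem hc.edges_nodup h]
    simp
  · rw [List.count_eq_zero_of_not_mem h]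
    simp

/-- A chain is nonzero only on the edges of the walk. -/
theorem mem_edges_of_chi_ne [DecidableEq V] {u v : V} {w : G.Walk u v} {e : Sym2 V}
    (h : chi w e ≠ 0) : e ∈ w.edges := by
  by_contra hn
  apply h
  unfold chi
  rw [List.count_eq_zero_of_not_mem hn]
  simp

theorem chi_ne_iff_of_isCycle [DecidableEq V] {a : V} {c : G.Walk a a} (hc : c.IsCycle)
    (e : Sym2 V) : chi c e ≠ 0 ↔ e ∈ c.edges := by
  rw [chi_of_isCycle hc]
  by_cases h : e ∈ c.edges <;> simp [h]

theorem chi_append [DecidableEq V] {u v w : V} (p : G.Walk u v) (q : G.Walk v w) (e : Sym2 V) :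
    chi (p.append q) e = chi p e + chi q e := by
  unfold chi
  rw [SimpleGraph.Walk.edges_append, List.count_append]
  push_cast
  rfl

theorem chi_reverse [DecidableEq V] {u v : V} (p : G.Walk u v) (e : Sym2 V) :
    chi p.reverse e = chi p e := by
  unfold chi
  rw [SimpleGraph.Walk.edges_reverse, List.count_reverse]

theorem A3_chi_cons [DecidableEq V] {u v w : V} (h : G.Adj u v) (p : G.Walk v w) (e : Sym2 V) :
    chi (SimpleGraph.Walk.cons h p) e = (if e = s(u, v) then 1 else 0) + chi p e := by
  unfold chi
  rw [SimpleGraph.Walk.edges_cons, List.count_cons]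
  by_cases he : e = s(u, v)
  · subst he
    simp [add_comm]
  · have : s(u, v) ≠ e := fun h => he h.symm
    simp [he, this]

/-- The boundary of the chain of a walk from `u` to `v` is `[u] + [v]`.
Proof: induction on the walk; the boundary of an edge `s(a, b)`, `a ≠ b`, is `[a] + [b]`. -/
theorem chi_boundary [Fintype V] [DecidableEq V] {u v : V} (w : G.Walk u v) (x : V) :
    ∑ e : Sym2 V, (if x ∈ e then chi w e else 0) =
      (if x = u then (1 : ZMod 2) else 0) + (if x = v then 1 else 0) := by
  induction w with
  | @nil a =>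
    have : ∀ e : Sym2 V, (if x ∈ e then chi (SimpleGraph.Walk.nil : G.Walk a a) e else 0) =
        (0 : ZMod 2) := by
      intro e
      simp [chi]
    rw [Finset.sum_congr rfl fun e _ => this e]
    rw [Finset.sum_const_zero]
    exact (CharTwo.add_self_eq_zero _).symm
  | @cons a b c h p ih =>
    have h1 : ∀ e : Sym2 V, (if x ∈ e then chi (SimpleGraph.Walk.cons h p) e else 0) =
        (if x ∈ e then (if e = s(a, b) then (1 : ZMod 2) else 0) else 0) +
          (if x ∈ e then chi p e else 0) := by
      intro e
      rw [A3_chi_cons]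
      split_ifs <;> simp
    rw [Finset.sum_congr rfl fun e _ => h1 e, Finset.sum_add_distrib, ih]
    have h2 : ∑ e : Sym2 V, (if x ∈ e then (if e = s(a, b) then (1 : ZMod 2) else 0) else 0) =
        if x ∈ s(a, b) then 1 else 0 := by
      rw [Finset.sum_eq_single s(a, b)]
      · simp
      · intro e _ he
        simp [he]
      · intro hn
        exact absurd (Finset.mem_univ _) hn
    rw [h2]
    have hab : a ≠ b := h.ne
    by_cases hxa : x = a
    · subst hxa
      have : x ≠ b := hab
      simp [this]
    · by_cases hxb : x = b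
      · subst hxb
        simp only [Sym2.mem_iff, hxa, false_or, if_true, if_false, zero_add]
        rw [← add_assoc, CharTwo.add_self_eq_zero, zero_add]
      · simp [hxa, hxb]

/-- The chain of a closed walk is in the cycle space. -/
theorem isCyc_chi [Fintype V] [DecidableEq V] {a : V} (c : G.Walk a a) : IsCyc G (chi c) := by
  refine ⟨fun e he => ?_, fun v => ?_⟩
  · exact c.edges_subset_edgeSet (mem_edges_of_chi_ne he)
  · rw [chi_boundary]
    exact CharTwo.add_self_eq_zero _

theorem IsCyc.add [Fintype V] [DecidableEq V] {z z' : Sym2 V → ZMod 2} (h : IsCyc G z)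
    (h' : IsCyc G z') : IsCyc G (fun e => z e + z' e) := by
  refine ⟨fun e he => ?_, fun v => ?_⟩
  · by_cases h0 : z e = 0
    · apply h'.1 e
      intro h1
      apply he
      simp [h0, h1]
    · exact h.1 e h0
  · have h1 : ∀ e : Sym2 V, (if v ∈ e then z e + z' e else 0) =
        (if v ∈ e then z e else 0) + (if v ∈ e then z' e else 0) := by
      intro e
      split_ifs <;> simp
    rw [Finset.sum_congr rfl fun e _ => h1 e, Finset.sum_add_distrib, h.2 v, h'.2 v, add_zero]

theorem bil_add_left [Fintype V] [DecidableEq V] (E : Sym2 V → Sym2 V → ZMod 2)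
    (z w z' : Sym2 V → ZMod 2) :
    bil E (fun e => z e + w e) z' = bil E z z' + bil E w z' := by
  unfold bil
  rw [← Finset.sum_add_distrib]
  refine Finset.sum_congr rfl fun e _ => ?_
  rw [← Finset.sum_add_distrib]
  refine Finset.sum_congr rfl fun e' _ => ?_
  ring

theorem bil_add_right [Fintype V] [DecidableEq V] (E : Sym2 V → Sym2 V → ZMod 2)
    (z z' w : Sym2 V → ZMod 2) :
    bil E z (fun e => z' e + w e) = bil E z z' + bil E z w := by
  unfold bil
  rw [← Finset.sum_add_distrib]
  refine Finset.sum_congr rfl fun e _ => ?_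
  rw [← Finset.sum_add_distrib]
  refine Finset.sum_congr rfl fun e' _ => ?_
  ring

theorem bil_swap [Fintype V] [DecidableEq V] (E : Sym2 V → Sym2 V → ZMod 2)
    (z z' : Sym2 V → ZMod 2) : bil (fun e e' => E e' e) z' z = bil E z z' := by
  unfold bil
  rw [Finset.sum_comm]
  refine Finset.sum_congr rfl fun e _ => ?_
  refine Finset.sum_congr rfl fun e' _ => ?_
  ring

/-- If `bil E z z' ≠ 0` then neither chain vanishes identically. -/
theorem exists_ne_of_bil_ne [Fintype V] [DecidableEq V] {E : Sym2 V → Sym2 V → ZMod 2}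
    {z z' : Sym2 V → ZMod 2} (h : bil E z z' ≠ 0) : (∃ e, z e ≠ 0) ∧ ∃ e, z' e ≠ 0 := by
  constructor
  · by_contra hn
    push Not at hn
    apply h
    unfold bil
    refine Finset.sum_eq_zero fun e _ => Finset.sum_eq_zero fun e' _ => ?_
    rw [hn e]
    ring
  · by_contra hn
    push Not at hn
    apply h
    unfold bil
    refine Finset.sum_eq_zero fun e _ => Finset.sum_eq_zero fun e' _ => ?_
    rw [hn e']
    ring

/-- Exchanging the two arguments. -/
theorem OddSys.swap [Fintype V] [DecidableEq V] {E : Sym2 V → Sym2 V → ZMod 2}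
    {x y : Sym2 V → ZMod 2} (h : OddSys G E x y) : OddSys G (fun e e' => E e' e) y x := by
  refine ⟨?_, fun z z' hz hz' hd hb => ?_⟩
  · rw [bil_swap]
    exact h.one
  · rw [bil_swap E z' z] at hb
    have hd' : VDisj z' z := fun e e' he he' v hv hv' => hd e' e he' he v hv' hv
    rcases h.odd z' z hz' hz hd' hb with ⟨h1, h2⟩ | ⟨h1, h2⟩
    · exact Or.inl ⟨h2, h1⟩
    · exact Or.inr ⟨h2, h1⟩

end H46K
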