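import Pool.Agent.Lib.H46K.A3

/-!
# H46K, Part A, chunk A4: a nonzero element of the cycle space contains a cycle
-/

open scoped BigOperators

namespace H46K

theorem A4_sum {V : Type*} [DecidableEq V] (S : Finset V) {p q : V} (hpq : p ≠ q) (c : ZMod 2) :
    ∑ x ∈ S, (if x ∈ s(p, q) then c else 0) =
      (if p ∈ S then c else 0) + (if q ∈ S then c else 0) := by
  have h1 : ∀ x : V, (if x ∈ s(p, q) then c else 0) =
      (if x = p then c else 0) + (if x = q then c else 0) := by
    intro x
    simp only [Sym2.mem_iff]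
    by_cases hp : x = p
    · have hq : x ≠ q := by
        rintro rfl
        exact hpq hp.symm
      simp [hp, hpq]
    · simp [hp]
  rw [Finset.sum_congr rfl fun x _ ↦ h1 x, Finset.sum_add_distrib, Finset.sum_ite_eq',
    Finset.sum_ite_eq']

/-- (EV) A nonzero element of the cycle space contains (the edges of) a cycle.

Proof. Let `H = SimpleGraph.fromEdgeSet {e | z e ≠ 0}`; `H ≤ G`. If `H` is not acyclic, it has a
cycle; map it to `G` (`Walk.mapLe`, `Walk.mapLe_isCycle`, `edges_mapLe_eq_edges`). Suppose that `H`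
is acyclic and let `z s(u,v) ≠ 0`. Then `u ≠ v` and `s(u,v)` is a bridge of `H`
(`isAcyclic_iff_forall_adj_isBridge`, `isBridge_iff`): `v` is not reachable from `u` in
`H' = H \ fromEdgeSet {s(u,v)}`. Let `S` be the finset of the vertices
reachable from `u` in `H'` (classical). Then
`0 = ∑ x ∈ S, ∑ e, (if x ∈ e then z e else 0) = ∑ e, ∑ x ∈ S, (if x ∈ e then z e else 0)`.
For `e = s(u,v)` the inner sum is `z e = 1` (`u ∈ S`, `v ∉ S`, `ZMod 2`); for any other
`e = s(p,q)` with `z e ≠ 0` (so `p ≠ q` as `e ∈ G.edgeSet`) `p` and `q` are adjacent in `H'`, so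
both or none are in `S`, and the inner sum is `z e + z e = 0` or `0`; if `z e = 0` it is `0`.
So `0 = 1`, a contradiction. -/
theorem exists_cycle_of_isCyc {V : Type*} [Fintype V] [DecidableEq V] {G : SimpleGraph V}
    {z : Sym2 V → ZMod 2} (hz : IsCyc G z) (h : ∃ e, z e ≠ 0) :
    ∃ (a : V) (c : G.Walk a a), c.IsCycle ∧ ∀ e ∈ c.edges, z e ≠ 0 := by
  classical
  let H : SimpleGraph V := SimpleGraph.fromEdgeSet {e | z e ≠ 0}
  have hHadj : ∀ {a b : V}, H.Adj a b ↔ z s(a, b) ≠ 0 ∧ a ≠ b := by
    intro a b
    exact SimpleGraph.fromEdgeSet_adj _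
  have hHG : H ≤ G := by
    intro a b hab
    exact hz.1 _ (hHadj.1 hab).1
  by_cases hac : H.IsAcyclic
  · exfalso
    obtain ⟨e, he⟩ := h
    induction e using Sym2.ind with
    | _ u v =>
    have huv : G.Adj u v := hz.1 _ he
    have hH : H.Adj u v := hHadj.2 ⟨he, huv.ne⟩
    have hb := SimpleGraph.isAcyclic_iff_forall_adj_isBridge.1 hac hH
    rw [SimpleGraph.isBridge_iff] at hb
    let S : Finset V := Finset.univ.filter fun x ↦ (H.deleteEdges {s(u, v)}).Reachable u x
    have huS : u ∈ S := by simp [S]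
    have hvS : v ∉ S := by simpa [S] using hb
    have h0 : ∑ x ∈ S, ∑ e : Sym2 V, (if x ∈ e then z e else 0) = 0 :=
      Finset.sum_eq_zero fun x _ ↦ hz.2 x
    rw [Finset.sum_comm] at h0
    have h1 : ∀ e : Sym2 V, ∑ x ∈ S, (if x ∈ e then z e else 0) =
        if e = s(u, v) then 1 else 0 := by
      intro e
      induction e using Sym2.ind with
      | _ p q =>
      by_cases hpq0 : z s(p, q) = 0
      · have hne : s(p, q) ≠ s(u, v) := by
          intro h2
          rw [h2] at hpq0
          exact he hpq0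
        rw [hpq0, if_neg hne]
        exact Finset.sum_eq_zero fun x _ ↦ by simp
      · have hpq : G.Adj p q := hz.1 _ hpq0
        rw [A4_sum S hpq.ne]
        by_cases hE : s(p, q) = s(u, v)
        · rw [if_pos hE]
          have hz1 : z s(p, q) = 1 := by
            generalize z s(p, q) = t at hpq0
            revert hpq0
            revert t
            decide
          rcases Sym2.eq_iff.1 hE with ⟨rfl, rfl⟩ | ⟨rfl, rfl⟩
          · rw [if_pos huS, if_neg hvS, hz1, add_zero]
          · rw [if_pos huS, if_neg hvS, hz1, zero_add]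
        · rw [if_neg hE]
          have hadj : (H.deleteEdges {s(u, v)}).Adj p q := by
            rw [SimpleGraph.deleteEdges_adj]
            exact ⟨hHadj.2 ⟨hpq0, hpq.ne⟩, hE⟩
          have hiff : p ∈ S ↔ q ∈ S := by
            simp only [S, Finset.mem_filter, Finset.mem_univ, true_and]
            exact ⟨fun h ↦ h.trans hadj.reachable, fun h ↦ h.trans hadj.symm.reachable⟩
          by_cases hp : p ∈ S
          · rw [if_pos hp, if_pos (hiff.1 hp)]
            exact CharTwo.add_self_eq_zero _
          · rw [if_neg hp, if_neg (fun h ↦ hp (hiff.2 h)), add_zero]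
    rw [Finset.sum_congr rfl fun e _ ↦ h1 e] at h0
    simp at h0
  · unfold SimpleGraph.IsAcyclic at hac
    push Not at hac
    obtain ⟨a, c, hc⟩ := hac
    refine ⟨a, c.mapLe hHG, hc.mapLe hHG, fun e he ↦ ?_⟩
    rw [SimpleGraph.Walk.edges_mapLe_eq_edges] at he
    have h1 := c.edges_subset_edgeSet he
    induction e using Sym2.ind with
    | _ p q => exact (hHadj.1 h1).1

end H46K
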