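import Pool.Agent.Lib.H46K.A4

/-!
# H46K, Part A, chunk A5: from cycles to chains (ODD)
-/

open scoped BigOperators

namespace H46K

theorem A5_mem {V : Type*} [DecidableEq V] {G : SimpleGraph V} {a : V} {c : G.Walk a a}
    (hc : c.IsCycle) {x : V} (hx : x ∈ c.support) : ∃ e, chi c e ≠ 0 ∧ x ∈ e := by
  obtain ⟨e, he, hxe⟩ := (SimpleGraph.Walk.mem_support_iff_exists_mem_edges_of_not_nil
    hc.not_nil).1 hx
  exact ⟨e, (chi_ne_iff_of_isCycle hc e).2 he, hxe⟩

/-- If the chains of two cycles have no common vertex, the cycles are disjoint.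
Proof: every vertex of a cycle is on one of its edges
(`Walk.mem_support_iff_exists_mem_edges`-like lemma: first step/last step), and `chi` of a cycle
is nonzero on its edges. -/
theorem disjoint_of_vdisj {V : Type*} [DecidableEq V] {G : SimpleGraph V} {a b : V}
    {c₁ : G.Walk a a} {c₂ : G.Walk b b} (h₁ : c₁.IsCycle) (h₂ : c₂.IsCycle)
    (h : VDisj (chi c₁) (chi c₂)) : List.Disjoint c₁.support c₂.support := by
  intro x hx hx'
  obtain ⟨e, he, hxe⟩ := A5_mem h₁ hx
  obtain ⟨e', he', hxe'⟩ := A5_mem h₂ hx'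
  exact h e e' he he' x hxe hxe'

theorem A5_zmod {t : ZMod 2} (h : t ≠ 0) : t = 1 := by
  revert t
  decide

theorem A5_split {s t : ZMod 2} (h : s + t = 1) : s = 1 ∨ t = 1 := by
  revert s t
  decide

theorem A5_red {V : Type*} [Fintype V] [DecidableEq V] {G : SimpleGraph V} {z : Sym2 V → ZMod 2}
    (hz : IsCyc G z) {a : V} {c : G.Walk a a} (hc : c.IsCycle) (hcz : ∀ e ∈ c.edges, z e ≠ 0)
    (hne : z ≠ chi c) : ∃ w, IsCyc G w ∧ CLe w z ∧ CLe (chi c) z ∧ (z = fun e => chi c e + w e) ∧
      (Finset.univ.filter fun e ↦ chi c e ≠ 0).card < (Finset.univ.filter fun e ↦ z e ≠ 0).card ∧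
      (Finset.univ.filter fun e ↦ w e ≠ 0).card < (Finset.univ.filter fun e ↦ z e ≠ 0).card := by
  have h1 : CLe (chi c) z := fun e he ↦ hcz e (mem_edges_of_chi_ne he)
  have h2 : CLe (fun e ↦ z e + chi c e) z := by
    intro e he h0
    by_cases h3 : chi c e = 0
    · exact he (by simp only [h0, h3, add_zero])
    · exact h1 e h3 h0
  refine ⟨fun e ↦ z e + chi c e, hz.add (isCyc_chi c), h2, h1, ?_, ?_, ?_⟩
  · funext e
    have : chi c e + (z e + chi c e) = z e + (chi c e + chi c e) := by ring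
    rw [this, CharTwo.add_self_eq_zero, add_zero]
  · refine Finset.card_lt_card (Finset.ssubset_iff_subset_ne.2 ⟨?_, ?_⟩)
    · intro e he
      simp only [Finset.mem_filter, Finset.mem_univ, true_and] at he ⊢
      exact h1 e he
    · intro heq
      apply hne
      funext e
      have h3 := Finset.ext_iff.1 heq e
      simp only [Finset.mem_filter, Finset.mem_univ, true_and] at h3
      by_cases h4 : z e = 0
      · rw [h4]
        by_contra h5
        exact (h3.1 (Ne.symm h5)) h4
      · rw [A5_zmod h4, A5_zmod (h3.2 h4)]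
  · obtain ⟨e0, he0, -⟩ := A5_mem hc c.start_mem_support
    refine Finset.card_lt_card (Finset.ssubset_iff_of_subset ?_ |>.2 ⟨e0, ?_, ?_⟩)
    · intro e he
      simp only [Finset.mem_filter, Finset.mem_univ, true_and] at he ⊢
      exact h2 e he
    · simp only [Finset.mem_filter, Finset.mem_univ, true_and]
      exact h1 e0 he0
    · simp only [Finset.mem_filter, Finset.mem_univ, true_and, not_not]
      rw [A5_zmod he0, A5_zmod (h1 e0 he0)]
      exact CharTwo.add_self_eq_zero _

theorem A5_trans {V : Type*} {a b c : Sym2 V → ZMod 2} (h : CLe a b) (h' : CLe b c) : CLe a c :=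
  fun e he ↦ h' e (h e he)

theorem A5_main {V : Type*} [Fintype V] [DecidableEq V] {G : SimpleGraph V}
    {E : Sym2 V → Sym2 V → ZMod 2} {x y : Sym2 V → ZMod 2} (h : UniqueOdd G E x y) (N : ℕ) :
    ∀ z z', (Finset.univ.filter fun e ↦ z e ≠ 0).card +
        (Finset.univ.filter fun e ↦ z' e ≠ 0).card ≤ N →
      IsCyc G z → IsCyc G z' → VDisj z z' → bil E z z' = 1 →
      (CLe x z ∧ CLe y z') ∨ (CLe y z ∧ CLe x z') := by
  induction N with
  | zero =>
    intro z z' hN hz hz' hd hb
    have h1 : bil E z z' ≠ 0 := by rw [hb]; decide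
    obtain ⟨⟨e, he⟩, -⟩ := exists_ne_of_bil_ne h1
    exfalso
    have h2 : 0 < (Finset.univ.filter fun e ↦ z e ≠ 0).card :=
      Finset.card_pos.2 ⟨e, by simp [he]⟩
    omega
  | succ N ih =>
    intro z z' hN hz hz' hd hb
    have h1 : bil E z z' ≠ 0 := by rw [hb]; decide
    obtain ⟨he, he'⟩ := exists_ne_of_bil_ne h1
    obtain ⟨a, c, hc, hcz⟩ := exists_cycle_of_isCyc hz he
    obtain ⟨b, c', hc', hcz'⟩ := exists_cycle_of_isCyc hz' he'
    by_cases hzc : z = chi c
    · by_cases hzc' : z' = chi c'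
      · rw [hzc, hzc'] at hd hb ⊢
        exact h.uniq a c b c' hc hc' (disjoint_of_vdisj hc hc' hd) hb
      · obtain ⟨w, hw, hwz, hcz2, hsum, hl1, hl2⟩ := A5_red hz' hc' hcz' hzc'
        have hb2 : bil E z (chi c') + bil E z w = 1 := by
          rw [← bil_add_right, ← hsum]
          exact hb
        have hd1 : VDisj z (chi c') := fun e e' h1 h2 ↦ hd e e' h1 (hcz2 e' h2)
        have hd2 : VDisj z w := fun e e' h1 h2 ↦ hd e e' h1 (hwz e' h2)
        rcases A5_split hb2 with h3 | h3
        · rcases ih z (chi c') (by omega) hz (isCyc_chi c') hd1 h3 with ⟨g1, g2⟩ | ⟨g1, g2⟩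
          · exact Or.inl ⟨g1, A5_trans g2 hcz2⟩
          · exact Or.inr ⟨g1, A5_trans g2 hcz2⟩
        · rcases ih z w (by omega) hz hw hd2 h3 with ⟨g1, g2⟩ | ⟨g1, g2⟩
          · exact Or.inl ⟨g1, A5_trans g2 hwz⟩
          · exact Or.inr ⟨g1, A5_trans g2 hwz⟩
    · obtain ⟨w, hw, hwz, hcz2, hsum, hl1, hl2⟩ := A5_red hz hc hcz hzc
      have hb2 : bil E (chi c) z' + bil E w z' = 1 := by
        rw [← bil_add_left, ← hsum]
        exact hb
      have hd1 : VDisj (chi c) z' := fun e e' h1 h2 ↦ hd e e' (hcz2 e h1) h2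
      have hd2 : VDisj w z' := fun e e' h1 h2 ↦ hd e e' (hwz e h1) h2
      rcases A5_split hb2 with h3 | h3
      · rcases ih (chi c) z' (by omega) (isCyc_chi c) hz' hd1 h3 with ⟨g1, g2⟩ | ⟨g1, g2⟩
        · exact Or.inl ⟨A5_trans g1 hcz2, g2⟩
        · exact Or.inr ⟨A5_trans g1 hcz2, g2⟩
      · rcases ih w z' (by omega) hw hz' hd2 h3 with ⟨g1, g2⟩ | ⟨g1, g2⟩
        · exact Or.inl ⟨A5_trans g1 hwz, g2⟩
        · exact Or.inr ⟨A5_trans g1 hwz, g2⟩

/-- (ODD) The uniqueness of the odd pair passes from cycles to the elements of the cycle space.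

Proof. Strong induction on `N = |supp z| + |supp z'|` (`Finset.card (univ.filter (z · ≠ 0))`).
By `exists_ne_of_bil_ne` and `exists_cycle_of_isCyc` there are cycles `c` in `supp z` and
`c'` in `supp z'`.
Case 1: `z ≠ chi c`. Put `w e = z e + chi c e`. `w` is in the cycle space, `CLe w z`,
`CLe (chi c) z`, `z e = chi c e + w e`, and both `chi c` and `w` have a strictly smaller support
than `z` (the support of `w` misses the edges of `c`; if the support of `chi c` were all of
`supp z` then `z = chi c`, all the nonzero values being `1`). `bil E z z' = bil E (chi c) z' +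
bil E w z'`, so one of the two terms is `1`; apply the induction hypothesis to this pair, and
`CLe` is transitive.
Case 2: `z' ≠ chi c'`: the same on the other side.
Case 3: `z = chi c`, `z' = chi c'`: `UniqueOdd.uniq` with `disjoint_of_vdisj`. -/
theorem UniqueOdd.oddSys {V : Type*} [Fintype V] [DecidableEq V] {G : SimpleGraph V}
    {E : Sym2 V → Sym2 V → ZMod 2} {x y : Sym2 V → ZMod 2} (h : UniqueOdd G E x y) :
    OddSys G E x y :=
  ⟨h.one, fun z z' hz hz' hd hb ↦ A5_main h _ z z' le_rfl hz hz' hd hb⟩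

end H46K
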