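import Pool.Agent.Lib.H46K.A3

/-!
# H46K, Part A, chunk A6: theta
-/

open scoped BigOperators

namespace H46K

/-- (theta) There is no walk `P` between two distinct vertices `u`, `v` of `c₁`, without edges of
`c₁` and without vertices of `c₂`.

Proof. Let `c` be `c₁` rotated to start at `u` (`Walk.rotate`, a cycle with the same edges and
vertices), `A = c.takeUntil v`, `B = c.dropUntil v`, walks from `u` to `v` and from `v` to `u`;
`c₁.edges` is a permutation of `A.edges ++ B.edges`, which has no repetition. Both `A` and `B` have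
an edge since `u ≠ v`. Put `zA = chi A + chi P`, `zB = chi B + chi P`: up to a reversal these are
chains of closed walks, so they are in the cycle space (`isCyc_chi`, `chi_append`,
`chi_reverse`); `zA + zB = chi c₁` in `ZMod 2`. Their supports are contained in the edges of `c₁` and
`P`, so they have no vertex on `c₂`: `VDisj zA (chi c₂)`, `VDisj zB (chi c₂)`.
`bil E zA (chi c₂) + bil E zB (chi c₂) = bil E (chi c₁) (chi c₂) = 1`, so one of them is `1`.
By `OddSys.odd`: `CLe (chi c₁) zA` (impossible: an edge of `B` is an edge of `c₁`,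
but it is neither in `A` (no repetition) nor in `P`), or `CLe (chi c₁) zB` (impossible, the same
with an edge of `A`), or `CLe (chi c₁) (chi c₂)` (impossible: an edge of `c₁` would be
an edge of `c₂`, but the cycles are disjoint). -/
theorem OddSys.theta {V : Type*} [Fintype V] [DecidableEq V] {G : SimpleGraph V}
    {E : Sym2 V → Sym2 V → ZMod 2} {a b : V} {c₁ : G.Walk a a} {c₂ : G.Walk b b}
    (h₁ : c₁.IsCycle) (h₂ : c₂.IsCycle) (hd : List.Disjoint c₁.support c₂.support)
    (h : OddSys G E (chi c₁) (chi c₂)) {u v : V} (hu : u ∈ c₁.support) (hv : v ∈ c₁.support)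
    (huv : u ≠ v) (P : G.Walk u v) (hPe : ∀ e ∈ P.edges, e ∉ c₁.edges)
    (hPv : ∀ x ∈ P.support, x ∉ c₂.support) : False := by
  -- the rotated cycle
  have hvc : v ∈ (c₁.rotate u hu).support := (SimpleGraph.Walk.mem_support_rotate_iff c₁ u hu).2 hv
  have hperm : (c₁.rotate u hu).edges.Perm c₁.edges := (SimpleGraph.Walk.rotate_edges c₁ u hu).perm
  set c := c₁.rotate u hu with hcdef
  set A := c.takeUntil v hvc with hA
  set B := c.dropUntil v hvc with hB
  have hspec : A.append B = c := SimpleGraph.Walk.take_spec c hvc
  have hedges : c.edges = A.edges ++ B.edges := by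
    rw [← hspec, SimpleGraph.Walk.edges_append]
  have hmem : ∀ e, e ∈ c₁.edges ↔ e ∈ A.edges ∨ e ∈ B.edges := by
    intro e
    rw [← hperm.mem_iff, hedges, List.mem_append]
  have hnd : (A.edges ++ B.edges).Nodup := by
    rw [← hedges]
    exact hperm.nodup_iff.2 h₁.edges_nodup
  have hdisj : ∀ e, e ∈ A.edges → e ∈ B.edges → False := by
    intro e h1 h2
    exact (List.nodup_append.1 hnd).2.2 e h1 e h2 rfl
  have hchi : ∀ e, chi c₁ e = chi A e + chi B e := by
    intro e
    rw [← chi_append, hspec]
    unfold chi
    rw [hperm.count_eq]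
  -- the closed walks
  have hcA : IsCyc G (fun e => chi A e + chi P e) := by
    have h1 := isCyc_chi (A.append P.reverse)
    have h2 : chi (A.append P.reverse) = fun e => chi A e + chi P e := by
      funext e
      rw [chi_append, chi_reverse]
    rw [h2] at h1
    exact h1
  have hcB : IsCyc G (fun e => chi B e + chi P e) := by
    have h1 := isCyc_chi (B.append P)
    have h2 : chi (B.append P) = fun e => chi B e + chi P e := by
      funext e
      rw [chi_append]
    rw [h2] at h1
    exact h1
  -- vertex-disjointness
  have hv1 : ∀ e : Sym2 V, (e ∈ c₁.edges ∨ e ∈ P.edges) → ∀ e', chi c₂ e' ≠ 0 →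
      ∀ x, x ∈ e → x ∉ e' := by
    intro e he e' he' x hx hx'
    have hx2 : x ∈ c₂.support :=
      SimpleGraph.Walk.mem_support_of_mem_edges (mem_edges_of_chi_ne he') hx'
    rcases he with he | he
    · exact hd (SimpleGraph.Walk.mem_support_of_mem_edges he hx) hx2
    · exact hPv x (SimpleGraph.Walk.mem_support_of_mem_edges he hx) hx2
  have hdA : VDisj (fun e => chi A e + chi P e) (chi c₂) := by
    intro e e' he he' x hx
    refine hv1 e ?_ e' he' x hx
    by_cases h0 : chi A e = 0
    · right
      apply mem_edges_of_chi_ne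
      intro h1
      exact he (by simp [h0, h1])
    · left
      exact (hmem e).2 (Or.inl (mem_edges_of_chi_ne h0))
  have hdB : VDisj (fun e => chi B e + chi P e) (chi c₂) := by
    intro e e' he he' x hx
    refine hv1 e ?_ e' he' x hx
    by_cases h0 : chi B e = 0
    · right
      apply mem_edges_of_chi_ne
      intro h1
      exact he (by simp [h0, h1])
    · left
      exact (hmem e).2 (Or.inr (mem_edges_of_chi_ne h0))
  -- edges of both parts
  have hAne : ∃ e, e ∈ A.edges := by
    by_contra hn
    push Not at hn
    have : A.edges = [] := List.eq_nil_iff_forall_not_mem.2 hn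
    have h0 : A.length = 0 := by
      rw [← SimpleGraph.Walk.length_edges, this]
      rfl
    exact huv (SimpleGraph.Walk.eq_of_length_eq_zero h0)
  have hBne : ∃ e, e ∈ B.edges := by
    by_contra hn
    push Not at hn
    have : B.edges = [] := List.eq_nil_iff_forall_not_mem.2 hn
    have h0 : B.length = 0 := by
      rw [← SimpleGraph.Walk.length_edges, this]
      rfl
    exact huv (SimpleGraph.Walk.eq_of_length_eq_zero h0).symm
  -- not contained
  have hnA : ¬ CLe (chi c₁) (fun e => chi A e + chi P e) := by
    intro hC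
    obtain ⟨e, he⟩ := hBne
    have hec : e ∈ c₁.edges := (hmem e).2 (Or.inr he)
    have h1 := hC e ((chi_ne_iff_of_isCycle h₁ e).2 hec)
    by_cases h0 : chi A e = 0
    · have h2 : chi P e ≠ 0 := by
        intro h2
        exact h1 (by simp [h0, h2])
      exact hPe e (mem_edges_of_chi_ne h2) hec
    · exact hdisj e (mem_edges_of_chi_ne h0) he
  have hnB : ¬ CLe (chi c₁) (fun e => chi B e + chi P e) := by
    intro hC
    obtain ⟨e, he⟩ := hAne
    have hec : e ∈ c₁.edges := (hmem e).2 (Or.inl he)
    have h1 := hC e ((chi_ne_iff_of_isCycle h₁ e).2 hec)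
    by_cases h0 : chi B e = 0
    · have h2 : chi P e ≠ 0 := by
        intro h2
        exact h1 (by simp [h0, h2])
      exact hPe e (mem_edges_of_chi_ne h2) hec
    · exact hdisj e he (mem_edges_of_chi_ne h0)
  have hn2 : ¬ CLe (chi c₁) (chi c₂) := by
    intro hC
    obtain ⟨e, he⟩ := hAne
    have hec : e ∈ c₁.edges := (hmem e).2 (Or.inl he)
    have h1 := hC e ((chi_ne_iff_of_isCycle h₁ e).2 hec)
    have h2 := mem_edges_of_chi_ne h1
    induction e with
    | _ p q =>
      exact hd (SimpleGraph.Walk.fst_mem_support_of_mem_edges c₁ hec)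
        (SimpleGraph.Walk.fst_mem_support_of_mem_edges c₂ h2)
  -- one of the two is odd
  have hsum : bil E (fun e => chi A e + chi P e) (chi c₂) +
      bil E (fun e => chi B e + chi P e) (chi c₂) = 1 := by
    rw [← h.one, ← bil_add_left]
    congr 1
    funext e
    rw [hchi e]
    have : chi P e + chi P e = 0 := CharTwo.add_self_eq_zero _
    calc chi A e + chi P e + (chi B e + chi P e) = chi A e + chi B e + (chi P e + chi P e) := by ring
      _ = chi A e + chi B e := by rw [this, add_zero]
  have hcases : bil E (fun e => chi A e + chi P e) (chi c₂) = 1 ∨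
      bil E (fun e => chi B e + chi P e) (chi c₂) = 1 := by
    revert hsum
    generalize bil E (fun e => chi A e + chi P e) (chi c₂) = s
    generalize bil E (fun e => chi B e + chi P e) (chi c₂) = t
    revert s t
    decide
  rcases hcases with hb | hb
  · rcases h.odd _ _ hcA (isCyc_chi c₂) hdA hb with h1 | h1
    · exact hnA h1.1
    · exact hn2 h1.2
  · rcases h.odd _ _ hcB (isCyc_chi c₂) hdB hb with h1 | h1
    · exact hnB h1.1
    · exact hn2 h1.2

/-- (chords) Every edge of `G` joining two vertices of `c₁` is an edge of `c₁`.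
Proof: `theta` for the walk with this single edge. -/
theorem OddSys.chord {V : Type*} [Fintype V] [DecidableEq V] {G : SimpleGraph V}
    {E : Sym2 V → Sym2 V → ZMod 2} {a b : V} {c₁ : G.Walk a a} {c₂ : G.Walk b b}
    (h₁ : c₁.IsCycle) (h₂ : c₂.IsCycle) (hd : List.Disjoint c₁.support c₂.support)
    (h : OddSys G E (chi c₁) (chi c₂)) {u v : V} (hu : u ∈ c₁.support) (hv : v ∈ c₁.support)
    (huv : G.Adj u v) : s(u, v) ∈ c₁.edges := by
  by_contra hn
  refine h.theta h₁ h₂ hd hu hv huv.ne (SimpleGraph.Walk.cons huv SimpleGraph.Walk.nil) ?_ ?_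
  · intro e he
    simp only [SimpleGraph.Walk.edges_cons, SimpleGraph.Walk.edges_nil, List.mem_singleton] at he
    subst he
    exact hn
  · intro x hx
    simp only [SimpleGraph.Walk.support_cons, SimpleGraph.Walk.support_nil, List.mem_cons,
      List.mem_nil_iff, or_false] at hx
    rcases hx with rfl | rfl
    · exact fun h' => hd hu h'
    · exact fun h' => hd hv h'

end H46K
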