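import Pool.Agent.Lib.H46K.A6

/-!
# H46K, Part A, chunk A7: every vertex is on one of the two cycles
-/

open scoped BigOperators

namespace H46K

/-- `d` is in the component of `w` in the complement of the two cycles. -/
def InD {V : Type*} {G : SimpleGraph V} {a b : V} (c₁ : G.Walk a a) (c₂ : G.Walk b b) (w d : V) :
    Prop :=
  ∃ P : G.Walk w d, ∀ x ∈ P.support, x ∉ c₁.support ∧ x ∉ c₂.support

/-- Two vertices of `c₁` adjacent to the component are equal.
Proof: if `p ≠ q`, the walk `p, d, ..., w, ..., d', q` (`Walk.cons`, `reverse`, `append`, `concat`)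
contradicts `theta`: every edge of it has an end in the component, hence off `c₁`, so
it is no edge of `c₁` (`Walk.fst_mem_support_of_mem_edges`); its vertices are `p`, `q` (on
`c₁`, so not on `c₂`) and vertices of the component. -/
theorem OddSys.attach_unique {V : Type*} [Fintype V] [DecidableEq V] {G : SimpleGraph V}
    {E : Sym2 V → Sym2 V → ZMod 2} {a b : V} {c₁ : G.Walk a a} {c₂ : G.Walk b b}
    (h₁ : c₁.IsCycle) (h₂ : c₂.IsCycle) (hd : List.Disjoint c₁.support c₂.support)
    (h : OddSys G E (chi c₁) (chi c₂)) {w d d' p q : V} (hwd : InD c₁ c₂ w d)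
    (hwd' : InD c₁ c₂ w d') (hp : p ∈ c₁.support) (hq : q ∈ c₁.support) (hdp : G.Adj d p)
    (hdq : G.Adj d' q) : p = q := by
  by_contra hpq
  obtain ⟨P, hP⟩ := hwd
  obtain ⟨P', hP'⟩ := hwd'
  have hR : ∀ x ∈ (P.reverse.append P').support, x ∉ c₁.support ∧ x ∉ c₂.support := by
    intro x hx
    rw [SimpleGraph.Walk.mem_support_append_iff, SimpleGraph.Walk.support_reverse,
      List.mem_reverse] at hx
    rcases hx with hx | hx
    · exact hP x hx
    · exact hP' x hx
  refine h.theta h₁ h₂ hd hp hq hpq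
    (SimpleGraph.Walk.cons hdp.symm ((P.reverse.append P').concat hdq)) ?_ ?_
  · intro e he hec
    rw [SimpleGraph.Walk.edges_cons, SimpleGraph.Walk.edges_concat, List.mem_cons,
      List.concat_eq_append, List.mem_append, List.mem_singleton] at he
    rcases he with rfl | he | rfl
    · exact (hR d (SimpleGraph.Walk.start_mem_support _)).1
        (SimpleGraph.Walk.snd_mem_support_of_mem_edges c₁ hec)
    · induction e with
      | _ x y =>
        exact (hR x (SimpleGraph.Walk.fst_mem_support_of_mem_edges _ he)).1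
          (SimpleGraph.Walk.fst_mem_support_of_mem_edges c₁ hec)
    · exact (hR d' (SimpleGraph.Walk.end_mem_support _)).1
        (SimpleGraph.Walk.fst_mem_support_of_mem_edges c₁ hec)
  · intro x hx
    rw [SimpleGraph.Walk.support_cons, SimpleGraph.Walk.support_concat, List.mem_cons,
      List.mem_append, List.mem_singleton] at hx
    rcases hx with rfl | hx | rfl
    · exact fun h' => hd hp h'
    · exact (hR x hx).2
    · exact fun h' => hd hq h'

theorem A7_InD_symm {V : Type*} {G : SimpleGraph V} {a b : V} {c₁ : G.Walk a a} {c₂ : G.Walk b b}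
    {w d : V} (h : InD c₁ c₂ w d) : InD c₂ c₁ w d := by
  obtain ⟨P, hP⟩ := h
  exact ⟨P, fun x hx => ⟨(hP x hx).2, (hP x hx).1⟩⟩

/-- If `G` is 3-connected, every vertex is on `c₁` or `c₂`.
Proof. Suppose `w` is on neither. By `attach_unique` there is `p` on `c₁` such that every vertex of
`c₁` adjacent to the component `D` of `w` is `p` (if there is none take `p = a`), and, using
`OddSys.swap` (`InD` is symmetric in the two cycles), `q` on `c₂` with the same property for `c₂`.
The cycle `c₁` has at least three vertices; let `v ≠ p` be one (e.g. `c₁.snd` or `a`).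
`w, v ∉ {p, q}`; by `ThreeConn` there is a walk from `w` to `v` in `G.induce {p,q}ᶜ`.
By induction along this walk all its vertices are in `D`: if `x ∈ D` is adjacent to
`y ∉ {p,q}`, then `y` is not on `c₁` (it would be `p`), not on `c₂` (it would be `q`), so `y ∈ D`.
So `v ∈ D`, but `v` is on `c₁`: a contradiction. -/
theorem OddSys.cover {V : Type*} [Fintype V] [DecidableEq V] {G : SimpleGraph V}
    (h3 : ThreeConn G)
    {E : Sym2 V → Sym2 V → ZMod 2} {a b : V} {c₁ : G.Walk a a} {c₂ : G.Walk b b}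
    (h₁ : c₁.IsCycle) (h₂ : c₂.IsCycle) (hd : List.Disjoint c₁.support c₂.support)
    (h : OddSys G E (chi c₁) (chi c₂)) (w : V) : w ∈ c₁.support ∨ w ∈ c₂.support := by
  by_contra hw
  push Not at hw
  have hp : ∃ p ∈ c₁.support, ∀ d x, InD c₁ c₂ w d → x ∈ c₁.support → G.Adj d x → x = p := by
    by_cases hex : ∃ d x, InD c₁ c₂ w d ∧ x ∈ c₁.support ∧ G.Adj d x
    · obtain ⟨d, x, h1, h2, h3⟩ := hex
      exact ⟨x, h2, fun d' x' h1' h2' h3' => h.attach_unique h₁ h₂ hd h1' h1 h2' h2 h3' h3⟩
    · refine ⟨a, SimpleGraph.Walk.start_mem_support _, fun d x h1 h2 h3 => ?_⟩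
      exact absurd ⟨d, x, h1, h2, h3⟩ hex
  have hq : ∃ q ∈ c₂.support, ∀ d x, InD c₁ c₂ w d → x ∈ c₂.support → G.Adj d x → x = q := by
    by_cases hex : ∃ d x, InD c₁ c₂ w d ∧ x ∈ c₂.support ∧ G.Adj d x
    · obtain ⟨d, x, h1, h2, h3⟩ := hex
      exact ⟨x, h2, fun d' x' h1' h2' h3' => h.swap.attach_unique h₂ h₁ hd.symm (A7_InD_symm h1')
        (A7_InD_symm h1) h2' h2 h3' h3⟩
    · refine ⟨b, SimpleGraph.Walk.start_mem_support _, fun d x h1 h2 h3 => ?_⟩
      exact absurd ⟨d, x, h1, h2, h3⟩ hex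
  obtain ⟨p, hp1, hp2⟩ := hp
  obtain ⟨q, hq1, hq2⟩ := hq
  have hv : ∃ v ∈ c₁.support, v ≠ p := by
    by_cases hap : a = p
    · refine ⟨c₁.snd, SimpleGraph.Walk.getVert_mem_support _ _, ?_⟩
      have hadj : G.Adj a c₁.snd := c₁.adj_snd h₁.not_nil
      rw [← hap]
      exact hadj.ne'
    · exact ⟨a, SimpleGraph.Walk.start_mem_support _, hap⟩
  obtain ⟨v, hv1, hvp⟩ := hv
  have hvq : v ≠ q := by
    rintro rfl
    exact hd hv1 hq1
  have hwp : w ≠ p := by
    rintro rfl
    exact hw.1 hp1
  have hwq : w ≠ q := by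
    rintro rfl
    exact hw.2 hq1
  have hwm : w ∈ ({p, q}ᶜ : Set V) := by
    simp [hwp, hwq]
  have hvm : v ∈ ({p, q}ᶜ : Set V) := by
    simp [hvp, hvq]
  have hreach : (G.induce ({p, q}ᶜ : Set V)).Reachable ⟨w, hwm⟩ ⟨v, hvm⟩ :=
    (h3.2 p q).preconnected _ _
  have key : ∀ (s t : ({p, q}ᶜ : Set V)), (G.induce ({p, q}ᶜ : Set V)).Walk s t →
      InD c₁ c₂ w s.1 → InD c₁ c₂ w t.1 := by
    intro s t W
    induction W with
    | nil => exact fun h => h
    | @cons s r t hsr W ih =>
      intro hs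
      apply ih
      have hadj : G.Adj s.1 r.1 := hsr
      have hr := r.2
      simp only [Set.mem_compl_iff, Set.mem_insert_iff, Set.mem_singleton_iff, not_or] at hr
      have hr1 : r.1 ∉ c₁.support := fun h' => hr.1 (hp2 s.1 r.1 hs h' hadj)
      have hr2 : r.1 ∉ c₂.support := fun h' => hr.2 (hq2 s.1 r.1 hs h' hadj)
      obtain ⟨P, hP⟩ := hs
      refine ⟨P.concat hadj, fun x hx => ?_⟩
      rw [SimpleGraph.Walk.support_concat, List.mem_append, List.mem_singleton] at hx
      rcases hx with hx | rfl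
      · exact hP x hx
      · exact ⟨hr1, hr2⟩
  obtain ⟨W⟩ := hreach
  have hD := key _ _ W ⟨SimpleGraph.Walk.nil, fun x hx => by
    rw [SimpleGraph.Walk.support_nil, List.mem_singleton] at hx
    subst hx
    exact hw⟩
  obtain ⟨P, hP⟩ := hD
  exact (hP v (SimpleGraph.Walk.end_mem_support _)).1 hv1

end H46K
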