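import Pool.Agent.Lib.H46K.A3

/-!
# H46K, Part A, chunk A8: the isomorphism with `TG m n X`
-/

open scoped BigOperators

namespace H46K

theorem A8_mem_edges {V : Type*} {G : SimpleGraph V} {u v : V} (w : G.Walk u v) (e : Sym2 V) :
    e ∈ w.edges ↔ ∃ k, k < w.length ∧ e = s(w.getVert k, w.getVert (k + 1)) := by
  induction w with
  | nil => simp
  | @cons a b c h p ih =>
    rw [SimpleGraph.Walk.edges_cons, List.mem_cons, ih]
    constructor
    · rintro (rfl | ⟨k, hk, rfl⟩)
      · refine ⟨0, by simp, ?_⟩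
        simp
      · refine ⟨k + 1, by simp [hk], ?_⟩
        simp
    · rintro ⟨k, hk, rfl⟩
      rcases k with _ | k
      · left
        simp
      · right
        refine ⟨k, by simpa using hk, ?_⟩
        simp

theorem A8_getVert_succ {V : Type*} {G : SimpleGraph V} {a : V} (c : G.Walk a a) (k : ℕ)
    (hk : k < c.length) : c.getVert (k + 1) = c.getVert ((k + 1) % c.length) := by
  rcases Nat.lt_or_ge (k + 1) c.length with h | h
  · rw [Nat.mod_eq_of_lt h]
  · have h1 : k + 1 = c.length := by omega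
    rw [h1, Nat.mod_self, SimpleGraph.Walk.getVert_length, SimpleGraph.Walk.getVert_zero]

theorem A8_inj {V : Type*} {G : SimpleGraph V} {a : V} {c : G.Walk a a} (hc : c.IsCycle) (i j : ℕ)
    (hi : i < c.length) (hj : j < c.length) (h : c.getVert i = c.getVert j) : i = j := by
  refine hc.getVert_injOn' ?_ ?_ h
  · show i ≤ c.length - 1
    omega
  · show j ≤ c.length - 1
    omega

/-- The vertices `c.getVert i`, `i < c.length`, of a cycle are distinct, are all its vertices, and
`s(x, y)` is an edge of `c` iff `x`, `y` are cyclically consecutive.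
Proof: `IsCycle.getVert_injOn'`, `Walk.mem_support_iff_exists_getVert` (the vertex number
`c.length` is the vertex number `0`), and the edges are `s(getVert k, getVert (k+1))`, `k < c.length`
(`Walk.mem_edges_iff...`, or `darts_getElem_eq_getVert`). -/
theorem cycle_param {V : Type*} {G : SimpleGraph V} {a : V} {c : G.Walk a a} (hc : c.IsCycle) :
    (∀ i j : Fin c.length, c.getVert i = c.getVert j → i = j) ∧
    (∀ x ∈ c.support, ∃ i : Fin c.length, c.getVert i = x) ∧
    (∀ i j : Fin c.length, s(c.getVert i, c.getVert j) ∈ c.edges ↔ i ≠ j ∧ (Nxt i j ∨ Nxt j i)) := by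
  have h3 : 3 ≤ c.length := hc.three_le_length
  refine ⟨fun i j h => Fin.ext (A8_inj hc _ _ i.2 j.2 h), fun x hx => ?_, fun i j => ?_⟩
  · obtain ⟨n, hn, hle⟩ := SimpleGraph.Walk.mem_support_iff_exists_getVert.1 hx
    rcases Nat.lt_or_ge n c.length with h | h
    · exact ⟨⟨n, h⟩, hn⟩
    · have h1 : n = c.length := by omega
      refine ⟨⟨0, by omega⟩, ?_⟩
      show c.getVert 0 = x
      rw [← hn, h1, SimpleGraph.Walk.getVert_length]
      exact SimpleGraph.Walk.getVert_zero c
  · rw [A8_mem_edges]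
    have hmain : ∀ i j : Fin c.length, Nxt i j → i ≠ j := by
      intro i j h hij
      subst hij
      unfold Nxt at h
      have hi := i.2
      rcases Nat.lt_or_ge (i.1 + 1) c.length with h' | h'
      · rw [Nat.mod_eq_of_lt h'] at h
        omega
      · have h1 : i.1 + 1 = c.length := by omega
        rw [h1, Nat.mod_self] at h
        omega
    constructor
    · rintro ⟨k, hk, he⟩
      rw [A8_getVert_succ c k hk] at he
      have hk2 : (k + 1) % c.length < c.length := Nat.mod_lt _ (by omega)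
      rw [Sym2.eq_iff] at he
      have hN : ∀ i j : Fin c.length, c.getVert i = c.getVert k →
          c.getVert j = c.getVert ((k + 1) % c.length) → Nxt i j := by
        intro i j h1 h2
        have h3 := A8_inj hc _ _ i.2 hk h1
        have h4 := A8_inj hc _ _ j.2 hk2 h2
        unfold Nxt
        rw [h3, h4]
      rcases he with ⟨h1, h2⟩ | ⟨h1, h2⟩
      · have := hN i j h1 h2
        exact ⟨hmain i j this, Or.inl this⟩
      · have := hN j i h2 h1
        exact ⟨(hmain j i this).symm, Or.inr this⟩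
    · rintro ⟨_, h | h⟩
      · refine ⟨i.1, i.2, ?_⟩
        rw [A8_getVert_succ c i.1 i.2, h]
      · refine ⟨j.1, j.2, ?_⟩
        rw [A8_getVert_succ c j.1 j.2, h]
        exact Sym2.eq_swap

/-- The isomorphism. `X = {(i,j) | G.Adj (c₁.getVert i) (c₂.getVert j)}`.
Proof: the map `inl i ↦ c₁.getVert i`, `inr j ↦ c₂.getVert j` is a bijection by `cycle_param`,
the disjointness and `hcov` (`Equiv.ofBijective`); it respects the adjacency by
`cycle_param` and `hch₁`, `hch₂`. -/
theorem exists_iso {V : Type*} {G : SimpleGraph V} {a b : V} {c₁ : G.Walk a a} {c₂ : G.Walk b b}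
    (h₁ : c₁.IsCycle) (h₂ : c₂.IsCycle) (hd : List.Disjoint c₁.support c₂.support)
    (hcov : ∀ w : V, w ∈ c₁.support ∨ w ∈ c₂.support)
    (hch₁ : ∀ u ∈ c₁.support, ∀ v ∈ c₁.support, G.Adj u v → s(u, v) ∈ c₁.edges)
    (hch₂ : ∀ u ∈ c₂.support, ∀ v ∈ c₂.support, G.Adj u v → s(u, v) ∈ c₂.edges) :
    ∃ (X : Set (Fin c₁.length × Fin c₂.length)) (φ : G ≃g TG c₁.length c₂.length X),
      (∀ i : Fin c₁.length, φ (c₁.getVert i) = Sum.inl i) ∧
        (∀ j : Fin c₂.length, φ (c₂.getVert j) = Sum.inr j) := by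
  obtain ⟨p1, p2, p3⟩ := cycle_param h₁
  obtain ⟨q1, q2, q3⟩ := cycle_param h₂
  have hs1 : ∀ i : Fin c₁.length, c₁.getVert i ∈ c₁.support :=
    fun i => SimpleGraph.Walk.getVert_mem_support _ _
  have hs2 : ∀ i : Fin c₂.length, c₂.getVert i ∈ c₂.support :=
    fun i => SimpleGraph.Walk.getVert_mem_support _ _
  let f : Fin c₁.length ⊕ Fin c₂.length → V :=
    Sum.elim (fun i => c₁.getVert i) (fun j => c₂.getVert j)
  have hf : Function.Bijective f := by
    constructor
    · rintro (i | i) (j | j) h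
      · exact congrArg Sum.inl (p1 i j h)
      · have h' : c₁.getVert i = c₂.getVert j := h
        exact absurd (h' ▸ hs1 i) (fun h'' => hd h'' (hs2 j))
      · have h' : c₂.getVert i = c₁.getVert j := h
        exact absurd (h' ▸ hs2 i) (fun h'' => hd (hs1 j) h'')
      · exact congrArg Sum.inr (q1 i j h)
    · intro w
      rcases hcov w with hw | hw
      · obtain ⟨i, hi⟩ := p2 w hw
        exact ⟨Sum.inl i, hi⟩
      · obtain ⟨i, hi⟩ := q2 w hw
        exact ⟨Sum.inr i, hi⟩
  let X : Set (Fin c₁.length × Fin c₂.length) := {p | G.Adj (c₁.getVert p.1) (c₂.getVert p.2)}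
  have hadj : ∀ x y, G.Adj (f x) (f y) ↔ (TG c₁.length c₂.length X).Adj x y := by
    rintro (i | i) (j | j)
    · show G.Adj (c₁.getVert i) (c₁.getVert j) ↔ (i ≠ j ∧ (Nxt i j ∨ Nxt j i))
      rw [← p3 i j]
      exact ⟨fun h => hch₁ _ (hs1 i) _ (hs1 j) h, fun h => c₁.adj_of_mem_edges h⟩
    · show G.Adj (c₁.getVert i) (c₂.getVert j) ↔ (i, j) ∈ X
      exact Iff.rfl
    · show G.Adj (c₂.getVert i) (c₁.getVert j) ↔ (j, i) ∈ X
      exact G.adj_comm _ _
    · show G.Adj (c₂.getVert i) (c₂.getVert j) ↔ (i ≠ j ∧ (Nxt i j ∨ Nxt j i))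
      rw [← q3 i j]
      exact ⟨fun h => hch₂ _ (hs2 i) _ (hs2 j) h, fun h => c₂.adj_of_mem_edges h⟩
  let ψ : TG c₁.length c₂.length X ≃g G :=
    { toEquiv := Equiv.ofBijective f hf
      map_rel_iff' := fun {x y} => hadj x y }
  refine ⟨X, ψ.symm, fun i => ?_, fun j => ?_⟩
  · exact ψ.symm_apply_apply (Sum.inl i)
  · exact ψ.symm_apply_apply (Sum.inr j)

end H46K
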