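import Pool.Agent.Lib.H46K.A8

/-!
# H46K, Part A, chunk A9: transport along the isomorphism
-/

open scoped BigOperators

namespace H46K

/-- The induced bijection of unordered pairs. -/
def A9_equiv {V W : Type*} (φ : V ≃ W) : Sym2 V ≃ Sym2 W where
  toFun := Sym2.map φ
  invFun := Sym2.map φ.symm
  left_inv e := by
    rw [Sym2.map_map]
    have : (φ.symm : W → V) ∘ (φ : V → W) = id := by
      funext v
      simp
    rw [this, Sym2.map_id]
    rfl
  right_inv e := by
    rw [Sym2.map_map]
    have : (φ : V → W) ∘ (φ.symm : W → V) = id := by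
      funext v
      simp
    rw [this, Sym2.map_id]
    rfl

/-- Transport of `OddSys` along an isomorphism.
Proof: a chain `z` on `H` is pulled back to `fun e => z (e.map φ)` on `G`; `IsCyc`, `VDisj`, `CLe`
and `bil` are preserved (reindex the sums with `Equiv.sum_comp (Sym2.congr/equivCongr φ)`;
`x ∈ e ↔ φ x ∈ e.map φ`). -/
theorem OddSys.transport {V W : Type*} [Fintype V] [DecidableEq V] [Fintype W] [DecidableEq W]
    {G : SimpleGraph V} {H : SimpleGraph W} (φ : G ≃g H) {E : Sym2 V → Sym2 V → ZMod 2}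
    {x y : Sym2 V → ZMod 2} (h : OddSys G E x y) :
    OddSys H (fun e e' => E (e.map φ.symm) (e'.map φ.symm)) (fun e => x (e.map φ.symm))
      (fun e => y (e.map φ.symm)) := by
  have hm : ∀ e : Sym2 W, (e.map φ.symm).map φ = e := fun e => (A9_equiv φ.toEquiv).right_inv e
  have hm' : ∀ e : Sym2 V, (e.map φ).map φ.symm = e := fun e => (A9_equiv φ.toEquiv).left_inv e
  have hmem : ∀ (e : Sym2 V) (v : V), φ v ∈ e.map φ ↔ v ∈ e := by
    intro e v
    rw [Sym2.mem_map]
    constructor
    · rintro ⟨a, ha, hav⟩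
      rwa [← φ.injective hav]
    · intro hv
      exact ⟨v, hv, rfl⟩
  have hbil : ∀ z z' : Sym2 W → ZMod 2,
      bil (fun e e' => E (e.map φ.symm) (e'.map φ.symm)) z z' =
        bil E (fun e => z (e.map φ)) (fun e => z' (e.map φ)) := by
    intro z z'
    unfold bil
    rw [← Equiv.sum_comp (A9_equiv φ.toEquiv)]
    refine Finset.sum_congr rfl fun e _ => ?_
    rw [← Equiv.sum_comp (A9_equiv φ.toEquiv)]
    refine Finset.sum_congr rfl fun e' _ => ?_
    show z (e.map φ) * z' (e'.map φ) * E ((e.map φ).map φ.symm) ((e'.map φ).map φ.symm) = _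
    rw [hm', hm']
  have hcyc : ∀ z : Sym2 W → ZMod 2, IsCyc H z → IsCyc G (fun e => z (e.map φ)) := by
    intro z hz
    refine ⟨fun e he => ?_, fun v => ?_⟩
    · have h1 := hz.1 _ he
      induction e with
      | _ a b =>
        have h2 : H.Adj (φ a) (φ b) := h1
        exact φ.map_adj_iff.1 h2
    · have h1 := hz.2 (φ v)
      rw [← Equiv.sum_comp (A9_equiv φ.toEquiv)] at h1
      refine Eq.trans (Finset.sum_congr rfl fun e _ => ?_) h1
      show (if v ∈ e then z (e.map φ) else 0) = if φ v ∈ e.map φ then z (e.map φ) else 0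
      by_cases hv : v ∈ e
      · rw [if_pos hv, if_pos ((hmem e v).2 hv)]
      · rw [if_neg hv, if_neg (fun h' => hv ((hmem e v).1 h'))]
  refine ⟨?_, fun z z' hz hz' hd hb => ?_⟩
  · rw [hbil]
    simp only [hm']
    exact h.one
  · rw [hbil] at hb
    have hd' : VDisj (fun e => z (e.map φ)) (fun e => z' (e.map φ)) := by
      intro e e' he he' v hv hv'
      exact hd _ _ he he' (φ v) ((hmem e v).2 hv) ((hmem e' v).2 hv')
    have hC : ∀ (t : Sym2 V → ZMod 2) (s : Sym2 W → ZMod 2), CLe t (fun e => s (e.map φ)) →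
        CLe (fun e => t (e.map φ.symm)) s := by
      intro t s hts e he
      have h1 := hts _ he
      have h2 : s ((e.map φ.symm).map φ) ≠ 0 := h1
      rwa [hm] at h2
    rcases h.odd _ _ (hcyc z hz) (hcyc z' hz') hd' hb with ⟨h1, h2⟩ | ⟨h1, h2⟩
    · exact Or.inl ⟨hC _ _ h1, hC _ _ h2⟩
    · exact Or.inr ⟨hC _ _ h1, hC _ _ h2⟩

/-- The first cycle becomes the row cycle.
Proof: both sides are indicator functions. For `e = s(inl i, inl j)`: `cycle_param`; for
`e = s(inl i, inr j)` or `s(inr i, inr j)` the right hand side is `0`, and so is the left hand side,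
as `φ.symm (inr j)` is not on `c₁`. -/
theorem chi_transport_row {V : Type*} [Fintype V] [DecidableEq V] {G : SimpleGraph V} {a b : V}
    {c₁ : G.Walk a a} {c₂ : G.Walk b b} (h₁ : c₁.IsCycle) (h₂ : c₂.IsCycle)
    (hd : List.Disjoint c₁.support c₂.support) {X : Set (Fin c₁.length × Fin c₂.length)}
    (φ : G ≃g TG c₁.length c₂.length X)
    (hφ₁ : ∀ i : Fin c₁.length, φ (c₁.getVert i) = Sum.inl i)
    (hφ₂ : ∀ j : Fin c₂.length, φ (c₂.getVert j) = Sum.inr j) :
    (fun e : Sym2 (Fin c₁.length ⊕ Fin c₂.length) => chi c₁ (e.map φ.symm)) =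
      rowC c₁.length c₂.length := by
  obtain ⟨p1, p2, p3⟩ := cycle_param h₁
  have hs1 : ∀ i : Fin c₁.length, φ.symm (Sum.inl i) = c₁.getVert i := by
    intro i
    rw [← hφ₁ i]
    exact φ.symm_apply_apply _
  have hs2 : ∀ j : Fin c₂.length, φ.symm (Sum.inr j) = c₂.getVert j := by
    intro j
    rw [← hφ₂ j]
    exact φ.symm_apply_apply _
  have hns : ∀ j : Fin c₂.length, c₂.getVert j ∉ c₁.support :=
    fun j hj => hd hj (SimpleGraph.Walk.getVert_mem_support _ _)
  have key : ∀ e : Sym2 (Fin c₁.length ⊕ Fin c₂.length), e.map φ.symm ∈ c₁.edges ↔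
      ∃ i j : Fin c₁.length, i ≠ j ∧ Nxt i j ∧ e = s(Sum.inl i, Sum.inl j) := by
    intro e
    constructor
    · intro he
      induction e with
      | _ x y =>
        have he' : s(φ.symm x, φ.symm y) ∈ c₁.edges := he
        rcases x with i | i
        · rcases y with j | j
          · rw [hs1, hs1, p3] at he'
            rcases he' with ⟨hne, h | h⟩
            · exact ⟨i, j, hne, h, rfl⟩
            · exact ⟨j, i, hne.symm, h, Sym2.eq_swap⟩
          · exfalso
            rw [hs2] at he'
            exact hns j (SimpleGraph.Walk.snd_mem_support_of_mem_edges c₁ he')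
        · exfalso
          rw [hs2] at he'
          exact hns i (SimpleGraph.Walk.fst_mem_support_of_mem_edges c₁ he')
    · rintro ⟨i, j, hne, hN, rfl⟩
      show s(φ.symm (Sum.inl i), φ.symm (Sum.inl j)) ∈ c₁.edges
      rw [hs1, hs1, p3]
      exact ⟨hne, Or.inl hN⟩
  funext e
  show chi c₁ (e.map φ.symm) = rowC c₁.length c₂.length e
  rw [chi_of_isCycle h₁]
  unfold rowC
  by_cases he : e.map φ.symm ∈ c₁.edges
  · rw [if_pos he, if_pos ((key e).1 he)]
  · rw [if_neg he, if_neg (fun h' => he ((key e).2 h'))]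

/-- The second cycle becomes the column cycle. -/
theorem chi_transport_col {V : Type*} [Fintype V] [DecidableEq V] {G : SimpleGraph V} {a b : V}
    {c₁ : G.Walk a a} {c₂ : G.Walk b b} (h₁ : c₁.IsCycle) (h₂ : c₂.IsCycle)
    (hd : List.Disjoint c₁.support c₂.support) {X : Set (Fin c₁.length × Fin c₂.length)}
    (φ : G ≃g TG c₁.length c₂.length X)
    (hφ₁ : ∀ i : Fin c₁.length, φ (c₁.getVert i) = Sum.inl i)
    (hφ₂ : ∀ j : Fin c₂.length, φ (c₂.getVert j) = Sum.inr j) :
    (fun e : Sym2 (Fin c₁.length ⊕ Fin c₂.length) => chi c₂ (e.map φ.symm)) =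
      colC c₁.length c₂.length := by
  obtain ⟨p1, p2, p3⟩ := cycle_param h₂
  have hs1 : ∀ i : Fin c₁.length, φ.symm (Sum.inl i) = c₁.getVert i := by
    intro i
    rw [← hφ₁ i]
    exact φ.symm_apply_apply _
  have hs2 : ∀ j : Fin c₂.length, φ.symm (Sum.inr j) = c₂.getVert j := by
    intro j
    rw [← hφ₂ j]
    exact φ.symm_apply_apply _
  have hns : ∀ j : Fin c₁.length, c₁.getVert j ∉ c₂.support :=
    fun j hj => hd (SimpleGraph.Walk.getVert_mem_support _ _) hj
  have key : ∀ e : Sym2 (Fin c₁.length ⊕ Fin c₂.length), e.map φ.symm ∈ c₂.edges ↔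
      ∃ i j : Fin c₂.length, i ≠ j ∧ Nxt i j ∧ e = s(Sum.inr i, Sum.inr j) := by
    intro e
    constructor
    · intro he
      induction e with
      | _ x y =>
        have he' : s(φ.symm x, φ.symm y) ∈ c₂.edges := he
        rcases x with i | i
        · exfalso
          rw [hs1] at he'
          exact hns i (SimpleGraph.Walk.fst_mem_support_of_mem_edges c₂ he')
        · rcases y with j | j
          · exfalso
            rw [hs1] at he'
            exact hns j (SimpleGraph.Walk.snd_mem_support_of_mem_edges c₂ he')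
          · rw [hs2, hs2, p3] at he'
            rcases he' with ⟨hne, h | h⟩
            · exact ⟨i, j, hne, h, rfl⟩
            · exact ⟨j, i, hne.symm, h, Sym2.eq_swap⟩
    · rintro ⟨i, j, hne, hN, rfl⟩
      show s(φ.symm (Sum.inr i), φ.symm (Sum.inr j)) ∈ c₂.edges
      rw [hs2, hs2, p3]
      exact ⟨hne, Or.inl hN⟩
  funext e
  show chi c₂ (e.map φ.symm) = colC c₁.length c₂.length e
  rw [chi_of_isCycle h₂]
  unfold colC
  by_cases he : e.map φ.symm ∈ c₂.edges
  · rw [if_pos he, if_pos ((key e).1 he)]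
  · rw [if_neg he, if_neg (fun h' => he ((key e).2 h'))]

end H46K
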