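import Pool.Agent.Lib.H46K.Defs

/-!
# H46K: definitions for Parts A and B (chains, bilinear form, `OddTG`)
-/

open scoped BigOperators

namespace H46K

/-- `z` is an element of the cycle space (over `𝔽₂`) of `G`. -/
def IsCyc {V : Type*} [Fintype V] [DecidableEq V] (G : SimpleGraph V) (z : Sym2 V → ZMod 2) :
    Prop :=
  (∀ e, z e ≠ 0 → e ∈ G.edgeSet) ∧ ∀ v : V, ∑ e : Sym2 V, (if v ∈ e then z e else 0) = 0

/-- The bilinear form on chains given by an arbitrary function on pairs of edges. -/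
def bil {V : Type*} [Fintype V] [DecidableEq V] (E : Sym2 V → Sym2 V → ZMod 2)
    (z z' : Sym2 V → ZMod 2) : ZMod 2 :=
  ∑ e : Sym2 V, ∑ e' : Sym2 V, z e * z' e' * E e e'

/-- The supports of `z` and `z'` have no common vertex. -/
def VDisj {V : Type*} (z z' : Sym2 V → ZMod 2) : Prop :=
  ∀ e e', z e ≠ 0 → z' e' ≠ 0 → ∀ v : V, v ∈ e → v ∉ e'

/-- `z` is contained in `z'`. -/
def CLe {V : Type*} (z z' : Sym2 V → ZMod 2) : Prop := ∀ e, z e ≠ 0 → z' e ≠ 0

/-- the chain of a walk -/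
def chi {V : Type*} [DecidableEq V] {G : SimpleGraph V} {u v : V} (w : G.Walk u v)
    (e : Sym2 V) : ZMod 2 := (w.edges.count e : ZMod 2)

open Classical in
/-- the row cycle of `TG m n X` -/
noncomputable def rowC (m n : ℕ) (e : Sym2 (Fin m ⊕ Fin n)) : ZMod 2 :=
  if ∃ i j : Fin m, i ≠ j ∧ Nxt i j ∧ e = s(Sum.inl i, Sum.inl j) then 1 else 0

open Classical in
/-- the column cycle of `TG m n X` -/
noncomputable def colC (m n : ℕ) (e : Sym2 (Fin m ⊕ Fin n)) : ZMod 2 :=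
  if ∃ i j : Fin n, i ≠ j ∧ Nxt i j ∧ e = s(Sum.inr i, Sum.inr j) then 1 else 0

/-- `(rowC, colC)` is the only odd pair of `TG m n X` with respect to the form `E`. -/
def OddTG (m n : ℕ) (X : Set (Fin m × Fin n))
    (E : Sym2 (Fin m ⊕ Fin n) → Sym2 (Fin m ⊕ Fin n) → ZMod 2) : Prop :=
  bil E (rowC m n) (colC m n) = 1 ∧
  ∀ z z', IsCyc (TG m n X) z → IsCyc (TG m n X) z' → VDisj z z' → bil E z z' = 1 →
    (CLe (rowC m n) z ∧ CLe (colC m n) z') ∨ (CLe (colC m n) z ∧ CLe (rowC m n) z')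

end H46K
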