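import Pool.Agent.Lib.H46K.Defs

/-!
# H46K, chunk B0 (M): extension of the labellings of a ring to globally monotone ones

`mono_extend`: `h' a = sup of h b` over the `b ∈ S`, `b ≤ a`, and `inf of h b` over `b ∈ S` if there is no such
`b` (bounded nonempty sets of integers: `sSup`, `sInf`, `Int.csSup_mem`, or take greatest and least elements). On `S` it is
`h` (the maximum is attained at `b = a`). All values lie in `[inf, sup]` of `h` on `S`, so the oscillation is at most `c`.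
`Ring.extend`: `mono_extend` for the two projections of `X` (nonempty by the hits).
-/

namespace H46K

/-- The hits of a ring. -/
def Hits {α β : Type*} (k δ ε : ℤ) (X : Set (α × β)) (h : α → ℤ) (g : β → ℤ) : Prop :=
  (∀ i s : ℤ, (s = 1 ∨ s = -1) → ∃ p ∈ X,
      h p.1 ≡ δ * (2 * i) [ZMOD 2 * k] ∧ g p.2 ≡ ε * (2 * (i + 1)) + s [ZMOD 2 * k]) ∧
    (∀ j s : ℤ, (s = 1 ∨ s = -1) → ∃ p ∈ X,
      h p.1 ≡ δ * (2 * j) + s [ZMOD 2 * k] ∧ g p.2 ≡ ε * (2 * j) [ZMOD 2 * k])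

/-- Extension of a function monotone on `S` with oscillation at most `c`. -/
theorem mono_extend {α : Type*} [LinearOrder α] (S : Set α) (hS : S.Nonempty) (h : α → ℤ) (c : ℤ)
    (h1 : ∀ a ∈ S, ∀ b ∈ S, a ≤ b → h a ≤ h b) (h2 : ∀ a ∈ S, ∀ b ∈ S, h a ≤ h b + c) :
    ∃ h' : α → ℤ, Monotone h' ∧ (∀ a b, h' a ≤ h' b + c) ∧ ∀ a ∈ S, h' a = h a := by
  obtain ⟨a₁, ha₁, hmin⟩ : ∃ a₁ ∈ S, ∀ a ∈ S, h a₁ ≤ h a := by
    obtain ⟨a₀, ha₀⟩ := hS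
    have hne : (h '' S).Nonempty := ⟨h a₀, a₀, ha₀, rfl⟩
    have hbd : BddBelow (h '' S) := ⟨h a₀ - c, by
      rintro _ ⟨b, hb, rfl⟩
      have := h2 a₀ ha₀ b hb
      omega⟩
    obtain ⟨a₁, ha₁, he⟩ := Int.csInf_mem hne hbd
    refine ⟨a₁, ha₁, fun a ha => ?_⟩
    rw [he]
    exact csInf_le hbd ⟨a, ha, rfl⟩
  let T : α → Set ℤ := fun a => {x | x = h a₁ ∨ ∃ b ∈ S, b ≤ a ∧ x = h b}
  have hTne : ∀ a, (T a).Nonempty := fun a => ⟨h a₁, Or.inl rfl⟩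
  have hTub : ∀ a, ∀ x ∈ T a, x ≤ h a₁ + c := by
    rintro a x (rfl | ⟨b, hb, -, rfl⟩)
    · exact h2 a₁ ha₁ a₁ ha₁
    · exact h2 b hb a₁ ha₁
  have hTbd : ∀ a, BddAbove (T a) := fun a => ⟨h a₁ + c, hTub a⟩
  refine ⟨fun a => sSup (T a), ?_, ?_, ?_⟩
  · intro a b hab
    refine csSup_le_csSup (hTbd b) (hTne a) ?_
    rintro x (rfl | ⟨d, hd, hda, rfl⟩)
    · exact Or.inl rfl
    · exact Or.inr ⟨d, hd, hda.trans hab, rfl⟩
  · intro a b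
    have e1 : sSup (T a) ≤ h a₁ + c := csSup_le (hTne a) (hTub a)
    have e2 : h a₁ ≤ sSup (T b) := le_csSup (hTbd b) (Or.inl rfl)
    show sSup (T a) ≤ sSup (T b) + c
    omega
  · intro a ha
    refine le_antisymm (csSup_le (hTne a) ?_) (le_csSup (hTbd a) (Or.inr ⟨a, ha, le_refl a, rfl⟩))
    rintro x (rfl | ⟨d, hd, hda, rfl⟩)
    · exact hmin a ha
    · exact h1 d hd a ha hda

theorem Ring.extend {α β : Type*} [LinearOrder α] [LinearOrder β] {k δ ε : ℤ} {X : Set (α × β)}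
    (hX : Ring k δ ε X) : ∃ (h : α → ℤ) (g : β → ℤ), Monotone h ∧ (∀ a b, h a ≤ h b + 2 * k) ∧
      Monotone g ∧ (∀ a b, g a ≤ g b + 2 * k) ∧ Hits k δ ε X h g := by
  obtain ⟨h, g, h1, h2, g1, g2, k1, k2⟩ := hX
  have hne : X.Nonempty := by
    obtain ⟨p, hp, -⟩ := k1 0 1 (Or.inl rfl)
    exact ⟨p, hp⟩
  obtain ⟨h', a1, a2, a3⟩ := mono_extend (Prod.fst '' X) (hne.image _) h (2 * k)
    (by
      rintro _ ⟨p, hp, rfl⟩ _ ⟨q, hq, rfl⟩ hpq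
      exact h1 p hp q hq hpq)
    (by
      rintro _ ⟨p, hp, rfl⟩ _ ⟨q, hq, rfl⟩
      exact h2 p hp q hq)
  obtain ⟨g', b1, b2, b3⟩ := mono_extend (Prod.snd '' X) (hne.image _) g (2 * k)
    (by
      rintro _ ⟨p, hp, rfl⟩ _ ⟨q, hq, rfl⟩ hpq
      exact g1 p hp q hq hpq)
    (by
      rintro _ ⟨p, hp, rfl⟩ _ ⟨q, hq, rfl⟩
      exact g2 p hp q hq)
  refine ⟨h', g', a1, a2, b1, b2, ?_, ?_⟩
  · intro i s hs
    obtain ⟨p, hp, e1, e2⟩ := k1 i s hs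
    refine ⟨p, hp, ?_, ?_⟩
    · rw [a3 p.1 ⟨p, hp, rfl⟩]
      exact e1
    · rw [b3 p.2 ⟨p, hp, rfl⟩]
      exact e2
  · intro i s hs
    obtain ⟨p, hp, e1, e2⟩ := k2 i s hs
    refine ⟨p, hp, ?_, ?_⟩
    · rw [a3 p.1 ⟨p, hp, rfl⟩]
      exact e1
    · rw [b3 p.2 ⟨p, hp, rfl⟩]
      exact e2

end H46K
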