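import Pool.Agent.Lib.H46K.B0

/-!
# H46K, chunk B0b (M): rings under inclusions, maps, transposition and reversal

`Ring.mono`, `Ring.comap`: from `Ring.extend` (`h = h' ∘ f`). `Ring.map`: `h' = Function.extend f h 0`, monotone on the
support. `HasRing.swap`: `h' = g`, `g' = h + 2 δ`, `δ' = ε`, `ε' = δ`: the first hits `(i, s)` are the second hits `(i, s)` of `X` and the second
hits `(j, s)` are the first hits `(j - 1, s)`. `dualL`: `h' = -h`, `δ' = -δ`, second hits with `-s`; `dualR`: `g' = -g`, `ε' = -ε`, first hits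
with `-s`.
-/

namespace H46K

variable {α β α' β' : Type*} [LinearOrder α] [LinearOrder β] [LinearOrder α'] [LinearOrder β']
  {k δ ε : ℤ}

/-- Globally monotone labellings with the hits give a ring. -/
theorem B0b_ring {X : Set (α × β)} (h : α → ℤ) (g : β → ℤ) (h1 : Monotone h)
    (h2 : ∀ a b, h a ≤ h b + 2 * k) (g1 : Monotone g) (g2 : ∀ a b, g a ≤ g b + 2 * k)
    (hh : Hits k δ ε X h g) : Ring k δ ε X :=
  ⟨h, g, fun _ _ _ _ hpq => h1 hpq, fun _ _ _ _ => h2 _ _, fun _ _ _ _ hpq => g1 hpq,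
    fun _ _ _ _ => g2 _ _, hh.1, hh.2⟩

theorem B0b_hits {X : Set (α × β)} {Y : Set (α' × β')} {k' δ' ε' : ℤ} {h : α → ℤ} {g : β → ℤ}
    {h' : α' → ℤ} {g' : β' → ℤ} (hX : Hits k δ ε X h g)
    (H1 : ∀ i s : ℤ, (s = 1 ∨ s = -1) → (∀ i s : ℤ, (s = 1 ∨ s = -1) → ∃ p ∈ X,
      h p.1 ≡ δ * (2 * i) [ZMOD 2 * k] ∧ g p.2 ≡ ε * (2 * (i + 1)) + s [ZMOD 2 * k]) →
      (∀ j s : ℤ, (s = 1 ∨ s = -1) → ∃ p ∈ X,
      h p.1 ≡ δ * (2 * j) + s [ZMOD 2 * k] ∧ g p.2 ≡ ε * (2 * j) [ZMOD 2 * k]) → ∃ p ∈ Y,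
      h' p.1 ≡ δ' * (2 * i) [ZMOD 2 * k'] ∧ g' p.2 ≡ ε' * (2 * (i + 1)) + s [ZMOD 2 * k'])
    (H2 : ∀ i s : ℤ, (s = 1 ∨ s = -1) → (∀ i s : ℤ, (s = 1 ∨ s = -1) → ∃ p ∈ X,
      h p.1 ≡ δ * (2 * i) [ZMOD 2 * k] ∧ g p.2 ≡ ε * (2 * (i + 1)) + s [ZMOD 2 * k]) →
      (∀ j s : ℤ, (s = 1 ∨ s = -1) → ∃ p ∈ X,
      h p.1 ≡ δ * (2 * j) + s [ZMOD 2 * k] ∧ g p.2 ≡ ε * (2 * j) [ZMOD 2 * k]) → ∃ p ∈ Y,
      h' p.1 ≡ δ' * (2 * i) + s [ZMOD 2 * k'] ∧ g' p.2 ≡ ε' * (2 * i) [ZMOD 2 * k']) :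
    Hits k' δ' ε' Y h' g' :=
  ⟨fun i s hs => H1 i s hs hX.1 hX.2, fun i s hs => H2 i s hs hX.1 hX.2⟩

theorem Ring.mono {X Y : Set (α × β)} (hXY : X ⊆ Y) (hX : Ring k δ ε X) : Ring k δ ε Y := by
  obtain ⟨h, g, h1, h2, g1, g2, hh⟩ := hX.extend
  refine B0b_ring h g h1 h2 g1 g2 (B0b_hits hh ?_ ?_)
  · intro i s hs K1 _
    obtain ⟨p, hp, e⟩ := K1 i s hs
    exact ⟨p, hXY hp, e⟩
  · intro i s hs _ K2
    obtain ⟨p, hp, e⟩ := K2 i s hs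
    exact ⟨p, hXY hp, e⟩

theorem HasRing.mono {X Y : Set (α × β)} (hXY : X ⊆ Y) (hX : HasRing X) : HasRing Y := by
  obtain ⟨k, δ, ε, hk, hδ, hε, hR⟩ := hX
  exact ⟨k, δ, ε, hk, hδ, hε, hR.mono hXY⟩

/-- Pull-back along monotone maps. -/
theorem Ring.comap {X : Set (α × β)} {Y : Set (α' × β')} (f : α → α') (f' : β → β')
    (hf : Monotone f) (hf' : Monotone f') (hY : ∀ q ∈ Y, ∃ p ∈ X, f p.1 = q.1 ∧ f' p.2 = q.2)
    (h : Ring k δ ε Y) : Ring k δ ε X := by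
  obtain ⟨h, g, h1, h2, g1, g2, hh⟩ := h.extend
  refine B0b_ring (fun a => h (f a)) (fun b => g (f' b)) (fun a b hab => h1 (hf hab))
    (fun a b => h2 _ _) (fun a b hab => g1 (hf' hab)) (fun a b => g2 _ _) (B0b_hits hh ?_ ?_)
  · intro i s hs K1 _
    obtain ⟨q, hq, e1, e2⟩ := K1 i s hs
    obtain ⟨p, hp, e3, e4⟩ := hY q hq
    refine ⟨p, hp, ?_, ?_⟩
    · show h (f p.1) ≡ _ [ZMOD _]
      rw [e3]
      exact e1
    · show g (f' p.2) ≡ _ [ZMOD _]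
      rw [e4]
      exact e2
  · intro i s hs _ K2
    obtain ⟨q, hq, e1, e2⟩ := K2 i s hs
    obtain ⟨p, hp, e3, e4⟩ := hY q hq
    refine ⟨p, hp, ?_, ?_⟩
    · show h (f p.1) ≡ _ [ZMOD _]
      rw [e3]
      exact e1
    · show g (f' p.2) ≡ _ [ZMOD _]
      rw [e4]
      exact e2

/-- Push-forward along strictly monotone maps. -/
theorem Ring.map {X : Set (α × β)} (f : α → α') (f' : β → β') (hf : StrictMono f)
    (hf' : StrictMono f') (h : Ring k δ ε X) : Ring k δ ε (Prod.map f f' '' X) := by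
  obtain ⟨h, g, h1, h2, g1, g2, K1, K2⟩ := h
  have eh : ∀ a, Function.extend f h 0 (f a) = h a := fun a => hf.injective.extend_apply h 0 a
  have eg : ∀ b, Function.extend f' g 0 (f' b) = g b := fun b => hf'.injective.extend_apply g 0 b
  refine ⟨Function.extend f h 0, Function.extend f' g 0, ?_, ?_, ?_, ?_, ?_, ?_⟩
  · rintro _ ⟨p, hp, rfl⟩ _ ⟨q, hq, rfl⟩ hpq
    rw [Prod.map_fst, Prod.map_fst, eh, eh]
    exact h1 p hp q hq (hf.le_iff_le.1 hpq)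
  · rintro _ ⟨p, hp, rfl⟩ _ ⟨q, hq, rfl⟩
    rw [Prod.map_fst, Prod.map_fst, eh, eh]
    exact h2 p hp q hq
  · rintro _ ⟨p, hp, rfl⟩ _ ⟨q, hq, rfl⟩ hpq
    rw [Prod.map_snd, Prod.map_snd, eg, eg]
    exact g1 p hp q hq (hf'.le_iff_le.1 hpq)
  · rintro _ ⟨p, hp, rfl⟩ _ ⟨q, hq, rfl⟩
    rw [Prod.map_snd, Prod.map_snd, eg, eg]
    exact g2 p hp q hq
  · intro i s hs
    obtain ⟨p, hp, e1, e2⟩ := K1 i s hs
    refine ⟨Prod.map f f' p, ⟨p, hp, rfl⟩, ?_, ?_⟩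
    · rw [Prod.map_fst, eh]
      exact e1
    · rw [Prod.map_snd, eg]
      exact e2
  · intro i s hs
    obtain ⟨p, hp, e1, e2⟩ := K2 i s hs
    refine ⟨Prod.map f f' p, ⟨p, hp, rfl⟩, ?_, ?_⟩
    · rw [Prod.map_fst, eh]
      exact e1
    · rw [Prod.map_snd, eg]
      exact e2

/-- Transposition. -/
theorem B0b_mod {a b c d n : ℤ} (h : a ≡ b [ZMOD n]) (e : d - c = b - a) :
    c ≡ d [ZMOD n] := by
  rw [Int.modEq_iff_dvd] at h ⊢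
  rw [e]
  exact h

theorem B0b_mod' {a b c d n : ℤ} (h : a ≡ b [ZMOD n]) (e : d - c = -(b - a)) :
    c ≡ d [ZMOD n] := by
  rw [Int.modEq_iff_dvd] at h ⊢
  rw [e]
  exact (dvd_neg).2 h

theorem B0b_sgn {s : ℤ} (hs : s = 1 ∨ s = -1) : -s = 1 ∨ -s = -1 := by
  rcases hs with rfl | rfl
  · exact Or.inr rfl
  · exact Or.inl rfl

theorem HasRing.swap {X : Set (α × β)} (h : HasRing X) :
    HasRing {p : β × α | (p.2, p.1) ∈ X} := by
  obtain ⟨k, δ, ε, hk, hδ, hε, hR⟩ := h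
  obtain ⟨h, g, h1, h2, g1, g2, hh⟩ := hR.extend
  refine ⟨k, ε, δ, hk, hε, hδ, B0b_ring g (fun a => h a + 2 * δ) g1 g2 ?_ ?_
    (B0b_hits hh ?_ ?_)⟩
  · intro a b hab
    have := h1 hab
    show h a + 2 * δ ≤ h b + 2 * δ
    omega
  · intro a b
    have := h2 a b
    show h a + 2 * δ ≤ h b + 2 * δ + 2 * k
    omega
  · intro i s hs _ K2
    obtain ⟨p, hp, e1, e2⟩ := K2 i s hs
    exact ⟨(p.2, p.1), hp, e2, B0b_mod e1 (by ring)⟩
  · intro i s hs K1 _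
    obtain ⟨p, hp, e1, e2⟩ := K1 (i - 1) s hs
    exact ⟨(p.2, p.1), hp, B0b_mod e2 (by ring), B0b_mod e1 (by ring)⟩

/-- Reversal of the order of the rows. -/
theorem HasRing.dualL {X : Set (α × β)} (h : HasRing X) :
    HasRing {p : αᵒᵈ × β | (OrderDual.ofDual p.1, p.2) ∈ X} := by
  obtain ⟨k, δ, ε, hk, hδ, hε, hR⟩ := h
  obtain ⟨h, g, h1, h2, g1, g2, hh⟩ := hR.extend
  refine ⟨k, -δ, ε, hk, ?_, hε, B0b_ring (fun a : αᵒᵈ => -h (OrderDual.ofDual a)) g ?_ ?_ g1 g2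
    (B0b_hits hh ?_ ?_)⟩
  · rcases hδ with rfl | rfl
    · exact Or.inr rfl
    · exact Or.inl rfl
  · intro a b hab
    have := h1 (OrderDual.ofDual_le_ofDual.2 hab)
    show -h (OrderDual.ofDual a) ≤ -h (OrderDual.ofDual b)
    omega
  · intro a b
    have := h2 (OrderDual.ofDual b) (OrderDual.ofDual a)
    show -h (OrderDual.ofDual a) ≤ -h (OrderDual.ofDual b) + 2 * k
    omega
  · intro i s hs K1 _
    obtain ⟨p, hp, e1, e2⟩ := K1 i s hs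
    exact ⟨(OrderDual.toDual p.1, p.2), hp, B0b_mod' e1 (by
      show -δ * (2 * i) - -h p.1 = _
      ring), e2⟩
  · intro i s hs _ K2
    obtain ⟨p, hp, e1, e2⟩ := K2 i (-s) (B0b_sgn hs)
    exact ⟨(OrderDual.toDual p.1, p.2), hp, B0b_mod' e1 (by
      show -δ * (2 * i) + s - -h p.1 = _
      ring), e2⟩

/-- Reversal of the order of the columns. -/
theorem HasRing.dualR {X : Set (α × β)} (h : HasRing X) :
    HasRing {p : α × βᵒᵈ | (p.1, OrderDual.ofDual p.2) ∈ X} := by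
  obtain ⟨k, δ, ε, hk, hδ, hε, hR⟩ := h
  obtain ⟨h, g, h1, h2, g1, g2, hh⟩ := hR.extend
  refine ⟨k, δ, -ε, hk, hδ, ?_, B0b_ring h (fun a : βᵒᵈ => -g (OrderDual.ofDual a)) h1 h2 ?_ ?_
    (B0b_hits hh ?_ ?_)⟩
  · rcases hε with rfl | rfl
    · exact Or.inr rfl
    · exact Or.inl rfl
  · intro a b hab
    have := g1 (OrderDual.ofDual_le_ofDual.2 hab)
    show -g (OrderDual.ofDual a) ≤ -g (OrderDual.ofDual b)
    omega
  · intro a b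
    have := g2 (OrderDual.ofDual b) (OrderDual.ofDual a)
    show -g (OrderDual.ofDual a) ≤ -g (OrderDual.ofDual b) + 2 * k
    omega
  · intro i s hs K1 _
    obtain ⟨p, hp, e1, e2⟩ := K1 i (-s) (B0b_sgn hs)
    exact ⟨(p.1, OrderDual.toDual p.2), hp, e1, B0b_mod' e2 (by
      show -ε * (2 * (i + 1)) + s - -g p.2 = _
      ring)⟩
  · intro i s hs _ K2
    obtain ⟨p, hp, e1, e2⟩ := K2 i s hs
    exact ⟨(p.1, OrderDual.toDual p.2), hp, e1, B0b_mod' e2 (by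
      show -ε * (2 * i) - -g p.2 = _
      ring)⟩

end H46K
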