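import Pool.Agent.Lib.H46K.BDefs

/-!
# H46K, chunk B1 (S/M): path chains modulo 2

For `N ≤ min a b` let `S N a = ∑ t ∈ Ico N a, se (edge t)`. If `a ≤ b` then `S N b = S N a + ∑ over Ico a b`, so
`pc c a b = S N a + S N b` (characteristic two), and the right side is symmetric in `a, b`; hence `pc_add`
(take `N` below `a, b, d`) and `pc_comm`, `pc_self`.
-/

open Finset

namespace H46K

variable {V : Type*} [DecidableEq V]

omit [DecidableEq V] in
/-- Chains have characteristic two. -/
theorem ch_add_self (z : Sym2 V → ZMod 2) : z + z = 0 := by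
  funext e
  exact CharTwo.add_self_eq_zero (z e)

omit [DecidableEq V] in
theorem B1_cancel (z z' : Sym2 V → ZMod 2) : z + (z + z') = z' := by
  rw [← add_assoc, ch_add_self, zero_add]

theorem pc_self (c : ℤ → V) (a : ℤ) : pc c a a = 0 := by
  unfold pc
  rw [min_self, max_self, Ico_self, sum_empty]

theorem pc_comm (c : ℤ → V) (a b : ℤ) : pc c a b = pc c b a := by
  unfold pc
  rw [min_comm, max_comm]

theorem B1_pot (c : ℤ → V) (N a b : ℤ) (ha : N ≤ a) (hb : N ≤ b) :
    pc c a b = ∑ t ∈ Ico N a, se s(c t, c (t + 1)) + ∑ t ∈ Ico N b, se s(c t, c (t + 1)) := by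
  have key : ∀ a b : ℤ, N ≤ a → a ≤ b →
      pc c a b = ∑ t ∈ Ico N a, se s(c t, c (t + 1)) + ∑ t ∈ Ico N b, se s(c t, c (t + 1)) := by
    intro a b ha hab
    have h1 : Ico N a ∪ Ico a b = Ico N b := Ico_union_Ico_eq_Ico ha hab
    have h2 : Disjoint (Ico N a) (Ico a b) := Ico_disjoint_Ico_consecutive N a b
    rw [← h1, sum_union h2, B1_cancel]
    unfold pc
    rw [min_eq_left hab, max_eq_right hab]
  rcases le_total a b with h | h
  · exact key a b ha h
  · rw [pc_comm, key b a hb h, add_comm]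

theorem pc_add (c : ℤ → V) (a b d : ℤ) : pc c a b + pc c b d = pc c a d := by
  obtain ⟨N, hN⟩ : ∃ N, N = min a (min b d) := ⟨_, rfl⟩
  have h1 : N ≤ a := by rw [hN]; exact min_le_left _ _
  have h2 : N ≤ b := by rw [hN]; exact (min_le_right _ _).trans (min_le_left _ _)
  have h3 : N ≤ d := by rw [hN]; exact (min_le_right _ _).trans (min_le_right _ _)
  rw [B1_pot c N a b h1 h2, B1_pot c N b d h2 h3, B1_pot c N a d h1 h3, add_assoc, B1_cancel]

theorem pc_supp (c : ℤ → V) (a b : ℤ) (e : Sym2 V) (h : pc c a b e ≠ 0) :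
    ∃ t, min a b ≤ t ∧ t < max a b ∧ e = s(c t, c (t + 1)) := by
  unfold pc at h
  rw [Finset.sum_apply] at h
  obtain ⟨t, ht, hne⟩ := Finset.exists_ne_zero_of_sum_ne_zero h
  rw [mem_Ico] at ht
  refine ⟨t, ht.1, ht.2, ?_⟩
  unfold se at hne
  by_contra h'
  rw [if_neg h'] at hne
  exact hne rfl

/-- Telescoping: `C` is the chain of a full turn of length `M`; the points `p l, q l` (`0 ≤ l < K`) have
`H`-values `δ 2 l + c₀ ∓ 1`. Complement of the union of the paths from `p l` to `q l`: paths from `q l` to `r l`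
with `H (r l) = H (q l)`.
`δ = 1`: `r l = p (l + 1)` for `l < K - 1`, `r (K - 1) = p 0 + M`; `δ = -1`: `r l = p (l - 1)` for `l ≥ 1`,
`r 0 = p (K - 1) + M`. Four explicit cases; use `pc_add` only. -/
theorem pc_tele (c : ℤ → V) (M : ℤ) (C : Sym2 V → ZMod 2) (hC : ∀ a, pc c a (a + M) = C)
    (K : ℕ) (hK : K = 2 ∨ K = 3) (δ : ℤ) (hδ : δ = 1 ∨ δ = -1) (H : ℤ → ℤ)
    (hH : ∀ x, H (x + M) = H x + 2 * K) (c₀ : ℤ) (p q : ℤ → ℤ)
    (hp : ∀ l, H (p l) = δ * (2 * l) + c₀ - 1) (hq : ∀ l, H (q l) = δ * (2 * l) + c₀ + 1) :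
    ∃ r : ℤ → ℤ, (∀ l ∈ range K, H (r l) = H (q l)) ∧
      C + ∑ l ∈ range K, pc c (p l) (q l) = ∑ l ∈ range K, pc c (q l) (r l) := by
  rcases hδ with rfl | rfl
  · -- increasing
    refine ⟨fun l => if l < K - 1 then p (l + 1) else p 0 + M, ?_, ?_⟩
    · intro l hl
      rw [mem_range] at hl
      simp only
      split_ifs with h1
      · rw [hp, hq]
        ring
      · rw [hH, hp, hq]
        have : (l : ℤ) = K - 1 := by omega
        rw [this]
        ring
    · rcases hK with rfl | rfl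
      · simp only [sum_range_succ, sum_range_zero, zero_add]
        norm_num
        rw [← hC (p 0), ← pc_add c (p 0) (q 0) (p 0 + M), ← pc_add c (q 0) (p 1) (p 0 + M),
          ← pc_add c (p 1) (q 1) (p 0 + M)]
        have h0 := ch_add_self (pc c (p 0) (q 0))
        have h1 := ch_add_self (pc c (p 1) (q 1))
        have e : pc c (p 0) (q 0) + (pc c (q 0) (p 1) + (pc c (p 1) (q 1) +
            pc c (q 1) (p 0 + M))) + (pc c (p 0) (q 0) + pc c (p 1) (q 1)) =
            pc c (q 0) (p 1) + pc c (q 1) (p 0 + M) + (pc c (p 0) (q 0) + pc c (p 0) (q 0)) +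
            (pc c (p 1) (q 1) + pc c (p 1) (q 1)) := by abel
        rw [e, h0, h1, add_zero, add_zero]
      · simp only [sum_range_succ, sum_range_zero, zero_add]
        norm_num
        rw [← hC (p 0), ← pc_add c (p 0) (q 0) (p 0 + M), ← pc_add c (q 0) (p 1) (p 0 + M),
          ← pc_add c (p 1) (q 1) (p 0 + M), ← pc_add c (q 1) (p 2) (p 0 + M),
          ← pc_add c (p 2) (q 2) (p 0 + M)]
        have h0 := ch_add_self (pc c (p 0) (q 0))
        have h1 := ch_add_self (pc c (p 1) (q 1))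
        have h2 := ch_add_self (pc c (p 2) (q 2))
        have e : pc c (p 0) (q 0) + (pc c (q 0) (p 1) + (pc c (p 1) (q 1) +
            (pc c (q 1) (p 2) + (pc c (p 2) (q 2) + pc c (q 2) (p 0 + M))))) +
            (pc c (p 0) (q 0) + pc c (p 1) (q 1) + pc c (p 2) (q 2)) =
            pc c (q 0) (p 1) + pc c (q 1) (p 2) + pc c (q 2) (p 0 + M) +
            (pc c (p 0) (q 0) + pc c (p 0) (q 0)) +
            (pc c (p 1) (q 1) + pc c (p 1) (q 1)) + (pc c (p 2) (q 2) + pc c (p 2) (q 2)) := by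
          abel
        rw [e, h0, h1, h2, add_zero, add_zero, add_zero]
  · -- decreasing
    refine ⟨fun l => if 1 ≤ l then p (l - 1) else p (K - 1) + M, ?_, ?_⟩
    · intro l hl
      rw [mem_range] at hl
      simp only
      split_ifs with h1
      · rw [hp, hq]
        ring
      · rw [hH, hp, hq]
        have : (l : ℤ) = 0 := by omega
        rw [this]
        ring
    · rcases hK with rfl | rfl
      · simp only [sum_range_succ, sum_range_zero, zero_add]
        norm_num
        rw [← hC (p 1), ← pc_add c (p 1) (q 1) (p 1 + M), ← pc_add c (q 1) (p 0) (p 1 + M),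
          ← pc_add c (p 0) (q 0) (p 1 + M)]
        have h0 := ch_add_self (pc c (p 0) (q 0))
        have h1 := ch_add_self (pc c (p 1) (q 1))
        have e : pc c (p 1) (q 1) + (pc c (q 1) (p 0) + (pc c (p 0) (q 0) +
            pc c (q 0) (p 1 + M))) + (pc c (p 0) (q 0) + pc c (p 1) (q 1)) =
            pc c (q 0) (p 1 + M) + pc c (q 1) (p 0) + (pc c (p 0) (q 0) + pc c (p 0) (q 0)) +
            (pc c (p 1) (q 1) + pc c (p 1) (q 1)) := by abel
        rw [e, h0, h1, add_zero, add_zero]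
      · simp only [sum_range_succ, sum_range_zero, zero_add]
        norm_num
        rw [← hC (p 2), ← pc_add c (p 2) (q 2) (p 2 + M), ← pc_add c (q 2) (p 1) (p 2 + M),
          ← pc_add c (p 1) (q 1) (p 2 + M), ← pc_add c (q 1) (p 0) (p 2 + M),
          ← pc_add c (p 0) (q 0) (p 2 + M)]
        have h0 := ch_add_self (pc c (p 0) (q 0))
        have h1 := ch_add_self (pc c (p 1) (q 1))
        have h2 := ch_add_self (pc c (p 2) (q 2))
        have e : pc c (p 2) (q 2) + (pc c (q 2) (p 1) + (pc c (p 1) (q 1) +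
            (pc c (q 1) (p 0) + (pc c (p 0) (q 0) + pc c (q 0) (p 2 + M))))) +
            (pc c (p 0) (q 0) + pc c (p 1) (q 1) + pc c (p 2) (q 2)) =
            pc c (q 0) (p 2 + M) + pc c (q 1) (p 0) + pc c (q 2) (p 1) +
            (pc c (p 0) (q 0) + pc c (p 0) (q 0)) +
            (pc c (p 1) (q 1) + pc c (p 1) (q 1)) + (pc c (p 2) (q 2) + pc c (p 2) (q 2)) := by
          abel
        rw [e, h0, h1, h2, add_zero, add_zero, add_zero]

end H46K
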