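import Pool.Agent.Lib.H46K.B1

/-!
# H46K, chunk B2 (M): boundaries

`bd` is additive; `bd (se s(v,w)) u = [u = v] + [u = w]` for `v ≠ w` (only the edge `s(v,w)` contributes);
`bd_pc` by summing over `Ico (min a b) (max a b)` (induction on `b - a` for `a ≤ b`, then `pc_comm`).
`isCyc_sq`: support: the two rooks are edges (`TGAdj`), the edges `s(vR t, vR (t+1))` are edges because
`rv t ≠ rv (t+1)` (`m ≥ 2`) and `Nxt`; boundary: every end point occurs twice.
`isCyc_row`, `isCyc_col`: `rowC = pc a (a + m)` is given as a hypothesis (it is chunk B3).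
-/

open Finset

namespace H46K

section
variable {V : Type*} [Fintype V] [DecidableEq V]

theorem bd_add (z z' : Sym2 V → ZMod 2) (v : V) : bd (z + z') v = bd z v + bd z' v := by
  unfold bd
  rw [← sum_add_distrib]
  refine sum_congr rfl fun e _ => ?_
  split_ifs
  · rfl
  · rw [add_zero]

theorem bd_se (v w u : V) (h : v ≠ w) :
    bd (se s(v, w)) u = (if u = v then 1 else 0) + (if u = w then 1 else 0) := by
  unfold bd se
  rw [sum_eq_single s(v, w)]
  · rw [if_pos rfl]
    by_cases h1 : u = v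
    · have h2 : u ≠ w := fun h3 => h (h1.symm.trans h3)
      rw [if_pos h1, if_neg h2, if_pos (by rw [h1]; exact Sym2.mem_mk_left _ _), add_zero]
    · by_cases h2 : u = w
      · rw [if_neg h1, if_pos h2, if_pos (by rw [h2]; exact Sym2.mem_mk_right _ _), zero_add]
      · rw [if_neg h1, if_neg h2, if_neg (by rw [Sym2.mem_iff]; exact fun h3 => h3.elim h1 h2),
          add_zero]
  · intro e _ he
    rw [if_neg he, ite_self]
  · intro h1
    exact absurd (mem_univ _) h1

theorem bd_pc (c : ℤ → V) (hc : ∀ t, c t ≠ c (t + 1)) (a b : ℤ) (u : V) :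
    bd (pc c a b) u = (if u = c a then 1 else 0) + (if u = c b then 1 else 0) := by
  have two : (2 : ZMod 2) = 0 := rfl
  have key : ∀ a b : ℤ, a ≤ b →
      bd (pc c a b) u = (if u = c a then 1 else 0) + (if u = c b then 1 else 0) := by
    intro a b hab
    induction b, hab using Int.le_induction with
    | base =>
      rw [pc_self]
      unfold bd
      simp only [Pi.zero_apply, ite_self, sum_const_zero]
      linear_combination (-(if u = c a then (1 : ZMod 2) else 0)) * two
    | succ b hb ih =>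
      have h1 : pc c b (b + 1) = se s(c b, c (b + 1)) := by
        unfold pc
        rw [min_eq_left (by omega), max_eq_right (by omega)]
        have h2 : Ico b (b + 1) = {b} := by
          ext t
          rw [mem_Ico, mem_singleton]
          omega
        rw [h2, sum_singleton]
      rw [← pc_add c a b (b + 1), bd_add, ih, h1, bd_se _ _ _ (hc b)]
      linear_combination (if u = c b then (1 : ZMod 2) else 0) * two
  rcases le_total a b with h | h
  · exact key a b h
  · rw [pc_comm, key b a h, add_comm]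

theorem isCyc_add (G : SimpleGraph V) (z z' : Sym2 V → ZMod 2) (h : IsCyc G z) (h' : IsCyc G z') :
    IsCyc G (z + z') := by
  refine ⟨fun e he => ?_, fun v => ?_⟩
  · by_cases h0 : z e = 0
    · refine h'.1 e fun h1 => he ?_
      rw [Pi.add_apply, h0, h1, add_zero]
    · exact h.1 e h0
  · have e1 : bd (z + z') v = 0 := by
      have e2 : bd z v = 0 := h.2 v
      have e3 : bd z' v = 0 := h'.2 v
      rw [bd_add, e2, e3, add_zero]
    exact e1

theorem B2_isCyc_zero (G : SimpleGraph V) : IsCyc G (0 : Sym2 V → ZMod 2) := by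
  refine ⟨fun e he => absurd rfl he, fun v => ?_⟩
  simp only [Pi.zero_apply, ite_self, sum_const_zero]

theorem isCyc_sum (G : SimpleGraph V) {ι : Type*} (s : Finset ι) (z : ι → Sym2 V → ZMod 2)
    (h : ∀ i ∈ s, IsCyc G (z i)) : IsCyc G (∑ i ∈ s, z i) := by
  classical
  induction s using Finset.induction_on with
  | empty =>
    rw [sum_empty]
    exact B2_isCyc_zero G
  | insert i s hi ih =>
    rw [sum_insert hi]
    exact isCyc_add G _ _ (h i (mem_insert_self _ _)) (ih fun j hj => h j (mem_insert_of_mem hj))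

end

theorem B2_rv_val (m : ℕ) (hm : 0 < m) (t : ℤ) : ((rv m hm t).1 : ℤ) = t % m := by
  unfold rv
  exact Int.toNat_of_nonneg (Int.emod_nonneg _ (by omega))

theorem rv_ne (m : ℕ) (hm : 0 < m) (h2 : 2 ≤ m) (t : ℤ) : rv m hm t ≠ rv m hm (t + 1) := by
  intro h
  have h1 : t % m = (t + 1) % m := by
    rw [← B2_rv_val m hm, ← B2_rv_val m hm, h]
  have h3 : (m : ℤ) ∣ (t + 1) - t := Int.ModEq.dvd h1
  have h4 : (m : ℤ) ∣ 1 := by
    have e : (t + 1) - t = 1 := by ring
    rwa [e] at h3
  have h5 := Int.le_of_dvd (by norm_num) h4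
  omega

theorem rv_nxt (m : ℕ) (hm : 0 < m) (t : ℤ) : Nxt (rv m hm t) (rv m hm (t + 1)) := by
  unfold Nxt
  have h : (((((rv m hm t).1 + 1) % m : ℕ)) : ℤ) = ((rv m hm (t + 1)).1 : ℤ) := by
    rw [B2_rv_val]
    push_cast
    rw [B2_rv_val, Int.emod_add_emod]
  exact_mod_cast h

theorem B2_adjR (m n : ℕ) (hm : 0 < m) (h2 : 2 ≤ m) (X : Set (Fin m × Fin n)) (t : ℤ) :
    s(vR m n hm t, vR m n hm (t + 1)) ∈ (TG m n X).edgeSet :=
  ⟨rv_ne m hm h2 t, Or.inl (rv_nxt m hm t)⟩

theorem B2_adjC (m n : ℕ) (hn : 0 < n) (h2 : 2 ≤ n) (X : Set (Fin m × Fin n)) (t : ℤ) :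
    s(vC m n hn t, vC m n hn (t + 1)) ∈ (TG m n X).edgeSet :=
  ⟨rv_ne n hn h2 t, Or.inl (rv_nxt n hn t)⟩

theorem B2_cR (m n : ℕ) (hm : 0 < m) (h2 : 2 ≤ m) (t : ℤ) :
    vR m n hm t ≠ vR m n hm (t + 1) := fun h => rv_ne m hm h2 t (Sum.inl.inj h)

theorem B2_cC (m n : ℕ) (hn : 0 < n) (h2 : 2 ≤ n) (t : ℤ) :
    vC m n hn t ≠ vC m n hn (t + 1) := fun h => rv_ne n hn h2 t (Sum.inr.inj h)

theorem B2_se {V : Type*} [DecidableEq V] {e e' : Sym2 V} (h : se e e' ≠ 0) : e' = e := by
  by_contra h1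
  exact h (if_neg h1)

theorem isCyc_sq (m n : ℕ) (hm : 3 ≤ m) (hn : 3 ≤ n) (X : Set (Fin m × Fin n)) (x y x' y' : ℤ)
    (h1 : (rv m (by omega) x, rv n (by omega) y) ∈ X)
    (h2 : (rv m (by omega) x', rv n (by omega) y') ∈ X) :
    IsCyc (TG m n X) (sq m n (by omega) (by omega) x y x' y') := by
  have hm0 : 0 < m := by omega
  have hn0 : 0 < n := by omega
  have two : (2 : ZMod 2) = 0 := rfl
  refine ⟨fun e he => ?_, fun u => ?_⟩
  · unfold sq at he
    by_cases c1 : se s(vR m n hm0 x, vC m n hn0 y) e = 0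
    · by_cases c2 : se s(vR m n hm0 x', vC m n hn0 y') e = 0
      · by_cases c3 : pc (vR m n hm0) x x' e = 0
        · by_cases c4 : pc (vC m n hn0) y y' e = 0
          · exfalso
            apply he
            rw [Pi.add_apply, Pi.add_apply, Pi.add_apply, c1, c2, c3, c4]
            rfl
          · obtain ⟨t, -, -, rfl⟩ := pc_supp _ _ _ _ c4
            exact B2_adjC m n hn0 (by omega) X t
        · obtain ⟨t, -, -, rfl⟩ := pc_supp _ _ _ _ c3
          exact B2_adjR m n hm0 (by omega) X t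
      · rw [B2_se c2]
        exact h2
    · rw [B2_se c1]
      exact h1
  · have key : bd (sq m n hm0 hn0 x y x' y') u = 0 := by
      unfold sq
      rw [bd_add, bd_add, bd_add, bd_se _ _ _ (by simp [vR, vC]), bd_se _ _ _ (by simp [vR, vC]),
        bd_pc _ (B2_cR m n hm0 (by omega)), bd_pc _ (B2_cC m n hn0 (by omega))]
      linear_combination ((if u = vR m n hm0 x then (1 : ZMod 2) else 0) +
        (if u = vR m n hm0 x' then (1 : ZMod 2) else 0) +
        (if u = vC m n hn0 y then (1 : ZMod 2) else 0) +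
        (if u = vC m n hn0 y' then (1 : ZMod 2) else 0)) * two
    exact key

theorem B2_rv_self (m : ℕ) (hm : 0 < m) : rv m hm m = rv m hm 0 := by
  apply Fin.ext
  have h : ((rv m hm m).1 : ℤ) = ((rv m hm 0).1 : ℤ) := by
    rw [B2_rv_val, B2_rv_val, Int.emod_self, Int.zero_emod]
  exact_mod_cast h

theorem isCyc_row (m n : ℕ) (hm : 3 ≤ m) (X : Set (Fin m × Fin n)) :
    IsCyc (TG m n X) (pc (vR m n (by omega)) 0 m) := by
  have hm0 : 0 < m := by omega
  have two : (2 : ZMod 2) = 0 := rfl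
  refine ⟨fun e he => ?_, fun u => ?_⟩
  · obtain ⟨t, -, -, rfl⟩ := pc_supp _ _ _ _ he
    exact B2_adjR m n hm0 (by omega) X t
  · have key : bd (pc (vR m n hm0) 0 m) u = 0 := by
      rw [bd_pc _ (B2_cR m n hm0 (by omega))]
      have e : vR m n hm0 m = vR m n hm0 0 := congrArg Sum.inl (B2_rv_self m hm0)
      rw [e]
      linear_combination (if u = vR m n hm0 0 then (1 : ZMod 2) else 0) * two
    exact key

theorem isCyc_col (m n : ℕ) (hn : 3 ≤ n) (X : Set (Fin m × Fin n)) :
    IsCyc (TG m n X) (pc (vC m n (by omega)) 0 n) := by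
  have hn0 : 0 < n := by omega
  have two : (2 : ZMod 2) = 0 := rfl
  refine ⟨fun e he => ?_, fun u => ?_⟩
  · obtain ⟨t, -, -, rfl⟩ := pc_supp _ _ _ _ he
    exact B2_adjC m n hn0 (by omega) X t
  · have key : bd (pc (vC m n hn0) 0 n) u = 0 := by
      rw [bd_pc _ (B2_cC m n hn0 (by omega))]
      have e : vC m n hn0 n = vC m n hn0 0 := congrArg Sum.inr (B2_rv_self n hn0)
      rw [e]
      linear_combination (if u = vC m n hn0 0 then (1 : ZMod 2) else 0) * two
    exact key

end H46K
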