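import Pool.Agent.Lib.H46K.BDefs

/-!
# H46K, chunk B3 (M): the full turn is the row cycle (column cycle)

At an edge `e` the left side is the number (mod 2) of `t ∈ [a, a+m)` with `e = s(vR t, vR (t+1))`. The
residues of the `t ∈ [a, a+m)` are all elements of `Fin m`, each once. If `e = s(inl i, inl j)` with `Nxt i j`, `i ≠ j`, then
exactly one `t` has `rv t = i` (then `rv (t+1) = j`), and no `t` has `rv t = j`, `rv (t+1) = i` since `i + 2 ≢ i` (`m ≥ 3`).
If `e` is not of this form no `t` occurs. The column statement is the same with `inr`.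
-/

open Finset

namespace H46K

theorem B3_val (m : ℕ) (hm : 0 < m) (t : ℤ) : ((rv m hm t).1 : ℤ) = t % m := by
  unfold rv
  have h1 := Int.emod_nonneg t (by omega : (m : ℤ) ≠ 0)
  simp only
  omega

theorem B3_nxt (m : ℕ) (_ : 0 < m) (i j : Fin m) : Nxt i j ↔ ((i.1 : ℤ) + 1) % m = j.1 := by
  unfold Nxt
  constructor
  · intro h
    rw [← h]
    push_cast
    rfl
  · intro h
    have h2 : (((i.1 + 1) % m : ℕ) : ℤ) = (j.1 : ℤ) := by
      push_cast
      exact h
    exact_mod_cast h2

/-- The count for an abstract closed path of length `m`. -/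
theorem B3_main {V : Type*} [DecidableEq V] (m : ℕ) (hm : 3 ≤ m) (f : Fin m → V)
    (hf : Function.Injective f) (a : ℤ) (e : Sym2 V) :
    pc (fun t => f (rv m (by omega) t)) a (a + m) e =
      (open Classical in
        if ∃ i j : Fin m, i ≠ j ∧ Nxt i j ∧ e = s(f i, f j) then (1 : ZMod 2) else 0) := by
  classical
  have hm0 : 0 < m := by omega
  have hmz : (0 : ℤ) < m := by exact_mod_cast hm0
  unfold pc
  rw [min_eq_left (by omega), max_eq_right (by omega), Finset.sum_apply]
  have hnx : ∀ t : ℤ, Nxt (rv m hm0 t) (rv m hm0 (t + 1)) := by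
    intro t
    rw [B3_nxt m hm0, B3_val, B3_val, Int.emod_add_emod]
  have hne : ∀ t : ℤ, rv m hm0 t ≠ rv m hm0 (t + 1) := by
    intro t h
    have h1 := congrArg (fun x : Fin m => (x.1 : ℤ)) h
    simp only [B3_val] at h1
    have h2 := (Int.emod_emod_of_dvd t (dvd_refl (m : ℤ)))
    have h3 : (m : ℤ) ∣ (t + 1) - t := Int.ModEq.dvd h1
    rw [add_sub_cancel_left] at h3
    have h4 := Int.le_of_dvd one_pos h3
    omega
  split_ifs with h
  · obtain ⟨i, j, hij, hn, rfl⟩ := h
    have hi := i.2
    obtain ⟨t₀, ht₀⟩ : ∃ t₀, t₀ = a + ((i.1 : ℤ) - a) % m := ⟨_, rfl⟩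
    have hb1 := Int.emod_nonneg ((i.1 : ℤ) - a) (by omega : (m : ℤ) ≠ 0)
    have hb2 := Int.emod_lt_of_pos ((i.1 : ℤ) - a) hmz
    have hmem : t₀ ∈ Ico a (a + m) := by
      rw [mem_Ico]
      constructor <;> omega
    have hrt : rv m hm0 t₀ = i := by
      apply Fin.ext
      have h1 : ((rv m hm0 t₀).1 : ℤ) = (i.1 : ℤ) := by
        rw [B3_val, ht₀, Int.add_emod_emod, add_sub_cancel]
        exact Int.emod_eq_of_lt (by omega) (by exact_mod_cast hi)
      exact_mod_cast h1
    have hjt : rv m hm0 (t₀ + 1) = j := by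
      apply Fin.ext
      have h1 := hnx t₀
      rw [hrt] at h1
      unfold Nxt at h1 hn
      omega
    rw [Finset.sum_eq_single t₀]
    · unfold se
      have h1 : s(f i, f j) = s(f (rv m hm0 t₀), f (rv m hm0 (t₀ + 1))) := by rw [hrt, hjt]
      exact if_pos h1
    · intro t ht hne0
      unfold se
      rw [if_neg]
      intro heq
      rw [Sym2.eq_iff] at heq
      rw [mem_Ico] at ht hmem
      rcases heq with ⟨h1, _⟩ | ⟨h1, h2⟩
      · apply hne0
        have h3 := hf h1
        rw [← hrt] at h3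
        have h4 := congrArg (fun x : Fin m => (x.1 : ℤ)) h3
        simp only [B3_val] at h4
        have h5 : (m : ℤ) ∣ t - t₀ := Int.ModEq.dvd h4
        obtain ⟨c, hc⟩ := h5
        have h6 : c = 0 := by
          rcases lt_trichotomy c 0 with h7 | h7 | h7
          · nlinarith
          · exact h7
          · nlinarith
        rw [h6, mul_zero] at hc
        omega
      · have h3 := hf h1
        have h4 := hf h2
        have h5 := hnx t
        rw [← h3, ← h4] at h5
        rw [B3_nxt m hm0] at h5 hn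
        rw [← hn, Int.emod_add_emod] at h5
        have h6 : ((i.1 : ℤ) + 1 + 1) % m = (i.1 : ℤ) % m := by
          rw [h5]
          exact (Int.emod_eq_of_lt (by omega) (by exact_mod_cast hi)).symm
        have h7 : (m : ℤ) ∣ ((i.1 : ℤ) + 1 + 1) - i.1 := Int.ModEq.dvd h6.symm
        have h8 : ((i.1 : ℤ) + 1 + 1) - i.1 = 2 := by ring
        rw [h8] at h7
        have h9 := Int.le_of_dvd (by norm_num) h7
        omega
    · intro h1
      exact absurd hmem h1
  · apply Finset.sum_eq_zero
    intro t _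
    unfold se
    rw [if_neg]
    intro heq
    exact h ⟨rv m hm0 t, rv m hm0 (t + 1), hne t, hnx t, heq⟩

theorem rowC_eq (m n : ℕ) (hm : 3 ≤ m) (a : ℤ) : pc (vR m n (by omega)) a (a + m) = rowC m n := by
  funext e
  exact B3_main m hm (fun i => (Sum.inl i : Fin m ⊕ Fin n)) Sum.inl_injective a e

theorem colC_eq (m n : ℕ) (hn : 3 ≤ n) (a : ℤ) : pc (vC m n (by omega)) a (a + n) = colC m n := by
  funext e
  exact B3_main n hn (fun j => (Sum.inr j : Fin m ⊕ Fin n)) Sum.inr_injective a e

end H46K
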