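import Pool.Agent.Lib.H46K.B1

/-!
# H46K, chunk B4 (M): labels of chains

All elementary. `(z + z') e ≠ 0` implies `z e ≠ 0` or `z' e ≠ 0`. `InL.pcR`: `pc_supp`. `InL.vdisj`: a common vertex
would be a row or a column satisfying two exclusive conditions. `InL.not_row`: `rowC` has an edge at every row `i`
(`s(inl i, inl j)`, `j = i + 1 mod m ≠ i`), so if `rowC ⊆ z` then `A i` for all `i`.
`bil_zero`: `bil E z z'` is 0 or 1 (`ZMod 2`); if it is 1, `OddTG` gives `rowC ⊆ z` or `colC ⊆ z`.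
-/

open Finset

namespace H46K

variable {m n : ℕ} {A A' : Fin m → Prop} {B B' : Fin n → Prop}
  {z z' : Sym2 (Fin m ⊕ Fin n) → ZMod 2}

theorem InL.add (h : InL A B z) (h' : InL A B z') : InL A B (z + z') := by
  intro e he
  by_cases h0 : z e = 0
  · refine h' e fun h1 => he ?_
    rw [Pi.add_apply, h0, h1, add_zero]
  · exact h e h0

theorem InL.sum {ι : Type*} (s : Finset ι) (f : ι → Sym2 (Fin m ⊕ Fin n) → ZMod 2)
    (h : ∀ i ∈ s, InL A B (f i)) : InL A B (∑ i ∈ s, f i) := by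
  intro e he
  rw [Finset.sum_apply] at he
  obtain ⟨i, hi, hne⟩ := Finset.exists_ne_zero_of_sum_ne_zero he
  exact h i hi e hne

theorem InL.mono (h : InL A B z) (hA : ∀ i, A i → A' i) (hB : ∀ j, B j → B' j) : InL A' B' z :=
  fun e he => ⟨fun i hi => hA i ((h e he).1 i hi), fun j hj => hB j ((h e he).2 j hj)⟩

theorem InL.rook (i : Fin m) (j : Fin n) (hi : A i) (hj : B j) :
    InL A B (se s(Sum.inl i, Sum.inr j)) := by
  intro e he
  have h0 : e = s(Sum.inl i, Sum.inr j) := by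
    by_contra h1
    exact he (if_neg h1)
  subst h0
  constructor
  · intro i' h'
    rw [Sym2.mem_iff] at h'
    rcases h' with h' | h'
    · rw [Sum.inl.inj h']
      exact hi
    · exact absurd h' (by simp)
  · intro i' h'
    rw [Sym2.mem_iff] at h'
    rcases h' with h' | h'
    · exact absurd h' (by simp)
    · rw [Sum.inr.inj h']
      exact hj

theorem InL.pcR (hm : 0 < m) (a b : ℤ) (h : ∀ t, min a b ≤ t → t ≤ max a b → A (rv m hm t)) :
    InL A B (pc (vR m n hm) a b) := by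
  intro e he
  obtain ⟨t, ht1, ht2, rfl⟩ := pc_supp _ _ _ _ he
  constructor
  · intro i' h'
    rw [Sym2.mem_iff] at h'
    rcases h' with h' | h'
    · rw [Sum.inl.inj h']
      exact h t ht1 (by omega)
    · rw [Sum.inl.inj h']
      exact h (t + 1) (by omega) (by omega)
  · intro i' h'
    rw [Sym2.mem_iff] at h'
    rcases h' with h' | h' <;> exact absurd h' (by simp [vR])

theorem InL.pcC (hn : 0 < n) (a b : ℤ) (h : ∀ t, min a b ≤ t → t ≤ max a b → B (rv n hn t)) :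
    InL A B (pc (vC m n hn) a b) := by
  intro e he
  obtain ⟨t, ht1, ht2, rfl⟩ := pc_supp _ _ _ _ he
  constructor
  · intro i' h'
    rw [Sym2.mem_iff] at h'
    rcases h' with h' | h' <;> exact absurd h' (by simp [vC])
  · intro i' h'
    rw [Sym2.mem_iff] at h'
    rcases h' with h' | h'
    · rw [Sum.inr.inj h']
      exact h t ht1 (by omega)
    · rw [Sum.inr.inj h']
      exact h (t + 1) (by omega) (by omega)

theorem InL.vdisj (h : InL A B z) (h' : InL A' B' z') (hA : ∀ i, A i → ¬ A' i)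
    (hB : ∀ j, B j → ¬ B' j) : VDisj z z' := by
  rintro e e' he he' (v | v) hv hv'
  · exact hA v ((h e he).1 v hv) ((h' e' he').1 v hv')
  · exact hB v ((h e he).2 v hv) ((h' e' he').2 v hv')

theorem B4_next {m : ℕ} (hm : 2 ≤ m) (i : Fin m) : ∃ j : Fin m, i ≠ j ∧ Nxt i j := by
  refine ⟨⟨(i.1 + 1) % m, Nat.mod_lt _ (by omega)⟩, ?_, rfl⟩
  intro h0
  have h1 : i.1 = (i.1 + 1) % m := congrArg Fin.val h0
  have h2 := i.2
  rcases Nat.lt_or_ge (i.1 + 1) m with h3 | h3
  · rw [Nat.mod_eq_of_lt h3] at h1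
    omega
  · have h4 : i.1 + 1 = m := by omega
    rw [h4, Nat.mod_self] at h1
    omega

theorem InL.not_row (hm : 2 ≤ m) (h : InL A B z) (i : Fin m) (hi : ¬ A i) :
    ¬ CLe (rowC m n) z := by
  intro hc
  obtain ⟨j, hj1, hj2⟩ := B4_next hm i
  have h1 : rowC m n s(Sum.inl i, Sum.inl j) ≠ 0 := by
    unfold rowC
    rw [if_pos ⟨i, j, hj1, hj2, rfl⟩]
    exact one_ne_zero
  exact hi ((h _ (hc _ h1)).1 i (Sym2.mem_mk_left _ _))

theorem InL.not_col (hn : 2 ≤ n) (h : InL A B z) (j : Fin n) (hj : ¬ B j) :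
    ¬ CLe (colC m n) z := by
  intro hc
  obtain ⟨j', hj1, hj2⟩ := B4_next hn j
  have h1 : colC m n s(Sum.inr j, Sum.inr j') ≠ 0 := by
    unfold colC
    rw [if_pos ⟨j, j', hj1, hj2, rfl⟩]
    exact one_ne_zero
  exact hj ((h _ (hc _ h1)).2 j (Sym2.mem_mk_left _ _))

theorem bil_zero (hm : 3 ≤ m) (hn : 3 ≤ n) {X : Set (Fin m × Fin n)}
    {E : Sym2 (Fin m ⊕ Fin n) → Sym2 (Fin m ⊕ Fin n) → ZMod 2} (hO : OddTG m n X E)
    (hz : IsCyc (TG m n X) z) (hz' : IsCyc (TG m n X) z') (h : InL A B z) (h' : InL A' B' z')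
    (hA : ∀ i, A i → ¬ A' i) (hB : ∀ j, B j → ¬ B' j) (hi : ∃ i, ¬ A i) (hj : ∃ j, ¬ B j) :
    bil E z z' = 0 := by
  by_contra h0
  have h1 : bil E z z' = 1 := by
    generalize bil E z z' = x at h0
    revert x
    decide
  obtain ⟨i, hi⟩ := hi
  obtain ⟨j, hj⟩ := hj
  rcases hO.2 z z' hz hz' (h.vdisj h' hA hB) h1 with h2 | h2
  · exact h.not_row (by omega) i hi h2.1
  · exact h.not_col (by omega) j hj h2.1

end H46K
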