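import Pool.Agent.Lib.H46K.BDefs
import Pool.Agent.Lib.H46K.B0

/-!
# H46K, chunk B5 (M): lifts

Take `h, g` from `Ring.extend`, `H x = h (rv x) + 2 k (x / m)`, `G y = g (rv y) + 2 k (y / n)` (Euclidean division in `ℤ`).
Monotone: enough `H x ≤ H (x + 1)` (`monotone_int_of_le_succ`): if `(x + 1) % m ≠ 0` the quotients agree and `rv x ≤ rv (x+1)`;
otherwise the quotient grows by one and `h (rv x) ≤ h (rv (x + 1)) + 2 k`. Period: `Int.add_mul_ediv_right` etc.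
Hits: a hit `p = (i, j) ∈ X` with `h i ≡ a`, `g j ≡ b` modulo `2 k`: `a = h i + 2 k c`, take `x = i + m c`, so
`H x = h i + 2 k c = a`; the same for `y`.
-/

namespace H46K

theorem B5_rv_val (m : ℕ) (hm : 0 < m) (t : ℤ) : ((rv m hm t).1 : ℤ) = t % m := by
  unfold rv
  exact Int.toNat_of_nonneg (Int.emod_nonneg _ (by omega))

theorem B5_rep {m : ℕ} (hm : 0 < m) (i : Fin m) (c : ℤ) :
    rv m hm (i.1 + m * c) = i ∧ ((i.1 : ℤ) + m * c) / m = c := by
  have h := (Int.ediv_emod_unique (a := (i.1 : ℤ) + m * c) (b := m) (r := i.1) (q := c)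
    (by omega)).2 ⟨rfl, by omega, by have := i.2; omega⟩
  refine ⟨?_, h.1⟩
  apply Fin.ext
  have h1 := B5_rv_val m hm (i.1 + m * c)
  rw [h.2] at h1
  exact_mod_cast h1

/-- The lift of one labelling. -/
def B5_H (m : ℕ) (hm : 0 < m) (k : ℤ) (h : Fin m → ℤ) (x : ℤ) : ℤ :=
  h (rv m hm x) + 2 * k * (x / m)

theorem B5_mono (m : ℕ) (hm : 0 < m) (k : ℤ) (h : Fin m → ℤ) (h1 : Monotone h)
    (h2 : ∀ a b, h a ≤ h b + 2 * k) : Monotone (B5_H m hm k h) := by
  refine monotone_int_of_le_succ fun x => ?_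
  have e0 := Int.emod_add_mul_ediv x m
  have e1 := Int.emod_nonneg x (by omega : (m : ℤ) ≠ 0)
  have e2 := Int.emod_lt_of_pos x (by omega : (0 : ℤ) < m)
  unfold B5_H
  rcases lt_or_ge (x % m + 1) (m : ℤ) with h3 | h3
  · have h4 := (Int.ediv_emod_unique (a := x + 1) (b := m) (r := x % m + 1) (q := x / m)
      (by omega)).2 ⟨by linarith, by omega, h3⟩
    have h5 : rv m hm x ≤ rv m hm (x + 1) := by
      have h6 : ((rv m hm x).1 : ℤ) ≤ ((rv m hm (x + 1)).1 : ℤ) := by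
        rw [B5_rv_val, B5_rv_val, h4.2]
        omega
      exact_mod_cast h6
    rw [h4.1]
    have := h1 h5
    linarith
  · have h4 := (Int.ediv_emod_unique (a := x + 1) (b := m) (r := 0) (q := x / m + 1)
      (by omega)).2 ⟨by rw [mul_add, mul_one]; omega, le_refl _, by omega⟩
    rw [h4.1]
    have := h2 (rv m hm x) (rv m hm (x + 1))
    linarith

theorem B5_per (m : ℕ) (hm : 0 < m) (k : ℤ) (h : Fin m → ℤ) (x : ℤ) :
    B5_H m hm k h (x + m) = B5_H m hm k h x + 2 * k := by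
  unfold B5_H
  have e1 : rv m hm (x + m) = rv m hm x := by
    apply Fin.ext
    have h1 : ((rv m hm (x + m)).1 : ℤ) = ((rv m hm x).1 : ℤ) := by
      rw [B5_rv_val, B5_rv_val, Int.add_emod_right]
    exact_mod_cast h1
  have e2 : (x + m) / (m : ℤ) = x / m + 1 := by
    have := Int.add_mul_ediv_right x 1 (by omega : (m : ℤ) ≠ 0)
    rwa [one_mul] at this
  rw [e1, e2]
  ring

theorem B5_lab (m : ℕ) (hm : 0 < m) (k : ℤ) (h : Fin m → ℤ) (x : ℤ) :
    h (rv m hm x) ≡ B5_H m hm k h x [ZMOD 2 * k] := by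
  rw [Int.modEq_iff_dvd]
  exact ⟨x / m, by unfold B5_H; ring⟩

theorem B5_hit {m : ℕ} (hm : 0 < m) (k : ℤ) (h : Fin m → ℤ) (i : Fin m) (a : ℤ)
    (ha : h i ≡ a [ZMOD 2 * k]) : ∃ x, rv m hm x = i ∧ B5_H m hm k h x = a := by
  rw [Int.modEq_iff_dvd] at ha
  obtain ⟨c, hc⟩ := ha
  obtain ⟨h1, h2⟩ := B5_rep hm i c
  refine ⟨i.1 + m * c, h1, ?_⟩
  unfold B5_H
  rw [h1, h2]
  linarith

theorem ring_lift (m n : ℕ) (hm : 0 < m) (hn : 0 < n) (k δ ε : ℤ) (X : Set (Fin m × Fin n))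
    (hX : Ring k δ ε X) : ∃ h g H G, Lift m n hm hn k δ ε X h g H G := by
  obtain ⟨h, g, h1, h2, g1, g2, k1, k2⟩ := hX.extend
  refine ⟨h, g, B5_H m hm k h, B5_H n hn k g, B5_mono m hm k h h1 h2, B5_mono n hn k g g1 g2,
    B5_per m hm k h, B5_per n hn k g, B5_lab m hm k h, B5_lab n hn k g, ?_, ?_⟩
  · intro l s hs
    obtain ⟨p, hp, e1, e2⟩ := k1 l s hs
    obtain ⟨x, hx1, hx2⟩ := B5_hit hm k h p.1 _ e1
    obtain ⟨y, hy1, hy2⟩ := B5_hit hn k g p.2 _ e2
    exact ⟨x, y, by rw [hx1, hy1]; exact hp, hx2, hy2⟩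
  · intro l s hs
    obtain ⟨p, hp, e1, e2⟩ := k2 l s hs
    obtain ⟨x, hx1, hx2⟩ := B5_hit hm k h p.1 _ e1
    obtain ⟨y, hy1, hy2⟩ := B5_hit hn k g p.2 _ e2
    exact ⟨x, y, by rw [hx1, hy1]; exact hp, hx2, hy2⟩

/-- Every residue modulo `2 k` is the label of a row, and of a column: an even residue `r` is `δ (2 l)` with `l = δ (r/2)`, the row of
a first hit; an odd one is `δ (2 l) + 1`, the row of a second hit; the same for the columns. -/
theorem lift_all {m n : ℕ} {hm : 0 < m} {hn : 0 < n} {k δ ε : ℤ} {X : Set (Fin m × Fin n)}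
    {h : Fin m → ℤ} {g : Fin n → ℤ} {H G : ℤ → ℤ} (hδ : δ = 1 ∨ δ = -1) (hε : ε = 1 ∨ ε = -1)
    (L : Lift m n hm hn k δ ε X h g H G) (r : ℤ) :
    (∃ i, h i ≡ r [ZMOD 2 * k]) ∧ ∃ j, g j ≡ r [ZMOD 2 * k] := by
  have hδ2 : δ * δ = 1 := by rcases hδ with rfl | rfl <;> rfl
  have hε2 : ε * ε = 1 := by rcases hε with rfl | rfl <;> rfl
  rcases Int.even_or_odd' r with ⟨a, ha | ha⟩
  · constructor
    · obtain ⟨x, y, -, e1, -⟩ := L.hit1 (δ * a) 1 (Or.inl rfl)
      refine ⟨rv m hm x, ?_⟩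
      have e2 := L.labH x
      have e3 : H x = r := by
        rw [e1, ha]
        linear_combination (2 * a) * hδ2
      rwa [e3] at e2
    · obtain ⟨x, y, -, -, e1⟩ := L.hit2 (ε * a) 1 (Or.inl rfl)
      refine ⟨rv n hn y, ?_⟩
      have e2 := L.labG y
      have e3 : G y = r := by
        rw [e1, ha]
        linear_combination (2 * a) * hε2
      rwa [e3] at e2
  · constructor
    · obtain ⟨x, y, -, e1, -⟩ := L.hit2 (δ * a) 1 (Or.inl rfl)
      refine ⟨rv m hm x, ?_⟩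
      have e2 := L.labH x
      have e3 : H x = r := by
        rw [e1, ha]
        linear_combination (2 * a) * hδ2
      rwa [e3] at e2
    · obtain ⟨x, y, -, -, e1⟩ := L.hit1 (ε * a - 1) 1 (Or.inl rfl)
      refine ⟨rv n hn y, ?_⟩
      have e2 := L.labG y
      have e3 : G y = r := by
        rw [e1, ha]
        linear_combination (2 * a) * hε2
      rwa [e3] at e2

end H46K
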