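import Pool.Agent.Lib.H46K.B1
import Pool.Agent.Lib.H46K.B3
import Pool.Agent.Lib.H46K.B4

/-!
# H46K, chunk B6 (M): the labels of the rook squares

`H` monotone: if `min x x' ≤ t ≤ max x x'` then `H t` lies between `H x` and `H x'`, and `h (rv t) ≡ H t`.
(i) `sq_in`: `InL.add`, `InL.rook`, `InL.pcR`, `InL.pcC`.
(ii) `sq_row`: `pc x x' + rowC = pc x' (x + m)` by `pc_add`, `rowC_eq` and characteristic two; `H` on `[x', x + m]`
(`x' ≤ x + m` as `H x' = r + 1 < H (x + m) = r - 1 + 2 k`; or use min/max only) takes values in `[r + 1, r - 1 + 2 k]`, which are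
not `≡ r` modulo `2 k`; the rooks have row labels `r - 1`, `r + 1`, not `≡ r` since `k ≥ 2`.
(iii) `sq_col`: the same for columns.
-/

open Finset

namespace H46K

variable {m n : ℕ} {k δ ε : ℤ} {X : Set (Fin m × Fin n)} {h : Fin m → ℤ} {g : Fin n → ℤ}
  {H G : ℤ → ℤ}

/-- `H` between two points. -/
theorem B6_btw {H : ℤ → ℤ} (hH : Monotone H) (a b t : ℤ) (h1 : min a b ≤ t) (h2 : t ≤ max a b) :
    min (H a) (H b) ≤ H t ∧ H t ≤ max (H a) (H b) := by
  rcases le_total a b with h | h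
  · rw [min_eq_left h] at h1
    rw [max_eq_right h] at h2
    exact ⟨(min_le_left _ _).trans (hH h1), (hH h2).trans (le_max_right _ _)⟩
  · rw [min_eq_right h] at h1
    rw [max_eq_left h] at h2
    exact ⟨(min_le_right _ _).trans (hH h1), (hH h2).trans (le_max_left _ _)⟩

theorem sq_in (hm : 0 < m) (hn : 0 < n) (L : Lift m n hm hn k δ ε X h g H G)
    (A : Fin m → Prop) (B : Fin n → Prop) (x y x' y' : ℤ)
    (hA : ∀ v, min (H x) (H x') ≤ v → v ≤ max (H x) (H x') → ∀ i, h i ≡ v [ZMOD 2 * k] → A i)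
    (hB : ∀ v, min (G y) (G y') ≤ v → v ≤ max (G y) (G y') → ∀ j, g j ≡ v [ZMOD 2 * k] → B j) :
    InL A B (sq m n hm hn x y x' y') := by
  have hAt : ∀ t, min x x' ≤ t → t ≤ max x x' → A (rv m hm t) := by
    intro t h1 h2
    obtain ⟨h3, h4⟩ := B6_btw L.monoH x x' t h1 h2
    exact hA _ h3 h4 _ (L.labH t)
  have hBt : ∀ t, min y y' ≤ t → t ≤ max y y' → B (rv n hn t) := by
    intro t h1 h2
    obtain ⟨h3, h4⟩ := B6_btw L.monoG y y' t h1 h2
    exact hB _ h3 h4 _ (L.labG t)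
  unfold sq
  apply InL.add (InL.add (InL.add _ _) _) _
  · exact InL.rook _ _ (hAt x (min_le_left _ _) (le_max_left _ _))
      (hBt y (min_le_left _ _) (le_max_left _ _))
  · exact InL.rook _ _ (hAt x' (min_le_right _ _) (le_max_right _ _))
      (hBt y' (min_le_right _ _) (le_max_right _ _))
  · exact InL.pcR hm x x' hAt
  · exact InL.pcC hn y y' hBt

theorem B6_res {k r v : ℤ} (h1 : r + 1 ≤ v) (h2 : v ≤ r - 1 + 2 * k) : ¬ v ≡ r [ZMOD 2 * k] := by
  intro h
  obtain ⟨c, hc⟩ := h.symm.dvd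
  rcases le_or_gt c 0 with h3 | h3
  · nlinarith
  · have : 1 ≤ c := h3
    nlinarith

theorem sq_row (hm : 3 ≤ m) (hn : 0 < n) (hk : 2 ≤ k) (L : Lift m n (by omega) hn k δ ε X h g H G)
    (B : Fin n → Prop) (x y x' y' r : ℤ) (hx : H x = r - 1) (hx' : H x' = r + 1)
    (hB : ∀ v, min (G y) (G y') ≤ v → v ≤ max (G y) (G y') → ∀ j, g j ≡ v [ZMOD 2 * k] → B j) :
    InL (fun i => ¬ h i ≡ r [ZMOD 2 * k]) B (sq m n (by omega) hn x y x' y' + rowC m n) := by
  have hBt : ∀ t, min y y' ≤ t → t ≤ max y y' → B (rv n hn t) := by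
    intro t h1 h2
    obtain ⟨h3, h4⟩ := B6_btw L.monoG y y' t h1 h2
    exact hB _ h3 h4 _ (L.labG t)
  have hno : ∀ t, r + 1 ≤ H t → H t ≤ r - 1 + 2 * k → ¬ h (rv m (by omega) t) ≡ r [ZMOD 2 * k] := by
    intro t h1 h2 h3
    exact B6_res h1 h2 ((L.labH t).symm.trans h3)
  have hxm : H (x + m) = r - 1 + 2 * k := by rw [L.perH, hx]
  have e1 : pc (vR m n (by omega)) x x' + rowC m n = pc (vR m n (by omega)) x' (x + m) := by
    rw [← rowC_eq m n hm x, ← pc_add _ x x' (x + m), ← add_assoc, ch_add_self, zero_add]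
  have e : sq m n (by omega) hn x y x' y' + rowC m n =
      se s(vR m n (by omega) x, vC m n hn y) + se s(vR m n (by omega) x', vC m n hn y') +
      pc (vR m n (by omega)) x' (x + m) + pc (vC m n hn) y y' := by
    rw [← e1]
    unfold sq
    abel
  rw [e]
  apply InL.add (InL.add (InL.add _ _) _) _
  · apply InL.rook _ _ _ (hBt y (min_le_left _ _) (le_max_left _ _))
    intro h3
    have h4 := (L.labH x).symm.trans h3
    rw [hx] at h4
    obtain ⟨c, hc⟩ := h4.dvd
    rcases le_or_gt c 0 with h5 | h5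
    · nlinarith
    · have : 1 ≤ c := h5
      nlinarith
  · apply InL.rook _ _ _ (hBt y' (min_le_right _ _) (le_max_right _ _))
    exact hno x' (by omega) (by omega)
  · apply InL.pcR
    intro t h1 h2
    obtain ⟨h3, h4⟩ := B6_btw L.monoH x' (x + m) t h1 h2
    rw [hx', hxm] at h3 h4
    rw [min_eq_left (by omega)] at h3
    rw [max_eq_right (by omega)] at h4
    exact hno t h3 h4
  · exact InL.pcC hn y y' hBt

theorem sq_col (hm : 0 < m) (hn : 3 ≤ n) (hk : 2 ≤ k) (L : Lift m n hm (by omega) k δ ε X h g H G)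
    (A : Fin m → Prop) (x y x' y' r : ℤ) (hy : G y = r - 1) (hy' : G y' = r + 1)
    (hA : ∀ v, min (H x) (H x') ≤ v → v ≤ max (H x) (H x') → ∀ i, h i ≡ v [ZMOD 2 * k] → A i) :
    InL A (fun j => ¬ g j ≡ r [ZMOD 2 * k]) (sq m n hm (by omega) x y x' y' + colC m n) := by
  have hAt : ∀ t, min x x' ≤ t → t ≤ max x x' → A (rv m hm t) := by
    intro t h1 h2
    obtain ⟨h3, h4⟩ := B6_btw L.monoH x x' t h1 h2
    exact hA _ h3 h4 _ (L.labH t)
  have hno : ∀ t, r + 1 ≤ G t → G t ≤ r - 1 + 2 * k → ¬ g (rv n (by omega) t) ≡ r [ZMOD 2 * k] := by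
    intro t h1 h2 h3
    exact B6_res h1 h2 ((L.labG t).symm.trans h3)
  have hym : G (y + n) = r - 1 + 2 * k := by rw [L.perG, hy]
  have e1 : pc (vC m n (by omega)) y y' + colC m n = pc (vC m n (by omega)) y' (y + n) := by
    rw [← colC_eq m n hn y, ← pc_add _ y y' (y + n), ← add_assoc, ch_add_self, zero_add]
  have e : sq m n hm (by omega) x y x' y' + colC m n =
      se s(vR m n hm x, vC m n (by omega) y) + se s(vR m n hm x', vC m n (by omega) y') +
      pc (vR m n hm) x x' + pc (vC m n (by omega)) y' (y + n) := by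
    rw [← e1]
    unfold sq
    abel
  rw [e]
  apply InL.add (InL.add (InL.add _ _) _) _
  · apply InL.rook _ _ (hAt x (min_le_left _ _) (le_max_left _ _))
    intro h3
    have h4 := (L.labG y).symm.trans h3
    rw [hy] at h4
    obtain ⟨c, hc⟩ := h4.dvd
    rcases le_or_gt c 0 with h5 | h5
    · nlinarith
    · have : 1 ≤ c := h5
      nlinarith
  · apply InL.rook _ _ (hAt x' (min_le_right _ _) (le_max_right _ _))
    exact hno y' (by omega) (by omega)
  · exact InL.pcR hm x x' hAt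
  · apply InL.pcC
    intro t h1 h2
    obtain ⟨h3, h4⟩ := B6_btw L.monoG y' (y + n) t h1 h2
    rw [hy', hym] at h3 h4
    rw [min_eq_left (by omega)] at h3
    rw [max_eq_right (by omega)] at h4
    exact hno t h3 h4

end H46K
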