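import Pool.Agent.Lib.H46K.B1
import Pool.Agent.Lib.H46K.B3
import Pool.Agent.Lib.H46K.B4

/-!
# H46K, chunk B7 (M): the labels of the total chains

`K = 2` or `3`, `k = K`. `u l, w l`: lower hits (`s = -1`), `u' l, w' l`: upper hits (`s = 1`).
`rowC + ∑ sq = (rowC + ∑ pc (u l) (u' l)) + ∑ (rooks) + ∑ pc (w l) (w' l)`; the first bracket is
`∑ pc (u' l) (r l)` with `H (r l) = H (u' l) = δ 2 l + c₀ + 1` (`pc_tele` with `M = m`, `rowC_eq`), so all its rows have labels
`≡ c₀ + 1` modulo 2 (`H` is constant between `u' l` and `r l`, and `2 k` is even). The rooks have rows with labels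
`δ 2 l + c₀ ∓ 1`, columns as assumed. Write the sum over `l ∈ range K` with `Finset.sum_add_distrib`.
-/

open Finset

namespace H46K

variable {m n : ℕ} {δ ε : ℤ} {X : Set (Fin m × Fin n)} {h : Fin m → ℤ} {g : Fin n → ℤ}
  {H G : ℤ → ℤ}

/-- `H` is constant between two points with the same value. -/
theorem B7_const {H : ℤ → ℤ} (hH : Monotone H) {a b v : ℤ} (ha : H a = v) (hb : H b = v) (t : ℤ)
    (h1 : min a b ≤ t) (h2 : t ≤ max a b) : H t = v := by
  rcases le_total a b with h | h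
  · rw [min_eq_left h] at h1
    rw [max_eq_right h] at h2
    have h3 := hH h1
    have h4 := hH h2
    omega
  · rw [min_eq_right h] at h1
    rw [max_eq_left h] at h2
    have h3 := hH h1
    have h4 := hH h2
    omega

theorem B7_mod {K a b : ℤ} (h : a ≡ b [ZMOD 2 * K]) : a ≡ b [ZMOD 2] :=
  h.of_mul_right K

theorem tot_row (K : ℕ) (hK : K = 2 ∨ K = 3) (hm : 3 ≤ m) (hn : 0 < n) (hδ : δ = 1 ∨ δ = -1)
    (L : Lift m n (by omega) hn K δ ε X h g H G) (c₀ : ℤ) (u w u' w' : ℤ → ℤ)
    (hu : ∀ l, H (u l) = δ * (2 * l) + c₀ - 1) (hu' : ∀ l, H (u' l) = δ * (2 * l) + c₀ + 1)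
    (d : ℤ) (hw : ∀ l, G (w l) = G (w' l)) (hd : ∀ l, G (w l) ≡ d [ZMOD 2]) :
    InL (fun i => h i ≡ c₀ + 1 [ZMOD 2]) (fun j => g j ≡ d [ZMOD 2])
      (rowC m n + ∑ l ∈ range K, sq m n (by omega) hn (u l) (w l) (u' l) (w' l)) := by
  obtain ⟨r, hr, hsum⟩ := pc_tele (vR m n (by omega)) m (rowC m n) (fun a => rowC_eq m n hm a) K hK
    δ hδ H L.perH c₀ u u' hu hu'
  have hodd : ∀ l, δ * (2 * l) + c₀ - 1 ≡ c₀ + 1 [ZMOD 2] := by
    intro l
    rcases hδ with rfl | rfl <;> (unfold Int.ModEq; omega)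
  have hodd' : ∀ l, δ * (2 * l) + c₀ + 1 ≡ c₀ + 1 [ZMOD 2] := by
    intro l
    rcases hδ with rfl | rfl <;> (unfold Int.ModEq; omega)
  have e : rowC m n + ∑ l ∈ range K, sq m n (by omega) hn (u l) (w l) (u' l) (w' l) =
      (rowC m n + ∑ l ∈ range K, pc (vR m n (by omega)) (u l) (u' l)) +
      ∑ l ∈ range K, (se s(vR m n (by omega) (u l), vC m n hn (w l)) +
        se s(vR m n (by omega) (u' l), vC m n hn (w' l)) + pc (vC m n hn) (w l) (w' l)) := by
    rw [add_assoc, ← sum_add_distrib]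
    congr 1
    apply sum_congr rfl
    intro l _
    unfold sq
    abel
  rw [e, hsum]
  apply InL.add
  · apply InL.sum
    intro l hl
    apply InL.pcR
    intro t h1 h2
    have h3 := B7_const L.monoH (hu' l) ((hr l hl).trans (hu' l)) t h1 h2
    have h4 := B7_mod (L.labH t)
    rw [h3] at h4
    exact h4.trans (hodd' l)
  · apply InL.sum
    intro l hl
    apply InL.add (InL.add _ _) _
    · apply InL.rook
      · have h4 := B7_mod (L.labH (u l))
        rw [hu] at h4
        exact h4.trans (hodd l)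
      · exact (B7_mod (L.labG (w l))).trans (hd l)
    · apply InL.rook
      · have h4 := B7_mod (L.labH (u' l))
        rw [hu'] at h4
        exact h4.trans (hodd' l)
      · have h5 := hd l
        rw [hw] at h5
        exact (B7_mod (L.labG (w' l))).trans h5
    · apply InL.pcC
      intro t h1 h2
      have h3 := B7_const L.monoG rfl (hw l).symm t h1 h2
      have h4 := B7_mod (L.labG t)
      rw [h3] at h4
      exact h4.trans (hd l)

theorem tot_col (K : ℕ) (hK : K = 2 ∨ K = 3) (hm : 0 < m) (hn : 3 ≤ n) (hε : ε = 1 ∨ ε = -1)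
    (L : Lift m n hm (by omega) K δ ε X h g H G) (c₀ : ℤ) (u w u' w' : ℤ → ℤ)
    (hw : ∀ l, G (w l) = ε * (2 * l) + c₀ - 1) (hw' : ∀ l, G (w' l) = ε * (2 * l) + c₀ + 1)
    (d : ℤ) (hu : ∀ l, H (u l) = H (u' l)) (hd : ∀ l, H (u l) ≡ d [ZMOD 2]) :
    InL (fun i => h i ≡ d [ZMOD 2]) (fun j => g j ≡ c₀ + 1 [ZMOD 2])
      (colC m n + ∑ l ∈ range K, sq m n hm (by omega) (u l) (w l) (u' l) (w' l)) := by
  obtain ⟨r, hr, hsum⟩ := pc_tele (vC m n (by omega)) n (colC m n) (fun a => colC_eq m n hn a) K hK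
    ε hε G L.perG c₀ w w' hw hw'
  have hodd : ∀ l, ε * (2 * l) + c₀ - 1 ≡ c₀ + 1 [ZMOD 2] := by
    intro l
    rcases hε with rfl | rfl <;> (unfold Int.ModEq; omega)
  have hodd' : ∀ l, ε * (2 * l) + c₀ + 1 ≡ c₀ + 1 [ZMOD 2] := by
    intro l
    rcases hε with rfl | rfl <;> (unfold Int.ModEq; omega)
  have e : colC m n + ∑ l ∈ range K, sq m n hm (by omega) (u l) (w l) (u' l) (w' l) =
      (colC m n + ∑ l ∈ range K, pc (vC m n (by omega)) (w l) (w' l)) +
      ∑ l ∈ range K, (se s(vR m n hm (u l), vC m n (by omega) (w l)) +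
        se s(vR m n hm (u' l), vC m n (by omega) (w' l)) + pc (vR m n hm) (u l) (u' l)) := by
    rw [add_assoc, ← sum_add_distrib]
    congr 1
    apply sum_congr rfl
    intro l _
    unfold sq
    abel
  rw [e, hsum]
  apply InL.add
  · apply InL.sum
    intro l hl
    apply InL.pcC
    intro t h1 h2
    have h3 := B7_const L.monoG (hw' l) ((hr l hl).trans (hw' l)) t h1 h2
    have h4 := B7_mod (L.labG t)
    rw [h3] at h4
    exact h4.trans (hodd' l)
  · apply InL.sum
    intro l hl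
    apply InL.add (InL.add _ _) _
    · apply InL.rook
      · exact (B7_mod (L.labH (u l))).trans (hd l)
      · have h4 := B7_mod (L.labG (w l))
        rw [hw] at h4
        exact h4.trans (hodd l)
    · apply InL.rook
      · have h5 := hd l
        rw [hu] at h5
        exact (B7_mod (L.labH (u' l))).trans h5
      · have h4 := B7_mod (L.labG (w' l))
        rw [hw'] at h4
        exact h4.trans (hodd' l)
    · apply InL.pcR
      intro t h1 h2
      have h3 := B7_const L.monoH rfl (hu l).symm t h1 h2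
      have h4 := B7_mod (L.labH t)
      rw [h3] at h4
      exact h4.trans (hd l)

end H46K
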