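import Pool.Agent.Lib.H46K.ABDefs

/-!
# H46K, chunk B8 (S/M): bilinear algebra modulo 2

`bil` is additive in both arguments. Expand everything; every term except `bil E C C'` occurs an even number of
times in the sum of all hypotheses (`K = 2`: 5 hypotheses, `K = 3`: 10 hypotheses; indices of the hypotheses:
`z = a_j + [i = j] C`, `z' = b_i + [j = i + 1] C'`).
-/

open Finset

namespace H46K

variable {V : Type*} [Fintype V] [DecidableEq V] (E : Sym2 V → Sym2 V → ZMod 2)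

theorem b8_bil_add_left (z₁ z₂ z : Sym2 V → ZMod 2) : bil E (z₁ + z₂) z = bil E z₁ z + bil E z₂ z := by
  unfold bil
  rw [← sum_add_distrib]
  refine sum_congr rfl fun e _ => ?_
  rw [← sum_add_distrib]
  refine sum_congr rfl fun e' _ => ?_
  rw [Pi.add_apply]
  ring

theorem b8_bil_add_right (z z₁ z₂ : Sym2 V → ZMod 2) :
    bil E z (z₁ + z₂) = bil E z z₁ + bil E z z₂ := by
  unfold bil
  rw [← sum_add_distrib]
  refine sum_congr rfl fun e _ => ?_
  rw [← sum_add_distrib]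
  refine sum_congr rfl fun e' _ => ?_
  rw [Pi.add_apply]
  ring

theorem bil_two (a₀ a₁ b₀ b₁ C C' : Sym2 V → ZMod 2) (h00 : bil E (a₀ + C) b₀ = 0)
    (h11 : bil E (a₁ + C) b₁ = 0) (h01 : bil E a₁ (b₀ + C') = 0) (h10 : bil E a₀ (b₁ + C') = 0)
    (ht : bil E (C + (a₀ + a₁)) (C' + (b₀ + b₁)) = 0) : bil E C C' = 0 := by
  simp only [b8_bil_add_left, b8_bil_add_right] at h00 h11 h01 h10 ht
  linear_combination ht - h00 - h11 - h01 - h10

theorem bil_three (a₀ a₁ a₂ b₀ b₁ b₂ C C' : Sym2 V → ZMod 2) (h00 : bil E (a₀ + C) b₀ = 0)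
    (h11 : bil E (a₁ + C) b₁ = 0) (h22 : bil E (a₂ + C) b₂ = 0) (h01 : bil E a₁ (b₀ + C') = 0)
    (h12 : bil E a₂ (b₁ + C') = 0) (h20 : bil E a₀ (b₂ + C') = 0) (h02 : bil E a₂ b₀ = 0)
    (h10 : bil E a₀ b₁ = 0) (h21 : bil E a₁ b₂ = 0)
    (ht : bil E (C + (a₀ + a₁ + a₂)) (C' + (b₀ + b₁ + b₂)) = 0) : bil E C C' = 0 := by
  simp only [b8_bil_add_left, b8_bil_add_right] at h00 h11 h22 h01 h12 h20 h02 h10 h21 ht
  linear_combination ht - h00 - h11 - h22 - h01 - h12 - h20 - h02 - h10 - h21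

end H46K
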