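import Pool.Agent.Lib.H46K.B2
import Pool.Agent.Lib.H46K.B5
import Pool.Agent.Lib.H46K.B6
import Pool.Agent.Lib.H46K.B7
import Pool.Agent.Lib.H46K.B8

/-!
# H46K, chunk B9 (M): the chains `a_l`, `b_l` of a ring, and Part B

`B9a` = `chains_exist`: choose (`choose`) the hits of the lift: first hits `x l s, y l s`, second hits `u l s, w l s`;
`b l = sq (x l (-1)) (y l (-1)) (x l 1) (y l 1)`, `a l = sq (u l (-1)) (w l (-1)) (u l 1) (w l 1)`. Cycles: `isCyc_sq`. Labels: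
`sq_in` (`Nr`: values in `[r - 1, r + 1]`), `sq_row`, `sq_col`, `tot_row` with `c₀ = 0`, `d = 0`, `tot_col` with `c₀ = 2 ε`,
`d = 0`.
`B9b` = `partB'`: for `k = 2` and `k = 3` apply `bil_two`, `bil_three`; every hypothesis by `bil_zero` with the
label conditions of `Chains`: disjointness of the labels is arithmetic modulo 4 or 6 (`Int.ModEq`, `omega`, after `δ, ε = ±1`);
missing rows and columns by `lift_all`. `rowC`, `colC` are `IsCyc` by `isCyc_row`, `rowC_eq`.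
-/

open Finset

namespace H46K

/-- near `r` modulo `2 k` -/
def Nr (k r v : ℤ) : Prop := v ≡ r - 1 [ZMOD 2 * k] ∨ v ≡ r [ZMOD 2 * k] ∨ v ≡ r + 1 [ZMOD 2 * k]

/-- The properties of the chains `a_l`, `b_l`. -/
structure Chains (m n K : ℕ) (δ ε : ℤ) (X : Set (Fin m × Fin n)) (h : Fin m → ℤ) (g : Fin n → ℤ)
    (a b : ℤ → Sym2 (Fin m ⊕ Fin n) → ZMod 2) : Prop where
  cycA : ∀ l, IsCyc (TG m n X) (a l)
  cycB : ∀ l, IsCyc (TG m n X) (b l)
  aIn : ∀ l, InL (fun i => Nr K (δ * (2 * l)) (h i)) (fun j => g j ≡ ε * (2 * l) [ZMOD 2 * K]) (a l)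
  bIn : ∀ l, InL (fun i => h i ≡ δ * (2 * l) [ZMOD 2 * K]) (fun j => Nr K (ε * (2 * (l + 1))) (g j))
    (b l)
  aRow : ∀ l, InL (fun i => ¬ h i ≡ δ * (2 * l) [ZMOD 2 * K])
    (fun j => g j ≡ ε * (2 * l) [ZMOD 2 * K]) (a l + rowC m n)
  bCol : ∀ l, InL (fun i => h i ≡ δ * (2 * l) [ZMOD 2 * K])
    (fun j => ¬ g j ≡ ε * (2 * (l + 1)) [ZMOD 2 * K]) (b l + colC m n)
  aTot : InL (fun i => h i ≡ 1 [ZMOD 2]) (fun j => g j ≡ 0 [ZMOD 2])
    (rowC m n + ∑ l ∈ range K, a l)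
  bTot : InL (fun i => h i ≡ 0 [ZMOD 2]) (fun j => g j ≡ 1 [ZMOD 2])
    (colC m n + ∑ l ∈ range K, b l)

end H46K
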