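import Pool.Agent.Lib.H46K.B9

/-!
# H46K, chunk B9a (M): existence of the chains. See `B9.lean`.
-/

open Finset

namespace H46K

theorem chains_exist (m n K : ℕ) (hm : 3 ≤ m) (hn : 3 ≤ n) (hK : K = 2 ∨ K = 3) (δ ε : ℤ)
    (hδ : δ = 1 ∨ δ = -1) (hε : ε = 1 ∨ ε = -1) (X : Set (Fin m × Fin n)) (h : Fin m → ℤ)
    (g : Fin n → ℤ) (H G : ℤ → ℤ) (L : Lift m n (by omega) (by omega) K δ ε X h g H G) :
    ∃ a b, Chains m n K δ ε X h g a b := by
  have hm0 : 0 < m := by omega
  have hn0 : 0 < n := by omega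
  have hK2 : (2 : ℤ) ≤ K := by
    rcases hK with rfl | rfl <;> norm_num
  -- the hits
  choose x y hxy hx hy using fun l : ℤ => L.hit1 l (-1) (Or.inr rfl)
  choose x' y' hxy' hx' hy' using fun l : ℤ => L.hit1 l 1 (Or.inl rfl)
  choose u w huw hu hw using fun l : ℤ => L.hit2 l (-1) (Or.inr rfl)
  choose u' w' huw' hu' hw' using fun l : ℤ => L.hit2 l 1 (Or.inl rfl)
  have cR : ∀ (l v : ℤ), min (H (x l)) (H (x' l)) ≤ v → v ≤ max (H (x l)) (H (x' l)) →
      ∀ i, h i ≡ v [ZMOD 2 * K] → h i ≡ δ * (2 * l) [ZMOD 2 * K] := by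
    intro l v h1 h2 i h3
    rw [hx, hx', min_self] at h1
    rw [hx, hx', max_self] at h2
    have : v = δ * (2 * l) := by omega
    rw [← this]
    exact h3
  have cC : ∀ (l v : ℤ), min (G (w l)) (G (w' l)) ≤ v → v ≤ max (G (w l)) (G (w' l)) →
      ∀ j, g j ≡ v [ZMOD 2 * K] → g j ≡ ε * (2 * l) [ZMOD 2 * K] := by
    intro l v h1 h2 i h3
    rw [hw, hw', min_self] at h1
    rw [hw, hw', max_self] at h2
    have : v = ε * (2 * l) := by omega
    rw [← this]
    exact h3
  have nr : ∀ (r v : ℤ), r - 1 ≤ v → v ≤ r + 1 → ∀ t : ℤ, t ≡ v [ZMOD 2 * K] → Nr K r t := by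
    intro r v h1 h2 t h3
    have h4 : v = r - 1 ∨ v = r ∨ v = r + 1 := by omega
    rcases h4 with rfl | rfl | rfl
    · exact Or.inl h3
    · exact Or.inr (Or.inl h3)
    · exact Or.inr (Or.inr h3)
  refine ⟨fun l => sq m n hm0 hn0 (u l) (w l) (u' l) (w' l),
    fun l => sq m n hm0 hn0 (x l) (y l) (x' l) (y' l), ?_⟩
  constructor
  · intro l
    exact isCyc_sq m n hm hn X _ _ _ _ (huw l) (huw' l)
  · intro l
    exact isCyc_sq m n hm hn X _ _ _ _ (hxy l) (hxy' l)
  · intro l
    apply sq_in hm0 hn0 L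
    · intro v h1 h2 i h3
      rw [hu, hu'] at h1 h2
      exact nr _ v (by omega) (by omega) _ h3
    · exact cC l
  · intro l
    apply sq_in hm0 hn0 L
    · exact cR l
    · intro v h1 h2 j h3
      rw [hy, hy'] at h1 h2
      exact nr _ v (by omega) (by omega) _ h3
  · intro l
    apply sq_row hm hn0 hK2 L
    · rw [hu]
      ring
    · rw [hu']
    · exact cC l
  · intro l
    apply sq_col hm0 hn hK2 L
    · rw [hy]
      ring
    · rw [hy']
    · exact cR l
  · have h1 := tot_row K hK hm hn0 hδ L 0 u w u' w' (fun l => by rw [hu]; ring)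
      (fun l => by rw [hu']; ring) 0 (fun l => by rw [hw, hw']) (fun l => by
        rw [hw]
        rcases hε with rfl | rfl <;> (unfold Int.ModEq; omega))
    exact h1
  · have h1 := tot_col K hK hm0 hn hε L (2 * ε) x y x' y' (fun l => by rw [hy]; ring)
      (fun l => by rw [hy']; ring) 0 (fun l => by rw [hx, hx']) (fun l => by
        rw [hx]
        rcases hδ with rfl | rfl <;> (unfold Int.ModEq; omega))
    refine h1.mono (fun i hi => hi) (fun j hj => ?_)
    refine hj.trans ?_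
    unfold Int.ModEq
    omega

end H46K
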