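import Pool.Agent.Lib.H46K.B9

/-!
# H46K, chunk B9b (M/L): the contradiction. See `B9.lean`.
-/

open Finset

namespace H46K

theorem chains_contra (m n K : ℕ) (hm : 3 ≤ m) (hn : 3 ≤ n) (hK : K = 2 ∨ K = 3) (δ ε : ℤ)
    (hδ : δ = 1 ∨ δ = -1) (hε : ε = 1 ∨ ε = -1) (X : Set (Fin m × Fin n)) (h : Fin m → ℤ)
    (g : Fin n → ℤ) (hh : ∀ r : ℤ, (∃ i, h i ≡ r [ZMOD 2 * K]) ∧ ∃ j, g j ≡ r [ZMOD 2 * K])
    (a b : ℤ → Sym2 (Fin m ⊕ Fin n) → ZMod 2) (c : Chains m n K δ ε X h g a b)
    (E : Sym2 (Fin m ⊕ Fin n) → Sym2 (Fin m ⊕ Fin n) → ZMod 2) (hO : OddTG m n X E) : False := by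
  have hR : IsCyc (TG m n X) (rowC m n) := by
    have h1 := isCyc_row m n hm X
    have h2 := rowC_eq m n hm 0
    rw [zero_add] at h2
    rw [h2] at h1
    exact h1
  have hC : IsCyc (TG m n X) (colC m n) := by
    have h1 := isCyc_col m n hn X
    have h2 := colC_eq m n hn 0
    rw [zero_add] at h2
    rw [h2] at h1
    exact h1
  -- the diagonal pairs
  have p1 : ∀ l : ℤ, bil E (a l + rowC m n) (b l) = 0 := by
    intro l
    apply bil_zero hm hn hO (isCyc_add _ _ _ (c.cycA l) hR) (c.cycB l) (c.aRow l) (c.bIn l)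
    · intro i h1 h2
      exact h1 h2
    · intro j h1 h2
      unfold Nr at h2
      unfold Int.ModEq at h1 h2
      rcases hK with rfl | rfl <;> rcases hε with rfl | rfl <;> push_cast at h1 h2 <;> omega
    · obtain ⟨i, hi⟩ := (hh (δ * (2 * l))).1
      exact ⟨i, fun h1 => h1 hi⟩
    · obtain ⟨j, hj⟩ := (hh (ε * (2 * l) + 1)).2
      refine ⟨j, fun h1 => ?_⟩
      unfold Int.ModEq at h1 hj
      rcases hK with rfl | rfl <;> rcases hε with rfl | rfl <;> push_cast at h1 hj <;> omega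
  -- the shifted pairs
  have p2 : ∀ l l' : ℤ, l' ≡ l + 1 [ZMOD K] → bil E (a l') (b l + colC m n) = 0 := by
    intro l l' hl
    apply bil_zero hm hn hO (c.cycA l') (isCyc_add _ _ _ (c.cycB l) hC) (c.aIn l') (c.bCol l)
    · intro i h1 h2
      unfold Nr at h1
      unfold Int.ModEq at h1 h2 hl
      rcases hK with rfl | rfl <;> rcases hδ with rfl | rfl <;> push_cast at h1 h2 hl <;> omega
    · intro j h1 h2
      apply h2
      unfold Int.ModEq at h1 hl ⊢
      rcases hK with rfl | rfl <;> rcases hε with rfl | rfl <;> push_cast at h1 hl ⊢ <;> omega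
    · obtain ⟨i, hi⟩ := (hh (δ * (2 * l') + 2)).1
      refine ⟨i, fun h1 => ?_⟩
      unfold Nr at h1
      unfold Int.ModEq at h1 hi
      rcases hK with rfl | rfl <;> rcases hδ with rfl | rfl <;> push_cast at h1 hi <;> omega
    · obtain ⟨j, hj⟩ := (hh (ε * (2 * l') + 1)).2
      refine ⟨j, fun h1 => ?_⟩
      unfold Int.ModEq at h1 hj
      rcases hK with rfl | rfl <;> rcases hε with rfl | rfl <;> push_cast at h1 hj <;> omega
  -- the other pairs (K = 3)
  have p3 : ∀ l l' : ℤ, K = 3 → l' ≡ l + 2 [ZMOD K] → bil E (a l') (b l) = 0 := by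
    intro l l' hK3 hl
    subst hK3
    apply bil_zero hm hn hO (c.cycA l') (c.cycB l) (c.aIn l') (c.bIn l)
    · intro i h1 h2
      unfold Nr at h1
      unfold Int.ModEq at h1 h2 hl
      rcases hδ with rfl | rfl <;> push_cast at h1 h2 hl <;> omega
    · intro j h1 h2
      unfold Nr at h2
      unfold Int.ModEq at h1 h2 hl
      rcases hε with rfl | rfl <;> push_cast at h1 h2 hl <;> omega
    · obtain ⟨i, hi⟩ := (hh (δ * (2 * l') + 2)).1
      refine ⟨i, fun h1 => ?_⟩
      unfold Nr at h1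
      unfold Int.ModEq at h1 hi
      rcases hδ with rfl | rfl <;> push_cast at h1 hi <;> omega
    · obtain ⟨j, hj⟩ := (hh (ε * (2 * l') + 1)).2
      refine ⟨j, fun h1 => ?_⟩
      unfold Int.ModEq at h1 hj
      rcases hε with rfl | rfl <;> push_cast at h1 hj <;> omega
  -- the total pair
  have pt : bil E (rowC m n + ∑ l ∈ range K, a l) (colC m n + ∑ l ∈ range K, b l) = 0 := by
    have hRa : IsCyc (TG m n X) (rowC m n + ∑ l ∈ range K, a l) :=
      isCyc_add _ _ _ hR (isCyc_sum (TG m n X) (range K) (fun l : ℕ => a l) fun l _ => c.cycA l)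
    have hCb : IsCyc (TG m n X) (colC m n + ∑ l ∈ range K, b l) :=
      isCyc_add _ _ _ hC (isCyc_sum (TG m n X) (range K) (fun l : ℕ => b l) fun l _ => c.cycB l)
    apply bil_zero hm hn hO hRa hCb c.aTot c.bTot
    · intro i h1 h2
      unfold Int.ModEq at h1 h2
      omega
    · intro j h1 h2
      unfold Int.ModEq at h1 h2
      omega
    · obtain ⟨i, hi⟩ := (hh 0).1
      refine ⟨i, fun h1 => ?_⟩
      unfold Int.ModEq at h1 hi
      rcases hK with rfl | rfl <;> push_cast at hi <;> omega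
    · obtain ⟨j, hj⟩ := (hh 1).2
      refine ⟨j, fun h1 => ?_⟩
      unfold Int.ModEq at h1 hj
      rcases hK with rfl | rfl <;> push_cast at hj <;> omega
  have h0 : bil E (rowC m n) (colC m n) = 0 := by
    rcases hK with rfl | rfl
    · simp only [sum_range_succ, sum_range_zero, zero_add, Nat.cast_zero, Nat.cast_one] at pt
      exact bil_two E (a 0) (a 1) (b 0) (b 1) _ _ (p1 0) (p1 1) (p2 0 1 (by decide))
        (p2 1 0 (by decide)) pt
    · simp only [sum_range_succ, sum_range_zero, zero_add, Nat.cast_zero, Nat.cast_one,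
        Nat.cast_ofNat] at pt
      exact bil_three E (a 0) (a 1) (a 2) (b 0) (b 1) (b 2) _ _ (p1 0) (p1 1) (p1 2)
        (p2 0 1 (by decide)) (p2 1 2 (by decide)) (p2 2 0 (by decide))
        (p3 0 2 rfl (by decide)) (p3 1 0 rfl (by decide)) (p3 2 1 rfl (by decide)) pt
  rw [hO.1] at h0
  exact one_ne_zero h0

end H46K
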