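import Pool.Agent.Lib.H46K.ABDefs

/-!
# H46K, Part B: definitions (path chains, rook squares, labels)
-/

open Finset

namespace H46K

/-- The residue of an integer modulo `m`, as an element of `Fin m`. -/
def rv (m : ℕ) (hm : 0 < m) (x : ℤ) : Fin m := ⟨(x % m).toNat, by
  have h1 := Int.emod_nonneg x (by omega : (m : ℤ) ≠ 0)
  have h2 := Int.emod_lt_of_pos x (by omega : (0 : ℤ) < m)
  omega⟩

/-- The chain consisting of one edge. -/
def se {V : Type*} [DecidableEq V] (e : Sym2 V) : Sym2 V → ZMod 2 := fun e' => if e' = e then 1 else 0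

/-- The chain (mod 2) of the path `c a, c (a+1), ..., c b` (or from `c b` to `c a` if `b < a`). -/
noncomputable def pc {V : Type*} [DecidableEq V] (c : ℤ → V) (a b : ℤ) : Sym2 V → ZMod 2 :=
  ∑ t ∈ Ico (min a b) (max a b), se s(c t, c (t + 1))

/-- The boundary of a chain. -/
def bd {V : Type*} [Fintype V] [DecidableEq V] (z : Sym2 V → ZMod 2) (v : V) : ZMod 2 :=
  ∑ e : Sym2 V, (if v ∈ e then z e else 0)

/-- The row vertices. -/
def vR (m n : ℕ) (hm : 0 < m) (x : ℤ) : Fin m ⊕ Fin n := Sum.inl (rv m hm x)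

/-- The column vertices. -/
def vC (m n : ℕ) (hn : 0 < n) (y : ℤ) : Fin m ⊕ Fin n := Sum.inr (rv n hn y)

/-- The closed chain through the two rooks `(x, y)` and `(x', y')`. -/
noncomputable def sq (m n : ℕ) (hm : 0 < m) (hn : 0 < n) (x y x' y' : ℤ) : Sym2 (Fin m ⊕ Fin n) → ZMod 2 :=
  se s(vR m n hm x, vC m n hn y) + se s(vR m n hm x', vC m n hn y') +
    pc (vR m n hm) x x' + pc (vC m n hn) y y'

/-- All rows of the chain `z` satisfy `A`, all columns satisfy `B`. -/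
def InL {m n : ℕ} (A : Fin m → Prop) (B : Fin n → Prop) (z : Sym2 (Fin m ⊕ Fin n) → ZMod 2) :
    Prop :=
  ∀ e, z e ≠ 0 → (∀ i, Sum.inl i ∈ e → A i) ∧ ∀ j, Sum.inr j ∈ e → B j

/-- The periodic monotone lifts of the two labellings of a ring, with exact representatives of
all hits. -/
structure Lift (m n : ℕ) (hm : 0 < m) (hn : 0 < n) (k δ ε : ℤ) (X : Set (Fin m × Fin n))
    (h : Fin m → ℤ) (g : Fin n → ℤ) (H G : ℤ → ℤ) : Prop where
  monoH : Monotone H
  monoG : Monotone G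
  perH : ∀ x, H (x + m) = H x + 2 * k
  perG : ∀ y, G (y + n) = G y + 2 * k
  labH : ∀ x, h (rv m hm x) ≡ H x [ZMOD 2 * k]
  labG : ∀ y, g (rv n hn y) ≡ G y [ZMOD 2 * k]
  hit1 : ∀ l s : ℤ, (s = 1 ∨ s = -1) → ∃ x y : ℤ, (rv m hm x, rv n hn y) ∈ X ∧
    H x = δ * (2 * l) ∧ G y = ε * (2 * (l + 1)) + s
  hit2 : ∀ l s : ℤ, (s = 1 ∨ s = -1) → ∃ u w : ℤ, (rv m hm u, rv n hn w) ∈ X ∧
    H u = δ * (2 * l) + s ∧ G w = ε * (2 * l)

end H46K
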