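import Mathlib

/-!
# H46K: definitions (MP_5f89c9_gt)

Spatial (polygonal) embeddings of finite graphs in `ℝ³`, unknotted polygons, intrinsic knottedness,
linking parity, the graphs `TG m n X` (two cycles joined by rooks), and the combinatorial
patterns `Ring`.

See `PROOF.md` for the complete paper proof.
-/

open scoped BigOperators

namespace H46K

/-! ## Polygons in space -/

/-- Euclidean 3-space. -/
abbrev P3 : Type := ℝ × ℝ × ℝ

/-- The set of points of the polygonal arc with the given successive vertices. -/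
def arcSet : List P3 → Set P3
  | [] => ∅
  | [a] => {a}
  | a :: b :: l => segment ℝ a b ∪ arcSet (b :: l)

/-- A polygonal arc (with distinct ends) is simple: it does not meet itself. -/
def IsSimple : List P3 → Prop
  | [] => True
  | [_] => True
  | a :: b :: l => a ≠ b ∧ segment ℝ a b ∩ arcSet (b :: l) ⊆ {b} ∧ IsSimple (b :: l)

/-- `Unknot l`: the closed polygon with successive vertices `l` (the last one is joined to the
first one) is a trivial knot: it can be obtained from a nondegenerate triangle by finitely many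
elementary (triangle) moves, in the sense of Reidemeister.  `ins` replaces the side `a b` by the
two sides `a v`, `v b` of a triangle `a v b` which meets the rest of the polygon only in `a` and
`b`; `del` is the inverse move; `rot` changes the starting vertex. -/
inductive Unknot : List P3 → Prop
  | tri (a b c : P3) (h : AffineIndependent ℝ ![a, b, c]) : Unknot [a, b, c]
  | rot (l l' : List P3) (h : l.IsRotated l') (hl : Unknot l) : Unknot l'
  | ins (a v b : P3) (l : List P3) (hav : a ≠ v) (hvb : v ≠ b)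
      (hs : segment ℝ a v ∩ segment ℝ v b ⊆ {v})
      (ht : convexHull ℝ {a, v, b} ∩ arcSet (b :: (l ++ [a])) ⊆ {a, b})
      (hl : Unknot (a :: b :: l)) : Unknot (a :: v :: b :: l)
  | del (a v b : P3) (l : List P3) (hav : a ≠ v) (hvb : v ≠ b)
      (hs : segment ℝ a v ∩ segment ℝ v b ⊆ {v})
      (ht : convexHull ℝ {a, v, b} ∩ arcSet (b :: (l ++ [a])) ⊆ {a, b})
      (hl : Unknot (a :: v :: b :: l)) : Unknot (a :: b :: l)

/-! ## Embeddings of graphs -/

/-- A polygonal embedding of the graph `G` in `ℝ³`. -/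
structure SpatialGraph {V : Type*} (G : SimpleGraph V) where
  /-- the position of a vertex -/
  pt : V → P3
  /-- the interior bend points of the arc from `u` to `v` (for adjacent `u`, `v`) -/
  mid : V → V → List P3
  pt_inj : Function.Injective pt
  mid_symm : ∀ u v, G.Adj u v → mid v u = (mid u v).reverse
  /-- every arc is simple -/
  simple : ∀ u v, G.Adj u v → IsSimple (pt u :: (mid u v ++ [pt v]))
  /-- two distinct arcs meet only in common end vertices -/
  disj : ∀ u v u' v', G.Adj u v → G.Adj u' v' → s(u, v) ≠ s(u', v') →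
    ∀ x ∈ arcSet (pt u :: (mid u v ++ [pt v])) ∩ arcSet (pt u' :: (mid u' v' ++ [pt v'])),
      ∃ w, (w = u ∨ w = v) ∧ (w = u' ∨ w = v') ∧ x = pt w
  /-- an arc contains no vertex besides its ends -/
  vert : ∀ u v w, G.Adj u v → pt w ∈ arcSet (pt u :: (mid u v ++ [pt v])) → w = u ∨ w = v

namespace SpatialGraph

variable {V : Type*} {G : SimpleGraph V}

/-- The list of vertices of the polygonal arc from `u` to `v`. -/
def arc (f : SpatialGraph G) (u v : V) : List P3 := f.pt u :: (f.mid u v ++ [f.pt v])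

/-- The polygon of a walk: for every step `u → v` the point `u` and the bend points of the arc
from `u` to `v` (the end point of the walk is not listed). For a closed walk this is the closed
polygon traced by the walk. -/
def poly (f : SpatialGraph G) {u v : V} : G.Walk u v → List P3
  | .nil => []
  | .cons (u := a) (v := b) _ p => f.pt a :: (f.mid a b ++ f.poly p)

end SpatialGraph

/-- `G` is intrinsically knotted: every embedding contains a cycle which is a nontrivial knot. -/
def IsIK {V : Type*} (G : SimpleGraph V) : Prop :=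
  ∀ f : SpatialGraph G, ∃ (v : V) (c : G.Walk v v), c.IsCycle ∧ ¬ Unknot (f.poly c)

/-! ## Linking numbers modulo 2 -/

/-- The segment `s` passes over the segment `t`, seen along the direction `d`. -/
def Over (d : P3) (s t : P3 × P3) : Prop :=
  ∃ x ∈ segment ℝ s.1 s.2, ∃ y ∈ segment ℝ t.1 t.2, ∃ r : ℝ, 0 < r ∧ x = y + r • d

/-- The list of sides of a closed polygon. -/
def sides (l : List P3) : List (P3 × P3) := l.zip (l.rotate 1)

open Classical in
/-- The number of pairs (side of `p`, side of `q`) such that the first passes over the second,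
modulo 2: the linking number modulo 2 of two disjoint closed polygons in general position with
respect to the direction `d`. -/
noncomputable def lk2 (d : P3) (p q : List P3) : ZMod 2 :=
  ((sides p).map fun s => ((sides q).map fun t => if Over d s t then (1 : ZMod 2) else 0).sum).sum

/-- The direction `d` is generic for the embedding `f` of `G`: no line of direction `d` through a
vertex or bend point `x` meets a side of an arc except (possibly) at `x` itself, where `x` is an
end of this side. -/
def Generic {V : Type*} {G : SimpleGraph V} (f : SpatialGraph G) (d : P3) : Prop :=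
  d ≠ 0 ∧ ∀ u v u' v', G.Adj u v → G.Adj u' v' → ∀ x ∈ f.arc u v,
    ∀ s ∈ (f.arc u' v').zip (f.arc u' v').tail, ∀ r : ℝ, x + r • d ∈ segment ℝ s.1 s.2 →
      r = 0 ∧ (x = s.1 ∨ x = s.2)

/-- Exactly one unordered pair of disjoint cycles of `G` has an odd linking number in the
embedding `f` (computed with the direction `d`). -/
def ExactlyOneOddLink {V : Type*} {G : SimpleGraph V} (f : SpatialGraph G) (d : P3) : Prop :=
  ∃ (a : V) (c₁ : G.Walk a a) (b : V) (c₂ : G.Walk b b), c₁.IsCycle ∧ c₂.IsCycle ∧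
    List.Disjoint c₁.support c₂.support ∧ lk2 d (f.poly c₁) (f.poly c₂) = 1 ∧
    ∀ (a' : V) (c₁' : G.Walk a' a') (b' : V) (c₂' : G.Walk b' b'), c₁'.IsCycle → c₂'.IsCycle →
      List.Disjoint c₁'.support c₂'.support → lk2 d (f.poly c₁') (f.poly c₂') = 1 →
      (c₁'.toSubgraph = c₁.toSubgraph ∧ c₂'.toSubgraph = c₂.toSubgraph) ∨
      (c₁'.toSubgraph = c₂.toSubgraph ∧ c₂'.toSubgraph = c₁.toSubgraph)

/-- 3-connected graphs. -/
def ThreeConn {V : Type*} (G : SimpleGraph V) : Prop :=
  4 ≤ Nat.card V ∧ ∀ u v : V, (G.induce ({u, v}ᶜ : Set V)).Connected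

/-! ## Two cycles joined by rooks -/

/-- cyclic successor in `Fin m` -/
def Nxt {m : ℕ} (i j : Fin m) : Prop := (i.1 + 1) % m = j.1

/-- adjacency of `TG m n X` -/
def TGAdj (m n : ℕ) (X : Set (Fin m × Fin n)) : Fin m ⊕ Fin n → Fin m ⊕ Fin n → Prop
  | .inl i, .inl j => i ≠ j ∧ (Nxt i j ∨ Nxt j i)
  | .inr i, .inr j => i ≠ j ∧ (Nxt i j ∨ Nxt j i)
  | .inl i, .inr j => (i, j) ∈ X
  | .inr j, .inl i => (i, j) ∈ X

/-- Two disjoint cycles `C_m`, `C_n` (the rows and the columns) joined by the edges `X`. -/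
def TG (m n : ℕ) (X : Set (Fin m × Fin n)) : SimpleGraph (Fin m ⊕ Fin n) where
  Adj := TGAdj m n X
  symm := ⟨by
    rintro (i | i) (j | j) h
    · exact ⟨h.1.symm, h.2.symm⟩
    · exact h
    · exact h
    · exact ⟨h.1.symm, h.2.symm⟩⟩
  loopless := ⟨by
    rintro (i | i) h
    · exact h.1 rfl
    · exact h.1 rfl⟩

/-- The ring pattern with `2k` blocks in each direction (`k = 2`: pattern P1, `k = 3`: pattern P2).
`h` and `g` are monotone labellings of the rows and of the columns of the support of `X`, winding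
at most once around modulo `2 k`; `δ`, `ε` are signs (orientations). -/
def Ring {α β : Type*} [LinearOrder α] [LinearOrder β] (k δ ε : ℤ) (X : Set (α × β)) : Prop :=
  ∃ (h : α → ℤ) (g : β → ℤ),
    (∀ p ∈ X, ∀ q ∈ X, p.1 ≤ q.1 → h p.1 ≤ h q.1) ∧
    (∀ p ∈ X, ∀ q ∈ X, h p.1 ≤ h q.1 + 2 * k) ∧
    (∀ p ∈ X, ∀ q ∈ X, p.2 ≤ q.2 → g p.2 ≤ g q.2) ∧
    (∀ p ∈ X, ∀ q ∈ X, g p.2 ≤ g q.2 + 2 * k) ∧
    (∀ i s : ℤ, (s = 1 ∨ s = -1) → ∃ p ∈ X,
      h p.1 ≡ δ * (2 * i) [ZMOD 2 * k] ∧ g p.2 ≡ ε * (2 * (i + 1)) + s [ZMOD 2 * k]) ∧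
    (∀ j s : ℤ, (s = 1 ∨ s = -1) → ∃ p ∈ X,
      h p.1 ≡ δ * (2 * j) + s [ZMOD 2 * k] ∧ g p.2 ≡ ε * (2 * j) [ZMOD 2 * k])

/-- `X` contains a ring pattern. -/
def HasRing {α β : Type*} [LinearOrder α] [LinearOrder β] (X : Set (α × β)) : Prop :=
  ∃ k δ ε : ℤ, (k = 2 ∨ k = 3) ∧ (δ = 1 ∨ δ = -1) ∧ (ε = 1 ∨ ε = -1) ∧ Ring k δ ε X

end H46K
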