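import Pool.Agent.Lib.H46K.ECert

/-!
# H46K: the kernel accepts the certificate
-/

namespace H46K

set_option maxRecDepth 1000000 in
theorem cert_ok : run cert [st0] = true := by decide +kernel

end H46K
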