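import Pool.Agent.Lib.H46K.Defs

/-!
# H46K, Part E: definitions (cyclic betweenness, Φ-paths, codes, the certificate checker)
-/

namespace H46K

/-- strict cyclic betweenness for natural numbers: going up cyclically from `a` one meets `b`
strictly before `c`. -/
def cb (a b c : ℕ) : Prop := a < b ∧ b < c ∨ b < c ∧ c < a ∨ c < a ∧ a < b

/-- The entry of the matrix `X` in the line `a` of the circle of parity `k` (even: rows, odd:
columns) and the line `b` of the other circle. -/
def ent (X : ℕ → ℕ → Prop) (k a b : ℕ) : Prop := if k % 2 = 0 then X a b else X b a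

/-- The matrix as a set. -/
def toSet (X : ℕ → ℕ → Prop) : Set (ℕ × ℕ) := {p | X p.1 p.2}

/-- A (normalised) Φ-path with the 15 lines `l 0, ..., l 14` in the matrix `X` (all indices are
`< r`); `l k` is a row for even `k` and a column for odd `k`; `x k`, `y k` are the two ones of the line
`l k` (indices on the other circle); the gap `γ_k` is the open cyclic interval `(x k, y k)`. -/
structure PhiPath (r : ℕ) (X : ℕ → ℕ → Prop) (l x y : ℕ → ℕ) (d : ℕ → Bool) : Prop where
  l_lt : ∀ k, k ≤ 14 → l k < r
  x_lt : ∀ k, k ≤ 14 → x k < r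
  y_lt : ∀ k, k ≤ 14 → y k < r
  one : ∀ k, k ≤ 14 → ∀ b, ent X k (l k) b ↔ b = x k ∨ b = y k
  F1 : ∀ k, k + 1 ≤ 14 → cb (x k) (l (k + 1)) (y k)
  F2 : ∀ k, k + 1 ≤ 14 → cb (y (k + 1)) (l k) (x (k + 1))
  F6a : ∀ k, k + 3 ≤ 14 → cb (y k) (l (k + 3)) (x k)
  F6b : ∀ k, k + 3 ≤ 14 → cb (y (k + 3)) (l k) (x (k + 3))
  gluep : ∀ k, 1 ≤ k → k + 1 ≤ 14 → d (k + 1) = true →
    y k = if l (k + 1) + 1 = r then 0 else l (k + 1) + 1
  gluem : ∀ k, 1 ≤ k → k + 1 ≤ 14 → d (k + 1) = false →
    l (k + 1) = if x k + 1 = r then 0 else x k + 1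
  emp1 : ∀ w z, cb (x 0) w (y 0) → cb (x 1) z (y 1) → ¬ ent X 1 w z
  empp : ∀ k, k + 2 ≤ 14 → d (k + 2) = true → ∀ w z,
    (w = l k ∨ cb (l k) w (y (k + 1))) → cb (x (k + 2)) z (y (k + 2)) → ¬ ent X (k + 2) w z
  empm : ∀ k, k + 2 ≤ 14 → d (k + 2) = false → ∀ w z,
    (w = l k ∨ cb (x (k + 1)) w (l k)) → cb (x (k + 2)) z (y (k + 2)) → ¬ ent X (k + 2) w z
  l0 : l 0 = 0
  l1 : l 1 = 0
  d2 : d 2 = true
  d3 : d 3 = true

/-! ### Codes -/

/-- The code of the point `w` with respect to the finite set `S` of placed points: `2 i` if `w` is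
the `i`-th point of `S` (counted from `0`), `2 i + 1` if `w` lies strictly between the
`i`-th and the `(i+1)`-st point. (Used with `0 ∈ S`.) -/
def code (S : Finset ℕ) (w : ℕ) : ℕ :=
  (S.filter fun s => s < w).card + (S.filter fun s => s ≤ w).card - 1

/-- The set of placed lines of parity `σ` among the first `K` lines. -/
def placed (l : ℕ → ℕ) (K σ : ℕ) : Finset ℕ :=
  ((Finset.range K).filter fun k => k % 2 = σ % 2).image l

/-! ### States of the checker -/

/-- Data on one circle: the number `n` of distinct placed lines, the codes `L` of the placed lines (in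
order of placement), and the masks `X`, `Y` (sets of possible codes, as bit masks) of the ends
`x k`, `y k` of the lines `k` of the *other* circle. -/
structure Circ where
  n : ℕ
  L : List ℕ
  X : List ℕ
  Y : List ℕ

/-- A state: `K` lines are placed; `A` = circle of even lines, `B` = circle of odd lines;
`D` = directions of the lines `0, ..., K-1`. -/
structure St where
  K : ℕ
  A : Circ
  B : Circ
  D : List Bool

namespace St

/-- the circle of parity `σ` -/
def circ (s : St) (σ : ℕ) : Circ := if σ % 2 = 0 then s.A else s.B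

/-- replace the circle of parity `σ` -/
def setCirc (s : St) (σ : ℕ) (c : Circ) : St :=
  if σ % 2 = 0 then { s with A := c } else { s with B := c }

/-- the code of line `k` -/
def pos (s : St) (k : ℕ) : ℕ := (s.circ k).L.getD (k / 2) 0

/-- number of codes on the circle of parity `σ` -/
def m (s : St) (σ : ℕ) : ℕ := 2 * (s.circ σ).n

/-- mask of the left end of gap `k` (on the circle of parity `k + 1`) -/
def mx (s : St) (k : ℕ) : ℕ := (s.circ (k + 1)).X.getD (k / 2) 0

/-- mask of the right end of gap `k` -/
def my (s : St) (k : ℕ) : ℕ := (s.circ (k + 1)).Y.getD (k / 2) 0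

/-- mask of an end of gap `k`: `h = 0` left, otherwise right -/
def mm (s : St) (k h : ℕ) : ℕ := if h = 0 then s.mx k else s.my k

/-- direction of line `k` -/
def dir (s : St) (k : ℕ) : Bool := s.D.getD k true

end St

/-- intersect the entry number `i` of a list with `M` -/
def landAt : List ℕ → ℕ → ℕ → List ℕ
  | [], _, _ => []
  | a :: l, 0, M => (a &&& M) :: l
  | a :: l, i + 1, M => a :: landAt l i M

namespace St

/-- restrict the left end of gap `k` to the mask `M` -/
def rx (s : St) (k M : ℕ) : St :=
  let c := s.circ (k + 1)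
  s.setCirc (k + 1) { c with X := landAt c.X (k / 2) M }

/-- restrict the right end of gap `k` to the mask `M` -/
def ry (s : St) (k M : ℕ) : St :=
  let c := s.circ (k + 1)
  s.setCirc (k + 1) { c with Y := landAt c.Y (k / 2) M }

/-- restrict the end `h` of gap `k` -/
def rr (s : St) (k h M : ℕ) : St := if h = 0 then s.rx k M else s.ry k M

end St

/-- mask of the codes strictly between `a` and `b` (cyclically, among `m` codes) -/
def arcOpen (m a b : ℕ) : ℕ :=
  if a = b then 0
  else if a < b then (1 <<< b) - (1 <<< (a + 1))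
  else ((1 <<< m) - (1 <<< (a + 1))) + ((1 <<< b) - 1)

/-- mask of the codes from `lo` to `hi` inclusive (cyclically, among `m` codes) -/
def arcMask (m lo hi : ℕ) : ℕ :=
  if lo ≤ hi then (1 <<< (hi + 1)) - (1 <<< lo)
  else ((1 <<< m) - (1 <<< lo)) + ((1 <<< (hi + 1)) - 1)

/-- transformation of a mask when a new line is placed at the odd code `c` -/
def insMask (c M : ℕ) : ℕ :=
  (M % (1 <<< (c + 1))) ||| ((((M >>> c) % 2) <<< (c + 1)) ||| ((M >>> c) <<< (c + 2)))

/-- transformation of the code of a line when a new line is placed at the odd code `c` -/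
def insPos (c p : ℕ) : ℕ := if p < c then p else p + 2

/-- possible codes of the successor of the line with code `p` -/
def glueP (m p : ℕ) : ℕ := (1 <<< (p + 1)) ||| (1 <<< ((p + 2) % m))

/-- possible codes of the predecessor of the line with code `p` -/
def glueM (m p : ℕ) : ℕ := (1 <<< ((p + m - 1) % m)) ||| (1 <<< ((p + m - 2) % m))

namespace St

/-- place the next line at code `c` with direction `d` (no restrictions yet) -/
def place0 (s : St) (c : ℕ) (d : Bool) : St :=
  let k := s.K
  let C := s.circ k
  let C' : Circ := if c % 2 = 1 then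
      { n := C.n + 1, L := C.L.map (insPos c) ++ [c + 1], X := C.X.map (insMask c),
        Y := C.Y.map (insMask c) }
    else { C with L := C.L ++ [c] }
  let O := s.circ (k + 1)
  let full := (1 <<< (2 * O.n)) - 1
  let O' : Circ := { O with X := O.X ++ [full], Y := O.Y ++ [full] }
  let s1 := (s.setCirc k C').setCirc (k + 1) O'
  { s1 with K := k + 1, D := s.D ++ [d] }

/-- the point `p` lies inside the gap `g`, the point `q` outside of the closed gap -/
def inout (s : St) (g p q : ℕ) : St :=
  let m := s.m (g + 1)
  let a := s.pos p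
  let b := s.pos q
  (s.rx g (arcOpen m b a)).ry g (arcOpen m a b)

/-- use the glue information of the line `j` -/
def glue (s : St) (j : ℕ) : St :=
  if s.dir j then s.ry (j - 1) (glueP (s.m j) (s.pos j))
  else s.rx (j - 1) (glueM (s.m j) (s.pos j))

/-- use the glue information of the lines `j, j - 2, ...` down to `2` or `3` (`fuel` steps) -/
def glues (s : St) (j : ℕ) : ℕ → St
  | 0 => s
  | fuel + 1 => if j < 2 then s else (s.glue j).glues (j - 2) fuel

/-- place the next line at code `c` with direction `d` and use all known facts -/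
def place (s : St) (c : ℕ) (d : Bool) : St :=
  let k := s.K
  let s1 := s.place0 c d
  let s2 := if 3 ≤ k then s1.inout (k - 3) (k - 2) k else s1
  let s3 := if 2 ≤ k then s2.inout (k - 1) k (k - 2) else s2
  let s4 := if 4 ≤ k then s3.inout (k - 1) k (k - 4) else s3
  s4.glues k 7

/-- all possible placements of the next line -/
def children (s : St) : List St :=
  (List.range (s.m s.K)).flatMap fun c =>
    if s.K ≤ 3 then [s.place c true] else [s.place c true, s.place c false]

end St

/-! ### Leaves -/

/-- `M` is contained in `M'` (as bit masks) -/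
def subM (M M' : ℕ) : Bool := (M ||| M') == M'

/-- bit test -/
def bit (M i : ℕ) : Bool := (M >>> i) % 2 == 1

/-- certified: all points with codes in the arc `D = [lo, hi]` lie in the gap `γ_k` -/
def inGap (s : St) (k lo hi : ℕ) : Bool :=
  let D := arcMask (s.m (k + 1)) lo hi
  decide (k + 1 < s.K) && decide (lo < s.m (k + 1)) && decide (hi < s.m (k + 1)) &&
    bit D (s.pos (k + 1)) && ((s.mx k ||| s.my k) &&& D) == 0

/-- certified: all points with codes in the arc `D = [lo, hi]` lie in the hull of `k` -/
def inHull (s : St) (k lo hi : ℕ) : Bool :=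
  if k = 1 then inGap s 0 lo hi
  else
    let D := arcMask (s.m k) lo hi
    decide (2 ≤ k) && decide (lo < s.m k) && decide (hi < s.m k) &&
      (if s.dir k then (lo == s.pos (k - 2)) && (s.my (k - 1) &&& D) == 0
       else (hi == s.pos (k - 2)) && (s.mx (k - 1) &&& D) == 0)

/-- the emptiness leaf: the one `(l_j, end h of γ_j)` lies in `hull_k × γ_k` -/
def leafEmp (s : St) (k j h glo ghi hlo hhi : ℕ) : Bool :=
  decide (j < s.K) && decide (1 ≤ k) && decide (k < s.K) && inGap s k glo ghi &&
    inHull s k hlo hhi &&
    (let Dg := arcMask (s.m (k + 1)) glo ghi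
     let Dh := arcMask (s.m k) hlo hhi
     if j % 2 = k % 2 then bit Dh (s.pos j) && subM (s.mm j h) Dg
     else bit Dg (s.pos j) && subM (s.mm j h) Dh)

/-- the incidence leaf: the end `h` of gap `k` is the line `j`, but neither end of gap `j` can be the
line `k` -/
def leafInc (s : St) (k h j : ℕ) : Bool :=
  decide (k < s.K) && decide (j < s.K) && (j % 2 != k % 2) &&
    subM (s.mm k h) (1 <<< s.pos j) && !bit (s.mx j) (s.pos k) && !bit (s.my j) (s.pos k)

/-- the hexagon leaf: line `k` lies in the gap `k + 5` -/
def leafHex (s : St) (k lo hi : ℕ) : Bool :=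
  inGap s (k + 5) lo hi && bit (arcMask (s.m k) lo hi) (s.pos k)

/-- the label of a code for the cut codes `t0 < t1 < t2 < t3` and the rotation `ρ` (mod 4) -/
def lab (t0 t1 t2 t3 ρ c : ℕ) : ℕ :=
  (ρ + ((if t0 ≤ c then 1 else 0) + ((if t1 ≤ c then 1 else 0) + ((if t2 ≤ c then 1 else 0) +
    (if t3 ≤ c then 1 else 0))))) % 4

/-- mask of the codes with label `a` -/
def labMask (m t0 t1 t2 t3 ρ a : ℕ) : ℕ :=
  -- number of cuts `≤ c` must be `a - ρ` modulo 4
  let e := (a + 4 - ρ) % 4
  if e = 0 then ((1 <<< t0) - 1) + ((1 <<< m) - (1 <<< t3))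
  else if e = 1 then (1 <<< t1) - (1 <<< t0)
  else if e = 2 then (1 <<< t2) - (1 <<< t1)
  else (1 <<< t3) - (1 <<< t2)

/-- the one number `o = 2 j + h` (end `h` of gap `j`) certainly lies in (row block `a`) ×
(column block `b`), where the blocks are given by masks -/
def oneIn (s : St) (o MA MB : ℕ) : Bool :=
  let j := o / 2
  let h := o % 2
  decide (j < s.K) &&
    (if j % 2 = 0 then bit MA (s.pos j) && subM (s.mm j h) MB
     else bit MB (s.pos j) && subM (s.mm j h) MA)

/-- the leaf P1. `v` encodes: rotation of rows, of columns (2 bits each), four row cuts, four column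
cuts (5 bits each), eight ones (5 bits each). -/
def leafP1 (s : St) (v : ℕ) : Bool :=
  let ra := v % 4
  let rb := (v / 4) % 4
  let v1 := v / 16
  let a0 := v1 % 32
  let a1 := (v1 / 32) % 32
  let a2 := (v1 / 1024) % 32
  let a3 := (v1 / 32768) % 32
  let v2 := v1 / 1048576
  let b0 := v2 % 32
  let b1 := (v2 / 32) % 32
  let b2 := (v2 / 1024) % 32
  let b3 := (v2 / 32768) % 32
  let o := v2 / 1048576
  let mA := s.m 0
  let mB := s.m 1
  let A0 := labMask mA a0 a1 a2 a3 ra 0
  let A1 := labMask mA a0 a1 a2 a3 ra 1
  let A2 := labMask mA a0 a1 a2 a3 ra 2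
  let A3 := labMask mA a0 a1 a2 a3 ra 3
  let B0 := labMask mB b0 b1 b2 b3 rb 0
  let B1 := labMask mB b0 b1 b2 b3 rb 1
  let B2 := labMask mB b0 b1 b2 b3 rb 2
  let B3 := labMask mB b0 b1 b2 b3 rb 3
  decide (a0 < a1) && decide (a1 < a2) && decide (a2 < a3) && decide (a3 < mA) &&
  decide (b0 < b1) && decide (b1 < b2) && decide (b2 < b3) && decide (b3 < mB) &&
  oneIn s (o % 32) A0 B0 && oneIn s ((o / 32) % 32) A0 B2 &&
  oneIn s ((o / 1024) % 32) A1 B1 && oneIn s ((o / 32768) % 32) A1 B3 &&
  oneIn s ((o / 1048576) % 32) A2 B0 && oneIn s ((o / 33554432) % 32) A2 B2 &&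
  oneIn s ((o / 1073741824) % 32) A3 B1 && oneIn s ((o / 34359738368) % 32) A3 B3

/-! ### The stack machine -/

/-- one instruction applied to the state on top of the stack: `some L` = the state is refuted as soon as
all the states of `L` are. -/
def step (s : St) (i : ℕ) : Option (List St) :=
  let t := i % 8
  let a := i / 8
  if t = 0 then
    let k := a % 16
    if k < s.K ∧ s.mm k (a / 16) = 0 then some [] else none
  else if t = 1 then
    if leafInc s (a % 16) ((a / 16) % 2) (a / 32) then some [] else none
  else if t = 2 then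
    if leafEmp s (a % 16) ((a / 16) % 16) ((a / 256) % 2) ((a / 512) % 32) ((a / 16384) % 32)
      ((a / 524288) % 32) (a / 16777216) then some [] else none
  else if t = 3 then
    if leafHex s (a % 16) ((a / 16) % 32) (a / 512) then some [] else none
  else if t = 4 then
    if leafP1 s a then some [] else none
  else if t = 5 then
    let k := a % 16
    let h := (a / 16) % 2
    let M := a / 32
    if k < s.K then some [s.rr k h M, s.rr k h (s.mm k h ^^^ (s.mm k h &&& M))] else none
  else if t = 6 then
    if s.K ≤ 14 then some s.children else none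
  else
    let k := a % 16
    let j := a / 16
    if k < s.K ∧ j < s.K ∧ k % 2 = j % 2 ∧ s.pos k = s.pos j then
      some [(((s.rx k (s.mx j)).ry k (s.my j)).rx j (s.mx k)).ry j (s.my k),
        (((s.rx k (s.my j)).ry k (s.mx j)).rx j (s.my k)).ry j (s.mx k)]
    else none

/-- run the instructions on a stack of states -/
def run : List ℕ → List St → Bool
  | [], [] => true
  | [], _ :: _ => false
  | _ :: _, [] => false
  | i :: is, s :: st =>
    match step s i with
    | some L => run is (L ++ st)
    | none => false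

/-- the initial state: `l_0 = l_1 = 0` are placed -/
def st0 : St :=
  { K := 2, A := { n := 1, L := [0], X := [2], Y := [2] },
    B := { n := 1, L := [0], X := [2], Y := [2] }, D := [true, true] }

end H46K
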