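import Pool.Agent.Lib.H46K.ES4

/-!
# H46K, Part E, chunk ES4B: the initial state
-/

namespace H46K

theorem es4b_code {w : ℕ} (h : w ≠ 0) : code {0} w = 1 := by
  have h1 : code ({0} : Finset ℕ) w < 2 * ({0} : Finset ℕ).card := code_lt _ (by simp) w
  have h2 := code_even_iff ({0} : Finset ℕ) (by simp) w
  have h3 : w ∉ ({0} : Finset ℕ) := by simpa using h
  have h4 : ({0} : Finset ℕ).card = 1 := rfl
  have h5 : ¬ code ({0} : Finset ℕ) w % 2 = 0 := fun e => h3 (h2.1 e)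
  omega

theorem es4b_placed {l : ℕ → ℕ} (h0 : l 0 = 0) (h1 : l 1 = 0) (σ : ℕ) : placed l 2 σ = {0} := by
  ext t
  unfold placed
  simp only [Finset.mem_image, Finset.mem_filter, Finset.mem_range, Finset.mem_singleton]
  constructor
  · rintro ⟨k, ⟨hk, _⟩, rfl⟩
    have : k = 0 ∨ k = 1 := by omega
    rcases this with rfl | rfl
    · exact h0
    · exact h1
  · rintro rfl
    rcases Nat.mod_two_eq_zero_or_one σ with h | h
    · exact ⟨0, ⟨by omega, by omega⟩, h0⟩
    · exact ⟨1, ⟨by omega, by omega⟩, h1⟩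

/-- the initial state. `placed l 2 0 = placed l 2 1 = {0}`; the code of a point `w` with respect to
`{0}` is `0` if `w = 0` and `1` otherwise; `x 0, y 0 ≠ 0` since `cb (x 0) (l 1) (y 0)` and
`l 1 = 0`; `x 1, y 1 ≠ 0` since `cb (y 1) (l 0) (x 1)` and `l 0 = 0`. -/
theorem sat_st0 {r : ℕ} {X : ℕ → ℕ → Prop} {l x y : ℕ → ℕ} {d : ℕ → Bool}
    (P : PhiPath r X l x y d) : Sat l x y d st0 := by
  have f1 := P.F1 0 (by omega)
  have f2 := P.F2 0 (by omega)
  rw [show 0 + 1 = 1 from rfl, P.l1] at f1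
  rw [show 0 + 1 = 1 from rfl, P.l0] at f2
  have x0 : x 0 ≠ 0 := by unfold cb at f1; omega
  have y0 : y 0 ≠ 0 := by unfold cb at f1; omega
  have x1 : x 1 ≠ 0 := by unfold cb at f2; omega
  have y1 : y 1 ≠ 0 := by unfold cb at f2; omega
  have hK : st0.K = 2 := rfl
  have c0 : code ({0} : Finset ℕ) 0 = 0 := code_zero _ (by simp)
  refine ⟨by rw [hK], by rw [hK]; norm_num, ?_, ?_, rfl, rfl, rfl, rfl, rfl, rfl, rfl,
    ?_, ?_, ?_, ?_⟩
  · rw [hK, es4b_placed P.l0 P.l1]; rfl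
  · rw [hK, es4b_placed P.l0 P.l1]; rfl
  · intro k hk
    rw [hK] at hk ⊢
    rw [es4b_placed P.l0 P.l1]
    have : k = 0 ∨ k = 1 := by omega
    rcases this with rfl | rfl
    · rw [P.l0, c0]; rfl
    · rw [P.l1, c0]; rfl
  · intro k hk
    rw [hK] at hk ⊢
    rw [es4b_placed P.l0 P.l1]
    have : k = 0 ∨ k = 1 := by omega
    rcases this with rfl | rfl
    · rw [es4b_code x0]; rfl
    · rw [es4b_code x1]; rfl
  · intro k hk
    rw [hK] at hk ⊢
    rw [es4b_placed P.l0 P.l1]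
    have : k = 0 ∨ k = 1 := by omega
    rcases this with rfl | rfl
    · rw [es4b_code y0]; rfl
    · rw [es4b_code y1]; rfl
  · intro k hk h2
    rw [hK] at hk
    omega

end H46K
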