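import Pool.Agent.Lib.H46K.ES9
import Pool.Agent.Lib.H46K.ES4B
import Pool.Agent.Lib.H46K.ECheck

/-!
# H46K, Part E: the finite lemma
-/

namespace H46K

/-- A Φ-path forces a ring. -/
theorem finite_lemma {r : ℕ} {X : ℕ → ℕ → Prop} {l x y : ℕ → ℕ} {d : ℕ → Bool}
    (P : PhiPath r X l x y d) : HasRing (toSet X) := by
  by_contra hX
  exact run_sound P hX cert [st0] cert_ok st0 (by simp) (sat_st0 P)

end H46K
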