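import Pool.Agent.Lib.H46K.EP11

/-!
# H46K, Part E-I, chunk EP10: reduction modulo `r`

`natRel r X a b := a < r ∧ b < r ∧ X a b` (natural numbers). For a `PZ` path with `l 0 ≡ l 1 ≡ 0`, `d 2 = d 3 = true` the
numbers `(l k % r).toNat`, ... form a `PhiPath`. `cb_iff`: for natural numbers `a, b, c < r`: `cb a b c ↔ cz r a b c`
(and `cz r` only depends on the classes modulo `r`: `cz_congr`). `ent (natRel r X) k w z ↔ w < r ∧ z < r ∧ par X k w z`.
-/

namespace H46K

variable {X : ℤ → ℤ → Prop}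

/-- the representative in `[0, r)` -/
def red (r : ℕ) (a : ℤ) : ℕ := (a % (r : ℤ)).toNat

theorem ep10_cast {r : ℕ} (hr : 0 < r) (a : ℤ) : (red r a : ℤ) = a % (r : ℤ) := by
  unfold red
  rw [Int.toNat_of_nonneg]
  exact Int.emod_nonneg _ (by omega)

theorem red_lt {r : ℕ} (hr : 0 < r) (a : ℤ) : red r a < r := by
  have h1 := ep10_cast hr a
  have h2 := Int.emod_lt_of_pos a (show (0 : ℤ) < r by omega)
  omega

theorem red_dvd {r : ℕ} (hr : 0 < r) (a : ℤ) : (r : ℤ) ∣ (red r a : ℤ) - a := by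
  rw [ep10_cast hr a]
  refine ⟨-(a / r), ?_⟩
  have := Int.emod_add_mul_ediv a r
  linarith

theorem ep10_emod {r : ℕ} {a b : ℤ} (h : (r : ℤ) ∣ a - b) : a % (r : ℤ) = b % (r : ℤ) :=
  Int.emod_eq_emod_iff_emod_sub_eq_zero.2 (Int.emod_eq_zero_of_dvd h)

theorem ep10_congr {r : ℕ} {a b : ℤ} (h : (r : ℤ) ∣ a - b) : red r a = red r b := by
  unfold red
  rw [ep10_emod h]

theorem ep10_of_lt {r w : ℕ} (h : w < r) : red r (w : ℤ) = w := by
  have h1 := ep10_cast (show 0 < r by omega) (w : ℤ)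
  rw [Int.emod_eq_of_lt (by omega) (by omega)] at h1
  omega

theorem ep10_sub {r : ℕ} (hr : 0 < r) (a b : ℤ) :
    (b - a) % (r : ℤ) = if red r a ≤ red r b then (red r b : ℤ) - red r a
      else (red r b : ℤ) - red r a + r := by
  have e1 : (r : ℤ) ∣ (b - a) - ((red r b : ℤ) - red r a) := by
    have h1 := red_dvd hr a
    have h2 := red_dvd hr b
    have h3 := dvd_sub h1 h2
    have : (red r a : ℤ) - a - ((red r b : ℤ) - b) = (b - a) - ((red r b : ℤ) - red r a) := by ring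
    rwa [this] at h3
  have l1 := red_lt hr a
  have l2 := red_lt hr b
  rw [ep10_emod e1]
  split_ifs with h
  · exact Int.emod_eq_of_lt (by omega) (by omega)
  · rw [← Int.add_emod_right]
    exact Int.emod_eq_of_lt (by omega) (by omega)

theorem cb_iff {r : ℕ} (hr : 0 < r) {a b c : ℤ} :
    cb (red r a) (red r b) (red r c) ↔ cz r a b c := by
  unfold cz cb
  rw [ep10_sub hr, ep10_sub hr]
  have l1 := red_lt hr a
  have l2 := red_lt hr b
  have l3 := red_lt hr c
  split_ifs <;> omega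

theorem ent_natRel {r : ℕ} (k w z : ℕ) :
    ent (natRel r X) k w z ↔ w < r ∧ z < r ∧ par X k w z := by
  unfold ent natRel par tr
  split_ifs
  · exact Iff.rfl
  · tauto

theorem ep10_succ {r : ℕ} (hr : 0 < r) {a b : ℤ} (h : (r : ℤ) ∣ b - (a + 1)) :
    red r b = if red r a + 1 = r then 0 else red r a + 1 := by
  have h1 := red_dvd hr a
  have h2 : (r : ℤ) ∣ b - ((red r a : ℤ) + 1) := by
    have := dvd_sub h h1
    have e : b - (a + 1) - ((red r a : ℤ) - a) = b - ((red r a : ℤ) + 1) := by ring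
    rwa [e] at this
  have l1 := red_lt hr a
  rw [ep10_congr h2]
  split_ifs with h3
  · have e : ((red r a : ℤ) + 1) = r := by omega
    rw [e]
    unfold red
    simp
  · have e : ((red r a : ℤ) + 1) = ((red r a + 1 : ℕ) : ℤ) := by push_cast; ring
    rw [e]
    exact ep10_of_lt (by omega)

theorem ep10_perR {r : ℕ} (hr : 0 < r) {Y : ℤ → ℤ → Prop} (h : Tor (r : ℤ) Y) (a b : ℤ) :
    Y (red r a) b ↔ Y a b := by
  obtain ⟨n, hn⟩ := red_dvd hr a
  have e : (red r a : ℤ) = a + n * r := by linarith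
  rw [e]
  exact h.perRn n a b

theorem phiPath_of_pz {r : ℕ} (hr : 3 ≤ r) (h : Tor (r : ℤ) X) {l x y : ℕ → ℤ} {d : ℕ → Bool}
    (hz : PZ (r : ℤ) X l x y d) (h0 : (r : ℤ) ∣ l 0) (h1 : (r : ℤ) ∣ l 1) (h2 : d 2 = true)
    (h3 : d 3 = true) :
    PhiPath r (natRel r X) (fun k => red r (l k)) (fun k => red r (x k)) (fun k => red r (y k))
      d := by
  have hr0 : 0 < r := by omega
  have hcb : ∀ {a c : ℤ} {w : ℕ}, w < r → cb (red r a) w (red r c) → cz r a w c := by
    intro a c w hw hc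
    rw [← ep10_of_lt hw] at hc
    exact (cb_iff hr0).1 hc
  have hcb1 : ∀ {a : ℤ} {w c : ℕ}, w < r → c < r → cb (red r a) w c → cz r a w c := by
    intro a w c hw hc hh
    rw [← ep10_of_lt hw, ← ep10_of_lt hc] at hh
    exact (cb_iff hr0).1 hh
  refine ⟨fun k _ => red_lt hr0 _, fun k _ => red_lt hr0 _, fun k _ => red_lt hr0 _, ?_,
    fun k _ => (cb_iff hr0).2 (hz.F1 k), fun k _ => (cb_iff hr0).2 (hz.F2 k),
    fun k _ => (cb_iff hr0).2 (hz.F6a k), fun k _ => (cb_iff hr0).2 (hz.F6b k), ?_, ?_, ?_, ?_, ?_,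
    ?_, ?_, h2, h3⟩
  · intro k _ b
    rw [ent_natRel, ep10_perR hr0 (h.par k), hz.one]
    constructor
    · rintro ⟨_, hb, hd | hd⟩
      · left
        rw [← ep10_of_lt hb]
        exact ep10_congr hd
      · right
        rw [← ep10_of_lt hb]
        exact ep10_congr hd
    · rintro (rfl | rfl)
      · exact ⟨red_lt hr0 _, red_lt hr0 _, Or.inl (red_dvd hr0 _)⟩
      · exact ⟨red_lt hr0 _, red_lt hr0 _, Or.inr (red_dvd hr0 _)⟩
  · intro k hk _ hd
    exact ep10_succ hr0 (hz.gp k hk hd)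
  · intro k hk _ hd
    exact ep10_succ hr0 (hz.gm k hk hd)
  · intro w z hw hz' he
    rw [ent_natRel] at he
    obtain ⟨l1, l2, he⟩ := he
    exact hz.emp1 w z (hcb l1 hw) (hcb l2 hz') he
  · intro k _ hd w z hw hz' he
    rw [ent_natRel] at he
    obtain ⟨l1, l2, he⟩ := he
    refine hz.empp k hd w z ?_ (hcb l2 hz') he
    rcases hw with rfl | hw
    · exact Or.inl (red_dvd hr0 _)
    · exact Or.inr (hcb l1 hw)
  · intro k _ hd w z hw hz' he
    rw [ent_natRel] at he
    obtain ⟨l1, l2, he⟩ := he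
    refine hz.empm k hd w z ?_ (hcb l2 hz') he
    rcases hw with rfl | hw
    · exact Or.inl (red_dvd hr0 _)
    · exact Or.inr (hcb l1 hw)
  · skip
    rw [ep10_congr (b := 0) (by simpa using h0)]
    unfold red
    simp
  · skip
    rw [ep10_congr (b := 0) (by simpa using h1)]
    unfold red
    simp

end H46K
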