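import Pool.Agent.Lib.H46K.EP11

/-!
# H46K, Part E-I, chunk EP11A: P1 gives a ring pattern

For the cut points `p0 < p1 < p2 < p3 < p0 + r` let `H a = 4 ((a - p0) / r) + N ((a - p0) % r)` where `N w` is the number of
`j ∈ {1,2,3}` with `p_j - p0 ≤ w` (sum of three `if`s); similarly `G` for the columns with `c0, ..., c3`. `H` is monotone: if `a ≤ b`
either the quotients are equal and the remainders ordered, or the quotient increases and `N ≤ 3`. For `a ∈ [p_i, p_{i+1})`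
(`p_4 = p0 + r`) `H a = i`. The two hit conditions of `ZRing r 2 1 1`: modulo 4 only the parity of `i` (resp. `j`) and the class of
`2 (i + 1) + s` (resp. `2 j + s`) matter; even row blocks hit the odd column blocks and odd row blocks hit the even
column blocks: eight hits, given by `P1`. (Case distinction `i % 2`, `s = ±1`; the congruences by `Int.emod_emod_of_dvd`/`omega` after unfolding
`Int.ModEq`.)
-/

namespace H46K

variable {X : ℤ → ℤ → Prop}

/-- number of cuts -/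
def ep11aN (q1 q2 q3 w : ℤ) : ℤ :=
  (if q1 ≤ w then 1 else 0) + (if q2 ≤ w then 1 else 0) + (if q3 ≤ w then 1 else 0)

/-- quasi-periodic label -/
def ep11aH (r p0 p1 p2 p3 a : ℤ) : ℤ :=
  4 * ((a - p0) / r) + ep11aN (p1 - p0) (p2 - p0) (p3 - p0) ((a - p0) % r)

theorem ep11aN_mono (q1 q2 q3 : ℤ) {w w' : ℤ} (h : w ≤ w') :
    ep11aN q1 q2 q3 w ≤ ep11aN q1 q2 q3 w' := by
  unfold ep11aN
  split_ifs <;> omega

theorem ep11aN_bd (q1 q2 q3 w : ℤ) : 0 ≤ ep11aN q1 q2 q3 w ∧ ep11aN q1 q2 q3 w ≤ 3 := by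
  unfold ep11aN
  split_ifs <;> omega

theorem ep11aH_mono {r : ℤ} (hr : 0 < r) (p0 p1 p2 p3 : ℤ) :
    Monotone (ep11aH r p0 p1 p2 p3) := by
  intro a b hab
  unfold ep11aH
  have h1 : (a - p0) / r ≤ (b - p0) / r := Int.ediv_le_ediv hr (by omega)
  have b1 := ep11aN_bd (p1 - p0) (p2 - p0) (p3 - p0) ((a - p0) % r)
  have b2 := ep11aN_bd (p1 - p0) (p2 - p0) (p3 - p0) ((b - p0) % r)
  rcases lt_or_eq_of_le h1 with h2 | h2
  · omega
  · have e1 := Int.emod_add_mul_ediv (a - p0) r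
    have e2 := Int.emod_add_mul_ediv (b - p0) r
    rw [h2] at e1
    have h3 : (a - p0) % r ≤ (b - p0) % r := by linarith
    have := ep11aN_mono (p1 - p0) (p2 - p0) (p3 - p0) h3
    omega

theorem ep11aH_per {r : ℤ} (hr : 0 < r) (p0 p1 p2 p3 a : ℤ) :
    ep11aH r p0 p1 p2 p3 (a + r) = ep11aH r p0 p1 p2 p3 a + 2 * 2 := by
  unfold ep11aH
  have e : a + r - p0 = (a - p0) + r := by ring
  rw [e, Int.add_emod_right, Int.add_ediv_of_dvd_right (dvd_refl r), Int.ediv_self hr.ne']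
  ring

theorem ep11aH_val {r : ℤ} (p0 p1 p2 p3 : ℤ) {a : ℤ} (h1 : p0 ≤ a) (h2 : a < p0 + r) :
    ep11aH r p0 p1 p2 p3 a = ep11aN (p1 - p0) (p2 - p0) (p3 - p0) (a - p0) := by
  unfold ep11aH
  rw [Int.ediv_eq_zero_of_lt (by omega) (by omega), Int.emod_eq_of_lt (by omega) (by omega)]
  ring

theorem zring_p1 {r : ℤ} (h : P1 r X) : ZRing r 2 1 1 X := by
  obtain ⟨p0, p1, p2, p3, c0, c1, c2, c3, ⟨hp1, hp2, hp3, hp4⟩, ⟨hc1, hc2, hc3, hc4⟩,
    ⟨g1, g2, g3, g4⟩, g5, g6, g7, g8⟩ := h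
  have hr : 0 < r := by omega
  have v0 : ∀ a, p0 ≤ a → a < p1 → ep11aH r p0 p1 p2 p3 a = 0 := by
    intro a h1 h2
    rw [ep11aH_val _ _ _ _ h1 (by omega)]
    unfold ep11aN
    rw [if_neg (by omega), if_neg (by omega), if_neg (by omega)]; norm_num
  have v1 : ∀ a, p1 ≤ a → a < p2 → ep11aH r p0 p1 p2 p3 a = 1 := by
    intro a h1 h2
    rw [ep11aH_val _ _ _ _ (by omega) (by omega)]
    unfold ep11aN
    rw [if_pos (by omega), if_neg (by omega), if_neg (by omega)]; norm_num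
  have v2 : ∀ a, p2 ≤ a → a < p3 → ep11aH r p0 p1 p2 p3 a = 2 := by
    intro a h1 h2
    rw [ep11aH_val _ _ _ _ (by omega) (by omega)]
    unfold ep11aN
    rw [if_pos (by omega), if_pos (by omega), if_neg (by omega)]; norm_num
  have v3 : ∀ a, p3 ≤ a → a < p0 + r → ep11aH r p0 p1 p2 p3 a = 3 := by
    intro a h1 h2
    rw [ep11aH_val _ _ _ _ (by omega) (by omega)]
    unfold ep11aN
    rw [if_pos (by omega), if_pos (by omega), if_pos (by omega)]; norm_num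
  have w0 : ∀ a, c0 ≤ a → a < c1 → ep11aH r c0 c1 c2 c3 a = 0 := by
    intro a h1 h2
    rw [ep11aH_val _ _ _ _ h1 (by omega)]
    unfold ep11aN
    rw [if_neg (by omega), if_neg (by omega), if_neg (by omega)]; norm_num
  have w1 : ∀ a, c1 ≤ a → a < c2 → ep11aH r c0 c1 c2 c3 a = 1 := by
    intro a h1 h2
    rw [ep11aH_val _ _ _ _ (by omega) (by omega)]
    unfold ep11aN
    rw [if_pos (by omega), if_neg (by omega), if_neg (by omega)]; norm_num
  have w2 : ∀ a, c2 ≤ a → a < c3 → ep11aH r c0 c1 c2 c3 a = 2 := by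
    intro a h1 h2
    rw [ep11aH_val _ _ _ _ (by omega) (by omega)]
    unfold ep11aN
    rw [if_pos (by omega), if_pos (by omega), if_neg (by omega)]; norm_num
  have w3 : ∀ a, c3 ≤ a → a < c0 + r → ep11aH r c0 c1 c2 c3 a = 3 := by
    intro a h1 h2
    rw [ep11aH_val _ _ _ _ (by omega) (by omega)]
    unfold ep11aN
    rw [if_pos (by omega), if_pos (by omega), if_pos (by omega)]; norm_num
  obtain ⟨a1, b1, r1, r2, r3, r4, x1⟩ := g1
  obtain ⟨a2, b2, s1, s2, s3, s4, x2⟩ := g2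
  obtain ⟨a3, b3, t1, t2, t3, t4, x3⟩ := g3
  obtain ⟨a4, b4, u1, u2, u3, u4, x4⟩ := g4
  obtain ⟨a5, b5, r1', r2', r3', r4', x5⟩ := g5
  obtain ⟨a6, b6, s1', s2', s3', s4', x6⟩ := g6
  obtain ⟨a7, b7, t1', t2', t3', t4', x7⟩ := g7
  obtain ⟨a8, b8, u1', u2', u3', u4', x8⟩ := g8
  refine ⟨ep11aH r p0 p1 p2 p3, ep11aH r c0 c1 c2 c3, ep11aH_mono hr _ _ _ _,
    ep11aH_mono hr _ _ _ _, ep11aH_per hr _ _ _ _, ep11aH_per hr _ _ _ _, ?_, ?_⟩
  · intro i s hs
    simp only [Int.ModEq]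
    have hi : i % 2 = 0 ∨ i % 2 = 1 := by omega
    rcases hi with hi | hi <;> rcases hs with rfl | rfl
    · exact ⟨a2, b2, x2, by rw [v0 _ s1 s2]; omega, by rw [w3 _ s3 s4]; omega⟩
    · exact ⟨a1, b1, x1, by rw [v0 _ r1 r2]; omega, by rw [w1 _ r3 r4]; omega⟩
    · exact ⟨a3, b3, x3, by rw [v2 _ t1 t2]; omega, by rw [w1 _ t3 t4]; omega⟩
    · exact ⟨a4, b4, x4, by rw [v2 _ u1 u2]; omega, by rw [w3 _ u3 u4]; omega⟩
  · intro i s hs
    simp only [Int.ModEq]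
    have hi : i % 2 = 0 ∨ i % 2 = 1 := by omega
    rcases hi with hi | hi <;> rcases hs with rfl | rfl
    · exact ⟨a5, b5, x5, by rw [v1 _ r1' r2']; omega, by rw [w0 _ r3' r4']; omega⟩
    · exact ⟨a7, b7, x7, by rw [v3 _ t1' t2']; omega, by rw [w0 _ t3' t4']; omega⟩
    · exact ⟨a8, b8, x8, by rw [v3 _ u1' u2']; omega, by rw [w2 _ u3' u4']; omega⟩
    · exact ⟨a6, b6, x6, by rw [v1 _ s1' s2']; omega, by rw [w2 _ s3' s4']; omega⟩

end H46K
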