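import Pool.Agent.Lib.H46K.EP11

/-!
# H46K, Part E-I, chunk EP11B: ring patterns in new coordinates

Given `H', G'` for `mp a b e f X` put `H w = sg e * H' (sg e * (w - a))`, `G w = sg f * G' (sg f * (w - b))`. Monotone:
for `sg = -1` two sign changes. Periodicity: `H (w + r) = sg e * H' (sg e * (w - a) + sg e * r) = sg e * (H' .. + sg e * 2 k)`
(for `e = false` use `H' (z - r) = H' z - 2k`). A one `X' i j` of `mp a b e f X` is the one `X (a + sg e * i) (b + sg f * j)`, and
`H (a + sg e * i) = sg e * H' i`. Hit conditions: multiply the congruences by `sg e`, `sg f` (`Int.ModEq.mul_left`); in the first one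
use the hypothesis for `s' = sg f * s`, in the second one for `s' = sg e * s`.
-/

namespace H46K

variable {X : ℤ → ℤ → Prop}

theorem zring_mp {r k δ ε : ℤ} (hr : 0 < r) (a b : ℤ) (e f : Bool)
    (h : ZRing r k δ ε (mp a b e f X)) : ZRing r k (δ * sg e) (ε * sg f) X := by
  obtain ⟨H, G, hH, hG, hHr, hGr, h1, h2⟩ := h
  have hmono : ∀ (F : ℤ → ℤ) (c : ℤ) (e : Bool), Monotone F →
      Monotone (fun w => sg e * F (sg e * (w - c))) := by
    intro F c e hF w w' hw
    cases e
    · have : F (sg false * (w' - c)) ≤ F (sg false * (w - c)) := hF (by simp [sg]; linarith)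
      simp only [sg] at this ⊢
      simp at this ⊢
      linarith
    · have : F (sg true * (w - c)) ≤ F (sg true * (w' - c)) := hF (by simp [sg]; linarith)
      simp only [sg] at this ⊢
      simp at this ⊢
      linarith
  have hper : ∀ (F : ℤ → ℤ) (c : ℤ) (e : Bool), (∀ w, F (w + r) = F w + 2 * k) →
      ∀ w, sg e * F (sg e * (w + r - c)) = sg e * F (sg e * (w - c)) + 2 * k := by
    intro F c e hF w
    cases e
    · have := hF (-(w + r - c))
      have e1 : -(w + r - c) + r = -(w - c) := by ring
      rw [e1] at this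
      simp only [sg]
      simp only [Bool.false_eq_true, if_false, neg_mul, one_mul]
      linarith
    · have := hF (w - c)
      have e1 : w - c + r = w + r - c := by ring
      rw [e1] at this
      simp only [sg]
      simp only [if_true, one_mul]
      linarith
  have hsq : ∀ e : Bool, sg e * sg e = 1 := by
    intro e; cases e <;> simp [sg]
  have hs : ∀ (e : Bool) (s : ℤ), (s = 1 ∨ s = -1) → (sg e * s = 1 ∨ sg e * s = -1) := by
    intro e s hs; cases e <;> rcases hs with rfl | rfl <;> simp [sg]
  have hval : ∀ (F : ℤ → ℤ) (c : ℤ) (e : Bool) (i : ℤ),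
      sg e * F (sg e * (c + sg e * i - c)) = sg e * F i := by
    intro F c e i
    congr 2
    rw [add_sub_cancel_left, ← mul_assoc, hsq, one_mul]
  refine ⟨fun w => sg e * H (sg e * (w - a)), fun w => sg f * G (sg f * (w - b)),
    hmono H a e hH, hmono G b f hG, hper H a e hHr, hper G b f hGr, fun i s hs' => ?_,
    fun j s hs' => ?_⟩
  · obtain ⟨a', b', hX, h3, h4⟩ := h1 i (sg f * s) (hs f s hs')
    refine ⟨a + sg e * a', b + sg f * b', hX, ?_, ?_⟩
    · show sg e * H (sg e * (a + sg e * a' - a)) ≡ _ [ZMOD 2 * k]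
      rw [hval]
      have := h3.mul_left (sg e)
      rwa [show sg e * (δ * (2 * i)) = δ * sg e * (2 * i) by ring] at this
    · show sg f * G (sg f * (b + sg f * b' - b)) ≡ _ [ZMOD 2 * k]
      rw [hval]
      have := h4.mul_left (sg f)
      rwa [show sg f * (ε * (2 * (i + 1)) + sg f * s) =
        ε * sg f * (2 * (i + 1)) + (sg f * sg f) * s by ring, hsq, one_mul] at this
  · obtain ⟨a', b', hX, h3, h4⟩ := h2 j (sg e * s) (hs e s hs')
    refine ⟨a + sg e * a', b + sg f * b', hX, ?_, ?_⟩
    · show sg e * H (sg e * (a + sg e * a' - a)) ≡ _ [ZMOD 2 * k]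
      rw [hval]
      have := h3.mul_left (sg e)
      rwa [show sg e * (δ * (2 * j) + sg e * s) =
        δ * sg e * (2 * j) + (sg e * sg e) * s by ring, hsq, one_mul] at this
    · show sg f * G (sg f * (b + sg f * b' - b)) ≡ _ [ZMOD 2 * k]
      rw [hval]
      have := h4.mul_left (sg f)
      rwa [show sg f * (ε * (2 * j)) = ε * sg f * (2 * j) by ring] at this

end H46K
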