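import Pool.Agent.Lib.H46K.EP11

/-!
# H46K, Part E-I, chunk EP11C: from `[0, r)` to periodic relations

`h, g : ℕ → ℤ` from `Ring`. Every `a < r` is the row of a point of `toSet (natRel r X)`: by `Tor.row` (and periodicity `Tor.perCn`)
the row `a` has a one `(a, b)` with `0 ≤ b < r`; similarly for columns. So `h a ≤ h b` for `a ≤ b < r` and `h a ≤ h b + 2 k` for all
`a, b < r`. Put `H z = h ((z % r).toNat) + 2 k (z / r)`; monotone: equal quotients: monotonicity of `h`; increasing quotient: the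
oscillation bound (`k > 0`). `H (z + r) = H z + 2 k` (`Int.add_emod_right`, `Int.add_ediv_of_dvd_right`...). Hits: the same points `(a, b)`, as
`H a = h a` for `0 ≤ a < r`.
-/

namespace H46K

variable {X : ℤ → ℤ → Prop}

/-- the periodic extension of a labelling -/
def ep11cH (r : ℕ) (k : ℤ) (h : ℕ → ℤ) (z : ℤ) : ℤ := h ((z % (r : ℤ)).toNat) + 2 * k * (z / r)

theorem ep11c_mono {r : ℕ} (hr : 0 < r) {k : ℤ} (hk : 0 < k) {h : ℕ → ℤ}
    (hm : ∀ a b, a ≤ b → b < r → h a ≤ h b) (ho : ∀ a b, a < r → b < r → h a ≤ h b + 2 * k) :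
    Monotone (ep11cH r k h) := by
  intro z z' hz
  unfold ep11cH
  have hr' : (0 : ℤ) < r := by omega
  have m1 := Int.emod_nonneg z hr'.ne'
  have m2 := Int.emod_lt_of_pos z hr'
  have m3 := Int.emod_nonneg z' hr'.ne'
  have m4 := Int.emod_lt_of_pos z' hr'
  have h1 : z / (r : ℤ) ≤ z' / r := Int.ediv_le_ediv hr' hz
  rcases lt_or_eq_of_le h1 with h2 | h2
  · have h3 := ho (z % (r : ℤ)).toNat (z' % (r : ℤ)).toNat (by omega) (by omega)
    have h4 : z / (r : ℤ) + 1 ≤ z' / r := h2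
    have h5 : 2 * k * (z / (r : ℤ) + 1) ≤ 2 * k * (z' / r) :=
      mul_le_mul_of_nonneg_left h4 (by omega)
    linarith
  · have e1 := Int.emod_add_mul_ediv z r
    have e2 := Int.emod_add_mul_ediv z' r
    rw [h2] at e1 ⊢
    have h3 : z % (r : ℤ) ≤ z' % r := by linarith
    have h4 := hm (z % (r : ℤ)).toNat (z' % (r : ℤ)).toNat (by omega) (by omega)
    linarith

theorem ep11c_per {r : ℕ} (hr : 0 < r) (k : ℤ) (h : ℕ → ℤ) (z : ℤ) :
    ep11cH r k h (z + r) = ep11cH r k h z + 2 * k := by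
  have hr' : (r : ℤ) ≠ 0 := by omega
  unfold ep11cH
  rw [Int.add_emod_right, Int.add_ediv_of_dvd_right (dvd_refl _), Int.ediv_self hr']
  ring

theorem ep11c_val {r : ℕ} (k : ℤ) (h : ℕ → ℤ) {a : ℕ} (ha : a < r) :
    ep11cH r k h (a : ℤ) = h a := by
  unfold ep11cH
  rw [Int.emod_eq_of_lt (by omega) (by omega), Int.ediv_eq_zero_of_lt (by omega) (by omega)]
  simp

theorem ep11c_row {r : ℕ} (hr : 0 < r) (h : Tor (r : ℤ) X) (a : ℤ) :
    ∃ b : ℕ, b < r ∧ X a b := by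
  obtain ⟨x, y, hg⟩ := h.row a
  have hr' : (0 : ℤ) < r := by omega
  have m1 := Int.emod_nonneg x hr'.ne'
  have m2 := Int.emod_lt_of_pos x hr'
  refine ⟨(x % (r : ℤ)).toNat, by omega, ?_⟩
  rw [Int.toNat_of_nonneg m1]
  have e : x % (r : ℤ) = x + (-(x / r)) * r := by
    have := Int.emod_add_mul_ediv x r
    linarith
  rw [e, h.perCn]
  exact hg.left

theorem zring_of_ring {r : ℕ} (hr : 3 ≤ r) (h : Tor (r : ℤ) X) {k δ ε : ℤ} (hk : 0 < k)
    (hR : Ring k δ ε (toSet (natRel r X))) : ZRing (r : ℤ) k δ ε X := by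
  have hr0 : 0 < r := by omega
  obtain ⟨f, g, f1, f2, g1, g2, hit1, hit2⟩ := hR
  have hrow : ∀ a : ℕ, a < r → ∃ p ∈ toSet (natRel r X), p.1 = a := by
    intro a ha
    obtain ⟨b, hb, hab⟩ := ep11c_row hr0 h a
    exact ⟨(a, b), ⟨ha, hb, hab⟩, rfl⟩
  have hcol : ∀ b : ℕ, b < r → ∃ p ∈ toSet (natRel r X), p.2 = b := by
    intro b hb
    obtain ⟨a, ha, hab⟩ := ep11c_row hr0 h.tr b
    exact ⟨(a, b), ⟨ha, hb, hab⟩, rfl⟩
  have fm : ∀ a b, a ≤ b → b < r → f a ≤ f b := by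
    intro a b hab hb
    obtain ⟨p, hp, e1⟩ := hrow a (by omega)
    obtain ⟨q, hq, e2⟩ := hrow b hb
    have := f1 p hp q hq (by omega)
    rwa [e1, e2] at this
  have fo : ∀ a b, a < r → b < r → f a ≤ f b + 2 * k := by
    intro a b ha hb
    obtain ⟨p, hp, e1⟩ := hrow a ha
    obtain ⟨q, hq, e2⟩ := hrow b hb
    have := f2 p hp q hq
    rwa [e1, e2] at this
  have gm : ∀ a b, a ≤ b → b < r → g a ≤ g b := by
    intro a b hab hb
    obtain ⟨p, hp, e1⟩ := hcol a (by omega)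
    obtain ⟨q, hq, e2⟩ := hcol b hb
    have := g1 p hp q hq (by omega)
    rwa [e1, e2] at this
  have go : ∀ a b, a < r → b < r → g a ≤ g b + 2 * k := by
    intro a b ha hb
    obtain ⟨p, hp, e1⟩ := hcol a ha
    obtain ⟨q, hq, e2⟩ := hcol b hb
    have := g2 p hp q hq
    rwa [e1, e2] at this
  refine ⟨ep11cH r k f, ep11cH r k g, ep11c_mono hr0 hk fm fo, ep11c_mono hr0 hk gm go,
    ep11c_per hr0 k f, ep11c_per hr0 k g, ?_, ?_⟩
  · intro i s hs
    obtain ⟨p, hp, h1, h2⟩ := hit1 i s hs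
    obtain ⟨l1, l2, hX⟩ := hp
    refine ⟨p.1, p.2, hX, ?_, ?_⟩
    · rw [ep11c_val k f l1]; exact h1
    · rw [ep11c_val k g l2]; exact h2
  · intro i s hs
    obtain ⟨p, hp, h1, h2⟩ := hit2 i s hs
    obtain ⟨l1, l2, hX⟩ := hp
    refine ⟨p.1, p.2, hX, ?_, ?_⟩
    · rw [ep11c_val k f l1]; exact h1
    · rw [ep11c_val k g l2]; exact h2

end H46K
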