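import Pool.Agent.Lib.H46K.EP11

/-!
# H46K, Part E-I, chunk EP11D: from periodic relations to the finite pattern

`h a = H (rkS R a)`, `g b = G (rkS C b)` with `R`, `C` the row and the column support (`rkS` is monotone: more elements below a
larger number). Oscillation: `rkS R a < r`, so `rkS R a ≤ rkS R b + r` and `H (rkS R a) ≤ H (rkS R b + r) = H (rkS R b) + 2 k`.
Hits: a one `X a b` with the congruences; `i = (a % r).toNat`, `j = (b % r).toNat`: `X i j` by periodicity, `H a = H i + 2 k (a / r)`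
(induction, as in `Tor.perRn`), so the congruences hold for `i, j`; then `hX`.
-/

namespace H46K

variable {X : ℤ → ℤ → Prop}

theorem ring_of_zring (X0 : Finset (ℕ × ℕ)) {r : ℕ} (hr : 0 < r)
    (h1 : ∀ a b, X (a + r) b ↔ X a b) (h2 : ∀ a b, X a (b + r) ↔ X a b)
    (hX : ∀ i j : ℕ, i < r → j < r → X i j → ∃ a b, (a, b) ∈ X0 ∧
      rkS (X0.image Prod.fst) a = i ∧ rkS (X0.image Prod.snd) b = j)
    (hR : ∀ a ∈ X0.image Prod.fst, rkS (X0.image Prod.fst) a < r)
    (hC : ∀ b ∈ X0.image Prod.snd, rkS (X0.image Prod.snd) b < r) {k δ ε : ℤ} (hk : 0 < k)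
    (hZ : ZRing (r : ℤ) k δ ε X) : Ring k δ ε (X0 : Set (ℕ × ℕ)) := by
  obtain ⟨H, G, hH, hG, hHr, hGr, h3, h4⟩ := hZ
  have hr' : (0 : ℤ) < r := by exact_mod_cast hr
  have rkm : ∀ (S : Finset ℕ) {a b : ℕ}, a ≤ b → rkS S a ≤ rkS S b := by
    intro S a b hab
    unfold rkS
    apply Finset.card_le_card
    intro x hx
    rw [Finset.mem_filter] at hx ⊢
    exact ⟨hx.1, lt_of_lt_of_le hx.2 hab⟩
  have per : ∀ (F : ℤ → ℤ), (∀ x, F (x + r) = F x + 2 * k) → ∀ n x, F (x + n * r) =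
      F x + 2 * k * n := by
    intro F hF n
    induction n using Int.induction_on with
    | zero => intro x; simp
    | succ n ih =>
      intro x
      rw [show x + ((n : ℤ) + 1) * r = (x + n * r) + r by ring, hF, ih]; ring
    | pred n ih =>
      intro x
      have := hF (x + (-(n : ℤ) - 1) * r)
      rw [show x + (-(n : ℤ) - 1) * r + r = x + (-(n : ℤ)) * r by ring, ih x] at this
      rw [show (-(n : ℤ) - 1) = -(n : ℤ) - 1 from rfl] at *
      linarith
  have perX1 : ∀ n a b, X (a + n * r) b ↔ X a b := by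
    intro n a b
    induction n using Int.induction_on with
    | zero => simp
    | succ n ih => rw [← ih, show a + ((n : ℤ) + 1) * r = (a + n * r) + r by ring, h1]
    | pred n ih =>
      rw [← ih, show a + (-(n : ℤ)) * r = (a + (-(n : ℤ) - 1) * r) + r by ring, h1]
  have perX2 : ∀ n a b, X a (b + n * r) ↔ X a b := by
    intro n a b
    induction n using Int.induction_on with
    | zero => simp
    | succ n ih => rw [← ih, show b + ((n : ℤ) + 1) * r = (b + n * r) + r by ring, h2]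
    | pred n ih =>
      rw [← ih, show b + (-(n : ℤ)) * r = (b + (-(n : ℤ) - 1) * r) + r by ring, h2]
  have red : ∀ a : ℤ, ∃ (i : ℕ) (n : ℤ), i < r ∧ a = i + n * r := by
    intro a
    refine ⟨(a % r).toNat, a / r, ?_, ?_⟩
    · have h5 := Int.emod_lt_of_pos a hr'
      have h6 := Int.emod_nonneg a hr'.ne'
      omega
    · have h6 := Int.emod_nonneg a hr'.ne'
      rw [Int.toNat_of_nonneg h6]
      have := Int.emod_add_mul_ediv a r
      linarith
  have hit : ∀ a b : ℤ, X a b → ∃ p ∈ (X0 : Set (ℕ × ℕ)),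
      H (rkS (X0.image Prod.fst) p.1) ≡ H a [ZMOD 2 * k] ∧
      G (rkS (X0.image Prod.snd) p.2) ≡ G b [ZMOD 2 * k] := by
    intro a b hab
    obtain ⟨i, n, hi, ha⟩ := red a
    obtain ⟨j, m, hj, hb⟩ := red b
    rw [ha, hb, perX1, perX2] at hab
    obtain ⟨a', b', hm, hra, hrb⟩ := hX i j hi hj hab
    refine ⟨(a', b'), by exact_mod_cast hm, ?_, ?_⟩
    · show H (rkS (X0.image Prod.fst) a') ≡ H a [ZMOD 2 * k]
      rw [hra, ha, per H hHr]
      exact (Int.modEq_iff_dvd.mpr ⟨n, by ring⟩)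
    · show G (rkS (X0.image Prod.snd) b') ≡ G b [ZMOD 2 * k]
      rw [hrb, hb, per G hGr]
      exact (Int.modEq_iff_dvd.mpr ⟨m, by ring⟩)
  have osc : ∀ (F : ℤ → ℤ) (S : Finset ℕ), Monotone F → (∀ x, F (x + r) = F x + 2 * k) →
      (∀ a ∈ S, rkS S a < r) → ∀ a ∈ S, ∀ b ∈ S, F (rkS S a) ≤ F (rkS S b) + 2 * k := by
    intro F S hF hFr hS a ha b hb
    rw [← hFr]
    apply hF
    have := hS a ha
    have h5 : (rkS S a : ℤ) < r := by exact_mod_cast this
    have h6 : (0 : ℤ) ≤ rkS S b := by positivity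
    linarith
  refine ⟨fun a => H (rkS (X0.image Prod.fst) a), fun b => G (rkS (X0.image Prod.snd) b),
    fun p _ q _ hpq => hH (by exact_mod_cast rkm _ hpq), fun p hp q hq => ?_,
    fun p _ q _ hpq => hG (by exact_mod_cast rkm _ hpq), fun p hp q hq => ?_, fun i s hs => ?_,
    fun j s hs => ?_⟩
  · exact osc H _ hH hHr hR _ (Finset.mem_image_of_mem _ (by exact_mod_cast hp)) _
      (Finset.mem_image_of_mem _ (by exact_mod_cast hq))
  · exact osc G _ hG hGr hC _ (Finset.mem_image_of_mem _ (by exact_mod_cast hp)) _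
      (Finset.mem_image_of_mem _ (by exact_mod_cast hq))
  · obtain ⟨a, b, hab, h5, h6⟩ := h3 i s hs
    obtain ⟨p, hp, h7, h8⟩ := hit a b hab
    exact ⟨p, hp, h7.trans h5, h8.trans h6⟩
  · obtain ⟨a, b, hab, h5, h6⟩ := h4 j s hs
    obtain ⟨p, hp, h7, h8⟩ := hit a b hab
    exact ⟨p, hp, h7.trans h5, h8.trans h6⟩

end H46K
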