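import Pool.Agent.Lib.H46K.EP12A

/-!
# H46K, Part E-I, chunk EP12: the periodic relation of a finite pattern

`rkS S` is a bijection from `S` to `[0, card S)` (`rkS_lt`, `rkS_inj`, `rkS_surj`; e.g. by `Finset.orderEmbOfFin`/strict monotonicity on `S` and
counting). `ext X0 r i j`: there is `(a, b) ∈ X0` whose ranks are congruent to `i`, `j` modulo `r`.
`tor_ext`: periodicity: clear. `row`: for the line `i` let `a` be the row of rank `i % r`; it contains exactly two points `(a, b)`,
`(a, c)`, `b < c` of `X0` (`h2r`); their ranks `x = rkS b < y = rkS c` satisfy `x + 1 < y` and `y + 1 < x + r` by `hnr` (an element `t` of the column support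
with `b < t < c` has a rank strictly between; `t < b` or `c < t`: if `y + 1 ≥ x + r` then `x = 0`, `y = r - 1`, contradiction); the ones of the
row `i` are the numbers congruent to `x` or `y`. `nr`: from the same two inequalities. Columns: by symmetry (`swap`; or
repeat the argument).
-/

namespace H46K

/-- the periodic relation of a finite pattern -/
def ext (X0 : Finset (ℕ × ℕ)) (r : ℕ) (i j : ℤ) : Prop :=
  ∃ a b, (a, b) ∈ X0 ∧ (r : ℤ) ∣ i - rkS (X0.image Prod.fst) a ∧
    (r : ℤ) ∣ j - rkS (X0.image Prod.snd) b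

theorem ep12_dvd {r : ℕ} (i : ℤ) (n : ℕ) : (r : ℤ) ∣ i + r - n ↔ (r : ℤ) ∣ i - n := by
  have e : i + r - n = (i - n) + r := by ring
  rw [e]
  exact dvd_add_self_right

/-- two numbers of `[0, r)` congruent to the same number are equal -/
theorem ep12_eq {r : ℕ} {i : ℤ} {m n : ℕ} (hm : m < r) (hn : n < r) (h1 : (r : ℤ) ∣ i - m)
    (h2 : (r : ℤ) ∣ i - n) : m = n := by
  have h3 : (r : ℤ) ∣ (n : ℤ) - m := by
    have := dvd_sub h1 h2
    have e : i - m - (i - n) = (n : ℤ) - m := by ring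
    rwa [e] at this
  have h4 := Int.eq_zero_of_abs_lt_dvd h3 (by rw [abs_lt]; constructor <;> omega)
  omega

theorem ep12_inj {S : Finset ℕ} {a b : ℕ} (ha : a ∈ S) (hb : b ∈ S) (h : rkS S a = rkS S b) :
    a = b := by
  rcases Nat.lt_trichotomy a b with h1 | h1 | h1
  · have := rkS_strict S ha h1
    omega
  · exact h1
  · have := rkS_strict S hb h1
    omega

theorem ep12_row (X : Finset (ℕ × ℕ)) (r : ℕ) (hr : 3 ≤ r)
    (hR : (X.image Prod.fst).card = r) (hC : (X.image Prod.snd).card = r)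
    (h2r : ∀ a ∈ X.image Prod.fst, (X.filter fun p => p.1 = a).card = 2) (i : ℤ) :
    ∃ x y, Gap (r : ℤ) (ext X r) i x y := by
  have hr' : (0 : ℤ) < r := by omega
  have m1 := Int.emod_nonneg i hr'.ne'
  have m2 := Int.emod_lt_of_pos i hr'
  obtain ⟨a, ha, hai⟩ := rkS_surj (X.image Prod.fst) (i := (i % (r : ℤ)).toNat) (by omega)
  have hdi : (r : ℤ) ∣ i - rkS (X.image Prod.fst) a := by
    rw [hai, Int.toNat_of_nonneg m1]
    exact Int.dvd_self_sub_emod
  obtain ⟨p, q, hpq, hset⟩ := Finset.card_eq_two.1 (h2r a ha)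
  have hp : p ∈ X.filter fun p => p.1 = a := by rw [hset]; simp
  have hq : q ∈ X.filter fun p => p.1 = a := by rw [hset]; simp
  rw [Finset.mem_filter] at hp hq
  have hne : p.2 ≠ q.2 := by
    intro h
    exact hpq (Prod.ext (hp.2.trans hq.2.symm) h)
  -- order the two points
  have key : ∃ b c, b < c ∧ (a, b) ∈ X ∧ (a, c) ∈ X ∧ ∀ t, (a, t) ∈ X → t = b ∨ t = c := by
    have hp' : (a, p.2) ∈ X := by rw [← hp.2]; exact hp.1
    have hq' : (a, q.2) ∈ X := by rw [← hq.2]; exact hq.1
    have hall : ∀ t, (a, t) ∈ X → t = p.2 ∨ t = q.2 := by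
      intro t ht
      have : (a, t) ∈ X.filter fun p => p.1 = a := by
        rw [Finset.mem_filter]
        exact ⟨ht, rfl⟩
      rw [hset] at this
      simp only [Finset.mem_insert, Finset.mem_singleton] at this
      rcases this with h | h
      · left; rw [← h]
      · right; rw [← h]
    rcases Nat.lt_or_gt_of_ne hne with h | h
    · exact ⟨p.2, q.2, h, hp', hq', hall⟩
    · exact ⟨q.2, p.2, h, hq', hp', fun t ht => (hall t ht).symm⟩
  obtain ⟨b, c, hbc, hb, hc, hall⟩ := key
  have hbC : b ∈ X.image Prod.snd := Finset.mem_image_of_mem Prod.snd hb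
  have hcC : c ∈ X.image Prod.snd := Finset.mem_image_of_mem Prod.snd hc
  have l1 := rkS_lt _ hbC
  have l2 := rkS_lt _ hcC
  have l3 := rkS_strict _ hbC hbc
  rw [hC] at l1 l2
  refine ⟨rkS (X.image Prod.snd) b, rkS (X.image Prod.snd) c, by omega, by omega, ?_⟩
  intro j hj1 hj2
  constructor
  · rintro ⟨a', b', hab, d1, d2⟩
    have ha' : a' ∈ X.image Prod.fst := Finset.mem_image_of_mem Prod.fst hab
    have l4 := rkS_lt _ ha'
    have l5 := rkS_lt _ ha
    rw [hR] at l4 l5
    have e1 : a' = a := ep12_inj ha' ha (ep12_eq l4 l5 d1 hdi)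
    subst e1
    rcases hall b' hab with rfl | rfl
    · left
      have := Int.eq_zero_of_abs_lt_dvd d2 (by rw [abs_lt]; constructor <;> omega)
      omega
    · right
      have := Int.eq_zero_of_abs_lt_dvd d2 (by rw [abs_lt]; constructor <;> omega)
      omega
  · rintro (rfl | rfl)
    · exact ⟨a, b, hb, hdi, by simp⟩
    · exact ⟨a, c, hc, hdi, by simp⟩

theorem ep12_nr (X : Finset (ℕ × ℕ)) (r : ℕ) (hr : 3 ≤ r)
    (hR : (X.image Prod.fst).card = r) (hC : (X.image Prod.snd).card = r)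
    (hnr : ∀ a b c, (a, b) ∈ X → (a, c) ∈ X → b < c →
      (∃ t ∈ X.image Prod.snd, b < t ∧ t < c) ∧ (∃ t ∈ X.image Prod.snd, t < b ∨ c < t))
    (i j : ℤ) (h : ext X r i j) : ¬ ext X r i (j + 1) := by
  rintro ⟨a', b', hab', d1', d2'⟩
  obtain ⟨a, b, hab, d1, d2⟩ := h
  have ha : a ∈ X.image Prod.fst := Finset.mem_image_of_mem Prod.fst hab
  have ha' : a' ∈ X.image Prod.fst := Finset.mem_image_of_mem Prod.fst hab'
  have hb : b ∈ X.image Prod.snd := Finset.mem_image_of_mem Prod.snd hab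
  have hb' : b' ∈ X.image Prod.snd := Finset.mem_image_of_mem Prod.snd hab'
  have l1 := rkS_lt _ ha
  have l2 := rkS_lt _ ha'
  have l3 := rkS_lt _ hb
  have l4 := rkS_lt _ hb'
  rw [hR] at l1 l2
  rw [hC] at l3 l4
  have e1 : a' = a := ep12_inj ha' ha (ep12_eq l2 l1 d1' d1)
  subst e1
  -- rkS b' ≡ rkS b + 1
  have d3 : (r : ℤ) ∣ (rkS (X.image Prod.snd) b' : ℤ) - (rkS (X.image Prod.snd) b + 1) := by
    have := dvd_sub d2 d2'
    have e : j - (rkS (X.image Prod.snd) b : ℤ) - (j + 1 - rkS (X.image Prod.snd) b') =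
        (rkS (X.image Prod.snd) b' : ℤ) - (rkS (X.image Prod.snd) b + 1) := by ring
    rwa [e] at this
  obtain ⟨n, hn⟩ := d3
  have hcase : rkS (X.image Prod.snd) b' = rkS (X.image Prod.snd) b + 1 ∨
      (rkS (X.image Prod.snd) b' = 0 ∧ rkS (X.image Prod.snd) b + 1 = r) := by
    have hn1 : n < 1 := by
      by_contra hc
      have : (r : ℤ) * 1 ≤ r * n := mul_le_mul_of_nonneg_left (by omega) (by omega)
      omega
    have hn2 : -2 < n := by
      by_contra hc
      have : (r : ℤ) * n ≤ r * (-2) := mul_le_mul_of_nonneg_left (by omega) (by omega)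
      omega
    have hn3 : n = 0 ∨ n = -1 := by omega
    rcases hn3 with rfl | rfl <;> omega
  rcases Nat.lt_trichotomy b b' with h1 | h1 | h1
  · have l5 := rkS_strict _ hb h1
    obtain ⟨⟨t, ht, t1, t2⟩, _⟩ := hnr a' b b' hab hab' h1
    have l6 := rkS_strict _ hb t1
    have l7 := rkS_strict _ ht t2
    omega
  · subst h1
    omega
  · have l5 := rkS_strict _ hb' h1
    obtain ⟨_, ⟨t, ht, t1 | t1⟩⟩ := hnr a' b' b hab' hab h1
    · have l6 := rkS_strict _ ht t1
      omega
    · have l6 := rkS_strict _ hb t1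
      have l7 := rkS_lt _ ht
      rw [hC] at l7
      omega

theorem ep12_swap (X : Finset (ℕ × ℕ)) (r : ℕ) :
    ext (X.image Prod.swap) r = tr (ext X r) := by
  have e1 : (X.image Prod.swap).image Prod.fst = X.image Prod.snd := by
    rw [Finset.image_image]
    rfl
  have e2 : (X.image Prod.swap).image Prod.snd = X.image Prod.fst := by
    rw [Finset.image_image]
    rfl
  funext i j
  unfold ext tr
  rw [e1, e2]
  apply propext
  constructor
  · rintro ⟨a, b, hab, h1, h2⟩
    rw [Finset.mem_image] at hab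
    obtain ⟨p, hp, hpe⟩ := hab
    have hp1 : p.2 = a := congrArg Prod.fst hpe
    have hp2 : p.1 = b := congrArg Prod.snd hpe
    refine ⟨b, a, ?_, h2, h1⟩
    rw [← hp1, ← hp2]
    exact hp
  · rintro ⟨a, b, hab, h1, h2⟩
    exact ⟨b, a, Finset.mem_image.2 ⟨(a, b), hab, rfl⟩, h2, h1⟩

theorem ep12_mem_swap (X : Finset (ℕ × ℕ)) (a b : ℕ) :
    (a, b) ∈ X.image Prod.swap ↔ (b, a) ∈ X := by
  rw [Finset.mem_image]
  constructor
  · rintro ⟨p, hp, hpe⟩
    have hp1 : p.2 = a := congrArg Prod.fst hpe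
    have hp2 : p.1 = b := congrArg Prod.snd hpe
    rw [← hp1, ← hp2]
    exact hp
  · intro h
    exact ⟨(b, a), h, rfl⟩

theorem tor_ext (X : Finset (ℕ × ℕ)) (r : ℕ) (hr : 3 ≤ r)
    (hR : (X.image Prod.fst).card = r) (hC : (X.image Prod.snd).card = r)
    (h2r : ∀ a ∈ X.image Prod.fst, (X.filter fun p => p.1 = a).card = 2)
    (h2c : ∀ b ∈ X.image Prod.snd, (X.filter fun p => p.2 = b).card = 2)
    (hnr : ∀ a b c, (a, b) ∈ X → (a, c) ∈ X → b < c →
      (∃ t ∈ X.image Prod.snd, b < t ∧ t < c) ∧ (∃ t ∈ X.image Prod.snd, t < b ∨ c < t))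
    (hnc : ∀ a b c, (b, a) ∈ X → (c, a) ∈ X → b < c →
      (∃ t ∈ X.image Prod.fst, b < t ∧ t < c) ∧ (∃ t ∈ X.image Prod.fst, t < b ∨ c < t)) :
    Tor (r : ℤ) (ext X r) := by
  have e1 : (X.image Prod.swap).image Prod.fst = X.image Prod.snd := by
    rw [Finset.image_image]
    rfl
  have e2 : (X.image Prod.swap).image Prod.snd = X.image Prod.fst := by
    rw [Finset.image_image]
    rfl
  have h2r' : ∀ a ∈ (X.image Prod.swap).image Prod.fst,
      ((X.image Prod.swap).filter fun p => p.1 = a).card = 2 := by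
    intro a ha
    rw [e1] at ha
    rw [← h2c a ha]
    have : (X.image Prod.swap).filter (fun p => p.1 = a) =
        (X.filter fun p => p.2 = a).image Prod.swap := by
      ext ⟨u, v⟩
      rw [Finset.mem_filter, ep12_mem_swap, ep12_mem_swap, Finset.mem_filter]
    rw [this]
    exact Finset.card_image_of_injective _ Prod.swap_injective
  refine ⟨by omega, ?_, ?_, ep12_row X r hr hR hC h2r, ?_, ?_, ?_⟩
  · intro i j
    unfold ext
    simp only [ep12_dvd]
  · intro i j
    unfold ext
    simp only [ep12_dvd]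
  · intro j
    have := ep12_row (X.image Prod.swap) r hr (by rw [e1]; exact hC) (by rw [e2]; exact hR) h2r' j
    rwa [ep12_swap] at this
  · intro i j h
    exact ep12_nr X r hr hR hC hnr i j h
  · intro i j h
    have := ep12_nr (X.image Prod.swap) r hr (by rw [e1]; exact hC) (by rw [e2]; exact hR)
      (by
        intro a b c hb hc hbc
        rw [ep12_mem_swap] at hb hc
        rw [e2]
        exact hnc a b c hb hc hbc) j i
    rw [ep12_swap] at this
    exact this h

end H46K
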