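import Pool.Agent.Lib.H46K.EP6
import Pool.Agent.Lib.H46K.EP10
import Pool.Agent.Lib.H46K.EP11A
import Pool.Agent.Lib.H46K.EP11B
import Pool.Agent.Lib.H46K.EP11C
import Pool.Agent.Lib.H46K.EP11D
import Pool.Agent.Lib.H46K.EP12

/-!
# H46K, Part E-I: assembly
-/

namespace H46K

/-- ring patterns of the periodic relation give ring patterns of the finite pattern -/
theorem hasRing_of_zring (X : Finset (ℕ × ℕ)) (r : ℕ) (hr : 3 ≤ r)
    (hR : (X.image Prod.fst).card = r) (hC : (X.image Prod.snd).card = r)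
    (h : Tor (r : ℤ) (ext X r)) {k δ ε : ℤ} (hk : k = 2 ∨ k = 3) (hδ : δ = 1 ∨ δ = -1)
    (hε : ε = 1 ∨ ε = -1) (hz : ZRing (r : ℤ) k δ ε (ext X r)) : HasRing (X : Set (ℕ × ℕ)) := by
  refine ⟨k, δ, ε, hk, hδ, hε, ring_of_zring X (by omega) h.perR h.perC ?_ ?_ ?_
    (by rcases hk with rfl | rfl <;> norm_num) hz⟩
  · rintro i j hi hj ⟨a, b, hab, h1, h2⟩
    refine ⟨a, b, hab, ?_, ?_⟩
    · have h3 : rkS (X.image Prod.fst) a < (X.image Prod.fst).card :=
        rkS_lt (X.image Prod.fst) (Finset.mem_image_of_mem Prod.fst hab)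
      rw [hR] at h3
      have h4 := Int.eq_zero_of_abs_lt_dvd h1 (by rw [abs_lt]; constructor <;> omega)
      omega
    · have h3 : rkS (X.image Prod.snd) b < (X.image Prod.snd).card :=
        rkS_lt (X.image Prod.snd) (Finset.mem_image_of_mem Prod.snd hab)
      rw [hC] at h3
      have h4 := Int.eq_zero_of_abs_lt_dvd h2 (by rw [abs_lt]; constructor <;> omega)
      omega
  · intro a ha
    exact hR ▸ rkS_lt _ ha
  · intro b hb
    exact hC ▸ rkS_lt _ hb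

/-- Part E-I -/
theorem exists_phiPath (X : Finset (ℕ × ℕ)) (r : ℕ) (hr : 3 ≤ r)
    (hR : (X.image Prod.fst).card = r) (hC : (X.image Prod.snd).card = r)
    (h2r : ∀ a ∈ X.image Prod.fst, (X.filter fun p => p.1 = a).card = 2)
    (h2c : ∀ b ∈ X.image Prod.snd, (X.filter fun p => p.2 = b).card = 2)
    (hnr : ∀ a b c, (a, b) ∈ X → (a, c) ∈ X → b < c →
      (∃ t ∈ X.image Prod.snd, b < t ∧ t < c) ∧ (∃ t ∈ X.image Prod.snd, t < b ∨ c < t))
    (hnc : ∀ a b c, (b, a) ∈ X → (c, a) ∈ X → b < c →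
      (∃ t ∈ X.image Prod.fst, b < t ∧ t < c) ∧ (∃ t ∈ X.image Prod.fst, t < b ∨ c < t))
    (hno : ¬ HasRing (X : Set (ℕ × ℕ))) :
    ∃ X' l x y d, PhiPath r X' l x y d ∧ (HasRing (toSet X') → HasRing (X : Set (ℕ × ℕ))) := by
  have hT := tor_ext X r hr hR hC h2r h2c hnr hnc
  have hr0 : (0 : ℤ) < r := by exact_mod_cast (by omega : 0 < r)
  have hP : ¬ P1 (r : ℤ) (ext X r) := fun hp =>
    hno (hasRing_of_zring X r hr hR hC hT (Or.inl rfl) (Or.inl rfl) (Or.inl rfl) (zring_p1 hp))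
  obtain ⟨p, u, v, c, s, t, hg⟩ := start hT hP
  obtain ⟨l, x, y, d, hz⟩ := zpath hT hP hg
  have hpz := hz.pz hT
  have hm := hpz.mp hr0 (l 0) (l 1) (d 2) (d 3)
  have hTm := hT.mp (l 0) (l 1) (d 2) (d 3)
  refine ⟨_, _, _, _, _, phiPath_of_pz hr hTm hm ?_ ?_ ?_ ?_, ?_⟩
  · simp
  · simp
  · simp
  · simp
  · rintro ⟨k, δ, ε, hk, hδ, hε, hring⟩
    have h1 := zring_of_ring hr hTm (by rcases hk with rfl | rfl <;> norm_num) hring
    have h2 := zring_mp hr0 _ _ _ _ h1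
    refine hasRing_of_zring X r hr hR hC hT hk ?_ ?_ h2
    · unfold sg; split_ifs <;> rcases hδ with rfl | rfl <;> simp
    · unfold sg; split_ifs <;> rcases hε with rfl | rfl <;> simp

end H46K
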