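import Pool.Agent.Lib.H46K.EFin
import Pool.Agent.Lib.H46K.EP13

/-!
# H46K, Part E: the theorem `lpp`
-/

namespace H46K

/-- Part E.  A finite set `X` with exactly two points in every row and every column of its support,
such that two points in a row (column) are never cyclically adjacent in the column (row)
support, contains a ring pattern. -/
theorem lpp (X : Finset (ℕ × ℕ)) (r : ℕ) (hr : 3 ≤ r)
    (hR : (X.image Prod.fst).card = r) (hC : (X.image Prod.snd).card = r)
    (h2r : ∀ a ∈ X.image Prod.fst, (X.filter fun p => p.1 = a).card = 2)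
    (h2c : ∀ b ∈ X.image Prod.snd, (X.filter fun p => p.2 = b).card = 2)
    (hnr : ∀ a b c, (a, b) ∈ X → (a, c) ∈ X → b < c →
      (∃ t ∈ X.image Prod.snd, b < t ∧ t < c) ∧ (∃ t ∈ X.image Prod.snd, t < b ∨ c < t))
    (hnc : ∀ a b c, (b, a) ∈ X → (c, a) ∈ X → b < c →
      (∃ t ∈ X.image Prod.fst, b < t ∧ t < c) ∧ (∃ t ∈ X.image Prod.fst, t < b ∨ c < t)) :
    HasRing (X : Set (ℕ × ℕ)) := by
  by_contra hno
  obtain ⟨X', l, x, y, d, P, hP⟩ := exists_phiPath X r hr hR hC h2r h2c hnr hnc hno
  exact hno (hP (finite_lemma P))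

end H46K
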