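import Pool.Agent.Lib.H46K.EDefs

/-!
# H46K, Part E-I: periodic 2-regular relations on `ℤ × ℤ`, gaps, good corners, the pattern P1

`X : ℤ → ℤ → Prop` is `r`-periodic in both arguments; rows are the first argument. A line (row or
column) has exactly two ones modulo `r`, never cyclically adjacent. `tr X` exchanges rows and columns.
`Gap r X a x y`: the row `a` has the ones `x < y` and no others in `[x, x + r)`; so `(x, y)` and
`(y, x + r)` are the two open gaps of the row `a`.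
-/

namespace H46K

/-- the transposed relation -/
def tr (X : ℤ → ℤ → Prop) : ℤ → ℤ → Prop := fun a b => X b a

/-- `(x, y)` is a gap of the row `a` -/
structure Gap (r : ℤ) (X : ℤ → ℤ → Prop) (a x y : ℤ) : Prop where
  lt : x < y
  lt' : y < x + r
  one : ∀ b, x ≤ b → b < x + r → (X a b ↔ b = x ∨ b = y)

/-- periodic 2-regular relations without adjacent ones -/
structure Tor (r : ℤ) (X : ℤ → ℤ → Prop) : Prop where
  pos : 0 < r
  perR : ∀ a b, X (a + r) b ↔ X a b
  perC : ∀ a b, X a (b + r) ↔ X a b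
  row : ∀ a, ∃ x y, Gap r X a x y
  col : ∀ b, ∃ x y, Gap r (tr X) b x y
  nr : ∀ a b, X a b → ¬ X a (b + 1)
  nc : ∀ a b, X a b → ¬ X (a + 1) b

/-- there is a one in the box `[a, a') × [b, b')` -/
def Hit (X : ℤ → ℤ → Prop) (a a' b b' : ℤ) : Prop :=
  ∃ i j, a ≤ i ∧ i < a' ∧ b ≤ j ∧ j < b' ∧ X i j

/-- the pattern P1 with explicit cut points -/
def P1 (r : ℤ) (X : ℤ → ℤ → Prop) : Prop :=
  ∃ p0 p1 p2 p3 c0 c1 c2 c3 : ℤ, (p0 < p1 ∧ p1 < p2 ∧ p2 < p3 ∧ p3 < p0 + r) ∧
    (c0 < c1 ∧ c1 < c2 ∧ c2 < c3 ∧ c3 < c0 + r) ∧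
    (Hit X p0 p1 c1 c2 ∧ Hit X p0 p1 c3 (c0 + r) ∧ Hit X p2 p3 c1 c2 ∧ Hit X p2 p3 c3 (c0 + r)) ∧
    (Hit X p1 p2 c0 c1 ∧ Hit X p1 p2 c2 c3 ∧ Hit X p3 (p0 + r) c0 c1 ∧ Hit X p3 (p0 + r) c2 c3)

/-- good corners: `(u, v)` is a gap of the row `p`, `c` a column in it, `(s, t)` the gap of the column
`c` not containing `p`, and there is no one in `(s, t) × (u, v)` -/
structure GC (r : ℤ) (X : ℤ → ℤ → Prop) (p u v c s t : ℤ) : Prop where
  gp : Gap r X p u v
  uc : u < c
  cv : c < v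
  gc : Gap r (tr X) c s t
  ps : p < s
  tp : t < p + r
  emp : ∀ a b, s < a → a < t → u < b → b < v → ¬ X a b

variable {r : ℤ} {X : ℤ → ℤ → Prop}

theorem tr_tr (X : ℤ → ℤ → Prop) : tr (tr X) = X := rfl

theorem Tor.tr (h : Tor r X) : Tor r (tr X) :=
  ⟨h.pos, fun a b => h.perC b a, fun a b => h.perR b a, h.col, h.row,
    fun a b hx => h.nc b a hx, fun a b hx => h.nr b a hx⟩

theorem Hit.tr {a a' b b' : ℤ} (h : Hit X a a' b b') : Hit (H46K.tr X) b b' a a' := by
  obtain ⟨i, j, h1, h2, h3, h4, h5⟩ := h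
  exact ⟨j, i, h3, h4, h1, h2, h5⟩

theorem P1.tr (h : P1 r X) : P1 r (H46K.tr X) := by
  obtain ⟨p0, p1, p2, p3, c0, c1, c2, c3, hp, hc, ⟨h1, h2, h3, h4⟩, h5, h6, h7, h8⟩ := h
  exact ⟨c0, c1, c2, c3, p0, p1, p2, p3, hc, hp, ⟨h5.tr, h7.tr, h6.tr, h8.tr⟩,
    h1.tr, h3.tr, h2.tr, h4.tr⟩

theorem Tor.perRn (h : Tor r X) (n a b : ℤ) : X (a + n * r) b ↔ X a b := by
  induction n using Int.induction_on with
  | zero => simp
  | succ n ih => rw [← ih, show a + ((n : ℤ) + 1) * r = (a + n * r) + r by ring, h.perR]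
  | pred n ih =>
    rw [← ih, show a + (-(n : ℤ)) * r = (a + (-(n : ℤ) - 1) * r) + r by ring, h.perR]

theorem Tor.perCn (h : Tor r X) (n a b : ℤ) : X a (b + n * r) ↔ X a b := h.tr.perRn n b a

/-- the other gap -/
theorem Gap.compl (h : Tor r X) {a x y : ℤ} (g : Gap r X a x y) : Gap r X a y (x + r) := by
  refine ⟨g.lt', by linarith [g.lt], fun b h1 h2 => ?_⟩
  by_cases hb : b < x + r
  · rw [g.one b (by linarith [g.lt]) hb]
    constructor
    · rintro (rfl | rfl)
      · linarith [g.lt]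
      · exact Or.inl rfl
    · rintro (rfl | rfl)
      · exact Or.inr rfl
      · exact absurd hb (lt_irrefl _)
  · have e : X a b ↔ X a (b - r) := by
      have := h.perC a (b - r); rw [sub_add_cancel] at this; exact this
    rw [e, g.one (b - r) (by linarith) (by linarith [g.lt'])]
    constructor
    · rintro (h3 | h3)
      · exact Or.inr (by linarith)
      · exfalso; linarith
    · rintro (h3 | h3)
      · exfalso; linarith [g.lt']
      · exact Or.inl (by linarith)

/-- translates of a gap -/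
theorem Gap.shift (h : Tor r X) {a x y : ℤ} (g : Gap r X a x y) (n : ℤ) :
    Gap r X a (x + n * r) (y + n * r) := by
  refine ⟨by linarith [g.lt], by linarith [g.lt'], fun b h1 h2 => ?_⟩
  have e : X a b ↔ X a (b - n * r) := by
    have := h.perCn n a (b - n * r); rw [sub_add_cancel] at this; exact this
  rw [e, g.one _ (by linarith) (by linarith)]
  constructor
  · rintro (h3 | h3)
    · exact Or.inl (by linarith)
    · exact Or.inr (by linarith)
  · rintro (h3 | h3)
    · exact Or.inl (by linarith)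
    · exact Or.inr (by linarith)

theorem Gap.left {a x y : ℤ} (g : Gap r X a x y) : X a x :=
  (g.one x le_rfl (by linarith [g.lt, g.lt'])).mpr (Or.inl rfl)

theorem Gap.right {a x y : ℤ} (g : Gap r X a x y) : X a y :=
  (g.one y g.lt.le g.lt').mpr (Or.inr rfl)

theorem Gap.not {a x y b : ℤ} (g : Gap r X a x y) (h1 : x < b) (h2 : b < y) : ¬ X a b := by
  rw [g.one b h1.le (by linarith [g.lt'])]
  rintro (rfl | rfl)
  · exact lt_irrefl _ h1
  · exact lt_irrefl _ h2

/-- gaps are not empty -/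
theorem Gap.two (h : Tor r X) {a x y : ℤ} (g : Gap r X a x y) : x + 1 < y := by
  rcases lt_or_eq_of_le (Int.add_one_le_iff.mpr g.lt) with h1 | h1
  · exact h1
  · exact absurd (h1 ▸ g.right) (h.nr a x g.left)

end H46K
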