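import Pool.Agent.Lib.H46K.EP0

/-!
# H46K, Part E-I, chunk EP1: elementary facts on gaps

`gap_off`: take the gap `x0 < y0` of the row `a` (`h.row`), translate it by a multiple `n * r` such that
`x0 + n r ≤ c < x0 + n r + r` (`n = (c - x0) / r`, `Gap.shift`); `c ≠ x0 + n r, y0 + n r` as there is no one at
`(a, c)`. If `x0 < c < y0`: the complementary gap `(y0, x0 + r)` (`Gap.compl`) works; if
`y0 < c < x0 + r`: the gap `(x0 + r, y0 + r)` works.
`gap_mk`: translate the gap `(x, y)` of `h.row a` such that `x ≤ z1 < x + r`; `z1 = x`, then `z2 = y` by `one`, or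
`z1 = y`, then `z2 = x + r` by `Gap.compl`.
`window`: translate the gap such that `w ≤ x < w + r`; if `y < w + r` take `x < y`, otherwise `y - r < x` (and
`w ≤ y - r`).
-/

namespace H46K

variable {r : ℤ} {X : ℤ → ℤ → Prop}

/-- a gap whose left end is in the window `(c - r, c]` -/
theorem EP1_near (h : Tor r X) (a c : ℤ) : ∃ x y, x ≤ c ∧ c < x + r ∧ Gap r X a x y := by
  obtain ⟨x, y, g⟩ := h.row a
  have hr : (0 : ℤ) < r := h.pos
  refine ⟨x + ((c - x) / r) * r, y + ((c - x) / r) * r, ?_, ?_, g.shift h _⟩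
  · have h1 := Int.emod_add_mul_ediv (c - x) r
    have h2 := Int.emod_nonneg (c - x) hr.ne'
    nlinarith
  · have h1 := Int.emod_add_mul_ediv (c - x) r
    have h2 := Int.emod_lt_of_pos (c - x) hr
    nlinarith

/-- the gap of the row `a` that does not contain the column `c` -/
theorem gap_off (h : Tor r X) {a c : ℤ} (hc : ¬ X a c) :
    ∃ x y, c < x ∧ y < c + r ∧ Gap r X a x y := by
  obtain ⟨x, y, h1, h2, g⟩ := EP1_near h a c
  have hx : x ≠ c := fun e => hc (e ▸ g.left)
  have hy : y ≠ c := fun e => hc (e ▸ g.right)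
  rcases lt_or_gt_of_ne hy with h3 | h3
  · have g2 := g.shift h 1
    rw [one_mul] at g2
    exact ⟨x + r, y + r, h2, by linarith, g2⟩
  · have h4 : x < c := lt_of_le_of_ne h1 hx
    exact ⟨y, x + r, h3, by linarith, g.compl h⟩

/-- two ones in a window are the ends of a gap -/
theorem gap_mk (h : Tor r X) {a z1 z2 : ℤ} (h1 : X a z1) (h2 : X a z2) (h12 : z1 < z2)
    (h21 : z2 < z1 + r) : Gap r X a z1 z2 := by
  obtain ⟨x, y, h3, h4, g⟩ := EP1_near h a z1
  rcases (g.one z1 h3 h4).mp h1 with e | e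
  · subst e
    rcases (g.one z2 h12.le h21).mp h2 with e | e
    · exact absurd h12 (by rw [e]; exact lt_irrefl _)
    · subst e; exact g
  · subst e
    have g2 := g.compl h
    rcases (g2.one z2 h12.le h21).mp h2 with e | e
    · exact absurd h12 (by rw [e]; exact lt_irrefl _)
    · subst e; exact g2

/-- every window of length `r` contains two ones of the row `a` -/
theorem window (h : Tor r X) (a w : ℤ) :
    ∃ z1 z2, w ≤ z1 ∧ z1 < z2 ∧ z2 < w + r ∧ X a z1 ∧ X a z2 := by
  obtain ⟨x, y, h1, h2, g⟩ := EP1_near h a w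
  have g2 := g.compl h
  rcases lt_or_ge y w with h3 | h3
  · have g3 := g2.compl h
    exact ⟨x + r, y + r, h2.le, by linarith [g.lt], by linarith, g3.left, g3.right⟩
  · rcases eq_or_lt_of_le h1 with h4 | h4
    · subst h4
      exact ⟨x, y, le_rfl, g.lt, g.lt', g.left, g.right⟩
    · exact ⟨y, x + r, h3, g.lt', by linarith, g.right, g2.right⟩

end H46K
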