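import Pool.Agent.Lib.H46K.EP9

/-!
# H46K, Part E-I: ring patterns of periodic relations, ranks (definitions)
-/

namespace H46K

/-- ring patterns for periodic relations -/
def ZRing (r k δ ε : ℤ) (X : ℤ → ℤ → Prop) : Prop :=
  ∃ H G : ℤ → ℤ, Monotone H ∧ Monotone G ∧ (∀ a, H (a + r) = H a + 2 * k) ∧
    (∀ b, G (b + r) = G b + 2 * k) ∧
    (∀ i s : ℤ, (s = 1 ∨ s = -1) → ∃ a b, X a b ∧
      H a ≡ δ * (2 * i) [ZMOD 2 * k] ∧ G b ≡ ε * (2 * (i + 1)) + s [ZMOD 2 * k]) ∧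
    (∀ j s : ℤ, (s = 1 ∨ s = -1) → ∃ a b, X a b ∧
      H a ≡ δ * (2 * j) + s [ZMOD 2 * k] ∧ G b ≡ ε * (2 * j) [ZMOD 2 * k])

/-- rank in a finite set -/
def rkS (S : Finset ℕ) (a : ℕ) : ℕ := (S.filter fun s => s < a).card

/-- the relation on natural numbers `< r` -/
def natRel (r : ℕ) (X : ℤ → ℤ → Prop) (a b : ℕ) : Prop := a < r ∧ b < r ∧ X a b

end H46K
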