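import Pool.Agent.Lib.H46K.EP11

/-!
# H46K, Part E-I, chunk EP12A: ranks

`rkS_lt`: the filter does not contain `a` itself. `rkS_strict`: the filter for `b` contains the filter for `a` and `a`. `rkS_surj`: `rkS S` maps `S`
injectively (`rkS_strict`) into `Finset.range S.card`, so it is onto (`Finset.surj_on_of_inj_on_of_card_le` or
`Finset.eq_of_subset_of_card_le` for the image).
-/

namespace H46K

theorem rkS_lt (S : Finset ℕ) {a : ℕ} (ha : a ∈ S) : rkS S a < S.card := by
  unfold rkS
  apply Finset.card_lt_card
  refine ⟨Finset.filter_subset _ _, fun h => ?_⟩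
  have := h ha
  rw [Finset.mem_filter] at this
  exact lt_irrefl _ this.2

theorem rkS_strict (S : Finset ℕ) {a b : ℕ} (ha : a ∈ S) (hab : a < b) : rkS S a < rkS S b := by
  unfold rkS
  apply Finset.card_lt_card
  refine ⟨fun x hx => ?_, fun h => ?_⟩
  · rw [Finset.mem_filter] at hx ⊢
    exact ⟨hx.1, hx.2.trans hab⟩
  · have := h (Finset.mem_filter.mpr ⟨ha, hab⟩)
    rw [Finset.mem_filter] at this
    exact lt_irrefl _ this.2

theorem rkS_surj (S : Finset ℕ) {i : ℕ} (hi : i < S.card) : ∃ a ∈ S, rkS S a = i := by
  have hinj : Set.InjOn (rkS S) (S : Set ℕ) := by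
    intro a ha b hb hab
    rcases lt_trichotomy a b with h | h | h
    · exact absurd hab (rkS_strict S ha h).ne
    · exact h
    · exact absurd hab (rkS_strict S hb h).ne'
  have hsub : S.image (rkS S) ⊆ Finset.range S.card := by
    intro x hx
    obtain ⟨a, ha, rfl⟩ := Finset.mem_image.mp hx
    exact Finset.mem_range.mpr (rkS_lt S ha)
  have heq := Finset.eq_of_subset_of_card_le hsub (by
    rw [Finset.card_image_of_injOn hinj, Finset.card_range])
  have := heq ▸ Finset.mem_range.mpr hi
  exact Finset.mem_image.mp this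

end H46K
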