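import Pool.Agent.Lib.H46K.EP0

/-!
# H46K, Part E-I, chunk EP2: the block lemma

The row blocks `{p}`, `(p, a)`, `[a, a2)`, `[a2, p + r)` and the column blocks `{c}`, `(c, x']`, `(x', y')`,
`[y', c + r)` form a P1: cuts `p0 = p, p + 1, a, a2` and `c0 = c, c + 1, x' + 1, y'`.
Row `p` hits `(c, x']` in `v` and `[y', c + r)` in `u + r` (periodicity); the block `[a, a2)` by `hl`, `hr`;
the column `c` is hit by `s ∈ (p, a)` and `t ∈ [a2, p + r)`; the block `(x', y')` by `h1`, `h3`.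
-/

namespace H46K

variable {r : ℤ} {X : ℤ → ℤ → Prop}

theorem p1_block (h : Tor r X) {p u v c s t a a2 x' y' : ℤ} (hpu : X p u) (hpv : X p v)
    (huc : u < c) (hcv : c < v) (hs : X s c) (ht : X t c) (hps : p < s) (hsa : s < a)
    (haa : a < a2) (hat : a2 ≤ t) (htp : t < p + r) (hvX : v ≤ x') (hYu : y' ≤ u + r)
    (hne : x' + 1 < y')
    (hl : ∃ i x, a ≤ i ∧ i < a2 ∧ c < x ∧ x ≤ x' ∧ X i x)
    (hr : ∃ i y, a ≤ i ∧ i < a2 ∧ y' ≤ y ∧ y < c + r ∧ X i y)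
    (h1 : ∃ i b, p < i ∧ i < a ∧ x' < b ∧ b < y' ∧ X i b)
    (h3 : ∃ i b, a2 ≤ i ∧ i < p + r ∧ x' < b ∧ b < y' ∧ X i b) : P1 r X := by
  obtain ⟨i1, b1, hl1, hl2, hl3, hl4, hl5⟩ := hl
  obtain ⟨i2, b2, hr1, hr2, hr3, hr4, hr5⟩ := hr
  obtain ⟨i3, b3, ha1, ha2, ha3, ha4, ha5⟩ := h1
  obtain ⟨i4, b4, hb1, hb2, hb3, hb4, hb5⟩ := h3
  refine ⟨p, p + 1, a, a2, c, c + 1, x' + 1, y', ⟨by linarith, by omega, by linarith, by linarith⟩,
    ⟨by linarith, by linarith, by linarith, by linarith⟩, ⟨?_, ?_, ?_, ?_⟩, ?_, ?_, ?_, ?_⟩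
  · exact ⟨p, v, le_rfl, by linarith, by omega, by linarith, hpv⟩
  · exact ⟨p, u + r, le_rfl, by linarith, by linarith, by linarith, (h.perC p u).mpr hpu⟩
  · exact ⟨i1, b1, hl1, hl2, by omega, by linarith, hl5⟩
  · exact ⟨i2, b2, hr1, hr2, hr3, hr4, hr5⟩
  · exact ⟨s, c, by omega, hsa, le_rfl, by linarith, hs⟩
  · exact ⟨i3, b3, by omega, ha2, by omega, ha4, ha5⟩
  · exact ⟨t, c, hat, htp, le_rfl, by linarith, ht⟩
  · exact ⟨i4, b4, hb1, hb2, by omega, hb4, hb5⟩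

end H46K
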