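import Pool.Agent.Lib.H46K.EP1
import Pool.Agent.Lib.H46K.EP2

/-!
# H46K, Part E-I, chunk EP3: types are constant

Setting: `(u, v)` is a gap of the row `p`, `c` a column in it, `s < t` the two ones of the column `c` after
`p`; for every row `a` in `(s', t') ⊆ (s, t)`: `(x a, y a)` is the gap of `a` not containing `c`, and
`(x' a, y' a) = (max (x a) v, min (y a) (u + r))` its part outside of the closed gap `[u, v]`, not empty.

Put `U a`: no one in `(p, a) × (x' a, y' a)`; `D a`: no one in `(a, p + r) × (x' a, y' a)`.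
(1) `U a ∨ D a`: otherwise `p1_block` with `a2 = a + 1` (`hl`: `(a, x a)`, `hr`: `(a, y a)`) is a P1.
(2) not `(U a ∧ D (a+1))`, not `(D a ∧ U (a+1))` for `a`, `a + 1` in `(s', t')`: `p1_block` with `a2 = a + 2`,
 `x' = min (x' a) (x' (a+1))`, `y' = max (y' a) (y' (a+1))`. `hl`: if `x' a ≤ x' (a+1)` the one `(a, x a)`,
 otherwise `(a+1, x (a+1))`; `hr` similarly. For `h1`, `h3`: let `b = x' a + 1`, `b' = x' (a+1) + 1` (in the
 nonempty intervals). The window `[p, p + r)` of the column `b` contains two ones `z1 < z2` (`window` for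
 `tr X`), different from `p` (`v < b < u + r`, complementary gap of `p`) and from `a` (`b` in the gap of `a`).
 - `U a`: both are in `(a, p + r)`, so `z2 ≥ a + 2`: `h3`. `D (a+1)`: the ones of `b'` are `≠ a + 1`, not in
   `(a+1, p+r)`, so both in `(p, a + 1)`, and the smaller one in `(p, a)`: `h1`.
 - `D a`: the ones of `b` are in `(p, a)`: `h1`. `U (a+1)`: the ones of `b'` are in `(a+1, p+r)`: `h3`.
(3) If `U a` fails for one `a0` then `D a0`, and `D` propagates to all `a` of `(s', t')` in both directions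
 (`Int.le_induction`, `Int.le_induction_down`) by (1), (2).
-/

namespace H46K

variable {r : ℤ} {X : ℤ → ℤ → Prop}

/-- Type of one row. -/
theorem type_one (h : Tor r X) (hP : ¬ P1 r X) {p u v c s t a xa ya : ℤ}
    (hg : Gap r X p u v) (huc : u < c) (hcv : c < v) (hs : X s c) (ht : X t c) (hps : p < s)
    (htp : t < p + r) (hsa : s < a) (hat : a < t) (hcx : c < xa) (hyc : ya < c + r)
    (hga : Gap r X a xa ya) (hne : max xa v + 1 < min ya (u + r)) :
    (∀ i, p < i → i < a → ∀ b, max xa v < b → b < min ya (u + r) → ¬ X i b) ∨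
    (∀ i, a < i → i < p + r → ∀ b, max xa v < b → b < min ya (u + r) → ¬ X i b) := by
  by_contra hcon
  push_neg at hcon
  obtain ⟨⟨i, hi1, hi2, b, hb1, hb2, hb3⟩, ⟨j, hj1, hj2, d, hd1, hd2, hd3⟩⟩ := hcon
  apply hP
  refine p1_block h (a2 := a + 1) (x' := max xa v) (y' := min ya (u + r)) hg.left hg.right huc hcv
    hs ht hps hsa (by linarith) (by linarith) htp (le_max_right _ _) (min_le_right _ _) hne
    ⟨a, xa, le_rfl, by linarith, hcx, le_max_left _ _, hga.left⟩
    ⟨a, ya, le_rfl, by linarith, min_le_left _ _, hyc, hga.right⟩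
    ⟨i, b, hi1, hi2, hb1, hb2, hb3⟩ ⟨j, d, by linarith, hj2, hd1, hd2, hd3⟩

/-- Two adjacent rows have compatible types. -/
theorem type_two (h : Tor r X) (hP : ¬ P1 r X) {p u v c s t a x1 y1 x2 y2 : ℤ}
    (hg : Gap r X p u v) (huc : u < c) (hcv : c < v) (hs : X s c) (ht : X t c) (hps : p < s)
    (htp : t < p + r) (hsa : s < a) (hat : a + 1 < t) (hcx1 : c < x1) (hyc1 : y1 < c + r)
    (hcx2 : c < x2) (hyc2 : y2 < c + r)
    (hg1 : Gap r X a x1 y1) (hg2 : Gap r X (a + 1) x2 y2)
    (h1 : ∃ i b, p < i ∧ i < a ∧ min (max x1 v) (max x2 v) < b ∧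
      b < max (min y1 (u + r)) (min y2 (u + r)) ∧ X i b)
    (h3 : ∃ i b, a + 2 ≤ i ∧ i < p + r ∧ min (max x1 v) (max x2 v) < b ∧
      b < max (min y1 (u + r)) (min y2 (u + r)) ∧ X i b)
    (hne : max x1 v + 1 < min y1 (u + r)) : False := by
  apply hP
  refine p1_block h (a2 := a + 2) (x' := min (max x1 v) (max x2 v))
    (y' := max (min y1 (u + r)) (min y2 (u + r))) hg.left hg.right huc hcv
    hs ht hps hsa (by linarith) (by linarith) htp (le_min (le_max_right _ _) (le_max_right _ _))
    (max_le (min_le_right _ _) (min_le_right _ _)) ?_ ?_ ?_ h1 h3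
  · exact lt_of_le_of_lt (by have := min_le_left (max x1 v) (max x2 v); linarith)
      (lt_of_lt_of_le hne (le_max_left _ _))
  · rcases le_total (max x1 v) (max x2 v) with hm | hm
    · rw [min_eq_left hm]
      exact ⟨a, x1, le_rfl, by linarith, hcx1, le_max_left _ _, hg1.left⟩
    · rw [min_eq_right hm]
      exact ⟨a + 1, x2, by linarith, by linarith, hcx2, le_max_left _ _, hg2.left⟩
  · rcases le_total (min y1 (u + r)) (min y2 (u + r)) with hm | hm
    · rw [max_eq_right hm]
      exact ⟨a + 1, y2, by linarith, by linarith, min_le_left _ _, hyc2, hg2.right⟩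
    · rw [max_eq_left hm]
      exact ⟨a, y1, le_rfl, by linarith, min_le_left _ _, hyc1, hg1.right⟩

/-- The two ones of a column `b` outside of the closed gap of `p` and inside the gap of `a`. -/
theorem ones_of (h : Tor r X) {p u v a xa ya b : ℤ} (hg : Gap r X p u v)
    (hga : Gap r X a xa ya) (hb1 : max xa v < b) (hb2 : b < min ya (u + r)) :
    ∃ z1 z2, p < z1 ∧ z1 < z2 ∧ z2 < p + r ∧ X z1 b ∧ X z2 b ∧ z1 ≠ a ∧ z2 ≠ a := by
  obtain ⟨z1, z2, h1, h2, h3, h4, h5⟩ := window h.tr b p
  have hp : ¬ X p b := (hg.compl h).not (lt_of_le_of_lt (le_max_right _ _) hb1)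
    (lt_of_lt_of_le hb2 (min_le_right _ _))
  have ha : ¬ X a b := hga.not (lt_of_le_of_lt (le_max_left _ _) hb1)
    (lt_of_lt_of_le hb2 (min_le_left _ _))
  refine ⟨z1, z2, lt_of_le_of_ne h1 ?_, h2, h3, h4, h5, ?_, ?_⟩
  · rintro rfl; exact hp h4
  · rintro rfl; exact ha h4
  · rintro rfl; exact ha h5

theorem typegen (h : Tor r X) (hP : ¬ P1 r X) {p u v c s t s' t' : ℤ} (x y : ℤ → ℤ)
    (hg : Gap r X p u v) (huc : u < c) (hcv : c < v) (hs : X s c) (ht : X t c) (hps : p < s)
    (htp : t < p + r) (hss : s ≤ s') (htt : t' ≤ t)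
    (hx : ∀ a, s' < a → a < t' → c < x a ∧ y a < c + r ∧ Gap r X a (x a) (y a))
    (hne : ∀ a, s' < a → a < t' → max (x a) v + 1 < min (y a) (u + r)) :
    (∀ a, s' < a → a < t' → ∀ i, p < i → i < a → ∀ b, max (x a) v < b → b < min (y a) (u + r) →
      ¬ X i b) ∨
    (∀ a, s' < a → a < t' → ∀ i, a < i → i < p + r → ∀ b, max (x a) v < b →
      b < min (y a) (u + r) → ¬ X i b) := by
  set U : ℤ → Prop := fun a => ∀ i, p < i → i < a → ∀ b, max (x a) v < b →
    b < min (y a) (u + r) → ¬ X i b with hU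
  set D : ℤ → Prop := fun a => ∀ i, a < i → i < p + r → ∀ b, max (x a) v < b →
    b < min (y a) (u + r) → ¬ X i b with hD
  have key1 : ∀ a, s' < a → a < t' → U a ∨ D a := by
    intro a ha1 ha2
    obtain ⟨h1, h2, h3⟩ := hx a ha1 ha2
    exact type_one h hP hg huc hcv hs ht hps htp (by linarith) (by linarith) h1 h2 h3
      (hne a ha1 ha2)
  have key2 : ∀ a, s' < a → a + 1 < t' → ¬ (U a ∧ D (a + 1)) := by
    rintro a ha1 ha2 ⟨hUa, hDa⟩
    obtain ⟨h1, h2, h3⟩ := hx a ha1 (by linarith)
    obtain ⟨h4, h5, h6⟩ := hx (a + 1) (by linarith) ha2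
    have n1 := hne a ha1 (by linarith)
    have n2 := hne (a + 1) (by linarith) ha2
    obtain ⟨z1, z2, q1, q2, q3, q4, q5, q6, q7⟩ := ones_of h (b := max (x a) v + 1) hg h3
      (by linarith) n1
    obtain ⟨w1, w2, g1, g2, g3, g4, g5, g6, g7⟩ := ones_of h (b := max (x (a + 1)) v + 1) hg h6
      (by linarith) n2
    have e1 : a < z1 := by
      rcases lt_trichotomy z1 a with e | e | e
      · exact absurd q4 (hUa z1 q1 e _ (by linarith) n1)
      · exact absurd e q6
      · exact e
    have e2 : w2 < a + 1 := by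
      rcases lt_trichotomy w2 (a + 1) with e | e | e
      · exact e
      · exact absurd e g7
      · exact absurd g5 (hDa w2 e g3 _ (by linarith) n2)
    refine type_two h hP hg huc hcv hs ht hps htp (a := a) (by linarith) (by linarith) h1 h2 h4 h5
      h3 h6 ⟨w1, _, g1, by linarith, ?_, ?_, g4⟩ ⟨z2, _, by linarith, q3, ?_, ?_, q5⟩ n1
    · exact lt_of_le_of_lt (min_le_right _ _) (by linarith)
    · exact lt_of_lt_of_le n2 (le_max_right _ _)
    · exact lt_of_le_of_lt (min_le_left _ _) (by linarith)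
    · exact lt_of_lt_of_le n1 (le_max_left _ _)
  have key3 : ∀ a, s' < a → a + 1 < t' → ¬ (D a ∧ U (a + 1)) := by
    rintro a ha1 ha2 ⟨hDa, hUa⟩
    obtain ⟨h1, h2, h3⟩ := hx a ha1 (by linarith)
    obtain ⟨h4, h5, h6⟩ := hx (a + 1) (by linarith) ha2
    have n1 := hne a ha1 (by linarith)
    have n2 := hne (a + 1) (by linarith) ha2
    obtain ⟨z1, z2, q1, q2, q3, q4, q5, q6, q7⟩ := ones_of h (b := max (x a) v + 1) hg h3
      (by linarith) n1
    obtain ⟨w1, w2, g1, g2, g3, g4, g5, g6, g7⟩ := ones_of h (b := max (x (a + 1)) v + 1) hg h6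
      (by linarith) n2
    have e1 : z1 < a := by
      rcases lt_trichotomy z1 a with e | e | e
      · exact e
      · exact absurd e q6
      · exact absurd q4 (hDa z1 e (by linarith) _ (by linarith) n1)
    have e2 : a + 1 < w2 := by
      rcases lt_trichotomy w2 (a + 1) with e | e | e
      · exact absurd g5 (hUa w2 (by linarith) e _ (by linarith) n2)
      · exact absurd e g7
      · exact e
    refine type_two h hP hg huc hcv hs ht hps htp (a := a) (by linarith) (by linarith) h1 h2 h4 h5
      h3 h6 ⟨z1, _, q1, e1, ?_, ?_, q4⟩ ⟨w2, _, by linarith, g3, ?_, ?_, g5⟩ n1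
    · exact lt_of_le_of_lt (min_le_left _ _) (by linarith)
    · exact lt_of_lt_of_le n1 (le_max_left _ _)
    · exact lt_of_le_of_lt (min_le_right _ _) (by linarith)
    · exact lt_of_lt_of_le n2 (le_max_right _ _)
  by_cases hall : ∀ a, s' < a → a < t' → U a
  · exact Or.inl hall
  · right
    push_neg at hall
    obtain ⟨a0, h1, h2, h3⟩ := hall
    have h4 : D a0 := (key1 a0 h1 h2).resolve_left h3
    have up : ∀ a, a0 ≤ a → a < t' → D a := by
      intro a ha
      induction a, ha using Int.le_induction with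
      | base => exact fun _ => h4
      | succ m hm ih =>
        intro hm2
        have h5 := ih (by linarith)
        exact (key1 (m + 1) (by linarith) hm2).resolve_left
          fun h6 => key3 m (by linarith) hm2 ⟨h5, h6⟩
    have down : ∀ a, a ≤ a0 → s' < a → D a := by
      intro a ha
      induction a, ha using Int.le_induction_down with
      | base => exact fun _ => h4
      | pred m hm ih =>
        intro hm2
        have h5 := ih (by linarith)
        refine (key1 (m - 1) (by linarith) (by linarith)).resolve_left fun h6 =>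
          key2 (m - 1) (by linarith) (by linarith) ⟨h6, ?_⟩
        rw [sub_add_cancel]; exact h5
    intro a ha1 ha2
    rcases le_total a0 a with hh | hh
    · exact up a hh ha2
    · exact down a hh ha1

end H46K
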