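import Pool.Agent.Lib.H46K.EP3

/-!
# H46K, Part E-I, chunk EP4: the half step

For `a ∈ (s, t)`: `¬ X a c` (gap of the column `c`), `gap_off` gives the gap `(x a, y a)` not containing `c`
(choose functions `x`, `y`, e.g. with `choose!` or classical `if`). As row `a` has no one in `(u, v)` (`emp`), `v ≤ x a` and
`y a ≤ u + r` (otherwise `y a - r ∈ (u, v)`). So `max (x a) v = x a`, `min (y a) (u + r) = y a`, and the intervals are
nonempty by `Gap.two`. `typegen` with `s' = s`, `t' = t`.
First alternative: `m = t - 1` (`s < m` by `Gap.two` for `tr X`), `d = true`: rows `a` with `p ≤ a < t`: `a = p`: no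
ones in `(v, u + r)` (complementary gap); `a = m`: own gap; else the alternative.
Second alternative: `m = s + 1`, `d = false`; the row `p + r` is like `p`.
-/

namespace H46K

variable {r : ℤ} {X : ℤ → ℤ → Prop}

/-- the relation between consecutive good corners -/
structure Step (r : ℤ) (X : ℤ → ℤ → Prop) (p u v c s t : ℤ) (d : Bool) (m x y : ℤ) : Prop where
  gap : Gap r X m x y
  sm : s < m
  mt : m < t
  cx : c < x
  yc : y < c + r
  vx : v ≤ x
  yu : y ≤ u + r
  hp : d = true → m = t - 1 ∧ ∀ a, p ≤ a → a < t → ∀ b, x < b → b < y → ¬ X a b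
  hm : d = false → m = s + 1 ∧ ∀ a, s < a → a ≤ p + r → ∀ b, x < b → b < y → ¬ X a b

theorem halfstep (h : Tor r X) (hP : ¬ P1 r X) {p u v c s t : ℤ} (hg : GC r X p u v c s t) :
    ∃ d m x y, Step r X p u v c s t d m x y := by
  have hXs : X s c := hg.gc.left
  have hXt : X t c := hg.gc.right
  have hnc : ∀ a, s < a → a < t → ¬ X a c := fun a h1 h2 => hg.gc.not h1 h2
  have hex : ∀ a, ∃ x y, s < a → a < t → c < x ∧ y < c + r ∧ Gap r X a x y := by
    intro a
    by_cases h1 : s < a ∧ a < t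
    · obtain ⟨x, y, h2⟩ := gap_off h (hnc a h1.1 h1.2)
      exact ⟨x, y, fun _ _ => h2⟩
    · exact ⟨0, 0, fun h2 h3 => absurd ⟨h2, h3⟩ h1⟩
  choose x y hxy using hex
  have hvx : ∀ a, s < a → a < t → v ≤ x a := by
    intro a h1 h2
    by_contra hcon
    push Not at hcon
    obtain ⟨h3, h4, h5⟩ := hxy a h1 h2
    exact hg.emp a (x a) h1 h2 (by linarith [hg.uc]) hcon h5.left
  have hyu : ∀ a, s < a → a < t → y a ≤ u + r := by
    intro a h1 h2
    by_contra hcon
    push Not at hcon
    obtain ⟨h3, h4, h5⟩ := hxy a h1 h2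
    refine hg.emp a (y a - r) h1 h2 (by linarith) (by linarith [hg.cv]) ?_
    have := h.perC a (y a - r)
    rw [sub_add_cancel] at this
    exact this.mp h5.right
  have hne : ∀ a, s < a → a < t → max (x a) v + 1 < min (y a) (u + r) := by
    intro a h1 h2
    obtain ⟨h3, h4, h5⟩ := hxy a h1 h2
    rw [max_eq_left (hvx a h1 h2), min_eq_left (hyu a h1 h2)]
    exact h5.two h
  have hst : s + 1 < t := hg.gc.two h.tr
  rcases typegen h hP x y hg.gp hg.uc hg.cv hXs hXt hg.ps hg.tp le_rfl le_rfl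
    (fun a h1 h2 => hxy a h1 h2) hne with hU | hD
  · have hm1 : s < t - 1 := by linarith
    have hm2 : t - 1 < t := by linarith
    obtain ⟨h3, h4, h5⟩ := hxy (t - 1) hm1 hm2
    have hv := hvx (t - 1) hm1 hm2
    have hy := hyu (t - 1) hm1 hm2
    refine ⟨true, t - 1, x (t - 1), y (t - 1), h5, hm1, hm2, h3, h4, hv, hy, fun _ => ⟨rfl, ?_⟩,
      fun h6 => absurd h6 (by decide)⟩
    intro a ha1 ha2 b hb1 hb2
    rcases eq_or_lt_of_le ha1 with e | e
    · rw [← e]
      exact (hg.gp.compl h).not (by linarith) (by linarith)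
    · rcases eq_or_lt_of_le (Int.le_sub_one_of_lt ha2) with e2 | e2
      · rw [e2]
        exact h5.not hb1 hb2
      · refine hU (t - 1) hm1 hm2 a e e2 b ?_ ?_
        · rw [max_eq_left hv]; exact hb1
        · rw [min_eq_left hy]; exact hb2
  · have hm1 : s < s + 1 := by linarith
    obtain ⟨h3, h4, h5⟩ := hxy (s + 1) hm1 hst
    have hv := hvx (s + 1) hm1 hst
    have hy := hyu (s + 1) hm1 hst
    refine ⟨false, s + 1, x (s + 1), y (s + 1), h5, hm1, hst, h3, h4, hv, hy,
      fun h6 => absurd h6 (by decide), fun _ => ⟨rfl, ?_⟩⟩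
    intro a ha1 ha2 b hb1 hb2
    rcases eq_or_lt_of_le ha2 with e | e
    · rw [e, h.perR]
      exact (hg.gp.compl h).not (by linarith) (by linarith)
    · rcases eq_or_lt_of_le (Int.add_one_le_iff.mpr ha1) with e2 | e2
      · rw [← e2]
        exact h5.not hb1 hb2
      · refine hD (s + 1) hm1 hst a e2 e b ?_ ?_
        · rw [max_eq_left hv]; exact hb1
        · rw [min_eq_left hy]; exact hb2

/-- the next good corner (of the transposed relation) -/
theorem Step.gc {p u v c s t : ℤ} {d : Bool} {m x y : ℤ} (hg : GC r X p u v c s t)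
    (hs : Step r X p u v c s t d m x y) : GC r (tr X) c s t m x y := by
  refine ⟨hg.gc, hs.sm, hs.mt, hs.gap, hs.cx, hs.yc, ?_⟩
  intro a b ha1 ha2 hb1 hb2
  cases d with
  | true =>
    exact (hs.hp rfl).2 b (by linarith [hg.ps]) hb2 a ha1 ha2
  | false =>
    exact (hs.hm rfl).2 b hb1 (by linarith [hg.tp]) a ha1 ha2

end H46K
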