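import Pool.Agent.Lib.H46K.EP3

/-!
# H46K, Part E-I, chunk EP5: a good corner exists

`min_gap`: among all gaps `(x, y)` of all rows choose one with `y - x` minimal (`Nat.find`/`WellFounded.min` for
`(y - x).toNat`).
`start1`: let `(u, v)` (row `p`) be minimal, `c = u + 1` (`c < v` by `Gap.two`), `(s, t)` the gap of the column `c` not
containing `p` (`gap_off` for `tr X`). For `a ∈ (s, t)` let `(x a, y a)` be the gap of `a` not containing `c`, `c < x a`,
`y a < c + r`, `y a - x a ≥ v - u`. `max (x a) v + 1 < min (y a) (u + r)`: the four cases: `x a + 1 < y a` (`Gap.two`);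
`x a + 1 < u + r` since `x a ≤ y a - (v - u) ≤ (c + r - 1) - (v - u)` and `c < v`; `v + 1 < y a` since
`y a ≥ x a + (v - u) ≥ (c + 1) + (v - u)` and `u < c`; `v + 1 < u + r` by `Gap.two` for the complementary gap.
By `typegen` (`s' = s`, `t' = t`) take `m = t - 1` (first alternative) or `m = s + 1` (second one). Claim (last line of the
statement): let `b` be in the interval and `X a b`, `m ≤ a < m + r`. First alternative (`m = t - 1`): the one is not
in row `m` (own gap), so `t ≤ a`; if `a > s + r` then `a - r ∈ (s, m)`, so in `(p, m)`: excluded. Second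
alternative (`m = s + 1`): if `a < t` then `a ∈ (m, p + r)`: excluded; if `a > s + r`, `a < m + r = s + 1 + r`:
impossible.
-/

namespace H46K

variable {r : ℤ} {X : ℤ → ℤ → Prop}

theorem min_gap (h : Tor r X) :
    ∃ p u v, Gap r X p u v ∧ ∀ a x y, Gap r X a x y → v - u ≤ y - x := by
  classical
  have hex : ∃ n : ℕ, ∃ p u v, Gap r X p u v ∧ (v - u).toNat = n := by
    obtain ⟨x, y, hxy⟩ := h.row 0
    exact ⟨_, 0, x, y, hxy, rfl⟩
  obtain ⟨p, u, v, hg, hn⟩ := Nat.find_spec hex
  refine ⟨p, u, v, hg, fun a x y hxy => ?_⟩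
  have h1 := Nat.find_min' hex ⟨a, x, y, hxy, rfl⟩
  rw [← hn] at h1
  have h2 := hg.lt
  have h3 := hxy.lt
  omega

theorem start1 (h : Tor r X) (hP : ¬ P1 r X) {p u v : ℤ} (hg : Gap r X p u v)
    (hmin : ∀ a x y, Gap r X a x y → v - u ≤ y - x) :
    ∃ s t m x y, Gap r (tr X) (u + 1) s t ∧ s < m ∧ m < t ∧ Gap r X m x y ∧ u + 1 < x ∧
      y < u + 1 + r ∧ max x v + 1 < min y (u + r) ∧
      ∀ a b, max x v < b → b < min y (u + r) → X a b → m ≤ a → a < m + r → t ≤ a ∧ a ≤ s + r := by
  have huv := hg.two h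
  have hvu := (hg.compl h).two h
  have hnp : ¬ H46K.tr X (u + 1) p := hg.not (by linarith) (by linarith)
  obtain ⟨s, t, hps, htp, hst⟩ := gap_off h.tr hnp
  have hst2 := hst.two h.tr
  have hrow : ∀ a, ∃ x y, s < a → a < t → u + 1 < x ∧ y < u + 1 + r ∧ Gap r X a x y := by
    intro a
    by_cases ha : s < a ∧ a < t
    · have hna : ¬ X a (u + 1) := hst.not ha.1 ha.2
      obtain ⟨x, y, h1, h2, h3⟩ := gap_off h hna
      exact ⟨x, y, fun _ _ => ⟨h1, h2, h3⟩⟩
    · exact ⟨0, 0, fun h1 h2 => absurd ⟨h1, h2⟩ ha⟩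
  choose x y hxy using hrow
  have hne : ∀ a, s < a → a < t → max (x a) v + 1 < min (y a) (u + r) := by
    intro a ha1 ha2
    obtain ⟨h1, h2, h3⟩ := hxy a ha1 ha2
    have h4 := h3.two h
    have h5 := hmin _ _ _ h3
    omega
  have hr := h.pos
  rcases typegen h hP x y hg (by linarith) (by linarith) hst.left hst.right hps htp le_rfl le_rfl
    hxy hne with hA | hA
  · obtain ⟨h1, h2, h3⟩ := hxy (t - 1) (by linarith) (by linarith)
    refine ⟨s, t, t - 1, x (t - 1), y (t - 1), hst, by linarith, by linarith, h3, h1, h2,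
      hne _ (by linarith) (by linarith), fun a b hb1 hb2 hX ha1 ha2 => ?_⟩
    have hb3 : x (t - 1) < b := lt_of_le_of_lt (le_max_left _ _) hb1
    have hb4 : b < y (t - 1) := lt_of_lt_of_le hb2 (min_le_left _ _)
    constructor
    · by_contra hlt
      have : a = t - 1 := by omega
      subst this
      exact h3.not hb3 hb4 hX
    · by_contra hlt
      have hX' : X (a - r) b := by
        have := h.perR (a - r) b
        rw [sub_add_cancel] at this
        exact this.mp hX
      exact hA (t - 1) (by linarith) (by linarith) (a - r) (by linarith) (by linarith) b hb1 hb2 hX'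
  · obtain ⟨h1, h2, h3⟩ := hxy (s + 1) (by linarith) (by linarith)
    refine ⟨s, t, s + 1, x (s + 1), y (s + 1), hst, by linarith, by linarith, h3, h1, h2,
      hne _ (by linarith) (by linarith), fun a b hb1 hb2 hX ha1 ha2 => ?_⟩
    have hb3 : x (s + 1) < b := lt_of_le_of_lt (le_max_left _ _) hb1
    have hb4 : b < y (s + 1) := lt_of_lt_of_le hb2 (min_le_left _ _)
    constructor
    · by_contra hlt
      have hne' : a ≠ s + 1 := by
        rintro rfl
        exact h3.not hb3 hb4 hX
      exact hA (s + 1) (by linarith) (by linarith) a (by omega) (by linarith) b hb1 hb2 hX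
    · linarith

end H46K
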