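import Pool.Agent.Lib.H46K.EP5

/-!
# H46K, Part E-I, chunk EP6: a good corner exists, second half

Notation of `start1`, `c = u + 1`, `x' = max x v`, `y' = min y (u + r)`. Apply `typegen` to `tr X` (`Tor.tr`, `P1.tr`) with
`p := c`, `(u, v) := (s, t)`, `c := m`, `s := x`, `t := y` (`X m x`, `X m y`), `s' := x'`, `t' := y'`; for a column
`g ∈ (x', y')` let `(f g, f' g)` be its gap not containing the row `m` (`gap_off`; `m < f g`, `f' g < m + r`); by
the last line of `start1`: `t ≤ f g` and `f' g ≤ s + r`, so `max (f g) t = f g`, `min (f' g) (s + r) = f' g`.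
Alternatives: (I) for all `g`: no one in rows `(f g, f' g)` × columns `(c, g)`; (II) the same with columns `(g, c + r)`.
(I): `g = y' - 1`. If `y ≤ u + r` then `y' = y` and `GC r X m x y g (f g) (f' g)`: a column `b` in `(x, y)` is `< g`
(alternative (I), `c < x < b`) or `= g` (own gap). If `y > u + r`: `g = u + r - 1`; the row `i = f g + 1` (`Gap.two`) has no one in
`(c, u + r)`; its two ones in the window `[c + 1, c + 1 + r)` are in `[u + r, c + r] = {c + r - 1, c + r}`: adjacent, contradiction
with `h.nr`.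
(II): `g = x' + 1`. If `v ≤ x`: `x' = x`, `GC r X m x y g (f g) (f' g)` as before. If `x < v`: `g = v + 1`; the row `i = f g + 1`
has no one in `[v + 1, c + r)`; its two ones in the window `[v + 1, v + 1 + r)` are in `[c + r, v + r]`: a gap
(`gap_mk`) of length `≤ v - c < v - u`: contradiction with `hmin`.
-/

namespace H46K

variable {r : ℤ} {X : ℤ → ℤ → Prop}

theorem start2 (h : Tor r X) (hP : ¬ P1 r X) {p u v : ℤ} (hg : Gap r X p u v)
    (hmin : ∀ a x y, Gap r X a x y → v - u ≤ y - x) {s t m x y : ℤ}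
    (hst : Gap r (tr X) (u + 1) s t) (hsm : s < m) (hmt : m < t) (hxy : Gap r X m x y)
    (hcx : u + 1 < x) (hyc : y < u + 1 + r) (hne : max x v + 1 < min y (u + r))
    (hab : ∀ a b, max x v < b → b < min y (u + r) → X a b → m ≤ a → a < m + r →
      t ≤ a ∧ a ≤ s + r) : ∃ g f f', GC r X m x y g f f' := by
  have huv := hg.lt
  have hcol : ∀ g, ∃ f f', max x v < g → g < min y (u + r) →
      m < f ∧ f' < m + r ∧ Gap r (H46K.tr X) g f f' := by
    intro g
    by_cases hgg : max x v < g ∧ g < min y (u + r)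
    · have hn : ¬ H46K.tr X g m := by
        intro hX
        exact hxy.not (lt_of_le_of_lt (le_max_left _ _) hgg.1)
          (lt_of_lt_of_le hgg.2 (min_le_left _ _)) hX
      obtain ⟨f, f', h1, h2, h3⟩ := gap_off h.tr hn
      exact ⟨f, f', fun _ _ => ⟨h1, h2, h3⟩⟩
    · exact ⟨0, 0, fun h1 h2 => absurd ⟨h1, h2⟩ hgg⟩
  choose f f' hf using hcol
  have hft : ∀ g, max x v < g → g < min y (u + r) → t ≤ f g ∧ f' g ≤ s + r := by
    intro g hg1 hg2
    obtain ⟨h1, h2, h3⟩ := hf g hg1 hg2
    have h4 := h3.lt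
    exact ⟨(hab _ g hg1 hg2 h3.left h1.le (by linarith)).1,
      (hab _ g hg1 hg2 h3.right (by linarith) h2).2⟩
  have hne' : ∀ g, max x v < g → g < min y (u + r) →
      max (f g) t + 1 < min (f' g) (s + r) := by
    intro g hg1 hg2
    obtain ⟨h1, h2, h3⟩ := hf g hg1 hg2
    obtain ⟨h4, h5⟩ := hft g hg1 hg2
    have h6 := h3.two h.tr
    rw [max_eq_left h4, min_eq_left h5]
    exact h6
  have hxl := hxy.left
  have hyl := hxy.right
  rcases typegen h.tr (fun hp => hP hp.tr) f f' hst hsm hmt hxl hyl hcx hyc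
    (le_max_left x v) (min_le_left y (u + r)) hf hne' with hA | hA
  · -- (I)
    have key : ∀ g, max x v < g → g < min y (u + r) → ∀ b, u + 1 < b → b < g → ∀ i, f g < i →
        i < f' g → ¬ X i b := by
      intro g hg1 hg2 b hb1 hb2 i hi1 hi2
      have h1 := hft g hg1 hg2
      exact hA g hg1 hg2 b hb1 hb2 i (by rw [max_eq_left h1.1]; exact hi1)
        (by rw [min_eq_left h1.2]; exact hi2)
    rcases le_or_gt y (u + r) with hyu | hyu
    · have hmy : min y (u + r) = y := min_eq_left hyu
      rw [hmy] at hne hf hft key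
      have hg1 : max x v < y - 1 := by linarith
      have hg2 : y - 1 < y := by linarith
      obtain ⟨h1, h2, h3⟩ := hf (y - 1) hg1 hg2
      refine ⟨y - 1, f (y - 1), f' (y - 1), hxy, lt_of_le_of_lt (le_max_left _ _) hg1, hg2, h3, h1,
        h2, fun a b ha1 ha2 hb1 hb2 => ?_⟩
      rcases lt_or_eq_of_le (show b ≤ y - 1 by omega) with hb | hb
      · exact key (y - 1) hg1 hg2 b (by linarith) hb a ha1 ha2
      · subst hb
        exact h3.not ha1 ha2
    · exfalso
      have hmy : min y (u + r) = u + r := min_eq_right hyu.le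
      rw [hmy] at hne hf hft key
      have hg1 : max x v < u + r - 1 := by linarith
      have hg2 : u + r - 1 < u + r := by linarith
      obtain ⟨h1, h2, h3⟩ := hf (u + r - 1) hg1 hg2
      have h4 := h3.two h.tr
      obtain ⟨z1, z2, hz1, hz12, hz2, hX1, hX2⟩ := window h (f (u + r - 1) + 1) (u + 1 + 1)
      have hno : ∀ b, u + 1 < b → b < u + r → ¬ X (f (u + r - 1) + 1) b := by
        intro b hb1 hb2
        rcases lt_or_eq_of_le (show b ≤ u + r - 1 by omega) with hb | hb
        · exact key (u + r - 1) hg1 hg2 b hb1 hb _ (by linarith) h4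
        · subst hb
          exact h3.not (by linarith) h4
      have hz1' : u + r ≤ z1 := by
        by_contra hlt
        exact hno z1 (by linarith) (by linarith) hX1
      have hz : z2 = z1 + 1 := by omega
      subst hz
      exact h.nr _ _ hX1 hX2
  · -- (II)
    have key : ∀ g, max x v < g → g < min y (u + r) → ∀ b, g < b → b < u + 1 + r → ∀ i, f g < i →
        i < f' g → ¬ X i b := by
      intro g hg1 hg2 b hb1 hb2 i hi1 hi2
      have h1 := hft g hg1 hg2
      exact hA g hg1 hg2 b hb1 hb2 i (by rw [max_eq_left h1.1]; exact hi1)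
        (by rw [min_eq_left h1.2]; exact hi2)
    rcases le_or_gt v x with hvx | hvx
    · have hmx : max x v = x := max_eq_left hvx
      rw [hmx] at hne hf hft key
      have hg1 : x < x + 1 := by linarith
      have hg2 : x + 1 < min y (u + r) := hne
      have hg3 : x + 1 < y := lt_of_lt_of_le hg2 (min_le_left _ _)
      obtain ⟨h1, h2, h3⟩ := hf (x + 1) hg1 hg2
      refine ⟨x + 1, f (x + 1), f' (x + 1), hxy, hg1, hg3, h3, h1,
        h2, fun a b ha1 ha2 hb1 hb2 => ?_⟩
      rcases lt_or_eq_of_le (show x + 1 ≤ b by omega) with hb | hb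
      · exact key (x + 1) hg1 hg2 b hb (by linarith) a ha1 ha2
      · subst hb
        exact h3.not ha1 ha2
    · exfalso
      have hmx : max x v = v := max_eq_right hvx.le
      rw [hmx] at hne hf hft key
      have hg1 : v < v + 1 := by linarith
      have hg2 : v + 1 < min y (u + r) := hne
      have hg3 : v + 1 < u + r := lt_of_lt_of_le hg2 (min_le_right _ _)
      obtain ⟨h1, h2, h3⟩ := hf (v + 1) hg1 hg2
      have h4 := h3.two h.tr
      obtain ⟨z1, z2, hz1, hz12, hz2, hX1, hX2⟩ := window h (f (v + 1) + 1) (v + 1)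
      have hno : ∀ b, v + 1 ≤ b → b < u + 1 + r → ¬ X (f (v + 1) + 1) b := by
        intro b hb1 hb2
        rcases lt_or_eq_of_le hb1 with hb | hb
        · exact key (v + 1) hg1 hg2 b hb hb2 _ (by linarith) h4
        · subst hb
          exact h3.not (by linarith) h4
      have hz1' : u + 1 + r ≤ z1 := by
        by_contra hlt
        exact hno z1 (by linarith) (by linarith) hX1
      have hgz := gap_mk h hX1 hX2 hz12 (by linarith)
      have := hmin _ _ _ hgz
      linarith

theorem start (h : Tor r X) (hP : ¬ P1 r X) : ∃ p u v c s t, GC r X p u v c s t := by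
  obtain ⟨p, u, v, hg, hmin⟩ := min_gap h
  obtain ⟨s, t, m, x, y, h1, h2, h3, h4, h5, h6, h7, h8⟩ := start1 h hP hg hmin
  obtain ⟨g, f, f', h9⟩ := start2 h hP hg hmin h1 h2 h3 h4 h5 h6 h7 h8
  exact ⟨_, _, _, _, _, _, h9⟩

end H46K
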