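import Pool.Agent.Lib.H46K.EP4

/-!
# H46K, Part E-I, chunk EP7: infinite paths

`par X k` is `X` for even `k`, `tr X` for odd `k` (`par_succ`: `par X (k+1) = tr (par X k)`).
`zpath`: iterate `halfstep` / `Step.gc`: by recursion build `F k : {q : ℤ × ℤ × ℤ × ℤ × ℤ × ℤ // GC r (par X k) q...}`
with `F 0` the given good corner and `F (k+1) = (c, s, t, m, x, y)` where `d, m, x, y` are chosen by `halfstep` for
`F k = (p, u, v, c, s, t)`. Put `l k, x k, y k` = the first three components of `F k` (so the last three are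
`l (k+1), x (k+1), y (k+1)`), `d (k+2)` = the chosen `d` for `F k`.
-/

namespace H46K

variable {r : ℤ} {X : ℤ → ℤ → Prop}

/-- the relation with rows = lines of the parity of `k` -/
def par (X : ℤ → ℤ → Prop) (k : ℕ) : ℤ → ℤ → Prop := if k % 2 = 0 then X else tr X

theorem par_succ (X : ℤ → ℤ → Prop) (k : ℕ) : par X (k + 1) = tr (par X k) := by
  unfold par
  rcases Nat.mod_two_eq_zero_or_one k with h | h
  · have h' : (k + 1) % 2 ≠ 0 := by omega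
    rw [if_pos h, if_neg h']
  · have h' : (k + 1) % 2 = 0 := by omega
    have h'' : k % 2 ≠ 0 := by omega
    rw [if_pos h', if_neg h'', tr_tr]

theorem par_succ_succ (X : ℤ → ℤ → Prop) (k : ℕ) : par X (k + 2) = par X k := by
  rw [par_succ, par_succ, tr_tr]

theorem Tor.par (h : Tor r X) (k : ℕ) : Tor r (par X k) := by
  unfold H46K.par; split_ifs
  · exact h
  · exact h.tr

/-- infinite paths with integer representatives -/
structure ZP (r : ℤ) (X : ℤ → ℤ → Prop) (l x y : ℕ → ℤ) (d : ℕ → Bool) : Prop where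
  gap : ∀ k, Gap r (par X k) (l k) (x k) (y k)
  inn : ∀ k, x k < l (k + 1) ∧ l (k + 1) < y k
  off : ∀ k, l k < x (k + 1) ∧ y (k + 1) < l k + r
  emp : ∀ a b, x 1 < a → a < y 1 → x 0 < b → b < y 0 → ¬ X a b
  far : ∀ k, y k ≤ x (k + 2) ∧ y (k + 2) ≤ x k + r
  hp : ∀ k, d (k + 2) = true → l (k + 2) = y (k + 1) - 1 ∧
    ∀ a, l k ≤ a → a < y (k + 1) → ∀ b, x (k + 2) < b → b < y (k + 2) → ¬ par X k a b
  hm : ∀ k, d (k + 2) = false → l (k + 2) = x (k + 1) + 1 ∧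
    ∀ a, x (k + 1) < a → a ≤ l k + r → ∀ b, x (k + 2) < b → b < y (k + 2) → ¬ par X k a b

/-- `P1` for the relation of parity `k` -/
theorem EP7_par_not (hP : ¬ P1 r X) (k : ℕ) : ¬ P1 r (par X k) := by
  unfold par
  split_ifs
  · exact hP
  · intro h1
    exact hP h1.tr

/-- the type of good corners -/
def EP7_C (r : ℤ) (X : ℤ → ℤ → Prop) (k : ℕ) : Type :=
  {q : ℤ × ℤ × ℤ × ℤ × ℤ × ℤ // GC r (par X k) q.1 q.2.1 q.2.2.1 q.2.2.2.1 q.2.2.2.2.1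
    q.2.2.2.2.2}

/-- one step -/
theorem EP7_step (h : Tor r X) (hP : ¬ P1 r X) (k : ℕ) (q : EP7_C r X k) :
    ∃ (q' : EP7_C r X (k + 1)) (d : Bool), q'.1.1 = q.1.2.2.2.1 ∧ q'.1.2.1 = q.1.2.2.2.2.1 ∧
      q'.1.2.2.1 = q.1.2.2.2.2.2 ∧
      Step r (par X k) q.1.1 q.1.2.1 q.1.2.2.1 q.1.2.2.2.1 q.1.2.2.2.2.1 q.1.2.2.2.2.2 d
        q'.1.2.2.2.1 q'.1.2.2.2.2.1 q'.1.2.2.2.2.2 := by
  obtain ⟨⟨p, u, v, c, s, t⟩, hq⟩ := q
  obtain ⟨d, m, x, y, hs⟩ := halfstep (h.par k) (EP7_par_not hP k) hq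
  refine ⟨⟨(c, s, t, m, x, y), ?_⟩, d, rfl, rfl, rfl, hs⟩
  rw [par_succ]
  exact Step.gc hq hs

theorem zpath (h : Tor r X) (hP : ¬ P1 r X) {p u v c s t : ℤ} (hg : GC r X p u v c s t) :
    ∃ l x y d, ZP r X l x y d := by
  choose N D h1 h2 h3 h4 using EP7_step h hP
  let F : (k : ℕ) → EP7_C r X k := fun k =>
    Nat.rec (motive := fun k => EP7_C r X k) ⟨(p, u, v, c, s, t), hg⟩ (fun k q => N k q) k
  have hF : ∀ k, F (k + 1) = N k (F k) := fun k => rfl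
  refine ⟨fun k => (F k).1.1, fun k => (F k).1.2.1, fun k => (F k).1.2.2.1,
    fun k => D (k - 2) (F (k - 2)), ?_⟩
  -- components of the corner `F k`
  have e1 : ∀ k, (F (k + 1)).1.1 = (F k).1.2.2.2.1 := fun k => h1 k (F k)
  have e2 : ∀ k, (F (k + 1)).1.2.1 = (F k).1.2.2.2.2.1 := fun k => h2 k (F k)
  have e3 : ∀ k, (F (k + 1)).1.2.2.1 = (F k).1.2.2.2.2.2 := fun k => h3 k (F k)
  have e4 : ∀ k, GC r (par X k) (F k).1.1 (F k).1.2.1 (F k).1.2.2.1 (F (k + 1)).1.1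
      (F (k + 1)).1.2.1 (F (k + 1)).1.2.2.1 := by
    intro k
    rw [e1, e2, e3]
    exact (F k).2
  have e5 : ∀ k, Step r (par X k) (F k).1.1 (F k).1.2.1 (F k).1.2.2.1 (F (k + 1)).1.1
      (F (k + 1)).1.2.1 (F (k + 1)).1.2.2.1 (D k (F k)) (F (k + 2)).1.1 (F (k + 2)).1.2.1
      (F (k + 2)).1.2.2.1 := by
    intro k
    rw [e1 (k + 1), e2 (k + 1), e3 (k + 1), e1 k, e2 k, e3 k]
    exact h4 k (F k)
  refine ⟨fun k => (e4 k).gp, fun k => ⟨(e4 k).uc, (e4 k).cv⟩, fun k => ⟨(e4 k).ps, (e4 k).tp⟩,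
    (e4 0).emp, fun k => ⟨(e5 k).vx, (e5 k).yu⟩, fun k hk => (e5 k).hp hk,
    fun k hk => (e5 k).hm hk⟩

end H46K
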