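import Pool.Agent.Lib.H46K.EP7

/-!
# H46K, Part E-I, chunk EP8: paths modulo `r`

`cz r a b c`: going up from `a` one meets `b` strictly before `c` (modulo `r`, `b, c ≠ a`).
`PZ`: the fields of `PhiPath` modulo `r`.
`cz_of`: if `a < b < c < a + r` then `cz r a b c`. `cz_elim`: if `cz r a b c` and `a < c < a + r` there is `n` with
`a < b + n r < c` (`n = - ((b - a) / r)`).
From a `ZP` path: `one` from `gap` (translate `b` into `[x k, x k + r)`). F1: `inn`. F2: `y (k+1) < l k + r < x (k+1) + r`. F6a: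
`y k ≤ x (k+2) < l (k+3) < y (k+2) ≤ x k + r`. gp, gm: `hp`, `hm`. emp1, empp, empm: by `cz_elim` (or the congruence)
translate `w`, `z` into the integer intervals and use periodicity.
F6b (`cz r (y (k+3)) (l k) (x (k+3))`), i.e. no integer `w = l k + n r` with `x (k+3) ≤ w ≤ y (k+3)`: suppose there is one.
If `w = x (k+3)` or `w = y (k+3)`: `par X (k+3) (l (k+3)) w` (`gap`), so `par X k (l k) (l (k+3))`, so
`l (k+3)` is congruent to `x k` or `y k`: contradiction with F6a. If `x (k+3) < w < y (k+3)`: by `hp (k+1)` or `hm (k+1)` no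
`a` in the hull of `k + 3` satisfies `par X (k+1) a w`, i.e. `par X k (l k) a`. Case `d (k+3) = true`: the hull is
`[l (k+1), y (k+2))`, `l (k+3) = y (k+2) - 1`, and `l (k+1) < y k ≤ x (k+2) < y (k+2)`, so `y k` is in the hull and `par X k (l k) (y k)`:
contradiction. Case `false`: the hull is `(x (k+2), l (k+1) + r]`, and
`x (k+2) < y (k+2) ≤ x k + r < l (k+1) + r`, so `x k + r` is in the hull: contradiction.
-/

namespace H46K

variable {r : ℤ} {X : ℤ → ℤ → Prop}

/-- cyclic betweenness modulo `r` -/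
def cz (r a b c : ℤ) : Prop := 0 < (b - a) % r ∧ (b - a) % r < (c - a) % r

theorem cz_of (hr : 0 < r) {a b c : ℤ} (h1 : a < b) (h2 : b < c) (h3 : c < a + r) : cz r a b c := by
  unfold cz
  rw [Int.emod_eq_of_lt (by linarith) (by linarith), Int.emod_eq_of_lt (by linarith) (by linarith)]
  exact ⟨by linarith, by linarith⟩

theorem cz_elim (hr : 0 < r) {a b c : ℤ} (h : cz r a b c) (h1 : a < c) (h2 : c < a + r) :
    ∃ n : ℤ, a < b + n * r ∧ b + n * r < c := by
  obtain ⟨h3, h4⟩ := h
  rw [Int.emod_eq_of_lt (a := c - a) (by linarith) (by linarith)] at h4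
  refine ⟨-((b - a) / r), ?_, ?_⟩
  · have := Int.emod_add_mul_ediv (b - a) r
    nlinarith [this]
  · have := Int.emod_add_mul_ediv (b - a) r
    nlinarith [this]

/-- a Φ-path modulo `r` -/
structure PZ (r : ℤ) (X : ℤ → ℤ → Prop) (l x y : ℕ → ℤ) (d : ℕ → Bool) : Prop where
  one : ∀ k b, par X k (l k) b ↔ (r ∣ b - x k ∨ r ∣ b - y k)
  F1 : ∀ k, cz r (x k) (l (k + 1)) (y k)
  F2 : ∀ k, cz r (y (k + 1)) (l k) (x (k + 1))
  F6a : ∀ k, cz r (y k) (l (k + 3)) (x k)
  F6b : ∀ k, cz r (y (k + 3)) (l k) (x (k + 3))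
  gp : ∀ k, 1 ≤ k → d (k + 1) = true → r ∣ y k - (l (k + 1) + 1)
  gm : ∀ k, 1 ≤ k → d (k + 1) = false → r ∣ l (k + 1) - (x k + 1)
  emp1 : ∀ w z, cz r (x 0) w (y 0) → cz r (x 1) z (y 1) → ¬ par X 1 w z
  empp : ∀ k, d (k + 2) = true → ∀ w z, (r ∣ w - l k ∨ cz r (l k) w (y (k + 1))) →
    cz r (x (k + 2)) z (y (k + 2)) → ¬ par X (k + 2) w z
  empm : ∀ k, d (k + 2) = false → ∀ w z, (r ∣ w - l k ∨ cz r (x (k + 1)) w (l k)) →
    cz r (x (k + 2)) z (y (k + 2)) → ¬ par X (k + 2) w z

theorem EP8_cz_shift (a b c m n : ℤ) : cz r a (b + m * r) (c + n * r) ↔ cz r a b c := by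
  unfold cz
  rw [show b + m * r - a = (b - a) + m * r by ring, show c + n * r - a = (c - a) + n * r by ring,
    Int.add_mul_emod_self_right, Int.add_mul_emod_self_right]

/-- the ones of a row in terms of a gap -/
theorem EP8_gap_iff {Y : ℤ → ℤ → Prop} (h : Tor r Y) {a x y : ℤ} (g : Gap r Y a x y) (b : ℤ) :
    Y a b ↔ (r ∣ b - x ∨ r ∣ b - y) := by
  have hr := h.pos
  constructor
  · intro hb
    have h1 := Int.emod_add_mul_ediv (b - x) r
    have h2 := Int.emod_nonneg (b - x) hr.ne'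
    have h3 := Int.emod_lt_of_pos (b - x) hr
    have h4 : Y a (x + (b - x) % r) := by
      rw [← h.perCn ((b - x) / r) a (x + (b - x) % r)]
      have : x + (b - x) % r + (b - x) / r * r = b := by linarith
      rw [this]; exact hb
    rcases (g.one _ (by linarith) (by linarith)).mp h4 with h5 | h5
    · exact Or.inl (Int.dvd_of_emod_eq_zero (by linarith))
    · exact Or.inr ⟨(b - x) / r, by linarith⟩
  · rintro (⟨n, hn⟩ | ⟨n, hn⟩)
    · have : b = x + n * r := by linarith
      rw [this, h.perCn]; exact g.left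
    · have : b = y + n * r := by linarith
      rw [this, h.perCn]; exact g.right

theorem ZP.pz (h : Tor r X) {l x y : ℕ → ℤ} {d : ℕ → Bool} (hz : ZP r X l x y d) :
    PZ r X l x y d := by
  have hr := h.pos
  -- integer form of F6a
  have F6 : ∀ k, y k < l (k + 3) ∧ l (k + 3) < x k + r := by
    intro k
    obtain ⟨h1, h2⟩ := hz.far k
    obtain ⟨h3, h4⟩ : x (k + 2) < l (k + 3) ∧ l (k + 3) < y (k + 2) := hz.inn (k + 2)
    exact ⟨by linarith, by linarith⟩
  -- integer form of F6b
  have F6' : ∀ k n, x (k + 3) ≤ l k + n * r → y (k + 3) < l k + n * r := by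
    intro k n hn
    by_contra hcon
    push Not at hcon
    have hpar : ∀ a, par X (k + 1) a (l k + n * r) ↔ par X k (l k) a := by
      intro a
      rw [par_succ]
      exact (h.par k).perRn n (l k) a
    have hno : ¬ par X k (l k) (l (k + 3)) :=
      ((hz.gap k).compl (h.par k)).not (F6 k).1 (F6 k).2
    have hpar3 : par X (k + 3) = par X (k + 1) := par_succ_succ X (k + 1)
    have hg3 := hz.gap (k + 3)
    rcases eq_or_lt_of_le hn with e1 | e1
    · have h1 := hg3.left
      rw [hpar3, e1, hpar] at h1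
      exact hno h1
    · rcases eq_or_lt_of_le hcon with e2 | e2
      · have h1 := hg3.right
        rw [hpar3, ← e2, hpar] at h1
        exact hno h1
      · obtain ⟨f1, f2⟩ := hz.far k
        obtain ⟨f3, f4⟩ := hz.inn k
        have f5 := (hz.gap (k + 2)).lt
        rcases hd : d (k + 3) with _ | _
        · refine ((hz.hm (k + 1) hd).2 (x k + r) ?_ ?_ _ e1 e2) ?_
          · show x (k + 2) < x k + r
            linarith
          · linarith
          · rw [hpar, (h.par k).perC]
            exact (hz.gap k).left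
        · refine ((hz.hp (k + 1) hd).2 (y k) ?_ ?_ _ e1 e2) ?_
          · linarith
          · show y k < y (k + 2)
            linarith
          · rw [hpar]
            exact (hz.gap k).right
  refine
    { one := fun k b => EP8_gap_iff (h.par k) (hz.gap k) b
      F1 := fun k => cz_of hr (hz.inn k).1 (hz.inn k).2 (hz.gap k).lt'
      F2 := ?_
      F6a := ?_
      F6b := ?_
      gp := ?_
      gm := ?_
      emp1 := ?_
      empp := ?_
      empm := ?_ }
  · intro k
    obtain ⟨h1, h2⟩ := hz.off k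
    have h3 := (hz.gap (k + 1)).lt
    have h4 : cz r (y (k + 1)) (l k + 1 * r) (x (k + 1) + 1 * r) :=
      cz_of hr (by linarith) (by linarith) (by linarith)
    exact (EP8_cz_shift _ _ _ _ _).mp h4
  · intro k
    obtain ⟨h1, h2⟩ := F6 k
    have h3 := (hz.gap k).lt
    have h4 : cz r (y k) (l (k + 3) + 0 * r) (x k + 1 * r) :=
      cz_of hr (by linarith) (by linarith) (by linarith)
    exact (EP8_cz_shift _ _ _ _ _).mp h4
  · intro k
    have h1 := Int.emod_add_mul_ediv (l k - x (k + 3)) r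
    have h2 := Int.emod_nonneg (l k - x (k + 3)) hr.ne'
    have h3 := Int.emod_lt_of_pos (l k - x (k + 3)) hr
    have h4 := F6' k (-((l k - x (k + 3)) / r)) (by linarith)
    have h5 := (hz.gap (k + 3)).lt
    have h6 : cz r (y (k + 3)) (l k + (-((l k - x (k + 3)) / r)) * r) (x (k + 3) + 1 * r) :=
      cz_of hr h4 (by linarith) (by linarith)
    exact (EP8_cz_shift _ _ _ _ _).mp h6
  · intro k hk hd
    obtain ⟨j, rfl⟩ : ∃ j, k = j + 1 := ⟨k - 1, by omega⟩
    have h1 : l (j + 2) = y (j + 1) - 1 := (hz.hp j hd).1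
    refine ⟨0, ?_⟩
    show y (j + 1) - (l (j + 2) + 1) = r * 0
    linarith
  · intro k hk hd
    obtain ⟨j, rfl⟩ : ∃ j, k = j + 1 := ⟨k - 1, by omega⟩
    have h1 : l (j + 2) = x (j + 1) + 1 := (hz.hm j hd).1
    refine ⟨0, ?_⟩
    show l (j + 2) - (x (j + 1) + 1) = r * 0
    linarith
  · intro w z hw hz1 hx
    obtain ⟨n, h1, h2⟩ := cz_elim hr hw (hz.gap 0).lt (hz.gap 0).lt'
    obtain ⟨m, h3, h4⟩ := cz_elim hr hz1 (hz.gap 1).lt (hz.gap 1).lt'
    refine hz.emp _ _ h3 h4 h1 h2 ?_
    rw [h.perRn, h.perCn]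
    rw [par_succ] at hx
    exact hx
  · intro k hd w z hw hz1 hx
    rw [par_succ_succ] at hx
    obtain ⟨m, h3, h4⟩ := cz_elim hr hz1 (hz.gap (k + 2)).lt (hz.gap (k + 2)).lt'
    obtain ⟨o1, o2⟩ := hz.off k
    have o3 := (hz.gap (k + 1)).lt
    rcases hw with ⟨n, hn⟩ | hw
    · refine (hz.hp k hd).2 (l k) le_rfl (by linarith) _ h3 h4 ?_
      rw [(h.par k).perCn]
      have : w = l k + n * r := by linarith
      rw [this, (h.par k).perRn] at hx
      exact hx
    · obtain ⟨n, h1, h2⟩ := cz_elim hr hw (by linarith) (by linarith)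
      refine (hz.hp k hd).2 _ h1.le h2 _ h3 h4 ?_
      rw [(h.par k).perCn, (h.par k).perRn]
      exact hx
  · intro k hd w z hw hz1 hx
    rw [par_succ_succ] at hx
    obtain ⟨m, h3, h4⟩ := cz_elim hr hz1 (hz.gap (k + 2)).lt (hz.gap (k + 2)).lt'
    obtain ⟨o1, o2⟩ := hz.off k
    have o3 := (hz.gap (k + 1)).lt
    rcases hw with ⟨n, hn⟩ | hw
    · refine (hz.hm k hd).2 (l k + r) (by linarith) le_rfl _ h3 h4 ?_
      rw [(h.par k).perCn, (h.par k).perR]
      have : w = l k + n * r := by linarith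
      rw [this, (h.par k).perRn] at hx
      exact hx
    · have hw' : cz r (x (k + 1)) (w + 0 * r) (l k + 1 * r) := (EP8_cz_shift _ _ _ _ _).mpr hw
      obtain ⟨n, h1, h2⟩ := cz_elim hr hw' (by linarith) (by linarith)
      have e : w + 0 * r + n * r = w + n * r := by ring
      rw [e] at h1 h2
      refine (hz.hm k hd).2 _ h1 (by linarith) _ h3 h4 ?_
      rw [(h.par k).perCn, (h.par k).perRn]
      exact hx

end H46K
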