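import Pool.Agent.Lib.H46K.EP8

/-!
# H46K, Part E-I, chunk EP9: change of coordinates

New coordinates `w = α σ + ε σ * w'` on the circle of parity `σ` (`ε = ±1`, `ε i = 1` iff `i = true` in the code below).
`cz_map`: `cz` is invariant under translations, and `cz r a b c ↔ cz r (-c) (-b) (-a)`; note also that
`cz r a b c ↔ cz r (ε (a - α)) (ε (b - α)) (ε (c - α))` for `ε = 1` and `cz r (-(c-α)) (-(b-α)) (-(a-α))` for `ε = -1`.
All fields of `PZ` are checked by cases on the signs of the two circles involved; for the circle of parity `k + 1` with sign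
`-1` the ends of the gap `k` are exchanged, and the directions of the lines of parity `k` are flipped if the sign of the
circle of parity `k` is `-1`.
-/

namespace H46K

variable {r : ℤ} {X : ℤ → ℤ → Prop}

/-- the sign -/
def sg (e : Bool) : ℤ := if e then 1 else -1

/-- `X` in new coordinates -/
def mp (a b : ℤ) (e f : Bool) (X : ℤ → ℤ → Prop) : ℤ → ℤ → Prop :=
  fun i j => X (a + sg e * i) (b + sg f * j)

theorem EP9_cz_neg (hr : 0 < r) (a b c : ℤ) (h : cz r a b c) : cz r (-c) (-b) (-a) := by
  obtain ⟨h1, h2⟩ := h
  have e1 := Int.emod_add_mul_ediv (b - a) r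
  have e2 := Int.emod_add_mul_ediv (c - a) r
  have h3 := Int.emod_lt_of_pos (c - a) hr
  have e3 : (-b - -c) % r = (c - a) % r - (b - a) % r := by
    have : -b - -c = ((c - a) % r - (b - a) % r) + ((c - a) / r - (b - a) / r) * r := by
      linear_combination e1 - e2
    rw [this, Int.add_mul_emod_self_right, Int.emod_eq_of_lt (by linarith) (by linarith)]
  have e4 : (-a - -c) % r = (c - a) % r := by
    rw [show -a - -c = c - a by ring]
  unfold cz
  rw [e3, e4]
  exact ⟨by linarith, by linarith⟩

theorem cz_neg (hr : 0 < r) (a b c : ℤ) : cz r a b c ↔ cz r (-c) (-b) (-a) := by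
  refine ⟨EP9_cz_neg hr a b c, fun h => ?_⟩
  have h1 := EP9_cz_neg hr _ _ _ h
  rw [neg_neg, neg_neg, neg_neg] at h1
  exact h1

theorem EP9_cz_sub (a b c t : ℤ) : cz r (a - t) (b - t) (c - t) ↔ cz r a b c := by
  unfold cz
  rw [show b - t - (a - t) = b - a by ring, show c - t - (a - t) = c - a by ring]

/-- one circle, general `w` -/
theorem EP9_cz_map (hr : 0 < r) (E : Bool) (A u w v : ℤ) :
    cz r (if E then u - A else -(v - A)) w (if E then v - A else -(u - A)) ↔
      cz r u (A + sg E * w) v := by
  cases E with
  | true =>
    have : w = (A + sg true * w) - A := by simp [sg]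
    rw [if_pos rfl, if_pos rfl, this, EP9_cz_sub, ← this]
  | false =>
    have : w = - ((A + sg false * w) - A) := by simp [sg]
    rw [if_neg (by decide), if_neg (by decide), this, ← cz_neg hr, EP9_cz_sub, ← this]

theorem EP9_inv (E : Bool) (A w : ℤ) : A + sg E * (sg E * (w - A)) = w := by
  cases E <;> simp [sg]

theorem EP9_dvd_iff {r s t : ℤ} (h : s = t ∨ s = -t) : r ∣ s ↔ r ∣ t := by
  rcases h with rfl | rfl
  · exact Iff.rfl
  · exact dvd_neg

/-- the change of coordinates in a uniform notation -/
theorem EP9_gen (hr : 0 < r) {X' : ℤ → ℤ → Prop} {A : ℕ → ℤ} {E : ℕ → Bool}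
    {l x y l' x' y' : ℕ → ℤ} {d d' : ℕ → Bool} (hA : ∀ k, A (k + 2) = A k)
    (hE : ∀ k, E (k + 2) = E k) (hl : ∀ k, l' k = sg (E k) * (l k - A k))
    (hx : ∀ k, x' k = if E (k + 1) then x k - A (k + 1) else -(y k - A (k + 1)))
    (hy : ∀ k, y' k = if E (k + 1) then y k - A (k + 1) else -(x k - A (k + 1)))
    (hd : ∀ k, d' k = (d k == E k))
    (hX : ∀ k i j, par X' k i j ↔ par X k (A k + sg (E k) * i) (A (k + 1) + sg (E (k + 1)) * j))
    (h : PZ r X l x y d) : PZ r X' l' x' y' d' := by
  have hxy : ∀ k w, cz r (x' k) w (y' k) ↔ cz r (x k) (A (k + 1) + sg (E (k + 1)) * w) (y k) := by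
    intro k w
    rw [hx, hy]
    exact EP9_cz_map hr _ _ _ _ _
  have hyx : ∀ k w, cz r (y' k) w (x' k) ↔ cz r (y k) (A (k + 1) + sg (E (k + 1)) * w) (x k) := by
    intro k w
    rw [hx, hy]
    exact EP9_cz_map hr _ _ _ _ _
  have hinv : ∀ k, A k + sg (E k) * l' k = l k := by
    intro k
    rw [hl]
    exact EP9_inv _ _ _
  have hA3 : ∀ k, A (k + 3) = A (k + 1) := fun k => hA (k + 1)
  have hE3 : ∀ k, E (k + 3) = E (k + 1) := fun k => hE (k + 1)
  refine
    { one := ?_
      F1 := ?_
      F2 := ?_
      F6a := ?_
      F6b := ?_
      gp := ?_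
      gm := ?_
      emp1 := ?_
      empp := ?_
      empm := ?_ }
  · intro k j
    rw [hX, hinv, h.one, hx, hy]
    cases E (k + 1) with
    | true =>
      rw [if_pos rfl, if_pos rfl]
      have e1 : A (k + 1) + sg true * j - x k = j - (x k - A (k + 1)) := by
        simp only [sg, if_true]; ring
      have e2 : A (k + 1) + sg true * j - y k = j - (y k - A (k + 1)) := by
        simp only [sg, if_true]; ring
      rw [e1, e2]
    | false =>
      rw [if_neg (by decide), if_neg (by decide)]
      have e1 : A (k + 1) + sg false * j - x k = -(j - -(x k - A (k + 1))) := by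
        simp only [sg]; simp only [Bool.false_eq_true, if_false]; ring
      have e2 : A (k + 1) + sg false * j - y k = -(j - -(y k - A (k + 1))) := by
        simp only [sg]; simp only [Bool.false_eq_true, if_false]; ring
      rw [e1, e2, dvd_neg, dvd_neg]
      exact or_comm
  · intro k
    rw [hxy, hinv]
    exact h.F1 k
  · intro k
    rw [hyx]
    show cz r (y (k + 1)) (A (k + 2) + sg (E (k + 2)) * l' k) (x (k + 1))
    rw [hA, hE, hinv]
    exact h.F2 k
  · intro k
    rw [hyx, ← hA3, ← hE3, hinv]
    exact h.F6a k
  · intro k
    rw [hyx]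
    show cz r (y (k + 3)) (A (k + 2 + 2) + sg (E (k + 2 + 2)) * l' k) (x (k + 3))
    rw [hA, hE, hA, hE, hinv]
    exact h.F6b k
  · intro k hk hdk
    rw [hd] at hdk
    rw [hl, hy]
    rcases hEk : E (k + 1) with _ | _
    · rw [hEk] at hdk
      have h1 : d (k + 1) = false := by
        revert hdk; cases d (k + 1) <;> decide
      have h2 := h.gm k hk h1
      rw [if_neg (by decide)]
      have e : -(x k - A (k + 1)) - (sg false * (l (k + 1) - A (k + 1)) + 1) =
          l (k + 1) - (x k + 1) := by
        simp only [sg]; simp only [Bool.false_eq_true, if_false]; ring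
      rw [e]; exact h2
    · rw [hEk] at hdk
      have h1 : d (k + 1) = true := by
        revert hdk; cases d (k + 1) <;> decide
      have h2 := h.gp k hk h1
      rw [if_pos rfl]
      have e : y k - A (k + 1) - (sg true * (l (k + 1) - A (k + 1)) + 1) =
          y k - (l (k + 1) + 1) := by
        simp only [sg, if_true]; ring
      rw [e]; exact h2
  · intro k hk hdk
    rw [hd] at hdk
    rw [hl, hx]
    rcases hEk : E (k + 1) with _ | _
    · rw [hEk] at hdk
      have h1 : d (k + 1) = true := by
        revert hdk; cases d (k + 1) <;> decide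
      have h2 := h.gp k hk h1
      rw [if_neg (by decide)]
      have e : sg false * (l (k + 1) - A (k + 1)) - (-(y k - A (k + 1)) + 1) =
          y k - (l (k + 1) + 1) := by
        simp only [sg]; simp only [Bool.false_eq_true, if_false]; ring
      rw [e]; exact h2
    · rw [hEk] at hdk
      have h1 : d (k + 1) = false := by
        revert hdk; cases d (k + 1) <;> decide
      have h2 := h.gm k hk h1
      rw [if_pos rfl]
      have e : sg true * (l (k + 1) - A (k + 1)) - (x k - A (k + 1) + 1) =
          l (k + 1) - (x k + 1) := by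
        simp only [sg, if_true]; ring
      rw [e]; exact h2
  · intro w z hw hz
    rw [hxy] at hw hz
    rw [hX]
    exact h.emp1 _ _ hw hz
  · intro k hdk w z hw hz
    rw [hxy] at hz
    rw [hX]
    rw [hd, hE] at hdk
    rw [hA, hE]
    rw [hl, hy] at hw
    have e0 : E (k + 1 + 1) = E k := hE k
    have e0' : A (k + 1 + 1) = A k := hA k
    rw [e0, e0'] at hw
    rcases hEk : E k with _ | _
    · rw [hEk] at hdk hw
      have h1 : d (k + 2) = false := by
        revert hdk; cases d (k + 2) <;> decide
      refine h.empm k h1 _ _ ?_ hz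
      rcases hw with hw | hw
      · left
        have e : A k + sg false * w - l k = -(w - sg false * (l k - A k)) := by
          simp only [sg]; simp only [Bool.false_eq_true, if_false]; ring
        rw [e, dvd_neg]; exact hw
      · right
        rw [if_neg (by decide)] at hw
        have h3 := (EP9_cz_map hr false (A k) (x (k + 1)) w (l k)).mp
        rw [if_neg (by decide), if_neg (by decide)] at h3
        apply h3
        have e : sg false * (l k - A k) = -(l k - A k) := by
          simp only [sg]; simp only [Bool.false_eq_true, if_false]; ring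
        rw [e] at hw
        exact hw
    · rw [hEk] at hdk hw
      have h1 : d (k + 2) = true := by
        revert hdk; cases d (k + 2) <;> decide
      refine h.empp k h1 _ _ ?_ hz
      rcases hw with hw | hw
      · left
        have e : A k + sg true * w - l k = w - sg true * (l k - A k) := by
          simp only [sg, if_true]; ring
        rw [e]; exact hw
      · right
        rw [if_pos rfl] at hw
        have h3 := (EP9_cz_map hr true (A k) (l k) w (y (k + 1))).mp
        rw [if_pos rfl, if_pos rfl] at h3
        apply h3
        have e : sg true * (l k - A k) = l k - A k := by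
          simp only [sg, if_true]; ring
        rw [e] at hw
        exact hw
  · intro k hdk w z hw hz
    rw [hxy] at hz
    rw [hX]
    rw [hd, hE] at hdk
    rw [hA, hE]
    rw [hl, hx] at hw
    have e0 : E (k + 1 + 1) = E k := hE k
    have e0' : A (k + 1 + 1) = A k := hA k
    rw [e0, e0'] at hw
    rcases hEk : E k with _ | _
    · rw [hEk] at hdk hw
      have h1 : d (k + 2) = true := by
        revert hdk; cases d (k + 2) <;> decide
      refine h.empp k h1 _ _ ?_ hz
      rcases hw with hw | hw
      · left
        have e : A k + sg false * w - l k = -(w - sg false * (l k - A k)) := by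
          simp only [sg]; simp only [Bool.false_eq_true, if_false]; ring
        rw [e, dvd_neg]; exact hw
      · right
        rw [if_neg (by decide)] at hw
        have h3 := (EP9_cz_map hr false (A k) (l k) w (y (k + 1))).mp
        rw [if_neg (by decide), if_neg (by decide)] at h3
        apply h3
        have e : sg false * (l k - A k) = -(l k - A k) := by
          simp only [sg]; simp only [Bool.false_eq_true, if_false]; ring
        rw [e] at hw
        exact hw
    · rw [hEk] at hdk hw
      have h1 : d (k + 2) = false := by
        revert hdk; cases d (k + 2) <;> decide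
      refine h.empm k h1 _ _ ?_ hz
      rcases hw with hw | hw
      · left
        have e : A k + sg true * w - l k = w - sg true * (l k - A k) := by
          simp only [sg, if_true]; ring
        rw [e]; exact hw
      · right
        rw [if_pos rfl] at hw
        have h3 := (EP9_cz_map hr true (A k) (x (k + 1)) w (l k)).mp
        rw [if_pos rfl, if_pos rfl] at h3
        apply h3
        have e : sg true * (l k - A k) = l k - A k := by
          simp only [sg, if_true]; ring
        rw [e] at hw
        exact hw

/-- parity -/
theorem EP9_par (a b : ℤ) (e f : Bool) (k : ℕ) (i j : ℤ) :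
    par (mp a b e f X) k i j ↔
      par X k ((if k % 2 = 0 then a else b) + sg (if k % 2 = 0 then e else f) * i)
        ((if (k + 1) % 2 = 0 then a else b) + sg (if (k + 1) % 2 = 0 then e else f) * j) := by
  rcases Nat.mod_two_eq_zero_or_one k with h0 | h0
  · have h1 : ¬ ((k + 1) % 2 = 0) := by omega
    unfold par
    rw [if_pos h0, if_pos h0, if_pos h0, if_pos h0, if_neg h1, if_neg h1]
    exact Iff.rfl
  · have h1 : (k + 1) % 2 = 0 := by omega
    have h2 : ¬ (k % 2 = 0) := by omega
    unfold par
    rw [if_neg h2, if_neg h2, if_neg h2, if_neg h2, if_pos h1, if_pos h1]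
    exact Iff.rfl

theorem PZ.mp (hr : 0 < r) {l x y : ℕ → ℤ} {d : ℕ → Bool} (h : PZ r X l x y d) (a b : ℤ)
    (e f : Bool) :
    PZ r (mp a b e f X)
      (fun k => if k % 2 = 0 then sg e * (l k - a) else sg f * (l k - b))
      (fun k => if k % 2 = 0 then (if f then x k - b else -(y k - b))
        else (if e then x k - a else -(y k - a)))
      (fun k => if k % 2 = 0 then (if f then y k - b else -(x k - b))
        else (if e then y k - a else -(x k - a)))
      (fun k => if k % 2 = 0 then (d k == e) else (d k == f)) := by
  have p2 : ∀ k : ℕ, ((k + 2) % 2 = 0) = (k % 2 = 0) := by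
    intro k
    rw [Nat.add_mod_right]
  refine EP9_gen hr (A := fun k => if k % 2 = 0 then a else b)
    (E := fun k => if k % 2 = 0 then e else f) (l := l) (x := x) (y := y) (d := d) ?_ ?_ ?_ ?_ ?_ ?_
    (EP9_par a b e f) h
  · intro k
    simp only [p2]
  · intro k
    simp only [p2]
  · intro k
    by_cases h0 : k % 2 = 0
    · simp only [h0, if_true]
    · simp only [h0, if_false]
  · intro k
    by_cases h0 : k % 2 = 0
    · have h1 : ¬ ((k + 1) % 2 = 0) := by omega
      simp only [h0, if_true, h1, if_false]
    · have h1 : (k + 1) % 2 = 0 := by omega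
      simp only [h0, if_true, h1, if_false]
  · intro k
    by_cases h0 : k % 2 = 0
    · have h1 : ¬ ((k + 1) % 2 = 0) := by omega
      simp only [h0, if_true, h1, if_false]
    · have h1 : (k + 1) % 2 = 0 := by omega
      simp only [h0, if_true, h1, if_false]
  · intro k
    by_cases h0 : k % 2 = 0
    · simp only [h0, if_true]
    · simp only [h0, if_false]

theorem EP9_small {t : ℤ} (hr : 0 < r) (h1 : -r < t) (h2 : t < r) (h3 : r ∣ t) : t = 0 := by
  obtain ⟨n, rfl⟩ := h3
  have h4 : n = 0 := by
    by_contra hn
    rcases lt_or_gt_of_ne hn with h5 | h5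
    · nlinarith
    · nlinarith
  rw [h4, mul_zero]

theorem EP9_row (h : Tor r X) (a b : ℤ) (e f : Bool) (i : ℤ) :
    ∃ x y, Gap r (H46K.mp a b e f X) i x y := by
  obtain ⟨x0, y0, g⟩ := h.row (a + sg e * i)
  have hr := h.pos
  cases f with
  | true =>
    refine ⟨x0 - b, y0 - b, by linarith [g.lt], by linarith [g.lt'], fun j h1 h2 => ?_⟩
    show X (a + sg e * i) (b + sg true * j) ↔ _
    have e1 : b + sg true * j = b + j := by simp only [sg, if_true]; ring
    rw [e1, g.one _ (by linarith) (by linarith)]
    constructor
    · rintro (h3 | h3)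
      · left; linarith
      · right; linarith
    · rintro (h3 | h3)
      · left; linarith
      · right; linarith
  | false =>
    refine ⟨b - y0, b - x0, by linarith [g.lt], by linarith [g.lt'], fun j h1 h2 => ?_⟩
    show X (a + sg e * i) (b + sg false * j) ↔ _
    have e1 : b + sg false * j = b - j := by
      simp only [sg]; simp only [Bool.false_eq_true, if_false]; ring
    rw [e1, EP8_gap_iff h g]
    have l1 := g.lt
    have l2 := g.lt'
    constructor
    · rintro (h3 | h3)
      · right
        have := EP9_small hr (by linarith) (by linarith) h3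
        linarith
      · left
        have := EP9_small hr (by linarith) (by linarith) h3
        linarith
    · rintro (h3 | h3)
      · right; rw [h3]; exact ⟨0, by ring⟩
      · left; rw [h3]; exact ⟨0, by ring⟩

theorem EP9_nr (h : Tor r X) (a b : ℤ) (e f : Bool) (i j : ℤ)
    (hx : H46K.mp a b e f X i j) : ¬ H46K.mp a b e f X i (j + 1) := by
  intro hy
  have hx' : X (a + sg e * i) (b + sg f * j) := hx
  have hy' : X (a + sg e * i) (b + sg f * (j + 1)) := hy
  cases f with
  | true =>
    have e1 : b + sg true * j = b + j := by simp only [sg, if_true]; ring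
    have e2 : b + sg true * (j + 1) = b + j + 1 := by simp only [sg, if_true]; ring
    rw [e1] at hx'
    rw [e2] at hy'
    exact h.nr _ _ hx' hy'
  | false =>
    have e1 : b + sg false * j = b - (j + 1) + 1 := by
      simp only [sg]; simp only [Bool.false_eq_true, if_false]; ring
    have e2 : b + sg false * (j + 1) = b - (j + 1) := by
      simp only [sg]; simp only [Bool.false_eq_true, if_false]; ring
    rw [e1] at hx'
    rw [e2] at hy'
    exact h.nr _ _ hy' hx'

theorem EP9_perR (h : Tor r X) (a b : ℤ) (e f : Bool) (i j : ℤ) :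
    H46K.mp a b e f X (i + r) j ↔ H46K.mp a b e f X i j := by
  show X (a + sg e * (i + r)) (b + sg f * j) ↔ X (a + sg e * i) (b + sg f * j)
  have e1 : a + sg e * (i + r) = a + sg e * i + sg e * r := by ring
  rw [e1, h.perRn]

theorem Tor.mp (h : Tor r X) (a b : ℤ) (e f : Bool) : Tor r (mp a b e f X) :=
  ⟨h.pos, fun i j => EP9_perR h a b e f i j, fun i j => EP9_perR h.tr b a f e j i,
    fun i => EP9_row h a b e f i, fun j => EP9_row h.tr b a f e j,
    fun i j hx => EP9_nr h a b e f i j hx, fun i j hx => EP9_nr h.tr b a f e j i hx⟩

end H46K
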