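import Pool.Agent.Lib.H46K.EDefs

/-!
# H46K, Part E, chunk ES1: elementary properties of `code` and insertion of a point
-/

namespace H46K

/-- number of elements `< w` -/
def es1A (S : Finset ℕ) (w : ℕ) : ℕ := (S.filter fun s => s < w).card

theorem es1A_mono (S : Finset ℕ) {w w' : ℕ} (h : w ≤ w') : es1A S w ≤ es1A S w' := by
  apply Finset.card_le_card
  intro s hs
  simp only [Finset.mem_filter] at hs ⊢
  exact ⟨hs.1, by omega⟩

theorem es1A_succ_mem (S : Finset ℕ) {w : ℕ} (h : w ∈ S) : es1A S (w + 1) = es1A S w + 1 := by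
  unfold es1A
  have : (S.filter fun s => s < w + 1) = insert w (S.filter fun s => s < w) := by
    ext s
    simp only [Finset.mem_filter, Finset.mem_insert]
    constructor
    · rintro ⟨h1, h2⟩
      by_cases hs : s = w
      · exact Or.inl hs
      · exact Or.inr ⟨h1, by omega⟩
    · rintro (rfl | ⟨h1, h2⟩)
      · exact ⟨h, by omega⟩
      · exact ⟨h1, by omega⟩
  rw [this, Finset.card_insert_of_notMem]
  simp

theorem es1A_succ_notMem (S : Finset ℕ) {w : ℕ} (h : w ∉ S) : es1A S (w + 1) = es1A S w := by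
  unfold es1A
  congr 1
  ext s
  simp only [Finset.mem_filter]
  constructor
  · rintro ⟨h1, h2⟩
    exact ⟨h1, lt_of_le_of_ne (by omega) (fun e => h (e ▸ h1))⟩
  · rintro ⟨h1, h2⟩
    exact ⟨h1, by omega⟩

theorem es1A_le (S : Finset ℕ) (w : ℕ) : es1A S w ≤ S.card := by
  apply Finset.card_le_card
  exact Finset.filter_subset _ _

theorem es1_code (S : Finset ℕ) (w : ℕ) : code S w = es1A S w + es1A S (w + 1) - 1 := by
  unfold code es1A
  simp only [Nat.lt_succ_iff]

theorem es1A_pos (S : Finset ℕ) (h0 : 0 ∈ S) (w : ℕ) : 1 ≤ es1A S (w + 1) := by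
  apply Finset.card_pos.2
  exact ⟨0, by simp [h0]⟩

theorem es1A_zero (S : Finset ℕ) : es1A S 0 = 0 := by
  unfold es1A
  simp

/-- More points of `S` are `< w` and `≤ w` when `w` grows. -/
theorem code_mono (S : Finset ℕ) {w w' : ℕ} (h : w ≤ w') : code S w ≤ code S w' := by
  rw [es1_code, es1_code]
  have h1 := es1A_mono S h
  have h2 := es1A_mono S (show w + 1 ≤ w' + 1 by omega)
  omega

/-- `#(S ≤ w) + #(S < w) - 1 < 2 #S`. -/
theorem code_lt (S : Finset ℕ) (h0 : 0 ∈ S) (w : ℕ) : code S w < 2 * S.card := by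
  rw [es1_code]
  have h1 := es1A_le S w
  have h2 := es1A_le S (w + 1)
  have h3 : 0 < S.card := Finset.card_pos.2 ⟨0, h0⟩
  omega

/-- `#(S < w) = #(S ≤ w)` if `w ∉ S` and `#(S < w) + 1 = #(S ≤ w)` if `w ∈ S`; and
`#(S ≤ w) ≥ 1` since `0 ∈ S`. -/
theorem code_even_iff (S : Finset ℕ) (h0 : 0 ∈ S) (w : ℕ) : code S w % 2 = 0 ↔ w ∈ S := by
  rw [es1_code]
  have h1 := es1A_pos S h0 w
  by_cases h : w ∈ S
  · have := es1A_succ_mem S h
    simp only [h, iff_true]
    omega
  · have := es1A_succ_notMem S h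
    simp only [h, iff_false]
    omega

theorem code_zero (S : Finset ℕ) (h0 : 0 ∈ S) : code S 0 = 0 := by
  rw [es1_code, es1A_succ_mem S h0, es1A_zero]

/-- strict monotonicity if one of the two points is in `S` -/
theorem code_strict (S : Finset ℕ) (h0 : 0 ∈ S) {w w' : ℕ} (h : w < w') (hS : w ∈ S ∨ w' ∈ S) :
    code S w < code S w' := by
  rw [es1_code, es1_code]
  have h1 := es1A_pos S h0 w
  have h2 := es1A_mono S (show w + 1 ≤ w' by omega)
  have h3 := es1A_mono S (show w' ≤ w' + 1 by omega)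
  have h4 := es1A_mono S (show w ≤ w + 1 by omega)
  rcases hS with hS | hS
  · have := es1A_succ_mem S hS
    omega
  · have := es1A_succ_mem S hS
    omega

/-- from `code_strict` -/
theorem code_inj (S : Finset ℕ) (h0 : 0 ∈ S) {w w' : ℕ} (hS : w ∈ S)
    (h : code S w = code S w') : w = w' := by
  rcases Nat.lt_trichotomy w w' with hlt | heq | hgt
  · have := code_strict S h0 hlt (Or.inl hS)
    omega
  · exact heq
  · have := code_strict S h0 hgt (Or.inr hS)
    omega

/-- from `code_strict` and `code_mono` -/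
theorem lt_iff_code_lt (S : Finset ℕ) (h0 : 0 ∈ S) {w w' : ℕ} (hS : w ∈ S ∨ w' ∈ S) :
    w < w' ↔ code S w < code S w' := by
  constructor
  · intro h
    exact code_strict S h0 h hS
  · intro h
    by_contra hc
    have := code_mono S (show w' ≤ w by omega)
    omega

theorem es1A_insert_le (S : Finset ℕ) {v w : ℕ} (h : w ≤ v) :
    es1A (insert v S) w = es1A S w := by
  unfold es1A
  congr 1
  ext s
  simp only [Finset.mem_filter, Finset.mem_insert]
  constructor
  · rintro ⟨h1 | h1, h2⟩
    · omega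
    · exact ⟨h1, h2⟩
  · rintro ⟨h1, h2⟩
    exact ⟨Or.inr h1, h2⟩

theorem es1A_insert_gt (S : Finset ℕ) {v w : ℕ} (hv : v ∉ S) (h : v < w) :
    es1A (insert v S) w = es1A S w + 1 := by
  unfold es1A
  rw [Finset.filter_insert, if_pos h, Finset.card_insert_of_notMem]
  simp [hv]

/-- insertion of `v ∉ S`: points below `v` keep their code -/
theorem code_insert_lt (S : Finset ℕ) {v w : ℕ} (hv : v ∉ S) (h : w < v) :
    code (insert v S) w = code S w := by
  have _ := hv
  rw [es1_code, es1_code, es1A_insert_le S (by omega), es1A_insert_le S (by omega)]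

theorem code_insert_self (S : Finset ℕ) (h0 : 0 ∈ S) {v : ℕ} (hv : v ∉ S) :
    code (insert v S) v = code S v + 1 := by
  rw [es1_code, es1_code, es1A_insert_le S le_rfl, es1A_insert_gt S hv (by omega)]
  have h1 := es1A_pos S h0 v
  omega

theorem code_insert_gt (S : Finset ℕ) (h0 : 0 ∈ S) {v w : ℕ} (hv : v ∉ S) (h : v < w) :
    code (insert v S) w = code S w + 2 := by
  rw [es1_code, es1_code, es1A_insert_gt S hv h, es1A_insert_gt S hv (by omega)]
  have h1 := es1A_pos S h0 w
  omega

/-- the code of the successor of a point `w ∈ S`: one or two more -/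
theorem code_succ (S : Finset ℕ) (h0 : 0 ∈ S) {w : ℕ} (hw : w ∈ S) :
    code S (w + 1) = code S w + 1 ∨ code S (w + 1) = code S w + 2 := by
  rw [es1_code, es1_code]
  have h1 := es1A_pos S h0 w
  have h2 := es1A_succ_mem S hw
  by_cases h : w + 1 ∈ S
  · have h3 := es1A_succ_mem S h
    omega
  · have h3 := es1A_succ_notMem S h
    omega

theorem es1A_all (S : Finset ℕ) {w : ℕ} (h : ∀ s ∈ S, s < w) : es1A S w = S.card := by
  unfold es1A
  congr 1
  ext s
  simp only [Finset.mem_filter]
  exact ⟨fun h => h.1, fun hs => ⟨hs, h s hs⟩⟩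

/-- the code of the last point: if `w ∈ S` is the largest element then its code is `2 #S - 2` -/
theorem code_max (S : Finset ℕ) (h0 : 0 ∈ S) {w : ℕ} (hw : w ∈ S) (hmax : ∀ s ∈ S, s ≤ w) :
    code S w = 2 * S.card - 2 := by
  rw [es1_code]
  have h1 := es1A_all S (w := w + 1) (fun s hs => by have := hmax s hs; omega)
  have h2 := es1A_succ_mem S hw
  have h3 := es1A_pos S h0 w
  omega

/-- if all the elements of `S` are `≤ w` then the code of `w` is `2 #S - 2` or `2 #S - 1` -/
theorem code_top (S : Finset ℕ) (h0 : 0 ∈ S) {w : ℕ} (hmax : ∀ s ∈ S, s ≤ w) :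
    code S w = 2 * S.card - 2 ∨ code S w = 2 * S.card - 1 := by
  rw [es1_code]
  have h1 := es1A_all S (w := w + 1) (fun s hs => by have := hmax s hs; omega)
  have h3 := es1A_pos S h0 w
  by_cases h : w ∈ S
  · have h2 := es1A_succ_mem S h
    omega
  · have h2 := es1A_succ_notMem S h
    omega

end H46K
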