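import Pool.Agent.Lib.H46K.EDefs

/-!
# H46K, Part E, chunk ES2: bit masks (pure arithmetic of natural numbers)

`bit M i = M.testBit i`. A difference of two powers
`2 ^ b - 2 ^ a` (`a ≤ b`) has exactly the bits `i` with `a ≤ i < b`: it is
`(2 ^ (b - a) - 1) <<< a`.
-/

namespace H46K

theorem bit_eq_testBit (M i : ℕ) : bit M i = M.testBit i := by
  unfold bit
  rw [Nat.testBit_eq_decide_div_mod_eq, Nat.shiftRight_eq_div_pow]
  rfl

theorem bit_and (M N i : ℕ) : bit (M &&& N) i = (bit M i && bit N i) := by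
  simp only [bit_eq_testBit, Nat.testBit_and]

theorem bit_or (M N i : ℕ) : bit (M ||| N) i = (bit M i || bit N i) := by
  simp only [bit_eq_testBit, Nat.testBit_or]

theorem bit_xor (M N i : ℕ) : bit (M ^^^ N) i = Bool.xor (bit M i) (bit N i) := by
  simp only [bit_eq_testBit, Nat.testBit_xor]

theorem bit_zero (i : ℕ) : bit 0 i = false := by
  simp only [bit_eq_testBit, Nat.zero_testBit]

theorem bit_shl (M j i : ℕ) : bit (M <<< j) i = (decide (j ≤ i) && bit M (i - j)) := by
  simp only [bit_eq_testBit, Nat.testBit_shiftLeft]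

theorem bit_shr (M j i : ℕ) : bit (M >>> j) i = bit M (j + i) := by
  simp only [bit_eq_testBit, Nat.testBit_shiftRight]

theorem bit_one_shift (j i : ℕ) : bit (1 <<< j) i = decide (i = j) := by
  rw [bit_eq_testBit, Nat.one_shiftLeft, Nat.testBit_two_pow]
  rw [decide_eq_decide]
  exact eq_comm

theorem subM_bit {M N : ℕ} (h : subM M N = true) {i : ℕ} (hi : bit M i = true) :
    bit N i = true := by
  unfold subM at h
  rw [beq_iff_eq] at h
  rw [← h, bit_or, hi, Bool.true_or]

/-- the full mask -/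
theorem bit_full (n i : ℕ) : bit ((1 <<< n) - 1) i = decide (i < n) := by
  rw [bit_eq_testBit, Nat.one_shiftLeft, Nat.testBit_two_pow_sub_one]

theorem bit_range (a b i : ℕ) (h : a ≤ b) :
    bit ((1 <<< b) - (1 <<< a)) i = decide (a ≤ i ∧ i < b) := by
  have e : (1 <<< b) - (1 <<< a) = (2 ^ (b - a) - 1) <<< a := by
    rw [Nat.one_shiftLeft, Nat.one_shiftLeft, Nat.shiftLeft_eq, Nat.sub_mul, one_mul,
      ← pow_add, Nat.sub_add_cancel h]
  rw [e, bit_shl, bit_eq_testBit, Nat.testBit_two_pow_sub_one]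
  by_cases h1 : a ≤ i
  · by_cases h2 : i < b
    · have h3 : i - a < b - a := by omega
      simp [h1, h2, h3]
    · have h3 : ¬ i - a < b - a := by omega
      simp [h1, h2, h3]
  · simp [h1]

/-- two disjoint ranges `[a, m)` and `[0, b)`, `b ≤ a` -/
theorem bit_two_ranges (a b m i : ℕ) (hb : b ≤ a) (ha : a ≤ m) :
    bit (((1 <<< m) - (1 <<< a)) + ((1 <<< b) - 1)) i =
      decide ((a ≤ i ∧ i < m) ∨ i < b) := by
  have e : ((1 <<< m) - (1 <<< a)) + ((1 <<< b) - 1) =
      (2 ^ (m - a) - 1) <<< a ||| ((1 <<< b) - 1) := by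
    have e1 : (1 <<< m) - (1 <<< a) = (2 ^ (m - a) - 1) <<< a := by
      rw [Nat.one_shiftLeft, Nat.one_shiftLeft, Nat.shiftLeft_eq, Nat.sub_mul, one_mul,
        ← pow_add, Nat.sub_add_cancel ha]
    rw [e1]
    apply Nat.shiftLeft_add_eq_or_of_lt
    have h2 : 1 <<< b ≤ 2 ^ a := by
      rw [Nat.one_shiftLeft]
      exact Nat.pow_le_pow_right (by norm_num) hb
    have h3 : 0 < 1 <<< b := by
      rw [Nat.one_shiftLeft]
      exact Nat.pos_of_ne_zero (by positivity)
    omega
  rw [e, bit_or, bit_full, bit_shl, bit_eq_testBit, Nat.testBit_two_pow_sub_one]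
  by_cases h1 : a ≤ i
  · by_cases h2 : i < m
    · have h3 : i - a < m - a := by omega
      simp [h1, h2, h3]
    · have h3 : ¬ i - a < m - a := by omega
      simp [h1, h2, h3]
  · simp [h1]

theorem bit_arcOpen {m a b c : ℕ} (ha : a < m) (hb : b < m) (hc : c < m) :
    bit (arcOpen m a b) c = true ↔ (a < c ∧ c < b) ∨ (b < a ∧ (a < c ∨ c < b)) := by
  unfold arcOpen
  split_ifs with h1 h2
  · rw [bit_zero]
    simp only [Bool.false_eq_true, false_iff]
    omega
  · rw [bit_range _ _ _ (by omega), decide_eq_true_eq]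
    omega
  · rw [bit_two_ranges _ _ _ _ (by omega) (by omega), decide_eq_true_eq]
    omega

theorem bit_arcMask {m lo hi c : ℕ} (hlo : lo < m) (hhi : hi < m) (hc : c < m) :
    bit (arcMask m lo hi) c = true ↔ if lo ≤ hi then lo ≤ c ∧ c ≤ hi else lo ≤ c ∨ c ≤ hi := by
  unfold arcMask
  split_ifs with h1
  · rw [bit_range _ _ _ (by omega), decide_eq_true_eq]
    omega
  · rw [bit_two_ranges _ _ _ _ (by omega) (by omega), decide_eq_true_eq]
    omega

theorem bit_insMask {c M i : ℕ} (h : bit M i = true) :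
    (i ≤ c → bit (insMask c M) i = true) ∧ (i = c → bit (insMask c M) (i + 1) = true) ∧
      (c ≤ i → bit (insMask c M) (i + 2) = true) := by
  unfold insMask
  refine ⟨fun hi => ?_, fun hi => ?_, fun hi => ?_⟩
  · rw [bit_or, Bool.or_eq_true]
    left
    rw [bit_eq_testBit, Nat.one_shiftLeft, Nat.testBit_mod_two_pow]
    rw [bit_eq_testBit] at h
    simp only [h, Bool.and_true, decide_eq_true_eq]
    omega
  · subst hi
    rw [bit_or, bit_or, Bool.or_eq_true, Bool.or_eq_true]
    right
    left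
    rw [bit_shl]
    have h1 : (M >>> i) % 2 = 1 := by
      unfold bit at h
      simpa using h
    rw [h1]
    simp [bit]
  · rw [bit_or, bit_or, Bool.or_eq_true, Bool.or_eq_true]
    right
    right
    rw [bit_shl, bit_shr]
    have h1 : c + 2 ≤ i + 2 := by omega
    have h2 : c + (i + 2 - (c + 2)) = i := by omega
    rw [h2, h]
    simp [hi]

theorem bit_glueP {m p c : ℕ} (h : c = p + 1 ∨ c = (p + 2) % m) :
    bit (glueP m p) c = true := by
  unfold glueP
  rw [bit_or, bit_one_shift, bit_one_shift]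
  rcases h with h | h <;> simp [h]

theorem bit_glueM {m p c : ℕ} (h : c = (p + m - 1) % m ∨ c = (p + m - 2) % m) :
    bit (glueM m p) c = true := by
  unfold glueM
  rw [bit_or, bit_one_shift, bit_one_shift]
  rcases h with h | h <;> simp [h]

/-- the mask of a label -/
theorem bit_labMask {m t0 t1 t2 t3 ρ a c : ℕ} (h0 : t0 < t1) (h1 : t1 < t2) (h2 : t2 < t3)
    (h3 : t3 < m) (hρ : ρ < 4) (ha : a < 4) (h : bit (labMask m t0 t1 t2 t3 ρ a) c = true) :
    lab t0 t1 t2 t3 ρ c = a := by
  unfold labMask at h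
  unfold lab
  dsimp only at h
  split_ifs at h with e0 e1 e2
  · rw [add_comm, bit_two_ranges _ _ _ _ (by omega) (by omega), decide_eq_true_eq] at h
    split_ifs <;> omega
  · rw [bit_range _ _ _ (by omega), decide_eq_true_eq] at h
    split_ifs <;> omega
  · rw [bit_range _ _ _ (by omega), decide_eq_true_eq] at h
    split_ifs <;> omega
  · rw [bit_range _ _ _ (by omega), decide_eq_true_eq] at h
    split_ifs <;> omega

end H46K
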