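import Pool.Agent.Lib.H46K.ES1
import Pool.Agent.Lib.H46K.ES2

/-!
# H46K, Part E, chunk ES3: masks and cyclic betweenness
-/

namespace H46K

/-- `w` lies strictly between the placed points `p` and `q` (cyclically): then its code lies
strictly between the codes (`lt_iff_code_lt` for the pairs `(p,w)`, `(w,q)`, `(p,q)`). -/
theorem bit_of_cb (S : Finset ℕ) (h0 : 0 ∈ S) {p w q : ℕ} (hp : p ∈ S) (hq : q ∈ S)
    (h : cb p w q) : bit (arcOpen (2 * S.card) (code S p) (code S q)) (code S w) = true := by
  rw [bit_arcOpen (code_lt S h0 p) (code_lt S h0 q) (code_lt S h0 w)]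
  unfold cb at h
  rw [lt_iff_code_lt S h0 (Or.inl hp), lt_iff_code_lt S h0 (Or.inr hq),
    lt_iff_code_lt S h0 (Or.inl hq)] at h
  omega

/-- The successor (cyclically modulo `r`) of a placed point `p`: `code_succ` if `p + 1 < r`; if
`p + 1 = r` then `p` is the largest element of `S`, its code is `2 #S - 2` (`code_max`) and
`code S 0 = 0`. Note `code S (p+1) < 2 #S` by `code_lt`, so the reduction mod `m` in `glueP` is
harmless in the first case. -/
theorem bit_succ (S : Finset ℕ) (h0 : 0 ∈ S) {r p : ℕ} (hr : ∀ s ∈ S, s < r) (hp : p ∈ S) :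
    bit (glueP (2 * S.card) (code S p)) (code S (if p + 1 = r then 0 else p + 1)) = true := by
  apply bit_glueP
  have hc : 0 < S.card := Finset.card_pos.2 ⟨0, h0⟩
  split_ifs with h
  · right
    rw [code_zero S h0, code_max S h0 hp (fun s hs => by have := hr s hs; omega)]
    have e : 2 * S.card - 2 + 2 = 2 * S.card := by omega
    rw [e, Nat.mod_self]
  · rcases code_succ S h0 hp with h1 | h1
    · exact Or.inl h1
    · right
      have h2 := code_lt S h0 (p + 1)
      rw [Nat.mod_eq_of_lt (by omega)]
      exact h1

/-- The predecessor: `p ∈ S` is the cyclic successor of `w < r`. If `w + 1 = r` then `p = 0` and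
`code_top` applies to `w`; otherwise `p = w + 1`, and
`#(S ≤ w) = #(S < p)`, so the code of `w` is one or two less than the code of `p`. -/
theorem bit_pred (S : Finset ℕ) (h0 : 0 ∈ S) {r p w : ℕ} (hr : ∀ s ∈ S, s < r) (hw : w < r)
    (hp : p ∈ S) (h : p = if w + 1 = r then 0 else w + 1) :
    bit (glueM (2 * S.card) (code S p)) (code S w) = true := by
  apply bit_glueM
  have hc : 0 < S.card := Finset.card_pos.2 ⟨0, h0⟩
  have _ := hw
  split_ifs at h with h1
  · subst h
    rw [code_zero S h0]
    rcases code_top S h0 (w := w) (fun s hs => by have := hr s hs; omega) with h2 | h2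
    · right
      rw [Nat.mod_eq_of_lt (by omega), h2]
      omega
    · left
      rw [Nat.mod_eq_of_lt (by omega), h2]
      omega
  · subst h
    have h2 := es1A_succ_mem S hp
    have h3 := es1A_pos S h0 w
    have h4 := code_lt S h0 (w + 1)
    have e1 := es1_code S (w + 1)
    have e2 := es1_code S w
    by_cases hwS : w ∈ S
    · have h5 := es1A_succ_mem S hwS
      right
      have h6 : code S (w + 1) + 2 * S.card - 2 = (code S (w + 1) - 2) + 2 * S.card := by omega
      rw [h6, Nat.add_mod_right, Nat.mod_eq_of_lt (by omega)]
      omega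
    · have h5 := es1A_succ_notMem S hwS
      left
      have h6 : code S (w + 1) + 2 * S.card - 1 = (code S (w + 1) - 1) + 2 * S.card := by omega
      rw [h6, Nat.add_mod_right, Nat.mod_eq_of_lt (by omega)]
      omega

/-- An arc of codes which contains (the code of) a point `p` of the gap `(x, y)` and neither the code of
`x` nor that of `y` is contained in the gap. If `lo ≤ hi` the set of points with code in
`[lo, hi]` is an interval of `ℕ` (`code_mono`) containing `p` and `w` but not `x`, `y`; if
`hi < lo` the codes of `x`, `y` are strictly between `hi` and `lo`, and each of `p`, `w` is either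
below both or above both. Finish with `omega` (unfold `cb`). -/
theorem cb_of_arc (S : Finset ℕ) (h0 : 0 ∈ S) {x p y w lo hi : ℕ} (hlo : lo < 2 * S.card)
    (hhi : hi < 2 * S.card)
    (hp : bit (arcMask (2 * S.card) lo hi) (code S p) = true)
    (hw : bit (arcMask (2 * S.card) lo hi) (code S w) = true)
    (hx : bit (arcMask (2 * S.card) lo hi) (code S x) = false)
    (hy : bit (arcMask (2 * S.card) lo hi) (code S y) = false)
    (h : cb x p y) : cb x w y := by
  rw [bit_arcMask hlo hhi (code_lt S h0 _)] at hp hw
  have hx' : ¬ bit (arcMask (2 * S.card) lo hi) (code S x) = true := by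
    rw [hx]; exact Bool.false_ne_true
  have hy' : ¬ bit (arcMask (2 * S.card) lo hi) (code S y) = true := by
    rw [hy]; exact Bool.false_ne_true
  rw [bit_arcMask hlo hhi (code_lt S h0 _)] at hx' hy'
  have mono : ∀ a b, code S a < code S b → a < b := by
    intro a b hab
    by_contra hc
    have := code_mono S (show b ≤ a by omega)
    omega
  have m1 := mono x p
  have m2 := mono p x
  have m3 := mono y p
  have m4 := mono p y
  have m5 := mono x w
  have m6 := mono w x
  have m7 := mono y w
  have m8 := mono w y
  split_ifs at hp hw hx' hy' with hl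
  · have a1 : code S x < code S p ∧ code S x < code S w ∨
        code S p < code S x ∧ code S w < code S x := by omega
    have a2 : code S y < code S p ∧ code S y < code S w ∨
        code S p < code S y ∧ code S w < code S y := by omega
    clear hp hw hx' hy'
    unfold cb at *
    rcases a1 with a1 | a1 <;> rcases a2 with a2 | a2
    · have := m1 a1.1; have := m5 a1.2; have := m3 a2.1; have := m7 a2.2
      omega
    · have := m1 a1.1; have := m5 a1.2; have := m4 a2.1; have := m8 a2.2
      omega
    · have := m2 a1.1; have := m6 a1.2; have := m3 a2.1; have := m7 a2.2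
      omega
    · have := m2 a1.1; have := m6 a1.2; have := m4 a2.1; have := m8 a2.2
      omega
  · have a1 : (code S p < code S x ∧ code S p < code S y) ∨
        (code S x < code S p ∧ code S y < code S p) := by omega
    have a2 : (code S w < code S x ∧ code S w < code S y) ∨
        (code S x < code S w ∧ code S y < code S w) := by omega
    clear hp hw hx' hy'
    unfold cb at *
    rcases a1 with a1 | a1 <;> rcases a2 with a2 | a2
    · have := m2 a1.1; have := m4 a1.2; have := m6 a2.1; have := m8 a2.2
      omega
    · have := m2 a1.1; have := m4 a1.2; have := m5 a2.1; have := m7 a2.2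
      omega
    · have := m1 a1.1; have := m3 a1.2; have := m6 a2.1; have := m8 a2.2
      omega
    · have := m1 a1.1; have := m3 a1.2; have := m5 a2.1; have := m7 a2.2
      omega

/-- The same for a half-open arc beginning at the placed point `p`. -/
theorem hull_of_arc_left (S : Finset ℕ) (h0 : 0 ∈ S) {p y w hi : ℕ} (hp : p ∈ S)
    (hhi : hi < 2 * S.card)
    (hw : bit (arcMask (2 * S.card) (code S p) hi) (code S w) = true)
    (hy : bit (arcMask (2 * S.card) (code S p) hi) (code S y) = false) :
    w = p ∨ cb p w y := by
  have hlo := code_lt S h0 p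
  rw [bit_arcMask hlo hhi (code_lt S h0 _)] at hw
  have hy' : ¬ bit (arcMask (2 * S.card) (code S p) hi) (code S y) = true := by
    rw [hy]; exact Bool.false_ne_true
  rw [bit_arcMask hlo hhi (code_lt S h0 _)] at hy'
  have i1 := lt_iff_code_lt S h0 (w := p) (w' := w) (Or.inl hp)
  have i2 := lt_iff_code_lt S h0 (w := w) (w' := p) (Or.inr hp)
  have i3 := lt_iff_code_lt S h0 (w := p) (w' := y) (Or.inl hp)
  have i4 := lt_iff_code_lt S h0 (w := y) (w' := p) (Or.inr hp)
  have mono : ∀ a b, code S a < code S b → a < b := by
    intro a b hab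
    by_contra hc
    have := code_mono S (show b ≤ a by omega)
    omega
  have m1 := mono w y
  have m2 := mono y w
  unfold cb
  split_ifs at hw hy' <;> omega

/-- The same for a half-open arc ending at the placed point `p`. -/
theorem hull_of_arc_right (S : Finset ℕ) (h0 : 0 ∈ S) {p x w lo : ℕ} (hp : p ∈ S)
    (hlo : lo < 2 * S.card)
    (hw : bit (arcMask (2 * S.card) lo (code S p)) (code S w) = true)
    (hx : bit (arcMask (2 * S.card) lo (code S p)) (code S x) = false) :
    w = p ∨ cb x w p := by
  have hhi := code_lt S h0 p
  rw [bit_arcMask hlo hhi (code_lt S h0 _)] at hw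
  have hx' : ¬ bit (arcMask (2 * S.card) lo (code S p)) (code S x) = true := by
    rw [hx]; exact Bool.false_ne_true
  rw [bit_arcMask hlo hhi (code_lt S h0 _)] at hx'
  have i1 := lt_iff_code_lt S h0 (w := p) (w' := w) (Or.inl hp)
  have i2 := lt_iff_code_lt S h0 (w := w) (w' := p) (Or.inr hp)
  have i3 := lt_iff_code_lt S h0 (w := p) (w' := x) (Or.inl hp)
  have i4 := lt_iff_code_lt S h0 (w := x) (w' := p) (Or.inr hp)
  have mono : ∀ a b, code S a < code S b → a < b := by
    intro a b hab
    by_contra hc
    have := code_mono S (show b ≤ a by omega)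
    omega
  have m1 := mono w x
  have m2 := mono x w
  unfold cb
  split_ifs at hw hx' <;> omega

end H46K
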