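import Pool.Agent.Lib.H46K.ES3

/-!
# H46K, Part E, chunk ES4: the satisfaction relation
-/

namespace H46K

/-- The Φ-path data `l x y d` satisfy the state `s`. -/
structure Sat (l x y : ℕ → ℕ) (d : ℕ → Bool) (s : St) : Prop where
  K2 : 2 ≤ s.K
  K15 : s.K ≤ 15
  nA : s.A.n = (placed l s.K 0).card
  nB : s.B.n = (placed l s.K 1).card
  LA : s.A.L.length = (s.K + 1) / 2
  LB : s.B.L.length = s.K / 2
  XA : s.A.X.length = s.K / 2
  YA : s.A.Y.length = s.K / 2
  XB : s.B.X.length = (s.K + 1) / 2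
  YB : s.B.Y.length = (s.K + 1) / 2
  DL : s.D.length = s.K
  pos : ∀ k, k < s.K → s.pos k = code (placed l s.K k) (l k)
  mx : ∀ k, k < s.K → bit (s.mx k) (code (placed l s.K (k + 1)) (x k)) = true
  my : ∀ k, k < s.K → bit (s.my k) (code (placed l s.K (k + 1)) (y k)) = true
  dir : ∀ k, k < s.K → 2 ≤ k → s.dir k = d k

/-- `placed` depends only on the parity of `σ` -/
theorem placed_add_two (l : ℕ → ℕ) (K σ : ℕ) : placed l K (σ + 2) = placed l K σ := by
  simp [placed]

theorem placed_mod (l : ℕ → ℕ) (K σ : ℕ) : placed l K (σ % 2) = placed l K σ := by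
  simp [placed]

theorem mem_placed {l : ℕ → ℕ} {K k : ℕ} (h : k < K) : l k ∈ placed l K k := by
  unfold placed
  simp only [Finset.mem_image, Finset.mem_filter, Finset.mem_range]
  exact ⟨k, ⟨h, rfl⟩, rfl⟩

theorem zero_mem_placed {l : ℕ → ℕ} {K : ℕ} (hK : 2 ≤ K) (h0 : l 0 = 0) (h1 : l 1 = 0) (σ : ℕ) :
    0 ∈ placed l K σ := by
  unfold placed
  simp only [Finset.mem_image, Finset.mem_filter, Finset.mem_range]
  rcases Nat.mod_two_eq_zero_or_one σ with h | h
  · exact ⟨0, ⟨by omega, by omega⟩, h0⟩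
  · exact ⟨1, ⟨by omega, by omega⟩, h1⟩

/-- placing the next line: on its circle the line `l K` is inserted -/
theorem placed_succ_self (l : ℕ → ℕ) (K : ℕ) :
    placed l (K + 1) K = insert (l K) (placed l K K) := by
  ext t
  unfold placed
  simp only [Finset.mem_image, Finset.mem_filter, Finset.mem_range, Finset.mem_insert]
  constructor
  · rintro ⟨k, ⟨hk, hp⟩, rfl⟩
    by_cases e : k = K
    · left
      rw [e]
    · right
      exact ⟨k, ⟨by omega, hp⟩, rfl⟩
  · rintro (rfl | ⟨k, ⟨hk, hp⟩, rfl⟩)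
    · exact ⟨K, ⟨by omega, rfl⟩, rfl⟩
    · exact ⟨k, ⟨by omega, hp⟩, rfl⟩

/-- on the other circle nothing changes -/
theorem placed_succ_other (l : ℕ → ℕ) (K : ℕ) :
    placed l (K + 1) (K + 1) = placed l K (K + 1) := by
  ext t
  unfold placed
  simp only [Finset.mem_image, Finset.mem_filter, Finset.mem_range]
  constructor
  · rintro ⟨k, ⟨hk, hp⟩, rfl⟩
    have : k ≠ K := by omega
    exact ⟨k, ⟨by omega, hp⟩, rfl⟩
  · rintro ⟨k, ⟨hk, hp⟩, rfl⟩
    exact ⟨k, ⟨by omega, hp⟩, rfl⟩

/-- number of codes -/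
theorem Sat.m_eq {l x y : ℕ → ℕ} {d : ℕ → Bool} {s : St} (h : Sat l x y d s) (σ : ℕ) :
    s.m σ = 2 * (placed l s.K σ).card := by
  unfold St.m St.circ
  rw [← placed_mod l s.K σ]
  split_ifs with h2
  · rw [h.nA, h2]
  · have h3 : σ % 2 = 1 := by omega
    rw [h.nB, h3]

theorem es4_landAt_length (L : List ℕ) (i M : ℕ) : (landAt L i M).length = L.length := by
  induction L generalizing i with
  | nil => rfl
  | cons a L ih =>
    cases i with
    | zero => rfl
    | succ i => simp [landAt, ih]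

theorem es4_landAt_self (L : List ℕ) (i M : ℕ) :
    (landAt L i M).getD i 0 = L.getD i 0 &&& M := by
  induction L generalizing i with
  | nil => simp [landAt]
  | cons a L ih =>
    cases i with
    | zero => simp [landAt]
    | succ i => simpa [landAt] using ih i

theorem es4_landAt_ne (L : List ℕ) (i j M : ℕ) (h : j ≠ i) :
    (landAt L i M).getD j 0 = L.getD j 0 := by
  induction L generalizing i j with
  | nil => simp [landAt]
  | cons a L ih =>
    cases i with
    | zero =>
      cases j with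
      | zero => exact absurd rfl h
      | succ j => simp [landAt]
    | succ i =>
      cases j with
      | zero => simp [landAt]
      | succ j => simpa [landAt] using ih i j (by omega)

theorem es4_circ_same (s : St) (τ σ : ℕ) (c : Circ) (h : σ % 2 = τ % 2) :
    (s.setCirc τ c).circ σ = c := by
  unfold St.setCirc St.circ
  rcases Nat.mod_two_eq_zero_or_one τ with h2 | h2
  · simp [h, h2]
  · simp [h, h2]

theorem es4_circ_other (s : St) (τ σ : ℕ) (c : Circ) (h : σ % 2 ≠ τ % 2) :
    (s.setCirc τ c).circ σ = s.circ σ := by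
  unfold St.setCirc St.circ
  rcases Nat.mod_two_eq_zero_or_one τ with h2 | h2
  · have h3 : σ % 2 = 1 := by omega
    simp [h2, h3]
  · have h3 : σ % 2 = 0 := by omega
    simp [h2, h3]

theorem es4_setCirc_K (s : St) (τ : ℕ) (c : Circ) : (s.setCirc τ c).K = s.K := by
  unfold St.setCirc
  split_ifs <;> rfl

theorem es4_setCirc_D (s : St) (τ : ℕ) (c : Circ) : (s.setCirc τ c).D = s.D := by
  unfold St.setCirc
  split_ifs <;> rfl

theorem es4_circ_congr (s : St) {σ τ : ℕ} (h : σ % 2 = τ % 2) : s.circ σ = s.circ τ := by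
  unfold St.circ
  rw [h]

theorem rx_K (s : St) (k M : ℕ) : (s.rx k M).K = s.K := es4_setCirc_K _ _ _

theorem ry_K (s : St) (k M : ℕ) : (s.ry k M).K = s.K := es4_setCirc_K _ _ _

/-- restriction of the left end of gap `k` by a true fact. (`landAt` at an index inside the list; the
entry `k / 2` of the list of parity `k + 1`. All other entries and the other circle do not
change. If `k ≥ s.K` nothing changes at all, but we only need `k < s.K`.) -/
theorem Sat.rx {l x y : ℕ → ℕ} {d : ℕ → Bool} {s : St} (h : Sat l x y d s) {k M : ℕ}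
    (hk : k < s.K) (hM : bit M (code (placed l s.K (k + 1)) (x k)) = true) :
    Sat l x y d (s.rx k M) := by
  have _ := hk
  have hc : ∀ σ, (s.rx k M).circ σ = s.circ σ ∨
      (σ % 2 = (k + 1) % 2 ∧ (s.rx k M).circ σ =
        { s.circ (k + 1) with X := landAt (s.circ (k + 1)).X (k / 2) M }) := by
    intro σ
    by_cases hσ : σ % 2 = (k + 1) % 2
    · exact Or.inr ⟨hσ, es4_circ_same _ _ _ _ hσ⟩
    · exact Or.inl (es4_circ_other _ _ _ _ hσ)
  have hn : ∀ σ, ((s.rx k M).circ σ).n = (s.circ σ).n := by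
    intro σ
    rcases hc σ with e | ⟨hσ, e⟩
    · rw [e]
    · rw [e, es4_circ_congr s hσ]
  have hL : ∀ σ, ((s.rx k M).circ σ).L = (s.circ σ).L := by
    intro σ
    rcases hc σ with e | ⟨hσ, e⟩
    · rw [e]
    · rw [e, es4_circ_congr s hσ]
  have hX : ∀ σ, ((s.rx k M).circ σ).X.length = (s.circ σ).X.length := by
    intro σ
    rcases hc σ with e | ⟨hσ, e⟩
    · rw [e]
    · rw [e, es4_circ_congr s hσ]
      exact es4_landAt_length _ _ _
  have hY : ∀ σ, ((s.rx k M).circ σ).Y = (s.circ σ).Y := by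
    intro σ
    rcases hc σ with e | ⟨hσ, e⟩
    · rw [e]
    · rw [e, es4_circ_congr s hσ]
  have hK := rx_K s k M
  refine ⟨by rw [hK]; exact h.K2, by rw [hK]; exact h.K15, ?_, ?_, ?_, ?_, ?_, ?_, ?_, ?_, ?_,
    ?_, ?_, ?_, ?_⟩
  · rw [hK, ← h.nA]; exact hn 0
  · rw [hK, ← h.nB]; exact hn 1
  · rw [hK, ← h.LA]; exact congrArg List.length (hL 0)
  · rw [hK, ← h.LB]; exact congrArg List.length (hL 1)
  · rw [hK, ← h.XA]; exact hX 0
  · rw [hK, ← h.YA]; exact congrArg List.length (hY 0)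
  · rw [hK, ← h.XB]; exact hX 1
  · rw [hK, ← h.YB]; exact congrArg List.length (hY 1)
  · rw [hK, ← h.DL]; exact congrArg List.length (es4_setCirc_D _ _ _)
  · intro j hj
    rw [hK] at hj ⊢
    rw [← h.pos j hj]
    unfold St.pos
    rw [hL]
  · intro j hj
    rw [hK] at hj ⊢
    have hj' := h.mx j hj
    unfold St.mx at hj' ⊢
    rcases hc (j + 1) with e | ⟨hσ, e⟩
    · rw [e]; exact hj'
    · rw [e]
      rw [es4_circ_congr s hσ] at hj'
      dsimp only
      by_cases hjk : j / 2 = k / 2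
      · have hjk' : j = k := by omega
        subst hjk'
        rw [es4_landAt_self, bit_and, hj', hM]
        rfl
      · rw [es4_landAt_ne _ _ _ _ hjk]
        exact hj'
  · intro j hj
    rw [hK] at hj ⊢
    have hj' := h.my j hj
    unfold St.my at hj' ⊢
    rw [hY]
    exact hj'
  · intro j hj h2
    rw [hK] at hj
    rw [← h.dir j hj h2]
    exact congrArg (fun D => List.getD D j true) (es4_setCirc_D _ _ _)

theorem Sat.ry {l x y : ℕ → ℕ} {d : ℕ → Bool} {s : St} (h : Sat l x y d s) {k M : ℕ}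
    (hk : k < s.K) (hM : bit M (code (placed l s.K (k + 1)) (y k)) = true) :
    Sat l x y d (s.ry k M) := by
  have _ := hk
  have hc : ∀ σ, (s.ry k M).circ σ = s.circ σ ∨
      (σ % 2 = (k + 1) % 2 ∧ (s.ry k M).circ σ =
        { s.circ (k + 1) with Y := landAt (s.circ (k + 1)).Y (k / 2) M }) := by
    intro σ
    by_cases hσ : σ % 2 = (k + 1) % 2
    · exact Or.inr ⟨hσ, es4_circ_same _ _ _ _ hσ⟩
    · exact Or.inl (es4_circ_other _ _ _ _ hσ)
  have hn : ∀ σ, ((s.ry k M).circ σ).n = (s.circ σ).n := by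
    intro σ
    rcases hc σ with e | ⟨hσ, e⟩
    · rw [e]
    · rw [e, es4_circ_congr s hσ]
  have hL : ∀ σ, ((s.ry k M).circ σ).L = (s.circ σ).L := by
    intro σ
    rcases hc σ with e | ⟨hσ, e⟩
    · rw [e]
    · rw [e, es4_circ_congr s hσ]
  have hY : ∀ σ, ((s.ry k M).circ σ).Y.length = (s.circ σ).Y.length := by
    intro σ
    rcases hc σ with e | ⟨hσ, e⟩
    · rw [e]
    · rw [e, es4_circ_congr s hσ]
      exact es4_landAt_length _ _ _
  have hX : ∀ σ, ((s.ry k M).circ σ).X = (s.circ σ).X := by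
    intro σ
    rcases hc σ with e | ⟨hσ, e⟩
    · rw [e]
    · rw [e, es4_circ_congr s hσ]
  have hK := ry_K s k M
  refine ⟨by rw [hK]; exact h.K2, by rw [hK]; exact h.K15, ?_, ?_, ?_, ?_, ?_, ?_, ?_, ?_, ?_,
    ?_, ?_, ?_, ?_⟩
  · rw [hK, ← h.nA]; exact hn 0
  · rw [hK, ← h.nB]; exact hn 1
  · rw [hK, ← h.LA]; exact congrArg List.length (hL 0)
  · rw [hK, ← h.LB]; exact congrArg List.length (hL 1)
  · rw [hK, ← h.XA]; exact congrArg List.length (hX 0)
  · rw [hK, ← h.YA]; exact hY 0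
  · rw [hK, ← h.XB]; exact congrArg List.length (hX 1)
  · rw [hK, ← h.YB]; exact hY 1
  · rw [hK, ← h.DL]; exact congrArg List.length (es4_setCirc_D _ _ _)
  · intro j hj
    rw [hK] at hj ⊢
    rw [← h.pos j hj]
    unfold St.pos
    rw [hL]
  · intro j hj
    rw [hK] at hj ⊢
    have hj' := h.mx j hj
    unfold St.mx at hj' ⊢
    rw [hX]
    exact hj'
  · intro j hj
    rw [hK] at hj ⊢
    have hj' := h.my j hj
    unfold St.my at hj' ⊢
    rcases hc (j + 1) with e | ⟨hσ, e⟩
    · rw [e]; exact hj'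
    · rw [e]
      rw [es4_circ_congr s hσ] at hj'
      dsimp only
      by_cases hjk : j / 2 = k / 2
      · have hjk' : j = k := by omega
        subst hjk'
        rw [es4_landAt_self, bit_and, hj', hM]
        rfl
      · rw [es4_landAt_ne _ _ _ _ hjk]
        exact hj'
  · intro j hj h2
    rw [hK] at hj
    rw [← h.dir j hj h2]
    exact congrArg (fun D => List.getD D j true) (es4_setCirc_D _ _ _)

theorem place0_K (s : St) (c : ℕ) (b : Bool) : (s.place0 c b).K = s.K + 1 := rfl

end H46K
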