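import Pool.Agent.Lib.H46K.ES4

/-!
# H46K, Part E, chunk ES4C: placing a line
-/

namespace H46K

theorem ES4C_getD_map {α β : Type} (f : α → β) (l : List α) (i : ℕ) (a : β) (b : α)
    (h : i < l.length) : (l.map f).getD i a = f (l.getD i b) := by
  simp [List.getD_eq_getElem?_getD, h]

theorem ES4C_getD_left {α : Type} (l : List α) (i : ℕ) (a b : α)
    (h : i < l.length) : (l ++ [b]).getD i a = l.getD i a := by
  simp [List.getD_eq_getElem?_getD, List.getElem?_append_left h]

theorem ES4C_getD_last {α : Type} (l : List α) (i : ℕ) (a b : α)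
    (h : i = l.length) : (l ++ [b]).getD i a = b := by
  subst h
  simp [List.getD_eq_getElem?_getD]

/-- the circle of the new line -/
def ES4C_C (s : St) (c : ℕ) : Circ :=
  if c % 2 = 1 then
      { n := (s.circ s.K).n + 1, L := (s.circ s.K).L.map (insPos c) ++ [c + 1],
        X := (s.circ s.K).X.map (insMask c), Y := (s.circ s.K).Y.map (insMask c) }
    else { s.circ s.K with L := (s.circ s.K).L ++ [c] }

/-- the other circle -/
def ES4C_O (s : St) : Circ :=
  { s.circ (s.K + 1) with
    X := (s.circ (s.K + 1)).X ++ [(1 <<< (2 * (s.circ (s.K + 1)).n)) - 1],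
    Y := (s.circ (s.K + 1)).Y ++ [(1 <<< (2 * (s.circ (s.K + 1)).n)) - 1] }

theorem ES4C_circ (s : St) (c : ℕ) (b : Bool) (σ : ℕ) :
    (s.place0 c b).circ σ = if σ % 2 = s.K % 2 then ES4C_C s c else ES4C_O s := by
  rcases Nat.mod_two_eq_zero_or_one s.K with h | h <;>
    rcases Nat.mod_two_eq_zero_or_one σ with h' | h'
  · have h1 : (s.K + 1) % 2 = 1 := by omega
    simp [St.place0, St.circ, St.setCirc, ES4C_C, ES4C_O, h, h', h1]
  · have h1 : (s.K + 1) % 2 = 1 := by omega
    simp [St.place0, St.circ, St.setCirc, ES4C_C, ES4C_O, h, h', h1]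
  · have h1 : (s.K + 1) % 2 = 0 := by omega
    simp [St.place0, St.circ, St.setCirc, ES4C_C, ES4C_O, h, h', h1]
  · have h1 : (s.K + 1) % 2 = 0 := by omega
    simp [St.place0, St.circ, St.setCirc, ES4C_C, ES4C_O, h, h', h1]

theorem ES4C_placed (l : ℕ → ℕ) (K : ℕ) {σ τ : ℕ} (h : σ % 2 = τ % 2) :
    placed l K σ = placed l K τ := by
  rw [← placed_mod l K σ, ← placed_mod l K τ, h]

theorem ES4C_A (s : St) : s.A = s.circ 0 := rfl

theorem ES4C_B (s : St) : s.B = s.circ 1 := rfl

section

variable {l x y : ℕ → ℕ} {d : ℕ → Bool} {s : St}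

theorem ES4C_n (h : Sat l x y d s) (σ : ℕ) : (s.circ σ).n = (placed l s.K σ).card := by
  rcases Nat.mod_two_eq_zero_or_one σ with h' | h'
  · rw [ES4C_placed l s.K (τ := 0) (by omega), ← h.nA]
    simp [St.circ, h']
  · rw [ES4C_placed l s.K (τ := 1) (by omega), ← h.nB]
    simp [St.circ, h']

theorem ES4C_lenL (h : Sat l x y d s) : (s.circ s.K).L.length = s.K / 2 := by
  rcases Nat.mod_two_eq_zero_or_one s.K with h' | h'
  · have h1 : s.circ s.K = s.A := by simp [St.circ, h']
    rw [h1, h.LA]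
    omega
  · have h1 : s.circ s.K = s.B := by simp [St.circ, h']
    rw [h1, h.LB]

theorem ES4C_lenXO (h : Sat l x y d s) : (s.circ (s.K + 1)).X.length = s.K / 2 := by
  rcases Nat.mod_two_eq_zero_or_one s.K with h' | h'
  · have h0 : (s.K + 1) % 2 = 1 := by omega
    have h1 : s.circ (s.K + 1) = s.B := by simp [St.circ, h0]
    rw [h1, h.XB]
    omega
  · have h0 : (s.K + 1) % 2 = 0 := by omega
    have h1 : s.circ (s.K + 1) = s.A := by simp [St.circ, h0]
    rw [h1, h.XA]

theorem ES4C_lenYO (h : Sat l x y d s) : (s.circ (s.K + 1)).Y.length = s.K / 2 := by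
  rcases Nat.mod_two_eq_zero_or_one s.K with h' | h'
  · have h0 : (s.K + 1) % 2 = 1 := by omega
    have h1 : s.circ (s.K + 1) = s.B := by simp [St.circ, h0]
    rw [h1, h.YB]
    omega
  · have h0 : (s.K + 1) % 2 = 0 := by omega
    have h1 : s.circ (s.K + 1) = s.A := by simp [St.circ, h0]
    rw [h1, h.YA]

theorem ES4C_lenX (h : Sat l x y d s) : (s.circ s.K).X.length = (s.K + 1) / 2 := by
  rcases Nat.mod_two_eq_zero_or_one s.K with h' | h'
  · have h1 : s.circ s.K = s.A := by simp [St.circ, h']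
    rw [h1, h.XA]
    omega
  · have h1 : s.circ s.K = s.B := by simp [St.circ, h']
    rw [h1, h.XB]

theorem ES4C_lenY (h : Sat l x y d s) : (s.circ s.K).Y.length = (s.K + 1) / 2 := by
  rcases Nat.mod_two_eq_zero_or_one s.K with h' | h'
  · have h1 : s.circ s.K = s.A := by simp [St.circ, h']
    rw [h1, h.YA]
    omega
  · have h1 : s.circ s.K = s.B := by simp [St.circ, h']
    rw [h1, h.YB]

theorem ES4C_C_L (s : St) (c : ℕ) : (ES4C_C s c).L.length = (s.circ s.K).L.length + 1 := by
  unfold ES4C_C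
  split <;> simp

theorem ES4C_C_X (s : St) (c : ℕ) : (ES4C_C s c).X.length = (s.circ s.K).X.length := by
  unfold ES4C_C
  split <;> simp

theorem ES4C_C_Y (s : St) (c : ℕ) : (ES4C_C s c).Y.length = (s.circ s.K).Y.length := by
  unfold ES4C_C
  split <;> simp

end

/-- Placing a line (without restrictions). Let `S` be the set of placed lines of the parity of
`K = s.K` and `v = l K`. If `c = code S v` is even then `v ∈ S` (`code_even_iff`) and nothing changes
on this circle except for the new entry `c`. If `c` is odd then `v ∉ S`, `placed_succ_self`,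
and the codes change by ES1 (`code_insert_*`): for a line `w ∈ S`, `insPos c (code S w)` is the new
code, for an end `w` of a gap use `bit_insMask`. On the other circle the new masks are
full (`bit_full`, `code_lt`). -/
theorem Sat.place0 {r : ℕ} {X : ℕ → ℕ → Prop} {l x y : ℕ → ℕ} {d : ℕ → Bool} {s : St}
    (P : PhiPath r X l x y d) (h : Sat l x y d s) (hK : s.K ≤ 14) :
    Sat l x y d (s.place0 (code (placed l s.K s.K) (l s.K)) (d s.K)) := by
  have hK2 := h.K2
  set S := placed l s.K s.K with hS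
  set v := l s.K with hv
  set c := code S v with hc
  set s' := s.place0 c (d s.K) with hs'
  have h0S : 0 ∈ S := zero_mem_placed hK2 P.l0 P.l1 _
  have h0O : 0 ∈ placed l s.K (s.K + 1) := zero_mem_placed hK2 P.l0 P.l1 _
  have hKs : s'.K = s.K + 1 := place0_K s c (d s.K)
  -- the two circles
  have hcS : ∀ σ, σ % 2 = s.K % 2 → s'.circ σ = ES4C_C s c := fun σ hσ => by
    rw [hs', ES4C_circ, if_pos hσ]
  have hcO : ∀ σ, σ % 2 ≠ s.K % 2 → s'.circ σ = ES4C_O s := fun σ hσ => by
    rw [hs', ES4C_circ, if_neg hσ]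
  have hpS : ∀ σ, σ % 2 = s.K % 2 → placed l (s.K + 1) σ = insert v S := fun σ hσ => by
    rw [ES4C_placed l (s.K + 1) hσ, placed_succ_self]
  have hpO : ∀ σ, σ % 2 ≠ s.K % 2 → placed l (s.K + 1) σ = placed l s.K (s.K + 1) :=
    fun σ hσ => by
      rw [ES4C_placed l (s.K + 1) (τ := s.K + 1) (by omega), placed_succ_other]
  have hcase : (c % 2 = 1 ∧ v ∉ S) ∨ (c % 2 = 0 ∧ v ∈ S) := by
    rcases Nat.mod_two_eq_zero_or_one c with h1 | h1
    · exact Or.inr ⟨h1, (code_even_iff S h0S v).1 h1⟩
    · refine Or.inl ⟨h1, fun h2 => ?_⟩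
      have := (code_even_iff S h0S v).2 h2
      omega
  -- the numbers of lines
  have hn : ∀ σ, (s'.circ σ).n = (placed l (s.K + 1) σ).card := by
    intro σ
    by_cases hσ : σ % 2 = s.K % 2
    · rw [hcS σ hσ, hpS σ hσ]
      unfold ES4C_C
      rcases hcase with ⟨h1, h2⟩ | ⟨h1, h2⟩
      · rw [if_pos h1, Finset.card_insert_of_notMem h2, ES4C_n h s.K]
      · rw [if_neg (by omega), Finset.insert_eq_of_mem h2]
        exact ES4C_n h s.K
    · rw [hcO σ hσ, hpO σ hσ]
      exact ES4C_n h (s.K + 1)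
  -- codes of lines
  have hpos : ∀ k, k < s.K + 1 → s'.pos k = code (placed l (s.K + 1) k) (l k) := by
    intro k hk
    unfold St.pos
    by_cases hσ : k % 2 = s.K % 2
    · rw [hcS k hσ, hpS k hσ]
      have hlen := ES4C_lenL h
      unfold ES4C_C
      rcases Nat.lt_succ_iff_lt_or_eq.1 hk with hk' | hk'
      · have hk2 : k / 2 < (s.circ s.K).L.length := by
          rw [hlen]
          omega
        have hold : (s.circ s.K).L.getD (k / 2) 0 = code S (l k) := by
          have h1 := h.pos k hk'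
          unfold St.pos at h1
          have h2 : s.circ k = s.circ s.K := by simp [St.circ, hσ]
          rw [h2, ES4C_placed l s.K hσ] at h1
          exact h1
        have hlS : l k ∈ S := by
          rw [hS, ← ES4C_placed l s.K hσ]
          exact mem_placed hk'
        rcases hcase with ⟨h1, h2⟩ | ⟨h1, h2⟩
        · rw [if_pos h1]
          show ((s.circ s.K).L.map (insPos c) ++ [c + 1]).getD (k / 2) 0 = _
          rw [ES4C_getD_left _ _ _ _ (by rw [List.length_map]; exact hk2),
            ES4C_getD_map (insPos c) _ _ 0 0 hk2, hold]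
          unfold insPos
          rcases lt_trichotomy (l k) v with h3 | h3 | h3
          · rw [if_pos (code_strict S h0S h3 (Or.inl hlS)), code_insert_lt S h2 h3]
          · exact absurd (h3 ▸ hlS) h2
          · have := code_strict S h0S h3 (Or.inr hlS)
            rw [if_neg (by omega), code_insert_gt S h0S h2 h3]
        · rw [if_neg (by omega), Finset.insert_eq_of_mem h2]
          show ((s.circ s.K).L ++ [c]).getD (k / 2) 0 = _
          rw [ES4C_getD_left _ _ _ _ hk2, hold]
      · subst hk'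
        rcases hcase with ⟨h1, h2⟩ | ⟨h1, h2⟩
        · rw [if_pos h1]
          show ((s.circ s.K).L.map (insPos c) ++ [c + 1]).getD (s.K / 2) 0 = _
          rw [ES4C_getD_last _ _ _ _ (by rw [List.length_map, hlen]),
            ← hv, code_insert_self S h0S h2]
        · rw [if_neg (by omega), Finset.insert_eq_of_mem h2]
          show ((s.circ s.K).L ++ [c]).getD (s.K / 2) 0 = _
          rw [ES4C_getD_last _ _ _ _ hlen.symm]
    · have hk' : k < s.K := by
        rcases Nat.lt_succ_iff_lt_or_eq.1 hk with hk' | hk'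
        · exact hk'
        · exact absurd (by rw [hk']) hσ
      rw [hcO k hσ, hpO k hσ]
      have h1 := h.pos k hk'
      unfold St.pos at h1
      have h2 : s.circ k = s.circ (s.K + 1) := by
        have h3 : k % 2 = (s.K + 1) % 2 := by omega
        simp [St.circ, h3]
      rw [h2, ES4C_placed l s.K (τ := s.K + 1) (by omega)] at h1
      exact h1
  -- ends of gaps
  have hend : ∀ (G : Circ → List ℕ) (z : ℕ → ℕ),
      G (ES4C_C s c) = (if c % 2 = 1 then (G (s.circ s.K)).map (insMask c)
        else G (s.circ s.K)) →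
      G (ES4C_O s) = G (s.circ (s.K + 1)) ++ [(1 <<< (2 * (s.circ (s.K + 1)).n)) - 1] →
      (G (s.circ s.K)).length = (s.K + 1) / 2 → (G (s.circ (s.K + 1))).length = s.K / 2 →
      (∀ k, k < s.K → bit ((G (s.circ (k + 1))).getD (k / 2) 0)
        (code (placed l s.K (k + 1)) (z k)) = true) →
      ∀ k, k < s.K + 1 → bit ((G (s'.circ (k + 1))).getD (k / 2) 0)
        (code (placed l (s.K + 1) (k + 1)) (z k)) = true := by
    intro G z hGC hGO hl1 hl2 hold k hk
    by_cases hσ : (k + 1) % 2 = s.K % 2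
    · have hk' : k < s.K := by
        rcases Nat.lt_succ_iff_lt_or_eq.1 hk with hk' | hk'
        · exact hk'
        · omega
      rw [hcS _ hσ, hpS _ hσ, hGC]
      have hk2 : k / 2 < (G (s.circ s.K)).length := by
        rw [hl1]
        omega
      have h1 := hold k hk'
      have h2 : s.circ (k + 1) = s.circ s.K := by simp [St.circ, hσ]
      rw [h2, ES4C_placed l s.K hσ] at h1
      rcases hcase with ⟨h3, h4⟩ | ⟨h3, h4⟩
      · rw [if_pos h3, ES4C_getD_map (insMask c) _ _ 0 0 hk2]
        obtain ⟨e1, e2, e3⟩ := bit_insMask (c := c) h1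
        rcases lt_trichotomy (z k) v with h5 | h5 | h5
        · rw [code_insert_lt S h4 h5]
          exact e1 (code_mono S h5.le)
        · rw [h5, code_insert_self S h0S h4]
          have h6 : code (placed l s.K s.K) (z k) = c := by rw [h5]
          rw [h6] at e2
          exact e2 rfl
        · rw [code_insert_gt S h0S h4 h5]
          exact e3 (code_mono S h5.le)
      · rw [if_neg (by omega), Finset.insert_eq_of_mem h4]
        exact h1
    · rw [hcO _ hσ, hpO _ hσ, hGO]
      rcases Nat.lt_succ_iff_lt_or_eq.1 hk with hk' | hk'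
      · have hk2 : k / 2 < (G (s.circ (s.K + 1))).length := by
          rw [hl2]
          omega
        rw [ES4C_getD_left _ _ _ _ hk2]
        have h1 := hold k hk'
        have h2 : s.circ (k + 1) = s.circ (s.K + 1) := by
          have h3 : (k + 1) % 2 = (s.K + 1) % 2 := by omega
          simp [St.circ, h3]
        rw [h2, ES4C_placed l s.K (τ := s.K + 1) (by omega)] at h1
        exact h1
      · subst hk'
        rw [ES4C_getD_last _ _ _ _ hl2.symm, bit_full, decide_eq_true_iff, ES4C_n h]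
        exact code_lt _ h0O _
  have hdir : ∀ k, k < s.K + 1 → 2 ≤ k → s'.dir k = d k := by
    intro k hk h2
    show (s.D ++ [d s.K]).getD k true = d k
    rcases Nat.lt_succ_iff_lt_or_eq.1 hk with hk' | hk'
    · rw [ES4C_getD_left _ _ _ _ (by rw [h.DL]; exact hk')]
      exact h.dir k hk' h2
    · subst hk'
      rw [ES4C_getD_last _ _ _ _ h.DL.symm]
  have hCL := ES4C_C_L s c
  have hCX := ES4C_C_X s c
  have hCY := ES4C_C_Y s c
  have hOL : (ES4C_O s).L.length = (s.circ (s.K + 1)).L.length := rfl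
  have hOX : (ES4C_O s).X.length = (s.circ (s.K + 1)).X.length + 1 := by simp [ES4C_O]
  have hOY : (ES4C_O s).Y.length = (s.circ (s.K + 1)).Y.length + 1 := by simp [ES4C_O]
  have hLl := ES4C_lenL h
  have hXl := ES4C_lenX h
  have hYl := ES4C_lenY h
  have hXo := ES4C_lenXO h
  have hYo := ES4C_lenYO h
  have hLo : (s.circ (s.K + 1)).L.length = (s.K + 1) / 2 := by
    rcases Nat.mod_two_eq_zero_or_one s.K with h' | h'
    · have h0 : (s.K + 1) % 2 = 1 := by omega
      have h1 : s.circ (s.K + 1) = s.B := by simp [St.circ, h0]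
      rw [h1, h.LB]
      omega
    · have h0 : (s.K + 1) % 2 = 0 := by omega
      have h1 : s.circ (s.K + 1) = s.A := by simp [St.circ, h0]
      rw [h1, h.LA]
  have hAcirc : s'.A = s'.circ 0 := rfl
  have hBcirc : s'.B = s'.circ 1 := rfl
  refine ⟨?_, ?_, ?_, ?_, ?_, ?_, ?_, ?_, ?_, ?_, ?_, ?_, ?_, ?_, ?_⟩
  · rw [hKs]; omega
  · rw [hKs]; omega
  · rw [hKs, hAcirc, hn]
  · rw [hKs, hBcirc, hn]
  · rw [hKs, hAcirc]
    by_cases hσ : (0 : ℕ) % 2 = s.K % 2
    · rw [hcS 0 hσ, hCL, hLl]; omega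
    · rw [hcO 0 hσ, hOL, hLo]; omega
  · rw [hKs, hBcirc]
    by_cases hσ : (1 : ℕ) % 2 = s.K % 2
    · rw [hcS 1 hσ, hCL, hLl]; omega
    · rw [hcO 1 hσ, hOL, hLo]
  · rw [hKs, hAcirc]
    by_cases hσ : (0 : ℕ) % 2 = s.K % 2
    · rw [hcS 0 hσ, hCX, hXl]
    · rw [hcO 0 hσ, hOX, hXo]; omega
  · rw [hKs, hAcirc]
    by_cases hσ : (0 : ℕ) % 2 = s.K % 2
    · rw [hcS 0 hσ, hCY, hYl]
    · rw [hcO 0 hσ, hOY, hYo]; omega
  · rw [hKs, hBcirc]
    by_cases hσ : (1 : ℕ) % 2 = s.K % 2
    · rw [hcS 1 hσ, hCX, hXl]; omega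
    · rw [hcO 1 hσ, hOX, hXo]; omega
  · rw [hKs, hBcirc]
    by_cases hσ : (1 : ℕ) % 2 = s.K % 2
    · rw [hcS 1 hσ, hCY, hYl]; omega
    · rw [hcO 1 hσ, hOY, hYo]; omega
  · rw [hKs]
    show (s.D ++ [d s.K]).length = s.K + 1
    rw [List.length_append, h.DL]
    rfl
  · rw [hKs]; exact hpos
  · rw [hKs]
    refine hend (fun C => C.X) x ?_ rfl hXl hXo h.mx
    show (ES4C_C s c).X = _
    unfold ES4C_C
    split <;> rfl
  · rw [hKs]
    refine hend (fun C => C.Y) y ?_ rfl hYl hYo h.my
    show (ES4C_C s c).Y = _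
    unfold ES4C_C
    split <;> rfl
  · rw [hKs]; exact hdir

end H46K
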