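import Pool.Agent.Lib.H46K.ES4C

/-!
# H46K, Part E, chunk ES5: soundness of `place`
-/

namespace H46K

theorem inout_K (s : St) (g p q : ℕ) : (s.inout g p q).K = s.K := by
  unfold St.inout
  rw [ry_K, rx_K]

theorem es5_par {l : ℕ → ℕ} {K k j : ℕ} (h : k % 2 = j % 2) : placed l K k = placed l K j := by
  rw [← placed_mod l K k, ← placed_mod l K j, h]

theorem es5_mem {l : ℕ → ℕ} {K p g : ℕ} (hp : p < K) (hpp : p % 2 = g % 2) :
    l p ∈ placed l K g := by
  rw [← es5_par hpp]
  exact mem_placed hp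

/-- `inout g p q` restricts the ends of gap `g` to the arcs between the lines `p` (inside) and `q`
(outside). Here `cb (x g) (l p) (y g)` and `cb (y g) (l q) (x g)` give
`cb (l q) (x g) (l p)` and `cb (l p) (y g) (l q)` (unfold `cb`, `omega`); `bit_of_cb`. -/
theorem Sat.inout {l x y : ℕ → ℕ} {d : ℕ → Bool} {s : St} (h : Sat l x y d s)
    (hl0 : l 0 = 0) (hl1 : l 1 = 0) {g p q : ℕ}
    (hg : g < s.K) (hp : p < s.K) (hq : q < s.K) (hpp : p % 2 = (g + 1) % 2)
    (hqp : q % 2 = (g + 1) % 2) (h1 : cb (x g) (l p) (y g)) (h2 : cb (y g) (l q) (x g)) :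
    Sat l x y d (s.inout g p q) := by
  have c1 : cb (l q) (x g) (l p) := by
    unfold cb at *
    omega
  have c2 : cb (l p) (y g) (l q) := by
    unfold cb at *
    omega
  have h0 : 0 ∈ placed l s.K (g + 1) := zero_mem_placed h.K2 hl0 hl1 _
  have mp : l p ∈ placed l s.K (g + 1) := es5_mem hp hpp
  have mq : l q ∈ placed l s.K (g + 1) := es5_mem hq hqp
  have ep : s.pos p = code (placed l s.K (g + 1)) (l p) := by
    rw [h.pos p hp, es5_par hpp]
  have eq' : s.pos q = code (placed l s.K (g + 1)) (l q) := by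
    rw [h.pos q hq, es5_par hqp]
  have b1 := bit_of_cb _ h0 mq mp c1
  have b2 := bit_of_cb _ h0 mp mq c2
  have s1 := h.rx (k := g) (M := arcOpen (s.m (g + 1)) (s.pos q) (s.pos p)) hg
    (by rw [h.m_eq, ep, eq']; exact b1)
  exact s1.ry (k := g) (M := arcOpen (s.m (g + 1)) (s.pos p) (s.pos q)) (by rw [rx_K]; exact hg)
    (by rw [rx_K, h.m_eq, ep, eq']; exact b2)

theorem glue_K (s : St) (j : ℕ) : (s.glue j).K = s.K := by
  unfold St.glue
  split_ifs
  · rw [ry_K]
  · rw [rx_K]

theorem glues_K (s : St) (j fuel : ℕ) : (s.glues j fuel).K = s.K := by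
  induction fuel generalizing s j with
  | zero => rfl
  | succ n ih =>
    unfold St.glues
    split_ifs
    · rfl
    · rw [ih, glue_K]

/-- the glue facts (`P.gluep`, `P.gluem`, `bit_succ`, `bit_pred`) -/
theorem Sat.glue {r : ℕ} {X : ℕ → ℕ → Prop} {l x y : ℕ → ℕ} {d : ℕ → Bool} {s : St}
    (P : PhiPath r X l x y d) (h : Sat l x y d s) {j : ℕ} (hj : j < s.K) (h2 : 2 ≤ j) :
    Sat l x y d (s.glue j) := by
  have hK15 := h.K15
  have h0 : 0 ∈ placed l s.K j := zero_mem_placed h.K2 P.l0 P.l1 _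
  have hr : ∀ t ∈ placed l s.K j, t < r := by
    intro t ht
    unfold placed at ht
    simp only [Finset.mem_image, Finset.mem_filter, Finset.mem_range] at ht
    obtain ⟨k, ⟨hk, _⟩, rfl⟩ := ht
    exact P.l_lt k (by omega)
  have mj : l j ∈ placed l s.K j := mem_placed hj
  have e1 : j - 1 + 1 = j := by omega
  have ed := h.dir j hj h2
  unfold St.glue
  split_ifs with hd
  · rw [hd] at ed
    apply h.ry (k := j - 1) (by omega)
    rw [e1]
    have hg := P.gluep (j - 1) (by omega) (by omega)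
    rw [e1] at hg
    rw [hg ed.symm, h.m_eq, h.pos j hj]
    exact bit_succ _ h0 hr mj
  · have hd' : d j = false := by
      rw [← ed]
      simpa using hd
    apply h.rx (k := j - 1) (by omega)
    rw [e1]
    have hg := P.gluem (j - 1) (by omega) (by omega)
    rw [e1] at hg
    rw [h.m_eq, h.pos j hj]
    exact bit_pred _ h0 hr (P.x_lt (j - 1) (by omega)) mj (hg hd')

/-- induction on `fuel` -/
theorem Sat.glues {r : ℕ} {X : ℕ → ℕ → Prop} {l x y : ℕ → ℕ} {d : ℕ → Bool} {s : St}
    (P : PhiPath r X l x y d) (h : Sat l x y d s) {j : ℕ} (hj : j < s.K) (fuel : ℕ) :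
    Sat l x y d (s.glues j fuel) := by
  induction fuel generalizing s j with
  | zero => exact h
  | succ n ih =>
    unfold St.glues
    split_ifs with hj2
    · exact h
    · exact ih (h.glue P hj (by omega)) (by rw [glue_K]; omega)

/-- soundness of `place` (`Sat.place0`, `Sat.inout` with the facts `F1`, `F2`, `F6a`, `F6b`,
`Sat.glues`) -/
theorem Sat.place {r : ℕ} {X : ℕ → ℕ → Prop} {l x y : ℕ → ℕ} {d : ℕ → Bool} {s : St}
    (P : PhiPath r X l x y d) (h : Sat l x y d s) (hK : s.K ≤ 14) :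
    Sat l x y d (s.place (code (placed l s.K s.K) (l s.K)) (d s.K)) := by
  have K2 := h.K2
  have h1 := h.place0 P hK
  have k1 := place0_K s (code (placed l s.K s.K) (l s.K)) (d s.K)
  unfold St.place
  dsimp only
  generalize s.place0 (code (placed l s.K s.K) (l s.K)) (d s.K) = s1 at *
  have h2 : Sat l x y d (if 3 ≤ s.K then s1.inout (s.K - 3) (s.K - 2) s.K else s1) ∧
      (if 3 ≤ s.K then s1.inout (s.K - 3) (s.K - 2) s.K else s1).K = s.K + 1 := by
    split_ifs with hk
    · refine ⟨h1.inout P.l0 P.l1 (by omega) (by omega) (by omega) (by omega) (by omega) ?_ ?_, ?_⟩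
      · have := P.F1 (s.K - 3) (by omega)
        rwa [show s.K - 3 + 1 = s.K - 2 by omega] at this
      · have := P.F6a (s.K - 3) (by omega)
        rwa [show s.K - 3 + 3 = s.K by omega] at this
      · rw [inout_K, k1]
    · exact ⟨h1, k1⟩
  generalize (if 3 ≤ s.K then s1.inout (s.K - 3) (s.K - 2) s.K else s1) = s2 at *
  obtain ⟨h2, k2⟩ := h2
  have h3 : Sat l x y d (if 2 ≤ s.K then s2.inout (s.K - 1) s.K (s.K - 2) else s2) ∧
      (if 2 ≤ s.K then s2.inout (s.K - 1) s.K (s.K - 2) else s2).K = s.K + 1 := by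
    rw [if_pos K2]
    refine ⟨h2.inout P.l0 P.l1 (by omega) (by omega) (by omega) (by omega) (by omega) ?_ ?_, ?_⟩
    · have := P.F1 (s.K - 1) (by omega)
      rwa [show s.K - 1 + 1 = s.K by omega] at this
    · have := P.F2 (s.K - 2) (by omega)
      rwa [show s.K - 2 + 1 = s.K - 1 by omega] at this
    · rw [inout_K, k2]
  generalize (if 2 ≤ s.K then s2.inout (s.K - 1) s.K (s.K - 2) else s2) = s3 at *
  obtain ⟨h3, k3⟩ := h3
  have h4 : Sat l x y d (if 4 ≤ s.K then s3.inout (s.K - 1) s.K (s.K - 4) else s3) ∧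
      (if 4 ≤ s.K then s3.inout (s.K - 1) s.K (s.K - 4) else s3).K = s.K + 1 := by
    split_ifs with hk
    · refine ⟨h3.inout P.l0 P.l1 (by omega) (by omega) (by omega) (by omega) (by omega) ?_ ?_, ?_⟩
      · have := P.F1 (s.K - 1) (by omega)
        rwa [show s.K - 1 + 1 = s.K by omega] at this
      · have := P.F6b (s.K - 4) (by omega)
        rwa [show s.K - 4 + 3 = s.K - 1 by omega] at this
      · rw [inout_K, k3]
    · exact ⟨h3, k3⟩
  generalize (if 4 ≤ s.K then s3.inout (s.K - 1) s.K (s.K - 4) else s3) = s4 at *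
  obtain ⟨h4, k4⟩ := h4
  exact h4.glues P (by omega) 7

/-- the right child is among the children -/
theorem Sat.children {r : ℕ} {X : ℕ → ℕ → Prop} {l x y : ℕ → ℕ} {d : ℕ → Bool} {s : St}
    (P : PhiPath r X l x y d) (h : Sat l x y d s) (hK : s.K ≤ 14) :
    ∃ s' ∈ s.children, Sat l x y d s' := by
  refine ⟨_, ?_, h.place P hK⟩
  have K2 := h.K2
  have h0 : 0 ∈ placed l s.K s.K := zero_mem_placed K2 P.l0 P.l1 _
  unfold St.children
  rw [List.mem_flatMap]
  refine ⟨code (placed l s.K s.K) (l s.K), ?_, ?_⟩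
  · rw [List.mem_range, h.m_eq]
    exact code_lt _ h0 _
  · split_ifs with hk
    · have hd : d s.K = true := by
        have : s.K = 2 ∨ s.K = 3 := by omega
        rcases this with e | e
        · rw [e]; exact P.d2
        · rw [e]; exact P.d3
      rw [hd]
      simp
    · rcases hd : d s.K with _ | _ <;> simp

end H46K
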