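import Pool.Agent.Lib.H46K.ES4

/-!
# H46K, Part E, chunk ES6A: soundness of `inGap`, `inHull`
-/

namespace H46K

theorem es6a_par {l : ℕ → ℕ} {K k j : ℕ} (h : k % 2 = j % 2) : placed l K k = placed l K j := by
  rw [← placed_mod l K k, ← placed_mod l K j, h]

theorem es6a_disj {A B D i : ℕ} (h : ((A ||| B) &&& D) = 0) (hi : bit A i = true ∨ bit B i = true) :
    bit D i = false := by
  have h1 : bit ((A ||| B) &&& D) i = false := by
    rw [h, bit_zero]
  rw [bit_and, bit_or] at h1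
  rcases hi with hi | hi
  · rw [hi] at h1
    simpa using h1
  · rw [hi] at h1
    simpa using h1

theorem es6a_disj1 {A D i : ℕ} (h : (A &&& D) = 0) (hi : bit A i = true) :
    bit D i = false := by
  have h1 : bit (A &&& D) i = false := by
    rw [h, bit_zero]
  rw [bit_and, hi] at h1
  simpa using h1

/-- `inGap` is sound: `cb_of_arc` with `p = l (k + 1)` and `P.F1`. -/
theorem inGap_sound {r : ℕ} {X : ℕ → ℕ → Prop} {l x y : ℕ → ℕ} {d : ℕ → Bool} {s : St}
    (P : PhiPath r X l x y d) (h : Sat l x y d s) {k lo hi : ℕ} (hg : inGap s k lo hi = true)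
    {w : ℕ}
    (hw : bit (arcMask (s.m (k + 1)) lo hi) (code (placed l s.K (k + 1)) w) = true) :
    cb (x k) w (y k) := by
  unfold inGap at hg
  simp only [Bool.and_eq_true, decide_eq_true_eq, beq_iff_eq] at hg
  obtain ⟨⟨⟨⟨hk, hlo⟩, hhi⟩, hb⟩, hD⟩ := hg
  have hK15 := h.K15
  have h0 : 0 ∈ placed l s.K (k + 1) := zero_mem_placed h.K2 P.l0 P.l1 _
  rw [h.m_eq] at hlo hhi hb hw hD
  rw [h.pos (k + 1) hk] at hb
  have mx := h.mx k (by omega)
  have my := h.my k (by omega)
  exact cb_of_arc _ h0 hlo hhi hb hw (es6a_disj hD (Or.inl mx)) (es6a_disj hD (Or.inr my))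
    (P.F1 k (by omega))

/-- `inHull` is sound (`k = 1`: `inGap_sound` for `k = 0`, note `s.m 1`, `placed l s.K 1`; `k ≥ 2`:
`hull_of_arc_left`, `hull_of_arc_right` with `p = l (k - 2)`). -/
theorem inHull_sound {r : ℕ} {X : ℕ → ℕ → Prop} {l x y : ℕ → ℕ} {d : ℕ → Bool} {s : St}
    (P : PhiPath r X l x y d) (h : Sat l x y d s) {k lo hi : ℕ} (hk : k < s.K)
    (hg : inHull s k lo hi = true) {w : ℕ}
    (hw : bit (arcMask (s.m k) lo hi) (code (placed l s.K k) w) = true) :
    (k = 1 → cb (x 0) w (y 0)) ∧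
    (2 ≤ k → d k = true → w = l (k - 2) ∨ cb (l (k - 2)) w (y (k - 1))) ∧
    (2 ≤ k → d k = false → w = l (k - 2) ∨ cb (x (k - 1)) w (l (k - 2))) := by
  unfold inHull at hg
  by_cases h1 : k = 1
  · rw [if_pos h1] at hg
    subst h1
    refine ⟨fun _ => inGap_sound P h hg hw, fun h2 => by omega, fun h2 => by omega⟩
  · rw [if_neg h1] at hg
    simp only [Bool.and_eq_true, decide_eq_true_eq] at hg
    obtain ⟨⟨⟨h2, hlo⟩, hhi⟩, hg⟩ := hg
    have h0 : 0 ∈ placed l s.K k := zero_mem_placed h.K2 P.l0 P.l1 _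
    have hpar : placed l s.K (k - 2) = placed l s.K k := es6a_par (by omega)
    have mp : l (k - 2) ∈ placed l s.K k := by
      rw [← hpar]
      exact mem_placed (by omega)
    have ep : s.pos (k - 2) = code (placed l s.K k) (l (k - 2)) := by
      rw [h.pos (k - 2) (by omega), hpar]
    have e1 : k - 1 + 1 = k := by omega
    have mx := h.mx (k - 1) (by omega)
    have my := h.my (k - 1) (by omega)
    rw [e1] at mx my
    have ed := h.dir k hk h2
    refine ⟨fun h => absurd h h1, fun _ hd => ?_, fun _ hd => ?_⟩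
    · rw [hd] at ed
      rw [ed] at hg
      simp only [if_true, Bool.and_eq_true, beq_iff_eq] at hg
      obtain ⟨hlo', hD⟩ := hg
      rw [hlo', ep, h.m_eq] at hD hw
      rw [h.m_eq] at hhi
      exact hull_of_arc_left _ h0 mp hhi hw (es6a_disj1 hD my)
    · rw [hd] at ed
      rw [ed] at hg
      simp only [Bool.false_eq_true, if_false, Bool.and_eq_true, beq_iff_eq] at hg
      obtain ⟨hhi', hD⟩ := hg
      rw [hhi', ep, h.m_eq] at hD hw
      rw [h.m_eq] at hlo
      exact hull_of_arc_right _ h0 mp hlo hw (es6a_disj1 hD mx)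

end H46K
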