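import Pool.Agent.Lib.H46K.ES6A

/-!
# H46K, Part E, chunk ES6B: the emptiness leaf
-/

namespace H46K

/-- Emptiness leaf: contradiction. The one `(l j, x j)` or `(l j, y j)` (`P.one`) lies in
`hull_k × γ_k`, contradiction with `emp1`, `empp`, `empm` (`2 ≤ k` or `k = 1`; `d k` is `true` or
`false`). If `j` has the parity of `k` then `l j` is on the circle of the hull, otherwise on the
circle of `γ_k`; `ent` of the two parities is the transposition. -/
theorem leafEmp_sound {r : ℕ} {X : ℕ → ℕ → Prop} {l x y : ℕ → ℕ} {d : ℕ → Bool} {s : St}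
    (P : PhiPath r X l x y d) (h : Sat l x y d s) {k j h' glo ghi hlo hhi : ℕ}
    (hl : leafEmp s k j h' glo ghi hlo hhi = true) : False := by
  unfold leafEmp at hl
  simp only [Bool.and_eq_true, decide_eq_true_eq] at hl
  obtain ⟨⟨⟨⟨⟨hj, hk1⟩, hk⟩, hgap⟩, hhull⟩, hl⟩ := hl
  have hK15 := h.K15
  -- no one in hull × gap
  have hemp : ∀ w z, bit (arcMask (s.m k) hlo hhi) (code (placed l s.K k) w) = true →
      bit (arcMask (s.m (k + 1)) glo ghi) (code (placed l s.K (k + 1)) z) = true →
      ¬ ent X k w z := by
    intro w z hw hz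
    have c1 := inGap_sound P h hgap hz
    obtain ⟨i1, i2, i3⟩ := inHull_sound P h hk hhull hw
    rcases Nat.lt_or_ge 1 k with h2 | h2
    · have e2 : k - 2 + 2 = k := by omega
      have e1 : k - 2 + 1 = k - 1 := by omega
      rcases hd : d k with _ | _
      · have hp := P.empm (k - 2) (by omega) (by rw [e2]; exact hd) w z
        rw [e1, e2] at hp
        exact hp (i3 h2 hd) c1
      · have hp := P.empp (k - 2) (by omega) (by rw [e2]; exact hd) w z
        rw [e1, e2] at hp
        exact hp (i2 h2 hd) c1
    · have hk' : k = 1 := by omega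
      subst hk'
      exact P.emp1 w z (i1 rfl) c1
  have key : ∀ e, ent X j (l j) e → bit (s.mm j h') (code (placed l s.K (j + 1)) e) = true →
      False := by
    intro e he hb
    by_cases hpar : j % 2 = k % 2
    · rw [if_pos hpar, Bool.and_eq_true] at hl
      obtain ⟨l1, l2⟩ := hl
      rw [h.pos j hj, es6a_par hpar] at l1
      have l3 := subM_bit l2 hb
      rw [es6a_par (show (j + 1) % 2 = (k + 1) % 2 by omega)] at l3
      refine hemp (l j) e l1 l3 ?_
      unfold ent at he ⊢
      rw [← hpar]
      exact he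
    · rw [if_neg hpar, Bool.and_eq_true] at hl
      obtain ⟨l1, l2⟩ := hl
      rw [h.pos j hj, es6a_par (show j % 2 = (k + 1) % 2 by omega)] at l1
      have l3 := subM_bit l2 hb
      rw [es6a_par (show (j + 1) % 2 = k % 2 by omega)] at l3
      refine hemp e (l j) l3 l1 ?_
      unfold ent at he ⊢
      rcases Nat.mod_two_eq_zero_or_one k with hk2 | hk2
      · have hj2 : j % 2 = 1 := by omega
        simpa [hk2, hj2] using he
      · have hj2 : j % 2 = 0 := by omega
        simpa [hk2, hj2] using he
  have hone := P.one j (by omega)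
  by_cases hh : h' = 0
  · refine key (x j) ((hone _).2 (Or.inl rfl)) ?_
    unfold St.mm
    rw [if_pos hh]
    exact h.mx j hj
  · refine key (y j) ((hone _).2 (Or.inr rfl)) ?_
    unfold St.mm
    rw [if_neg hh]
    exact h.my j hj

end H46K
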