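import Pool.Agent.Lib.H46K.ES6A

/-!
# H46K, Part E, chunk ES6C: the incidence leaf and the hexagon leaf
-/

namespace H46K

theorem es6c_ent {X : ℕ → ℕ → Prop} {k j a b : ℕ} (h : j % 2 ≠ k % 2) :
    ent X j b a ↔ ent X k a b := by
  unfold ent
  rcases Nat.mod_two_eq_zero_or_one k with hk | hk
  · have h' : j % 2 = 1 := by omega
    simp [hk, h']
  · have h' : j % 2 = 0 := by omega
    simp [hk, h']

/-- Incidence leaf: contradiction. The end `e` (`x k` or `y k`) has the code of `l j`, hence
`e = l j` (`code_inj`); by `P.one k` there is a one at `(l k, l j)`, hence by `P.one j` we have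
`l k = x j ∨ l k = y j`: contradiction with the bits. -/
theorem leafInc_sound {r : ℕ} {X : ℕ → ℕ → Prop} {l x y : ℕ → ℕ} {d : ℕ → Bool} {s : St}
    (P : PhiPath r X l x y d) (h : Sat l x y d s) {k h' j : ℕ}
    (hl : leafInc s k h' j = true) : False := by
  unfold leafInc at hl
  simp only [Bool.and_eq_true, decide_eq_true_eq, bne_iff_ne, ne_eq, Bool.not_eq_true',
    Bool.not_eq_eq_eq_not, Bool.not_true] at hl
  obtain ⟨⟨⟨⟨⟨hk, hj⟩, hpar⟩, hsub⟩, hbx⟩, hby⟩ := hl
  have hK15 := h.K15
  have h0 : 0 ∈ placed l s.K j := zero_mem_placed h.K2 P.l0 P.l1 _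
  have hpj : placed l s.K (k + 1) = placed l s.K j := es6a_par (by omega)
  have hpk : placed l s.K (j + 1) = placed l s.K k := es6a_par (by omega)
  have key : ∀ e, (e = x k ∨ e = y k) → bit (s.mm k h') (code (placed l s.K (k + 1)) e) = true →
      False := by
    intro e he hb
    have hb' := subM_bit hsub hb
    rw [bit_one_shift, decide_eq_true_eq, h.pos j hj, hpj] at hb'
    have hle : l j = e := code_inj _ h0 (mem_placed hj) hb'.symm
    have h1 : ent X k (l k) e := (P.one k (by omega) e).2 he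
    rw [← hle] at h1
    have h2 := (P.one j (by omega) (l k)).1 ((es6c_ent hpar).2 h1)
    rw [h.pos k hk] at hbx hby
    rcases h2 with h2 | h2
    · have := h.mx j hj
      rw [← h2, hpk, hbx] at this
      exact Bool.noConfusion this
    · have := h.my j hj
      rw [← h2, hpk, hby] at this
      exact Bool.noConfusion this
  by_cases hh : h' = 0
  · refine key (x k) (Or.inl rfl) ?_
    unfold St.mm
    rw [if_pos hh]
    exact h.mx k hk
  · refine key (y k) (Or.inr rfl) ?_
    unfold St.mm
    rw [if_neg hh]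
    exact h.my k hk

/-- Hexagon leaf: the line `l k` lies in the gap `k + 5`. -/
theorem leafHex_sound {r : ℕ} {X : ℕ → ℕ → Prop} {l x y : ℕ → ℕ} {d : ℕ → Bool} {s : St}
    (P : PhiPath r X l x y d) (h : Sat l x y d s) {k lo hi : ℕ}
    (hl : leafHex s k lo hi = true) : k + 6 ≤ 14 ∧ cb (x (k + 5)) (l k) (y (k + 5)) := by
  unfold leafHex at hl
  simp only [Bool.and_eq_true] at hl
  obtain ⟨hg, hb⟩ := hl
  have hK15 := h.K15
  have hk6 : k + 5 + 1 < s.K := by
    have hg' := hg
    unfold inGap at hg'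
    simp only [Bool.and_eq_true, decide_eq_true_eq] at hg'
    exact hg'.1.1.1.1
  refine ⟨by omega, ?_⟩
  have hpar : placed l s.K (k + 5 + 1) = placed l s.K k := es6a_par (by omega)
  apply inGap_sound P h hg
  rw [hpar, ← h.pos k (by omega)]
  rw [h.m_eq] at hb ⊢
  rw [hpar]
  exact hb

end H46K
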