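import Pool.Agent.Lib.H46K.ES4

/-!
# H46K, Part E, chunk ES7: the leaf P1 gives a ring with `k = 2`
-/

namespace H46K

/-- `oneIn` is sound: there is a point of `X` whose row has its code in `MA` and whose column has its
code in `MB`. -/
theorem oneIn_sound {r : ℕ} {X : ℕ → ℕ → Prop} {l x y : ℕ → ℕ} {d : ℕ → Bool} {s : St}
    (P : PhiPath r X l x y d) (h : Sat l x y d s) {o MA MB : ℕ}
    (ho : oneIn s o MA MB = true) :
    ∃ a b, X a b ∧ bit MA (code (placed l s.K 0) a) = true ∧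
      bit MB (code (placed l s.K 1) b) = true := by
  unfold oneIn at ho
  simp only [Bool.and_eq_true, decide_eq_true_eq] at ho
  obtain ⟨hK, ho⟩ := ho
  have hK15 := h.K15
  have hj : o / 2 ≤ 14 := by omega
  have hx := h.mx _ hK
  have hy := h.my _ hK
  have hp := h.pos _ hK
  have h1x := (P.one _ hj (x (o / 2))).2 (Or.inl rfl)
  have h1y := (P.one _ hj (y (o / 2))).2 (Or.inr rfl)
  rcases Nat.mod_two_eq_zero_or_one (o / 2) with h2 | h2
  · have e0 : placed l s.K (o / 2) = placed l s.K 0 := by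
      rw [← placed_mod, h2]
    have e1 : placed l s.K (o / 2 + 1) = placed l s.K 1 := by
      rw [← placed_mod]
      congr 1
      omega
    rw [e0] at hp
    rw [e1] at hx hy
    simp only [ent, h2, if_true] at h1x h1y
    simp only [h2, if_true, Bool.and_eq_true] at ho
    obtain ⟨ho1, ho2⟩ := ho
    rw [hp] at ho1
    unfold St.mm at ho2
    split_ifs at ho2 with hh
    · exact ⟨_, _, h1x, ho1, subM_bit ho2 hx⟩
    · exact ⟨_, _, h1y, ho1, subM_bit ho2 hy⟩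
  · have e0 : placed l s.K (o / 2) = placed l s.K 1 := by
      rw [← placed_mod, h2]
    have e1 : placed l s.K (o / 2 + 1) = placed l s.K 0 := by
      rw [← placed_mod]
      congr 1
      omega
    rw [e0] at hp
    rw [e1] at hx hy
    simp only [ent, h2, one_ne_zero, if_false] at h1x h1y
    simp only [h2, one_ne_zero, if_false, Bool.and_eq_true] at ho
    obtain ⟨ho1, ho2⟩ := ho
    rw [hp] at ho1
    unfold St.mm at ho2
    split_ifs at ho2 with hh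
    · exact ⟨_, _, h1x, subM_bit ho2 hx, ho1⟩
    · exact ⟨_, _, h1y, subM_bit ho2 hy, ho1⟩

/-- integer label -/
def es7H (t0 t1 t2 t3 ρ c : ℕ) : ℤ :=
  (ρ : ℤ) + ((if t0 ≤ c then 1 else 0) + ((if t1 ≤ c then 1 else 0) + ((if t2 ≤ c then 1 else 0) +
    (if t3 ≤ c then 1 else 0))))

theorem es7H_lab (t0 t1 t2 t3 ρ c : ℕ) :
    es7H t0 t1 t2 t3 ρ c % 4 = (lab t0 t1 t2 t3 ρ c : ℤ) := by
  unfold es7H lab
  push_cast
  split_ifs <;> norm_num

theorem es7H_mono (t0 t1 t2 t3 ρ : ℕ) {c c' : ℕ} (h : c ≤ c') :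
    es7H t0 t1 t2 t3 ρ c ≤ es7H t0 t1 t2 t3 ρ c' := by
  have key : ∀ t : ℕ, (if t ≤ c then (1 : ℤ) else 0) ≤ (if t ≤ c' then 1 else 0) := by
    intro t
    split_ifs <;> omega
  have h0 := key t0
  have h1 := key t1
  have h2 := key t2
  have h3 := key t3
  unfold es7H
  omega

theorem es7H_osc (t0 t1 t2 t3 ρ c c' : ℕ) :
    es7H t0 t1 t2 t3 ρ c ≤ es7H t0 t1 t2 t3 ρ c' + 4 := by
  have key : ∀ t c : ℕ, (if t ≤ c then (1 : ℤ) else 0) ≤ 1 ∧ 0 ≤ (if t ≤ c then (1 : ℤ) else 0) := by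
    intro t c
    split_ifs <;> omega
  have h0 := key t0 c
  have h1 := key t1 c
  have h2 := key t2 c
  have h3 := key t3 c
  have h0' := key t0 c'
  have h1' := key t1 c'
  have h2' := key t2 c'
  have h3' := key t3 c'
  unfold es7H
  omega

/-- ring from labels -/
theorem es7_ring {X : ℕ → ℕ → Prop} (H G : ℕ → ℤ) (hH : ∀ a b, a ≤ b → H a ≤ H b)
    (hG : ∀ a b, a ≤ b → G a ≤ G b) (hHo : ∀ a b, H a ≤ H b + 4) (hGo : ∀ a b, G a ≤ G b + 4)
    (h00 : ∃ a b, X a b ∧ H a % 4 = 0 ∧ G b % 4 = 0)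
    (h02 : ∃ a b, X a b ∧ H a % 4 = 0 ∧ G b % 4 = 2)
    (h11 : ∃ a b, X a b ∧ H a % 4 = 1 ∧ G b % 4 = 1)
    (h13 : ∃ a b, X a b ∧ H a % 4 = 1 ∧ G b % 4 = 3)
    (h20 : ∃ a b, X a b ∧ H a % 4 = 2 ∧ G b % 4 = 0)
    (h22 : ∃ a b, X a b ∧ H a % 4 = 2 ∧ G b % 4 = 2)
    (h31 : ∃ a b, X a b ∧ H a % 4 = 3 ∧ G b % 4 = 1)
    (h33 : ∃ a b, X a b ∧ H a % 4 = 3 ∧ G b % 4 = 3) : HasRing (toSet X) := by
  refine ⟨2, 1, 1, Or.inl rfl, Or.inl rfl, Or.inl rfl, H, fun b => G b + 1, ?_, ?_, ?_, ?_, ?_, ?_⟩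
  · intro p _ q _ h
    exact hH _ _ h
  · intro p _ q _
    have := hHo p.1 q.1
    omega
  · intro p _ q _ h
    have := hG _ _ h
    dsimp only
    omega
  · intro p _ q _
    have := hGo p.2 q.2
    dsimp only
    omega
  · intro i s hs
    simp only [Int.ModEq]
    have hi : i % 2 = 0 ∨ i % 2 = 1 := by omega
    rcases hi with hi | hi <;> rcases hs with rfl | rfl
    · obtain ⟨a, b, hX, ha, hb⟩ := h02
      exact ⟨(a, b), hX, by dsimp only; omega, by dsimp only; omega⟩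
    · obtain ⟨a, b, hX, ha, hb⟩ := h00
      exact ⟨(a, b), hX, by dsimp only; omega, by dsimp only; omega⟩
    · obtain ⟨a, b, hX, ha, hb⟩ := h20
      exact ⟨(a, b), hX, by dsimp only; omega, by dsimp only; omega⟩
    · obtain ⟨a, b, hX, ha, hb⟩ := h22
      exact ⟨(a, b), hX, by dsimp only; omega, by dsimp only; omega⟩
  · intro i s hs
    simp only [Int.ModEq]
    have hi : i % 2 = 0 ∨ i % 2 = 1 := by omega
    rcases hi with hi | hi <;> rcases hs with rfl | rfl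
    · obtain ⟨a, b, hX, ha, hb⟩ := h13
      exact ⟨(a, b), hX, by dsimp only; omega, by dsimp only; omega⟩
    · obtain ⟨a, b, hX, ha, hb⟩ := h33
      exact ⟨(a, b), hX, by dsimp only; omega, by dsimp only; omega⟩
    · obtain ⟨a, b, hX, ha, hb⟩ := h31
      exact ⟨(a, b), hX, by dsimp only; omega, by dsimp only; omega⟩
    · obtain ⟨a, b, hX, ha, hb⟩ := h11
      exact ⟨(a, b), hX, by dsimp only; omega, by dsimp only; omega⟩

theorem es7_one {r : ℕ} {X : ℕ → ℕ → Prop} {l x y : ℕ → ℕ} {d : ℕ → Bool} {s : St}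
    (P : PhiPath r X l x y d) (h : Sat l x y d s) {a0 a1 a2 a3 b0 b1 b2 b3 ra rb o i j : ℕ}
    (ha0 : a0 < a1) (ha1 : a1 < a2) (ha2 : a2 < a3) (ha3 : a3 < s.m 0)
    (hb0 : b0 < b1) (hb1 : b1 < b2) (hb2 : b2 < b3) (hb3 : b3 < s.m 1)
    (hra : ra < 4) (hrb : rb < 4) (hi : i < 4) (hj : j < 4)
    (ho : oneIn s o (labMask (s.m 0) a0 a1 a2 a3 ra i) (labMask (s.m 1) b0 b1 b2 b3 rb j) = true) :
    ∃ a b, X a b ∧ es7H a0 a1 a2 a3 ra (code (placed l s.K 0) a) % 4 = i ∧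
      es7H b0 b1 b2 b3 rb (code (placed l s.K 1) b) % 4 = j := by
  obtain ⟨a, b, hX, ha, hb⟩ := oneIn_sound P h ho
  refine ⟨a, b, hX, ?_, ?_⟩
  · rw [es7H_lab, bit_labMask ha0 ha1 ha2 ha3 hra hi ha]
  · rw [es7H_lab, bit_labMask hb0 hb1 hb2 hb3 hrb hj hb]

/-- The ring: `h a = ρ_a + #{i : t_i ≤ code a}` (as an integer, not reduced mod 4), which is
monotone with oscillation at most `4` and congruent to `lab ...` modulo `4`; for the columns
`g b = ρ_b + 1 + #{i : t_i ≤ code b}` (shifted by one). `bit_labMask`. The eight ones give the row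
label `a` and the column label `b + 1` for all `a, b` of the same parity modulo 2. With
`δ = ε = 1` all the required hits have row and column labels of different parity: for
`i` and `s = ±1` the residues `2 i`, `2 (i + 1) + s` modulo `4`, etc. -/
theorem leafP1_sound {r : ℕ} {X : ℕ → ℕ → Prop} {l x y : ℕ → ℕ} {d : ℕ → Bool} {s : St}
    (P : PhiPath r X l x y d) (h : Sat l x y d s) {v : ℕ} (hl : leafP1 s v = true) :
    HasRing (toSet X) := by
  unfold leafP1 at hl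
  simp only [Bool.and_eq_true, decide_eq_true_eq] at hl
  obtain ⟨⟨⟨⟨⟨⟨⟨⟨⟨⟨⟨⟨⟨⟨⟨ha0, ha1⟩, ha2⟩, ha3⟩, hb0⟩, hb1⟩, hb2⟩, hb3⟩, o1⟩, o2⟩, o3⟩, o4⟩, o5⟩, o6⟩,
    o7⟩, o8⟩ := hl
  have hra : v % 4 < 4 := Nat.mod_lt _ (by norm_num)
  have hrb : v / 4 % 4 < 4 := Nat.mod_lt _ (by norm_num)
  have k1 := es7_one P h ha0 ha1 ha2 ha3 hb0 hb1 hb2 hb3 hra hrb (by norm_num) (by norm_num) o1
  have k2 := es7_one P h ha0 ha1 ha2 ha3 hb0 hb1 hb2 hb3 hra hrb (by norm_num) (by norm_num) o2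
  have k3 := es7_one P h ha0 ha1 ha2 ha3 hb0 hb1 hb2 hb3 hra hrb (by norm_num) (by norm_num) o3
  have k4 := es7_one P h ha0 ha1 ha2 ha3 hb0 hb1 hb2 hb3 hra hrb (by norm_num) (by norm_num) o4
  have k5 := es7_one P h ha0 ha1 ha2 ha3 hb0 hb1 hb2 hb3 hra hrb (by norm_num) (by norm_num) o5
  have k6 := es7_one P h ha0 ha1 ha2 ha3 hb0 hb1 hb2 hb3 hra hrb (by norm_num) (by norm_num) o6
  have k7 := es7_one P h ha0 ha1 ha2 ha3 hb0 hb1 hb2 hb3 hra hrb (by norm_num) (by norm_num) o7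
  have k8 := es7_one P h ha0 ha1 ha2 ha3 hb0 hb1 hb2 hb3 hra hrb (by norm_num) (by norm_num) o8
  exact es7_ring
    (fun a => es7H _ _ _ _ _ (code (placed l s.K 0) a))
    (fun b => es7H _ _ _ _ _ (code (placed l s.K 1) b))
    (fun a b hab => es7H_mono _ _ _ _ _ (code_mono _ hab))
    (fun a b hab => es7H_mono _ _ _ _ _ (code_mono _ hab))
    (fun a b => es7H_osc _ _ _ _ _ _ _) (fun a b => es7H_osc _ _ _ _ _ _ _)
    (by simpa using k1) (by simpa using k2) (by simpa using k3) (by simpa using k4)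
    (by simpa using k5) (by simpa using k6) (by simpa using k7) (by simpa using k8)

end H46K
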