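import Pool.Agent.Lib.H46K.EDefs

/-!
# H46K, Part E, chunk ES8: the hexagon (pattern P2)
-/

namespace H46K

/-- indicator used for the labels -/
def es8ind (c w : ℕ) : ℤ := (if c < w then 1 else 0) + (if c ≤ w then 1 else 0)

theorem es8ind_lt {c w : ℕ} (h : c < w) : es8ind c w = 2 := by
  simp [es8ind, h, h.le]

theorem es8ind_gt {c w : ℕ} (h : w < c) : es8ind c w = 0 := by
  simp [es8ind, not_lt.2 h.le, not_le.2 h]

theorem es8ind_self (c : ℕ) : es8ind c c = 1 := by
  simp [es8ind]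

theorem es8ind_mono (c : ℕ) {w w' : ℕ} (h : w ≤ w') : es8ind c w ≤ es8ind c w' := by
  unfold es8ind
  split_ifs <;> omega

theorem es8ind_nonneg (c w : ℕ) : 0 ≤ es8ind c w := by
  unfold es8ind
  split_ifs <;> omega

theorem es8ind_le (c w : ℕ) : es8ind c w ≤ 2 := by
  unfold es8ind
  split_ifs <;> omega

/-- the label function with three marked points -/
def es8F (a b c w : ℕ) : ℤ := es8ind a w + es8ind b w + es8ind c w

theorem es8F_mono (a b c : ℕ) {w w' : ℕ} (h : w ≤ w') : es8F a b c w ≤ es8F a b c w' := by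
  have h1 := es8ind_mono a h
  have h2 := es8ind_mono b h
  have h3 := es8ind_mono c h
  unfold es8F
  omega

theorem es8F_osc (a b c w w' : ℕ) : es8F a b c w ≤ es8F a b c w' + 6 := by
  have h1 := es8ind_le a w
  have h2 := es8ind_le b w
  have h3 := es8ind_le c w
  have h4 := es8ind_nonneg a w'
  have h5 := es8ind_nonneg b w'
  have h6 := es8ind_nonneg c w'
  unfold es8F
  omega

/-- the ends of a gap which contains only the first of the three marked points -/
theorem es8F_ends {a b c p q : ℕ} (h1 : cb p a q) (h2 : cb q b p) (h3 : cb q c p) :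
    es8F a b c q % 6 = (es8F a b c a + 1) % 6 ∧ es8F a b c p % 6 = (es8F a b c a - 1) % 6 := by
  unfold cb at h1 h2 h3
  rcases h1 with h1 | h1 | h1 <;> rcases h2 with h2 | h2 | h2 <;> rcases h3 with h3 | h3 | h3 <;>
    first
    | (exfalso; omega)
    | (unfold es8F
       rw [es8ind_self a]
       simp (discharger := omega) only [es8ind_lt, es8ind_gt]
       constructor <;> norm_num)

theorem es8F_cyc {a b c : ℕ} (h : cb a b c) :
    es8F a b c b % 6 = (es8F a b c a + 2) % 6 ∧ es8F a b c c % 6 = (es8F a b c a + 4) % 6 := by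
  unfold cb at h
  rcases h with h | h | h <;>
    (unfold es8F
     rw [es8ind_self a, es8ind_self b, es8ind_self c]
     simp (discharger := omega) only [es8ind_lt, es8ind_gt]
     constructor <;> norm_num)

theorem es8F_anti {a b c : ℕ} (h : cb a c b) :
    es8F a b c b % 6 = (es8F a b c a - 2) % 6 ∧ es8F a b c c % 6 = (es8F a b c a - 4) % 6 := by
  unfold cb at h
  rcases h with h | h | h <;>
    (unfold es8F
     rw [es8ind_self a, es8ind_self b, es8ind_self c]
     simp (discharger := omega) only [es8ind_lt, es8ind_gt]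
     constructor <;> norm_num)

theorem es8F_swap12 (a b c w : ℕ) : es8F a b c w = es8F b a c w := by
  unfold es8F; ring

theorem es8F_rot (a b c w : ℕ) : es8F a b c w = es8F b c a w := by
  unfold es8F; ring

/-- sign and labels of three points in cyclic position -/
theorem es8F_sign {a b c : ℕ} (h : cb a b c ∨ cb a c b) :
    ∃ δ : ℤ, (δ = 1 ∨ δ = -1) ∧ (es8F a b c b - es8F a b c a) % 6 = (2 * δ) % 6 ∧
      (es8F a b c c - es8F a b c a) % 6 = (4 * δ) % 6 := by
  rcases h with h | h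
  · refine ⟨1, Or.inl rfl, ?_⟩
    have := es8F_cyc h
    omega
  · refine ⟨-1, Or.inr rfl, ?_⟩
    have := es8F_anti h
    omega

theorem es8_ne {p a q b : ℕ} (h : cb p a q) (h' : cb q b p) : a ≠ b := by
  unfold cb at h h'
  omega

theorem es8_tot {a b c : ℕ} (h1 : a ≠ b) (h2 : b ≠ c) (h3 : a ≠ c) : cb a b c ∨ cb a c b := by
  unfold cb
  omega

/-- The ring `k = 3` from three rows and three columns. -/
theorem es8_ring {X : ℕ → ℕ → Prop} {a0 a1 a2 c0 c1 c2 p0 p1 p2 q0 q1 q2 u0 u1 u2 v0 v1 v2 : ℕ}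
    (hp0 : X a0 p0) (hp1 : X a1 p1) (hp2 : X a2 p2) (hq0 : X a0 q0) (hq1 : X a1 q1)
    (hq2 : X a2 q2) (hu0 : X u0 c0) (hu1 : X u1 c1) (hu2 : X u2 c2) (hv0 : X v0 c0)
    (hv1 : X v1 c1) (hv2 : X v2 c2)
    (g0 : cb p0 c0 q0) (g01 : cb q0 c1 p0) (g02 : cb q0 c2 p0)
    (g1 : cb p1 c1 q1) (g12 : cb q1 c2 p1) (g10 : cb q1 c0 p1)
    (g2 : cb p2 c2 q2) (g20 : cb q2 c0 p2) (g21 : cb q2 c1 p2)
    (k0 : cb u0 a1 v0) (k02 : cb v0 a2 u0) (k00 : cb v0 a0 u0)
    (k1 : cb u1 a2 v1) (k10 : cb v1 a0 u1) (k11 : cb v1 a1 u1)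
    (k2 : cb u2 a0 v2) (k21 : cb v2 a1 u2) (k22 : cb v2 a2 u2) :
    HasRing (toSet X) := by
  have hA : cb a0 a1 a2 ∨ cb a0 a2 a1 :=
    es8_tot (es8_ne k0 k00).symm (es8_ne k0 k02) (es8_ne k1 k10).symm
  have hC : cb c0 c1 c2 ∨ cb c0 c2 c1 :=
    es8_tot (es8_ne g0 g01) (es8_ne g1 g12) (es8_ne g0 g02)
  obtain ⟨δ, hδ, hA1, hA2⟩ := es8F_sign hA
  obtain ⟨ε, hε, hC1, hC2⟩ := es8F_sign hC
  -- ends on the columns
  have E0 := es8F_ends g0 g01 g02
  have E1 := es8F_ends g1 g12 g10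
  have E2 := es8F_ends g2 g20 g21
  have D0 := es8F_ends k0 k02 k00
  have D1 := es8F_ends k1 k10 k11
  have D2 := es8F_ends k2 k21 k22
  simp only [← es8F_rot c0 c1 c2] at E1
  simp only [es8F_rot c2 c0 c1] at E2
  simp only [← es8F_rot a0 a1 a2] at D0
  simp only [es8F_rot a2 a0 a1] at D1
  refine ⟨3, δ, ε, Or.inr rfl, hδ, hε, fun w => es8F a0 a1 a2 w - es8F a0 a1 a2 a0,
    fun w => es8F c0 c1 c2 w - es8F c0 c1 c2 c0 + 2 * ε, ?_, ?_, ?_, ?_, ?_, ?_⟩
  · intro p _ q _ h
    have := es8F_mono a0 a1 a2 h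
    dsimp only
    omega
  · intro p _ q _
    have := es8F_osc a0 a1 a2 p.1 q.1
    dsimp only
    omega
  · intro p _ q _ h
    have := es8F_mono c0 c1 c2 h
    dsimp only
    omega
  · intro p _ q _
    have := es8F_osc c0 c1 c2 p.2 q.2
    dsimp only
    omega
  · intro i s hs
    simp only [Int.ModEq]
    have hi : i % 3 = 0 ∨ i % 3 = 1 ∨ i % 3 = 2 := by omega
    rcases hi with hi | hi | hi
    · rcases hs with rfl | rfl
      · exact ⟨(a0, q0), hq0, by dsimp only; rcases hδ with rfl | rfl <;> omega, by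
          dsimp only; rcases hε with rfl | rfl <;> omega⟩
      · exact ⟨(a0, p0), hp0, by dsimp only; rcases hδ with rfl | rfl <;> omega, by
          dsimp only; rcases hε with rfl | rfl <;> omega⟩
    · rcases hs with rfl | rfl
      · exact ⟨(a1, q1), hq1, by dsimp only; rcases hδ with rfl | rfl <;> omega, by
          dsimp only; rcases hε with rfl | rfl <;> omega⟩
      · exact ⟨(a1, p1), hp1, by dsimp only; rcases hδ with rfl | rfl <;> omega, by
          dsimp only; rcases hε with rfl | rfl <;> omega⟩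
    · rcases hs with rfl | rfl
      · exact ⟨(a2, q2), hq2, by dsimp only; rcases hδ with rfl | rfl <;> omega, by
          dsimp only; rcases hε with rfl | rfl <;> omega⟩
      · exact ⟨(a2, p2), hp2, by dsimp only; rcases hδ with rfl | rfl <;> omega, by
          dsimp only; rcases hε with rfl | rfl <;> omega⟩
  · intro i s hs
    simp only [Int.ModEq]
    have hi : i % 3 = 0 ∨ i % 3 = 1 ∨ i % 3 = 2 := by omega
    rcases hi with hi | hi | hi
    · rcases hs with rfl | rfl
      · exact ⟨(v2, c2), hv2, by dsimp only; rcases hδ with rfl | rfl <;> omega, by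
          dsimp only; rcases hε with rfl | rfl <;> omega⟩
      · exact ⟨(u2, c2), hu2, by dsimp only; rcases hδ with rfl | rfl <;> omega, by
          dsimp only; rcases hε with rfl | rfl <;> omega⟩
    · rcases hs with rfl | rfl
      · exact ⟨(v0, c0), hv0, by dsimp only; rcases hδ with rfl | rfl <;> omega, by
          dsimp only; rcases hε with rfl | rfl <;> omega⟩
      · exact ⟨(u0, c0), hu0, by dsimp only; rcases hδ with rfl | rfl <;> omega, by
          dsimp only; rcases hε with rfl | rfl <;> omega⟩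
    · rcases hs with rfl | rfl
      · exact ⟨(v1, c1), hv1, by dsimp only; rcases hδ with rfl | rfl <;> omega, by
          dsimp only; rcases hε with rfl | rfl <;> omega⟩
      · exact ⟨(u1, c1), hu1, by dsimp only; rcases hδ with rfl | rfl <;> omega, by
          dsimp only; rcases hε with rfl | rfl <;> omega⟩

theorem es8_ent_flip {X : ℕ → ℕ → Prop} {k a b : ℕ} : ent X (k + 5) b a ↔ ent X k a b := by
  unfold ent
  rcases Nat.mod_two_eq_zero_or_one k with h | h
  · have h' : (k + 5) % 2 = 1 := by omega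
    simp [h, h']
  · have h' : (k + 5) % 2 = 0 := by omega
    simp [h, h']

theorem es8_arc1 {x4 y4 l3 l5 : ℕ} (h1 : cb x4 l5 y4) (h2 : cb y4 l3 x4) : cb l3 l5 y4 := by
  unfold cb at *
  omega

theorem es8_arc1' {x4 y4 l3 l5 : ℕ} (h1 : cb x4 l5 y4) (h2 : cb y4 l3 x4) : cb x4 l5 l3 := by
  unfold cb at *
  omega

theorem es8_arc2 {x y y4 l3 l5 : ℕ} (h : cb l3 l5 y4) (hx : ¬ (x = l3 ∨ cb l3 x y4))
    (hy : ¬ (y = l3 ∨ cb l3 y y4)) (h1 : cb x l5 y) (h2 : cb y l3 x) : False := by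
  unfold cb at *
  omega

theorem es8_arc2' {x y x4 l3 l5 : ℕ} (h : cb x4 l5 l3) (hx : ¬ (x = l3 ∨ cb x4 x l3))
    (hy : ¬ (y = l3 ∨ cb x4 y l3)) (h1 : cb x l5 y) (h2 : cb y l3 x) : False := by
  unfold cb at *
  omega

theorem es8_tri {x y w l1 : ℕ} (h : cb x l1 y) (hx : w ≠ x) (hy : w ≠ y) (h' : ¬ cb x w y) :
    cb y w x := by
  unfold cb at *
  omega

/-- Step 1 -/
theorem es8_step1 {r : ℕ} {X : ℕ → ℕ → Prop} {l x y : ℕ → ℕ} {d : ℕ → Bool}
    (P : PhiPath r X l x y d) {k : ℕ} (hk : k + 6 ≤ 14)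
    (h : cb (x (k + 5)) (l k) (y (k + 5))) : cb (y k) (l (k + 5)) (x k) := by
  have hne : ∀ w, (w = x k ∨ w = y k) → l (k + 5) ≠ w := by
    intro w hw hlw
    have h1 : ent X k (l k) w := (P.one k (by omega) w).2 hw
    rw [← hlw] at h1
    have h2 := (P.one (k + 5) (by omega) (l k)).1 (es8_ent_flip.2 h1)
    rcases h2 with h2 | h2 <;> (rw [h2] at h; unfold cb at h; omega)
  apply es8_tri (P.F1 k (by omega)) (hne _ (Or.inl rfl)) (hne _ (Or.inr rfl))
  intro hc
  have hhull : ∀ w, (w = x k ∨ w = y k) → ent X (k + 5) w (l k) := by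
    intro w hw
    exact es8_ent_flip.2 ((P.one k (by omega) w).2 hw)
  have hF1 := P.F1 (k + 4) (by omega)
  have hF2 := P.F2 (k + 3) (by omega)
  have hF6 := P.F6a k (by omega)
  rcases hd : d (k + 5) with _ | _
  · have he := P.empm (k + 3) (by omega) hd
    exact es8_arc2' (es8_arc1' hF1 hF2)
      (fun hw => he (x k) (l k) hw h (hhull _ (Or.inl rfl)))
      (fun hw => he (y k) (l k) hw h (hhull _ (Or.inr rfl))) hc hF6
  · have he := P.empp (k + 3) (by omega) hd
    exact es8_arc2 (es8_arc1 hF1 hF2)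
      (fun hw => he (x k) (l k) hw h (hhull _ (Or.inl rfl)))
      (fun hw => he (y k) (l k) hw h (hhull _ (Or.inr rfl))) hc hF6

theorem es8_row {r : ℕ} {X : ℕ → ℕ → Prop} {l x y : ℕ → ℕ} {d : ℕ → Bool}
    (P : PhiPath r X l x y d) {k : ℕ} (hk : k ≤ 14) (h2 : k % 2 = 0) :
    X (l k) (x k) ∧ X (l k) (y k) := by
  have h1 := (P.one k hk (x k)).2 (Or.inl rfl)
  have h3 := (P.one k hk (y k)).2 (Or.inr rfl)
  simp only [ent, h2, if_true] at h1 h3
  exact ⟨h1, h3⟩

theorem es8_col {r : ℕ} {X : ℕ → ℕ → Prop} {l x y : ℕ → ℕ} {d : ℕ → Bool}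
    (P : PhiPath r X l x y d) {k : ℕ} (hk : k ≤ 14) (h2 : k % 2 = 1) :
    X (x k) (l k) ∧ X (y k) (l k) := by
  have h1 := (P.one k hk (x k)).2 (Or.inl rfl)
  have h3 := (P.one k hk (y k)).2 (Or.inr rfl)
  simp only [ent, h2, one_ne_zero, if_false] at h1 h3
  exact ⟨h1, h3⟩

/-- If the line `l k` lies in the gap `k + 5` then the six lines `l k, ..., l (k + 5)` form a ring with
`k = 3`.

Step 1: `l (k + 5)` is outside of the closed gap `γ_k`, i.e. `cb (y k) (l (k + 5)) (x k)`
(`es8_step1`).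

Step 2: the ring (`es8_ring`). -/
theorem hexagon {r : ℕ} {X : ℕ → ℕ → Prop} {l x y : ℕ → ℕ} {d : ℕ → Bool}
    (P : PhiPath r X l x y d) {k : ℕ} (hk : k + 6 ≤ 14)
    (h : cb (x (k + 5)) (l k) (y (k + 5))) : HasRing (toSet X) := by
  have hs := es8_step1 P hk h
  rcases Nat.mod_two_eq_zero_or_one k with h2 | h2
  · have r0 := es8_row P (k := k) (by omega) h2
    have r1 := es8_row P (k := k + 2) (by omega) (by omega)
    have r2 := es8_row P (k := k + 4) (by omega) (by omega)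
    have c0 := es8_col P (k := k + 1) (by omega) (by omega)
    have c1 := es8_col P (k := k + 3) (by omega) (by omega)
    have c2 := es8_col P (k := k + 5) (by omega) (by omega)
    exact es8_ring r0.1 r1.1 r2.1 r0.2 r1.2 r2.2 c0.1 c1.1 c2.1 c0.2 c1.2 c2.2
      (P.F1 k (by omega)) (P.F6a k (by omega)) hs
      (P.F1 (k + 2) (by omega)) (P.F6a (k + 2) (by omega)) (P.F2 (k + 1) (by omega))
      (P.F1 (k + 4) (by omega)) (P.F6b (k + 1) (by omega)) (P.F2 (k + 3) (by omega))
      (P.F1 (k + 1) (by omega)) (P.F6a (k + 1) (by omega)) (P.F2 k (by omega))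
      (P.F1 (k + 3) (by omega)) (P.F6b k (by omega)) (P.F2 (k + 2) (by omega))
      h (P.F6b (k + 2) (by omega)) (P.F2 (k + 4) (by omega))
  · have r0 := es8_row P (k := k + 1) (by omega) (by omega)
    have r1 := es8_row P (k := k + 3) (by omega) (by omega)
    have r2 := es8_row P (k := k + 5) (by omega) (by omega)
    have c0 := es8_col P (k := k + 2) (by omega) (by omega)
    have c1 := es8_col P (k := k + 4) (by omega) (by omega)
    have c2 := es8_col P (k := k) (by omega) h2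
    exact es8_ring r0.1 r1.1 r2.1 r0.2 r1.2 r2.2 c0.1 c1.1 c2.1 c0.2 c1.2 c2.2
      (P.F1 (k + 1) (by omega)) (P.F6a (k + 1) (by omega)) (P.F2 k (by omega))
      (P.F1 (k + 3) (by omega)) (P.F6b k (by omega)) (P.F2 (k + 2) (by omega))
      h (P.F6b (k + 2) (by omega)) (P.F2 (k + 4) (by omega))
      (P.F1 (k + 2) (by omega)) (P.F6a (k + 2) (by omega)) (P.F2 (k + 1) (by omega))
      (P.F1 (k + 4) (by omega)) (P.F6b (k + 1) (by omega)) (P.F2 (k + 3) (by omega))
      (P.F1 k (by omega)) (P.F6a k (by omega)) hs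

end H46K
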