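import Pool.Agent.Lib.H46K.ES5
import Pool.Agent.Lib.H46K.ES6B
import Pool.Agent.Lib.H46K.ES6C
import Pool.Agent.Lib.H46K.ES7
import Pool.Agent.Lib.H46K.ES8

/-!
# H46K, Part E, chunk ES9: soundness of the stack machine
-/

namespace H46K

theorem es9_parity {l : ℕ → ℕ} {K k j : ℕ} (h : k % 2 = j % 2) : placed l K k = placed l K j := by
  rw [← placed_mod l K k, ← placed_mod l K j, h]

theorem es9_xor (a c : ℕ) (i : ℕ) (h : bit a i = true) (hc : ¬ bit c i = true) :
    bit (a ^^^ (a &&& c)) i = true := by
  rw [bit_xor, bit_and]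
  simp only [Bool.not_eq_true] at hc
  simp [h, hc]

/-- Soundness of one instruction. Cases: `t = 0`: a mask is `0`, contradiction (`bit_zero`); `t = 1, 2`:
`leafInc_sound`, `leafEmp_sound`; `t = 3`: `leafHex_sound`, `hexagon`; `t = 4`: `leafP1_sound`;
`t = 5`: the bit of the end is in `M` or not (`Sat.rx`, `Sat.ry`, `bit_and`, `bit_xor`);
`t = 6`: `Sat.children`; `t = 7`: `l k = l j` (`code_inj`; same parity), hence
`{x k, y k} = {x j, y j}` by `P.one`, so `x k = x j ∧ y k = y j` or `x k = y j ∧ y k = x j`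
(note `x k ≠ y k` by `F1` or `F2`, or argue without it); `placed` depends only on the
parity. -/
theorem step_sound {r : ℕ} {X : ℕ → ℕ → Prop} {l x y : ℕ → ℕ} {d : ℕ → Bool} {s : St}
    (P : PhiPath r X l x y d) (hX : ¬ HasRing (toSet X)) (h : Sat l x y d s) {i : ℕ} {L : List St}
    (hs : step s i = some L) : ∃ s' ∈ L, Sat l x y d s' := by
  unfold step at hs
  dsimp only at hs
  have hK15 := h.K15
  split_ifs at hs with t0 c0 t1 c1 t2 c2 t3 c3 t4 c4 t5 c5 t6 c6 c7
  · -- empty mask
    exfalso
    obtain ⟨hk, hm⟩ := c0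
    unfold St.mm at hm
    split_ifs at hm with hh
    · have := h.mx _ hk
      rw [hm, bit_zero] at this
      exact Bool.noConfusion this
    · have := h.my _ hk
      rw [hm, bit_zero] at this
      exact Bool.noConfusion this
  · exact (leafInc_sound P h c1).elim
  · exact (leafEmp_sound P h c2).elim
  · obtain ⟨hk, hc⟩ := leafHex_sound P h c3
    exact (hX (hexagon P hk hc)).elim
  · exact (hX (leafP1_sound P h c4)).elim
  · -- split
    simp only [Option.some.injEq] at hs
    subst hs
    by_cases hh : i / 8 / 16 % 2 = 0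
    · have hx := h.mx _ c5
      by_cases hb : bit (i / 8 / 32) (code (placed l s.K (i / 8 % 16 + 1)) (x (i / 8 % 16))) = true
      · refine ⟨s.rr (i / 8 % 16) (i / 8 / 16 % 2) (i / 8 / 32), by simp, ?_⟩
        unfold St.rr
        rw [if_pos hh]
        exact h.rx c5 hb
      · refine ⟨s.rr (i / 8 % 16) (i / 8 / 16 % 2) (s.mm (i / 8 % 16) (i / 8 / 16 % 2) ^^^
          (s.mm (i / 8 % 16) (i / 8 / 16 % 2) &&& (i / 8 / 32))), by simp, ?_⟩
        unfold St.rr St.mm
        rw [if_pos hh, if_pos hh]
        exact h.rx c5 (es9_xor _ _ _ hx hb)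
    · have hy := h.my _ c5
      by_cases hb : bit (i / 8 / 32) (code (placed l s.K (i / 8 % 16 + 1)) (y (i / 8 % 16))) = true
      · refine ⟨s.rr (i / 8 % 16) (i / 8 / 16 % 2) (i / 8 / 32), by simp, ?_⟩
        unfold St.rr
        rw [if_neg hh]
        exact h.ry c5 hb
      · refine ⟨s.rr (i / 8 % 16) (i / 8 / 16 % 2) (s.mm (i / 8 % 16) (i / 8 / 16 % 2) ^^^
          (s.mm (i / 8 % 16) (i / 8 / 16 % 2) &&& (i / 8 / 32))), by simp, ?_⟩
        unfold St.rr St.mm
        rw [if_neg hh, if_neg hh]
        exact h.ry c5 (es9_xor _ _ _ hy hb)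
  · simp only [Option.some.injEq] at hs
    subst hs
    exact Sat.children P h c6
  · -- coincidence
    simp only [Option.some.injEq] at hs
    subst hs
    obtain ⟨hk, hj, hpar, hpos⟩ := c7
    set k := i / 8 % 16 with hkdef
    set j := i / 8 / 16 with hjdef
    have h0 : 0 ∈ placed l s.K k := zero_mem_placed h.K2 P.l0 P.l1 k
    have hlk : l k = l j := by
      apply code_inj (placed l s.K k) h0 (mem_placed hk)
      have e1 := h.pos k hk
      have e2 := h.pos j hj
      rw [es9_parity hpar.symm] at e2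
      rw [← e1, ← e2]
      exact hpos
    have hk14 : k ≤ 14 := by omega
    have hj14 : j ≤ 14 := by omega
    have hent : ∀ a b, ent X k a b ↔ ent X j a b := by
      intro a b
      unfold ent
      rw [hpar]
    have hone : ∀ b, (b = x k ∨ b = y k) ↔ (b = x j ∨ b = y j) := by
      intro b
      rw [← P.one k hk14 b, ← P.one j hj14 b, hlk, hent]
    have hpar1 : placed l s.K (j + 1) = placed l s.K (k + 1) := es9_parity (by omega)
    have mxk := h.mx k hk
    have myk := h.my k hk
    have mxj := h.mx j hj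
    have myj := h.my j hj
    have a1 := (hone (x k)).1 (Or.inl rfl)
    have a2 := (hone (y k)).1 (Or.inr rfl)
    have a3 := (hone (x j)).2 (Or.inl rfl)
    have a4 := (hone (y j)).2 (Or.inr rfl)
    have hcase : (x k = x j ∧ y k = y j) ∨ (x k = y j ∧ y k = x j) := by
      omega
    rcases hcase with ⟨e1, e2⟩ | ⟨e1, e2⟩
    · refine ⟨_, List.mem_cons_self, ?_⟩
      have s1 := h.rx (k := k) (M := s.mx j) hk (by rw [e1, ← hpar1]; exact mxj)
      have s2 := s1.ry (k := k) (M := s.my j) (by rw [rx_K]; exact hk)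
        (by rw [rx_K, e2, ← hpar1]; exact myj)
      have s3 := s2.rx (k := j) (M := s.mx k) (by rw [ry_K, rx_K]; exact hj)
        (by rw [ry_K, rx_K, ← e1, hpar1]; exact mxk)
      exact s3.ry (k := j) (M := s.my k) (by rw [rx_K, ry_K, rx_K]; exact hj)
        (by rw [rx_K, ry_K, rx_K, ← e2, hpar1]; exact myk)
    · refine ⟨_, List.mem_cons_of_mem _ List.mem_cons_self, ?_⟩
      have s1 := h.rx (k := k) (M := s.my j) hk (by rw [e1, ← hpar1]; exact myj)
      have s2 := s1.ry (k := k) (M := s.mx j) (by rw [rx_K]; exact hk)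
        (by rw [rx_K, e2, ← hpar1]; exact mxj)
      have s3 := s2.rx (k := j) (M := s.my k) (by rw [ry_K, rx_K]; exact hj)
        (by rw [ry_K, rx_K, ← e2, hpar1]; exact myk)
      exact s3.ry (k := j) (M := s.mx k) (by rw [rx_K, ry_K, rx_K]; exact hj)
        (by rw [rx_K, ry_K, rx_K, ← e1, hpar1]; exact mxk)

/-- induction on the list of instructions -/
theorem run_sound {r : ℕ} {X : ℕ → ℕ → Prop} {l x y : ℕ → ℕ} {d : ℕ → Bool}
    (P : PhiPath r X l x y d) (hX : ¬ HasRing (toSet X)) (is : List ℕ) (st : List St)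
    (hr : run is st = true) : ∀ s ∈ st, ¬ Sat l x y d s := by
  induction is generalizing st with
  | nil =>
    cases st with
    | nil => simp
    | cons s st => exact absurd hr (by simp [run])
  | cons i is ih =>
    cases st with
    | nil => simp
    | cons s st =>
      intro s' hs' hsat
      rw [run] at hr
      rcases hst : step s i with _ | L
      · rw [hst] at hr
        exact Bool.noConfusion hr
      · rw [hst] at hr
        have hall := ih (L ++ st) hr
        rcases List.mem_cons.1 hs' with rfl | hmem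
        · obtain ⟨s'', hs'', hsat''⟩ := step_sound P hX hsat hst
          exact hall s'' (List.mem_append_left _ hs'') hsat''
        · exact hall s' (List.mem_append_right _ hmem) hsat

end H46K
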