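import Pool.Agent.Lib.H46K.Defs

/-!
# H46K: transport of embeddings along an isomorphism
-/

namespace H46K

/-- The embedding of G obtained from an embedding of H and an isomorphism from G to H. -/
def isoPull {V W : Type*} {G : SimpleGraph V} {H : SimpleGraph W} (φ : G ≃g H)
    (f : SpatialGraph H) : SpatialGraph G where
  pt := fun v => f.pt (φ v)
  mid := fun u v => f.mid (φ u) (φ v)
  pt_inj := f.pt_inj.comp φ.injective
  mid_symm := fun u v h => f.mid_symm _ _ (φ.map_rel_iff.2 h)
  simple := fun u v h => f.simple _ _ (φ.map_rel_iff.2 h)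
  disj := by
    intro u v u' v' h h' hne x hx
    have hne' : s(φ u, φ v) ≠ s(φ u', φ v') := by
      intro he
      apply hne
      rw [Sym2.eq_iff] at he ⊢
      rcases he with ⟨h1, h2⟩ | ⟨h1, h2⟩
      · exact Or.inl ⟨φ.injective h1, φ.injective h2⟩
      · exact Or.inr ⟨φ.injective h1, φ.injective h2⟩
    obtain ⟨w, h1, h2, h3⟩ := f.disj _ _ _ _ (φ.map_rel_iff.2 h) (φ.map_rel_iff.2 h') hne' x hx
    refine ⟨φ.symm w, ?_, ?_, ?_⟩
    · rcases h1 with h1 | h1
      · exact Or.inl (by rw [h1]; exact φ.symm_apply_apply u)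
      · exact Or.inr (by rw [h1]; exact φ.symm_apply_apply v)
    · rcases h2 with h2 | h2
      · exact Or.inl (by rw [h2]; exact φ.symm_apply_apply u')
      · exact Or.inr (by rw [h2]; exact φ.symm_apply_apply v')
    · rw [h3]
      congr 1
      exact (φ.apply_symm_apply w).symm
  vert := by
    intro u v w h hw
    rcases f.vert _ _ _ (φ.map_rel_iff.2 h) hw with h1 | h1
    · exact Or.inl (φ.injective h1)
    · exact Or.inr (φ.injective h1)

theorem isoPull_poly {V W : Type*} {G : SimpleGraph V} {H : SimpleGraph W} (φ : G ≃g H)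
    (f : SpatialGraph H) {u v : V} (p : G.Walk u v) :
    f.poly (p.map φ.toHom) = (isoPull φ f).poly p := by
  induction p with
  | nil => rfl
  | cons h p ih =>
    rw [SimpleGraph.Walk.map_cons]
    unfold SpatialGraph.poly
    rw [ih]
    rfl

/-- transport of embeddings along an isomorphism -/
theorem isIK_of_iso {V W : Type} (G : SimpleGraph V) (H : SimpleGraph W) (φ : G ≃g H)
    (h : IsIK G) : IsIK H := by
  intro f
  obtain ⟨v, c, hc, hu⟩ := h (isoPull φ f)
  refine ⟨φ.toHom v, c.map φ.toHom, hc.map φ.injective, ?_⟩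
  rw [isoPull_poly]
  exact hu

end H46K
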