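import Pool.Agent.Lib.H46K.B9a
import Pool.Agent.Lib.H46K.B9b

/-!
# H46K, Part B: assembly
-/

namespace H46K

/-- Part B: the only odd pair cannot coexist with a ring. -/
theorem partB (m n : ℕ) (hm : 3 ≤ m) (hn : 3 ≤ n) (X : Set (Fin m × Fin n))
    (E : Sym2 (Fin m ⊕ Fin n) → Sym2 (Fin m ⊕ Fin n) → ZMod 2) (h : OddTG m n X E) :
    ¬ HasRing X := by
  rintro ⟨k, δ, ε, hk, hδ, hε, hR⟩
  obtain ⟨K, hK, rfl⟩ : ∃ K : ℕ, (K = 2 ∨ K = 3) ∧ (K : ℤ) = k := by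
    rcases hk with rfl | rfl
    · exact ⟨2, Or.inl rfl, rfl⟩
    · exact ⟨3, Or.inr rfl, rfl⟩
  obtain ⟨lr, lc, H, G, L⟩ := ring_lift m n (by omega) (by omega) K δ ε X hR
  obtain ⟨a, b, c⟩ := chains_exist m n K hm hn hK δ ε hδ hε X lr lc H G L
  exact chains_contra m n K hm hn hK δ ε hδ hε X lr lc (lift_all hδ hε L) a b c E h

end H46K
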