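import Pool.Agent.Lib.H46K.TZ0

/-!
# H46K chunk TC2 (L): two sides of the straight embedding meet only in common end points

`pos` is injective (third coordinates `0, 1, 5, -4` separate the four kinds of letters).
`side_inter`: two different sides (as unordered pairs of letters) meet at most in the position of a common letter.
By symmetry of the roles (`segment_symm`) both sides can be taken in the direction of `SideH`: `15` cases up
to exchange, of which `AA-BB`-type cases come in pairs related by `sig`: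
* `AA s, AA t` (`s ≠ t`): on the first line, first coordinate in `[s,s+1] ∩ [t,t+1]`.
* `AA, AP p`: third coordinate `0` on `A p P` only at `A p`; `p = 1` or `m` lies in `[s,s+1]` only as an end.
* `AA, BB`, `AA, BQ`: `AA` has second and third coordinate `0`; the side `B p Q` is
  `(0, p - (p+10) w, 1 - 5 w)`, third coordinate `0` at `w = 1/5`, second coordinate `(4 p - 10)/5 ≠ 0`; first
  coordinate of `AA` is `> 0` anyway.
* `AA, AB`: third coordinate `0` only at the `A` end.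
* `AP p, AP p'`, `p ≠ p'`: `(1-w) p - 10 w = (1-w') p' - 10 w'`, `5 w = 5 w'`: `w = 1`.
* `AP, BB`: second coordinate `0` against `≥ 1`.
* `AP p, BQ q`: second coordinate `0`: `w' = q/(q+10)`, third coordinate `1 - 5 q/(q+10) = (10 - 4 q)/(q + 10)`;
  first coordinate `0`: `w = p/(p+10)`, third coordinate `5 p/(p+10)`: `q = 1`: `6/11`; `q ≥ 3`: negative;
  `p = 1`: `5/11`; `p ≥ 3`: `≥ 15/13`: different.
* `AP p, AB`: second coordinate `0` on `A B` only at the `A` end, third coordinate `0` on `A p P` only at `A p`.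
* `BB, BB`; `BB, BQ`; `BB, AB`; `BQ, BQ`; `BQ, AB`: the images of the previous ones under `sig`, or directly:
  `BB` has first coordinate `0`, third coordinate `1`; `B q Q` has first coordinate `0`; `A B` has first
  coordinate `0` only at the `B` end; `B q Q` has third coordinate `1` only at `B q`.
* `AB (s,u), AB (t,v)`: `((1-w) s, w u, w) = ((1-w') t, w' v, w')`: `w = w'`, (`w = 1` or `s = t`) and (`w = 0` or `u = v`).
-/

set_option autoImplicit false

namespace H46K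

variable {m n : ℕ} {X : Set (Fin m × Fin n)}

theorem tc2_seg (a b x : P3) (h : x ∈ segment ℝ a b) : ∃ w : ℝ, 0 ≤ w ∧ w ≤ 1 ∧
    x.1 = (1 - w) * a.1 + w * b.1 ∧ x.2.1 = (1 - w) * a.2.1 + w * b.2.1 ∧
    x.2.2 = (1 - w) * a.2.2 + w * b.2.2 := by
  obtain ⟨u, w, hu, hw, huw, rfl⟩ := h
  have hu' : u = 1 - w := by linarith
  subst hu'
  exact ⟨w, hw, by linarith, rfl, rfl, rfl⟩

theorem tc2_ext (x y : P3) (h1 : x.1 = y.1) (h2 : x.2.1 = y.2.1) (h3 : x.2.2 = y.2.2) : x = y :=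
  Prod.ext h1 (Prod.ext h2 h3)

theorem tc2_A (s t : ℕ) (x : P3) (h : x ∈ segment ℝ (pos (.A s)) (pos (.A t))) :
    ∃ w : ℝ, 0 ≤ w ∧ w ≤ 1 ∧ x.1 = (1 - w) * s + w * t ∧ x.2.1 = 0 ∧ x.2.2 = 0 := by
  obtain ⟨w, h0, h1, e1, e2, e3⟩ := tc2_seg _ _ _ h
  refine ⟨w, h0, h1, ?_, ?_, ?_⟩
  · simpa [pos, ptA] using e1
  · simpa [pos, ptA] using e2
  · simpa [pos, ptA] using e3

theorem tc2_B (s t : ℕ) (x : P3) (h : x ∈ segment ℝ (pos (.B s)) (pos (.B t))) :
    ∃ w : ℝ, 0 ≤ w ∧ w ≤ 1 ∧ x.1 = 0 ∧ x.2.1 = (1 - w) * s + w * t ∧ x.2.2 = 1 := by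
  obtain ⟨w, h0, h1, e1, e2, e3⟩ := tc2_seg _ _ _ h
  refine ⟨w, h0, h1, ?_, ?_, ?_⟩
  · simpa [pos, ptB] using e1
  · simpa [pos, ptB] using e2
  · simpa [pos, ptB] using e3

theorem tc2_P (s : ℕ) (x : P3) (h : x ∈ segment ℝ (pos (.A s)) (pos .P)) :
    ∃ w : ℝ, 0 ≤ w ∧ w ≤ 1 ∧ x.1 = (1 - w) * s - 10 * w ∧ x.2.1 = 0 ∧ x.2.2 = 5 * w := by
  obtain ⟨w, h0, h1, e1, e2, e3⟩ := tc2_seg _ _ _ h
  refine ⟨w, h0, h1, ?_, ?_, ?_⟩
  · simp only [pos, ptA, ptP] at e1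
    rw [e1]; ring
  · simpa [pos, ptA, ptP] using e2
  · simp only [pos, ptA, ptP] at e3
    rw [e3]; ring

theorem tc2_Q (s : ℕ) (x : P3) (h : x ∈ segment ℝ (pos (.B s)) (pos .Q)) :
    ∃ w : ℝ, 0 ≤ w ∧ w ≤ 1 ∧ x.1 = 0 ∧ x.2.1 = (1 - w) * s - 10 * w ∧ x.2.2 = 1 - 5 * w := by
  obtain ⟨w, h0, h1, e1, e2, e3⟩ := tc2_seg _ _ _ h
  refine ⟨w, h0, h1, ?_, ?_, ?_⟩
  · simpa [pos, ptB, ptQ] using e1
  · simp only [pos, ptB, ptQ] at e2
    rw [e2]; ring
  · simp only [pos, ptB, ptQ] at e3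
    rw [e3]; ring

theorem tc2_AB (s t : ℕ) (x : P3) (h : x ∈ segment ℝ (pos (.A s)) (pos (.B t))) :
    ∃ w : ℝ, 0 ≤ w ∧ w ≤ 1 ∧ x.1 = (1 - w) * s ∧ x.2.1 = w * t ∧ x.2.2 = w := by
  obtain ⟨w, h0, h1, e1, e2, e3⟩ := tc2_seg _ _ _ h
  refine ⟨w, h0, h1, ?_, ?_, ?_⟩
  · simpa [pos, ptA, ptB] using e1
  · simpa [pos, ptA, ptB] using e2
  · simpa [pos, ptA, ptB] using e3

/-- a natural number in `[s, s+1]` -/
theorem tc2_nat (s p : ℕ) (w : ℝ) (h0 : 0 ≤ w) (h1 : w ≤ 1) (h : (p : ℝ) = (1 - w) * s + w * (s + 1 : ℕ)) :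
    p = s ∨ p = s + 1 := by
  have h2 : (p : ℝ) = s + w := by rw [h]; push_cast; ring
  have h3 : (s : ℝ) ≤ p := by linarith
  have h4 : (p : ℝ) ≤ (s + 1 : ℕ) := by push_cast; linarith
  have h3' : s ≤ p := by exact_mod_cast h3
  have h4' : p ≤ s + 1 := by exact_mod_cast h4
  omega

/-- the conclusion -/
def tc2_C (p q p' q' : Lt) (x : P3) : Prop := ∃ r, (r = p ∨ r = q) ∧ (r = p' ∨ r = q') ∧ x = pos r

theorem tc2_xA (x : P3) (p : ℕ) (h1 : x.1 = p) (h2 : x.2.1 = 0) (h3 : x.2.2 = 0) : x = pos (.A p) :=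
  tc2_ext _ _ (by simpa [pos, ptA] using h1) (by simpa [pos, ptA] using h2)
    (by simpa [pos, ptA] using h3)

theorem tc2_xB (x : P3) (p : ℕ) (h1 : x.1 = 0) (h2 : x.2.1 = p) (h3 : x.2.2 = 1) : x = pos (.B p) :=
  tc2_ext _ _ (by simpa [pos, ptB] using h1) (by simpa [pos, ptB] using h2)
    (by simpa [pos, ptB] using h3)

theorem tc2_1 (s t : ℕ) (hst : s ≠ t) (x : P3)
    (hx : x ∈ segment ℝ (pos (.A s)) (pos (.A (s + 1))))
    (hx' : x ∈ segment ℝ (pos (.A t)) (pos (.A (t + 1)))) :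
    tc2_C (.A s) (.A (s + 1)) (.A t) (.A (t + 1)) x := by
  obtain ⟨w, h0, h1, e1, e2, e3⟩ := tc2_A _ _ _ hx
  obtain ⟨w', h0', h1', e1', e2', e3'⟩ := tc2_A _ _ _ hx'
  have e : (s : ℝ) + w = t + w' := by
    rw [e1] at e1'; push_cast at e1'; linarith
  rcases Nat.lt_or_gt_of_ne hst with h | h
  · have h2 : ((s + 1 : ℕ) : ℝ) ≤ t := by exact_mod_cast h
    push_cast at h2
    have h3 : t ≤ s + 1 := by
      have : (t : ℝ) ≤ ((s + 1 : ℕ) : ℝ) := by push_cast; linarith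
      exact_mod_cast this
    have h4 : t = s + 1 := by omega
    subst h4
    refine ⟨.A (s + 1), Or.inr rfl, Or.inl rfl, tc2_xA _ _ ?_ e2 e3⟩
    push_cast at e ⊢
    rw [e1]; push_cast
    have : w = 1 := by linarith
    rw [this]; ring
  · have h2 : ((t + 1 : ℕ) : ℝ) ≤ s := by exact_mod_cast h
    push_cast at h2
    have h3 : s ≤ t + 1 := by
      have : (s : ℝ) ≤ ((t + 1 : ℕ) : ℝ) := by push_cast; linarith
      exact_mod_cast this
    have h4 : s = t + 1 := by omega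
    subst h4
    refine ⟨.A (t + 1), Or.inl rfl, Or.inr rfl, tc2_xA _ _ ?_ e2 e3⟩
    push_cast at e ⊢
    rw [e1]; push_cast
    have : w = 0 := by linarith
    rw [this]; ring

theorem tc2_2 (s p : ℕ) (x : P3)
    (hx : x ∈ segment ℝ (pos (.A s)) (pos (.A (s + 1))))
    (hx' : x ∈ segment ℝ (pos (.A p)) (pos .P)) :
    tc2_C (.A s) (.A (s + 1)) (.A p) .P x := by
  obtain ⟨w, h0, h1, e1, e2, e3⟩ := tc2_A _ _ _ hx
  obtain ⟨w', h0', h1', e1', e2', e3'⟩ := tc2_P _ _ hx'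
  have hw' : w' = 0 := by linarith
  have e : x.1 = p := by rw [e1', hw']; ring
  refine ⟨.A p, ?_, Or.inl rfl, tc2_xA _ _ e e2 e3⟩
  rcases tc2_nat s p w h0 h1 (by rw [← e, e1]) with h | h
  · exact Or.inl (by rw [h])
  · exact Or.inr (by rw [h])

theorem tc2_3 (s t : ℕ) (ht : 1 ≤ t) (x : P3) (q : Lt)
    (hx : x.2.1 = 0)
    (hx' : x ∈ segment ℝ (pos (.B t)) (pos (.B (t + 1)))) : False := by
  obtain ⟨w', h0', h1', e1', e2', e3'⟩ := tc2_B _ _ _ hx'
  rw [hx] at e2'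
  push_cast at e2'
  have : (1 : ℝ) ≤ t := by exact_mod_cast ht
  nlinarith

theorem tc2_5 (s i j : ℕ) (x : P3)
    (hx : x ∈ segment ℝ (pos (.A s)) (pos (.A (s + 1))))
    (hx' : x ∈ segment ℝ (pos (.A i)) (pos (.B j))) :
    tc2_C (.A s) (.A (s + 1)) (.A i) (.B j) x := by
  obtain ⟨w, h0, h1, e1, e2, e3⟩ := tc2_A _ _ _ hx
  obtain ⟨w', h0', h1', e1', e2', e3'⟩ := tc2_AB _ _ _ hx'
  have hw' : w' = 0 := by linarith
  have e : x.1 = i := by rw [e1', hw']; ring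
  refine ⟨.A i, ?_, Or.inl rfl, tc2_xA _ _ e e2 e3⟩
  rcases tc2_nat s i w h0 h1 (by rw [← e, e1]) with h | h
  · exact Or.inl (by rw [h])
  · exact Or.inr (by rw [h])

theorem tc2_6 (p p' : ℕ) (hp : p ≠ p') (x : P3)
    (hx : x ∈ segment ℝ (pos (.A p)) (pos .P))
    (hx' : x ∈ segment ℝ (pos (.A p')) (pos .P)) :
    tc2_C (.A p) .P (.A p') .P x := by
  obtain ⟨w, h0, h1, e1, e2, e3⟩ := tc2_P _ _ hx
  obtain ⟨w', h0', h1', e1', e2', e3'⟩ := tc2_P _ _ hx'
  have hw' : w' = w := by linarith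
  subst hw'
  have h2 : (1 - w') * ((p : ℝ) - p') = 0 := by linarith
  have h3 : w' = 1 := by
    rcases mul_eq_zero.1 h2 with h | h
    · linarith
    · exfalso
      apply hp
      have : (p : ℝ) = p' := by linarith
      exact_mod_cast this
  subst h3
  refine ⟨.P, Or.inr rfl, Or.inr rfl, tc2_ext _ _ ?_ ?_ ?_⟩
  · simp only [pos, ptP]; rw [e1]; ring
  · simp only [pos, ptP]; rw [e2]
  · simp only [pos, ptP]; rw [e3]; ring

theorem tc2_8 (hm : 3 ≤ m) (hn : 3 ≤ n) (p q : ℕ) (hp : p = 1 ∨ p = m) (hq : q = 1 ∨ q = n)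
    (x : P3) (hx : x ∈ segment ℝ (pos (.A p)) (pos .P))
    (hx' : x ∈ segment ℝ (pos (.B q)) (pos .Q)) : False := by
  obtain ⟨w, h0, h1, e1, e2, e3⟩ := tc2_P _ _ hx
  obtain ⟨w', h0', h1', e1', e2', e3'⟩ := tc2_Q _ _ hx'
  rw [e1] at e1'
  rw [e2] at e2'
  rw [e3] at e3'
  rcases hp with rfl | rfl
  · push_cast at e1'
    have hw : w = 1 / 11 := by linarith
    have hw' : w' = 6 / 55 := by linarith
    subst hw'
    rcases hq with rfl | rfl
    · push_cast at e2'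
      norm_num at e2'
    · have : (3 : ℝ) ≤ q := by exact_mod_cast hn
      linarith
  · have : (3 : ℝ) ≤ p := by exact_mod_cast hm
    have hw : w ≤ 1 / 5 := by linarith
    nlinarith

theorem tc2_9 (p i j : ℕ) (hj : 1 ≤ j) (x : P3)
    (hx : x ∈ segment ℝ (pos (.A p)) (pos .P))
    (hx' : x ∈ segment ℝ (pos (.A i)) (pos (.B j))) :
    tc2_C (.A p) .P (.A i) (.B j) x := by
  obtain ⟨w, h0, h1, e1, e2, e3⟩ := tc2_P _ _ hx
  obtain ⟨w', h0', h1', e1', e2', e3'⟩ := tc2_AB _ _ _ hx'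
  have hj' : (1 : ℝ) ≤ j := by exact_mod_cast hj
  have hw' : w' = 0 := by
    have : w' * (j : ℝ) = 0 := by linarith
    rcases mul_eq_zero.1 this with h | h
    · exact h
    · linarith
  have hw : w = 0 := by linarith
  subst hw' hw
  have e : (p : ℝ) = i := by linarith
  have e' : p = i := by exact_mod_cast e
  subst e'
  exact ⟨.A p, Or.inl rfl, Or.inl rfl, tc2_xA _ _ (by linarith) e2 (by linarith)⟩

theorem tc2_10 (s t : ℕ) (hst : s ≠ t) (x : P3)
    (hx : x ∈ segment ℝ (pos (.B s)) (pos (.B (s + 1))))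
    (hx' : x ∈ segment ℝ (pos (.B t)) (pos (.B (t + 1)))) :
    tc2_C (.B s) (.B (s + 1)) (.B t) (.B (t + 1)) x := by
  obtain ⟨w, h0, h1, e1, e2, e3⟩ := tc2_B _ _ _ hx
  obtain ⟨w', h0', h1', e1', e2', e3'⟩ := tc2_B _ _ _ hx'
  have e : (s : ℝ) + w = t + w' := by
    rw [e2] at e2'; push_cast at e2'; linarith
  rcases Nat.lt_or_gt_of_ne hst with h | h
  · have h2 : ((s + 1 : ℕ) : ℝ) ≤ t := by exact_mod_cast h
    push_cast at h2
    have h3 : t ≤ s + 1 := by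
      have : (t : ℝ) ≤ ((s + 1 : ℕ) : ℝ) := by push_cast; linarith
      exact_mod_cast this
    have h4 : t = s + 1 := by omega
    subst h4
    refine ⟨.B (s + 1), Or.inr rfl, Or.inl rfl, tc2_xB _ _ e1 ?_ e3⟩
    push_cast at e ⊢
    rw [e2]; push_cast
    have : w = 1 := by linarith
    rw [this]; ring
  · have h2 : ((t + 1 : ℕ) : ℝ) ≤ s := by exact_mod_cast h
    push_cast at h2
    have h3 : s ≤ t + 1 := by
      have : (s : ℝ) ≤ ((t + 1 : ℕ) : ℝ) := by push_cast; linarith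
      exact_mod_cast this
    have h4 : s = t + 1 := by omega
    subst h4
    refine ⟨.B (t + 1), Or.inl rfl, Or.inr rfl, tc2_xB _ _ e1 ?_ e3⟩
    push_cast at e ⊢
    rw [e2]; push_cast
    have : w = 0 := by linarith
    rw [this]; ring

theorem tc2_11 (s q : ℕ) (x : P3)
    (hx : x ∈ segment ℝ (pos (.B s)) (pos (.B (s + 1))))
    (hx' : x ∈ segment ℝ (pos (.B q)) (pos .Q)) :
    tc2_C (.B s) (.B (s + 1)) (.B q) .Q x := by
  obtain ⟨w, h0, h1, e1, e2, e3⟩ := tc2_B _ _ _ hx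
  obtain ⟨w', h0', h1', e1', e2', e3'⟩ := tc2_Q _ _ hx'
  have hw' : w' = 0 := by linarith
  have e : x.2.1 = q := by rw [e2', hw']; ring
  refine ⟨.B q, ?_, Or.inl rfl, tc2_xB _ _ e1 e e3⟩
  rcases tc2_nat s q w h0 h1 (by rw [← e, e2]) with h | h
  · exact Or.inl (by rw [h])
  · exact Or.inr (by rw [h])

theorem tc2_12 (s i j : ℕ) (x : P3)
    (hx : x ∈ segment ℝ (pos (.B s)) (pos (.B (s + 1))))
    (hx' : x ∈ segment ℝ (pos (.A i)) (pos (.B j))) :
    tc2_C (.B s) (.B (s + 1)) (.A i) (.B j) x := by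
  obtain ⟨w, h0, h1, e1, e2, e3⟩ := tc2_B _ _ _ hx
  obtain ⟨w', h0', h1', e1', e2', e3'⟩ := tc2_AB _ _ _ hx'
  have hw' : w' = 1 := by linarith
  have e : x.2.1 = j := by rw [e2', hw']; ring
  refine ⟨.B j, ?_, Or.inr rfl, tc2_xB _ _ e1 e e3⟩
  rcases tc2_nat s j w h0 h1 (by rw [← e, e2]) with h | h
  · exact Or.inl (by rw [h])
  · exact Or.inr (by rw [h])

theorem tc2_13 (p p' : ℕ) (hp : p ≠ p') (x : P3)
    (hx : x ∈ segment ℝ (pos (.B p)) (pos .Q))
    (hx' : x ∈ segment ℝ (pos (.B p')) (pos .Q)) :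
    tc2_C (.B p) .Q (.B p') .Q x := by
  obtain ⟨w, h0, h1, e1, e2, e3⟩ := tc2_Q _ _ hx
  obtain ⟨w', h0', h1', e1', e2', e3'⟩ := tc2_Q _ _ hx'
  have hw' : w' = w := by linarith
  subst hw'
  have h2 : (1 - w') * ((p : ℝ) - p') = 0 := by linarith
  have h3 : w' = 1 := by
    rcases mul_eq_zero.1 h2 with h | h
    · linarith
    · exfalso
      apply hp
      have : (p : ℝ) = p' := by linarith
      exact_mod_cast this
  subst h3
  refine ⟨.Q, Or.inr rfl, Or.inr rfl, tc2_ext _ _ ?_ ?_ ?_⟩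
  · simp only [pos, ptQ]; rw [e1]
  · simp only [pos, ptQ]; rw [e2]; ring
  · simp only [pos, ptQ]; rw [e3]; norm_num

theorem tc2_14 (p i j : ℕ) (hi : 1 ≤ i) (x : P3)
    (hx : x ∈ segment ℝ (pos (.B p)) (pos .Q))
    (hx' : x ∈ segment ℝ (pos (.A i)) (pos (.B j))) :
    tc2_C (.B p) .Q (.A i) (.B j) x := by
  obtain ⟨w, h0, h1, e1, e2, e3⟩ := tc2_Q _ _ hx
  obtain ⟨w', h0', h1', e1', e2', e3'⟩ := tc2_AB _ _ _ hx'
  have hi' : (1 : ℝ) ≤ i := by exact_mod_cast hi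
  have hw' : w' = 1 := by
    have : (1 - w') * (i : ℝ) = 0 := by linarith
    rcases mul_eq_zero.1 this with h | h
    · linarith
    · linarith
  have hw : w = 0 := by linarith
  subst hw' hw
  have e : (p : ℝ) = j := by linarith
  have e' : p = j := by exact_mod_cast e
  subst e'
  exact ⟨.B p, Or.inl rfl, Or.inr rfl, tc2_xB _ _ e1 (by linarith) (by linarith)⟩

theorem tc2_15 (s t i j : ℕ) (hne : ¬ (s = i ∧ t = j)) (x : P3)
    (hx : x ∈ segment ℝ (pos (.A s)) (pos (.B t)))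
    (hx' : x ∈ segment ℝ (pos (.A i)) (pos (.B j))) :
    tc2_C (.A s) (.B t) (.A i) (.B j) x := by
  obtain ⟨w, h0, h1, e1, e2, e3⟩ := tc2_AB _ _ _ hx
  obtain ⟨w', h0', h1', e1', e2', e3'⟩ := tc2_AB _ _ _ hx'
  have hw' : w' = w := by linarith
  subst hw'
  have k1 : (1 - w') * ((s : ℝ) - i) = 0 := by linarith
  have k2 : w' * ((t : ℝ) - j) = 0 := by linarith
  rcases mul_eq_zero.1 k1 with h | h
  · have hw : w' = 1 := by linarith
    subst hw
    have : (t : ℝ) = j := by linarith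
    have e : t = j := by exact_mod_cast this
    subst e
    exact ⟨.B t, Or.inr rfl, Or.inr rfl, tc2_xB _ _ (by linarith) (by linarith) e3⟩
  · have : (s : ℝ) = i := by linarith
    have e : s = i := by exact_mod_cast this
    rcases mul_eq_zero.1 k2 with h' | h'
    · subst h'
      subst e
      exact ⟨.A s, Or.inl rfl, Or.inl rfl, tc2_xA _ _ (by linarith) (by linarith) e3⟩
    · have : (t : ℝ) = j := by linarith
      have e' : t = j := by exact_mod_cast this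
      exact absurd ⟨e, e'⟩ hne

theorem tc2_symm {p q p' q' : Lt} {x : P3} (h : tc2_C p q p' q' x) : tc2_C p' q' p q x := by
  obtain ⟨r, h1, h2, h3⟩ := h
  exact ⟨r, h2, h1, h3⟩

theorem tc2_A0 (s : ℕ) (x : P3) (hx : x ∈ segment ℝ (pos (.A s)) (pos (.A (s + 1)))) :
    x.2.1 = 0 := by
  obtain ⟨w, h0, h1, e1, e2, e3⟩ := tc2_A _ _ _ hx
  exact e2

theorem tc2_P0 (s : ℕ) (x : P3) (hx : x ∈ segment ℝ (pos (.A s)) (pos .P)) :
    x.2.1 = 0 := by
  obtain ⟨w, h0, h1, e1, e2, e3⟩ := tc2_P _ _ hx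
  exact e2

theorem tc2_4 (s q : ℕ) (hs : 1 ≤ s) (x : P3)
    (hx : x ∈ segment ℝ (pos (.A s)) (pos (.A (s + 1))))
    (hx' : x ∈ segment ℝ (pos (.B q)) (pos .Q)) : False := by
  obtain ⟨w, h0, h1, e1, e2, e3⟩ := tc2_A _ _ _ hx
  obtain ⟨w', h0', h1', e1', e2', e3'⟩ := tc2_Q _ _ hx'
  have : (1 : ℝ) ≤ s := by exact_mod_cast hs
  push_cast at e1
  nlinarith

theorem tc2_H (hm : 3 ≤ m) (hn : 3 ≤ n) (p q p' q' : Lt) (h : SideH m n X p q)
    (h' : SideH m n X p' q') (hne : s(p, q) ≠ s(p', q')) (x : P3)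
    (hx : x ∈ segment ℝ (pos p) (pos q)) (hx' : x ∈ segment ℝ (pos p') (pos q')) :
    tc2_C p q p' q' x := by
  cases h with
  | AA s h1 h2 =>
    cases h' with
    | AA t h1' h2' =>
      exact tc2_1 s t (fun e => hne (by rw [e])) x hx hx'
    | AP t h1' => exact tc2_2 s t x hx hx'
    | BB t h1' h2' => exact (tc2_3 s t h1' x .P (tc2_A0 s x hx) hx').elim
    | BQ t h1' => exact (tc2_4 s t h1 x hx hx').elim
    | AB i j hij => exact tc2_5 s _ _ x hx hx'
  | AP s h1 =>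
    cases h' with
    | AA t h1' h2' => exact tc2_symm (tc2_2 t s x hx' hx)
    | AP t h1' => exact tc2_6 s t (fun e => hne (by rw [e])) x hx hx'
    | BB t h1' h2' => exact (tc2_3 s t h1' x .P (tc2_P0 s x hx) hx').elim
    | BQ t h1' => exact (tc2_8 hm hn s t h1 h1' x hx hx').elim
    | AB i j hij => exact tc2_9 s _ _ (Nat.succ_pos _) x hx hx'
  | BB s h1 h2 =>
    cases h' with
    | AA t h1' h2' => exact (tc2_3 t s h1 x .P (tc2_A0 t x hx') hx).elim
    | AP t h1' => exact (tc2_3 t s h1 x .P (tc2_P0 t x hx') hx).elim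
    | BB t h1' h2' => exact tc2_10 s t (fun e => hne (by rw [e])) x hx hx'
    | BQ t h1' => exact tc2_11 s t x hx hx'
    | AB i j hij => exact tc2_12 s _ _ x hx hx'
  | BQ s h1 =>
    cases h' with
    | AA t h1' h2' => exact (tc2_4 t s h1' x hx' hx).elim
    | AP t h1' => exact (tc2_8 hm hn t s h1' h1 x hx' hx).elim
    | BB t h1' h2' => exact tc2_symm (tc2_11 t s x hx' hx)
    | BQ t h1' => exact tc2_13 s t (fun e => hne (by rw [e])) x hx hx'
    | AB i j hij => exact tc2_14 s _ _ (Nat.succ_pos _) x hx hx'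
  | AB i j hij =>
    cases h' with
    | AA t h1' h2' => exact tc2_symm (tc2_5 t _ _ x hx' hx)
    | AP t h1' => exact tc2_symm (tc2_9 t _ _ (Nat.succ_pos _) x hx' hx)
    | BB t h1' h2' => exact tc2_symm (tc2_12 t _ _ x hx' hx)
    | BQ t h1' => exact tc2_symm (tc2_14 t _ _ (Nat.succ_pos _) x hx' hx)
    | AB i' j' hij' =>
      exact tc2_15 _ _ _ _ (fun e => hne (by rw [e.1, e.2])) x hx hx'

theorem pos_inj : Function.Injective pos := by
  intro p q h
  have h1 := congrArg (fun y : P3 => y.1) h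
  have h2 := congrArg (fun y : P3 => y.2.1) h
  have h3 := congrArg (fun y : P3 => y.2.2) h
  cases p <;> cases q <;> simp [pos, ptA, ptB, ptP, ptQ] at h1 h2 h3 ⊢ <;>
    first
    | assumption
    | linarith
    | skip

theorem side_inter (hm : 3 ≤ m) (hn : 3 ≤ n) (p q p' q' : Lt) (h : Side m n X p q)
    (h' : Side m n X p' q') (hne : s(p, q) ≠ s(p', q')) (x : P3)
    (hx : x ∈ segment ℝ (pos p) (pos q)) (hx' : x ∈ segment ℝ (pos p') (pos q')) :
    ∃ r, (r = p ∨ r = q) ∧ (r = p' ∨ r = q') ∧ x = pos r := by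
  rcases h with h | h <;> rcases h' with h' | h'
  · exact tc2_H hm hn p q p' q' h h' hne x hx hx'
  · rw [segment_symm] at hx'
    obtain ⟨r, h1, h2, h3⟩ := tc2_H hm hn p q q' p' h h'
      (fun e => hne (by rw [e, Sym2.eq_swap])) x hx hx'
    exact ⟨r, h1, h2.symm, h3⟩
  · rw [segment_symm] at hx
    obtain ⟨r, h1, h2, h3⟩ := tc2_H hm hn q p p' q' h h'
      (fun e => hne (by rw [← e, Sym2.eq_swap])) x hx hx'
    exact ⟨r, h1.symm, h2, h3⟩
  · rw [segment_symm] at hx hx'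
    obtain ⟨r, h1, h2, h3⟩ := tc2_H hm hn q p q' p' h h'
      (fun e => hne (by rw [Sym2.eq_swap, e, Sym2.eq_swap])) x hx hx'
    exact ⟨r, h1.symm, h2.symm, h3⟩

theorem tc2_vH (p q : Lt) (h : SideH m n X p q)
    (w : Fin m ⊕ Fin n) (hx : pos (lett w) ∈ segment ℝ (pos p) (pos q)) :
    lett w = p ∨ lett w = q := by
  rcases w with i | j
  · have hi : pos (lett (.inl i : Fin m ⊕ Fin n)) = (((i.1 + 1 : ℕ) : ℝ), 0, 0) := rfl
    rw [hi] at hx
    have h0 : (0 : ℝ) < ((i.1 + 1 : ℕ) : ℝ) := by positivity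
    cases h with
    | AA s h1 h2 =>
      obtain ⟨w, h0, h1, e1, e2, e3⟩ := tc2_A _ _ _ hx
      rcases tc2_nat s (i.1 + 1) w h0 h1 e1 with h | h
      · exact Or.inl (by rw [← h]; rfl)
      · exact Or.inr (by rw [← h]; rfl)
    | AP s h1 =>
      obtain ⟨w, h0, h1, e1, e2, e3⟩ := tc2_P _ _ hx
      simp only at e1 e3
      have hw : w = 0 := by linarith
      rw [hw] at e1
      have : ((i.1 + 1 : ℕ) : ℝ) = s := by linarith
      have : i.1 + 1 = s := by exact_mod_cast this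
      exact Or.inl (by rw [← this]; rfl)
    | BB s h1 h2 =>
      obtain ⟨w, h0', h1, e1, e2, e3⟩ := tc2_B _ _ _ hx
      simp only at e1
      linarith
    | BQ s h1 =>
      obtain ⟨w, h0', h1, e1, e2, e3⟩ := tc2_Q _ _ hx
      simp only at e1
      linarith
    | AB i' j' hij =>
      obtain ⟨w, h0', h1, e1, e2, e3⟩ := tc2_AB _ _ _ hx
      simp only at e1 e3
      rw [← e3] at e1
      have : ((i.1 + 1 : ℕ) : ℝ) = ((i'.1 + 1 : ℕ) : ℝ) := by linarith
      have : i.1 + 1 = i'.1 + 1 := by exact_mod_cast this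
      exact Or.inl (by rw [← this]; rfl)
  · have hj : pos (lett (.inr j : Fin m ⊕ Fin n)) = (0, ((j.1 + 1 : ℕ) : ℝ), 1) := rfl
    rw [hj] at hx
    have h0 : (0 : ℝ) < ((j.1 + 1 : ℕ) : ℝ) := by positivity
    cases h with
    | AA s h1 h2 =>
      obtain ⟨w, h0, h1, e1, e2, e3⟩ := tc2_A _ _ _ hx
      simp only at e3
      linarith
    | AP s h1 =>
      obtain ⟨w, h0', h1, e1, e2, e3⟩ := tc2_P _ _ hx
      simp only at e2
      linarith
    | BB s h1 h2 =>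
      obtain ⟨w, h0, h1, e1, e2, e3⟩ := tc2_B _ _ _ hx
      rcases tc2_nat s (j.1 + 1) w h0 h1 e2 with h | h
      · exact Or.inl (by rw [← h]; rfl)
      · exact Or.inr (by rw [← h]; rfl)
    | BQ s h1 =>
      obtain ⟨w, h0, h1, e1, e2, e3⟩ := tc2_Q _ _ hx
      simp only at e2 e3
      have hw : w = 0 := by linarith
      rw [hw] at e2
      have : ((j.1 + 1 : ℕ) : ℝ) = s := by linarith
      have : j.1 + 1 = s := by exact_mod_cast this
      exact Or.inl (by rw [← this]; rfl)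
    | AB i' j' hij =>
      obtain ⟨w, h0', h1, e1, e2, e3⟩ := tc2_AB _ _ _ hx
      simp only at e2 e3
      rw [← e3] at e2
      have : ((j.1 + 1 : ℕ) : ℝ) = ((j'.1 + 1 : ℕ) : ℝ) := by linarith
      have : j.1 + 1 = j'.1 + 1 := by exact_mod_cast this
      exact Or.inr (by rw [← this]; rfl)

/-- A vertex is not on a side except as an end. -/
theorem vert_side (hm : 3 ≤ m) (hn : 3 ≤ n) (p q : Lt) (h : Side m n X p q)
    (w : Fin m ⊕ Fin n) (hx : pos (lett w) ∈ segment ℝ (pos p) (pos q)) :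
    lett w = p ∨ lett w = q := by
  rcases h with h | h
  · exact tc2_vH p q h w hx
  · rw [segment_symm] at hx
    exact (tc2_vH q p h w hx).symm

/-- The arc with a corner is simple. -/
theorem simple_arc (u v w : Lt) (huv : u ≠ v) (hvw : v ≠ w) 
    (h : segment ℝ (pos u) (pos v) ∩ segment ℝ (pos v) (pos w) ⊆ {pos v}) :
    IsSimple [pos u, pos v, pos w] := by
  refine ⟨fun e => huv (pos_inj e), ?_, fun e => hvw (pos_inj e), ?_, trivial⟩
  · rintro x ⟨h1, h2⟩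
    rcases h2 with h2 | h2
    · exact h ⟨h1, h2⟩
    · have : x = pos w := h2
      subst this
      exact h ⟨h1, right_mem_segment ℝ _ _⟩
  · rintro x ⟨h1, h2⟩
    exact h2

end H46K
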