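import Pool.Agent.Lib.H46K.T0

/-!
# H46K chunk TU1 (S): points of a polygonal arc

`arcSet l` is the union of the segments between consecutive points, when `l` has at least two
points.  Proof: induction on `l` (`a :: b :: l`): `Fol (a :: b :: l) p q` iff `(p, q) = (a, b)` or
`Fol (b :: l) p q`; if `l = []` then `arcSet [b] = {b}` and `b` is in `segment a b`.
The last two statements: if `l` is nonempty, `arcSet (l.map pos)` with letters.
-/

set_option autoImplicit false

namespace H46K

theorem fol_cons_cons {α : Type*} (a b : α) (l : List α) (p q : α) :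
    Fol (a :: b :: l) p q ↔ (p = a ∧ q = b) ∨ Fol (b :: l) p q := by
  constructor
  · rintro ⟨l₁, l₂, h⟩
    cases l₁ with
    | nil =>
      simp only [List.nil_append, List.cons.injEq] at h
      exact Or.inl ⟨h.1.symm, h.2.1.symm⟩
    | cons c l₁ =>
      simp only [List.cons_append, List.cons.injEq] at h
      exact Or.inr ⟨l₁, l₂, h.2⟩
  · rintro (⟨rfl, rfl⟩ | ⟨l₁, l₂, h⟩)
    · exact ⟨[], l, rfl⟩
    · exact ⟨a :: l₁, l₂, by rw [h]; rfl⟩

theorem tu1_fol_single {α : Type*} (a p q : α) : ¬ Fol [a] p q := by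
  rintro ⟨l₁, l₂, h⟩
  have := congrArg List.length h
  simp only [List.length_append, List.length_cons, List.length_nil] at this
  omega

theorem mem_arcSet_iff (l : List P3) (hl : 2 ≤ l.length) (x : P3) :
    x ∈ arcSet l ↔ ∃ p q, Fol l p q ∧ x ∈ segment ℝ p q := by
  induction l with
  | nil => simp at hl
  | cons a l ih =>
    cases l with
    | nil => simp at hl
    | cons b l =>
      rw [arcSet]
      have hiff : (∃ p q, Fol (a :: b :: l) p q ∧ x ∈ segment ℝ p q) ↔
          x ∈ segment ℝ a b ∨ ∃ p q, Fol (b :: l) p q ∧ x ∈ segment ℝ p q := by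
        constructor
        · rintro ⟨p, q, h, hx⟩
          rcases (fol_cons_cons a b l p q).1 h with ⟨rfl, rfl⟩ | h
          · exact Or.inl hx
          · exact Or.inr ⟨p, q, h, hx⟩
        · rintro (hx | ⟨p, q, h, hx⟩)
          · exact ⟨a, b, (fol_cons_cons a b l a b).2 (Or.inl ⟨rfl, rfl⟩), hx⟩
          · exact ⟨p, q, (fol_cons_cons a b l p q).2 (Or.inr h), hx⟩
      rw [hiff, Set.mem_union]
      cases l with
      | nil =>
        constructor
        · rintro (h | h)
          · exact Or.inl h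
          · left
            have hx : x = b := h
            rw [hx]
            exact right_mem_segment ℝ a b
        · rintro (h | ⟨p, q, h, -⟩)
          · exact Or.inl h
          · exact absurd h (tu1_fol_single b p q)
      | cons c l =>
        rw [ih (by simp)]

theorem tu1_fol_map {α β : Type*} (f : α → β) (l : List α) (p q : β) :
    Fol (l.map f) p q ↔ ∃ p' q', Fol l p' q' ∧ p = f p' ∧ q = f q' := by
  constructor
  · rintro ⟨l₁, l₂, h⟩
    obtain ⟨m₁, m₂, rfl, rfl, h2⟩ := List.map_eq_append_iff.1 h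
    obtain ⟨p', m₃, rfl, rfl, h3⟩ := List.map_eq_cons_iff.1 h2
    obtain ⟨q', m₄, rfl, rfl, rfl⟩ := List.map_eq_cons_iff.1 h3
    exact ⟨p', q', ⟨m₁, m₄, rfl⟩, rfl, rfl⟩
  · rintro ⟨p', q', ⟨l₁, l₂, rfl⟩, rfl, rfl⟩
    exact ⟨l₁.map f, l₂.map f, by simp⟩

theorem mem_arcSet_map (l : List Lt) (hl : 2 ≤ l.length) (x : P3) :
    x ∈ arcSet (l.map pos) ↔ ∃ p q, Fol l p q ∧ x ∈ segment ℝ (pos p) (pos q) := by
  rw [mem_arcSet_iff _ (by rwa [List.length_map])]
  constructor
  · rintro ⟨p, q, h, hx⟩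
    obtain ⟨p', q', h', rfl, rfl⟩ := (tu1_fol_map pos l p q).1 h
    exact ⟨p', q', h', hx⟩
  · rintro ⟨p, q, h, hx⟩
    exact ⟨pos p, pos q, (tu1_fol_map pos l _ _).2 ⟨p, q, h, rfl, rfl⟩, hx⟩

/-- `Fol` in `l ++ [a]`. -/
theorem fol_concat {α : Type*} (l : List α) (b a : α) (p q : α) :
    Fol ((l ++ [b]) ++ [a]) p q ↔ Fol (l ++ [b]) p q ∨ (p = b ∧ q = a) := by
  induction l with
  | nil =>
    simp only [List.nil_append, List.cons_append]
    rw [fol_cons_cons]
    have h1 := tu1_fol_single a p q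
    have h2 := tu1_fol_single b p q
    tauto
  | cons c l ih =>
    cases l with
    | nil =>
      simp only [List.nil_append, List.cons_append] at ih ⊢
      rw [fol_cons_cons, ih, fol_cons_cons c b]
      tauto
    | cons d l =>
      simp only [List.cons_append] at ih ⊢
      rw [fol_cons_cons, ih, fol_cons_cons c d]
      tauto

theorem tu1_arc (a v b : P3) (l : List P3)
    (ht : ∀ p q, Fol (b :: (l ++ [a])) p q → ∀ x, x ∈ convexHull ℝ {a, v, b} →
      x ∈ segment ℝ p q → x = a ∨ x = b) :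
    convexHull ℝ {a, v, b} ∩ arcSet (b :: (l ++ [a])) ⊆ {a, b} := by
  rintro x ⟨h1, h2⟩
  obtain ⟨p, q, h3, h4⟩ := (mem_arcSet_iff _ (by simp) x).1 h2
  exact ht p q h3 x h1 h4

/-- The insertion move with the condition checked side by side. -/
theorem ins_of (a v b : P3) (l : List P3) (hav : a ≠ v) (hvb : v ≠ b)
    (hs : segment ℝ a v ∩ segment ℝ v b ⊆ {v})
    (ht : ∀ p q, Fol (b :: (l ++ [a])) p q → ∀ x, x ∈ convexHull ℝ {a, v, b} →
      x ∈ segment ℝ p q → x = a ∨ x = b)
    (hl : Unknot (a :: b :: l)) : Unknot (a :: v :: b :: l) :=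
  Unknot.ins a v b l hav hvb hs (tu1_arc a v b l ht) hl

/-- The deletion move with the condition checked side by side. -/
theorem del_of (a v b : P3) (l : List P3) (hav : a ≠ v) (hvb : v ≠ b)
    (hs : segment ℝ a v ∩ segment ℝ v b ⊆ {v})
    (ht : ∀ p q, Fol (b :: (l ++ [a])) p q → ∀ x, x ∈ convexHull ℝ {a, v, b} →
      x ∈ segment ℝ p q → x = a ∨ x = b)
    (hl : Unknot (a :: v :: b :: l)) : Unknot (a :: b :: l) :=
  Unknot.del a v b l hav hvb hs (tu1_arc a v b l ht) hl

theorem tu1_rot {α : Type*} (a : α) (l : List α) : (a :: l) ~r (l ++ [a]) := ⟨1, by simp⟩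

/-- Rotation of one letter. -/
theorem unknot_rot (a : P3) (l : List P3) (h : Unknot (a :: l)) : Unknot (l ++ [a]) :=
  Unknot.rot _ _ (tu1_rot a l) h

theorem unknot_rot' (a : P3) (l : List P3) (h : Unknot (l ++ [a])) : Unknot (a :: l) :=
  Unknot.rot _ _ (tu1_rot a l).symm h

end H46K
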