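import Pool.Agent.Lib.H46K.TC1
import Pool.Agent.Lib.H46K.TC2
import Pool.Agent.Lib.H46K.TU1

/-!
# H46K chunk TC3 (M): the straight embedding

`pt = pos ∘ lett`, `mid u v = (midw u v).map pos`.  The arc is `(lett u :: (midw u v ++ [lett v])).map pos`; its
points are on sides (`mem_arcSet_map`).
* `simple`: arcs with two points: `IsSimple [a, b]`: `a ≠ b`, `segment a b ∩ {b} ⊆ {b}`; with three points
  (`A 1, P, A m` etc.): `simple_arc`, the two sides are different sides (`side_inter`).
* `disj`: `x` on a side `p q` of the first and on a side `p' q'` of the second arc; `s(p,q) ≠ s(p',q')` by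
  `edge_of_side`; `side_inter` gives a common letter `r` with `x = pos r`; `common_letter`.
* `vert`: `vert_side`, then the letter `lett w` is a letter of the arc: `lett u`, `lett v`, or `P`/`Q` (not a
  vertex letter).
-/

set_option autoImplicit false

namespace H46K

variable {m n : ℕ} {X : Set (Fin m × Fin n)}

theorem tc3_arc (u v : Fin m ⊕ Fin n) :
    pos (lett u) :: ((midw u v).map pos ++ [pos (lett v)]) =
      (lett u :: (midw u v ++ [lett v])).map pos := by
  simp

theorem tc3_len (u v : Fin m ⊕ Fin n) : 2 ≤ (lett u :: (midw u v ++ [lett v])).length := by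
  simp

theorem tc3_fol_mem {α : Type*} {w : List α} {p q : α} (h : Fol w p q) : p ∈ w ∧ q ∈ w := by
  obtain ⟨l₁, l₂, rfl⟩ := h
  simp

theorem tc3_mem (u v : Fin m ⊕ Fin n) (x : P3)
    (hx : x ∈ arcSet (pos (lett u) :: ((midw u v).map pos ++ [pos (lett v)]))) :
    ∃ p q, Fol (lett u :: (midw u v ++ [lett v])) p q ∧ x ∈ segment ℝ (pos p) (pos q) := by
  rw [tc3_arc] at hx
  exact (mem_arcSet_map _ (tc3_len u v) x).1 hx

theorem tc3_simple2 (a b : P3) (h : a ≠ b) : IsSimple [a, b] :=
  ⟨h, fun _ hx => hx.2, trivial⟩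

theorem tc3_simple (hm : 3 ≤ m) (hn : 3 ≤ n) (u v : Fin m ⊕ Fin n) (h : (TG m n X).Adj u v) :
    IsSimple (pos (lett u) :: ((midw u v).map pos ++ [pos (lett v)])) := by
  have huv : u ≠ v := h.ne
  have hne : pos (lett u) ≠ pos (lett v) := fun e => huv (lett_inj (pos_inj e))
  have hcase : midw u v = [] ∨ ∃ c, midw u v = [c] ∧ ∀ w : Fin m ⊕ Fin n, lett w ≠ c := by
    rcases u with i | i <;> rcases v with j | j
    · simp only [midw]
      split_ifs
      · exact Or.inr ⟨.P, rfl, fun w => (tc1_lett_ne w).1⟩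
      · exact Or.inl rfl
    · exact Or.inl rfl
    · exact Or.inl rfl
    · simp only [midw]
      split_ifs
      · exact Or.inr ⟨.Q, rfl, fun w => (tc1_lett_ne w).2⟩
      · exact Or.inl rfl
  rcases hcase with hc | ⟨c, hc, hc'⟩
  · rw [hc]
    exact tc3_simple2 _ _ hne
  · rw [hc]
    have f1 : Fol (lett u :: (midw u v ++ [lett v])) (lett u) c := by
      rw [hc]; exact ⟨[], [lett v], rfl⟩
    have f2 : Fol (lett u :: (midw u v ++ [lett v])) c (lett v) := by
      rw [hc]; exact ⟨[lett u], [], rfl⟩
    have s1 := side_of_arc hm hn u v h _ _ f1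
    have s2 := side_of_arc hm hn u v h _ _ f2
    refine simple_arc (lett u) c (lett v) (hc' u) (fun e => hc' v e.symm) ?_
    rintro x ⟨h1, h2⟩
    have hne' : s(lett u, c) ≠ s(c, lett v) := by
      intro e
      rw [Sym2.eq_swap] at e
      have : lett u = lett v := by
        have := Sym2.congr_right.1 e
        exact this
      exact huv (lett_inj this)
    obtain ⟨r, hr1, hr2, hr3⟩ := side_inter hm hn _ _ _ _ s1 s2 hne' x h1 h2
    rcases hr1 with rfl | rfl
    · rcases hr2 with e | e
      · exact absurd e (hc' u)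
      · exact absurd (lett_inj e) huv
    · exact hr3

theorem exists_straight (hm : 3 ≤ m) (hn : 3 ≤ n) (X : Set (Fin m × Fin n)) :
    ∃ f : SpatialGraph (TG m n X), (∀ u, f.pt u = pos (lett u)) ∧
      ∀ u v, f.mid u v = (midw u v).map pos := by
  refine ⟨{
    pt := fun u => pos (lett u)
    mid := fun u v => (midw u v).map pos
    pt_inj := fun u v e => lett_inj (pos_inj e)
    mid_symm := ?_
    simple := fun u v h => tc3_simple hm hn u v h
    disj := ?_
    vert := ?_ }, fun _ => rfl, fun _ _ => rfl⟩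
  · intro u v _
    rw [midw_symm, List.map_reverse]
  · rintro u v u' v' h h' hne x ⟨hx, hx'⟩
    obtain ⟨p, q, hf, hs⟩ := tc3_mem u v x hx
    obtain ⟨p', q', hf', hs'⟩ := tc3_mem u' v' x hx'
    have hne' : s(p, q) ≠ s(p', q') := fun e =>
      hne (edge_of_side hm hn u v u' v' h h' p q p' q' hf hf' e)
    obtain ⟨r, hr1, hr2, hr3⟩ := side_inter hm hn p q p' q' (side_of_arc hm hn u v h p q hf)
      (side_of_arc hm hn u' v' h' p' q' hf') hne' x hs hs'
    have m1 : r ∈ lett u :: (midw u v ++ [lett v]) := by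
      rcases hr1 with rfl | rfl
      · exact (tc3_fol_mem hf).1
      · exact (tc3_fol_mem hf).2
    have m2 : r ∈ lett u' :: (midw u' v' ++ [lett v']) := by
      rcases hr2 with rfl | rfl
      · exact (tc3_fol_mem hf').1
      · exact (tc3_fol_mem hf').2
    obtain ⟨w, hw1, hw2, hw3⟩ := common_letter hm hn u v u' v' h h' hne r m1 m2
    exact ⟨w, hw1, hw2, by rw [hr3, hw3]⟩
  · rintro u v w h hx
    obtain ⟨p, q, hf, hs⟩ := tc3_mem u v _ hx
    have hl := vert_side hm hn p q (side_of_arc hm hn u v h p q hf) w hs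
    have m1 : lett w ∈ lett u :: (midw u v ++ [lett v]) := by
      rcases hl with e | e
      · rw [e]; exact (tc3_fol_mem hf).1
      · rw [e]; exact (tc3_fol_mem hf).2
    rcases tc1_letters u v _ m1 with e | e | e | e
    · exact Or.inl (lett_inj e)
    · exact Or.inr (lett_inj e)
    · exact absurd e.1 (tc1_lett_ne w).1
    · exact absurd e.1 (tc1_lett_ne w).2

/-- The polygon of a walk is given by its word. -/
theorem poly_eq (f : SpatialGraph (TG m n X)) (h1 : ∀ u, f.pt u = pos (lett u))
    (h2 : ∀ u v, f.mid u v = (midw u v).map pos) {u v : Fin m ⊕ Fin n}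
    (c : (TG m n X).Walk u v) : f.poly c = (wword c).map pos := by
  induction c with
  | nil => rfl
  | cons h p ih =>
    simp only [SpatialGraph.poly, wword, List.map_cons, List.map_append, h1, h2, ih]

end H46K
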