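import Pool.Agent.Lib.H46K.TW2

/-!
# H46K chunk TW3 (M): the cases

`w` satisfies `Inv`, has at least `4` letters, contains an `A` letter and a `B` letter.  Call `A t`, `P`
row letters, `B t`, `Q` column letters.  If every pair of cyclic neighbours has one row letter and
one column letter then `Alt w` (a pair row-column allowed by `Alw` is `A s, B u` or `B u, A s`).
Otherwise two neighbours `p, q` are of the same kind, say row letters (the other case is the
image by `sw`, use `Inv.sw`, or repeat the proof).  Rotate to `w ~r p :: q :: l`, and write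
`q :: l = r ++ z :: l'` where `r` is the longest initial piece of row letters (`takeWhile`,
`dropWhile`; there is a `B` letter, so the column letter `z` exists).  Let `y`, `x` be the last two letters of
`p :: r` (`x` the last).  `Alw w x z` forces `x = A t`, `z = B u`.  If `y = A s` we have the first case. If
`y = P`: let `y'` be the predecessor of `P` in the cyclic word (`ca_exists_left`); `Alw w y' P` forces
`y' = A s`; then `w ~r A s :: P :: A t :: B u :: l''` (the cyclic word is determined by the successors: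
rotate so that it starts with `y'`; its successor is `P` (`ca_unique_right`), then `A t`, then `B u`, using
that the length is at least `4`).
-/

set_option autoImplicit false

namespace H46K

theorem rot3 {w : List Lt} (hw : w.Nodup) (h4 : 3 ≤ w.length) {a b c : Lt}
    (h1 : CA w a b) (h2 : CA w b c) :
    ∃ l, w ~r (a :: b :: c :: l) := by
  obtain ⟨l, hl⟩ := h1
  have hlen := hl.perm.length_eq
  cases l with
  | nil =>
    simp only [List.length_cons, List.length_nil] at hlen
    omega
  | cons c' l =>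
    have h3 : CA w b c' := ⟨l ++ [a], hl.trans (by simpa using tw1_rotated [a] (b :: c' :: l))⟩
    have := ca_unique_right hw h3 h2
    subst this
    exact ⟨l, hl⟩

/-- A rotation starting with given successive letters. -/
theorem rot4 {w : List Lt} (hw : w.Nodup) (h4 : 4 ≤ w.length) {a b c d : Lt}
    (h1 : CA w a b) (h2 : CA w b c) (h3 : CA w c d) (hda : d ≠ a) :
    ∃ l, w ~r (a :: b :: c :: d :: l) := by
  obtain ⟨l, hl⟩ := rot3 hw (by omega) h1 h2
  have hlen := hl.perm.length_eq
  cases l with
  | nil =>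
    simp only [List.length_cons, List.length_nil] at hlen
    omega
  | cons d' l =>
    have h5 : CA w c d' := ⟨l ++ [a, b], hl.trans (by
      simpa using tw1_rotated [a, b] (c :: d' :: l))⟩
    have := ca_unique_right hw h5 h3
    subst this
    exact ⟨l, hl⟩

/-- row letters -/
def tw3Row : Lt → Bool
  | .A _ => true
  | .P => true
  | .B _ => false
  | .Q => false

theorem tw3_sw (p : Lt) : tw3Row (sw p) = !tw3Row p := by cases p <;> rfl

theorem tw3_split (l : List Lt) : ∀ p q : Lt, tw3Row p = true → tw3Row q = true →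
    (∃ z ∈ l, tw3Row z = false) → ∃ l₁ y x z l₂, p :: q :: l = l₁ ++ y :: x :: z :: l₂ ∧
      tw3Row y = true ∧ tw3Row x = true ∧ tw3Row z = false := by
  induction l with
  | nil =>
    rintro p q - - ⟨z, hz, -⟩
    simp at hz
  | cons r l ih =>
    intro p q hp hq hz
    by_cases hr : tw3Row r = true
    · obtain ⟨l₁, y, x, z, l₂, h1, h2⟩ := ih q r hq hr (by
        obtain ⟨z, hz1, hz2⟩ := hz
        rcases List.mem_cons.1 hz1 with rfl | hz1
        · rw [hr] at hz2
          simp at hz2
        · exact ⟨z, hz1, hz2⟩)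
      exact ⟨p :: l₁, y, x, z, l₂, by rw [h1]; rfl, h2⟩
    · exact ⟨[], p, q, r, l, rfl, hp, hq, by simpa using hr⟩

theorem tw3_main (w : List Lt) (h : Inv w) (h4 : 4 ≤ w.length) (hB : ∃ u, Lt.B u ∈ w)
    {p q : Lt} (hpq : CA w p q) (hp : tw3Row p = true) (hq : tw3Row q = true) :
    (∃ s t u l, w ~r (Lt.A s :: .A t :: .B u :: l)) ∨
    (∃ s t u l, w ~r (Lt.A s :: .P :: .A t :: .B u :: l)) := by
  obtain ⟨l, hl⟩ := hpq
  obtain ⟨u0, hu0⟩ := hB
  have hmem : Lt.B u0 ∈ l := by
    have := hl.mem_iff.1 hu0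
    rcases List.mem_cons.1 this with h1 | h1
    · rw [← h1] at hp
      simp [tw3Row] at hp
    · rcases List.mem_cons.1 h1 with h1 | h1
      · rw [← h1] at hq
        simp [tw3Row] at hq
      · exact h1
  obtain ⟨l₁, y, x, z, l₂, h1, hy, hx, hz⟩ := tw3_split l p q hp hq ⟨_, hmem, rfl⟩
  rw [h1] at hl
  have hr : w ~r (y :: x :: z :: (l₂ ++ l₁)) := hl.trans (tw1_rotated l₁ (y :: x :: z :: l₂))
  have c1 : CA w y x := ⟨_, hr⟩
  have c2 : CA w x z := ⟨(l₂ ++ l₁) ++ [y], hr.trans (by
    simpa using tw1_rotated [y] (x :: z :: (l₂ ++ l₁)))⟩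
  have a1 := h.alw _ _ c1
  have a2 := h.alw _ _ c2
  cases x with
  | B t => simp [tw3Row] at hx
  | Q => simp [tw3Row] at hx
  | P => cases z <;> simp [tw3Row, Alw] at hz a2
  | A t =>
    cases z with
    | A u => simp [tw3Row] at hz
    | P => simp [tw3Row] at hz
    | Q => simp [Alw] at a2
    | B u =>
      cases y with
      | B s => simp [tw3Row] at hy
      | Q => simp [tw3Row] at hy
      | A s => exact Or.inl ⟨s, t, u, _, hr⟩
      | P =>
        right
        have hP : Lt.P ∈ w := hr.mem_iff.2 (by simp)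
        obtain ⟨y', hy'⟩ := ca_exists_left (by omega) hP
        have a3 := h.alw _ _ hy'
        cases y' with
        | B s => simp [Alw] at a3
        | P => simp [Alw] at a3
        | Q => simp [Alw] at a3
        | A s =>
          obtain ⟨l', hl'⟩ := rot4 h.nodup h4 hy' c1 c2 (by simp)
          exact ⟨s, t, u, l', hl'⟩

theorem cases (w : List Lt) (h : Inv w) (h4 : 4 ≤ w.length) (hA : ∃ s, Lt.A s ∈ w)
    (hB : ∃ u, Lt.B u ∈ w) :
    (∃ s t u l, w ~r (Lt.A s :: .A t :: .B u :: l)) ∨
    (∃ s t u l, w ~r (Lt.B s :: .B t :: .A u :: l)) ∨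
    (∃ s t u l, w ~r (Lt.A s :: .P :: .A t :: .B u :: l)) ∨
    (∃ s t u l, w ~r (Lt.B s :: .Q :: .B t :: .A u :: l)) ∨ Alt w := by
  by_cases h1 : ∃ p q, CA w p q ∧ tw3Row p = true ∧ tw3Row q = true
  · obtain ⟨p, q, hpq, hp, hq⟩ := h1
    rcases tw3_main w h h4 hB hpq hp hq with h2 | h2
    · exact Or.inl h2
    · exact Or.inr (Or.inr (Or.inl h2))
  by_cases h2 : ∃ p q, CA w p q ∧ tw3Row p = false ∧ tw3Row q = false
  · obtain ⟨p, q, hpq, hp, hq⟩ := h2
    have hpq' : CA (w.map sw) (sw p) (sw q) := ca_map sw hpq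
    have hsw : ∀ {l : List Lt}, (w.map sw) ~r l → w ~r (l.map sw) := by
      intro l hl
      have := hl.map sw
      rw [List.map_map] at this
      have e : w.map (sw ∘ sw) = w := by
        conv_rhs => rw [← List.map_id w]
        apply List.map_congr_left
        intro p _
        exact sw_sw p
      rwa [e] at this
    rcases tw3_main (w.map sw) h.sw (by rwa [List.length_map])
      (by obtain ⟨s, hs⟩ := hA; exact ⟨s, tw2_mem_sw.2 hs⟩) hpq' (by rw [tw3_sw, hp]; rfl)
      (by rw [tw3_sw, hq]; rfl) with ⟨s, t, u, l, h3⟩ | ⟨s, t, u, l, h3⟩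
    · exact Or.inr (Or.inl ⟨s, t, u, l.map sw, hsw h3⟩)
    · exact Or.inr (Or.inr (Or.inr (Or.inl ⟨s, t, u, l.map sw, hsw h3⟩)))
  · right; right; right; right
    intro p q hpq
    have a := h.alw _ _ hpq
    have g1 : ¬ (tw3Row p = true ∧ tw3Row q = true) := fun g ↦ h1 ⟨p, q, hpq, g⟩
    have g2 : ¬ (tw3Row p = false ∧ tw3Row q = false) := fun g ↦ h2 ⟨p, q, hpq, g⟩
    cases p <;> cases q <;> simp [tw3Row, Alw] at g1 g2 a ⊢

end H46K
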