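import Pool.Agent.Lib.H46K.TL1
import Pool.Agent.Lib.H46K.TW3
import Pool.Agent.Lib.H46K.ELpp

/-!
# H46K chunk TL2 (M): a ring free alternating word has an adjacent pair

Take `X`, `r` from `alt_support` (`r ≥ 3`).  If the conclusion fails, then the hypotheses `hnr`, `hnc` of `lpp`
hold and `lpp` gives `HasRing (rk w)`, a contradiction.  Suppose `hnr` fails: `(a,b), (a,c) ∈ X`, `b < c`, and there is
no column strictly between `b` and `c`, or there is no column outside `[b,c]`.  The letters `B b`, `B c` are the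
two neighbours of `A a` (successor and predecessor, each unique; `b ≠ c`): so one of them, say `B y`, precedes
`A a` and the other one, `B z`, follows; the successor of `B z` is some `A v` (`Alt`), and by `rot4`
(`A v ≠ B y`) `w ~r B y :: A a :: B z :: A v :: l`, with `l ≠ []` because the length is at least `6`.
`CycAdj (colsOf w) y z` (symmetric in `y`, `z`).  If `hnc` fails, the same with the roles exchanged.
-/

set_option autoImplicit false

namespace H46K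

theorem tl2_row (w : List Lt) (h : Inv w) (h6 : 6 ≤ w.length) (ha : Alt w) (a b c : ℕ)
    (hb : (a, b) ∈ rk w) (hc : (a, c) ∈ rk w) (hbc : b ≠ c) :
    ∃ y z v l, ((y = b ∧ z = c) ∨ (y = c ∧ z = b)) ∧ l ≠ [] ∧
      w ~r (Lt.B y :: .A a :: .B z :: .A v :: l) := by
  have key : ∀ y z : ℕ, CA w (.B y) (.A a) → CA w (.A a) (.B z) →
      ∃ v l, l ≠ [] ∧ w ~r (Lt.B y :: .A a :: .B z :: .A v :: l) := by
    intro y z h1 h2
    obtain ⟨q, hq⟩ := ca_exists_right (by omega : 2 ≤ w.length) (ca_mem h2).2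
    obtain ⟨v, rfl⟩ : ∃ v, q = .A v := by
      rcases ha _ _ hq with ⟨_, _, e, _⟩ | ⟨s, _, _, e⟩
      · cases e
      · exact ⟨s, e⟩
    obtain ⟨l, hl⟩ := rot4 h.nodup (by omega) h1 h2 hq (by simp)
    refine ⟨v, l, ?_, hl⟩
    rintro rfl
    have := hl.perm.length_eq
    simp at this
    omega
  rcases hb with hb | hb <;> rcases hc with hc | hc
  · exact absurd (Lt.B.inj (ca_unique_right h.nodup hb hc)) hbc
  · obtain ⟨v, l, hl, hw⟩ := key c b hc hb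
    exact ⟨c, b, v, l, Or.inr ⟨rfl, rfl⟩, hl, hw⟩
  · obtain ⟨v, l, hl, hw⟩ := key b c hb hc
    exact ⟨b, c, v, l, Or.inl ⟨rfl, rfl⟩, hl, hw⟩
  · exact absurd (Lt.B.inj (ca_unique_left h.nodup hb hc)) hbc

theorem tl2_col (w : List Lt) (h : Inv w) (h6 : 6 ≤ w.length) (ha : Alt w) (a b c : ℕ)
    (hb : (b, a) ∈ rk w) (hc : (c, a) ∈ rk w) (hbc : b ≠ c) :
    ∃ y z v l, ((y = b ∧ z = c) ∨ (y = c ∧ z = b)) ∧ l ≠ [] ∧
      w ~r (Lt.A y :: .B a :: .A z :: .B v :: l) := by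
  have key : ∀ y z : ℕ, CA w (.A y) (.B a) → CA w (.B a) (.A z) →
      ∃ v l, l ≠ [] ∧ w ~r (Lt.A y :: .B a :: .A z :: .B v :: l) := by
    intro y z h1 h2
    obtain ⟨q, hq⟩ := ca_exists_right (by omega : 2 ≤ w.length) (ca_mem h2).2
    obtain ⟨v, rfl⟩ : ∃ v, q = .B v := by
      rcases ha _ _ hq with ⟨_, u, _, e⟩ | ⟨_, _, e, _⟩
      · exact ⟨u, e⟩
      · cases e
    obtain ⟨l, hl⟩ := rot4 h.nodup (by omega) h1 h2 hq (by simp)
    refine ⟨v, l, ?_, hl⟩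
    rintro rfl
    have := hl.perm.length_eq
    simp at this
    omega
  rcases hb with hb | hb <;> rcases hc with hc | hc
  · exact absurd (Lt.A.inj (ca_unique_left h.nodup hb hc)) hbc
  · obtain ⟨v, l, hl, hw⟩ := key b c hb hc
    exact ⟨b, c, v, l, Or.inl ⟨rfl, rfl⟩, hl, hw⟩
  · obtain ⟨v, l, hl, hw⟩ := key c b hc hb
    exact ⟨c, b, v, l, Or.inr ⟨rfl, rfl⟩, hl, hw⟩
  · exact absurd (Lt.A.inj (ca_unique_right h.nodup hb hc)) hbc

/-- cyclic adjacency from the failure of the hypothesis of `lpp` -/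
theorem tl2_adj (S : Set ℕ) (b c y z : ℕ) (hb : b ∈ S) (hc : c ∈ S) (hbc : b < c)
    (hyz : (y = b ∧ z = c) ∨ (y = c ∧ z = b))
    (hn : ¬ ((∃ t ∈ S, b < t ∧ t < c) ∧ (∃ t ∈ S, t < b ∨ c < t))) : CycAdj S y z := by
  have hn' : (¬ ∃ t ∈ S, b < t ∧ t < c) ∨ (¬ ∃ t ∈ S, t < b ∨ c < t) := by
    by_contra hcon
    push Not at hcon
    exact hn hcon
  have h1 : y ≠ z ∧ y ∈ S ∧ z ∈ S := by
    rcases hyz with ⟨rfl, rfl⟩ | ⟨rfl, rfl⟩
    · exact ⟨by omega, hb, hc⟩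
    · exact ⟨by omega, hc, hb⟩
  refine ⟨h1.1, h1.2.1, h1.2.2, ?_⟩
  rcases hn' with k | k
  · left
    intro r hr hbt
    apply k
    refine ⟨r, hr, ?_⟩
    unfold Btw at hbt
    omega
  · right
    intro r hr
    have : ¬ (r < b ∨ c < r) := fun e => k ⟨r, hr, e⟩
    unfold Btw
    omega

theorem alt_adj (w : List Lt) (h : Inv w) (h6 : 6 ≤ w.length) (ha : Alt w)
    (hr : ¬ HasRing (rk w)) :
    (∃ s u t v l, l ≠ [] ∧ w ~r (Lt.A s :: .B u :: .A t :: .B v :: l) ∧ CycAdj (rowsOf w) s t) ∨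
    (∃ s u t v l, l ≠ [] ∧ w ~r (Lt.B s :: .A u :: .B t :: .A v :: l) ∧ CycAdj (colsOf w) s t) := by
  by_contra hcon
  obtain ⟨X, r, hX, h2r, hR, hC, mR, mC, f1, f2⟩ := alt_support w h (by omega) ha
  apply hr
  rw [← hX]
  have hmem : ∀ x : ℕ × ℕ, x ∈ X ↔ x ∈ rk w := by
    intro x
    rw [← hX]
    exact Finset.mem_coe.symm
  refine lpp X r (by omega) hR hC f1 f2 ?_ ?_
  · intro a b c hb hc hbc
    by_contra hn
    apply hcon
    right
    obtain ⟨y, z, v, l, hyz, hl, hw⟩ := tl2_row w h h6 ha a b c ((hmem _).1 hb) ((hmem _).1 hc)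
      (by omega)
    refine ⟨y, a, z, v, l, hl, hw, tl2_adj (colsOf w) b c y z ?_ ?_ hbc hyz ?_⟩
    · exact (mC b).1 (Finset.mem_image.2 ⟨_, hb, rfl⟩)
    · exact (mC c).1 (Finset.mem_image.2 ⟨_, hc, rfl⟩)
    · intro hh
      apply hn
      refine ⟨?_, ?_⟩
      · obtain ⟨t, ht, e⟩ := hh.1
        exact ⟨t, (mC t).2 ht, e⟩
      · obtain ⟨t, ht, e⟩ := hh.2
        exact ⟨t, (mC t).2 ht, e⟩
  · intro a b c hb hc hbc
    by_contra hn
    apply hcon
    left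
    obtain ⟨y, z, v, l, hyz, hl, hw⟩ := tl2_col w h h6 ha a b c ((hmem _).1 hb) ((hmem _).1 hc)
      (by omega)
    refine ⟨y, a, z, v, l, hl, hw, tl2_adj (rowsOf w) b c y z ?_ ?_ hbc hyz ?_⟩
    · exact (mR b).1 (Finset.mem_image.2 ⟨_, hb, rfl⟩)
    · exact (mR c).1 (Finset.mem_image.2 ⟨_, hc, rfl⟩)
    · intro hh
      apply hn
      refine ⟨?_, ?_⟩
      · obtain ⟨t, ht, e⟩ := hh.1
        exact ⟨t, (mR t).2 ht, e⟩
      · obtain ⟨t, ht, e⟩ := hh.2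
        exact ⟨t, (mR t).2 ht, e⟩

end H46K
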