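import Pool.Agent.Lib.H46K.T0

/-!
# H46K chunk TG1 (M): the triangle `A s, A t, B u` meets the other sides only in its corners

Write `x = α A s + γ A t + β B u` with nonnegative weights of sum `1`: `x = (α s + γ t, β u, β)`.
* (AA) a point of `segment (A p) (A q)` has second coordinate `0`, so `β u = 0`, `β = 0`, `x = A z` with
  `z` between `s` and `t` and between `p` and `q`; as `t` is not in the closed interval `[p,q]` and
  `p, q` are not strictly between `s` and `t`, `z = s`.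
* (AP) a point of `segment (A p) P` has second coordinate `0`, so `β = 0`, third coordinate `0`, which
  forces `x = A p`, `p` between `s` and `t`, hence `p = s`.
* (BB), (BQ): first coordinate `0`, so `α s + γ t = 0`, `α = γ = 0`, `x = B u`.
* (AB) third coordinate: the weight of `B q` is `β`; if `β = 1`, `x = B u`; otherwise
  `(1 - β) p = α s + γ t`, so `p` is between `s` and `t`, `p = s` or `p = t`; second coordinate:
  `β u = β q`: `β = 0` (then `x = A p`) or `q = u`.
-/

set_option autoImplicit false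

namespace H46K

theorem mem_hull3 (a b c x : P3) :
    x ∈ convexHull ℝ {a, b, c} ↔ ∃ α β γ : ℝ, 0 ≤ α ∧ 0 ≤ β ∧ 0 ≤ γ ∧ α + β + γ = 1 ∧
      x = α • a + β • b + γ • c := by
  constructor
  · intro h
    rw [convexHull_insert (by simp), convexHull_pair, mem_convexJoin] at h
    obtain ⟨y, hy, z, hz, hx⟩ := h
    rw [Set.mem_singleton_iff] at hy
    subst hy
    obtain ⟨p, q, hp, hq, hpq, rfl⟩ := hz
    obtain ⟨r, s, hr, hs, hrs, rfl⟩ := hx
    refine ⟨r, s * p, s * q, hr, by positivity, by positivity, ?_, ?_⟩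
    · linear_combination hrs + s * hpq
    · rw [smul_add, smul_smul, smul_smul, add_assoc]
  · rintro ⟨α, β, γ, h1, h2, h3, h4, rfl⟩
    rw [mem_convexHull_iff]
    intro t ht hc
    have ha : a ∈ t := ht (by simp)
    have hb : b ∈ t := ht (by simp)
    have hcc : c ∈ t := ht (by simp)
    have key := hc.sum_mem (t := Finset.univ) (w := ![α, β, γ]) (z := ![a, b, c])
      (fun i _ ↦ by fin_cases i <;> assumption)
      (by rw [Fin.sum_univ_three]; exact h4) (fun i _ ↦ by fin_cases i <;> assumption)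
    rw [Fin.sum_univ_three] at key
    exact key

theorem tg1_pos {a b x y : ℝ} (ha : 0 ≤ a) (hb : 0 ≤ b) (hab : 0 < a + b) (hx : 0 < x)
    (hy : 0 < y) : 0 < a * x + b * y := by
  rcases eq_or_lt_of_le ha with h | h
  · subst h
    have : 0 < b := by linarith
    positivity
  · positivity

theorem tg1_coords {s t u α β γ : ℝ} : α • ptA s + β • ptA t + γ • ptB u =
    (α * s + β * t, γ * u, γ) := by
  simp [ptA, ptB]

theorem hullAAB_AA (s t u p q : ℕ) (hs : 1 ≤ s) (ht : 1 ≤ t) (hu : 1 ≤ u) (hst : s ≠ t)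
    (hp : p ≠ t) (hq : q ≠ t) (hpq : ¬ Btw p q t) (hp' : ¬ Btw s t p) (hq' : ¬ Btw s t q)
    (x : P3) (hx : x ∈ convexHull ℝ {ptA s, ptA t, ptB u}) (hx' : x ∈ segment ℝ (ptA p) (ptA q)) :
    x = ptA s := by
  obtain ⟨α, β, γ, h1, h2, h3, h4, rfl⟩ := (mem_hull3 _ _ _ _).1 hx
  obtain ⟨a, b, ha, hb, hab, h⟩ := hx'
  rw [tg1_coords] at h ⊢
  simp only [ptA, Prod.smul_mk, smul_eq_mul, mul_zero, Prod.mk_add_mk, add_zero, Prod.mk.injEq]
    at h ⊢
  obtain ⟨e1, e2, e3⟩ := h
  have hγ : γ = 0 := e3.symm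
  subst hγ
  unfold Btw at hpq hp' hq'
  have hβ : β = 0 := by
    rcases lt_or_gt_of_ne hst with hlt | hlt
    · have hc : (p ≤ s ∧ q ≤ s) ∨ (t < p ∧ t < q) := by omega
      have hlt' : (s : ℝ) < t := by exact_mod_cast hlt
      rcases hc with ⟨c1, c2⟩ | ⟨c1, c2⟩
      · have c1' : (p : ℝ) ≤ s := by exact_mod_cast c1
        have c2' : (q : ℝ) ≤ s := by exact_mod_cast c2
        nlinarith
      · have c1' : (t : ℝ) < p := by exact_mod_cast c1
        have c2' : (t : ℝ) < q := by exact_mod_cast c2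
        have k1 := tg1_pos ha hb (by linarith) (sub_pos.2 c1') (sub_pos.2 c2')
        have k2 := mul_nonneg h1 (sub_pos.2 hlt').le
        have k3 : a * ((p : ℝ) - t) + b * ((q : ℝ) - t) = -(α * ((t : ℝ) - s)) := by
          linear_combination e1 + (t : ℝ) * h4 - (t : ℝ) * hab
        linarith
    · have hc : (s ≤ p ∧ s ≤ q) ∨ (p < t ∧ q < t) := by omega
      have hlt' : (t : ℝ) < s := by exact_mod_cast hlt
      rcases hc with ⟨c1, c2⟩ | ⟨c1, c2⟩
      · have c1' : (s : ℝ) ≤ p := by exact_mod_cast c1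
        have c2' : (s : ℝ) ≤ q := by exact_mod_cast c2
        nlinarith
      · have c1' : (p : ℝ) < t := by exact_mod_cast c1
        have c2' : (q : ℝ) < t := by exact_mod_cast c2
        have k1 := tg1_pos ha hb (by linarith) (sub_pos.2 c1') (sub_pos.2 c2')
        have k2 := mul_nonneg h1 (sub_pos.2 hlt').le
        have k3 : a * ((t : ℝ) - p) + b * ((t : ℝ) - q) = -(α * ((s : ℝ) - t)) := by
          linear_combination -e1 - (t : ℝ) * h4 + (t : ℝ) * hab
        linarith
  subst hβ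
  have hα : α = 1 := by linarith
  subst hα
  exact ⟨by ring, by ring, rfl⟩

theorem hullAAB_AP (s t u p : ℕ) (τ : ℝ) (hu : 1 ≤ u) (hst : s ≠ t)
    (hp : p ≠ t) (hp' : ¬ Btw s t p)
    (x : P3) (hx : x ∈ convexHull ℝ {ptA s, ptA t, ptB u}) (hx' : x ∈ segment ℝ (ptA p) (ptP τ)) :
    x = ptA s := by
  obtain ⟨α, β, γ, h1, h2, h3, h4, rfl⟩ := (mem_hull3 _ _ _ _).1 hx
  obtain ⟨a, b, ha, hb, hab, h⟩ := hx'
  rw [tg1_coords] at h ⊢
  simp only [ptA, ptP, Prod.smul_mk, smul_eq_mul, mul_zero, Prod.mk_add_mk, add_zero, zero_add,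
    Prod.mk.injEq] at h ⊢
  obtain ⟨e1, e2, e3⟩ := h
  have hu' : (0 : ℝ) < u := by exact_mod_cast hu
  have hγ : γ = 0 := by
    rcases mul_eq_zero.1 e2.symm with h | h
    · exact h
    · exact absurd h hu'.ne'
  subst hγ
  have hb0 : b = 0 := by linarith
  subst hb0
  have ha1 : a = 1 := by linarith
  subst ha1
  unfold Btw at hp'
  have hβ : β = 0 := by
    rcases lt_or_gt_of_ne hst with hlt | hlt
    · have hc : p ≤ s ∨ t < p := by omega
      have hlt' : (s : ℝ) < t := by exact_mod_cast hlt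
      rcases hc with c1 | c1
      · have c1' : (p : ℝ) ≤ s := by exact_mod_cast c1
        nlinarith
      · have c1' : (t : ℝ) < p := by exact_mod_cast c1
        nlinarith
    · have hc : s ≤ p ∨ p < t := by omega
      have hlt' : (t : ℝ) < s := by exact_mod_cast hlt
      rcases hc with c1 | c1
      · have c1' : (s : ℝ) ≤ p := by exact_mod_cast c1
        nlinarith
      · have c1' : (p : ℝ) < t := by exact_mod_cast c1
        nlinarith
  subst hβ
  have hα : α = 1 := by linarith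
  subst hα
  exact ⟨by ring, by ring, rfl⟩

theorem tg1_B {α β γ s t u : ℝ} (h : γ = 1) (h1 : α = 0) (h2 : β = 0) :
    ((α * s + β * t, γ * u, γ) : P3) = ptB u := by
  subst h h1 h2
  simp [ptB]

theorem hullAAB_BB (s t u p q : ℕ) (hs : 1 ≤ s) (ht : 1 ≤ t)
    (x : P3) (hx : x ∈ convexHull ℝ {ptA s, ptA t, ptB u}) (hx' : x ∈ segment ℝ (ptB p) (ptB q)) :
    x = ptB u := by
  obtain ⟨α, β, γ, h1, h2, h3, h4, rfl⟩ := (mem_hull3 _ _ _ _).1 hx
  obtain ⟨a, b, ha, hb, hab, h⟩ := hx'
  rw [tg1_coords] at h ⊢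
  simp only [ptB, Prod.smul_mk, smul_eq_mul, mul_zero, mul_one, Prod.mk_add_mk, add_zero,
    Prod.mk.injEq] at h
  obtain ⟨e1, e2, e3⟩ := h
  exact tg1_B (by linarith) (by linarith) (by linarith)

theorem hullAAB_BQ (s t u p : ℕ) (hs : 1 ≤ s) (ht : 1 ≤ t)
    (x : P3) (hx : x ∈ convexHull ℝ {ptA s, ptA t, ptB u}) (hx' : x ∈ segment ℝ (ptB p) ptQ) :
    x = ptB u := by
  obtain ⟨α, β, γ, h1, h2, h3, h4, rfl⟩ := (mem_hull3 _ _ _ _).1 hx
  obtain ⟨a, b, ha, hb, hab, h⟩ := hx'
  rw [tg1_coords] at h ⊢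
  simp only [ptB, ptQ, Prod.smul_mk, smul_eq_mul, mul_zero, mul_one, Prod.mk_add_mk, add_zero,
    Prod.mk.injEq] at h
  obtain ⟨e1, e2, e3⟩ := h
  have hs' : (1 : ℝ) ≤ s := by exact_mod_cast hs
  have ht' : (1 : ℝ) ≤ t := by exact_mod_cast ht
  have hα : α = 0 := by nlinarith
  have hβ : β = 0 := by nlinarith
  exact tg1_B (by linarith) hα hβ

theorem hullAAB_AB (s t u p q : ℕ) (hs : 1 ≤ s) (ht : 1 ≤ t) (hu : 1 ≤ u)
    (hp' : ¬ Btw s t p)
    (x : P3) (hx : x ∈ convexHull ℝ {ptA s, ptA t, ptB u}) (hx' : x ∈ segment ℝ (ptA p) (ptB q)) :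
    x = ptB u ∨ ((p = s ∨ p = t) ∧ (x = ptA p ∨ q = u)) := by
  obtain ⟨α, β, γ, h1, h2, h3, h4, rfl⟩ := (mem_hull3 _ _ _ _).1 hx
  obtain ⟨a, b, ha, hb, hab, h⟩ := hx'
  rw [tg1_coords] at h ⊢
  simp only [ptA, ptB, Prod.smul_mk, smul_eq_mul, mul_zero, mul_one, Prod.mk_add_mk, add_zero,
    zero_add, Prod.mk.injEq] at h
  obtain ⟨e1, e2, e3⟩ := h
  subst e3
  rcases eq_or_lt_of_le ha with ha0 | ha0
  · left
    exact tg1_B (by linarith) (by linarith) (by linarith)
  · right
    constructor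
    · unfold Btw at hp'
      by_contra hcon
      push Not at hcon
      obtain ⟨c1, c2⟩ := hcon
      have hcase : (p < s ∧ p < t) ∨ (s < p ∧ t < p) := by omega
      rcases hcase with ⟨d1, d2⟩ | ⟨d1, d2⟩
      · have d1' : (p : ℝ) < s := by exact_mod_cast d1
        have d2' : (p : ℝ) < t := by exact_mod_cast d2
        have k1 := tg1_pos h1 h2 (by linarith) (sub_pos.2 d1') (sub_pos.2 d2')
        have k3 : α * ((s : ℝ) - p) + β * ((t : ℝ) - p) = 0 := by
          linear_combination -e1 - (p : ℝ) * h4 + (p : ℝ) * hab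
        linarith
      · have d1' : (s : ℝ) < p := by exact_mod_cast d1
        have d2' : (t : ℝ) < p := by exact_mod_cast d2
        have k1 := tg1_pos h1 h2 (by linarith) (sub_pos.2 d1') (sub_pos.2 d2')
        have k3 : α * ((p : ℝ) - s) + β * ((p : ℝ) - t) = 0 := by
          linear_combination e1 + (p : ℝ) * h4 - (p : ℝ) * hab
        linarith
    · by_cases hbu : b = 0
      · left
        subst hbu
        have : a = 1 := by linarith
        subst this
        simp only [ptA, Prod.mk.injEq]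
        exact ⟨by linarith, by ring, trivial⟩
      · right
        have : (q : ℝ) = u := mul_left_cancel₀ hbu e2
        exact_mod_cast this

end H46K
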