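import Pool.Agent.Lib.H46K.TG1

/-!
# H46K chunk TG2 (M): the triangle `P_tau, A t, B u` meets the other sides only in its corners

Write `x = a P_tau + c A t + b B u`, weights nonnegative with sum `1`:
`x = (-4 tau a + t c, u b, 5 a + b)`.
* (AA) a point with third coordinate `0`: `5 a + b = 0`, so `a = b = 0`, `x = A t`.
* (AP) `x` on the segment from `A p` to `P_tau`, `p ≠ t`: second coordinate `0`, so `b = 0`; with
  `x = (1-w) A p + w P_tau`: third coordinate `w = a`, first coordinate `(1-a) p = (1-a) t`, so `a = 1`.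
* (BB) `x` has first coordinate `0` and third coordinate `1`: `t c = 4 tau a`, `5 a + b = 1`, `a+b+c = 1`,
  so `c = 4 a`, `4 a (t - tau) = 0`, `a = 0`, `x = B u`.
* (BQ) `tau = 5/2`, `x = (0, p - (p+10) w, 1 - 5 w)` with `0 ≤ w ≤ 1`: first coordinate:
  `t c = 10 a`; third coordinate `5 a + b = 1 - 5 w` where `b = 1 - a - c`, so
  `t (4 a) - 10 a = - 5 w t ≤ 0`, hence `a (4 t - 10) ≤ 0`. If `t ≥ 3`: `a = 0`. If `t = 1`: `c = 10 a`,
  `b = 1 - 11 a`, `w = 6 a / 5`, second coordinate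
  `u (1 - 11 a) = p - (p + 10) 6 a / 5`, i.e. `(u - p) b = a (49 p / 5 - 12)`. If `p = 1`: left side
  nonnegative, right side `- 11 a / 5`, so `a = 0`. If `p ≥ 3` and `u ≤ p`: left side `≤ 0`, right side
  `≥ 17 a`, so `a = 0`. Finally `a = 0` gives `c = 0` and `x = B u`.
* (AB) `x = (1-g) A p + g B q`: `g = 5 a + b`, `(1-g) p = -4 tau a + t c`, so
  `(1-g)(p - t) = 4 a (t - tau)`; the two sides have opposite signs, so `a = 0` (as `t ≠ tau`) and
  (`g = 1` or `p = t`). If `g = 1`: `b = 1`, `x = B u`. If `p = t`: second coordinate `u b = q g = q b`: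
  `b = 0` (`x = A t`) or `q = u`.
-/

set_option autoImplicit false

namespace H46K

theorem tg2_coords {τ t u a c b : ℝ} : a • ptP τ + c • ptA t + b • ptB u =
    (-4 * τ * a + c * t, b * u, 5 * a + b) := by
  simp only [ptP, ptA, ptB, Prod.smul_mk, smul_eq_mul, mul_zero, mul_one, Prod.mk_add_mk,
    add_zero, zero_add, Prod.mk.injEq, true_and]
  exact ⟨by ring, by ring⟩

theorem tg2_B {τ a c b t u : ℝ} (h1 : a = 0) (h2 : c = 0) (h : b = 1) :
    ((-4 * τ * a + c * t, b * u, 5 * a + b) : P3) = ptB u := by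
  subst h h1 h2
  simp [ptB]

theorem tg2_A {τ a c b t u : ℝ} (h1 : a = 0) (h2 : c = 1) (h : b = 0) :
    ((-4 * τ * a + c * t, b * u, 5 * a + b) : P3) = ptA t := by
  subst h h1 h2
  simp [ptA]

theorem hullPAB_AA (τ : ℝ) (t u : ℕ) (x : P3)
    (hx : x ∈ convexHull ℝ {ptP τ, ptA t, ptB u}) (hx' : x.2.2 = 0) : x = ptA t := by
  obtain ⟨a, c, b, h1, h2, h3, h4, rfl⟩ := (mem_hull3 _ _ _ _).1 hx
  rw [tg2_coords] at hx' ⊢
  have e : 5 * a + b = 0 := hx'
  exact tg2_A (by linarith) (by linarith) (by linarith)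

theorem hullPAB_AP (τ : ℝ) (t u p : ℕ) (hu : 1 ≤ u) (hp : p ≠ t) (x : P3)
    (hx : x ∈ convexHull ℝ {ptP τ, ptA t, ptB u}) (hx' : x ∈ segment ℝ (ptA p) (ptP τ)) :
    x = ptP τ := by
  obtain ⟨a, c, b, h1, h2, h3, h4, rfl⟩ := (mem_hull3 _ _ _ _).1 hx
  obtain ⟨w1, w, hw1, hw, hw2, h⟩ := hx'
  rw [tg2_coords] at h ⊢
  simp only [ptA, ptP, Prod.smul_mk, smul_eq_mul, mul_zero, Prod.mk_add_mk, add_zero, zero_add,
    Prod.mk.injEq] at h ⊢
  obtain ⟨e1, e2, e3⟩ := h
  have hu' : (u : ℝ) ≠ 0 := by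
    have : (0 : ℝ) < u := by exact_mod_cast hu
    exact this.ne'
  have hb : b = 0 := by
    rcases mul_eq_zero.1 e2.symm with h | h
    · exact h
    · exact absurd h hu'
  subst hb
  have hw' : w = a := by linarith
  subst hw'
  have hc : c = w1 := by linarith
  subst hc
  have hc0 : c * ((p : ℝ) - t) = 0 := by linear_combination e1
  have hc1 : c = 0 := by
    rcases mul_eq_zero.1 hc0 with h | h
    · exact h
    · exact absurd (by exact_mod_cast sub_eq_zero.1 h) hp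
  subst hc1
  have hw3 : w = 1 := by linarith
  subst hw3
  exact ⟨by ring, by ring, by ring⟩

theorem hullPAB_BB (τ : ℝ) (t u p q : ℕ) (hτ : (t : ℝ) ≠ τ) (x : P3)
    (hx : x ∈ convexHull ℝ {ptP τ, ptA t, ptB u}) (hx' : x ∈ segment ℝ (ptB p) (ptB q)) :
    x = ptB u := by
  obtain ⟨a, c, b, h1, h2, h3, h4, rfl⟩ := (mem_hull3 _ _ _ _).1 hx
  obtain ⟨w1, w, hw1, hw, hw2, h⟩ := hx'
  rw [tg2_coords] at h ⊢
  simp only [ptB, Prod.smul_mk, smul_eq_mul, mul_zero, mul_one, Prod.mk_add_mk, add_zero,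
    Prod.mk.injEq] at h
  obtain ⟨e1, e2, e3⟩ := h
  have hc : c = 4 * a := by linarith
  subst hc
  have h0 : a * ((t : ℝ) - τ) = 0 := by linear_combination -(1 / 4 : ℝ) * e1
  have ha : a = 0 := by
    rcases mul_eq_zero.1 h0 with h | h
    · exact h
    · exact absurd (sub_eq_zero.1 h) hτ
  exact tg2_B ha (by linarith) (by linarith)

theorem hullPAB_BQ (t u p : ℕ) (hu : 1 ≤ u) (ht : t = 1 ∨ 3 ≤ t)
    (hp : p = 1 ∨ (3 ≤ p ∧ u ≤ p)) (x : P3)
    (hx : x ∈ convexHull ℝ {ptP (5 / 2), ptA t, ptB u}) (hx' : x ∈ segment ℝ (ptB p) ptQ) :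
    x = ptB u := by
  obtain ⟨a, c, b, h1, h2, h3, h4, rfl⟩ := (mem_hull3 _ _ _ _).1 hx
  obtain ⟨w1, w, hw1, hw, hw2, h⟩ := hx'
  rw [tg2_coords] at h ⊢
  simp only [ptB, ptQ, Prod.smul_mk, smul_eq_mul, mul_zero, mul_one, Prod.mk_add_mk, add_zero,
    Prod.mk.injEq] at h
  obtain ⟨e1, e2, e3⟩ := h
  have hw1' : w1 = 1 - w := by linarith
  subst hw1'
  have hc : c = 4 * a + 5 * w := by linarith
  have hu' : (1 : ℝ) ≤ u := by exact_mod_cast hu
  have ha : a = 0 := by
    rcases ht with rfl | ht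
    · have hca : c = 10 * a := by
        push_cast at e1
        linarith
      have hwa : w = 6 / 5 * a := by linarith
      have hb : b = 1 - 11 * a := by linarith
      rcases hp with rfl | ⟨hp3, hup⟩
      · have k1 : b ≤ b * u := by nlinarith
        push_cast at e2
        linarith
      · have hp3' : (3 : ℝ) ≤ p := by exact_mod_cast hp3
        have hup' : (u : ℝ) ≤ p := by exact_mod_cast hup
        have k1 : b * u ≤ b * p := mul_le_mul_of_nonneg_left hup' h3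
        have k2 : (1 - w) * (p : ℝ) + w * (-10) ≤ b * p := by rw [e2]; exact k1
        rw [hwa, hb] at k2
        have k3 : a * (49 / 5 * (p : ℝ) - 12) ≤ 0 := by linarith
        nlinarith
    · have ht' : (3 : ℝ) ≤ t := by exact_mod_cast ht
      have k1 : a * (4 * (t : ℝ) - 10) = -(5 * w * t) := by
        rw [hc] at e1
        linear_combination -e1
      have k2 : 0 ≤ w * t := by positivity
      nlinarith
  subst ha
  have hc0 : c * (t : ℝ) = 0 := by linarith
  have ht0 : (t : ℝ) ≠ 0 := by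
    have : 0 < t := by omega
    exact_mod_cast this.ne'
  have hc1 : c = 0 := by
    rcases mul_eq_zero.1 hc0 with h | h
    · exact h
    · exact absurd h ht0
  exact tg2_B rfl hc1 (by linarith)

theorem hullPAB_AB (τ : ℝ) (t u p q : ℕ) 
    (ht : ((t : ℝ) < τ ∧ t ≤ p) ∨ (τ < (t : ℝ) ∧ p ≤ t)) (x : P3)
    (hx : x ∈ convexHull ℝ {ptP τ, ptA t, ptB u}) (hx' : x ∈ segment ℝ (ptA p) (ptB q)) :
    x = ptB u ∨ (p = t ∧ (x = ptA t ∨ q = u)) := by
  obtain ⟨a, c, b, h1, h2, h3, h4, rfl⟩ := (mem_hull3 _ _ _ _).1 hx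
  obtain ⟨w1, g, hw1, hg, hw2, h⟩ := hx'
  rw [tg2_coords] at h ⊢
  simp only [ptA, ptB, Prod.smul_mk, smul_eq_mul, mul_zero, mul_one, Prod.mk_add_mk, add_zero,
    zero_add, Prod.mk.injEq] at h
  obtain ⟨e1, e2, e3⟩ := h
  have hc : c = w1 + 4 * a := by linarith
  subst hc
  have key : w1 * ((p : ℝ) - t) = 4 * (a * ((t : ℝ) - τ)) := by linear_combination e1
  have hboth : a = 0 ∧ w1 * ((p : ℝ) - t) = 0 := by
    rcases ht with ⟨g1, g2⟩ | ⟨g1, g2⟩
    · have g2' : (t : ℝ) ≤ p := by exact_mod_cast g2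
      have k1 : 0 ≤ w1 * ((p : ℝ) - t) := mul_nonneg hw1 (sub_nonneg.2 g2')
      have k2 : 0 ≤ a * (τ - (t : ℝ)) := mul_nonneg h1 (sub_pos.2 g1).le
      have k3 : a * (τ - (t : ℝ)) = 0 := by nlinarith
      refine ⟨?_, by nlinarith⟩
      rcases mul_eq_zero.1 k3 with h | h
      · exact h
      · exact absurd h (sub_pos.2 g1).ne'
    · have g2' : (p : ℝ) ≤ t := by exact_mod_cast g2
      have k1 : 0 ≤ w1 * ((t : ℝ) - p) := mul_nonneg hw1 (sub_nonneg.2 g2')
      have k2 : 0 ≤ a * ((t : ℝ) - τ) := mul_nonneg h1 (sub_pos.2 g1).le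
      have k3 : a * ((t : ℝ) - τ) = 0 := by nlinarith
      refine ⟨?_, by nlinarith⟩
      rcases mul_eq_zero.1 k3 with h | h
      · exact h
      · exact absurd h (sub_pos.2 g1).ne'
  obtain ⟨ha, hw⟩ := hboth
  subst ha
  rcases mul_eq_zero.1 hw with h | h
  · left
    exact tg2_B rfl (by linarith) (by linarith)
  · right
    have hpt : p = t := by exact_mod_cast sub_eq_zero.1 h
    refine ⟨hpt, ?_⟩
    have hgb : g = b := by linarith
    subst hgb
    have k : g * ((q : ℝ) - u) = 0 := by linear_combination e2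
    rcases mul_eq_zero.1 k with h | h
    · left
      exact tg2_A rfl (by linarith) h
    · right
      exact_mod_cast sub_eq_zero.1 h

end H46K
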