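import Pool.Agent.Lib.H46K.T0

/-!
# H46K chunk TU2 (M): the affine symmetry preserves unknots

`sig (x,y,z) = (y,x,1-z)` is an affine involution.  Proof of `unknot_sig` by induction on `Unknot`:
* `tri`: affine independence is preserved by an injective affine map
  (`AffineIndependent.map'` / `AffineMap` with `sigA := ...`), `![sig a, sig b, sig c] = sigA ∘ ![a,b,c]`;
* `rot`: `List.IsRotated.map`;
* `ins`, `del`: images of segments, convex hulls (`AffineMap.image_convexHull`, `segment_map` ..) and
  `arcSet (l.map sig) = sig '' arcSet l` (induction on `l`), `Set.image_inter` for the injective map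
  `sig`, so all the inclusions are transported.
-/

set_option autoImplicit false

namespace H46K

/-- `sig` as an affine map. -/
theorem exists_sigA : ∃ f : P3 →ᵃ[ℝ] P3, (∀ p, f p = sig p) ∧ Function.Injective f := by
  let L : P3 →ₗ[ℝ] P3 :=
    { toFun := fun p ↦ (p.2.1, p.1, -p.2.2)
      map_add' := by
        rintro ⟨a, b, c⟩ ⟨a', b', c'⟩
        simp only [Prod.mk_add_mk, Prod.mk.injEq, true_and]
        ring
      map_smul' := by
        rintro r ⟨a, b, c⟩
        simp }
  let f : P3 →ᵃ[ℝ] P3 :=
    { toFun := sig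
      linear := L
      map_vadd' := by
        rintro ⟨a, b, c⟩ ⟨a', b', c'⟩
        simp only [sig, vadd_eq_add, Prod.mk_add_mk, L, LinearMap.coe_mk, AddHom.coe_mk,
          Prod.mk.injEq, true_and]
        ring }
  refine ⟨f, fun p ↦ rfl, fun p q h ↦ ?_⟩
  have h' : sig p = sig q := h
  rw [← sig_sig p, h', sig_sig]

theorem tu2_inj : Function.Injective sig := fun p q h ↦ by
  rw [← sig_sig p, h, sig_sig]

theorem segment_sig (a b : P3) : segment ℝ (sig a) (sig b) = sig '' segment ℝ a b := by
  obtain ⟨f, hf, -⟩ := exists_sigA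
  have h := image_segment ℝ f a b
  rw [hf, hf] at h
  rw [← h]
  congr 1
  funext p
  exact hf p

theorem hull_sig (a b c : P3) :
    convexHull ℝ {sig a, sig b, sig c} = sig '' convexHull ℝ ({a, b, c} : Set P3) := by
  obtain ⟨f, hf, -⟩ := exists_sigA
  have h := f.image_convexHull ({a, b, c} : Set P3)
  rw [Set.image_insert_eq, Set.image_insert_eq, Set.image_singleton, hf, hf, hf] at h
  rw [← h]
  congr 1
  funext p
  exact hf p

theorem arcSet_sig (l : List P3) : arcSet (l.map sig) = sig '' arcSet l := by
  induction l with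
  | nil => simp [arcSet]
  | cons a l ih =>
    cases l with
    | nil => simp [arcSet]
    | cons b l =>
      simp only [List.map_cons, arcSet] at ih ⊢
      rw [ih, segment_sig, Set.image_union]

theorem tu2_seg {a v b : P3} (hs : segment ℝ a v ∩ segment ℝ v b ⊆ {v}) :
    segment ℝ (sig a) (sig v) ∩ segment ℝ (sig v) (sig b) ⊆ {sig v} := by
  rw [segment_sig, segment_sig, ← Set.image_inter tu2_inj, ← Set.image_singleton]
  exact Set.image_mono hs

theorem tu2_hull {a v b : P3} {l : List P3}
    (ht : convexHull ℝ {a, v, b} ∩ arcSet (b :: (l ++ [a])) ⊆ {a, b}) :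
    convexHull ℝ {sig a, sig v, sig b} ∩ arcSet (sig b :: (l.map sig ++ [sig a])) ⊆
      {sig a, sig b} := by
  have e : sig b :: (l.map sig ++ [sig a]) = (b :: (l ++ [a])).map sig := by simp
  rw [e, arcSet_sig, hull_sig, ← Set.image_inter tu2_inj, ← Set.image_pair]
  exact Set.image_mono ht

theorem unknot_sig (l : List P3) (h : Unknot l) : Unknot (l.map sig) := by
  induction h with
  | tri a b c h =>
    obtain ⟨f, hf, hi⟩ := exists_sigA
    have h1 := h.map' f hi
    have e : (f ∘ ![a, b, c] : Fin 3 → P3) = ![sig a, sig b, sig c] := by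
      funext i
      fin_cases i
      · exact hf a
      · exact hf b
      · exact hf c
    rw [e] at h1
    exact Unknot.tri _ _ _ h1
  | rot l l' h _ ih => exact Unknot.rot _ _ (h.map sig) ih
  | ins a v b l hav hvb hs ht _ ih =>
    exact Unknot.ins _ _ _ _ (tu2_inj.ne hav) (tu2_inj.ne hvb) (tu2_seg hs) (tu2_hull ht) ih
  | del a v b l hav hvb hs ht _ ih =>
    exact Unknot.del _ _ _ _ (tu2_inj.ne hav) (tu2_inj.ne hvb) (tu2_seg hs) (tu2_hull ht) ih

/-- For words of letters. -/
theorem unknot_sw (w : List Lt) (h : Unknot ((w.map sw).map pos)) : Unknot (w.map pos) := by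
  have h1 := unknot_sig _ h
  have e : ((w.map sw).map pos).map sig = w.map pos := by
    rw [List.map_map, List.map_map]
    apply List.map_congr_left
    intro p _
    change sig (pos (sw p)) = pos p
    rw [pos_sw, sig_sig]
  rwa [e] at h1

end H46K
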