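import Pool.Agent.Lib.H46K.T0

/-!
# H46K chunk TU3 (M): nondegenerate triangles

(1) `affInd_of`: if one of the three coordinates of the vector product `(b - a) x (c - a)` is not
zero then `a, b, c` are affinely independent (`affineIndependent_iff_linearIndependent_vsub` with
base point `0`, or directly from the definition with weights).
(2) `seg_seg`: if `a, v, b` are affinely independent, the segments `a v` and `v b` meet only in `v`:
`x = (1-s) a + s v = (1-t) v + t b` gives the affine relation `(1-s) a + (s - 1 + t) v - t b = 0`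
with sum of weights zero, so `1 - s = 0 = t`.
(3), (4), ... the triangles which occur in the reduction (each from (1): compute the vector
product).
-/

set_option autoImplicit false

namespace H46K

theorem tu3_iff (a b c : P3) : AffineIndependent ℝ ![a, b, c] ↔
    ∀ x y z : ℝ, x + y + z = 0 → x • a + y • b + z • c = 0 → x = 0 ∧ y = 0 ∧ z = 0 := by
  rw [affineIndependent_iff_of_fintype]
  constructor
  · intro h x y z h1 h2
    have h3 : ∑ i, (![x, y, z] : Fin 3 → ℝ) i = 0 := by
      rw [Fin.sum_univ_three]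
      exact h1
    have h4 := h ![x, y, z] h3 (by
      rw [Finset.weightedVSub_eq_linear_combination _ h3, Fin.sum_univ_three]
      exact h2)
    exact ⟨h4 0, h4 1, h4 2⟩
  · intro h w h1 h2 i
    rw [Finset.weightedVSub_eq_linear_combination _ h1, Fin.sum_univ_three] at h2
    rw [Fin.sum_univ_three] at h1
    obtain ⟨g1, g2, g3⟩ := h _ _ _ h1 h2
    fin_cases i
    · exact g1
    · exact g2
    · exact g3

theorem affInd_of (a b c : P3)
    (h : (b.1 - a.1) * (c.2.1 - a.2.1) - (b.2.1 - a.2.1) * (c.1 - a.1) ≠ 0 ∨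
      (b.2.1 - a.2.1) * (c.2.2 - a.2.2) - (b.2.2 - a.2.2) * (c.2.1 - a.2.1) ≠ 0 ∨
      (b.2.2 - a.2.2) * (c.1 - a.1) - (b.1 - a.1) * (c.2.2 - a.2.2) ≠ 0) :
    AffineIndependent ℝ ![a, b, c] := by
  rw [tu3_iff]
  intro x y z h1 h2
  obtain ⟨a1, a2, a3⟩ := a
  obtain ⟨b1, b2, b3⟩ := b
  obtain ⟨c1, c2, c3⟩ := c
  simp only [Prod.smul_mk, smul_eq_mul, Prod.mk_add_mk] at h2
  have e1 : x * a1 + y * b1 + z * c1 = 0 := congrArg Prod.fst h2
  have e2 : x * a2 + y * b2 + z * c2 = 0 := congrArg (fun q : P3 ↦ q.2.1) h2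
  have e3 : x * a3 + y * b3 + z * c3 = 0 := congrArg (fun q : P3 ↦ q.2.2) h2
  have hx : x = -(y + z) := by linarith
  subst hx
  have f1 : y * (b1 - a1) + z * (c1 - a1) = 0 := by linear_combination e1
  have f2 : y * (b2 - a2) + z * (c2 - a2) = 0 := by linear_combination e2
  have f3 : y * (b3 - a3) + z * (c3 - a3) = 0 := by linear_combination e3
  have key : y = 0 ∧ z = 0 := by
    simp only at h
    rcases h with h | h | h
    · have k1 : y * ((b1 - a1) * (c2 - a2) - (b2 - a2) * (c1 - a1)) = 0 := by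
        linear_combination (c2 - a2) * f1 - (c1 - a1) * f2
      have k2 : z * ((b1 - a1) * (c2 - a2) - (b2 - a2) * (c1 - a1)) = 0 := by
        linear_combination (b1 - a1) * f2 - (b2 - a2) * f1
      exact ⟨(mul_eq_zero.1 k1).resolve_right h, (mul_eq_zero.1 k2).resolve_right h⟩
    · have k1 : y * ((b2 - a2) * (c3 - a3) - (b3 - a3) * (c2 - a2)) = 0 := by
        linear_combination (c3 - a3) * f2 - (c2 - a2) * f3
      have k2 : z * ((b2 - a2) * (c3 - a3) - (b3 - a3) * (c2 - a2)) = 0 := by
        linear_combination (b2 - a2) * f3 - (b3 - a3) * f2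
      exact ⟨(mul_eq_zero.1 k1).resolve_right h, (mul_eq_zero.1 k2).resolve_right h⟩
    · have k1 : y * ((b3 - a3) * (c1 - a1) - (b1 - a1) * (c3 - a3)) = 0 := by
        linear_combination (c1 - a1) * f3 - (c3 - a3) * f1
      have k2 : z * ((b3 - a3) * (c1 - a1) - (b1 - a1) * (c3 - a3)) = 0 := by
        linear_combination (b3 - a3) * f1 - (b1 - a1) * f3
      exact ⟨(mul_eq_zero.1 k1).resolve_right h, (mul_eq_zero.1 k2).resolve_right h⟩
  obtain ⟨rfl, rfl⟩ := key
  simp

theorem seg_seg (a v b : P3) (h : AffineIndependent ℝ ![a, v, b]) :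
    a ≠ v ∧ v ≠ b ∧ segment ℝ a v ∩ segment ℝ v b ⊆ {v} := by
  have hi := h.injective
  refine ⟨fun h0 ↦ ?_, fun h0 ↦ ?_, ?_⟩
  · have : (0 : Fin 3) = 1 := hi h0
    exact absurd this (by decide)
  · have : (1 : Fin 3) = 2 := hi h0
    exact absurd this (by decide)
  · rintro x ⟨⟨p, q, hp, hq, hpq, rfl⟩, ⟨r, s, hr, hs, hrs, hx⟩⟩
    rw [tu3_iff] at h
    have h1 := h p (q - r) (-s) (by linarith) (by
      rw [sub_smul, neg_smul]
      have : p • a + (q • v - r • v) + -(s • b) = (p • a + q • v) - (r • v + s • b) := by abel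
      rw [this, hx, sub_self])
    obtain ⟨h2, -, -⟩ := h1
    subst h2
    have : q = 1 := by linarith
    subst this
    simp

/-- `A s, A t, B u` -/
theorem affInd_AAB (s t u : ℝ) (hst : s ≠ t) :
    AffineIndependent ℝ ![ptA s, ptA t, ptB u] := by
  have := sub_ne_zero.2 hst
  apply affInd_of
  right; right
  simp only [ptA, ptB]
  intro h
  apply this
  linarith

/-- `A s, B u, A t` -/
theorem affInd_ABA (s t u : ℝ) (hst : s ≠ t) :
    AffineIndependent ℝ ![ptA s, ptB u, ptA t] := by
  have := sub_ne_zero.2 hst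
  apply affInd_of
  right; right
  simp only [ptA, ptB]
  intro h
  apply this
  linarith

/-- `A s, B u, B v` -/
theorem affInd_ABB (s u v : ℝ) (huv : u ≠ v) :
    AffineIndependent ℝ ![ptA s, ptB u, ptB v] := by
  have := sub_ne_zero.2 huv
  apply affInd_of
  right; left
  simp only [ptA, ptB]
  intro h
  apply this
  linarith

/-- `P, A t, B u` (second coordinate `u ≠ 0`) -/
theorem affInd_PAB (τ t u : ℝ) (hu : u ≠ 0) :
    AffineIndependent ℝ ![ptP τ, ptA t, ptB u] := by
  apply affInd_of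
  right; left
  simp only [ptP, ptA, ptB]
  intro h
  apply hu
  linarith

/-- `A t, P, B u` -/
theorem affInd_APB (τ t u : ℝ) (hu : u ≠ 0) :
    AffineIndependent ℝ ![ptA t, ptP τ, ptB u] := by
  apply affInd_of
  right; left
  simp only [ptP, ptA, ptB]
  intro h
  apply hu
  linarith

/-- `P, B u, A t` -/
theorem affInd_PBA (τ t u : ℝ) (hu : u ≠ 0) :
    AffineIndependent ℝ ![ptP τ, ptB u, ptA t] := by
  apply affInd_of
  right; left
  simp only [ptP, ptA, ptB]
  intro h
  apply hu
  linarith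

/-- `P, A s, A t` -/
theorem affInd_PAA (τ s t : ℝ) (hst : s ≠ t) :
    AffineIndependent ℝ ![ptP τ, ptA s, ptA t] := by
  have := sub_ne_zero.2 hst
  apply affInd_of
  right; right
  simp only [ptP, ptA]
  intro h
  apply this
  linarith

/-- The degenerate case: if `t` lies between `s` and `r` the segments `A s A t` and `A t A r` meet
only in `A t`. -/
theorem seg_seg_AAA (s t r : ℝ) (h : (s < t ∧ t < r) ∨ (r < t ∧ t < s)) :
    ptA s ≠ ptA t ∧ ptA t ≠ ptA r ∧
      segment ℝ (ptA s) (ptA t) ∩ segment ℝ (ptA t) (ptA r) ⊆ {ptA t} := by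
  have hne : ∀ a b : ℝ, a ≠ b → ptA a ≠ ptA b := fun a b hab h0 ↦ hab (congrArg Prod.fst h0)
  refine ⟨hne s t ?_, hne t r ?_, ?_⟩
  · rcases h with h | h
    · exact h.1.ne
    · exact h.2.ne'
  · rcases h with h | h
    · exact h.2.ne
    · exact h.1.ne'
  · rintro x ⟨⟨p, q, hp, hq, hpq, rfl⟩, ⟨p', q', hp', hq', hpq', hx⟩⟩
    have e1 : p' * t + q' * r = p * s + q * t := by
      simpa [ptA] using congrArg Prod.fst hx
    have hx0 : p • ptA s + q • ptA t = ptA (p * s + q * t) := by simp [ptA]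
    rw [hx0, Set.mem_singleton_iff]
    congr 1
    have hq1 : q = 1 - p := by linarith
    have hp1 : p' = 1 - q' := by linarith
    subst hq1 hp1
    have k : q' * (r - t) = p * (s - t) := by linear_combination e1
    rcases h with ⟨h1, h2⟩ | ⟨h1, h2⟩
    · have g1 : 0 ≤ q' * (r - t) := mul_nonneg hq' (sub_pos.2 h2).le
      have g2 : p * (s - t) ≤ 0 := mul_nonpos_of_nonneg_of_nonpos hp (sub_neg.2 h1).le
      linarith
    · have g1 : q' * (r - t) ≤ 0 := mul_nonpos_of_nonneg_of_nonpos hq' (sub_neg.2 h1).le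
      have g2 : 0 ≤ p * (s - t) := mul_nonneg hp (sub_pos.2 h2).le
      linarith

end H46K
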