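import Pool.Agent.Lib.H46K.TW1

/-!
# H46K chunk TW2 (M): the invariant is preserved by cutting and by the symmetry

`Inv.cut`: `w = A s :: (m ++ B v :: l)`, `w' = A s :: B v :: l`. Nodup: sublist. `posA`, `posB`: letters of
`w'` are letters of `w`. `alw`: by `ca_cut` a pair of `w'` is `(A s, B v)` (`Alw` is `True`), or by
`fol_sub_ca` a pair of `w`; `Alw w p q → Alw w' p q` when the letters of `w'` are letters of `w`
(`alw_mono`, case by case).
`Inv.rot`: rotation, `CA` and membership are invariant.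
`Inv.sw`: `CA (w.map sw) p q ↔ CA w (sw p) (sw q)` and `Alw (w.map sw) p q ↔ Alw w (sw p) (sw q)` case by case.
-/

set_option autoImplicit false

namespace H46K

theorem alw_mono {w w' : List Lt} (h : ∀ p ∈ w', p ∈ w) {p q : Lt} (hpq : Alw w p q) :
    Alw w' p q := by
  cases p <;> cases q <;> simp only [Alw] at hpq ⊢ <;>
    first
    | exact fun r hr ↦ hpq r (h _ hr)
    | exact hpq.imp_right fun g ↦ ⟨g.1, fun r hr ↦ g.2 r (h _ hr)⟩

theorem Inv.rot {w w' : List Lt} (h : Inv w) (hr : w ~r w') : Inv w' := by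
  refine ⟨hr.nodup_iff.1 h.nodup, fun s hs ↦ h.posA s (hr.mem_iff.2 hs),
    fun s hs ↦ h.posB s (hr.mem_iff.2 hs), fun p q hpq ↦ ?_⟩
  exact alw_mono (fun p hp ↦ hr.mem_iff.2 hp) (h.alw p q ((ca_rot hr).2 hpq))

theorem Inv.cut (s v : ℕ) (m l : List Lt) (h : Inv (.A s :: (m ++ .B v :: l))) :
    Inv (.A s :: .B v :: l) := by
  have hsub : (Lt.A s :: .B v :: l).Sublist (.A s :: (m ++ .B v :: l)) :=
    (List.sublist_append_right m (.B v :: l)).cons_cons _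
  have hmem : ∀ p ∈ (Lt.A s :: .B v :: l), p ∈ (Lt.A s :: (m ++ .B v :: l)) := fun p hp ↦
    hsub.subset hp
  refine ⟨h.nodup.sublist hsub, fun r hr ↦ h.posA r (hmem _ hr), fun r hr ↦ h.posB r (hmem _ hr),
    fun p q hpq ↦ ?_⟩
  rcases ca_cut _ _ _ hpq with ⟨rfl, rfl⟩ | hf
  · trivial
  · exact alw_mono hmem (h.alw p q (fol_sub_ca _ _ m _ hf))

theorem tw2_sw_inj : Function.Injective sw := fun p q h ↦ by rw [← sw_sw p, h, sw_sw]

theorem tw2_mem_sw {w : List Lt} {p : Lt} : p ∈ w.map sw ↔ sw p ∈ w := by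
  constructor
  · intro h
    obtain ⟨q, hq, rfl⟩ := List.mem_map.1 h
    rwa [sw_sw]
  · intro h
    exact List.mem_map.2 ⟨sw p, h, sw_sw p⟩

theorem tw2_ca_sw {w : List Lt} {p q : Lt} : CA (w.map sw) p q ↔ CA w (sw p) (sw q) := by
  have h := ca_map_iff sw tw2_sw_inj (w := w) (p := sw p) (q := sw q)
  rwa [sw_sw, sw_sw] at h

theorem Inv.sw {w : List Lt} (h : Inv w) : Inv (w.map sw) := by
  refine ⟨h.nodup.map tw2_sw_inj, fun s hs ↦ h.posB s (tw2_mem_sw.1 hs),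
    fun s hs ↦ h.posA s (tw2_mem_sw.1 hs), fun p q hpq ↦ ?_⟩
  have h1 := h.alw _ _ (tw2_ca_sw.1 hpq)
  cases p <;> cases q <;> simp only [Alw, H46K.sw] at h1 ⊢ <;>
    first
    | exact fun r hr ↦ h1 r (tw2_mem_sw.1 hr)
    | exact h1.imp_right fun g ↦ ⟨g.1, fun r hr ↦ g.2 r (tw2_mem_sw.1 hr)⟩

theorem rk_sw (w : List Lt) : rk (w.map sw) = Prod.swap '' rk w := by
  ext ⟨a, b⟩
  rw [Set.mem_image]
  constructor
  · intro h
    refine ⟨(b, a), ?_, rfl⟩
    rcases h with h | h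
    · exact Or.inr (tw2_ca_sw.1 h)
    · exact Or.inl (tw2_ca_sw.1 h)
  · rintro ⟨⟨b', a'⟩, h, h2⟩
    simp only [Prod.swap_prod_mk, Prod.mk.injEq] at h2
    obtain ⟨rfl, rfl⟩ := h2
    rcases h with h | h
    · exact Or.inr (tw2_ca_sw.2 h)
    · exact Or.inl (tw2_ca_sw.2 h)

theorem rk_rot {w w' : List Lt} (hr : w ~r w') : rk w = rk w' := by
  ext x
  exact or_congr (ca_rot hr) (ca_rot hr)

/-- Rooks after cutting: `m` ends with the letter `A t`. -/
theorem rk_cut (s t v : ℕ) (m l : List Lt) (h : (Lt.A s :: ((m ++ [.A t]) ++ .B v :: l)).Nodup) :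
    rk (.A s :: .B v :: l) ⊆ mrg s t '' rk (.A s :: ((m ++ [.A t]) ++ .B v :: l)) := by
  rintro ⟨a, b⟩ hx
  have key : ∀ p q, Fol (.B v :: (l ++ [.A s])) p q →
      CA (.A s :: ((m ++ [.A t]) ++ .B v :: l)) p q ∧ p ≠ .A t ∧ q ≠ .A t := by
    intro p q hpq
    obtain ⟨h1, h2, -⟩ := fol_facts (.A s) (.B v) (m ++ [.A t]) l h hpq
    refine ⟨fol_sub_ca _ _ _ _ hpq, ?_, ?_⟩
    · rintro rfl
      exact h1 (by simp)
    · rintro rfl
      exact h2 (by simp)
  rcases hx with hx | hx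
  · rcases ca_cut _ _ _ hx with ⟨h1, h2⟩ | hf
    · simp only [Lt.A.injEq, Lt.B.injEq] at h1 h2
      subst h1 h2
      refine ⟨(t, b), Or.inl ?_, by simp [mrg]⟩
      have hr : (Lt.A a :: ((m ++ [.A t]) ++ .B b :: l)) ~r (.A t :: .B b :: (l ++ (.A a :: m))) := by
        have e : Lt.A a :: ((m ++ [.A t]) ++ .B b :: l) = (.A a :: m) ++ (.A t :: .B b :: l) := by
          simp
        rw [e]
        exact tw1_rotated _ _
      exact ⟨_, hr⟩
    · obtain ⟨h1, h2, h3⟩ := key _ _ hf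
      refine ⟨(a, b), Or.inl h1, ?_⟩
      have : a ≠ t := fun h0 ↦ h2 (by rw [h0])
      simp [mrg, this]
  · rcases ca_cut _ _ _ hx with ⟨h1, h2⟩ | hf
    · simp at h1
    · obtain ⟨h1, h2, h3⟩ := key _ _ hf
      refine ⟨(a, b), Or.inr h1, ?_⟩
      have : a ≠ t := fun h0 ↦ h3 (by rw [h0])
      simp [mrg, this]

end H46K
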