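import Pool.Agent.Lib.H46K.TU1
import Pool.Agent.Lib.H46K.TU2
import Pool.Agent.Lib.H46K.TU3
import Pool.Agent.Lib.H46K.TG1
import Pool.Agent.Lib.H46K.TG2
import Pool.Agent.Lib.H46K.TW2

/-!
# H46K chunk TS5 (M): words of three letters

`three_letters`: `w` has length `3`, satisfies `Inv` and contains an `A` letter and a `B` letter. The third
letter is not `P` (its two neighbours would be the other two letters, one of them a `B` letter, but
`Alw` forbids `P, B`) and not `Q`. So after rotation `w = A s, A t, B u` or `w = B s, B t, A u`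
(`s ≠ t`): `Unknot.tri` with `affInd_AAB`, resp. `affInd_ABB` (rotate).
-/


set_option autoImplicit false

namespace H46K

theorem ts5_ne {s t : ℕ} (h : s ≠ t) : (s : ℝ) ≠ (t : ℝ) := fun h' => h (by exact_mod_cast h')

theorem ts5_core (s : ℕ) (x y : Lt) (h : Inv [.A s, x, y]) (hB : ∃ u, Lt.B u ∈ [Lt.A s, x, y]) :
    Unknot ([Lt.A s, x, y].map pos) := by
  have c1 : CA [Lt.A s, x, y] (.A s) x := ⟨[y], List.IsRotated.refl _⟩
  have c2 : CA [Lt.A s, x, y] x y := ⟨[.A s], ⟨1, by simp⟩⟩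
  have c3 : CA [Lt.A s, x, y] y (.A s) := ⟨[x], ⟨2, by simp⟩⟩
  have a1 := h.alw _ _ c1
  have a2 := h.alw _ _ c2
  have a3 := h.alw _ _ c3
  have n1 := ca_ne h.nodup c1
  have n2 := ca_ne h.nodup c2
  have n3 := ca_ne h.nodup c3
  have hxy : (∃ u, x = .B u) ∨ (∃ u, y = .B u) := by
    obtain ⟨u, hu⟩ := hB
    simp only [List.mem_cons, List.not_mem_nil, or_false] at hu
    rcases hu with h | h | h
    · cases h
    · exact Or.inl ⟨u, h.symm⟩
    · exact Or.inr ⟨u, h.symm⟩
  rcases hxy with ⟨u, rfl⟩ | ⟨u, rfl⟩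
  · cases y with
    | A t =>
      refine Unknot.tri _ _ _ (affInd_ABA s t u (ts5_ne ?_))
      rintro rfl
      exact n3 rfl
    | B v =>
      refine Unknot.tri _ _ _ (affInd_ABB s u v (ts5_ne ?_))
      rintro rfl
      exact n2 rfl
    | P => exact absurd a2 id
    | Q => exact absurd a3 id
  · cases x with
    | A t =>
      refine Unknot.tri _ _ _ (affInd_AAB s t u (ts5_ne ?_))
      rintro rfl
      exact n1 rfl
    | B v =>
      refine Unknot.tri _ _ _ (affInd_ABB s v u (ts5_ne ?_))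
      rintro rfl
      exact n2 rfl
    | P => exact absurd a2 id
    | Q => exact absurd a1 id

theorem three_letters (w : List Lt) (h : Inv w) (h3 : w.length = 3) (hA : ∃ s, Lt.A s ∈ w)
    (hB : ∃ u, Lt.B u ∈ w) : Unknot (w.map pos) := by
  obtain ⟨s, hs⟩ := hA
  obtain ⟨l₁, l₂, rfl⟩ := List.append_of_mem hs
  have hr : (l₁ ++ Lt.A s :: l₂) ~r (Lt.A s :: (l₂ ++ l₁)) := tw1_rotated l₁ (Lt.A s :: l₂)
  have hlen : (l₂ ++ l₁).length = 2 := by
    simp only [List.length_append, List.length_cons] at h3 ⊢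
    omega
  obtain ⟨x, y, hxy⟩ := List.length_eq_two.1 hlen
  rw [hxy] at hr
  refine Unknot.rot _ _ (hr.symm.map pos) (ts5_core s x y (h.rot hr) ?_)
  obtain ⟨u, hu⟩ := hB
  exact ⟨u, hr.mem_iff.1 hu⟩

end H46K
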