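import Pool.Agent.Lib.H46K.TU1
import Pool.Agent.Lib.H46K.TU2
import Pool.Agent.Lib.H46K.TU3
import Pool.Agent.Lib.H46K.TG1
import Pool.Agent.Lib.H46K.TG2
import Pool.Agent.Lib.H46K.TW2

/-!
# H46K chunk TS6 (M/L): words on one line

`pure_rows`: `Inv w`, all letters are `A r` or `P`, length at least `3`. `P ∈ w`: otherwise let `A m` be the
letter with the largest index, `A p`, `A q` its two neighbours (different since length `≥ 3`, `ca_exists_*`);
`p, q < m` and no letter strictly between `p` and `m` nor `q` and `m` gives `p = q`. Induction on the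
length: length `3`: `w ~r P, A s, A t`: `affInd_PAA`. Length `≥ 4`: `w ~r P, A s, A t, A r, l`; since
`A s, A t` and `A t, A r` are adjacent and `s ≠ r`, `t` is strictly between `s` and `r`. The word without `A t`
satisfies `Inv` (`CA` pairs: old pairs and `(A s, A r)`; no letter other than `A t` between `s` and `r`).
Rotate to `A s, A t, A r, l, P` and use `ins_of` with `a = A s`, `v = A t`, `b = A r`; `seg_seg_AAA`; the
triangle is the segment from `A s` to `A r`; sides of the path `A r, l, P, A s`: sides `A p, A q`: `p, q ≠ t`, `p, q`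
not strictly between `s` and `r`, and not `{p,q} = {s,r}`, no letter between `p` and `q`, so they meet the
segment at most in `A s`, `A r`; sides `A p, P`: third coordinate `0` forces `x = A p`, `p = s` or `p = r`.
-/

set_option autoImplicit false

namespace H46K

theorem ts6_inj {a b : ℝ} (h : ptA a = ptA b) : a = b := congrArg Prod.fst h

theorem ts6_hull (s t r : ℝ) (x : P3) (hx : x ∈ convexHull ℝ {ptA s, ptA t, ptA r})
    (h : (s < t ∧ t < r) ∨ (r < t ∧ t < s)) :
    ∃ ξ, x = ptA ξ ∧ ((s ≤ ξ ∧ ξ ≤ r) ∨ (r ≤ ξ ∧ ξ ≤ s)) := by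
  obtain ⟨a, b, c, ha, hb, hc, habc, rfl⟩ := (mem_hull3 _ _ _ _).1 hx
  refine ⟨a * s + b * t + c * r, by simp [ptA], ?_⟩
  have ha' : a = 1 - b - c := by linarith
  subst ha'
  rcases h with ⟨h1, h2⟩ | ⟨h1, h2⟩
  · left
    constructor
    · nlinarith [mul_nonneg hb (sub_nonneg.2 h1.le), mul_nonneg hc (sub_nonneg.2 (h1.trans h2).le)]
    · nlinarith [mul_nonneg ha (sub_nonneg.2 (h1.trans h2).le), mul_nonneg hb (sub_nonneg.2 h2.le)]
  · right
    constructor
    · nlinarith [mul_nonneg ha (sub_nonneg.2 (h1.trans h2).le), mul_nonneg hb (sub_nonneg.2 h1.le)]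
    · nlinarith [mul_nonneg hb (sub_nonneg.2 h2.le), mul_nonneg hc (sub_nonneg.2 (h1.trans h2).le)]

theorem ts6_seg (p q ξ : ℝ) (hx : ptA ξ ∈ segment ℝ (ptA p) (ptA q)) :
    (p ≤ ξ ∧ ξ ≤ q) ∨ (q ≤ ξ ∧ ξ ≤ p) := by
  obtain ⟨a, b, ha, hb, hab, h⟩ := hx
  have e : a * p + b * q = ξ := by
    simpa [ptA] using congrArg Prod.fst h
  have ha' : a = 1 - b := by linarith
  subst ha'
  rcases le_total p q with h1 | h1
  · left
    constructor
    · nlinarith [mul_nonneg hb (sub_nonneg.2 h1)]
    · nlinarith [mul_nonneg ha (sub_nonneg.2 h1)]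
  · right
    constructor
    · nlinarith [mul_nonneg ha (sub_nonneg.2 h1)]
    · nlinarith [mul_nonneg hb (sub_nonneg.2 h1)]

theorem ts6_segP (p ξ : ℝ) (hx : ptA ξ ∈ segment ℝ (ptA p) (ptP (5 / 2))) : ξ = p := by
  obtain ⟨a, b, ha, hb, hab, h⟩ := hx
  have e : a * p + b * (-4 * (5 / 2)) = ξ := by
    simpa [ptA, ptP] using congrArg Prod.fst h
  have e2 : b * 5 = 0 := by
    simpa [ptA, ptP] using congrArg (fun q : P3 => q.2.2) h
  have hb' : b = 0 := by linarith
  subst hb'
  have ha' : a = 1 := by linarith
  subst ha'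
  linarith

/-- `P` is a letter -/
theorem ts6_P (w : List Lt) (h : Inv w) (h3 : 3 ≤ w.length)
    (hw : ∀ p ∈ w, p = .P ∨ ∃ s, p = .A s) : Lt.P ∈ w := by
  by_contra hP
  have hw' : ∀ p ∈ w, ∃ s, p = .A s := fun p hp => (hw p hp).resolve_left (fun e => hP (e ▸ hp))
  -- the largest index
  obtain ⟨M, hM, hmax⟩ : ∃ M, Lt.A M ∈ w ∧ ∀ r, Lt.A r ∈ w → r ≤ M := by
    have hbd : ∃ B, ∀ r, Lt.A r ∈ w → r ≤ B := by
      clear h h3 hw hP hw'
      induction w with
      | nil => exact ⟨0, fun r hr => by cases hr⟩
      | cons x w ih =>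
        obtain ⟨B, hB⟩ := ih
        cases x with
        | A t =>
          refine ⟨max t B, fun r hr => ?_⟩
          rcases List.mem_cons.1 hr with h | h
          · injection h with h
            rw [h]
            exact le_max_left _ _
          · exact (hB r h).trans (le_max_right _ _)
        | B t =>
          refine ⟨B, fun r hr => ?_⟩
          rcases List.mem_cons.1 hr with h | h
          · cases h
          · exact hB r h
        | P =>
          refine ⟨B, fun r hr => ?_⟩
          rcases List.mem_cons.1 hr with h | h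
          · cases h
          · exact hB r h
        | Q =>
          refine ⟨B, fun r hr => ?_⟩
          rcases List.mem_cons.1 hr with h | h
          · cases h
          · exact hB r h
    obtain ⟨B, hB⟩ := hbd
    have hex : ∃ r, Lt.A r ∈ w := by
      cases w with
      | nil => simp at h3
      | cons x w =>
        obtain ⟨s, rfl⟩ := hw' x List.mem_cons_self
        exact ⟨s, List.mem_cons_self⟩
    classical
    have hfin : {r | Lt.A r ∈ w}.Finite := (Set.finite_Iic B).subset (fun r hr => hB r hr)
    obtain ⟨M, hM, h1⟩ := hfin.exists_maximal (s := {r | Lt.A r ∈ w}) hex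
    refine ⟨M, hM, fun r hr => ?_⟩
    by_contra hlt
    have := h1 hr (by omega)
    omega
  obtain ⟨q, hq⟩ := ca_exists_right (by omega) hM
  obtain ⟨p, hp⟩ := ca_exists_left (by omega) hM
  obtain ⟨q', rfl⟩ := hw' q (ca_mem hq).2
  obtain ⟨p', rfl⟩ := hw' p (ca_mem hp).1
  have hq1 : M ≠ q' := fun e => ca_ne h.nodup hq (e ▸ rfl)
  have hp1 : p' ≠ M := fun e => ca_ne h.nodup hp (e ▸ rfl)
  have aq : ¬ Btw M q' p' := h.alw _ _ hq p' (ca_mem hp).1
  have ap : ¬ Btw p' M q' := h.alw _ _ hp q' (ca_mem hq).2
  have mq := hmax q' (ca_mem hq).2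
  have mp := hmax p' (ca_mem hp).1
  have e : p' = q' := by
    unfold Btw at aq ap
    omega
  subst e
  obtain ⟨l, hl⟩ := hq
  have hn := hl.nodup_iff.1 h.nodup
  have hlen : (Lt.A M :: .A p' :: l).length = w.length := hl.symm.perm.length_eq
  cases l with
  | nil => simp at hlen; omega
  | cons x l =>
    have c1 : CA w (.A p') x := by
      refine ⟨l ++ [.A M], hl.trans ?_⟩
      simpa using tw1_rotated [Lt.A M] (.A p' :: x :: l)
    have e2 := ca_unique_right h.nodup c1 hp
    subst e2
    simp at hn

theorem ts6_main (N : ℕ) : ∀ w : List Lt, w.length = N → Inv w → 3 ≤ w.length →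
    (∀ p ∈ w, p = .P ∨ ∃ s, p = .A s) → Unknot (w.map pos) := by
  induction N with
  | zero =>
    intro w h0 h h3 hw
    omega
  | succ N ih =>
    intro w hN h h3 hw
    have hP := ts6_P w h h3 hw
    obtain ⟨l₁, l₂, hl12⟩ := List.append_of_mem hP
    have hr : w ~r (Lt.P :: (l₂ ++ l₁)) := by
      rw [hl12]
      exact tw1_rotated l₁ (Lt.P :: l₂)
    obtain ⟨l0, hl0⟩ : ∃ l0, l0 = l₂ ++ l₁ := ⟨_, rfl⟩
    rw [← hl0] at hr
    have hlen : (Lt.P :: l0).length = w.length := hr.symm.perm.length_eq
    have hI := h.rot hr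
    have hA : ∀ x ∈ l0, ∃ s, x = Lt.A s := by
      intro x hx
      have hxw : x ∈ w := hr.mem_iff.2 (List.mem_cons_of_mem _ hx)
      refine (hw x hxw).resolve_left ?_
      rintro rfl
      exact (List.nodup_cons.1 hI.nodup).1 hx
    clear hl0 hl12
    match l0, hr, hlen, hI, hA with
    | [], _, hlen, _, _ => simp at hlen; omega
    | [_], _, hlen, _, _ => simp at hlen; omega
    | [x, y], hr, hlen, hI, hA =>
      obtain ⟨s, rfl⟩ := hA x (by simp)
      obtain ⟨t, rfl⟩ := hA y (by simp)
      refine Unknot.rot _ _ (hr.symm.map pos) ?_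
      refine Unknot.tri _ _ _ (affInd_PAA (5 / 2) s t ?_)
      intro e
      have e' : s = t := by exact_mod_cast e
      subst e'
      have := hI.nodup
      simp at this
    | x :: y :: z :: l, hr, hlen, hI, hA =>
      obtain ⟨s, rfl⟩ := hA x (by simp)
      obtain ⟨t, rfl⟩ := hA y (by simp)
      obtain ⟨r, rfl⟩ := hA z (by simp)
      have hr2 : w ~r (Lt.A s :: ([.A t] ++ .A r :: (l ++ [.P]))) := by
        refine hr.trans ?_
        have := tu1_rot Lt.P (.A s :: .A t :: .A r :: l)
        simpa using this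
      have hI2 := h.rot hr2
      -- t is between s and r
      have c1 : CA (Lt.A s :: ([.A t] ++ .A r :: (l ++ [.P]))) (.A s) (.A t) :=
        ⟨_, List.IsRotated.refl _⟩
      have c2 : CA (Lt.A s :: ([.A t] ++ .A r :: (l ++ [.P]))) (.A t) (.A r) :=
        ⟨l ++ [.P] ++ [.A s], by
          have := tu1_rot (Lt.A s) ([.A t] ++ .A r :: (l ++ [.P]))
          simpa using this⟩
      have memS : Lt.A s ∈ (Lt.A s :: ([.A t] ++ .A r :: (l ++ [.P]))) := by simp
      have memT : Lt.A t ∈ (Lt.A s :: ([.A t] ++ .A r :: (l ++ [.P]))) := by simp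
      have memR : Lt.A r ∈ (Lt.A s :: ([.A t] ++ .A r :: (l ++ [.P]))) := by simp
      have a1 : ∀ x, Lt.A x ∈ (Lt.A s :: ([.A t] ++ .A r :: (l ++ [.P]))) → ¬ Btw s t x :=
        hI2.alw _ _ c1
      have a2 : ∀ x, Lt.A x ∈ (Lt.A s :: ([.A t] ++ .A r :: (l ++ [.P]))) → ¬ Btw t r x :=
        hI2.alw _ _ c2
      have nst : s ≠ t := fun e => ca_ne hI2.nodup c1 (e ▸ rfl)
      have ntr : t ≠ r := fun e => ca_ne hI2.nodup c2 (e ▸ rfl)
      have nsr : s ≠ r := by
        rintro rfl
        have := hI2.nodup
        simp at this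
      have hb : Btw s r t := by
        have b1 := a1 r memR
        have b2 := a2 s memS
        unfold Btw at b1 b2 ⊢
        omega
      have hbR : ((s : ℝ) < t ∧ (t : ℝ) < r) ∨ ((r : ℝ) < t ∧ (t : ℝ) < s) := by
        rcases hb with ⟨h1, h2⟩ | ⟨h1, h2⟩
        · exact Or.inl ⟨by exact_mod_cast h1, by exact_mod_cast h2⟩
        · exact Or.inr ⟨by exact_mod_cast h1, by exact_mod_cast h2⟩
      -- the shorter word
      have hsub : (Lt.A s :: .A r :: (l ++ [.P])).Sublist
          (Lt.A s :: ([.A t] ++ .A r :: (l ++ [.P]))) :=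
        (List.sublist_append_right [Lt.A t] (.A r :: (l ++ [.P]))).cons_cons _
      have hI3 : Inv (Lt.A s :: .A r :: (l ++ [.P])) := by
        refine ⟨hI2.nodup.sublist hsub, fun x hx => hI2.posA x (hsub.subset hx),
          fun x hx => hI2.posB x (hsub.subset hx), fun p q hpq => ?_⟩
        rcases ca_cut _ _ _ hpq with ⟨rfl, rfl⟩ | hf
        · intro x hx
          have hx' := hsub.subset hx
          have hxt : x ≠ t := by
            rintro rfl
            have := hI2.nodup
            simp only [List.singleton_append, List.nodup_cons] at this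
            rcases List.mem_cons.1 hx with hx1 | hx1
            · injection hx1 with hx1
              exact nst hx1.symm
            · exact this.2.1 hx1
          have b1 := a1 x hx'
          have b2 := a2 x hx'
          unfold Btw at b1 b2 hb ⊢
          omega
        · exact alw_mono (fun x hx => hsub.subset hx)
            (hI2.alw p q (fol_sub_ca _ _ [Lt.A t] (l ++ [.P]) hf))
      have hlen3 : (Lt.A s :: .A r :: (l ++ [.P])).length = N := by
        simp only [List.length_cons, List.length_append, List.length_nil] at hlen ⊢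
        omega
      have hU : Unknot ((Lt.A s :: .A r :: (l ++ [.P])).map pos) := by
        refine ih _ hlen3 hI3 ?_ ?_
        · simp only [List.length_cons, List.length_append, List.length_nil]
          omega
        · intro p hp
          exact hw p (hr2.mem_iff.2 (hsub.subset hp))
      refine Unknot.rot _ _ (hr2.symm.map pos) ?_
      have hfin : Unknot (pos (.A s) :: pos (.A t) :: pos (.A r) :: (l ++ [Lt.P]).map pos) := by
        obtain ⟨g1, g2, g3⟩ := seg_seg_AAA (s : ℝ) (t : ℝ) (r : ℝ) hbR
        refine ins_of _ _ _ _ g1 g2 g3 ?_ hU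
        intro p q hpq x hx hx'
        have e : pos (.A r) :: ((l ++ [Lt.P]).map pos ++ [pos (.A s)]) =
            (Lt.A r :: ((l ++ [.P]) ++ [.A s])).map pos := by simp
        rw [e] at hpq
        obtain ⟨p', q', hf, rfl, rfl⟩ := (tu1_fol_map _ _ _ _).1 hpq
        obtain ⟨ξ, rfl, hξ⟩ := ts6_hull _ _ _ x hx hbR
        have hca := fol_sub_ca (.A s) (.A r) [.A t] (l ++ [.P]) hf
        obtain ⟨f1, f2, f3, f4, f5⟩ := fol_facts (.A s) (.A r) [.A t] (l ++ [.P]) hI2.nodup hf
        have f5' := f5 (by simp)
        have hmp := (ca_mem hca).1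
        have hmq := (ca_mem hca).2
        have halw := hI2.alw _ _ hca
        have kp := hw p' (hr2.mem_iff.2 hmp)
        have kq := hw q' (hr2.mem_iff.2 hmq)
        -- the first coordinate
        have hgoal : ξ = s ∨ ξ = r → (ptA ξ = pos (.A s) ∨ ptA ξ = pos (.A r)) := by
          rintro (h | h)
          · left; rw [h]; rfl
          · right; rw [h]; rfl
        apply hgoal
        rcases kp with rfl | ⟨p, rfl⟩
        · rcases kq with rfl | ⟨q, rfl⟩
          · exact absurd halw id
          · have hξq : ξ = q := by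
              have hx2 : ptA ξ ∈ segment ℝ (ptA q) (ptP (5 / 2)) := by
                rw [segment_symm]
                exact hx'
              exact ts6_segP q ξ hx2
            have n1 : q ≠ t := by
              rintro rfl
              exact f2 (by simp)
            have b1 := a1 q hmq
            have b2 := a2 q hmq
            subst hξq
            have hq' : (s ≤ q ∧ q ≤ r) ∨ (r ≤ q ∧ q ≤ s) := by exact_mod_cast hξ
            have : q = s ∨ q = r := by
              unfold Btw at b1 b2 hb
              omega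
            exact_mod_cast this
        · rcases kq with rfl | ⟨q, rfl⟩
          · have hξq : ξ = p := ts6_segP p ξ hx'
            have n1 : p ≠ t := by
              rintro rfl
              exact f1 (by simp)
            have b1 := a1 p hmp
            have b2 := a2 p hmp
            subst hξq
            have hq' : (s ≤ p ∧ p ≤ r) ∨ (r ≤ p ∧ p ≤ s) := by exact_mod_cast hξ
            have : p = s ∨ p = r := by
              unfold Btw at b1 b2 hb
              omega
            exact_mod_cast this
          · have hxs := ts6_seg p q ξ hx'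
            have n1 : p ≠ t := by
              rintro rfl
              exact f1 (by simp)
            have n2 : q ≠ t := by
              rintro rfl
              exact f2 (by simp)
            have n3 : p ≠ s := fun e => f3 (by rw [e])
            have n4 : q ≠ r := fun e => f4 (by rw [e])
            have n5 : ¬ (p = r ∧ q = s) := fun e => f5' (by rw [e.1, e.2]; exact ⟨rfl, rfl⟩)
            have b1 := a1 p hmp
            have b2 := a2 p hmp
            have b3 := a1 q hmq
            have b4 := a2 q hmq
            have b5 : ¬ Btw p q s := halw s memS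
            have b6 : ¬ Btw p q r := halw r memR
            have key : (p ≤ s ∧ q ≤ s ∧ s ≤ r) ∨ (s ≤ p ∧ s ≤ q ∧ r ≤ s) ∨
                (r ≤ p ∧ r ≤ q ∧ s ≤ r) ∨ (p ≤ r ∧ q ≤ r ∧ r ≤ s) := by
              unfold Btw at b1 b2 b3 b4 b5 b6 hb
              omega
            rcases key with ⟨k1, k2, k3⟩ | ⟨k1, k2, k3⟩ | ⟨k1, k2, k3⟩ | ⟨k1, k2, k3⟩
            · have k1' : (p : ℝ) ≤ s := by exact_mod_cast k1
              have k2' : (q : ℝ) ≤ s := by exact_mod_cast k2
              have k3' : (s : ℝ) ≤ r := by exact_mod_cast k3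
              left
              rcases hξ with ⟨z1, z2⟩ | ⟨z1, z2⟩ <;> rcases hxs with ⟨z3, z4⟩ | ⟨z3, z4⟩ <;>
                linarith
            · have k1' : (s : ℝ) ≤ p := by exact_mod_cast k1
              have k2' : (s : ℝ) ≤ q := by exact_mod_cast k2
              have k3' : (r : ℝ) ≤ s := by exact_mod_cast k3
              left
              rcases hξ with ⟨z1, z2⟩ | ⟨z1, z2⟩ <;> rcases hxs with ⟨z3, z4⟩ | ⟨z3, z4⟩ <;>
                linarith
            · have k1' : (r : ℝ) ≤ p := by exact_mod_cast k1
              have k2' : (r : ℝ) ≤ q := by exact_mod_cast k2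
              have k3' : (s : ℝ) ≤ r := by exact_mod_cast k3
              right
              rcases hξ with ⟨z1, z2⟩ | ⟨z1, z2⟩ <;> rcases hxs with ⟨z3, z4⟩ | ⟨z3, z4⟩ <;>
                linarith
            · have k1' : (p : ℝ) ≤ r := by exact_mod_cast k1
              have k2' : (q : ℝ) ≤ r := by exact_mod_cast k2
              have k3' : (r : ℝ) ≤ s := by exact_mod_cast k3
              right
              rcases hξ with ⟨z1, z2⟩ | ⟨z1, z2⟩ <;> rcases hxs with ⟨z3, z4⟩ | ⟨z3, z4⟩ <;>
                linarith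
      simpa using hfin

theorem pure_rows (w : List Lt) (h : Inv w) (h3 : 3 ≤ w.length)
    (hw : ∀ p ∈ w, p = .P ∨ ∃ s, p = .A s) : Unknot (w.map pos) :=
  ts6_main w.length w rfl h h3 hw

end H46K
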