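import Pool.Agent.Lib.H46K.T0

/-!
# H46K chunk TW4 (M): ring patterns: extension, subsets, transposition

`mono_ext`: an integer function on a nonempty set `R` of natural numbers, monotone on `R`, extends to
a monotone function with the same values: `h'(r) = h(the largest r' in R with r' ≤ r)` if there is one,
otherwise `h(min R)`.

`ring_mono`: `X' ⊆ X`, `Ring k d e X'` gives `Ring k d e X`: extend `h` from the row support of `X'`, `g` from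
the column support (nonempty because of the hit conditions), keep the hits.

`ring_transpose`: `h' = g`, `g' = h + 2 d`.  Conditions for the transposed set: need
for all `i, s`: some `p` with `g ≡ e (2 i)`, `h + 2 d ≡ d (2 (i+1)) + s`, i.e. `h ≡ d (2 i) + s`: the
second hit condition with `j = i`. And for all `j, s`: some `p` with `g ≡ e (2 j) + s`, `h + 2 d ≡ d (2 j)`,
i.e. `h ≡ d (2 (j-1))`, `g ≡ e (2 ((j-1)+1)) + s`: the first hit condition with `i = j - 1`.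
-/

set_option autoImplicit false

namespace H46K

theorem mono_ext (R : Set ℕ) (hR : R.Nonempty) (h : ℕ → ℤ)
    (hm : ∀ a ∈ R, ∀ b ∈ R, a ≤ b → h a ≤ h b) :
    ∃ h' : ℕ → ℤ, Monotone h' ∧ (∀ a ∈ R, h' a = h a) ∧ ∀ a, ∃ b ∈ R, h' a = h b := by
  classical
  let f : ℕ → ℕ := fun a ↦ if ∃ b ∈ R, b ≤ a then Nat.findGreatest (fun x ↦ x ∈ R) a else sInf R
  have hf : ∀ a, f a ∈ R := by
    intro a
    simp only [f]
    split_ifs with h1
    · obtain ⟨b, hb, hba⟩ := h1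
      exact Nat.findGreatest_spec (P := fun x ↦ x ∈ R) hba hb
    · exact Nat.sInf_mem hR
  have hfm : ∀ a b, a ≤ b → f a ≤ f b := by
    intro a b hab
    by_cases h1 : ∃ c ∈ R, c ≤ a
    · obtain ⟨c, hc, hca⟩ := h1
      have h2 : ∃ c ∈ R, c ≤ b := ⟨c, hc, hca.trans hab⟩
      simp only [f]
      rw [if_pos ⟨c, hc, hca⟩, if_pos h2]
      exact Nat.findGreatest_mono_right _ hab
    · have : f a = sInf R := by
        simp only [f]
        rw [if_neg h1]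
      rw [this]
      exact Nat.sInf_le (hf b)
  have hfa : ∀ a ∈ R, f a = a := by
    intro a ha
    have h1 : ∃ b ∈ R, b ≤ a := ⟨a, ha, le_rfl⟩
    simp only [f]
    rw [if_pos h1]
    exact le_antisymm (Nat.findGreatest_le a) (Nat.le_findGreatest le_rfl ha)
  exact ⟨fun a ↦ h (f a), fun a b hab ↦ hm _ (hf a) _ (hf b) (hfm a b hab),
    fun a ha ↦ by simp only [hfa a ha], fun a ↦ ⟨f a, hf a, rfl⟩⟩

/-- globally monotone labellings -/
theorem tw4_ext {k d e : ℤ} {X' : Set (ℕ × ℕ)} (h : Ring k d e X') :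
    ∃ h' g' : ℕ → ℤ, Monotone h' ∧ Monotone g' ∧ (∀ a b, h' a ≤ h' b + 2 * k) ∧
      (∀ a b, g' a ≤ g' b + 2 * k) ∧
      (∀ i s : ℤ, (s = 1 ∨ s = -1) → ∃ p ∈ X',
        h' p.1 ≡ d * (2 * i) [ZMOD 2 * k] ∧ g' p.2 ≡ e * (2 * (i + 1)) + s [ZMOD 2 * k]) ∧
      (∀ j s : ℤ, (s = 1 ∨ s = -1) → ∃ p ∈ X',
        h' p.1 ≡ d * (2 * j) + s [ZMOD 2 * k] ∧ g' p.2 ≡ e * (2 * j) [ZMOD 2 * k]) := by
  obtain ⟨h, g, h1, h2, h3, h4, h5, h6⟩ := h
  obtain ⟨p0, hp0, -⟩ := h5 0 1 (Or.inl rfl)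
  obtain ⟨h', a1, a2, a3⟩ := mono_ext (Prod.fst '' X') ⟨_, p0, hp0, rfl⟩ h (by
    rintro _ ⟨p, hp, rfl⟩ _ ⟨q, hq, rfl⟩ hpq
    exact h1 p hp q hq hpq)
  obtain ⟨g', b1, b2, b3⟩ := mono_ext (Prod.snd '' X') ⟨_, p0, hp0, rfl⟩ g (by
    rintro _ ⟨p, hp, rfl⟩ _ ⟨q, hq, rfl⟩ hpq
    exact h3 p hp q hq hpq)
  refine ⟨h', g', a1, b1, ?_, ?_, ?_, ?_⟩
  · intro a b
    obtain ⟨_, ⟨p, hp, rfl⟩, e1⟩ := a3 a
    obtain ⟨_, ⟨q, hq, rfl⟩, e2⟩ := a3 b
    rw [e1, e2]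
    exact h2 p hp q hq
  · intro a b
    obtain ⟨_, ⟨p, hp, rfl⟩, e1⟩ := b3 a
    obtain ⟨_, ⟨q, hq, rfl⟩, e2⟩ := b3 b
    rw [e1, e2]
    exact h4 p hp q hq
  · intro i s hs
    obtain ⟨p, hp, c1, c2⟩ := h5 i s hs
    refine ⟨p, hp, ?_, ?_⟩
    · rw [a2 _ ⟨p, hp, rfl⟩]
      exact c1
    · rw [b2 _ ⟨p, hp, rfl⟩]
      exact c2
  · intro i s hs
    obtain ⟨p, hp, c1, c2⟩ := h6 i s hs
    refine ⟨p, hp, ?_, ?_⟩
    · rw [a2 _ ⟨p, hp, rfl⟩]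
      exact c1
    · rw [b2 _ ⟨p, hp, rfl⟩]
      exact c2

theorem ring_mono {k d e : ℤ} {X X' : Set (ℕ × ℕ)} (hX : X' ⊆ X) (h : Ring k d e X') :
    Ring k d e X := by
  obtain ⟨h', g', a1, a2, a3, a4, a5, a6⟩ := tw4_ext h
  refine ⟨h', g', fun p _ q _ hpq ↦ a1 hpq, fun p _ q _ ↦ a3 _ _, fun p _ q _ hpq ↦ a2 hpq,
    fun p _ q _ ↦ a4 _ _, ?_, ?_⟩
  · intro i s hs
    obtain ⟨p, hp, c⟩ := a5 i s hs
    exact ⟨p, hX hp, c⟩
  · intro i s hs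
    obtain ⟨p, hp, c⟩ := a6 i s hs
    exact ⟨p, hX hp, c⟩

theorem ring_transpose {k d e : ℤ} {X : Set (ℕ × ℕ)} (h : Ring k d e (Prod.swap '' X)) :
    Ring k e d X := by
  obtain ⟨h, g, h1, h2, h3, h4, h5, h6⟩ := h
  have hmem : ∀ p ∈ X, p.swap ∈ Prod.swap '' X := fun p hp ↦ ⟨p, hp, rfl⟩
  refine ⟨g, fun b ↦ h b + 2 * d, ?_, ?_, ?_, ?_, ?_, ?_⟩
  · intro p hp q hq hpq
    exact h3 _ (hmem p hp) _ (hmem q hq) hpq
  · intro p hp q hq
    exact h4 _ (hmem p hp) _ (hmem q hq)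
  · intro p hp q hq hpq
    have := h1 _ (hmem p hp) _ (hmem q hq) hpq
    simp only [Prod.fst_swap] at this
    linarith
  · intro p hp q hq
    have := h2 _ (hmem p hp) _ (hmem q hq)
    simp only [Prod.fst_swap] at this
    linarith
  · intro i s hs
    obtain ⟨_, ⟨p, hp, rfl⟩, c1, c2⟩ := h6 i s hs
    refine ⟨p, hp, c2, ?_⟩
    have := c1.add_right (2 * d)
    simp only [Prod.fst_swap] at this
    have e1 : d * (2 * i) + s + 2 * d = d * (2 * (i + 1)) + s := by ring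
    rwa [e1] at this
  · intro j s hs
    obtain ⟨_, ⟨p, hp, rfl⟩, c1, c2⟩ := h5 (j - 1) s hs
    refine ⟨p, hp, ?_, ?_⟩
    · have e1 : e * (2 * (j - 1 + 1)) + s = e * (2 * j) + s := by ring
      rwa [e1] at c2
    · have := c1.add_right (2 * d)
      simp only [Prod.fst_swap] at this
      have e1 : d * (2 * (j - 1)) + 2 * d = d * (2 * j) := by ring
      rwa [e1] at this

theorem hasRing_transpose {X : Set (ℕ × ℕ)} (h : HasRing (Prod.swap '' X)) : HasRing X := by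
  obtain ⟨k, d, e, hk, hd, he, hR⟩ := h
  exact ⟨k, e, d, hk, he, hd, ring_transpose hR⟩

/-- From `Fin m × Fin n` to natural numbers (shifted by one). -/
theorem hasRing_fin {m n : ℕ} (X : Set (Fin m × Fin n)) (Y : Set (ℕ × ℕ))
    (hY : ∀ y ∈ Y, ∃ x ∈ X, y = (x.1.1 + 1, x.2.1 + 1)) (h : HasRing Y) : HasRing X := by
  obtain ⟨k, d, e, hk, hd, he, hR⟩ := h
  obtain ⟨h', g', a1, a2, a3, a4, a5, a6⟩ := tw4_ext hR
  refine ⟨k, d, e, hk, hd, he, fun a ↦ h' (a.1 + 1), fun b ↦ g' (b.1 + 1), ?_, ?_, ?_, ?_, ?_, ?_⟩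
  · intro p _ q _ hpq
    apply a1
    have : p.1.1 ≤ q.1.1 := hpq
    omega
  · intro p _ q _
    exact a3 _ _
  · intro p _ q _ hpq
    apply a2
    have : p.2.1 ≤ q.2.1 := hpq
    omega
  · intro p _ q _
    exact a4 _ _
  · intro i s hs
    obtain ⟨y, hy, c⟩ := a5 i s hs
    obtain ⟨x, hx, rfl⟩ := hY y hy
    exact ⟨x, hx, c⟩
  · intro i s hs
    obtain ⟨y, hy, c⟩ := a6 i s hs
    obtain ⟨x, hx, rfl⟩ := hY y hy
    exact ⟨x, hx, c⟩

end H46K
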