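import Pool.Agent.Lib.H46K.TZ1

/-!
# H46K chunk TZN (M): the word of a cycle has no repetitions

`nodup_wword`: the vertex letters of `wword c` are `lett` of `c.support.dropLast` (up to rotation
`support.tail`), which has no repetitions for a cycle; the letter `P` occurs once for every dart of `c` over
the closing row edge (`midw a b = [P]` iff `{a, b}` is the closing row edge), and the edges of a cycle are
pairwise different; same for `Q`; vertex letters are not `P`, `Q`.  Suggestion: prove by induction for every walk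
`c` with `c.edges.Nodup`: `(wword c).count (lett w) = c.support.dropLast.count w`,
`(wword c).count P = number of closing row edges in c.edges ≤ 1`, same for `Q`, and use `List.nodup_iff_count_le_one`.
-/

set_option autoImplicit false

namespace H46K

variable {m n : ℕ} {X : Set (Fin m × Fin n)}

theorem tzn_midL (a b w : Fin m ⊕ Fin n) : (midw a b).count (lett w) = 0 := by
  rw [List.count_eq_zero]
  intro h
  have hP := tc1_lett_ne w
  rcases a with i | i <;> rcases b with j | j
  · simp only [midw] at h
    split_ifs at h with hc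
    · exact hP.1 (List.mem_singleton.1 h)
    · cases h
  · cases h
  · cases h
  · simp only [midw] at h
    split_ifs at h with hc
    · exact hP.2 (List.mem_singleton.1 h)
    · cases h

/-- the lawful boolean equality on the vertices -/
@[reducible] def tzn_beq (m n : ℕ) : BEq (Fin m ⊕ Fin n) := instBEqOfDecidableEq

attribute [local instance 10000] tzn_beq

instance tzn_lawful (m n : ℕ) : @LawfulBEq (Fin m ⊕ Fin n) (tzn_beq m n) :=
  inferInstanceAs (@LawfulBEq (Fin m ⊕ Fin n) instBEqOfDecidableEq)

theorem tzn_countL (w : Fin m ⊕ Fin n) {u v : Fin m ⊕ Fin n} (c : (TG m n X).Walk u v) :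
    (wword c).count (lett w) = c.support.dropLast.count w := by
  induction c with
  | nil => simp [wword]
  | @cons a b x hab c ih =>
    rw [wword, SimpleGraph.Walk.support_cons, List.dropLast_cons_of_ne_nil c.support_ne_nil,
      List.count_cons, List.count_append, ih, List.count_cons, tzn_midL, zero_add]
    by_cases h : a = w
    · subst h
      simp
    · have h' : lett a ≠ lett w := fun h' => h (lett_inj h')
      simp [h, h']

theorem tzn_midP (hm : 3 ≤ m) (a b : Fin m ⊕ Fin n) : (midw a b).count .P =
    if s(a, b) = s(.inl ⟨0, by omega⟩, .inl ⟨m - 1, by omega⟩) then 1 else 0 := by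
  rcases a with i | i <;> rcases b with j | j
  · simp only [midw]
    have hi := i.2
    have hj := j.2
    have e : (s((.inl i : Fin m ⊕ Fin n), .inl j) = s(.inl ⟨0, by omega⟩, .inl ⟨m - 1, by omega⟩))
        ↔ ((i.1 = 0 ∧ j.1 + 1 = m) ∨ (j.1 = 0 ∧ i.1 + 1 = m)) := by
      rw [Sym2.eq_iff]
      simp only [Sum.inl.injEq, Fin.ext_iff]
      omega
    simp only [e]
    split_ifs with h
    · rfl
    · rfl
  · have h : ¬ (s((.inl i : Fin m ⊕ Fin n), .inr j) =
        s(.inl ⟨0, by omega⟩, .inl ⟨m - 1, by omega⟩)) := by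
      rw [Sym2.eq_iff]
      simp
    rw [if_neg h]
    rfl
  · have h : ¬ (s((.inr i : Fin m ⊕ Fin n), .inl j) =
        s(.inl ⟨0, by omega⟩, .inl ⟨m - 1, by omega⟩)) := by
      rw [Sym2.eq_iff]
      simp
    rw [if_neg h]
    rfl
  · have h : ¬ (s((.inr i : Fin m ⊕ Fin n), .inr j) =
        s(.inl ⟨0, by omega⟩, .inl ⟨m - 1, by omega⟩)) := by
      rw [Sym2.eq_iff]
      simp
    rw [if_neg h]
    simp only [midw]
    split_ifs with h
    · rfl
    · rfl

theorem tzn_midQ (hn : 3 ≤ n) (a b : Fin m ⊕ Fin n) : (midw a b).count .Q =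
    if s(a, b) = s(.inr ⟨0, by omega⟩, .inr ⟨n - 1, by omega⟩) then 1 else 0 := by
  rcases a with i | i <;> rcases b with j | j
  · have h : ¬ (s((.inl i : Fin m ⊕ Fin n), .inl j) =
        s(.inr ⟨0, by omega⟩, .inr ⟨n - 1, by omega⟩)) := by
      rw [Sym2.eq_iff]
      simp
    rw [if_neg h]
    simp only [midw]
    split_ifs with h
    · rfl
    · rfl
  · have h : ¬ (s((.inl i : Fin m ⊕ Fin n), .inr j) =
        s(.inr ⟨0, by omega⟩, .inr ⟨n - 1, by omega⟩)) := by
      rw [Sym2.eq_iff]
      simp
    rw [if_neg h]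
    rfl
  · have h : ¬ (s((.inr i : Fin m ⊕ Fin n), .inl j) =
        s(.inr ⟨0, by omega⟩, .inr ⟨n - 1, by omega⟩)) := by
      rw [Sym2.eq_iff]
      simp
    rw [if_neg h]
    rfl
  · simp only [midw]
    have hi := i.2
    have hj := j.2
    have e : (s((.inr i : Fin m ⊕ Fin n), .inr j) = s(.inr ⟨0, by omega⟩, .inr ⟨n - 1, by omega⟩))
        ↔ ((i.1 = 0 ∧ j.1 + 1 = n) ∨ (j.1 = 0 ∧ i.1 + 1 = n)) := by
      rw [Sym2.eq_iff]
      simp only [Sum.inr.injEq, Fin.ext_iff]
      omega
    simp only [e]
    split_ifs with h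
    · rfl
    · rfl

theorem tzn_countP (hm : 3 ≤ m) {u v : Fin m ⊕ Fin n} (c : (TG m n X).Walk u v) :
    (wword c).count .P = c.edges.count s(.inl ⟨0, by omega⟩, .inl ⟨m - 1, by omega⟩) := by
  induction c with
  | nil => simp [wword]
  | @cons a b x hab c ih =>
    have h0 : lett a ≠ .P := (tc1_lett_ne a).1
    rw [wword, SimpleGraph.Walk.edges_cons, List.count_cons, List.count_append, ih,
      List.count_cons, tzn_midP hm]
    simp only [beq_iff_eq, h0, if_false, add_zero]
    rw [add_comm]

theorem tzn_countQ (hn : 3 ≤ n) {u v : Fin m ⊕ Fin n} (c : (TG m n X).Walk u v) :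
    (wword c).count .Q = c.edges.count s(.inr ⟨0, by omega⟩, .inr ⟨n - 1, by omega⟩) := by
  induction c with
  | nil => simp [wword]
  | @cons a b x hab c ih =>
    have h0 : lett a ≠ .Q := (tc1_lett_ne a).2
    rw [wword, SimpleGraph.Walk.edges_cons, List.count_cons, List.count_append, ih,
      List.count_cons, tzn_midQ hn]
    simp only [beq_iff_eq, h0, if_false, add_zero]
    rw [add_comm]

theorem nodup_wword (hm : 3 ≤ m) (hn : 3 ≤ n) {v : Fin m ⊕ Fin n} (c : (TG m n X).Walk v v)
    (hc : c.IsCycle) : (wword c).Nodup := by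
  have hE : c.edges.Nodup := hc.isTrail.edges_nodup
  have hS : c.support.dropLast.Nodup := by
    have h1 := hc.reverse.support_nodup
    rw [SimpleGraph.Walk.support_reverse, List.tail_reverse, List.nodup_reverse] at h1
    exact h1
  rw [List.nodup_iff_count_le_one]
  intro p
  by_cases hp : p ∈ wword c
  · rcases letters_wword c p hp with ⟨w, rfl⟩ | rfl | rfl
    · rw [tzn_countL]
      exact List.nodup_iff_count_le_one.1 hS w
    · rw [tzn_countP hm]
      exact List.nodup_iff_count_le_one.1 hE _
    · rw [tzn_countQ hn]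
      exact List.nodup_iff_count_le_one.1 hE _
  · rw [List.count_eq_zero.2 hp]
    exact Nat.zero_le _

end H46K
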