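import Pool.Agent.Lib.H46K.TZ1
import Pool.Agent.Lib.H46K.TZN
import Pool.Agent.Lib.H46K.TW4

/-!
# H46K chunk TZ2 (M): the word of a cycle satisfies the invariant

* `inv_wword`: `nodup_wword`; indices are `i + 1`; `Alw`: by `ca_wword` a cyclic pair is a `Side`: `A s, A (s+1)`: no
  index strictly between; `A 1, P`: `s = 1`; `A m, P`: `m ≥ 3` and all row indices are `≤ m` (`letters_wword`);
  `A, B`: trivial.
* `rk_wword`: a rook `(a, b)` of the word: `A a, B b` is a side, so `a = i + 1`, `b = j + 1` with `(i,j) ∈ X`; then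
  `hasRing_fin`.
* `types_wword`: if there is no `B` letter then `Q` is not in the word either (its neighbours are `B` letters by
  `ca_wword`, `ca_exists_right`), so all letters are `A` letters or `P`; same for no `A` letter.
-/

set_option autoImplicit false

namespace H46K

variable {m n : ℕ} {X : Set (Fin m × Fin n)}

theorem tz2_A {u v : Fin m ⊕ Fin n} (c : (TG m n X).Walk u v) (s : ℕ)
    (h : Lt.A s ∈ wword c) : 1 ≤ s ∧ s ≤ m := by
  rcases letters_wword c _ h with ⟨w, hw⟩ | hw | hw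
  · rcases w with i | i
    · simp only [lett, Lt.A.injEq] at hw
      have := i.2
      omega
    · cases hw
  · cases hw
  · cases hw

theorem tz2_B {u v : Fin m ⊕ Fin n} (c : (TG m n X).Walk u v) (s : ℕ)
    (h : Lt.B s ∈ wword c) : 1 ≤ s ∧ s ≤ n := by
  rcases letters_wword c _ h with ⟨w, hw⟩ | hw | hw
  · rcases w with i | i
    · cases hw
    · simp only [lett, Lt.B.injEq] at hw
      have := i.2
      omega
  · cases hw
  · cases hw

theorem tz2_alw (hm : 3 ≤ m) (hn : 3 ≤ n) {v : Fin m ⊕ Fin n} (c : (TG m n X).Walk v v)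
    (p q : Lt) (h : Side m n X p q) : Alw (wword c) p q := by
  rcases h with h | h
  · cases h with
    | AA s h1 h2 =>
      intro r hr hb
      unfold Btw at hb
      omega
    | AP s h1 =>
      show s = 1 ∨ (3 ≤ s ∧ ∀ r, Lt.A r ∈ wword c → r ≤ s)
      rcases h1 with h1 | h1
      · exact Or.inl h1
      · exact Or.inr ⟨by omega, fun r hr => h1 ▸ (tz2_A c r hr).2⟩
    | BB s h1 h2 =>
      intro r hr hb
      unfold Btw at hb
      omega
    | BQ s h1 =>
      show s = 1 ∨ (3 ≤ s ∧ ∀ r, Lt.B r ∈ wword c → r ≤ s)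
      rcases h1 with h1 | h1
      · exact Or.inl h1
      · exact Or.inr ⟨by omega, fun r hr => h1 ▸ (tz2_B c r hr).2⟩
    | AB i j h => trivial
  · cases h with
    | AA s h1 h2 =>
      intro r hr hb
      unfold Btw at hb
      omega
    | AP s h1 =>
      show s = 1 ∨ (3 ≤ s ∧ ∀ r, Lt.A r ∈ wword c → r ≤ s)
      rcases h1 with h1 | h1
      · exact Or.inl h1
      · exact Or.inr ⟨by omega, fun r hr => h1 ▸ (tz2_A c r hr).2⟩
    | BB s h1 h2 =>
      intro r hr hb
      unfold Btw at hb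
      omega
    | BQ s h1 =>
      show s = 1 ∨ (3 ≤ s ∧ ∀ r, Lt.B r ∈ wword c → r ≤ s)
      rcases h1 with h1 | h1
      · exact Or.inl h1
      · exact Or.inr ⟨by omega, fun r hr => h1 ▸ (tz2_B c r hr).2⟩
    | AB i j h => trivial

theorem inv_wword (hm : 3 ≤ m) (hn : 3 ≤ n) {v : Fin m ⊕ Fin n} (c : (TG m n X).Walk v v)
    (hc : c.IsCycle) : Inv (wword c) where
  nodup := nodup_wword hm hn c hc
  posA := fun s hs => (tz2_A c s hs).1
  posB := fun s hs => (tz2_B c s hs).1
  alw := fun p q h => tz2_alw hm hn c p q (ca_wword hm hn c hc p q h)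

theorem tz2_sideAB {a b : ℕ} (h : Side m n X (.A a) (.B b) ∨ Side m n X (.B b) (.A a)) :
    ∃ x ∈ X, (a, b) = (x.1.1 + 1, x.2.1 + 1) := by
  rcases h with (h | h) | (h | h)
  · cases h with
    | AB i j h => exact ⟨(i, j), h, rfl⟩
  · cases h
  · cases h
  · cases h with
    | AB i j h => exact ⟨(i, j), h, rfl⟩

theorem ring_wword (hm : 3 ≤ m) (hn : 3 ≤ n) {v : Fin m ⊕ Fin n} (c : (TG m n X).Walk v v)
    (hc : c.IsCycle) (h : HasRing (rk (wword c))) : HasRing X := by
  refine hasRing_fin X (rk (wword c)) ?_ h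
  rintro ⟨a, b⟩ hab
  refine tz2_sideAB ?_
  rcases hab with h1 | h1
  · exact Or.inl (ca_wword hm hn c hc _ _ h1)
  · exact Or.inr (ca_wword hm hn c hc _ _ h1)

theorem types_wword (hm : 3 ≤ m) (hn : 3 ≤ n) {v : Fin m ⊕ Fin n} (c : (TG m n X).Walk v v)
    (hc : c.IsCycle) :
    ((∃ s, Lt.A s ∈ wword c) ∧ ∃ u, Lt.B u ∈ wword c) ∨
    (∀ p ∈ wword c, p = .P ∨ ∃ s, p = .A s) ∨ (∀ p ∈ wword c, p = .Q ∨ ∃ s, p = .B s) := by
  have h3 := three_le_wword c hc
  have hQ : Lt.Q ∈ wword c → ∃ u, Lt.B u ∈ wword c := by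
    intro h
    obtain ⟨q, hq⟩ := ca_exists_right (by omega) h
    have hmem := (ca_mem hq).2
    rcases ca_wword hm hn c hc _ _ hq with h1 | h1 <;> cases h1
    exact ⟨_, hmem⟩
  have hP : Lt.P ∈ wword c → ∃ u, Lt.A u ∈ wword c := by
    intro h
    obtain ⟨q, hq⟩ := ca_exists_right (by omega) h
    have hmem := (ca_mem hq).2
    rcases ca_wword hm hn c hc _ _ hq with h1 | h1 <;> cases h1
    exact ⟨_, hmem⟩
  by_cases hA : ∃ s, Lt.A s ∈ wword c
  · by_cases hB : ∃ u, Lt.B u ∈ wword c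
    · exact Or.inl ⟨hA, hB⟩
    · refine Or.inr (Or.inl fun p hp => ?_)
      cases p with
      | A s => exact Or.inr ⟨s, rfl⟩
      | B s => exact absurd ⟨s, hp⟩ hB
      | P => exact Or.inl rfl
      | Q => exact absurd (hQ hp) hB
  · refine Or.inr (Or.inr fun p hp => ?_)
    cases p with
    | A s => exact absurd ⟨s, hp⟩ hA
    | B s => exact Or.inr ⟨s, rfl⟩
    | P => exact absurd (hP hp) hA
    | Q => exact Or.inl rfl

end H46K
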