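import Pool.Agent.Lib.H46K.TR
import Pool.Agent.Lib.H46K.TS5
import Pool.Agent.Lib.H46K.TS6
import Pool.Agent.Lib.H46K.TU2
import Pool.Agent.Lib.H46K.TL2
import Pool.Agent.Lib.H46K.TW3
import Pool.Agent.Lib.H46K.TW4
import Pool.Agent.Lib.H46K.TC3
import Pool.Agent.Lib.H46K.TZ2

/-!
# H46K chunk TM (M): the induction and the theorem of parts C and D

`word_unknot` by strong induction on the length.  Length `3`: `three_letters`.  Length `≥ 4`: `cases`.  Alternating
words have even length (`alt_support`); length `4`: rotate to `A s, B u, A t, B v` and `four_letters`; length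
`≥ 6`: `alt_adj`.
The reductions for rows are `red_AAB`, `red_APAB`, `red_ABAB` (file TR); the ones for columns follow by applying
them to `w.map sw` (`Inv.sw`, `rk_sw`, `hasRing_transpose`, `unknot_sw`, `List.IsRotated.map`).
-/

set_option autoImplicit false

namespace H46K

theorem tm_ca_sw {w : List Lt} {p q : Lt} (h : CA (w.map sw) p q) : CA w (sw p) (sw q) := by
  have := ca_map sw h
  rw [List.map_map] at this
  have e : (sw ∘ sw) = id := by
    funext x
    exact sw_sw x
  rw [e, List.map_id] at this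
  exact this

theorem alt_sw {w : List Lt} (ha : Alt w) : Alt (w.map sw) := by
  intro p q h
  rcases ha _ _ (tm_ca_sw h) with ⟨s, u, h1, h2⟩ | ⟨s, u, h1, h2⟩
  · right
    refine ⟨u, s, ?_, ?_⟩
    · rw [← sw_sw p, h1]; rfl
    · rw [← sw_sw q, h2]; rfl
  · left
    refine ⟨u, s, ?_, ?_⟩
    · rw [← sw_sw p, h1]; rfl
    · rw [← sw_sw q, h2]; rfl

theorem tm_rows_sw (w : List Lt) : rowsOf (w.map sw) = colsOf w := by
  ext r
  simp only [rowsOf, colsOf, Set.mem_ofPred_eq, List.mem_map]
  constructor
  · rintro ⟨x, hx, h⟩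
    have : x = Lt.B r := by rw [← sw_sw x, h]; rfl
    rwa [this] at hx
  · intro h
    exact ⟨_, h, rfl⟩

theorem tm_ring_sw {w : List Lt} (h : ¬ HasRing (rk w)) : ¬ HasRing (rk (w.map sw)) := by
  intro h'
  rw [rk_sw] at h'
  exact h (hasRing_transpose h')

theorem word_unknot (N : ℕ) : US N := by
  induction N using Nat.strong_induction_on with
  | _ N IH =>
    intro w hN h h3 hA hB hR
    rcases Nat.lt_or_ge 3 w.length with h4 | h4
    swap
    · exact three_letters w h (by omega) hA hB
    rcases cases w h h4 hA hB with ⟨s, t, u, l, hw⟩ | ⟨s, t, u, l, hw⟩ | ⟨s, t, u, l, hw⟩ |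
      ⟨s, t, u, l, hw⟩ | ha
    · exact red_AAB N IH w hN h h4 hR s t u l hw
    · apply unknot_sw
      exact red_AAB N IH (w.map sw) (by simpa using hN) h.sw (by rw [List.length_map]; exact h4) (tm_ring_sw hR)
        s t u (l.map sw) (hw.map sw)
    · exact red_APAB N IH w hN h h4 hR s t u l hw
    · apply unknot_sw
      exact red_APAB N IH (w.map sw) (by simpa using hN) h.sw (by rw [List.length_map]; exact h4) (tm_ring_sw hR)
        s t u (l.map sw) (hw.map sw)
    · rcases Nat.lt_or_ge w.length 6 with h6 | h6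
      · obtain ⟨_, r, _, hr, _⟩ := alt_support w h h4 ha
        have h4' : w.length = 4 := by omega
        -- rotate so that the word starts with an A letter
        obtain ⟨s, hs⟩ := hA
        obtain ⟨q, hq⟩ := ca_exists_right (by omega : 2 ≤ w.length) hs
        obtain ⟨l, hl⟩ := hq
        have hlen : (Lt.A s :: q :: l).length = 4 := by rw [hl.symm.perm.length_eq]; exact h4'
        obtain ⟨c, d, rfl⟩ : ∃ c d, l = [c, d] := by
          rcases l with _ | ⟨c, _ | ⟨d, _ | ⟨e, l⟩⟩⟩
          · simp at hlen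
          · simp at hlen
          · exact ⟨c, d, rfl⟩
          · simp at hlen
        have ha' : Alt [Lt.A s, q, c, d] := by
          intro p q' hpq
          exact ha p q' ((ca_rot hl).2 hpq)
        have c1 : CA [Lt.A s, q, c, d] (.A s) q := ⟨[c, d], List.IsRotated.refl _⟩
        have c2 : CA [Lt.A s, q, c, d] q c := ⟨[d, .A s], ⟨1, by simp⟩⟩
        have c3 : CA [Lt.A s, q, c, d] c d := ⟨[.A s, q], ⟨2, by simp⟩⟩
        obtain ⟨u, rfl⟩ : ∃ u, q = .B u := by
          rcases ha' _ _ c1 with ⟨_, u, _, h2⟩ | ⟨_, u, h1, _⟩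
          · exact ⟨u, h2⟩
          · cases h1
        obtain ⟨t, rfl⟩ : ∃ t, c = .A t := by
          rcases ha' _ _ c2 with ⟨_, _, h1, _⟩ | ⟨t, _, _, h2⟩
          · cases h1
          · exact ⟨t, h2⟩
        obtain ⟨v, rfl⟩ : ∃ v, d = .B v := by
          rcases ha' _ _ c3 with ⟨_, v, _, h2⟩ | ⟨_, _, h1, _⟩
          · exact ⟨v, h2⟩
          · cases h1
        exact unknot_of_rot hl (four_letters s u t v (h.rot hl))
      · rcases alt_adj w h h6 ha hR with ⟨s, u, t, v, l, hl, hw, hadj⟩ |
          ⟨s, u, t, v, l, hl, hw, hadj⟩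
        · exact red_ABAB N IH w hN h ha h6 hR s u t v l hl hw hadj
        · apply unknot_sw
          refine red_ABAB N IH (w.map sw) (by simpa using hN) h.sw (alt_sw ha) (by simpa using h6)
            (tm_ring_sw hR) s u t v (l.map sw) (by simpa using hl) (hw.map sw) ?_
          rw [tm_rows_sw]
          exact hadj

/-- Parts C and D. -/
theorem geo (m n : ℕ) (hm : 3 ≤ m) (hn : 3 ≤ n) (X : Set (Fin m × Fin n)) (hX : ¬ HasRing X) :
    ∃ f : SpatialGraph (TG m n X), ∀ (v : Fin m ⊕ Fin n) (c : (TG m n X).Walk v v),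
      c.IsCycle → Unknot (f.poly c) := by
  obtain ⟨f, h1, h2⟩ := exists_straight hm hn X
  refine ⟨f, fun v c hc => ?_⟩
  rw [poly_eq f h1 h2 c]
  rcases types_wword hm hn c hc with h | h | h
  · exact word_unknot _ (wword c) rfl (inv_wword hm hn c hc) (three_le_wword c hc) h.1 h.2
      (fun hr => hX (ring_wword hm hn c hc hr))
  · exact pure_rows (wword c) (inv_wword hm hn c hc) (three_le_wword c hc) h
  · apply unknot_sw
    apply pure_rows ((wword c).map sw) (inv_wword hm hn c hc).sw
    · simpa using three_le_wword c hc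
    · intro p hp
      obtain ⟨q, hq, rfl⟩ := List.mem_map.1 hp
      rcases h q hq with rfl | ⟨s, rfl⟩
      · exact Or.inl rfl
      · exact Or.inr ⟨s, rfl⟩

end H46K
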