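import Pool.Agent.Lib.H46K.PartA
import Pool.Agent.Lib.H46K.PartB
import Pool.Agent.Lib.H46K.TM
import Pool.Agent.Lib.H46K.Iso

/-!
# H46K: final assembly

The main theorem: a finite simple 3-connected intrinsically knotted graph has no embedding in which
exactly one unordered pair of disjoint cycles has an odd linking number.
-/

namespace H46K

theorem main {V : Type} [Fintype V] [DecidableEq V] (G : SimpleGraph V) (h3 : ThreeConn G)
    (hIK : IsIK G) (f : SpatialGraph G) (d : P3) (_hd : Generic f d) :
    ¬ ExactlyOneOddLink f d := by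
  intro h
  obtain ⟨m, n, hm, hn, X, E, ⟨φ⟩, hO⟩ := partA G h3 f d h
  obtain ⟨f0, hf0⟩ := geo m n hm hn X (partB m n hm hn X E hO)
  obtain ⟨v, c, hc, hcu⟩ := isIK_of_iso G _ φ hIK f0
  exact hcu (hf0 v c hc)

end H46K
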