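import Pool.Agent.Lib.H46K.A2
import Pool.Agent.Lib.H46K.A5
import Pool.Agent.Lib.H46K.A7
import Pool.Agent.Lib.H46K.A9

/-!
# H46K, Part A: assembly
-/

open scoped BigOperators

namespace H46K

/-- Part A -/
theorem partA {V : Type} [Fintype V] [DecidableEq V] (G : SimpleGraph V) (h3 : ThreeConn G)
    (f : SpatialGraph G) (d : P3) (h : ExactlyOneOddLink f d) :
    ∃ (m n : ℕ) (_ : 3 ≤ m) (_ : 3 ≤ n) (X : Set (Fin m × Fin n))
      (E : Sym2 (Fin m ⊕ Fin n) → Sym2 (Fin m ⊕ Fin n) → ZMod 2),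
      Nonempty (G ≃g TG m n X) ∧ OddTG m n X E := by
  obtain ⟨a, c₁, b, c₂, h₁, h₂, hd, hU⟩ := uniqueOdd_of_exactlyOne f d h
  have hO := hU.oddSys
  obtain ⟨X, φ, hφ₁, hφ₂⟩ := exists_iso h₁ h₂ hd (hO.cover h3 h₁ h₂ hd)
    (fun u hu v hv huv => hO.chord h₁ h₂ hd hu hv huv)
    (fun u hu v hv huv => hO.swap.chord h₂ h₁ hd.symm hu hv huv)
  have hT := hO.transport φ
  rw [chi_transport_row h₁ h₂ hd φ hφ₁ hφ₂, chi_transport_col h₁ h₂ hd φ hφ₁ hφ₂] at hT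
  exact ⟨c₁.length, c₂.length, h₁.three_le_length, h₂.three_le_length, X, _, ⟨φ⟩, hT.one, hT.odd⟩

end H46K
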