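import Pool.Agent.Lib.H46K.A2
import Pool.Agent.Lib.H46K.A5
import Pool.Agent.Lib.H46K.A7
import Pool.Agent.Lib.H46K.A9

/-!
# H46K, Part A without 3-connectivity

`partA_cycles`: the odd pair as a pair of walks, with `OddSys`. `partA'`: if every vertex is on
one of the two cycles, the graph is a `TG`.
-/

open scoped BigOperators

namespace H46K

/-- The two cycles of the only odd link, and the uniqueness statement for chains. -/
theorem partA_cycles {V : Type*} [Fintype V] [DecidableEq V] (G : SimpleGraph V)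
    (f : SpatialGraph G) (d : P3) (h : ExactlyOneOddLink f d) :
    ∃ (a : V) (c₁ : G.Walk a a) (b : V) (c₂ : G.Walk b b), c₁.IsCycle ∧ c₂.IsCycle ∧
      List.Disjoint c₁.support c₂.support ∧ OddSys G (EE f d) (chi c₁) (chi c₂) := by
  obtain ⟨a, c₁, b, c₂, h₁, h₂, hd, hU⟩ := uniqueOdd_of_exactlyOne f d h
  exact ⟨a, c₁, b, c₂, h₁, h₂, hd, hU.oddSys⟩

/-- Part A with the covering hypothesis in place of 3-connectivity. -/
theorem partA' {V : Type*} [Fintype V] [DecidableEq V] (G : SimpleGraph V)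
    {E : Sym2 V → Sym2 V → ZMod 2} {a b : V} {c₁ : G.Walk a a} {c₂ : G.Walk b b}
    (h₁ : c₁.IsCycle) (h₂ : c₂.IsCycle) (hd : List.Disjoint c₁.support c₂.support)
    (hO : OddSys G E (chi c₁) (chi c₂)) (hcov : ∀ w : V, w ∈ c₁.support ∨ w ∈ c₂.support) :
    ∃ (m n : ℕ) (_ : 3 ≤ m) (_ : 3 ≤ n) (X : Set (Fin m × Fin n))
      (E : Sym2 (Fin m ⊕ Fin n) → Sym2 (Fin m ⊕ Fin n) → ZMod 2),
      Nonempty (G ≃g TG m n X) ∧ OddTG m n X E := by
  obtain ⟨X, φ, hφ₁, hφ₂⟩ := exists_iso h₁ h₂ hd hcov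
    (fun u hu v hv huv => hO.chord h₁ h₂ hd hu hv huv)
    (fun u hu v hv huv => hO.swap.chord h₂ h₁ hd.symm hu hv huv)
  have hT := hO.transport φ
  rw [chi_transport_row h₁ h₂ hd φ hφ₁ hφ₂, chi_transport_col h₁ h₂ hd φ hφ₁ hφ₂] at hT
  exact ⟨c₁.length, c₂.length, h₁.three_le_length, h₂.three_le_length, X, _, ⟨φ⟩, hT.one, hT.odd⟩

/-- No vertex of a component `D` of the complement of the two cycles has two different
neighbours on `c₁` (`attach_unique`), and the same for `c₂`. -/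
theorem attach_unique₂ {V : Type*} [Fintype V] [DecidableEq V] {G : SimpleGraph V}
    {E : Sym2 V → Sym2 V → ZMod 2} {a b : V} {c₁ : G.Walk a a} {c₂ : G.Walk b b}
    (h₁ : c₁.IsCycle) (h₂ : c₂.IsCycle) (hd : List.Disjoint c₁.support c₂.support)
    (h : OddSys G E (chi c₁) (chi c₂)) {w d d' p q : V} (hwd : InD c₁ c₂ w d)
    (hwd' : InD c₁ c₂ w d') (hp : p ∈ c₂.support) (hq : q ∈ c₂.support) (hdp : G.Adj d p)
    (hdq : G.Adj d' q) : p = q :=
  h.swap.attach_unique h₂ h₁ hd.symm (A7_InD_symm hwd) (A7_InD_symm hwd') hp hq hdp hdq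

end H46K
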