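import Pool.Agent.Lib.H46K.Defs

/-!
# H46K parts C, D: definitions for the straight embedding and for words of letters

Letters: `A t = (t,0,0)` on the first line, `B t = (0,t,1)` on the second line, and the two corners
`P`, `Q` of the two closing edges.  A word of letters is a closed polygon.  The affine symmetry
`sig (x,y,z) = (y,x,1-z)` exchanges `A t` with `B t` and `P` with `Q`.
-/

set_option autoImplicit false

namespace H46K

/-- Letters. -/
inductive Lt : Type
  | A (t : ℕ) : Lt
  | B (t : ℕ) : Lt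
  | P : Lt
  | Q : Lt
deriving DecidableEq

/-- Points of the first line. -/
def ptA (t : ℝ) : P3 := (t, 0, 0)

/-- Points of the second line. -/
def ptB (t : ℝ) : P3 := (0, t, 1)

/-- The corner `P_tau`. The letter `P` is `P_(5/2)`. -/
noncomputable def ptP (τ : ℝ) : P3 := (-4 * τ, 0, 5)

/-- The corner of the closing edge of the second cycle. -/
def ptQ : P3 := (0, -10, -4)

/-- The position of a letter. -/
noncomputable def pos : Lt → P3
  | .A t => ptA t
  | .B t => ptB t
  | .P => ptP (5 / 2)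
  | .Q => ptQ

/-- The symmetry on points. -/
def sig (p : P3) : P3 := (p.2.1, p.1, 1 - p.2.2)

/-- The symmetry on letters. -/
def sw : Lt → Lt
  | .A t => .B t
  | .B t => .A t
  | .P => .Q
  | .Q => .P

theorem sw_sw (p : Lt) : sw (sw p) = p := by cases p <;> rfl

theorem pos_sw (p : Lt) : pos (sw p) = sig (pos p) := by
  cases p <;> simp [sw, pos, sig, ptA, ptB, ptP, ptQ] <;> norm_num

theorem sig_sig (p : P3) : sig (sig p) = p := by
  obtain ⟨x, y, z⟩ := p
  simp [sig]

/-- `q` follows `p` in the list `w`. -/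
def Fol {α : Type*} (w : List α) (p q : α) : Prop := ∃ l₁ l₂, w = l₁ ++ p :: q :: l₂

/-- `q` follows `p` in the cyclic word `w`. -/
def CA {α : Type*} (w : List α) (p q : α) : Prop := ∃ l, w ~r (p :: q :: l)

/-- `r` is strictly between `s` and `t`. -/
def Btw (s t r : ℕ) : Prop := (s < r ∧ r < t) ∨ (t < r ∧ r < s)

/-- Allowed neighbours in a word `w`: letters on the same line only if no other letter of the
word lies between them; `P` only next to `A 1` and `A m`, where `m ≥ 3` is the largest index of an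
`A` letter; similarly for `Q`. -/
def Alw (w : List Lt) : Lt → Lt → Prop
  | .A s, .A t => ∀ r, Lt.A r ∈ w → ¬ Btw s t r
  | .B s, .B t => ∀ r, Lt.B r ∈ w → ¬ Btw s t r
  | .A _, .B _ => True
  | .B _, .A _ => True
  | .A s, .P => s = 1 ∨ (3 ≤ s ∧ ∀ r, Lt.A r ∈ w → r ≤ s)
  | .P, .A s => s = 1 ∨ (3 ≤ s ∧ ∀ r, Lt.A r ∈ w → r ≤ s)
  | .B s, .Q => s = 1 ∨ (3 ≤ s ∧ ∀ r, Lt.B r ∈ w → r ≤ s)
  | .Q, .B s => s = 1 ∨ (3 ≤ s ∧ ∀ r, Lt.B r ∈ w → r ≤ s)
  | .P, .P => False
  | .Q, .Q => False
  | .P, .Q => False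
  | .Q, .P => False
  | .P, .B _ => False
  | .B _, .P => False
  | .Q, .A _ => False
  | .A _, .Q => False

/-- The invariant of the words in the reduction. -/
structure Inv (w : List Lt) : Prop where
  nodup : w.Nodup
  posA : ∀ s, Lt.A s ∈ w → 1 ≤ s
  posB : ∀ s, Lt.B s ∈ w → 1 ≤ s
  alw : ∀ p q, CA w p q → Alw w p q

/-- The rooks of a word: pairs (row, column) that are neighbours in the cyclic word. -/
def rk (w : List Lt) : Set (ℕ × ℕ) :=
  {x | CA w (.A x.1) (.B x.2) ∨ CA w (.B x.2) (.A x.1)}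

/-- Alternating words. -/
def Alt (w : List Lt) : Prop :=
  ∀ p q, CA w p q → (∃ s u, p = .A s ∧ q = .B u) ∨ (∃ s u, p = .B u ∧ q = .A s)

/-- `s` and `t` are cyclically adjacent in the set `S`: no element of `S` lies strictly between
them, or all the other elements of `S` lie strictly between them. -/
def CycAdj (S : Set ℕ) (s t : ℕ) : Prop :=
  s ≠ t ∧ s ∈ S ∧ t ∈ S ∧ ((∀ r ∈ S, ¬ Btw s t r) ∨ (∀ r ∈ S, r = s ∨ r = t ∨ Btw s t r))

/-- The set of row indices of a word. -/
def rowsOf (w : List Lt) : Set ℕ := {r | Lt.A r ∈ w}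

/-- The set of column indices of a word. -/
def colsOf (w : List Lt) : Set ℕ := {r | Lt.B r ∈ w}

/-- The map replacing row `t` by row `s`. -/
def mrg (s t : ℕ) (x : ℕ × ℕ) : ℕ × ℕ := (if x.1 = t then s else x.1, x.2)

end H46K
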