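import Pool.Agent.Lib.H46K.TU1

/-!
# H46K chunk TW1 (M): cyclic successors

`CA w p q` (some rotation of `w` starts with `p, q`) and `Fol` in the closed list.
* `ca_iff`: for `w = x :: l`: `CA (x :: l) p q ↔ Fol (x :: (l ++ [x])) p q` when `l ≠ []`.
  Proof: `→`: `x :: l = l₁ ++ l₂`, `p :: q :: l' = l₂ ++ l₁` (`List.IsRotated` gives `rotate n`, `rotate_eq_drop_append_take`);
  if `l₂ = p :: q :: l₃` fine; if `l₂ = [p]` then `l₁ = q :: _` starts with `x = q`, and the closed list
  ends with `p, x`; if `l₂ = []` then `l₁ = p :: q :: ..`.  `←`: `x :: (l ++ [x]) = l₁ ++ p :: q :: l₂`; if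
  `l₂ = []` then `q = x`, `x :: l = l₁ ++ [p]` and the rotation is `p :: l₁ = p :: x :: ..` (use `l ≠ []`); if
  `l₂ = l₃ ++ [x]` then `x :: l = l₁ ++ p :: q :: l₃`.
* `ca_rot`: invariance under rotation (transitivity of `~r`).
* `ca_map`: images.
* membership and the nodup facts used in the steps.
-/

set_option autoImplicit false

namespace H46K

variable {α β : Type*}

theorem ca_rot {w w' : List α} (h : w ~r w') {p q : α} : CA w p q ↔ CA w' p q :=
  ⟨fun ⟨l, hl⟩ ↦ ⟨l, h.symm.trans hl⟩, fun ⟨l, hl⟩ ↦ ⟨l, h.trans hl⟩⟩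

theorem tw1_split {w w' : List α} (h : w ~r w') : ∃ l₁ l₂, w = l₁ ++ l₂ ∧ w' = l₂ ++ l₁ := by
  obtain ⟨n, hn⟩ := h
  refine ⟨w.take (n % w.length), w.drop (n % w.length), (List.take_append_drop _ _).symm, ?_⟩
  rw [← hn, List.rotate_eq_drop_append_take_mod]

theorem tw1_rotated (l₁ l₂ : List α) : (l₁ ++ l₂) ~r (l₂ ++ l₁) :=
  ⟨l₁.length, by rw [List.rotate_append_length_eq]⟩

theorem ca_iff (x : α) (l : List α) (hl : l ≠ []) (p q : α) :
    CA (x :: l) p q ↔ Fol (x :: (l ++ [x])) p q := by
  constructor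
  · rintro ⟨l', hl'⟩
    obtain ⟨l₁, l₂, h1, h2⟩ := tw1_split hl'
    match l₂, h1, h2 with
    | [], h1, h2 =>
      rw [List.append_nil] at h1
      rw [List.nil_append, ← h1] at h2
      simp only [List.cons.injEq] at h2
      obtain ⟨rfl, rfl⟩ := h2
      exact ⟨[], l' ++ [p], rfl⟩
    | [p'], h1, h2 =>
      simp only [List.cons_append, List.nil_append, List.cons.injEq] at h2
      obtain ⟨rfl, rfl⟩ := h2
      simp only [List.cons_append, List.cons.injEq] at h1
      obtain ⟨rfl, rfl⟩ := h1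
      exact ⟨x :: l', [], by simp⟩
    | p' :: q' :: l₃, h1, h2 =>
      simp only [List.cons_append, List.cons.injEq] at h2
      obtain ⟨rfl, rfl, rfl⟩ := h2
      refine ⟨l₁, l₃ ++ [x], ?_⟩
      rw [← List.cons_append, h1]
      simp
  · rintro ⟨l₁, l₂, h⟩
    rw [← List.cons_append] at h
    rcases List.eq_nil_or_concat l₂ with rfl | ⟨l₃, y, rfl⟩
    · have h' : (x :: l) ++ [x] = (l₁ ++ [p]) ++ [q] := by
        rw [h]
        simp
      obtain ⟨h1, h2⟩ := List.append_inj' h' rfl
      simp only [List.cons.injEq, and_true] at h2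
      subst h2
      cases l₁ with
      | nil =>
        simp only [List.nil_append, List.cons.injEq] at h1
        exact absurd h1.2 hl
      | cons y l₁ =>
        simp only [List.cons_append, List.cons.injEq] at h1
        obtain ⟨rfl, rfl⟩ := h1
        refine ⟨l₁, ?_⟩
        have := tw1_rotated (x :: l₁) [p]
        simpa using this
    · rw [List.concat_eq_append] at h
      have h' : (x :: l) ++ [x] = (l₁ ++ p :: q :: l₃) ++ [y] := by
        rw [h]
        simp
      obtain ⟨h1, -⟩ := List.append_inj' h' rfl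
      rw [h1]
      refine ⟨l₃ ++ l₁, ?_⟩
      exact tw1_rotated l₁ (p :: q :: l₃)

theorem ca_mem {w : List α} {p q : α} (h : CA w p q) : p ∈ w ∧ q ∈ w := by
  obtain ⟨l, hl⟩ := h
  rw [hl.mem_iff, hl.mem_iff]
  simp

theorem ca_ne {w : List α} (hw : w.Nodup) {p q : α} (h : CA w p q) : p ≠ q := by
  obtain ⟨l, hl⟩ := h
  rw [hl.nodup_iff] at hw
  rintro rfl
  simp at hw

theorem ca_map (f : α → β) {w : List α} {p q : α} (h : CA w p q) : CA (w.map f) (f p) (f q) := by
  obtain ⟨l, hl⟩ := h
  exact ⟨l.map f, hl.map f⟩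

theorem ca_map_iff (f : α → β) (hf : Function.Injective f) {w : List α} {p q : α} :
    CA (w.map f) (f p) (f q) ↔ CA w p q := by
  refine ⟨?_, ca_map f⟩
  rintro ⟨l, n, hn⟩
  rw [← List.map_rotate] at hn
  obtain ⟨p', m, h1, h2, h3⟩ := List.map_eq_cons_iff.1 hn
  obtain ⟨q', m', rfl, h5, h6⟩ := List.map_eq_cons_iff.1 h3
  rw [hf h2, hf h5] at h1
  exact ⟨m', n, h1⟩

/-- The successor is unique in a word without repetitions. -/
theorem ca_unique_right {w : List α} (hw : w.Nodup) {p q q' : α} (h : CA w p q) (h' : CA w p q') :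
    q = q' := by
  obtain ⟨l, hl⟩ := h
  rw [ca_rot hl, ca_iff p (q :: l) (by simp)] at h'
  rw [hl.nodup_iff] at hw
  obtain ⟨l₁, l₂, h⟩ := h'
  cases l₁ with
  | nil =>
    simp only [List.cons_append, List.nil_append, List.cons.injEq, true_and] at h
    exact h.1
  | cons y l₁ =>
    exfalso
    simp only [List.cons_append, List.cons.injEq] at h
    obtain ⟨rfl, h⟩ := h
    rcases List.eq_nil_or_concat l₂ with rfl | ⟨l₃, z, rfl⟩
    · have h' : (q :: l) ++ [p] = (l₁ ++ [p]) ++ [q'] := by
        rw [List.cons_append, h]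
        simp
      obtain ⟨h1, h2⟩ := List.append_inj' h' rfl
      rw [h1] at hw
      simp at hw
    · have h' : (q :: l) ++ [p] = (l₁ ++ p :: q' :: l₃) ++ [z] := by
        rw [List.cons_append, h]
        simp
      obtain ⟨h1, h2⟩ := List.append_inj' h' rfl
      rw [h1] at hw
      simp at hw

/-- The predecessor is unique in a word without repetitions. -/
theorem ca_unique_left {w : List α} (hw : w.Nodup) {p p' q : α} (h : CA w p q) (h' : CA w p' q) :
    p = p' := by
  obtain ⟨l, hl⟩ := h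
  have hl2 : w ~r (q :: (l ++ [p])) := hl.trans (by simpa using tw1_rotated [p] (q :: l))
  rw [ca_rot hl2, ca_iff q (l ++ [p]) (by simp)] at h'
  rw [hl2.nodup_iff] at hw
  obtain ⟨l₁, l₂, h⟩ := h'
  rcases List.eq_nil_or_concat l₂ with rfl | ⟨l₃, z, rfl⟩
  · have h' : (q :: l) ++ [p] = l₁ ++ [p'] := by
      have h2 : ((q :: l) ++ [p]) ++ [q] = (l₁ ++ [p']) ++ [q] := by
        have : ((q :: l) ++ [p]) ++ [q] = q :: (l ++ [p] ++ [q]) := by simp
        rw [this, h]
        simp
      exact (List.append_inj' h2 rfl).1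
    have h3 := (List.append_inj' h' rfl).2
    simpa using h3
  · exfalso
    have h' : q :: (l ++ [p]) = l₁ ++ p' :: q :: l₃ := by
      have h2 : (q :: (l ++ [p])) ++ [q] = (l₁ ++ p' :: q :: l₃) ++ [z] := by
        have : (q :: (l ++ [p])) ++ [q] = q :: (l ++ [p] ++ [q]) := by simp
        rw [this, h]
        simp
      exact (List.append_inj' h2 rfl).1
    cases l₁ with
    | nil =>
      simp only [List.nil_append, List.cons.injEq] at h'
      obtain ⟨rfl, h3⟩ := h'
      rw [h3] at hw
      simp at hw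
    | cons y l₁ =>
      simp only [List.cons_append, List.cons.injEq] at h'
      obtain ⟨rfl, h3⟩ := h'
      rw [h3] at hw
      simp at hw

/-- Every letter of a word of length at least two has a successor and a predecessor. -/
theorem ca_exists_right {w : List α} (hw : 2 ≤ w.length) {p : α} (h : p ∈ w) : ∃ q, CA w p q := by
  obtain ⟨l₁, l₂, rfl⟩ := List.append_of_mem h
  have hr : (l₁ ++ p :: l₂) ~r (p :: (l₂ ++ l₁)) := tw1_rotated l₁ (p :: l₂)
  have hlen : (l₂ ++ l₁).length ≠ 0 := by
    simp only [List.length_append, List.length_cons] at hw ⊢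
    omega
  cases h2 : l₂ ++ l₁ with
  | nil => rw [h2] at hlen; simp at hlen
  | cons q m =>
    rw [h2] at hr
    exact ⟨q, m, hr⟩

theorem ca_exists_left {w : List α} (hw : 2 ≤ w.length) {q : α} (h : q ∈ w) : ∃ p, CA w p q := by
  obtain ⟨l₁, l₂, rfl⟩ := List.append_of_mem h
  have hr : (l₁ ++ q :: l₂) ~r (q :: (l₂ ++ l₁)) := tw1_rotated l₁ (q :: l₂)
  have hlen : (l₂ ++ l₁).length ≠ 0 := by
    simp only [List.length_append, List.length_cons] at hw ⊢
    omega
  rcases List.eq_nil_or_concat (l₂ ++ l₁) with h2 | ⟨m, p, h2⟩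
  · rw [h2] at hlen; simp at hlen
  · rw [h2, List.concat_eq_append] at hr
    refine ⟨p, m, hr.trans ?_⟩
    have := tw1_rotated (q :: m) [p]
    simpa using this

/-- Cutting out a piece: the closed lists of `a :: (m ++ b :: l)` and of `b :: l`. -/
theorem fol_sub_ca (a b : α) (m l : List α) {p q : α} (h : Fol (b :: (l ++ [a])) p q) :
    CA (a :: (m ++ b :: l)) p q := by
  rw [ca_iff a (m ++ b :: l) (by simp)]
  obtain ⟨l₁, l₂, h⟩ := h
  refine ⟨a :: (m ++ l₁), l₂, ?_⟩
  have : a :: (m ++ b :: l ++ [a]) = a :: (m ++ (b :: (l ++ [a]))) := by simp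
  rw [this, h]
  simp

/-- The cyclic successors after cutting out `m`. -/
theorem ca_cut (a b : α) (l : List α) {p q : α} (h : CA (a :: b :: l) p q) :
    (p = a ∧ q = b) ∨ Fol (b :: (l ++ [a])) p q := by
  rw [ca_iff a (b :: l) (by simp), List.cons_append, fol_cons_cons] at h
  exact h

/-- The sides of the remaining path avoid the deleted letters. -/
theorem fol_facts (a b : α) (m l : List α) (hw : (a :: (m ++ b :: l)).Nodup) {p q : α}
    (h : Fol (b :: (l ++ [a])) p q) :
    p ∉ m ∧ q ∉ m ∧ p ≠ a ∧ q ≠ b ∧ (l ≠ [] → ¬ (p = b ∧ q = a)) := by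
  have hn : (b :: (l ++ [a])).Nodup := by
    have h1 : (m ++ (b :: l ++ [a])).Nodup := by
      have : (a :: (m ++ b :: l)) ~r ((m ++ b :: l) ++ [a]) := tu1_rot a _
      rw [this.nodup_iff, List.append_assoc] at hw
      exact hw
    exact (List.nodup_append.1 h1).2.1
  have hd : ∀ x ∈ b :: (l ++ [a]), x ∉ m := by
    have h1 : (m ++ (b :: l ++ [a])).Nodup := by
      have : (a :: (m ++ b :: l)) ~r ((m ++ b :: l) ++ [a]) := tu1_rot a _
      rw [this.nodup_iff, List.append_assoc] at hw
      exact hw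
    intro x hx hxm
    exact (List.nodup_append.1 h1).2.2 x hxm x hx rfl
  obtain ⟨l₁, l₂, h⟩ := h
  have hp : p ∈ b :: (l ++ [a]) := by rw [h]; simp
  have hq : q ∈ b :: (l ++ [a]) := by rw [h]; simp
  refine ⟨hd p hp, hd q hq, ?_, ?_, ?_⟩
  · rintro rfl
    obtain ⟨t, y, ht⟩ : ∃ t y, q :: l₂ = t ++ [y] := by
      rcases List.eq_nil_or_concat (q :: l₂) with h2 | ⟨t, y, h2⟩
      · simp at h2
      · exact ⟨t, y, by rw [h2, List.concat_eq_append]⟩
    rw [ht] at h
    have h3 : (b :: l) ++ [p] = (l₁ ++ p :: t) ++ [y] := by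
      rw [List.cons_append, h]
      simp
    obtain ⟨h4, -⟩ := List.append_inj' h3 rfl
    have h5 : b :: (l ++ [p]) = (l₁ ++ p :: t) ++ [p] := by
      rw [← List.cons_append, h4]
    rw [h5] at hn
    simp [List.nodup_append] at hn
  · rintro rfl
    cases l₁ with
    | nil =>
      simp only [List.nil_append, List.cons.injEq] at h
      obtain ⟨rfl, h⟩ := h
      rw [h] at hn
      simp at hn
    | cons y l₁ =>
      simp only [List.cons_append, List.cons.injEq] at h
      obtain ⟨rfl, h⟩ := h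
      rw [h] at hn
      simp at hn
  · rintro hl ⟨rfl, rfl⟩
    cases l₁ with
    | nil =>
      simp only [List.nil_append, List.cons.injEq, true_and] at h
      cases l with
      | nil => exact hl rfl
      | cons c l =>
        simp only [List.cons_append, List.cons.injEq] at h
        obtain ⟨rfl, -⟩ := h
        simp at hn
    | cons y l₁ =>
      simp only [List.cons_append, List.cons.injEq] at h
      obtain ⟨rfl, h⟩ := h
      rw [h] at hn
      simp at hn

end H46K
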