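import Pool.Agent.Lib.H46K.TZ0
import Pool.Agent.Lib.H46K.TW1

/-!
# H46K chunk TC1 (M): the sides of an arc

The arc of the edge `u v` of `TG m n X` (`m, n ≥ 3`) is the word `lett u :: (midw u v ++ [lett v])`.
* every pair of consecutive letters of it is a `Side`: `inl i, inl j` adjacent: `j = i + 1 mod m` or
  `i = j + 1 mod m`; either `|i - j| = 1` (not the closing edge as `m ≥ 3`): one side `A, A`; or
  `{i, j} = {0, m-1}`: sides `A 1, P`, `P, A m`;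
* the unordered pair `s(p,q)` of letters determines the edge (`m ≥ 3`): if `s(p,q) = s(p',q')` for consecutive
  letters of the arcs of `u v` and of `u' v'` then `s(u,v) = s(u',v')`;
* if the letter `P` (or `Q`) is on both arcs then the edges are the same;
* `midw v u = (midw u v).reverse`.
-/

set_option autoImplicit false

namespace H46K

variable {m n : ℕ} {X : Set (Fin m × Fin n)}

theorem lett_inj : Function.Injective (lett (m := m) (n := n)) := by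
  rintro (i | i) (j | j) h
  · simp only [lett, Lt.A.injEq, Nat.add_right_cancel_iff] at h
    rw [Fin.ext h]
  · cases h
  · cases h
  · simp only [lett, Lt.B.injEq, Nat.add_right_cancel_iff] at h
    rw [Fin.ext h]

theorem midw_symm (u v : Fin m ⊕ Fin n) : midw v u = (midw u v).reverse := by
  rcases u with i | i <;> rcases v with j | j
  · simp only [midw]
    by_cases h : (i.1 = 0 ∧ j.1 + 1 = m) ∨ (j.1 = 0 ∧ i.1 + 1 = m)
    · rw [if_pos h, if_pos h.symm]; rfl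
    · rw [if_neg h, if_neg (fun h' => h h'.symm)]; rfl
  · rfl
  · rfl
  · simp only [midw]
    by_cases h : (i.1 = 0 ∧ j.1 + 1 = n) ∨ (j.1 = 0 ∧ i.1 + 1 = n)
    · rw [if_pos h, if_pos h.symm]; rfl
    · rw [if_neg h, if_neg (fun h' => h h'.symm)]; rfl

/-- `Fol` in a two letter list -/
theorem tc1_fol2 {α : Type*} (a b p q : α) : Fol [a, b] p q ↔ p = a ∧ q = b := by
  constructor
  · rintro ⟨l₁, l₂, h⟩
    rcases l₁ with _ | ⟨x, l₁⟩
    · simp at h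
      exact ⟨h.1.symm, h.2.1.symm⟩
    · rcases l₁ with _ | ⟨y, l₁⟩
      · simp at h
      · simp at h
  · rintro ⟨rfl, rfl⟩
    exact ⟨[], [], rfl⟩

theorem tc1_fol3 {α : Type*} (a b c p q : α) :
    Fol [a, b, c] p q ↔ (p = a ∧ q = b) ∨ (p = b ∧ q = c) := by
  constructor
  · rintro ⟨l₁, l₂, h⟩
    rcases l₁ with _ | ⟨x, l₁⟩
    · simp at h
      exact Or.inl ⟨h.1.symm, h.2.1.symm⟩
    · rcases l₁ with _ | ⟨y, l₁⟩
      · simp at h
        exact Or.inr ⟨h.2.1.symm, h.2.2.1.symm⟩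
      · rcases l₁ with _ | ⟨z, l₁⟩
        · simp at h
        · simp at h
  · rintro (⟨rfl, rfl⟩ | ⟨rfl, rfl⟩)
    · exact ⟨[], [c], rfl⟩
    · exact ⟨[a], [], rfl⟩

/-- the closing condition -/
def tc1_cl (k i j : ℕ) : Prop := (i = 0 ∧ j + 1 = k) ∨ (j = 0 ∧ i + 1 = k)

theorem tc1_row (i j : Fin m) (p q : Lt)
    (hpq : Fol (lett (.inl i : Fin m ⊕ Fin n) :: (midw (.inl i : Fin m ⊕ Fin n) (.inl j) ++
      [lett (.inl j : Fin m ⊕ Fin n)])) p q) :
    (tc1_cl m i.1 j.1 ∧ ((p = .A (i.1 + 1) ∧ q = .P) ∨ (p = .P ∧ q = .A (j.1 + 1)))) ∨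
    (¬ tc1_cl m i.1 j.1 ∧ p = .A (i.1 + 1) ∧ q = .A (j.1 + 1)) := by
  simp only [midw] at hpq
  by_cases h : (i.1 = 0 ∧ j.1 + 1 = m) ∨ (j.1 = 0 ∧ i.1 + 1 = m)
  · rw [if_pos h] at hpq
    exact Or.inl ⟨h, (tc1_fol3 _ _ _ _ _).1 hpq⟩
  · rw [if_neg h] at hpq
    exact Or.inr ⟨h, (tc1_fol2 _ _ _ _).1 hpq⟩

theorem tc1_col (i j : Fin n) (p q : Lt)
    (hpq : Fol (lett (.inr i : Fin m ⊕ Fin n) :: (midw (.inr i : Fin m ⊕ Fin n) (.inr j) ++
      [lett (.inr j : Fin m ⊕ Fin n)])) p q) :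
    (tc1_cl n i.1 j.1 ∧ ((p = .B (i.1 + 1) ∧ q = .Q) ∨ (p = .Q ∧ q = .B (j.1 + 1)))) ∨
    (¬ tc1_cl n i.1 j.1 ∧ p = .B (i.1 + 1) ∧ q = .B (j.1 + 1)) := by
  simp only [midw] at hpq
  by_cases h : (i.1 = 0 ∧ j.1 + 1 = n) ∨ (j.1 = 0 ∧ i.1 + 1 = n)
  · rw [if_pos h] at hpq
    exact Or.inl ⟨h, (tc1_fol3 _ _ _ _ _).1 hpq⟩
  · rw [if_neg h] at hpq
    exact Or.inr ⟨h, (tc1_fol2 _ _ _ _).1 hpq⟩

theorem tc1_adj {k : ℕ} (i j : Fin k) (h : i ≠ j ∧ (Nxt i j ∨ Nxt j i))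
    (hc : ¬ tc1_cl k i.1 j.1) : j.1 = i.1 + 1 ∨ i.1 = j.1 + 1 := by
  obtain ⟨hne, h | h⟩ := h
  · unfold Nxt at h
    rcases Nat.lt_or_ge (i.1 + 1) k with h' | h'
    · rw [Nat.mod_eq_of_lt h'] at h
      exact Or.inl h.symm
    · have h2 : i.1 + 1 = k := by omega
      rw [h2, Nat.mod_self] at h
      exact absurd (Or.inr ⟨h.symm, h2⟩) hc
  · unfold Nxt at h
    rcases Nat.lt_or_ge (j.1 + 1) k with h' | h'
    · rw [Nat.mod_eq_of_lt h'] at h
      exact Or.inr h.symm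
    · have h2 : j.1 + 1 = k := by omega
      rw [h2, Nat.mod_self] at h
      exact absurd (Or.inl ⟨h.symm, h2⟩) hc

theorem side_of_arc (hm : 3 ≤ m) (hn : 3 ≤ n) (u v : Fin m ⊕ Fin n) (h : (TG m n X).Adj u v)
    (p q : Lt) (hpq : Fol (lett u :: (midw u v ++ [lett v])) p q) : Side m n X p q := by
  rcases u with i | i <;> rcases v with j | j
  · have h' : i ≠ j ∧ (Nxt i j ∨ Nxt j i) := h
    have hi := i.2
    have hj := j.2
    rcases tc1_row i j p q hpq with ⟨hc, ⟨rfl, rfl⟩ | ⟨rfl, rfl⟩⟩ | ⟨hc, rfl, rfl⟩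
    · refine Or.inl (SideH.AP _ ?_)
      unfold tc1_cl at hc
      omega
    · refine Or.inr (SideH.AP _ ?_)
      unfold tc1_cl at hc
      omega
    · rcases tc1_adj i j h' hc with e | e
      · rw [e]
        exact Or.inl (SideH.AA _ (by omega) (by omega))
      · rw [e]
        exact Or.inr (SideH.AA _ (by omega) (by omega))
  · have h' : (i, j) ∈ X := h
    obtain ⟨rfl, rfl⟩ := (tc1_fol2 _ _ _ _).1 hpq
    exact Or.inl (SideH.AB i j h')
  · have h' : (j, i) ∈ X := h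
    obtain ⟨rfl, rfl⟩ := (tc1_fol2 _ _ _ _).1 hpq
    exact Or.inr (SideH.AB j i h')
  · have h' : i ≠ j ∧ (Nxt i j ∨ Nxt j i) := h
    have hi := i.2
    have hj := j.2
    rcases tc1_col i j p q hpq with ⟨hc, ⟨rfl, rfl⟩ | ⟨rfl, rfl⟩⟩ | ⟨hc, rfl, rfl⟩
    · refine Or.inl (SideH.BQ _ ?_)
      unfold tc1_cl at hc
      omega
    · refine Or.inr (SideH.BQ _ ?_)
      unfold tc1_cl at hc
      omega
    · rcases tc1_adj i j h' hc with e | e
      · rw [e]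
        exact Or.inl (SideH.BB _ (by omega) (by omega))
      · rw [e]
        exact Or.inr (SideH.BB _ (by omega) (by omega))

/-- the unordered pair of the ends of an edge, from an unordered pair of letters on its arc -/
def tc1_key (m n : ℕ) : Lt → Lt → Lt → Lt → Prop := fun p q a b =>
  (p ≠ .P ∧ q ≠ .P ∧ p ≠ .Q ∧ q ≠ .Q ∧ s(p, q) = s(a, b)) ∨
  ((p = .P ∨ q = .P) ∧ s(a, b) = s(.A 1, .A m)) ∨
  ((p = .Q ∨ q = .Q) ∧ s(a, b) = s(.B 1, .B n))

theorem tc1_clA {k i j : ℕ} (h : tc1_cl k i j) :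
    s(Lt.A (i + 1), Lt.A (j + 1)) = s(Lt.A 1, Lt.A k) := by
  rcases h with ⟨rfl, rfl⟩ | ⟨rfl, rfl⟩
  · rfl
  · exact Sym2.eq_swap

theorem tc1_clB {k i j : ℕ} (h : tc1_cl k i j) :
    s(Lt.B (i + 1), Lt.B (j + 1)) = s(Lt.B 1, Lt.B k) := by
  rcases h with ⟨rfl, rfl⟩ | ⟨rfl, rfl⟩
  · rfl
  · exact Sym2.eq_swap

theorem tc1_key_of (u v : Fin m ⊕ Fin n)
    (p q : Lt) (hpq : Fol (lett u :: (midw u v ++ [lett v])) p q) :
    tc1_key m n p q (lett u) (lett v) := by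
  rcases u with i | i <;> rcases v with j | j
  · rcases tc1_row i j p q hpq with ⟨hc, ⟨rfl, rfl⟩ | ⟨rfl, rfl⟩⟩ | ⟨hc, rfl, rfl⟩
    · exact Or.inr (Or.inl ⟨Or.inr rfl, tc1_clA hc⟩)
    · exact Or.inr (Or.inl ⟨Or.inl rfl, tc1_clA hc⟩)
    · exact Or.inl ⟨by simp, by simp, by simp, by simp, rfl⟩
  · obtain ⟨rfl, rfl⟩ := (tc1_fol2 _ _ _ _).1 hpq
    exact Or.inl ⟨by simp [lett], by simp [lett], by simp [lett], by simp [lett], rfl⟩
  · obtain ⟨rfl, rfl⟩ := (tc1_fol2 _ _ _ _).1 hpq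
    exact Or.inl ⟨by simp [lett], by simp [lett], by simp [lett], by simp [lett], rfl⟩
  · rcases tc1_col i j p q hpq with ⟨hc, ⟨rfl, rfl⟩ | ⟨rfl, rfl⟩⟩ | ⟨hc, rfl, rfl⟩
    · exact Or.inr (Or.inr ⟨Or.inr rfl, tc1_clB hc⟩)
    · exact Or.inr (Or.inr ⟨Or.inl rfl, tc1_clB hc⟩)
    · exact Or.inl ⟨by simp, by simp, by simp, by simp, rfl⟩

theorem tc1_lett_sym {u v u' v' : Fin m ⊕ Fin n} (h : s(lett u, lett v) = s(lett u', lett v')) :
    s(u, v) = s(u', v') := by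
  have h' : Sym2.map (lett (m := m) (n := n)) s(u, v) = Sym2.map lett s(u', v') := by
    simpa only [Sym2.map_pair_eq] using h
  exact Sym2.map.injective lett_inj h'

theorem tc1_memP {p q p' q' : Lt} (he : s(p, q) = s(p', q')) (r : Lt) (h : p = r ∨ q = r) :
    p' = r ∨ q' = r := by
  have : r ∈ s(p, q) := by
    rcases h with rfl | rfl
    · exact Sym2.mem_mk_left _ _
    · exact Sym2.mem_mk_right _ _
  rw [he] at this
  rcases Sym2.mem_iff.1 this with h | h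
  · exact Or.inl h.symm
  · exact Or.inr h.symm

theorem edge_of_side (hm : 3 ≤ m) (hn : 3 ≤ n) (u v u' v' : Fin m ⊕ Fin n)
    (h : (TG m n X).Adj u v) (h' : (TG m n X).Adj u' v') (p q p' q' : Lt)
    (hpq : Fol (lett u :: (midw u v ++ [lett v])) p q)
    (hpq' : Fol (lett u' :: (midw u' v' ++ [lett v'])) p' q') (he : s(p, q) = s(p', q')) :
    s(u, v) = s(u', v') := by
  apply tc1_lett_sym
  -- a side does not contain both `P` and `Q`
  have hno : ∀ p q : Lt, Side m n X p q → (p = .P ∨ q = .P) → (p = .Q ∨ q = .Q) → False := by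
    rintro p q (h | h) h1 h2 <;> cases h <;> simp at h1 h2
  have hs := side_of_arc hm hn u v h p q hpq
  rcases tc1_key_of u v p q hpq with ⟨k1, k2, k3, k4, k5⟩ | ⟨k1, k2⟩ | ⟨k1, k2⟩ <;>
  rcases tc1_key_of u' v' p' q' hpq' with ⟨l1, l2, l3, l4, l5⟩ | ⟨l1, l2⟩ | ⟨l1, l2⟩
  · rw [← k5, ← l5, he]
  · exfalso
    rcases tc1_memP he.symm .P l1 with h | h
    · exact k1 h
    · exact k2 h
  · exfalso
    rcases tc1_memP he.symm .Q l1 with h | h
    · exact k3 h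
    · exact k4 h
  · exfalso
    rcases tc1_memP he .P k1 with h | h
    · exact l1 h
    · exact l2 h
  · rw [k2, l2]
  · exfalso
    exact hno p q hs k1 (tc1_memP he.symm .Q l1)
  · exfalso
    rcases tc1_memP he .Q k1 with h | h
    · exact l3 h
    · exact l4 h
  · exfalso
    exact hno p q hs (tc1_memP he.symm .P l1) k1
  · rw [k2, l2]

theorem tc1_letters (u v : Fin m ⊕ Fin n) (r : Lt)
    (hr : r ∈ lett u :: (midw u v ++ [lett v])) :
    r = lett u ∨ r = lett v ∨ (r = .P ∧ s(lett u, lett v) = s(.A 1, .A m)) ∨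
      (r = .Q ∧ s(lett u, lett v) = s(.B 1, .B n)) := by
  rcases List.mem_cons.1 hr with h | h
  · exact Or.inl h
  rcases List.mem_append.1 h with h | h
  swap
  · exact Or.inr (Or.inl (List.mem_singleton.1 h))
  rcases u with i | i <;> rcases v with j | j
  · simp only [midw] at h
    by_cases hc : (i.1 = 0 ∧ j.1 + 1 = m) ∨ (j.1 = 0 ∧ i.1 + 1 = m)
    · rw [if_pos hc] at h
      exact Or.inr (Or.inr (Or.inl ⟨List.mem_singleton.1 h, tc1_clA hc⟩))
    · rw [if_neg hc] at h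
      cases h
  · cases h
  · cases h
  · simp only [midw] at h
    by_cases hc : (i.1 = 0 ∧ j.1 + 1 = n) ∨ (j.1 = 0 ∧ i.1 + 1 = n)
    · rw [if_pos hc] at h
      exact Or.inr (Or.inr (Or.inr ⟨List.mem_singleton.1 h, tc1_clB hc⟩))
    · rw [if_neg hc] at h
      cases h

theorem tc1_lett_ne (u : Fin m ⊕ Fin n) : lett u ≠ .P ∧ lett u ≠ .Q := by
  rcases u with i | i <;> simp [lett]

/-- A common letter of two different arcs is a common end vertex. -/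
theorem common_letter (hm : 3 ≤ m) (hn : 3 ≤ n) (u v u' v' : Fin m ⊕ Fin n)
    (h : (TG m n X).Adj u v) (h' : (TG m n X).Adj u' v') (hne : s(u, v) ≠ s(u', v')) (r : Lt)
    (hr : r ∈ lett u :: (midw u v ++ [lett v])) (hr' : r ∈ lett u' :: (midw u' v' ++ [lett v'])) :
    ∃ w, (w = u ∨ w = v) ∧ (w = u' ∨ w = v') ∧ r = lett w := by
  have e : (∃ w, (w = u ∨ w = v) ∧ r = lett w) ∨ (r = .P ∧ s(lett u, lett v) = s(.A 1, .A m)) ∨
      (r = .Q ∧ s(lett u, lett v) = s(.B 1, .B n)) := by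
    rcases tc1_letters u v r hr with h | h | h | h
    · exact Or.inl ⟨u, Or.inl rfl, h⟩
    · exact Or.inl ⟨v, Or.inr rfl, h⟩
    · exact Or.inr (Or.inl h)
    · exact Or.inr (Or.inr h)
  have e' : (∃ w, (w = u' ∨ w = v') ∧ r = lett w) ∨
      (r = .P ∧ s(lett u', lett v') = s(.A 1, .A m)) ∨
      (r = .Q ∧ s(lett u', lett v') = s(.B 1, .B n)) := by
    rcases tc1_letters u' v' r hr' with h | h | h | h
    · exact Or.inl ⟨u', Or.inl rfl, h⟩
    · exact Or.inl ⟨v', Or.inr rfl, h⟩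
    · exact Or.inr (Or.inl h)
    · exact Or.inr (Or.inr h)
  rcases e with ⟨w, hw, rfl⟩ | ⟨rfl, k⟩ | ⟨rfl, k⟩
  · rcases e' with ⟨w', hw', h3⟩ | ⟨h3, _⟩ | ⟨h3, _⟩
    · have : w = w' := lett_inj h3
      subst this
      exact ⟨w, hw, hw', rfl⟩
    · exact absurd h3 (tc1_lett_ne w).1
    · exact absurd h3 (tc1_lett_ne w).2
  · rcases e' with ⟨w', hw', h3⟩ | ⟨_, k'⟩ | ⟨h3, _⟩
    · exact absurd h3.symm (tc1_lett_ne w').1
    · exact absurd (tc1_lett_sym (k.trans k'.symm)) hne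
    · cases h3
  · rcases e' with ⟨w', hw', h3⟩ | ⟨h3, _⟩ | ⟨_, k'⟩
    · exact absurd h3.symm (tc1_lett_ne w').2
    · cases h3
    · exact absurd (tc1_lett_sym (k.trans k'.symm)) hne

end H46K
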