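import Pool.Agent.Lib.H46K.TW2

/-!
# H46K chunk TL1 (M): the rooks of an alternating word

`w` satisfies `Inv`, is alternating and has at least `4` letters.  All letters are `A` or `B` letters (every
letter has a successor, `ca_exists_right`, and `Alt`).  The successor map is a bijection from the `A`
letters to the `B` letters (`ca_unique_left/right`, `ca_exists_left`), so both numbers are equal to `r`, and
`2 r = w.length` (no repetitions).  `rk w` is finite; every `A a` has exactly two neighbours: its successor and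
its predecessor, which are different (if `CA w (A a) (B u)` and `CA w (B u) (A a)` then `w` has length `2`:
a rotation starts with `A a, B u` and the successor of `B u` is the third letter).
-/

set_option autoImplicit false

namespace H46K

theorem ca_not_symm {w : List Lt} (hw : w.Nodup) (h3 : 3 ≤ w.length) {p q : Lt} (h : CA w p q) :
    ¬ CA w q p := by
  intro h'
  obtain ⟨l, hl⟩ := h
  rcases l with _ | ⟨r, l⟩
  · have := hl.perm.length_eq
    simp at this
    omega
  · have hr : CA w q r := ⟨l ++ [p], hl.trans ⟨1, by simp⟩⟩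
    have e : r = p := ca_unique_right hw hr h'
    have hn := hl.nodup_iff.1 hw
    rw [e] at hn
    simp at hn

open Classical in
/-- The rows of a word. -/
noncomputable def tl1_R (w : List Lt) : Finset ℕ :=
  (w.filterMap fun p => match p with | .A a => some a | _ => none).toFinset

open Classical in
/-- The columns of a word. -/
noncomputable def tl1_C (w : List Lt) : Finset ℕ :=
  (w.filterMap fun p => match p with | .B a => some a | _ => none).toFinset

theorem tl1_memR (w : List Lt) (a : ℕ) : a ∈ tl1_R w ↔ Lt.A a ∈ w := by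
  unfold tl1_R
  rw [List.mem_toFinset, List.mem_filterMap]
  constructor
  · rintro ⟨p, hp, h⟩
    cases p <;> simp at h
    subst h
    exact hp
  · intro h
    exact ⟨_, h, rfl⟩

theorem tl1_memC (w : List Lt) (a : ℕ) : a ∈ tl1_C w ↔ Lt.B a ∈ w := by
  unfold tl1_C
  rw [List.mem_toFinset, List.mem_filterMap]
  constructor
  · rintro ⟨p, hp, h⟩
    cases p <;> simp at h
    subst h
    exact hp
  · intro h
    exact ⟨_, h, rfl⟩

open Classical in
theorem alt_support (w : List Lt) (h : Inv w) (h4 : 4 ≤ w.length) (ha : Alt w) :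
    ∃ (X : Finset (ℕ × ℕ)) (r : ℕ), (X : Set (ℕ × ℕ)) = rk w ∧ 2 * r = w.length ∧
      (X.image Prod.fst).card = r ∧ (X.image Prod.snd).card = r ∧
      (∀ a, a ∈ X.image Prod.fst ↔ Lt.A a ∈ w) ∧ (∀ b, b ∈ X.image Prod.snd ↔ Lt.B b ∈ w) ∧
      (∀ a ∈ X.image Prod.fst, (X.filter fun p => p.1 = a).card = 2) ∧
      (∀ b ∈ X.image Prod.snd, (X.filter fun p => p.2 = b).card = 2) := by
  let X : Finset (ℕ × ℕ) := (tl1_R w ×ˢ tl1_C w).filter (fun x => x ∈ rk w)
  have hmem : ∀ x : ℕ × ℕ, x ∈ X ↔ x ∈ rk w := by
    rintro ⟨a, b⟩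
    constructor
    · intro hx
      exact (Finset.mem_filter.1 hx).2
    · intro hx
      refine Finset.mem_filter.2 ⟨Finset.mem_product.2 ⟨?_, ?_⟩, hx⟩
      · rw [tl1_memR]
        rcases hx with hx | hx
        · exact (ca_mem hx).1
        · exact (ca_mem hx).2
      · rw [tl1_memC]
        rcases hx with hx | hx
        · exact (ca_mem hx).2
        · exact (ca_mem hx).1
  have h2 : 2 ≤ w.length := by omega
  -- the two neighbours of an A letter
  have nbA : ∀ a, Lt.A a ∈ w → ∃ b c, b ≠ c ∧ CA w (.A a) (.B b) ∧ CA w (.B c) (.A a) := by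
    intro a hA
    obtain ⟨q, hq⟩ := ca_exists_right h2 hA
    obtain ⟨p, hp⟩ := ca_exists_left h2 hA
    obtain ⟨b, rfl⟩ : ∃ b, q = .B b := by
      rcases ha _ _ hq with ⟨_, u, _, h2⟩ | ⟨_, u, h1, _⟩
      · exact ⟨u, h2⟩
      · cases h1
    obtain ⟨c, rfl⟩ : ∃ c, p = .B c := by
      rcases ha _ _ hp with ⟨_, u, _, h2⟩ | ⟨_, u, h1, _⟩
      · cases h2
      · exact ⟨u, h1⟩
    refine ⟨b, c, ?_, hq, hp⟩
    rintro rfl
    exact ca_not_symm h.nodup (by omega) hq hp
  have nbB : ∀ b, Lt.B b ∈ w → ∃ a c, a ≠ c ∧ CA w (.B b) (.A a) ∧ CA w (.A c) (.B b) := by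
    intro b hB
    obtain ⟨q, hq⟩ := ca_exists_right h2 hB
    obtain ⟨p, hp⟩ := ca_exists_left h2 hB
    obtain ⟨a, rfl⟩ : ∃ a, q = .A a := by
      rcases ha _ _ hq with ⟨_, u, h1, _⟩ | ⟨s, _, _, h2⟩
      · cases h1
      · exact ⟨s, h2⟩
    obtain ⟨c, rfl⟩ : ∃ c, p = .A c := by
      rcases ha _ _ hp with ⟨s, u, h1, _⟩ | ⟨_, u, _, h2⟩
      · exact ⟨s, h1⟩
      · cases h2
    refine ⟨a, c, ?_, hq, hp⟩
    rintro rfl
    exact ca_not_symm h.nodup (by omega) hq hp
  have hR : X.image Prod.fst = tl1_R w := by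
    ext a
    rw [Finset.mem_image, tl1_memR]
    constructor
    · rintro ⟨x, hx, rfl⟩
      exact (tl1_memR w _).1 (Finset.mem_product.1 (Finset.mem_filter.1 hx).1).1
    · intro hA
      obtain ⟨b, c, _, hb, _⟩ := nbA a hA
      exact ⟨(a, b), (hmem _).2 (Or.inl hb), rfl⟩
  have hC : X.image Prod.snd = tl1_C w := by
    ext b
    rw [Finset.mem_image, tl1_memC]
    constructor
    · rintro ⟨x, hx, rfl⟩
      exact (tl1_memC w _).1 (Finset.mem_product.1 (Finset.mem_filter.1 hx).1).2
    · intro hB
      obtain ⟨a, c, _, hb, _⟩ := nbB b hB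
      exact ⟨(a, b), (hmem _).2 (Or.inr hb), rfl⟩
  have f1 : ∀ a ∈ X.image Prod.fst, (X.filter fun p => p.1 = a).card = 2 := by
    intro a haR
    rw [hR, tl1_memR] at haR
    obtain ⟨b, c, hbc, hb, hc⟩ := nbA a haR
    have : (X.filter fun p => p.1 = a) = {(a, b), (a, c)} := by
      ext ⟨x, y⟩
      rw [Finset.mem_filter, Finset.mem_insert, Finset.mem_singleton, hmem]
      constructor
      · rintro ⟨hxy, hx⟩
        simp only at hx
        subst hx
        rcases hxy with hxy | hxy
        · left
          have e := ca_unique_right h.nodup hxy hb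
          have e' : y = _ := Lt.B.inj e
          rw [e']
        · right
          have e := ca_unique_left h.nodup hxy hc
          have e' : y = _ := Lt.B.inj e
          rw [e']
      · rintro (e | e)
        · rw [e]
          exact ⟨Or.inl hb, rfl⟩
        · rw [e]
          exact ⟨Or.inr hc, rfl⟩
    rw [this]
    exact Finset.card_pair (fun e => hbc (Prod.ext_iff.1 e).2)
  have f2 : ∀ b ∈ X.image Prod.snd, (X.filter fun p => p.2 = b).card = 2 := by
    intro b hbC
    rw [hC, tl1_memC] at hbC
    obtain ⟨a, c, hac, hb, hc⟩ := nbB b hbC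
    have : (X.filter fun p => p.2 = b) = {(a, b), (c, b)} := by
      ext ⟨x, y⟩
      rw [Finset.mem_filter, Finset.mem_insert, Finset.mem_singleton, hmem]
      constructor
      · rintro ⟨hxy, hx⟩
        simp only at hx
        subst hx
        rcases hxy with hxy | hxy
        · right
          have e := ca_unique_left h.nodup hxy hc
          have e' : x = _ := Lt.A.inj e
          rw [e']
        · left
          have e := ca_unique_right h.nodup hxy hb
          have e' : x = _ := Lt.A.inj e
          rw [e']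
      · rintro (e | e)
        · rw [e]
          exact ⟨Or.inr hb, rfl⟩
        · rw [e]
          exact ⟨Or.inl hc, rfl⟩
    rw [this]
    exact Finset.card_pair (fun e => hac (Prod.ext_iff.1 e).1)
  have c1 : X.card = 2 * (tl1_R w).card := by
    rw [← hR, Finset.card_eq_sum_card_image Prod.fst X, Finset.sum_const_nat f1]
    ring
  have c2 : X.card = 2 * (tl1_C w).card := by
    rw [← hC, Finset.card_eq_sum_card_image Prod.snd X, Finset.sum_const_nat f2]
    ring
  have c3 : (tl1_R w).card + (tl1_C w).card = w.length := by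
    have e : w.toFinset = (tl1_R w).image Lt.A ∪ (tl1_C w).image Lt.B := by
      ext p
      rw [List.mem_toFinset, Finset.mem_union, Finset.mem_image, Finset.mem_image]
      constructor
      · intro hp
        obtain ⟨q, hq⟩ := ca_exists_right h2 hp
        rcases ha _ _ hq with ⟨s, u, h1, _⟩ | ⟨s, u, h1, _⟩
        · left
          exact ⟨s, (tl1_memR w s).2 (by rwa [← h1]), h1.symm⟩
        · right
          exact ⟨u, (tl1_memC w u).2 (by rwa [← h1]), h1.symm⟩
      · rintro (⟨a, ha', rfl⟩ | ⟨b, hb', rfl⟩)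
        · exact (tl1_memR w a).1 ha'
        · exact (tl1_memC w b).1 hb'
    have hd : Disjoint ((tl1_R w).image Lt.A) ((tl1_C w).image Lt.B) := by
      rw [Finset.disjoint_left]
      intro p hp hp'
      obtain ⟨a, _, rfl⟩ := Finset.mem_image.1 hp
      obtain ⟨b, _, hb⟩ := Finset.mem_image.1 hp'
      cases hb
    rw [← List.toFinset_card_of_nodup h.nodup, e, Finset.card_union_of_disjoint hd,
      Finset.card_image_of_injective _ (fun a b e => Lt.A.inj e),
      Finset.card_image_of_injective _ (fun a b e => Lt.B.inj e)]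
  refine ⟨X, (tl1_R w).card, ?_, ?_, by rw [hR], ?_, ?_, ?_, f1, f2⟩
  · ext x
    exact hmem x
  · omega
  · rw [hC]
    omega
  · intro a
    rw [hR, tl1_memR]
  · intro b
    rw [hC, tl1_memC]

end H46K
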