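import Pool.Agent.Lib.H46K.TU1
import Pool.Agent.Lib.H46K.TU3
import Pool.Agent.Lib.H46K.TG1
import Pool.Agent.Lib.H46K.TG2
import Pool.Agent.Lib.H46K.TW2

/-!
# H46K chunk TS2 (M/L): shrinking a run over the closing edge

`w = A s, P, A t, B u, l`.  From `Alw w (A s) P`, `Alw w P (A t)`, `s ≠ t`: one of `s, t` is `1` and the other one is
at least `3` and the largest row index of `w` (all row indices are `≥ 1`).

Step 1: `Unknot [A s, P, B u, l]`. If `l = []`: `Unknot.tri` with `affInd_APB`. Otherwise `ins_of` with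
`a = A s`, `v = P`, `b = B u` (nondegenerate by `seg_seg`, `affInd_APB`). The sides `p, q` of the path
`B u, l, A s` are pairs of `w` (`fol_sub_ca`, `m = [P, A t]`) which avoid `P` and `A t` and are not
`(A s, B u)`, `(B u, A s)` (`fol_facts`). The convex hull of `{A s, P, B u}` is that of `{P, A s, B u}`
(`Set.insert_comm`). `A p, A q`: third coordinate `0`, `hullPAB_AA` gives `x = A s`; `B, B`: `hullPAB_BB`
(`s ≠ 5/2`); `B q, Q`: `hullPAB_BQ` (the hypothesis on `q` is `Alw` and `B u ∈ w`); `A p, B q`: `hullPAB_AB` with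
`τ = 5/2`: (`s < 5/2` and `s ≤ p`) or (`5/2 < s` and `p ≤ s`).

Step 2: rotate (`unknot_rot`) to `[P, B u, l, A s]` and use `ins_of` with `a = P`, `v = A t`, `b = B u`, list
`l ++ [A s]`; the path is `B u, l, A s, P` (`fol_concat`): its last side `A s, P`: `hullPAB_AP` (`s ≠ t`) gives
`x = P`. The other sides as before with `t` instead of `s`; for `A p, A q` the point would be `A t`, but `p, q ≠ t`
and `t` is the smallest or the largest row index, so `A t` is not on that side; `A p, B q`: `p ≠ t`.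
-/

set_option autoImplicit false

namespace H46K

/-- extreme row index -/
def ts2Ext (w : List Lt) (z : ℕ) : Prop :=
  (z = 1 ∧ ∀ r, Lt.A r ∈ w → z ≤ r) ∨ (3 ≤ z ∧ ∀ r, Lt.A r ∈ w → r ≤ z)

theorem ts2_side {w : List Lt} {z u : ℕ} (hz : ts2Ext w z) (hu : Lt.B u ∈ w) (hu1 : 1 ≤ u)
    {p q : Lt} (hp : p ∈ w) (hq : q ∈ w) (ha : Alw w p q) (hpP : p ≠ .P) (hqP : q ≠ .P)
    {x : P3} (hx : x ∈ convexHull ℝ {ptP (5 / 2), ptA z, ptB u})
    (hx' : x ∈ segment ℝ (pos p) (pos q)) :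
    x = ptB u ∨ (x = ptA z ∧ (p = .A z ∨ q = .A z ∨ ∃ p' q', p = .A p' ∧ q = .A q')) ∨
      (p = .A z ∧ q = .B u) ∨ (p = .B u ∧ q = .A z) := by
  have hAB : ∀ p' q' : ℕ, Lt.A p' ∈ w → x ∈ segment ℝ (ptA p') (ptB q') →
      x = ptB u ∨ (p' = z ∧ (x = ptA z ∨ q' = u)) := by
    intro p' q' hp' hxx
    refine hullPAB_AB (5 / 2) z u p' q' ?_ x hx hxx
    rcases hz with ⟨h1, h2⟩ | ⟨h1, h2⟩
    · left
      refine ⟨?_, h2 p' hp'⟩
      rw [h1]; norm_num
    · right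
      refine ⟨?_, h2 p' hp'⟩
      have : (3 : ℝ) ≤ z := by exact_mod_cast h1
      linarith
  have hz5 : (z : ℝ) ≠ 5 / 2 := by
    rcases hz with ⟨h1, _⟩ | ⟨h1, _⟩
    · rw [h1]; norm_num
    · have : (3 : ℝ) ≤ z := by exact_mod_cast h1
      intro h; linarith
  have hz13 : z = 1 ∨ 3 ≤ z := by
    rcases hz with ⟨h1, _⟩ | ⟨h1, _⟩
    · exact Or.inl h1
    · exact Or.inr h1
  have hBQ : ∀ q' : ℕ, (q' = 1 ∨ (3 ≤ q' ∧ ∀ r, Lt.B r ∈ w → r ≤ q')) →
      x ∈ segment ℝ (ptB q') ptQ → x = ptB u := by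
    intro q' hq' hxx
    refine hullPAB_BQ z u q' hu1 hz13 ?_ x hx hxx
    rcases hq' with h1 | ⟨h1, h2⟩
    · exact Or.inl h1
    · exact Or.inr ⟨h1, h2 u hu⟩
  match p, q, hp, hq, ha, hpP, hqP, hx' with
  | .A p', .A q', hp, hq, ha, _, _, hx' =>
    right; left
    refine ⟨hullPAB_AA (5 / 2) z u x hx ?_, Or.inr (Or.inr ⟨p', q', rfl, rfl⟩)⟩
    obtain ⟨c, d, _, _, _, rfl⟩ := hx'
    simp [pos, ptA]
  | .A p', .B q', hp, hq, ha, _, _, hx' =>
    rcases hAB p' q' hp hx' with h | ⟨h1, h2 | h2⟩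
    · exact Or.inl h
    · exact Or.inr (Or.inl ⟨h2, Or.inl (by rw [h1])⟩)
    · exact Or.inr (Or.inr (Or.inl ⟨by rw [h1], by rw [h2]⟩))
  | .B q', .A p', hp, hq, ha, _, _, hx' =>
    rw [segment_symm] at hx'
    rcases hAB p' q' hq hx' with h | ⟨h1, h2 | h2⟩
    · exact Or.inl h
    · exact Or.inr (Or.inl ⟨h2, Or.inr (Or.inl (by rw [h1]))⟩)
    · exact Or.inr (Or.inr (Or.inr ⟨by rw [h2], by rw [h1]⟩))
  | .B p', .B q', _, _, _, _, _, hx' =>
    exact Or.inl (hullPAB_BB (5 / 2) z u p' q' hz5 x hx hx')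
  | .B q', .Q, _, _, ha, _, _, hx' => exact Or.inl (hBQ q' ha hx')
  | .Q, .B q', _, _, ha, _, _, hx' =>
    rw [segment_symm] at hx'
    exact Or.inl (hBQ q' ha hx')
  | .P, _, _, _, _, h, _, _ => exact absurd rfl h
  | _, .P, _, _, _, _, h, _ => exact absurd rfl h
  | .A _, .Q, _, _, ha, _, _, _ => exact ha.elim
  | .Q, .A _, _, _, ha, _, _, _ => exact ha.elim
  | .Q, .Q, _, _, ha, _, _, _ => exact ha.elim

theorem step_APAB (s t u : ℕ) (l : List Lt) (h : Inv (.A s :: .P :: .A t :: .B u :: l))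
    (hU : l ≠ [] → Unknot ((Lt.A s :: .B u :: l).map pos)) :
    Unknot ((Lt.A s :: .P :: .A t :: .B u :: l).map pos) := by
  have hst : s ≠ t := by
    have := h.nodup
    simp only [List.nodup_cons, List.mem_cons, not_or, Lt.A.injEq] at this
    exact this.1.2.1
  have hu1 : 1 ≤ u := h.posB u (by simp)
  have hs1 : 1 ≤ s := h.posA s (by simp)
  have ht1 : 1 ≤ t := h.posA t (by simp)
  have hu0 : (u : ℝ) ≠ 0 := by
    have : (0 : ℝ) < u := by exact_mod_cast hu1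
    exact this.ne'
  have hbu : Lt.B u ∈ (Lt.A s :: .P :: .A t :: .B u :: l) := by simp
  have hsP : s = 1 ∨ (3 ≤ s ∧ ∀ r, Lt.A r ∈ (Lt.A s :: .P :: .A t :: .B u :: l) → r ≤ s) :=
    h.alw (.A s) .P ⟨_, List.IsRotated.refl _⟩
  have htP : t = 1 ∨ (3 ≤ t ∧ ∀ r, Lt.A r ∈ (Lt.A s :: .P :: .A t :: .B u :: l) → r ≤ t) :=
    h.alw .P (.A t) ⟨_, tu1_rot (Lt.A s) (.P :: .A t :: .B u :: l)⟩
  have hs_mem : Lt.A s ∈ (Lt.A s :: .P :: .A t :: .B u :: l) := by simp
  have ht_mem : Lt.A t ∈ (Lt.A s :: .P :: .A t :: .B u :: l) := by simp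
  have hext : ts2Ext (Lt.A s :: .P :: .A t :: .B u :: l) s ∧
      ts2Ext (Lt.A s :: .P :: .A t :: .B u :: l) t := by
    have e1 : ∀ z, (z = 1 ∨ (3 ≤ z ∧ ∀ r, Lt.A r ∈ (Lt.A s :: .P :: .A t :: .B u :: l) → r ≤ z)) →
        ts2Ext (Lt.A s :: .P :: .A t :: .B u :: l) z := by
      rintro z (h1 | h1)
      · left
        refine ⟨h1, fun r hr => ?_⟩
        rw [h1]
        exact h.posA r hr
      · exact Or.inr h1
    exact ⟨e1 s hsP, e1 t htP⟩
  obtain ⟨hes, het⟩ := hext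
  -- the sides of the path
  have hside : ∀ p q, Fol (Lt.B u :: (l ++ [Lt.A s])) p q →
      p ∈ (Lt.A s :: .P :: .A t :: .B u :: l) ∧ q ∈ (Lt.A s :: .P :: .A t :: .B u :: l) ∧
      Alw (Lt.A s :: .P :: .A t :: .B u :: l) p q ∧ p ≠ .P ∧ q ≠ .P ∧ p ≠ .A t ∧ q ≠ .A t ∧
      p ≠ .A s ∧ (l ≠ [] → ¬ (p = .B u ∧ q = .A s)) := by
    intro p q hf
    have h1 := fol_sub_ca (Lt.A s) (Lt.B u) [Lt.P, Lt.A t] l hf
    have h2 := fol_facts (Lt.A s) (Lt.B u) [Lt.P, Lt.A t] l h.nodup hf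
    have h3 := ca_mem h1
    obtain ⟨m1, m2, m3, _, m5⟩ := h2
    simp only [List.mem_cons, List.not_mem_nil, or_false, not_or] at m1 m2
    exact ⟨h3.1, h3.2, h.alw p q h1, m1.1, m2.1, m1.2, m2.2, m3, m5⟩
  -- Step 1
  have step1 : Unknot ((Lt.A s :: .P :: .B u :: l).map pos) := by
    by_cases hl : l = []
    · subst hl
      exact Unknot.tri _ _ _ (affInd_APB (5 / 2) s u hu0)
    · obtain ⟨n1, n2, n3⟩ := seg_seg _ _ _ (affInd_APB (5 / 2) s u hu0)
      refine ins_of (pos (.A s)) (pos .P) (pos (.B u)) (l.map pos) n1 n2 n3 ?_ (hU hl)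
      intro p q hf x hx hx'
      have hf' : Fol ((Lt.B u :: (l ++ [Lt.A s])).map pos) p q := by simpa using hf
      obtain ⟨p', q', hf'', rfl, rfl⟩ := (tu1_fol_map pos _ p q).1 hf'
      obtain ⟨a1, a2, a3, a4, a5, a6, a7, a8, a9⟩ := hside p' q' hf''
      have hx2 : x ∈ convexHull ℝ {ptP (5 / 2), ptA s, ptB u} := by
        rw [Set.insert_comm]
        exact hx
      rcases ts2_side hes hbu hu1 a1 a2 a3 a4 a5 hx2 hx' with h1 | ⟨h1, _⟩ | ⟨h1, _⟩ | h1
      · exact Or.inr h1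
      · exact Or.inl h1
      · exact absurd h1 a8
      · exact absurd h1 (a9 hl)
  -- Step 2
  have step2 : Unknot (pos .P :: pos (.B u) :: (l.map pos ++ [pos (.A s)])) := by
    have := unknot_rot (pos (.A s)) (pos .P :: pos (.B u) :: l.map pos) (by simpa using step1)
    simpa using this
  obtain ⟨n1, n2, n3⟩ := seg_seg _ _ _ (affInd_PAB (5 / 2) t u hu0)
  have step3 : Unknot (pos .P :: pos (.A t) :: pos (.B u) :: (l.map pos ++ [pos (.A s)])) := by
    refine ins_of (pos .P) (pos (.A t)) (pos (.B u)) (l.map pos ++ [pos (.A s)]) n1 n2 n3 ?_ step2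
    intro p q hf x hx hx'
    have hf' : Fol (((Lt.B u :: l) ++ [Lt.A s]) ++ [Lt.P] |>.map pos) p q := by simpa using hf
    obtain ⟨p', q', hf'', rfl, rfl⟩ := (tu1_fol_map pos _ p q).1 hf'
    rw [fol_concat] at hf''
    rcases hf'' with hf'' | ⟨rfl, rfl⟩
    · obtain ⟨a1, a2, a3, a4, a5, a6, a7, a8, a9⟩ := hside p' q' hf''
      rcases ts2_side het hbu hu1 a1 a2 a3 a4 a5 hx hx' with h1 | ⟨h1, h2 | h2 | h2⟩ | ⟨h1, _⟩ |
        ⟨_, h1⟩
      · exact Or.inr h1
      · exact absurd h2 a6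
      · exact absurd h2 a7
      · exfalso
        obtain ⟨p'', q'', rfl, rfl⟩ := h2
        have hp : p'' ≠ t := fun e => a6 (by rw [e])
        have hq : q'' ≠ t := fun e => a7 (by rw [e])
        obtain ⟨c, d, hc, hd, hcd, he⟩ := hx'
        rw [h1] at he
        have he1 : c * (p'' : ℝ) + d * q'' = t := by
          have := congrArg Prod.fst he
          simpa [pos, ptA] using this
        rcases het with ⟨_, h2⟩ | ⟨_, h2⟩
        · have hp' := h2 p'' a1
          have hq' := h2 q'' a2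
          have k1 : (t : ℝ) + 1 ≤ p'' := by exact_mod_cast (by omega : t + 1 ≤ p'')
          have k2 : (t : ℝ) + 1 ≤ q'' := by exact_mod_cast (by omega : t + 1 ≤ q'')
          have k3 := mul_le_mul_of_nonneg_left k1 hc
          have k4 := mul_le_mul_of_nonneg_left k2 hd
          have k5 : c * ((t : ℝ) + 1) + d * ((t : ℝ) + 1) = t + 1 := by rw [← add_mul, hcd, one_mul]
          linarith
        · have hp' := h2 p'' a1
          have hq' := h2 q'' a2
          have k1 : (p'' : ℝ) + 1 ≤ t := by exact_mod_cast (by omega : p'' + 1 ≤ t)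
          have k2 : (q'' : ℝ) + 1 ≤ t := by exact_mod_cast (by omega : q'' + 1 ≤ t)
          have k3 := mul_le_mul_of_nonneg_left k1 hc
          have k4 := mul_le_mul_of_nonneg_left k2 hd
          have k5 : c * (t : ℝ) + d * (t : ℝ) = t := by rw [← add_mul, hcd, one_mul]
          linarith
      · exact absurd h1 a6
      · exact absurd h1 a7
    · exact Or.inl (hullPAB_AP (5 / 2) t u s hu1 hst x hx hx')
  have := unknot_rot' (pos (.A s)) (pos .P :: pos (.A t) :: pos (.B u) :: l.map pos)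
    (by simpa using step3)
  simpa using this

end H46K
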