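import Pool.Agent.Lib.H46K.TU1
import Pool.Agent.Lib.H46K.TU3
import Pool.Agent.Lib.H46K.TG1
import Pool.Agent.Lib.H46K.TG2
import Pool.Agent.Lib.H46K.TW2

/-!
# H46K chunk TS3 (M): reducing an adjacent pair of an alternating word, direct case, and four letters

`w = A s, B u, A t, B v, l` alternating, no row letter strictly between `A s` and `A t`.
(1) `Unknot [A s, B v, l]` implies `Unknot [A s, A t, B v, l]` when `l ≠ []`: `ins_of`, triangle `A s, A t, B v`; all
sides of the path `B v, l, A s` are sides of `w`, of the form `A p, B q` with `p ≠ t` and (as unordered pair)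
different from `A s, B v` (`fol_facts`); `hullAAB_AB`.
(2) `Unknot [A s, A t, B v, l]` implies `Unknot [A s, B u, A t, B v, l]`: `ins_of` with `a = A s`, `v = B u`,
`b = A t`, triangle `{A s, B u, A t}` = `{A s, A t, B u}`; path `A t, B v, l, A s`: all its sides are `A p, B q` with
`q ≠ u`: `hullAAB_AB` gives `x = B u` (impossible: second coordinates: `x ∈ segment (A p) (B q)` and third
coordinate `1` force `x = B q`) or `x = A p` with `p ∈ {s,t}`.
`four_letters`: `w = A s, B u, A t, B v`: start from the triangle `[A s, A t, B v]` and do (2).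
-/

set_option autoImplicit false

namespace H46K

/-- The insertion move for words of letters. -/
theorem ts3_ins (a v b : Lt) (l : List Lt)
    (hn : AffineIndependent ℝ ![pos a, pos v, pos b])
    (ht : ∀ p q, Fol (b :: (l ++ [a])) p q → ∀ x, x ∈ convexHull ℝ {pos a, pos v, pos b} →
      x ∈ segment ℝ (pos p) (pos q) → x = pos a ∨ x = pos b)
    (hl : Unknot ((a :: b :: l).map pos)) : Unknot ((a :: v :: b :: l).map pos) := by
  obtain ⟨h1, h2, h3⟩ := seg_seg _ _ _ hn
  refine ins_of (pos a) (pos v) (pos b) (l.map pos) h1 h2 h3 ?_ hl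
  intro p q hpq x hx hx'
  have h4 : Fol ((b :: (l ++ [a])).map pos) p q := by
    simpa using hpq
  obtain ⟨p', q', h5, rfl, rfl⟩ := (tu1_fol_map pos _ p q).1 h4
  exact ht p' q' h5 x hx hx'

/-- A point B u on a side A p, B q. -/
theorem ts3_B (p q u : ℕ) (h : ptB (u : ℝ) ∈ segment ℝ (ptA (p : ℝ)) (ptB (q : ℝ))) : u = q := by
  obtain ⟨a, b, ha, hb, hab, h⟩ := h
  simp only [ptA, ptB, Prod.smul_mk, smul_eq_mul, mul_zero, mul_one, Prod.mk_add_mk, add_zero,
    zero_add, Prod.mk.injEq] at h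
  obtain ⟨e1, e2, e3⟩ := h
  rw [e3, one_mul] at e2
  exact_mod_cast e2.symm

/-- Second step. -/
theorem ts3_two (s u t v : ℕ) (l : List Lt) (hs : 1 ≤ s) (hu : 1 ≤ u) (ht : 1 ≤ t) (hst : s ≠ t)
    (hp : ∀ p q, Fol (Lt.A t :: ((.B v :: l) ++ [.A s])) p q →
      ∃ a b, ¬ Btw s t a ∧ b ≠ u ∧ ((p = Lt.A a ∧ q = .B b) ∨ (p = Lt.B b ∧ q = .A a)))
    (hU : Unknot ((Lt.A s :: .A t :: .B v :: l).map pos)) :
    Unknot ((Lt.A s :: .B u :: .A t :: .B v :: l).map pos) := by
  refine ts3_ins _ _ _ _ ?_ ?_ hU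
  · exact affInd_ABA (s : ℝ) t u (by exact_mod_cast hst)
  · intro p q hf x hx hx'
    obtain ⟨a, b, h1, h2, h3⟩ := hp p q hf
    have hseg : x ∈ segment ℝ (ptA a) (ptB b) := by
      rcases h3 with ⟨rfl, rfl⟩ | ⟨rfl, rfl⟩
      · exact hx'
      · rw [segment_symm]
        exact hx'
    have hx2 : x ∈ convexHull ℝ {ptA s, ptA t, ptB u} := by
      have e : ({ptA (s : ℝ), ptA (t : ℝ), ptB (u : ℝ)} : Set P3) =
          {pos (Lt.A s), pos (Lt.B u), pos (Lt.A t)} := by
        show ({ptA (s : ℝ), ptA (t : ℝ), ptB (u : ℝ)} : Set P3) = {ptA s, ptB u, ptA t}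
        rw [Set.pair_comm (ptA (t : ℝ))]
      rw [e]
      exact hx
    rcases hullAAB_AB s t u a b hs ht hu h1 x hx2 hseg with h4 | ⟨h4, h5 | h5⟩
    · exfalso
      rw [h4] at hseg
      exact h2 (ts3_B a b u hseg).symm
    · rcases h4 with rfl | rfl
      · exact Or.inl h5
      · exact Or.inr h5
    · exact absurd h5 h2

theorem step_ABAB (s u t v : ℕ) (l : List Lt) (hl : l ≠ [])
    (h : Inv (.A s :: .B u :: .A t :: .B v :: l)) (ha : Alt (.A s :: .B u :: .A t :: .B v :: l))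
    (hadj : ∀ r, Lt.A r ∈ (Lt.A s :: .B u :: .A t :: .B v :: l) → ¬ Btw s t r)
    (hU : Unknot ((Lt.A s :: .B v :: l).map pos)) :
    Unknot ((Lt.A s :: .B u :: .A t :: .B v :: l).map pos) := by
  have hst : s ≠ t := by
    rintro rfl
    have := h.nodup
    simp at this
  have hs : 1 ≤ s := h.posA s (by simp)
  have ht : 1 ≤ t := h.posA t (by simp)
  have hu : 1 ≤ u := h.posB u (by simp)
  have hv : 1 ≤ v := h.posB v (by simp)
  refine ts3_two s u t v l hs hu ht hst ?_ ?_
  · intro p q hf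
    have hca : CA (Lt.A s :: .B u :: .A t :: .B v :: l) p q :=
      fol_sub_ca _ _ [Lt.B u] (.B v :: l) hf
    obtain ⟨n1, n2, -, -, -⟩ := fol_facts _ _ [Lt.B u] (.B v :: l) h.nodup hf
    obtain ⟨hmp, hmq⟩ := ca_mem hca
    rcases ha p q hca with ⟨a, b, rfl, rfl⟩ | ⟨a, b, rfl, rfl⟩
    · refine ⟨a, b, hadj a hmp, ?_, Or.inl ⟨rfl, rfl⟩⟩
      rintro rfl
      exact n2 (by simp)
    · refine ⟨a, b, hadj a hmq, ?_, Or.inr ⟨rfl, rfl⟩⟩
      rintro rfl
      exact n1 (by simp)
  · refine ts3_ins _ _ _ _ ?_ ?_ hU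
    · exact affInd_AAB (s : ℝ) t v (by exact_mod_cast hst)
    · intro p q hf x hx hx'
      have hca : CA (Lt.A s :: .B u :: .A t :: .B v :: l) p q :=
        fol_sub_ca _ _ [Lt.B u, .A t] l hf
      obtain ⟨n1, n2, n3, n4, n5⟩ := fol_facts _ _ [Lt.B u, .A t] l h.nodup hf
      have n5' := n5 hl
      obtain ⟨hmp, hmq⟩ := ca_mem hca
      have hx2 : x ∈ convexHull ℝ {ptA s, ptA t, ptB v} := hx
      rcases ha p q hca with ⟨a, b, rfl, rfl⟩ | ⟨a, b, rfl, rfl⟩
      · rcases hullAAB_AB s t v a b hs ht hv (hadj a hmp) x hx2 hx' with h1 | ⟨rfl | rfl, _⟩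
        · exact Or.inr h1
        · exact absurd rfl n3
        · exact absurd (by simp) n1
      · have hx3 : x ∈ segment ℝ (ptA a) (ptB b) := by
          rw [segment_symm]
          exact hx'
        rcases hullAAB_AB s t v a b hs ht hv (hadj a hmq) x hx2 hx3 with
          h1 | ⟨rfl | rfl, h2 | rfl⟩
        · exact Or.inr h1
        · exact Or.inl h2
        · exact absurd ⟨rfl, rfl⟩ n5'
        · exact absurd (by simp) n2
        · exact absurd (by simp) n2

theorem ts3_btw (s t : ℕ) : ¬ Btw s t s ∧ ¬ Btw s t t := by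
  unfold Btw
  omega

theorem four_letters (s u t v : ℕ) (h : Inv [.A s, .B u, .A t, .B v]) :
    Unknot (([.A s, .B u, .A t, .B v] : List Lt).map pos) := by
  have hst : s ≠ t := by
    rintro rfl
    have := h.nodup
    simp at this
  have huv : u ≠ v := by
    rintro rfl
    have := h.nodup
    simp at this
  have hs : 1 ≤ s := h.posA s (by simp)
  have ht : 1 ≤ t := h.posA t (by simp)
  have hu : 1 ≤ u := h.posB u (by simp)
  refine ts3_two s u t v [] hs hu ht hst ?_ ?_
  · intro p q hf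
    simp only [List.cons_append, List.nil_append] at hf
    rw [fol_cons_cons, fol_cons_cons] at hf
    rcases hf with ⟨rfl, rfl⟩ | ⟨rfl, rfl⟩ | hf
    · exact ⟨t, v, (ts3_btw s t).2, huv.symm, Or.inl ⟨rfl, rfl⟩⟩
    · exact ⟨s, v, (ts3_btw s t).1, huv.symm, Or.inr ⟨rfl, rfl⟩⟩
    · exact absurd hf (tu1_fol_single _ _ _)
  · exact Unknot.tri _ _ _ (affInd_AAB (s : ℝ) t v (by exact_mod_cast hst))

end H46K
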