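import Pool.Agent.Lib.H46K.TU1
import Pool.Agent.Lib.H46K.TU3
import Pool.Agent.Lib.H46K.TG1
import Pool.Agent.Lib.H46K.TG2
import Pool.Agent.Lib.H46K.TW2

/-!
# H46K chunk TS4 (M/L): reducing an adjacent pair of an alternating word, wrap case

`w = A s, B u, A t, B v, l` alternating, `l ≠ []`, all the other row letters strictly between `A s` and `A t`.
Put `tau = (s + t) / 2` and `P' = ptP tau`: so for `r ∈ {s, t}` and every row index `p` of `w`:
(`r < tau` and `r ≤ p`) or (`tau < r` and `p ≤ r`).  Four moves (`ins_of` three times, `del_of` once), from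
`[A s, B v, l]`:
(1) `[A s, P', B v, l]`: triangle `A s, P', B v`; the sides of the path `B v, l, A s` are `A p, B q`, different
from `A s, B v`: `hullPAB_AB` (with `t := s`).
(2) `[A s, P', A t, B v, l]` (rotate so that `P'` is first): triangle `P', A t, B v`; path `B v, l, A s, P'`:
sides `A p, B q` with `p ≠ t`: `hullPAB_AB`; last side `A s, P'`: `hullPAB_AP`.
(3) `[A s, P', B u, A t, B v, l]`: triangle `P', B u, A t` = `{P', A t, B u}`; path `A t, B v, l, A s, P'`: sides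
`A p, B q` with `q ≠ u`: `hullPAB_AB` gives `x = B u` (impossible, `x ∈ segment (A p) (B q)`, third coordinate
`1` forces `x = B q`) or `p = t` and `x = A t`; last side `A s, P'`: `hullPAB_AP`.
(4) `del_of` with `a = A s`, `v = P'`, `b = B u`: path `B u, A t, B v, l, A s`: all sides `A p, B q`, different
from `A s, B u` (as unordered pair): `hullPAB_AB` with `t := s`.
Here the sides of the path in (4) are pairs of the cyclic word `w` other than `(A s, B u)`; in (1), (2) they are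
pairs of `w` by `fol_sub_ca`.
-/

set_option autoImplicit false

namespace H46K

/-- A point B u on a side A p, B q. -/
theorem ts4_B (p q u : ℕ) (h : ptB (u : ℝ) ∈ segment ℝ (ptA (p : ℝ)) (ptB (q : ℝ))) : u = q := by
  obtain ⟨a, b, ha, hb, hab, h⟩ := h
  simp only [ptA, ptB, Prod.smul_mk, smul_eq_mul, mul_zero, mul_one, Prod.mk_add_mk, add_zero,
    zero_add, Prod.mk.injEq] at h
  obtain ⟨e1, e2, e3⟩ := h
  rw [e3, one_mul] at e2
  exact_mod_cast e2.symm

/-- The four moves, with the sides described abstractly. -/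
theorem ts4_core (s u t v : ℕ) (l : List Lt) (τ : ℝ) (hst : s ≠ t) (hu : 1 ≤ u) (hv : 1 ≤ v)
    (R : ℕ → Prop)
    (hs : ∀ p, R p → ((s : ℝ) < τ ∧ s ≤ p) ∨ (τ < (s : ℝ) ∧ p ≤ s))
    (ht : ∀ p, R p → ((t : ℝ) < τ ∧ t ≤ p) ∨ (τ < (t : ℝ) ∧ p ≤ t))
    (h1 : ∀ p q, Fol (Lt.B v :: (l ++ [.A s])) p q →
      ∃ a b, R a ∧ a ≠ t ∧ b ≠ u ∧ (a = s → b ≠ v) ∧
        ((p = Lt.A a ∧ q = .B b) ∨ (p = Lt.B b ∧ q = .A a)))
    (hRt : R t) (huv : u ≠ v)
    (hU : Unknot ((Lt.A s :: .B v :: l).map pos)) :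
    Unknot ((Lt.A s :: .B u :: .A t :: .B v :: l).map pos) := by
  have hu0 : (u : ℝ) ≠ 0 := by
    have : (1 : ℝ) ≤ u := by exact_mod_cast hu
    linarith
  have hv0 : (v : ℝ) ≠ 0 := by
    have : (1 : ℝ) ≤ v := by exact_mod_cast hv
    linarith
  -- sides as points
  have h1' : ∀ p q, Fol (ptB v :: (l.map pos ++ [ptA s])) p q →
      ∃ a b : ℕ, R a ∧ a ≠ t ∧ b ≠ u ∧ (a = s → b ≠ v) ∧
        ((p = ptA a ∧ q = ptB b) ∨ (p = ptB b ∧ q = ptA a)) := by
    intro p q hf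
    have h4 : Fol ((Lt.B v :: (l ++ [.A s])).map pos) p q := by
      simpa [pos] using hf
    obtain ⟨p', q', h5, rfl, rfl⟩ := (tu1_fol_map pos _ p q).1 h4
    obtain ⟨a, b, k1, k2, k3, k4, k5⟩ := h1 p' q' h5
    refine ⟨a, b, k1, k2, k3, k4, ?_⟩
    rcases k5 with ⟨rfl, rfl⟩ | ⟨rfl, rfl⟩
    · exact Or.inl ⟨rfl, rfl⟩
    · exact Or.inr ⟨rfl, rfl⟩
  have hsg : ∀ {a b : ℕ} {p q x : P3}, ((p = ptA a ∧ q = ptB b) ∨ (p = ptB b ∧ q = ptA a)) →
      x ∈ segment ℝ p q → x ∈ segment ℝ (ptA a) (ptB b) := by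
    rintro a b p q x (⟨rfl, rfl⟩ | ⟨rfl, rfl⟩) hx
    · exact hx
    · rw [segment_symm]
      exact hx
  have hcomm : ∀ a b c : P3, ({a, b, c} : Set P3) = {b, a, c} := fun a b c => Set.insert_comm a b {c}
  -- step 1
  have hU1 : Unknot (ptA s :: ptP τ :: ptB v :: l.map pos) := by
    obtain ⟨k1, k2, k3⟩ := seg_seg _ _ _ (affInd_APB τ s v hv0)
    refine ins_of (ptA s) (ptP τ) (ptB v) (l.map pos) k1 k2 k3 ?_ hU
    intro p q hf x hx hx'
    rw [hcomm] at hx
    obtain ⟨a, b, m1, m2, m3, m4, m5⟩ := h1' p q hf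
    rcases hullPAB_AB τ s v a b (hs a m1) x hx (hsg m5 hx') with n1 | ⟨n1, n2 | n2⟩
    · exact Or.inr n1
    · exact Or.inl n2
    · exact absurd n2 (m4 n1)
  -- step 2
  have hU1' : Unknot (ptP τ :: ptB v :: (l.map pos ++ [ptA s])) := unknot_rot _ _ hU1
  have hU2 : Unknot (ptP τ :: ptA t :: ptB v :: (l.map pos ++ [ptA s])) := by
    obtain ⟨k1, k2, k3⟩ := seg_seg _ _ _ (affInd_PAB τ t v hv0)
    refine ins_of (ptP τ) (ptA t) (ptB v) (l.map pos ++ [ptA s]) k1 k2 k3 ?_ hU1'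
    intro p q hf x hx hx'
    have hf2 : Fol (((ptB (v : ℝ) :: l.map pos) ++ [ptA s]) ++ [ptP τ]) p q := by
      simpa using hf
    rw [fol_concat] at hf2
    rcases hf2 with hf2 | ⟨rfl, rfl⟩
    · obtain ⟨a, b, m1, m2, m3, m4, m5⟩ := h1' p q hf2
      rcases hullPAB_AB τ t v a b (ht a m1) x hx (hsg m5 hx') with n1 | ⟨n1, _⟩
      · exact Or.inr n1
      · exact absurd n1 m2
    · exact Or.inl (hullPAB_AP τ t v s hv hst x hx hx')
  -- step 3
  have h3' : ∀ p q, Fol (ptA t :: ((ptB v :: l.map pos) ++ [ptA s])) p q →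
      ∃ a b : ℕ, R a ∧ b ≠ u ∧ ((p = ptA a ∧ q = ptB b) ∨ (p = ptB b ∧ q = ptA a)) := by
    intro p q hf
    rw [List.cons_append, fol_cons_cons] at hf
    rcases hf with ⟨rfl, rfl⟩ | hf
    · exact ⟨t, v, hRt, huv.symm, Or.inl ⟨rfl, rfl⟩⟩
    · obtain ⟨a, b, m1, m2, m3, m4, m5⟩ := h1' p q hf
      exact ⟨a, b, m1, m3, m5⟩
  have hU3 : Unknot (ptP τ :: ptB u :: ptA t :: (ptB v :: (l.map pos ++ [ptA s]))) := by
    obtain ⟨k1, k2, k3⟩ := seg_seg _ _ _ (affInd_PBA τ t u hu0)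
    refine ins_of (ptP τ) (ptB u) (ptA t) (ptB v :: (l.map pos ++ [ptA s])) k1 k2 k3 ?_ hU2
    intro p q hf x hx hx'
    rw [Set.pair_comm (ptB (u : ℝ))] at hx
    have hf2 : Fol (((ptA (t : ℝ) :: ptB (v : ℝ) :: l.map pos) ++ [ptA s]) ++ [ptP τ]) p q := by
      simpa using hf
    rw [fol_concat] at hf2
    rcases hf2 with hf2 | ⟨rfl, rfl⟩
    · obtain ⟨a, b, m1, m3, m5⟩ := h3' p q hf2
      rcases hullPAB_AB τ t u a b (ht a m1) x hx (hsg m5 hx') with n1 | ⟨n1, n2 | n2⟩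
      · exfalso
        have := hsg m5 hx'
        rw [n1] at this
        exact m3 (ts4_B a b u this).symm
      · exact Or.inr n2
      · exact absurd n2 m3
    · exact Or.inl (hullPAB_AP τ t u s hu hst x hx hx')
  have hU3' : Unknot (ptA s :: ptP τ :: ptB u :: ptA t :: ptB v :: l.map pos) :=
    unknot_rot' (ptA s) (ptP τ :: ptB u :: ptA t :: ptB v :: l.map pos) hU3
  -- step 4
  obtain ⟨k1, k2, k3⟩ := seg_seg _ _ _ (affInd_APB τ s u hu0)
  refine del_of (ptA s) (ptP τ) (ptB u) (ptA t :: ptB v :: l.map pos) k1 k2 k3 ?_ hU3'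
  intro p q hf x hx hx'
  rw [hcomm] at hx
  rw [List.cons_append, fol_cons_cons] at hf
  rcases hf with ⟨rfl, rfl⟩ | hf
  · have hx2 : x ∈ segment ℝ (ptA t) (ptB u) := by
      rw [segment_symm]
      exact hx'
    rcases hullPAB_AB τ s u t u (hs t hRt) x hx hx2 with n1 | ⟨n1, _⟩
    · exact Or.inr n1
    · exact absurd n1.symm hst
  · obtain ⟨a, b, m1, m3, m5⟩ := h3' p q hf
    rcases hullPAB_AB τ s u a b (hs a m1) x hx (hsg m5 hx') with n1 | ⟨n1, n2 | n2⟩
    · exact Or.inr n1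
    · exact Or.inl n2
    · exact absurd n2 m3

theorem step_ABAB_wrap (s u t v : ℕ) (l : List Lt) (hl : l ≠ [])
    (h : Inv (.A s :: .B u :: .A t :: .B v :: l)) (ha : Alt (.A s :: .B u :: .A t :: .B v :: l))
    (hadj : ∀ r, Lt.A r ∈ (Lt.A s :: .B u :: .A t :: .B v :: l) → r = s ∨ r = t ∨ Btw s t r)
    (hU : Unknot ((Lt.A s :: .B v :: l).map pos)) :
    Unknot ((Lt.A s :: .B u :: .A t :: .B v :: l).map pos) := by
  have hst : s ≠ t := by
    rintro rfl
    have := h.nodup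
    simp at this
  have huv : u ≠ v := by
    rintro rfl
    have := h.nodup
    simp at this
  have hu : 1 ≤ u := h.posB u (by simp)
  have hv : 1 ≤ v := h.posB v (by simp)
  refine ts4_core s u t v l (((s : ℝ) + t) / 2) hst hu hv
    (fun r => Lt.A r ∈ (Lt.A s :: .B u :: .A t :: .B v :: l)) ?_ ?_ ?_ (by simp) huv hU
  · intro p hp
    have h1 := hadj p hp
    unfold Btw at h1
    rcases lt_or_gt_of_ne hst with h2 | h2
    · left
      have h2' : (s : ℝ) < t := by exact_mod_cast h2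
      exact ⟨by linarith, by omega⟩
    · right
      have h2' : (t : ℝ) < s := by exact_mod_cast h2
      exact ⟨by linarith, by omega⟩
  · intro p hp
    have h1 := hadj p hp
    unfold Btw at h1
    rcases lt_or_gt_of_ne hst with h2 | h2
    · right
      have h2' : (s : ℝ) < t := by exact_mod_cast h2
      exact ⟨by linarith, by omega⟩
    · left
      have h2' : (t : ℝ) < s := by exact_mod_cast h2
      exact ⟨by linarith, by omega⟩
  · intro p q hf
    have hca : CA (Lt.A s :: .B u :: .A t :: .B v :: l) p q :=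
      fol_sub_ca _ _ [Lt.B u, .A t] l hf
    obtain ⟨n1, n2, n3, n4, n5⟩ := fol_facts _ _ [Lt.B u, .A t] l h.nodup hf
    have n5' := n5 hl
    obtain ⟨hmp, hmq⟩ := ca_mem hca
    rcases ha p q hca with ⟨a, b, rfl, rfl⟩ | ⟨a, b, rfl, rfl⟩
    · refine ⟨a, b, hmp, ?_, ?_, ?_, Or.inl ⟨rfl, rfl⟩⟩
      · rintro rfl
        exact n1 (by simp)
      · rintro rfl
        exact n2 (by simp)
      · rintro rfl
        exact absurd rfl n3
    · refine ⟨a, b, hmq, ?_, ?_, ?_, Or.inr ⟨rfl, rfl⟩⟩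
      · rintro rfl
        exact n2 (by simp)
      · rintro rfl
        exact n1 (by simp)
      · rintro rfl rfl
        exact n5' ⟨rfl, rfl⟩

end H46K
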