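import Pool.Agent.Lib.H46K.TW4

/-!
# H46K chunk TW5 (M): ring patterns under merging of two adjacent rows

`ring_merge`: `S` contains all rows of `X`, `s, t` cyclically adjacent in `S`, `X' ⊆ (mrg s t) '' X`.  The rows
of `X'` are in `S \ {t}`. Extend `h` from the rows of `X'` to a monotone `h1 : ℕ → ℤ` with values among the
old ones (range at most `2k`), `g` from the columns of `X'` to `g1`.  Put `h2 r = h1 r` for `r ≠ t`, and
`h2 t = h1 s` if no element of `S` lies strictly between `s` and `t` (monotone on `S`), otherwise all other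
elements of `S` lie strictly between: `h2 t = h1 s + 2k` if `s < t` and `h2 t = h1 s - 2k` if `t < s`.
In both cases `h2` is monotone on `S` and `h2 a ≤ h2 b + 2k` there, and `h2 x.1 ≡ h1 (mrg s t x).1` modulo
`2k` for `x ∈ X`, so the hits remain.
-/

set_option autoImplicit false

namespace H46K

theorem ring_merge {k d e : ℤ} (hk : 0 < k) {X X' : Set (ℕ × ℕ)} (S : Set ℕ) (s t : ℕ)
    (hS : ∀ x ∈ X, x.1 ∈ S) (hst : CycAdj S s t) (hX : X' ⊆ mrg s t '' X) (h : Ring k d e X') :
    Ring k d e X := by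
  classical
  obtain ⟨h1, g1, a1, a2, a3, a4, a5, a6⟩ := tw4_ext h
  obtain ⟨hne, hs, ht, hcase⟩ := hst
  -- the value at `t`
  obtain ⟨c, hc, hmono⟩ : ∃ c : ℤ, (c ≡ h1 s [ZMOD 2 * k]) ∧
      (∀ r ∈ S, r ≠ t → (r ≤ t → h1 r ≤ c) ∧ (t ≤ r → c ≤ h1 r) ∧ h1 r ≤ c + 2 * k ∧
        c ≤ h1 r + 2 * k) := by
    rcases hcase with hb | hb
    · refine ⟨h1 s, Int.ModEq.refl _, fun r hr hrt ↦ ⟨fun hle ↦ ?_, fun hle ↦ ?_, a3 _ _, a3 _ _⟩⟩
      · apply a1
        have := hb r hr
        unfold Btw at this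
        omega
      · apply a1
        have := hb r hr
        unfold Btw at this
        omega
    · rcases lt_or_gt_of_ne hne with hlt | hlt
      · refine ⟨h1 s + 2 * k, by
          rw [Int.modEq_iff_dvd]
          exact ⟨-1, by ring⟩, fun r hr hrt ↦ ⟨fun _ ↦ a3 _ _, fun hle ↦ ?_, ?_, ?_⟩⟩
        · exfalso
          rcases hb r hr with h0 | h0 | h0
          · omega
          · exact hrt h0
          · unfold Btw at h0
            omega
        · have := a3 r s
          linarith
        · have : h1 s ≤ h1 r := by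
            apply a1
            rcases hb r hr with h0 | h0 | h0
            · exact h0.ge
            · exact absurd h0 hrt
            · unfold Btw at h0
              omega
          linarith
      · refine ⟨h1 s - 2 * k, by
          rw [Int.modEq_iff_dvd]
          exact ⟨1, by ring⟩, fun r hr hrt ↦ ⟨fun hle ↦ ?_, fun _ ↦ ?_, ?_, ?_⟩⟩
        · exfalso
          rcases hb r hr with h0 | h0 | h0
          · omega
          · exact hrt h0
          · unfold Btw at h0
            omega
        · have := a3 s r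
          linarith
        · have : h1 r ≤ h1 s := by
            apply a1
            rcases hb r hr with h0 | h0 | h0
            · exact h0.le
            · exact absurd h0 hrt
            · unfold Btw at h0
              omega
          linarith
        · have := a3 s r
          linarith
  let h2 : ℕ → ℤ := fun r ↦ if r = t then c else h1 r
  have h2t : h2 t = c := if_pos rfl
  have h2r : ∀ r, r ≠ t → h2 r = h1 r := fun r hr ↦ if_neg hr
  have hmod : ∀ x : ℕ × ℕ, h2 x.1 ≡ h1 (mrg s t x).1 [ZMOD 2 * k] := by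
    intro x
    by_cases hx : x.1 = t
    · have e1 : (mrg s t x).1 = s := by simp [mrg, hx]
      rw [e1, hx, h2t]
      exact hc
    · have e1 : (mrg s t x).1 = x.1 := by simp [mrg, hx]
      rw [e1, h2r _ hx]
  refine ⟨h2, g1, ?_, ?_, fun p _ q _ hpq ↦ a2 hpq, fun p _ q _ ↦ a4 _ _, ?_, ?_⟩
  · intro p hp q hq hpq
    by_cases hpt : p.1 = t
    · by_cases hqt : q.1 = t
      · rw [hpt, hqt]
      · rw [hpt, h2t, h2r _ hqt]
        exact (hmono _ (hS q hq) hqt).2.1 (hpt ▸ hpq)
    · by_cases hqt : q.1 = t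
      · rw [hqt, h2t, h2r _ hpt]
        exact (hmono _ (hS p hp) hpt).1 (hqt ▸ hpq)
      · rw [h2r _ hpt, h2r _ hqt]
        exact a1 hpq
  · intro p hp q hq
    by_cases hpt : p.1 = t
    · by_cases hqt : q.1 = t
      · rw [hpt, hqt]
        linarith
      · rw [hpt, h2t, h2r _ hqt]
        exact (hmono _ (hS q hq) hqt).2.2.2
    · by_cases hqt : q.1 = t
      · rw [hqt, h2t, h2r _ hpt]
        exact (hmono _ (hS p hp) hpt).2.2.1
      · rw [h2r _ hpt, h2r _ hqt]
        exact a3 _ _
  · intro i u hu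
    obtain ⟨y, hy, c1, c2⟩ := a5 i u hu
    obtain ⟨x, hx, rfl⟩ := hX hy
    exact ⟨x, hx, (hmod x).trans c1, c2⟩
  · intro i u hu
    obtain ⟨y, hy, c1, c2⟩ := a6 i u hu
    obtain ⟨x, hx, rfl⟩ := hX hy
    exact ⟨x, hx, (hmod x).trans c1, c2⟩

theorem hasRing_merge {X X' : Set (ℕ × ℕ)} (S : Set ℕ) (s t : ℕ)
    (hS : ∀ x ∈ X, x.1 ∈ S) (hst : CycAdj S s t) (hX : X' ⊆ mrg s t '' X) (h : HasRing X') :
    HasRing X := by
  obtain ⟨k, d, e, hk, hd, he, hR⟩ := h
  refine ⟨k, d, e, hk, hd, he, ring_merge ?_ S s t hS hst hX hR⟩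
  rcases hk with rfl | rfl <;> norm_num

end H46K
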