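import Pool.Agent.Lib.H46K.TS1
import Pool.Agent.Lib.H46K.TS2
import Pool.Agent.Lib.H46K.TS3
import Pool.Agent.Lib.H46K.TS4
import Pool.Agent.Lib.H46K.TW5

/-!
# H46K chunk TR (M): the four reductions with the induction hypothesis

`US N`: the statement for all words of length `N`.
* `red_AAB`: `w1 = A s :: A t :: B u :: l` satisfies `Inv` (`Inv.rot`), `l ≠ []`; `w' = A s :: B u :: l` satisfies `Inv`
  (`Inv.cut` with `m = [A t]`), has length `N - 1 ≥ 3`; `rk w' ⊆ mrg s t '' rk w1` (`rk_cut` with `m = []`), `rk w1 = rk w`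
  (`rk_rot`); `CycAdj (rowsOf w1) s t` (`s ≠ t` by nodup, `Alw w1 (A s) (A t)`); so `¬ HasRing (rk w')` (`hasRing_merge`
  with `S = rowsOf w1`); the induction hypothesis and `step_AAB`; rotate back.
* `red_APAB`: `w1 = A s :: P :: A t :: B u :: l`, `w' = A s :: B u :: l` (`m = [P, A t]`); `CycAdj (rowsOf w1) s t`: by
  `Alw w1 (A s) P`, `Alw w1 P (A t)`, `s ≠ t`, one of them is `1`, the other is `≥ 3` and the maximum, all indices are
  `≥ 1`: all the others are strictly between; `step_APAB` (if `l = []` no induction hypothesis is needed).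
* `red_ABAB`: `w1 = A s :: B u :: A t :: B v :: l`, `w' = A s :: B v :: l` (`m = [B u, A t]`); `step_ABAB` or
  `step_ABAB_wrap` according to the two cases of `CycAdj`.
-/

set_option autoImplicit false

namespace H46K

/-- The statement of the induction for one length. -/
def US (N : ℕ) : Prop :=
  ∀ w : List Lt, w.length = N → Inv w → 3 ≤ w.length → (∃ s, Lt.A s ∈ w) → (∃ u, Lt.B u ∈ w) →
    ¬ HasRing (rk w) → Unknot (w.map pos)

/-- rotation -/
theorem unknot_of_rot {w w' : List Lt} (h : w ~r w') (hU : Unknot (w'.map pos)) :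
    Unknot (w.map pos) :=
  Unknot.rot _ _ (h.symm.map pos) hU

theorem tr_rows (w : List Lt) : ∀ x ∈ rk w, x.1 ∈ rowsOf w := by
  rintro x (hx | hx)
  · exact (ca_mem hx).1
  · exact (ca_mem hx).2

/-- general reduction step: the rest of the argument for one deletion -/
theorem tr_step (s t v : ℕ) (m l : List Lt)
    (h : Inv (.A s :: ((m ++ [.A t]) ++ .B v :: l)))
    (hadj : CycAdj (rowsOf (Lt.A s :: ((m ++ [.A t]) ++ .B v :: l))) s t)
    (hR : ¬ HasRing (rk (Lt.A s :: ((m ++ [.A t]) ++ .B v :: l)))) :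
    Inv (.A s :: .B v :: l) ∧ ¬ HasRing (rk (Lt.A s :: .B v :: l)) := by
  refine ⟨Inv.cut s v (m ++ [.A t]) l h, fun hr => hR ?_⟩
  exact hasRing_merge _ s t (tr_rows _) hadj (rk_cut s t v m l h.nodup) hr

/-- `w ~r A s, A t, B u, l` -/
theorem red_AAB (N : ℕ) (IH : ∀ k < N, US k) (w : List Lt) (hN : w.length = N) (h : Inv w)
    (h4 : 4 ≤ w.length) (hR : ¬ HasRing (rk w)) (s t u : ℕ) (l : List Lt)
    (hw : w ~r (Lt.A s :: .A t :: .B u :: l)) : Unknot (w.map pos) := by
  have h1 : Inv (Lt.A s :: .A t :: .B u :: l) := h.rot hw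
  have hlen : (Lt.A s :: .A t :: .B u :: l).length = w.length := hw.perm.length_eq.symm
  simp only [List.length_cons] at hlen
  have hl : l ≠ [] := by
    rintro rfl
    simp at hlen
    omega
  rw [rk_rot hw] at hR
  have hst : s ≠ t := by
    rintro rfl
    have := h1.nodup
    simp at this
  have hadj : CycAdj (rowsOf (Lt.A s :: .A t :: .B u :: l)) s t := by
    refine ⟨hst, by simp [rowsOf], by simp [rowsOf], Or.inl ?_⟩
    have := h1.alw (.A s) (.A t) ⟨.B u :: l, List.IsRotated.refl _⟩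
    intro r hr
    exact this r hr
  obtain ⟨hI, hR'⟩ := tr_step s t u [] l h1 hadj hR
  apply unknot_of_rot hw
  refine step_AAB s t u l hl h1 ?_
  have hl' : 1 ≤ l.length := List.length_pos_iff.2 hl
  refine IH (Lt.A s :: .B u :: l).length ?_ _ rfl hI ?_ ⟨s, by simp⟩ ⟨u, by simp⟩ hR'
  · simp only [List.length_cons]
    omega
  · simp only [List.length_cons]
    omega

/-- `w ~r A s, P, A t, B u, l` -/
theorem red_APAB (N : ℕ) (IH : ∀ k < N, US k) (w : List Lt) (hN : w.length = N) (h : Inv w)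
    (h4 : 4 ≤ w.length) (hR : ¬ HasRing (rk w)) (s t u : ℕ) (l : List Lt)
    (hw : w ~r (Lt.A s :: .P :: .A t :: .B u :: l)) : Unknot (w.map pos) := by
  have h1 : Inv (Lt.A s :: .P :: .A t :: .B u :: l) := h.rot hw
  have hlen : (Lt.A s :: .P :: .A t :: .B u :: l).length = w.length := hw.perm.length_eq.symm
  simp only [List.length_cons] at hlen
  rw [rk_rot hw] at hR
  have hst : s ≠ t := by
    rintro rfl
    have := h1.nodup
    simp at this
  have e1 : s = 1 ∨ (3 ≤ s ∧ ∀ r, Lt.A r ∈ (Lt.A s :: .P :: .A t :: .B u :: l) → r ≤ s) :=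
    h1.alw (.A s) .P ⟨.A t :: .B u :: l, List.IsRotated.refl _⟩
  have e2 : t = 1 ∨ (3 ≤ t ∧ ∀ r, Lt.A r ∈ (Lt.A s :: .P :: .A t :: .B u :: l) → r ≤ t) :=
    h1.alw .P (.A t) ⟨.B u :: (l ++ [.A s]), ⟨1, by simp⟩⟩
  have hadj : CycAdj (rowsOf (Lt.A s :: .P :: .A t :: .B u :: l)) s t := by
    refine ⟨hst, by simp [rowsOf], by simp [rowsOf], Or.inr ?_⟩
    intro r hr
    have hr1 : 1 ≤ r := h1.posA r hr
    have hs1 : 1 ≤ s := h1.posA s (by simp)
    have ht1 : 1 ≤ t := h1.posA t (by simp)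
    have hst' : s ≤ t ∨ t ≤ s := le_total _ _
    unfold Btw
    rcases e1 with e1 | ⟨_, e1⟩
    · rcases e2 with e2 | ⟨_, e2⟩
      · omega
      · have := e2 r hr
        omega
    · have h2 := e1 r hr
      have h3 := e1 t (by simp)
      rcases e2 with e2 | ⟨_, e2⟩
      · omega
      · have := e2 s (by simp)
        omega
  apply unknot_of_rot hw
  refine step_APAB s t u l h1 (fun hl => ?_)
  have hl' : 1 ≤ l.length := List.length_pos_iff.2 hl
  obtain ⟨hI, hR'⟩ := tr_step s t u [.P] l h1 hadj hR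
  refine IH (Lt.A s :: .B u :: l).length ?_ _ rfl hI ?_ ⟨s, by simp⟩ ⟨u, by simp⟩ hR'
  · simp only [List.length_cons]
    omega
  · simp only [List.length_cons]
    omega

/-- `w ~r A s, B u, A t, B v, l` alternating, `A s`, `A t` cyclically adjacent -/
theorem red_ABAB (N : ℕ) (IH : ∀ k < N, US k) (w : List Lt) (hN : w.length = N) (h : Inv w)
    (ha : Alt w) (h4 : 6 ≤ w.length) (hR : ¬ HasRing (rk w)) (s u t v : ℕ) (l : List Lt)
    (hl : l ≠ []) (hw : w ~r (Lt.A s :: .B u :: .A t :: .B v :: l))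
    (hadj : CycAdj (rowsOf w) s t) : Unknot (w.map pos) := by
  have h1 : Inv (Lt.A s :: .B u :: .A t :: .B v :: l) := h.rot hw
  have hlen : (Lt.A s :: .B u :: .A t :: .B v :: l).length = w.length := hw.perm.length_eq.symm
  simp only [List.length_cons] at hlen
  rw [rk_rot hw] at hR
  have hrows : rowsOf w = rowsOf (Lt.A s :: .B u :: .A t :: .B v :: l) := by
    ext r
    exact hw.mem_iff
  rw [hrows] at hadj
  have ha1 : Alt (Lt.A s :: .B u :: .A t :: .B v :: l) := by
    intro p q hpq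
    exact ha p q ((ca_rot hw).2 hpq)
  have hl' : 1 ≤ l.length := List.length_pos_iff.2 hl
  obtain ⟨hI, hR'⟩ := tr_step s t v [.B u] l h1 hadj hR
  have key : Unknot ((Lt.A s :: .B v :: l).map pos) := by
    refine IH (Lt.A s :: .B v :: l).length ?_ _ rfl hI ?_ ⟨s, by simp⟩ ⟨v, by simp⟩ hR'
    · simp only [List.length_cons]
      omega
    · simp only [List.length_cons]
      omega
  apply unknot_of_rot hw
  rcases hadj.2.2.2 with h5 | h5
  · exact step_ABAB s u t v l hl h1 ha1 h5 key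
  · exact step_ABAB_wrap s u t v l hl h1 ha1 h5 key

end H46K
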