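import Pool.Agent.Lib.H46K.TU1
import Pool.Agent.Lib.H46K.TU3
import Pool.Agent.Lib.H46K.TG1
import Pool.Agent.Lib.H46K.TG2
import Pool.Agent.Lib.H46K.TW2

/-!
# H46K chunk TS1 (M): shrinking a run, direct case

`w = A s, A t, B u, l` with `l ≠ []`.  Use `ins_of` with `a = pos (A s)`, `v = pos (A t)`, `b = pos (B u)` and the
list `l.map pos`; nondegeneracy from `seg_seg` and `affInd_AAB`.  `B u :: (l ++ [A s])` mapped by `pos`: a pair of
consecutive points comes from a pair `p, q` of consecutive letters (`Fol`), which is a pair of `w`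
(`fol_sub_ca` with `m = [A t]`), so `Alw w p q`; by `fol_facts`: `p, q ≠ A t`, `p ≠ A s`, `q ≠ B u`,
`(p,q) ≠ (B u, A s)`.  Cases:
`A p, A q`: `hullAAB_AA` (`¬ Btw p q t` from `Alw` and `A t ∈ w`; `¬ Btw s t p` from `Alw w (A s) (A t)`, which holds
because `CA w (A s) (A t)`); `A p, P` and `P, A p`: `hullAAB_AP` with `τ = 5/2` (`segment_symm`); `B, B`: `hullAAB_BB`;
`B, Q`: `hullAAB_BQ`; `A p, B q` or `B q, A p`: `hullAAB_AB`: `p = t` is excluded; `p = s`: `x = A s` is fine,
`q = u`: the pair would be `(A s, _)` or `(B u, A s)`, excluded.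
-/

set_option autoImplicit false

namespace H46K

/-- The insertion move for words of letters. -/
theorem ts1_ins (a v b : Lt) (l : List Lt)
    (hn : AffineIndependent ℝ ![pos a, pos v, pos b])
    (ht : ∀ p q, Fol (b :: (l ++ [a])) p q → ∀ x, x ∈ convexHull ℝ {pos a, pos v, pos b} →
      x ∈ segment ℝ (pos p) (pos q) → x = pos a ∨ x = pos b)
    (hl : Unknot ((a :: b :: l).map pos)) : Unknot ((a :: v :: b :: l).map pos) := by
  obtain ⟨h1, h2, h3⟩ := seg_seg _ _ _ hn
  refine ins_of (pos a) (pos v) (pos b) (l.map pos) h1 h2 h3 ?_ hl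
  intro p q hpq x hx hx'
  have h4 : Fol ((b :: (l ++ [a])).map pos) p q := by
    simpa using hpq
  obtain ⟨p', q', h5, rfl, rfl⟩ := (tu1_fol_map pos _ p q).1 h4
  exact ht p' q' h5 x hx hx'

theorem step_AAB (s t u : ℕ) (l : List Lt) (hl : l ≠ []) (h : Inv (.A s :: .A t :: .B u :: l))
    (hU : Unknot ((Lt.A s :: .B u :: l).map pos)) :
    Unknot ((Lt.A s :: .A t :: .B u :: l).map pos) := by
  have hst : s ≠ t := by
    rintro rfl
    have := h.nodup
    simp at this
  have hs : 1 ≤ s := h.posA s (by simp)
  have ht : 1 ≤ t := h.posA t (by simp)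
  have hu : 1 ≤ u := h.posB u (by simp)
  have hmt : Lt.A t ∈ (Lt.A s :: .A t :: .B u :: l) := by simp
  have hca : CA (Lt.A s :: .A t :: .B u :: l) (.A s) (.A t) := ⟨.B u :: l, List.IsRotated.refl _⟩
  have hbt : ∀ r, Lt.A r ∈ (Lt.A s :: .A t :: .B u :: l) → ¬ Btw s t r := h.alw _ _ hca
  refine ts1_ins _ _ _ _ ?_ ?_ hU
  · have h1 := affInd_AAB (s : ℝ) t u (by exact_mod_cast hst)
    exact h1
  · intro p q hf x hx hx'
    have hca2 : CA (Lt.A s :: .A t :: .B u :: l) p q := fol_sub_ca _ _ [Lt.A t] l hf
    obtain ⟨n1, n2, n3, n4, n5⟩ := fol_facts _ _ [Lt.A t] l h.nodup hf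
    have n5' := n5 hl
    have hal := h.alw _ _ hca2
    obtain ⟨hmp, hmq⟩ := ca_mem hca2
    have hx2 : x ∈ convexHull ℝ {ptA s, ptA t, ptB u} := hx
    cases p with
    | A p =>
      have e1 : p ≠ t := by
        rintro rfl
        exact n1 (by simp)
      have e2 : p ≠ s := by
        rintro rfl
        exact n3 rfl
      cases q with
      | A q =>
        have e3 : q ≠ t := by
          rintro rfl
          exact n2 (by simp)
        left
        exact hullAAB_AA s t u p q hs ht hu hst e1 e3 (hal t hmt) (hbt p hmp) (hbt q hmq) x hx2 hx'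
      | B q =>
        rcases hullAAB_AB s t u p q hs ht hu (hbt p hmp) x hx2 hx' with h1 | ⟨h1 | h1, _⟩
        · exact Or.inr h1
        · exact absurd h1 e2
        · exact absurd h1 e1
      | P =>
        left
        exact hullAAB_AP s t u p (5 / 2) hu hst e1 (hbt p hmp) x hx2 hx'
      | Q => exact absurd hal id
    | B p =>
      cases q with
      | A q =>
        have e3 : q ≠ t := by
          rintro rfl
          exact n2 (by simp)
        have hx3 : x ∈ segment ℝ (ptA q) (ptB p) := by
          rw [segment_symm]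
          exact hx'
        rcases hullAAB_AB s t u q p hs ht hu (hbt q hmq) x hx2 hx3 with h1 | ⟨h1 | h1, h2 | h2⟩
        · exact Or.inr h1
        · left
          rw [h1] at h2
          exact h2
        · exact absurd ⟨by rw [h2], by rw [h1]⟩ n5'
        · exact absurd h1 e3
        · exact absurd h1 e3
      | B q =>
        right
        exact hullAAB_BB s t u p q hs ht x hx2 hx'
      | P => exact absurd hal id
      | Q =>
        right
        exact hullAAB_BQ s t u p hs ht x hx2 hx'
    | P =>
      cases q with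
      | A q =>
        have e3 : q ≠ t := by
          rintro rfl
          exact n2 (by simp)
        left
        refine hullAAB_AP s t u q (5 / 2) hu hst e3 (hbt q hmq) x hx2 ?_
        rw [segment_symm]
        exact hx'
      | B q => exact absurd hal id
      | P => exact absurd hal id
      | Q => exact absurd hal id
    | Q =>
      cases q with
      | A q => exact absurd hal id
      | B q =>
        right
        refine hullAAB_BQ s t u q hs ht x hx2 ?_
        rw [segment_symm]
        exact hx'
      | P => exact absurd hal id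
      | Q => exact absurd hal id

end H46K
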