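import Pool.Agent.Lib.H46K.T0

/-!
# H46K: the straight embedding, definitions
-/

set_option autoImplicit false

namespace H46K

/-- The letter of a vertex of `TG m n X`. -/
def lett {m n : ℕ} : Fin m ⊕ Fin n → Lt
  | .inl i => .A (i.1 + 1)
  | .inr j => .B (j.1 + 1)

/-- The interior bend letters of the arc of an edge. -/
def midw {m n : ℕ} : Fin m ⊕ Fin n → Fin m ⊕ Fin n → List Lt
  | .inl i, .inl j =>
      if (i.1 = 0 ∧ j.1 + 1 = m) ∨ (j.1 = 0 ∧ i.1 + 1 = m) then [.P] else []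
  | .inr i, .inr j =>
      if (i.1 = 0 ∧ j.1 + 1 = n) ∨ (j.1 = 0 ∧ i.1 + 1 = n) then [.Q] else []
  | _, _ => []

/-- The word of a walk, without its last vertex. -/
def wword {m n : ℕ} {X : Set (Fin m × Fin n)} :
    {u v : Fin m ⊕ Fin n} → (TG m n X).Walk u v → List Lt
  | _, _, .nil => []
  | _, _, .cons (u := a) (v := b) _ p => lett a :: (midw a b ++ wword p)

/-- The sides of the straight embedding of `TG m n X`, in one direction. -/
inductive SideH (m n : ℕ) (X : Set (Fin m × Fin n)) : Lt → Lt → Prop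
  | AA (s : ℕ) (h1 : 1 ≤ s) (h2 : s + 1 ≤ m) : SideH m n X (.A s) (.A (s + 1))
  | AP (s : ℕ) (h1 : s = 1 ∨ s = m) : SideH m n X (.A s) .P
  | BB (s : ℕ) (h1 : 1 ≤ s) (h2 : s + 1 ≤ n) : SideH m n X (.B s) (.B (s + 1))
  | BQ (s : ℕ) (h1 : s = 1 ∨ s = n) : SideH m n X (.B s) .Q
  | AB (i : Fin m) (j : Fin n) (h : (i, j) ∈ X) : SideH m n X (.A (i.1 + 1)) (.B (j.1 + 1))

/-- The sides of the straight embedding. -/
def Side (m n : ℕ) (X : Set (Fin m × Fin n)) (p q : Lt) : Prop :=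
  SideH m n X p q ∨ SideH m n X q p

end H46K
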