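import Pool.Agent.Lib.H46K.TC1

/-!
# H46K chunk TZ1 (M): the pairs of the word of a cycle are sides

`c` a cycle (closed walk, `IsCycle`) of `TG m n X`.
* `fol_wword`: for every walk `c : u v`, the list `wword c ++ [lett v]` : if `Fol (wword c ++ [lett v]) p q` then
  `p q` is a side of the arc of some dart of `c` (induction on `c`: the list for `cons` is
  `lett a :: (midw a b ++ (wword p ++ [lett v]))` and the second part starts with `lett b`).
* `ca_wword`: for a closed walk (of positive length) starting at `v`: the first letter of `wword c` is `lett v`, so `CA`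
  is `Fol` in `wword c ++ [lett v]` by `ca_iff`: every cyclic pair is a `Side`.
* `three_le_wword`: the length of a cycle is at least `3`.
-/

set_option autoImplicit false

namespace H46K

variable {m n : ℕ} {X : Set (Fin m × Fin n)}

theorem tz1_fol_app {α : Type*} (l : List α) (y : α) (t : List α) (p q : α)
    (h : Fol (l ++ y :: t) p q) : Fol (l ++ [y]) p q ∨ Fol (y :: t) p q := by
  induction l with
  | nil => exact Or.inr h
  | cons x l ih =>
    cases l with
    | nil =>
      simp only [List.cons_append, List.nil_append] at h ⊢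
      rcases (fol_cons_cons _ _ _ _ _).1 h with h1 | h1
      · exact Or.inl ((fol_cons_cons _ _ _ _ _).2 (Or.inl h1))
      · exact Or.inr h1
    | cons z l =>
      simp only [List.cons_append] at h ih ⊢
      rcases (fol_cons_cons _ _ _ _ _).1 h with h1 | h1
      · exact Or.inl ((fol_cons_cons _ _ _ _ _).2 (Or.inl h1))
      · rcases ih h1 with h2 | h2
        · exact Or.inl ((fol_cons_cons _ _ _ _ _).2 (Or.inr h2))
        · exact Or.inr h2

theorem tz1_head {u v : Fin m ⊕ Fin n} (c : (TG m n X).Walk u v) :
    ∃ t, wword c ++ [lett v] = lett u :: t := by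
  cases c with
  | nil => exact ⟨[], rfl⟩
  | cons h p => exact ⟨_, rfl⟩

theorem fol_wword {u v : Fin m ⊕ Fin n} (c : (TG m n X).Walk u v) (p q : Lt)
    (h : Fol (wword c ++ [lett v]) p q) :
    ∃ a b, s(a, b) ∈ c.edges ∧ Fol (lett a :: (midw a b ++ [lett b])) p q := by
  induction c with
  | nil => exact absurd h (tu1_fol_single _ p q)
  | @cons a b w hab c ih =>
    obtain ⟨t, ht⟩ := tz1_head c
    have e : wword (SimpleGraph.Walk.cons hab c) ++ [lett w] =
        (lett a :: midw a b) ++ lett b :: t := by
      rw [← ht]
      simp [wword]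
    rw [e] at h
    rcases tz1_fol_app _ _ _ _ _ h with h1 | h1
    · refine ⟨a, b, ?_, ?_⟩
      · rw [SimpleGraph.Walk.edges_cons]
        exact List.mem_cons_self
      · simpa using h1
    · rw [← ht] at h1
      obtain ⟨a', b', h2, h3⟩ := ih h1
      refine ⟨a', b', ?_, h3⟩
      rw [SimpleGraph.Walk.edges_cons]
      exact List.mem_cons_of_mem _ h2

theorem tz1_len {u v : Fin m ⊕ Fin n} (c : (TG m n X).Walk u v) :
    c.length ≤ (wword c).length := by
  induction c with
  | nil => exact le_rfl
  | @cons a b w hab c ih =>
    simp only [wword, SimpleGraph.Walk.length_cons, List.length_cons, List.length_append]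
    omega

theorem three_le_wword {v : Fin m ⊕ Fin n} (c : (TG m n X).Walk v v)
    (hc : c.IsCycle) : 3 ≤ (wword c).length :=
  hc.three_le_length.trans (tz1_len c)

theorem ca_wword (hm : 3 ≤ m) (hn : 3 ≤ n) {v : Fin m ⊕ Fin n} (c : (TG m n X).Walk v v)
    (hc : c.IsCycle) (p q : Lt) (h : CA (wword c) p q) : Side m n X p q := by
  have h3 := three_le_wword c hc
  obtain ⟨t, ht⟩ := tz1_head c
  obtain ⟨x, l, hxl⟩ : ∃ x l, wword c = x :: l := by
    cases hw : wword c with
    | nil => rw [hw] at h3; simp at h3
    | cons x l => exact ⟨x, l, rfl⟩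
  have hx : x = lett v := by
    rw [hxl] at ht
    simp only [List.cons_append, List.cons.injEq] at ht
    exact ht.1
  have hl : l ≠ [] := by
    rintro rfl
    rw [hxl] at h3
    simp at h3
  rw [hxl, ca_iff x l hl] at h
  have h' : Fol (wword c ++ [lett v]) p q := by
    rw [hxl, ← hx]
    exact h
  obtain ⟨a, b, h1, h2⟩ := fol_wword c p q h'
  have hab : (TG m n X).Adj a b := by
    have := c.edges_subset_edgeSet h1
    simpa using this
  exact side_of_arc hm hn a b hab p q h2

/-- The vertex letters of a word are in the grid. -/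
theorem letters_wword {u v : Fin m ⊕ Fin n} (c : (TG m n X).Walk u v) (p : Lt)
    (h : p ∈ wword c) : (∃ w : Fin m ⊕ Fin n, p = lett w) ∨ p = .P ∨ p = .Q := by
  induction c with
  | nil => simp [wword] at h
  | @cons a b w hab c ih =>
    simp only [wword, List.mem_cons, List.mem_append] at h
    rcases h with h | h | h
    · exact Or.inl ⟨a, h⟩
    · have h' : p ∈ lett a :: (midw a b ++ [lett b]) := by simp [h]
      rcases tc1_letters a b p h' with h1 | h1 | h1 | h1
      · exact Or.inl ⟨a, h1⟩
      · exact Or.inl ⟨b, h1⟩
      · exact Or.inr (Or.inl h1.1)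
      · exact Or.inr (Or.inr h1.1)
    · exact ih h

end H46K
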